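import Mathlib

/-! The key deterministic inequality for an optimal consecutive pairing. -/

namespace Pool.Agent.Lib.MP_3b7d13_co

open Finset Real

/-- the quadratic minorant -/
noncomputable def qq (z : ℝ) : ℝ := 4 * (47 / 50 * z - 63 / 250 * z ^ 2)

/-- its primitive -/
noncomputable def PP (s : ℝ) : ℝ := 8 * (47 / 50) * s ^ 2 - 64 * (63 / 250) / 3 * s ^ 3

lemma qq_le_sin_sq {φ z : ℝ} (h0 : 0 ≤ φ) (h1 : φ ≤ π) (hz : 0 ≤ z) (hz1 : z ≤ φ ^ 2)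
    (hz2 : z ≤ (π - φ) ^ 2) : qq z ≤ 4 * sin φ ^ 2 := by
  obtain ⟨x, hx0, rfl⟩ : ∃ x, 0 ≤ x ∧ z = x ^ 2 := ⟨√z, sqrt_nonneg _, (sq_sqrt hz).symm⟩
  have hx1 : x ≤ φ := by
    by_contra h; push Not at h; nlinarith
  have hx2 : x ≤ π - φ := by
    by_contra h; push Not at h; nlinarith
  have hpi := pi_lt_d2
  have hsin : sin x ≤ sin φ := by
    rcases le_total φ (π / 2) with h | h
    · exact sin_le_sin_of_le_of_le_pi_div_two (by linarith [pi_pos]) h hx1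
    · rw [← sin_pi_sub φ]
      exact sin_le_sin_of_le_of_le_pi_div_two (by linarith [pi_pos]) (by linarith) hx2
  have h3 := sin_ge_sub_cube hx0
  have hx3 : x ≤ 2 := by linarith
  have h4 : 0 ≤ x - x ^ 3 / 6 := by
    have : 0 ≤ x * (1 - x ^ 2 / 6) := mul_nonneg hx0 (by nlinarith)
    nlinarith
  have h5 : (x - x ^ 3 / 6) ^ 2 ≤ sin φ ^ 2 := pow_le_pow_left₀ h4 (h3.trans hsin) 2
  have h6 : 47 / 50 - 63 / 250 * x ^ 2 ≤ (1 - x ^ 2 / 6) ^ 2 := by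
    nlinarith [sq_nonneg (x ^ 2 - 1464 / 1000)]
  have h7 : x ^ 2 * (47 / 50 - 63 / 250 * x ^ 2) ≤ x ^ 2 * (1 - x ^ 2 / 6) ^ 2 :=
    mul_le_mul_of_nonneg_left h6 (sq_nonneg x)
  unfold qq
  nlinarith

lemma PP_step (s d : ℝ) (hd : 0 ≤ d) : PP (s + d) - PP s ≤ d * qq (4 * s + 2 * d) := by
  unfold PP qq
  nlinarith [mul_nonneg hd (sq_nonneg d)]

/-- the telescoping potential -/
noncomputable def Psi (V t : ℝ) : ℝ := PP (min t (V / 2)) + PP (V / 2) - PP (min (V - t) (V / 2))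

lemma Psi_step {V s d S : ℝ} (hs : 0 ≤ s) (hd : 0 ≤ d) (hV : s + d ≤ V)
    (hS : ∀ z, 0 ≤ z → z ≤ 4 * s + 2 * d → z ≤ 4 * (V - s - d) + 2 * d → qq z ≤ S) :
    Psi V (s + d) - Psi V s ≤ d * S := by
  unfold Psi
  rcases le_total (s + d) (V / 2) with h | h
  · rw [min_eq_left h, min_eq_left (by linarith : s ≤ V / 2),
      min_eq_right (by linarith : V / 2 ≤ V - (s + d)), min_eq_right (by linarith : V / 2 ≤ V - s)]
    have h1 := PP_step s d hd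
    have h2 := hS (4 * s + 2 * d) (by linarith) le_rfl (by linarith)
    have h3 := mul_le_mul_of_nonneg_left h2 hd
    linarith
  rcases le_total (V / 2) s with h' | h'
  · rw [min_eq_right h, min_eq_right h',
      min_eq_left (by linarith : V - (s + d) ≤ V / 2), min_eq_left (by linarith : V - s ≤ V / 2)]
    have h1 := PP_step (V - (s + d)) d hd
    have h2 := hS (4 * (V - (s + d)) + 2 * d) (by linarith) (by linarith) (by linarith)
    have h3 := mul_le_mul_of_nonneg_left h2 hd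
    have e : V - (s + d) + d = V - s := by ring
    rw [e] at h1
    linarith
  · rw [min_eq_right h, min_eq_left h',
      min_eq_left (by linarith : V - (s + d) ≤ V / 2), min_eq_right (by linarith : V / 2 ≤ V - s)]
    rcases hd.eq_or_lt with hd0 | hd0
    · subst hd0
      have : s = V / 2 := by linarith
      subst this
      have e : V - (V / 2 + 0) = V / 2 := by ring
      rw [e]; simp
    obtain ⟨d1, hd1⟩ : ∃ d1, d1 = V / 2 - s := ⟨_, rfl⟩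
    obtain ⟨d2, hd2⟩ : ∃ d2, d2 = s + d - V / 2 := ⟨_, rfl⟩
    have p1 : 0 ≤ d1 := by linarith
    have p2 : 0 ≤ d2 := by linarith
    have hdd : d = d1 + d2 := by linarith
    have h1 := PP_step s d1 p1
    have h2 := PP_step (V - (s + d)) d2 p2
    have e1 : s + d1 = V / 2 := by linarith
    have e2 : V - (s + d) + d2 = V / 2 := by linarith
    rw [e1] at h1
    rw [e2] at h2
    obtain ⟨z1, hz1⟩ : ∃ z1, z1 = 4 * s + 2 * d1 := ⟨_, rfl⟩
    obtain ⟨z2, hz2⟩ : ∃ z2, z2 = 4 * (V - (s + d)) + 2 * d2 := ⟨_, rfl⟩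
    rw [← hz1] at h1
    rw [← hz2] at h2
    obtain ⟨z, hz⟩ : ∃ z, d * z = d1 * z1 + d2 * z2 :=
      ⟨(d1 * z1 + d2 * z2) / d, by field_simp⟩
    have q1 : 0 ≤ z1 := by linarith
    have q2 : 0 ≤ z2 := by linarith
    have hz0 : 0 ≤ z := by
      have : 0 ≤ d * z := by rw [hz]; positivity
      exact (mul_nonneg_iff_of_pos_left hd0).1 this
    have hza : z ≤ 4 * s + 2 * d := by
      apply le_of_mul_le_mul_left _ hd0
      have ez : z2 = 4 * s + 4 * d1 - 2 * d2 := by linarith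
      rw [hz, hz1, ez, hdd]
      nlinarith [sq_nonneg d2]
    have hzb : z ≤ 4 * (V - s - d) + 2 * d := by
      apply le_of_mul_le_mul_left _ hd0
      obtain ⟨r, hr⟩ : ∃ r, r = V - s - d := ⟨_, rfl⟩
      have ez : z1 = 4 * r + 4 * d2 - 2 * d1 := by linarith
      have ez2 : z2 = 4 * r + 2 * d2 := by linarith
      rw [hz, ← hr, ez, ez2, hdd]
      nlinarith [sq_nonneg d1]
    have h3 := mul_le_mul_of_nonneg_left (hS z hz0 hza hzb) hd
    have h4 : d * z ^ 2 ≤ d1 * z1 ^ 2 + d2 * z2 ^ 2 := by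
      have a1 := mul_nonneg p1 (sq_nonneg (z1 - z))
      have a2 := mul_nonneg p2 (sq_nonneg (z2 - z))
      have a3 : z * (d * z) = z * (d1 * z1 + d2 * z2) := by rw [hz]
      rw [hdd] at a3 ⊢
      nlinarith
    have h5 : d1 * qq z1 + d2 * qq z2 ≤ d * qq z := by
      unfold qq
      nlinarith
    linarith

lemma poly_bound {r g : ℝ} (hr : 0 ≤ r) (hg : 0 ≤ g) (h : g + r ≤ 31416 / 10000) :
    0 ≤ g ^ 2 * (7 / 10 - 672 / 1000 * r ^ 2) + r ^ 2 := by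
  rcases le_total (7 / 10 - 672 / 1000 * r ^ 2) 0 with h1 | h1
  · have hg2 : g ^ 2 ≤ (31416 / 10000 - r) ^ 2 := pow_le_pow_left₀ hg (by linarith) 2
    have h2 : (31416 / 10000 - r) ^ 2 * (7 / 10 - 672 / 1000 * r ^ 2) ≤
        g ^ 2 * (7 / 10 - 672 / 1000 * r ^ 2) := mul_le_mul_of_nonpos_right hg2 h1
    have hr1 : 1 ≤ r := by nlinarith
    have hr2 : r ≤ 31416 / 10000 := by linarith
    have h3 : 0 ≤ (31416 / 10000 - r) ^ 2 * (7 / 10 - 672 / 1000 * r ^ 2) + r ^ 2 := by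
      nlinarith [mul_nonneg (mul_nonneg (sub_nonneg.2 hr1) (sub_nonneg.2 hr2)) (sq_nonneg (r - 147 / 100)),
        sq_nonneg (r - 147 / 100), mul_nonneg (sub_nonneg.2 hr1) (sq_nonneg (r - 147 / 100)),
        mul_nonneg (sub_nonneg.2 hr2) (sq_nonneg (r - 147 / 100))]
    linarith
  · positivity

lemma key_abstract (m : ℕ) (l φ : ℕ → ℝ) (hl : ∀ k, 0 ≤ l k)
    (hφ : ∀ k < m, 0 ≤ φ k ∧ φ k ≤ π ∧
      4 * ∑ i ∈ range k, l i ^ 2 + 2 * l k ^ 2 ≤ φ k ^ 2 ∧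
      4 * (∑ i ∈ range m, l i ^ 2 - ∑ i ∈ range (k + 1), l i ^ 2) + 2 * l k ^ 2 ≤ (π - φ k) ^ 2)
    (U : ℝ) (hU0 : 0 ≤ U) (hU : 2 * ∑ i ∈ range m, l i ^ 2 ≤ U ^ 2)
    (hG : ∑ i ∈ range m, l i + U ≤ π) :
    306 / 100 * (∑ i ∈ range m, l i ^ 2) ^ 2 ≤
      ∑ k ∈ range m, l k ^ 2 * (4 * sin (φ k) ^ 2) + 2 * ∑ k ∈ range m, l k ^ 4 := by
  obtain ⟨V, hV⟩ : ∃ V, V = ∑ i ∈ range m, l i ^ 2 := ⟨_, rfl⟩
  rw [← hV] at hφ hU ⊢
  have hV0 : 0 ≤ V := by rw [hV]; exact sum_nonneg fun i _ => sq_nonneg _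
  have htel : ∀ j ≤ m, Psi V (∑ i ∈ range j, l i ^ 2) - Psi V 0 ≤
      ∑ k ∈ range j, l k ^ 2 * (4 * sin (φ k) ^ 2) := by
    intro j
    induction j with
    | zero => intro _; simp
    | succ j ih =>
      intro hj
      have ih' := ih (by omega)
      obtain ⟨a, b, c, d⟩ := hφ j (by omega)
      have hle : ∑ i ∈ range (j + 1), l i ^ 2 ≤ V := by
        rw [hV]
        exact sum_le_sum_of_subset_of_nonneg (range_subset_range.2 hj) fun i _ _ => sq_nonneg _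
      rw [sum_range_succ] at hle d
      have := Psi_step (V := V) (s := ∑ i ∈ range j, l i ^ 2) (d := l j ^ 2)
        (S := 4 * sin (φ j) ^ 2) (sum_nonneg fun i _ => sq_nonneg _) (sq_nonneg _) hle
        (fun z hz h1 h2 => qq_le_sin_sq a b hz (by linarith) (by linarith))
      rw [sum_range_succ, sum_range_succ]
      linarith
  have h1 := htel m le_rfl
  rw [← hV] at h1
  have e1 : Psi V V - Psi V 0 = 4 * (47 / 50) * V ^ 2 - 16 * (63 / 250) / 3 * V ^ 3 := by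
    unfold Psi
    rw [min_eq_right (by linarith : V / 2 ≤ V), min_eq_left (by linarith : V - V ≤ V / 2),
      min_eq_left (by linarith : 0 ≤ V / 2), min_eq_right (by linarith : V / 2 ≤ V - 0)]
    unfold PP; ring
  rw [e1] at h1
  rcases hV0.eq_or_lt with hV1 | hV1
  · rw [← hV1] at h1 ⊢
    have : 0 ≤ ∑ k ∈ range m, l k ^ 4 := sum_nonneg fun i _ => by positivity
    linarith
  obtain ⟨r, hr0, hr⟩ : ∃ r, 0 ≤ r ∧ r ^ 2 = 2 * V :=
    ⟨√(2 * V), sqrt_nonneg _, sq_sqrt (by linarith)⟩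
  have hrU : r ≤ U := by
    by_contra h; push Not at h; nlinarith
  obtain ⟨G, hGd⟩ : ∃ G, G = ∑ i ∈ range m, l i := ⟨_, rfl⟩
  rw [← hGd] at hG
  have hG0 : 0 < G := by
    have : V ≤ G ^ 2 := by
      rw [hV, hGd]; exact sum_sq_le_sq_sum_of_nonneg fun i _ => hl i
    have h2 : 0 ≤ G := by rw [hGd]; exact sum_nonneg fun i _ => hl i
    rcases h2.eq_or_lt with h | h
    · rw [← h] at this; linarith
    · exact h
  obtain ⟨κ, hκ⟩ : ∃ κ, κ * G = V := ⟨V / G, by field_simp⟩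
  have hκ0 : 0 ≤ κ := by
    by_contra h; push Not at h; nlinarith
  have h4 : 3 * κ ^ 2 * V - 2 * κ ^ 3 * G ≤ ∑ k ∈ range m, l k ^ 4 := by
    rw [hV, hGd, mul_sum, mul_sum, ← sum_sub_distrib]
    refine sum_le_sum fun i _ => ?_
    have := mul_nonneg (mul_nonneg (hl i) (sq_nonneg (l i - κ)))
      (by have := hl i; positivity : 0 ≤ l i + 2 * κ)
    nlinarith
  have h5 : 3 * κ ^ 2 * V - 2 * κ ^ 3 * G = κ ^ 2 * V := by rw [← hκ]; ring
  have h6 := poly_bound hr0 hG0.le (by linarith [pi_lt_d4])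
  rw [hr] at h6
  have h7 : 0 ≤ κ ^ 2 * (G ^ 2 * (7 / 10 - 672 / 1000 * (2 * V)) + 2 * V) :=
    mul_nonneg (sq_nonneg _) h6
  have h8 : κ ^ 2 * (G ^ 2 * (7 / 10 - 672 / 1000 * (2 * V)) + 2 * V) =
      V ^ 2 * (7 / 10 - 672 / 1000 * (2 * V)) + 2 * (κ ^ 2 * V) := by
    rw [← hκ]; ring
  nlinarith

lemma sq_lower {U G γ l t : ℝ} (hU : 0 ≤ U) (hG : 0 ≤ G) (hl : 0 ≤ l) (hγ : l ≤ γ) (ht : 0 ≤ t)
    (h1 : t + l ^ 2 ≤ U ^ 2) (h2 : t ≤ G ^ 2) : 4 * t + 2 * l ^ 2 ≤ (U + G + γ / 2) ^ 2 := by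
  have hUl : l ≤ U := by
    by_contra h; push Not at h; nlinarith
  have hUG : t ≤ U * G := by
    by_contra h; push Not at h
    have a : (U * G) ^ 2 < t ^ 2 := pow_lt_pow_left₀ h (mul_nonneg hU hG) (by norm_num)
    have b : t * t ≤ U ^ 2 * G ^ 2 := mul_le_mul (by nlinarith) h2 ht (sq_nonneg _)
    nlinarith
  have h3 : l * l ≤ γ * U := mul_le_mul hγ hUl hl (by linarith)
  have h4 : 0 ≤ γ * G := mul_nonneg (by linarith) hG
  nlinarith [sq_nonneg γ]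

/-- The key inequality in terms of the sorted angles. -/
lemma key_angles (m : ℕ) (θ : ℕ → ℝ) (hmono : ∀ i, θ i ≤ θ (i + 1)) (h0 : θ 0 = 0)
    (hπ : θ (2 * m + 1) = π)
    (hL : ∀ j ≤ m, ∑ k ∈ range j, (2 - 2 * cos (θ (2 * k + 2) - θ (2 * k + 1))) ≤
      ∑ k ∈ range j, (θ (2 * k + 1) - θ (2 * k)) ^ 2)
    (hR : ∀ j ≤ m, ∑ k ∈ Ico j m, (2 - 2 * cos (θ (2 * k + 2) - θ (2 * k + 1))) ≤
      ∑ k ∈ Ico (j + 1) (m + 1), (θ (2 * k + 1) - θ (2 * k)) ^ 2) :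
    306 / 100 * (∑ k ∈ range m, (2 - 2 * cos (θ (2 * k + 2) - θ (2 * k + 1)))) ^ 2 ≤
      4 * ∑ k ∈ range m, (cos (θ (2 * k + 2)) - cos (θ (2 * k + 1))) ^ 2 +
        2 * ∑ k ∈ range m, (2 - 2 * cos (θ (2 * k + 2) - θ (2 * k + 1))) ^ 2 := by
  obtain ⟨u, hu⟩ : ∃ u : ℕ → ℝ, ∀ k, u k = θ (2 * k + 1) - θ (2 * k) := ⟨_, fun _ => rfl⟩
  obtain ⟨γ, hγ⟩ : ∃ γ : ℕ → ℝ, ∀ k, γ k = θ (2 * k + 2) - θ (2 * k + 1) := ⟨_, fun _ => rfl⟩
  obtain ⟨l, hl⟩ : ∃ l : ℕ → ℝ, ∀ k, l k = 2 * |sin (γ k / 2)| := ⟨_, fun _ => rfl⟩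
  obtain ⟨φ, hφ⟩ : ∃ φ : ℕ → ℝ, ∀ k, φ k = (θ (2 * k + 2) + θ (2 * k + 1)) / 2 :=
    ⟨_, fun _ => rfl⟩
  have hu0 : ∀ k, 0 ≤ u k := fun k => by rw [hu]; linarith [hmono (2 * k)]
  have hγ0 : ∀ k, 0 ≤ γ k := fun k => by rw [hγ]; linarith [hmono (2 * k + 1)]
  have hl0 : ∀ k, 0 ≤ l k := fun k => by rw [hl]; positivity
  have hlγ : ∀ k, l k ≤ γ k := fun k => by
    rw [hl]
    have := abs_sin_le_abs (x := γ k / 2)
    rw [abs_of_nonneg (by linarith [hγ0 k] : 0 ≤ γ k / 2)] at this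
    linarith
  have hl2 : ∀ k, 2 - 2 * cos (θ (2 * k + 2) - θ (2 * k + 1)) = l k ^ 2 := fun k => by
    rw [hl, ← hγ, mul_pow, sq_abs]
    have := cos_two_mul (γ k / 2)
    rw [show 2 * (γ k / 2) = γ k by ring] at this
    have h2 := sin_sq_add_cos_sq (γ k / 2)
    linarith
  have hx2 : ∀ k, (cos (θ (2 * k + 2)) - cos (θ (2 * k + 1))) ^ 2 = l k ^ 2 * sin (φ k) ^ 2 :=
    fun k => by
      rw [cos_sub_cos, ← hφ, ← hγ, hl, mul_pow, mul_pow, mul_pow, sq_abs]; ring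
  simp only [hl2, hx2, ← hu] at hL hR ⊢
  have hθe : ∀ k, θ (2 * k) = ∑ i ∈ range k, u i + ∑ i ∈ range k, γ i := by
    intro k
    induction k with
    | zero => simpa using h0
    | succ k ih =>
      rw [sum_range_succ, sum_range_succ, hu k, hγ k, show 2 * (k + 1) = 2 * k + 2 by ring]
      linarith
  have hθo : ∀ k, θ (2 * k + 1) = ∑ i ∈ range (k + 1), u i + ∑ i ∈ range k, γ i := by
    intro k
    rw [sum_range_succ, hu k]; linarith [hθe k]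
  have hUl : ∀ j ≤ m, ∑ k ∈ range j, l k ^ 2 ≤ (∑ k ∈ range j, u k) ^ 2 := fun j hj =>
    (hL j hj).trans (sum_sq_le_sq_sum_of_nonneg fun i _ => hu0 i)
  have hUr : ∀ j ≤ m, ∑ k ∈ Ico j m, l k ^ 2 ≤ (∑ k ∈ Ico (j + 1) (m + 1), u k) ^ 2 :=
    fun j hj => (hR j hj).trans (sum_sq_le_sq_sum_of_nonneg fun i _ => hu0 i)
  have hGs : ∀ s : Finset ℕ, ∑ k ∈ s, l k ^ 2 ≤ (∑ k ∈ s, γ k) ^ 2 := fun s =>
    (sum_le_sum fun i _ => pow_le_pow_left₀ (hl0 i) (hlγ i) 2).trans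
      (sum_sq_le_sq_sum_of_nonneg fun i _ => hγ0 i)
  have hπ' : π = ∑ i ∈ range (m + 1), u i + ∑ i ∈ range m, γ i := by rw [← hπ, hθo]
  have key := key_abstract m l φ hl0 ?_ (∑ i ∈ range (m + 1), u i)
    (sum_nonneg fun i _ => hu0 i) ?_ ?_
  · have e1 : ∑ k ∈ range m, l k ^ 2 * (4 * sin (φ k) ^ 2) =
        4 * ∑ k ∈ range m, l k ^ 2 * sin (φ k) ^ 2 := by
      rw [mul_sum]; exact sum_congr rfl fun i _ => by ring
    have e2 : ∑ k ∈ range m, (l k ^ 2) ^ 2 = ∑ k ∈ range m, l k ^ 4 :=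
      sum_congr rfl fun i _ => by ring
    rw [e2, ← e1]; exact key
  · intro k hk
    have eφ : φ k = ∑ i ∈ range (k + 1), u i + ∑ i ∈ range k, γ i + γ k / 2 := by
      rw [hφ, ← hθo, hγ]; ring
    have eφ' : π - φ k = ∑ i ∈ Ico (k + 1) (m + 1), u i + ∑ i ∈ Ico (k + 1) m, γ i + γ k / 2 := by
      rw [sum_Ico_eq_sub _ (by omega), sum_Ico_eq_sub _ (by omega), eφ, hπ', sum_range_succ γ]
      ring
    have p1 : 0 ≤ ∑ i ∈ range (k + 1), u i := sum_nonneg fun i _ => hu0 i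
    have p2 : 0 ≤ ∑ i ∈ range k, γ i := sum_nonneg fun i _ => hγ0 i
    have p3 : 0 ≤ ∑ i ∈ Ico (k + 1) (m + 1), u i := sum_nonneg fun i _ => hu0 i
    have p4 : 0 ≤ ∑ i ∈ Ico (k + 1) m, γ i := sum_nonneg fun i _ => hγ0 i
    have p5 := hγ0 k
    refine ⟨by linarith, by linarith, ?_, ?_⟩
    · rw [eφ]
      refine sq_lower p1 p2 (hl0 k) (hlγ k) (sum_nonneg fun i _ => sq_nonneg _) ?_ (hGs _)
      rw [← sum_range_succ (fun i => l i ^ 2)]
      exact hUl _ hk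
    · rw [eφ', ← sum_Ico_eq_sub _ (by omega)]
      refine sq_lower p3 p4 (hl0 k) (hlγ k) (sum_nonneg fun i _ => sq_nonneg _) ?_ (hGs _)
      have := hUr k hk.le
      rw [sum_eq_sum_Ico_succ_bot hk] at this
      linarith
  · obtain ⟨V, hV⟩ : ∃ V, V = ∑ i ∈ range m, l i ^ 2 := ⟨_, rfl⟩
    rw [← hV]
    have hV0 : 0 ≤ V := by rw [hV]; exact sum_nonneg fun i _ => sq_nonneg _
    rcases hV0.eq_or_lt with hV1 | hV1
    · rw [← hV1, mul_zero]; exact sq_nonneg _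
    have hex : ∃ j, V / 2 ≤ ∑ i ∈ range j, l i ^ 2 := ⟨m, by rw [← hV]; linarith⟩
    classical
    have hj := Nat.find_spec hex
    have hjm : Nat.find hex ≤ m := Nat.find_min' hex (by rw [← hV]; linarith)
    obtain ⟨j, hjd⟩ : ∃ j, Nat.find hex = j + 1 := by
      refine Nat.exists_eq_succ_of_ne_zero fun h => ?_
      rw [h] at hj; simp at hj; linarith
    have hj' := Nat.find_min hex (m := j) (by omega)
    rw [hjd] at hj hjm
    push Not at hj'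
    have a1 := hUl (j + 1) hjm
    have a2 := hUr j (by omega)
    rw [sum_Ico_eq_sub _ (by omega : j ≤ m), ← hV] at a2
    have e : ∑ i ∈ range (m + 1), u i =
        ∑ i ∈ range (j + 1), u i + ∑ i ∈ Ico (j + 1) (m + 1), u i := by
      rw [sum_Ico_eq_sub _ (by omega)]; ring
    rw [e]
    have p1 : 0 ≤ ∑ i ∈ range (j + 1), u i := sum_nonneg fun i _ => hu0 i
    have p3 : 0 ≤ ∑ i ∈ Ico (j + 1) (m + 1), u i := sum_nonneg fun i _ => hu0 i
    generalize ∑ i ∈ range (j + 1), u i = A at *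
    generalize ∑ i ∈ Ico (j + 1) (m + 1), u i = B at *
    have b1 : V / 2 ≤ A ^ 2 := by linarith
    have b2 : V / 2 ≤ B ^ 2 := by linarith
    have b3 : V / 2 ≤ A * B := by
      by_contra h; push Not at h
      have a : (A * B) ^ 2 < (V / 2) ^ 2 := pow_lt_pow_left₀ h (mul_nonneg p1 p3) (by norm_num)
      have b : V / 2 * (V / 2) ≤ A ^ 2 * B ^ 2 := mul_le_mul b1 b2 (by linarith) (sq_nonneg _)
      nlinarith
    nlinarith
  · have : ∑ i ∈ range m, l i ≤ ∑ i ∈ range m, γ i := sum_le_sum fun i _ => hlγ i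
    linarith

end Pool.Agent.Lib.MP_3b7d13_co
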