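import Pool.Agent.Lib.MP_3b7d13_co.Dichotomy

/-! Asymptotic form of the lower bound. -/

namespace Pool.Agent.Lib.MP_3b7d13_co

open Finset Real Filter Topology

lemma tendsto_poly_exp {γ : ℝ} (hγ : 0 < γ) (C : ℝ) (m : ℕ) :
    Tendsto (fun k : ℕ => (1 + C * (k : ℝ) ^ m) * exp (-(γ * k))) atTop (𝓝 0) := by
  have h0 : Tendsto (fun k : ℕ => γ * (k : ℝ)) atTop atTop :=
    tendsto_natCast_atTop_atTop.const_mul_atTop hγ
  have h1 := (tendsto_pow_mul_exp_neg_atTop_nhds_zero 0).comp h0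
  have h2 := ((tendsto_pow_mul_exp_neg_atTop_nhds_zero m).comp h0).const_mul (C / γ ^ m)
  have h3 := h1.add h2
  simp only [mul_zero, add_zero] at h3
  refine h3.congr fun k => ?_
  simp only [Function.comp, pow_zero, mul_pow]
  field_simp

lemma ev_central {ε : ℝ} (hε0 : 0 < ε) (hε : ε < 1) : ∀ᶠ k : ℕ in atTop,
    (1 - ε) / π ≤ (k.centralBinom / 4 ^ k * exp (-((1 + 1 / ε) / ((1 - ε) * k)))) ^ 2 * k := by
  have h0 : Tendsto (fun k : ℕ => (1 + 1 / ε) / ((1 - ε) * k)) atTop (𝓝 0) :=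
    tendsto_const_nhds.div_atTop (tendsto_natCast_atTop_atTop.const_mul_atTop (by linarith))
  have h1 := (continuous_exp.tendsto _).comp h0.neg
  have h2 : Tendsto (fun k : ℕ => 1 / (2 * (k : ℝ) + 1)) atTop (𝓝 0) :=
    tendsto_const_nhds.div_atTop (tendsto_atTop_add_const_right _ _
      (tendsto_natCast_atTop_atTop.const_mul_atTop two_pos))
  have h3 := (h1.pow 2).mul (h2.const_sub 1)
  simp only [neg_zero, exp_zero, one_pow, sub_zero, mul_one] at h3
  filter_upwards [h3.eventually (lt_mem_nhds (by linarith : 1 - ε < 1))] with k hk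
  simp only [Function.comp] at hk
  have h4 := cb_lower k
  have h5 : 1 - 1 / (2 * (k : ℝ) + 1) ≤ (k.centralBinom / 4 ^ k) ^ 2 * k * π := by
    have e : ((4 : ℝ) ^ k) ^ 2 = 16 ^ k := by rw [← pow_mul, mul_comm, pow_mul]; norm_num
    have e2 : 1 - 1 / (2 * (k : ℝ) + 1) = 2 * k / (2 * k + 1) := by field_simp; ring
    rw [div_pow, e, e2, div_mul_eq_mul_div, div_mul_eq_mul_div,
      div_le_div_iff₀ (by positivity) (by positivity)]
    nlinarith [mul_le_mul_of_nonneg_right h4 (Nat.cast_nonneg k : (0 : ℝ) ≤ k)]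
  rw [div_le_iff₀ pi_pos, mul_pow]
  nlinarith [mul_le_mul_of_nonneg_left h5 (sq_nonneg (exp (-((1 + 1 / ε) / ((1 - ε) * k)))))]

lemma exists_eps {d : ℕ} {B t : ℝ} (hB : 0 < B) (ht : t < √(2 / π) ^ d / √B) :
    ∃ ε : ℝ, 0 < ε ∧ ε ≤ 1 / 2 ∧
      t ≤ (1 - ε) * (((1 - ε) / (1 + ε) * √(2 / π)) ^ d / √(B + 2 * ε)) := by
  have hc : ContinuousAt (fun ε : ℝ =>
      (1 - ε) * (((1 - ε) / (1 + ε) * √(2 / π)) ^ d / √(B + 2 * ε))) 0 := by
    have : √(B + 2 * 0) ≠ 0 := by simpa using (sqrt_pos.2 hB).ne'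
    fun_prop (disch := first | assumption | norm_num)
  have h1 := hc.eventually (lt_mem_nhds (a := t) (by simpa using ht))
  have h2 : ∀ᶠ ε : ℝ in 𝓝 0, ε ≤ 1 / 2 := eventually_le_nhds (by norm_num)
  obtain ⟨ε, ⟨a, b⟩, c⟩ := (((h1.and h2).filter_mono nhdsWithin_le_nhds).and
    (self_mem_nhdsWithin (s := Set.Ioi (0 : ℝ)))).exists
  exact ⟨ε, c, b, a.le⟩

lemma main_arith {d n : ℕ} {ε B p c Q err k : ℝ} (hε0 : 0 < ε) (hε : ε < 1) (hB : 0 < B) (hk : 0 < k)
    (hn : 0 < n) (hp0 : 0 ≤ p) (hp : (1 - ε) / π ≤ p ^ 2 * k)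
    (hc : c = (1 + ε) ^ 2 / (2 * ((1 - ε) * k))) (hQ0 : 0 < Q) (hQ : Q ≤ (B + 2 * ε) * (c * n) ^ d)
    (herr : err * √((B + 2 * ε) * (c * n) ^ d) ≤ ε) :
    (1 - ε) * (((1 - ε) / (1 + ε) * √(2 / π)) ^ d / √(B + 2 * ε)) ≤
      √n ^ d * (p ^ d * (1 / √Q - err)) := by
  have hε1 : 0 < 1 - ε := by linarith
  have hc0 : 0 < c := by rw [hc]; positivity
  have hn0 : (0 : ℝ) < n := by exact_mod_cast hn
  have e : √((B + 2 * ε) * (c * n) ^ d) = √(B + 2 * ε) * (√c * √n) ^ d := by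
    have e0 : √((c * n) ^ d) = √(c * n) ^ d := by
      rw [sqrt_eq_iff_mul_self_eq_of_pos (by positivity), ← mul_pow, mul_self_sqrt (by positivity)]
    rw [sqrt_mul (by positivity), ← sqrt_mul hc0.le, e0]
  have h1 : (1 - ε) / √((B + 2 * ε) * (c * n) ^ d) ≤ 1 / √Q - err := by
    have a := one_div_le_one_div_of_le (sqrt_pos.2 hQ0) (sqrt_le_sqrt hQ)
    have b : err ≤ ε / √((B + 2 * ε) * (c * n) ^ d) := (le_div_iff₀ (by positivity)).2 herr
    rw [sub_div]; linarith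
  have h2 : (1 - ε) / (1 + ε) * √(2 / π) * √c ≤ p := by
    refine abs_le_of_sq_le_sq' ?_ hp0 |>.2
    rw [mul_pow, mul_pow, sq_sqrt (by positivity), sq_sqrt hc0.le, hc]
    apply le_of_mul_le_mul_right _ hk
    refine le_trans (le_of_eq ?_) hp
    field_simp
  have h3 := pow_le_pow_left₀ (by positivity) h2 d
  refine le_trans ?_ (mul_le_mul_of_nonneg_left (mul_le_mul h3 h1 (by positivity) (by positivity))
    (by positivity))
  rw [e]
  apply le_of_eq
  simp only [mul_pow]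
  have : 0 < √c := sqrt_pos.2 hc0
  have : 0 < √(n : ℝ) := sqrt_pos.2 hn0
  field_simp

theorem lower_main {d : ℕ} (hd : 1 ≤ d) {B : ℝ} (hB : 0 < B) (hH : Hyp d B) {t : ℝ}
    (ht : t < √(2 / π) ^ d / √(B / d.factorial)) :
    ∀ᶠ n : ℕ in atTop, ∀ v : Fin n → EuclideanSpace ℝ (Fin d), (∀ i, ‖v i‖ = 1) →
      t ≤ √n ^ d * prob v √d := by
  have hd1 : (1 : ℝ) ≤ d := by exact_mod_cast hd
  have hf : (0 : ℝ) < d.factorial := by positivity
  obtain ⟨B', hB'⟩ : ∃ B', B' = B / d.factorial := ⟨_, rfl⟩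
  rw [← hB'] at ht
  have hB0 : 0 < B' := by rw [hB']; positivity
  obtain ⟨ε, hε0, hε, hεt⟩ := exists_eps hB0 ht
  have hcD : 0 < cD d := by unfold cD; positivity
  obtain ⟨δ, hδ0, hδ, hδt⟩ : ∃ δ : ℝ, 0 < δ ∧ δ ≤ 1 ∧ t * (2 * δ) ≤ cD d := by
    refine ⟨min 1 (cD d / (2 * (|t| + 1))), by positivity, min_le_left _ _, ?_⟩
    have h1 := min_le_right 1 (cD d / (2 * (|t| + 1)))
    have h2 : 0 < min 1 (cD d / (2 * (|t| + 1))) := by positivity
    rw [le_div_iff₀ (by positivity)] at h1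
    nlinarith only [le_abs_self t, h1, h2]
  obtain ⟨A, hA⟩ : ∃ A : ℝ, A = d / δ ^ 2 := ⟨_, rfl⟩
  have hA0 : 0 < A := by rw [hA]; positivity
  obtain ⟨G, hG⟩ : ∃ G : ℝ, G = (d.factorial * (1 / δ) ^ d) ^ 2 := ⟨_, rfl⟩
  have hG0 : 0 < G := by rw [hG]; positivity
  obtain ⟨σ, hσ0, hσ1, hσ2⟩ : ∃ σ : ℝ, 0 < σ ∧ σ ≤ δ ^ 2 ∧ σ * d * G ≤ ε * d.factorial := by
    refine ⟨min (δ ^ 2) (ε * d.factorial / (d * G)), by positivity, min_le_left _ _, ?_⟩
    have := min_le_right (δ ^ 2) (ε * d.factorial / (d * G))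
    rwa [le_div_iff₀ (by positivity), ← mul_assoc] at this
  have hlin : ∀ C a : ℝ, 0 < a → ∀ᶠ k : ℕ in atTop, C ≤ a * k := fun C a ha =>
    (tendsto_natCast_atTop_atTop.const_mul_atTop ha).eventually_ge_atTop C
  have herr := ((tendsto_poly_exp (γ := ε / (12 * d * A)) (by positivity)
    ((B' + 1) * (3 * 2 ^ (d + 2)) ^ d) ((d + 2) * d)).const_mul (4 * (d : ℝ))).add
    (tendsto_poly_exp (γ := ε ^ 2 / 4) (by positivity)
      ((B' + 1) * (3 * 2 ^ (d + 2)) ^ d) ((d + 2) * d))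
  simp only [mul_zero, add_zero] at herr
  obtain ⟨k0, hk0⟩ := eventually_atTop.1 ((hlin 2 ε hε0).and ((ev_central hε0 (by linarith)).and
    ((hlin (2 * (60 * d ^ 4 / δ) ^ d) σ hσ0).and ((hlin (d * (1 + A) ^ (d - 1)) (ε / 2)
      (by positivity)).and ((hlin 1 (δ ^ 2) (by positivity)).and
        (herr.eventually (eventually_le_nhds hε0)))))))
  filter_upwards [eventually_ge_atTop (k0 ^ (d + 2))] with n hn v hv
  obtain ⟨k, hk1, hk2⟩ : ∃ k, k ^ (d + 2) ≤ n ∧ n < (k + 1) ^ (d + 2) :=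
    ⟨_, Nat.pow_nthRoot_le (Or.inl (by omega)), Nat.lt_pow_nthRoot_add_one (by omega) n⟩
  obtain ⟨a1, a2, a3, a4, a5, a6⟩ := hk0 k (by
    have := lt_of_pow_lt_pow_left₀ _ (Nat.zero_le _) (hn.trans_lt hk2)
    omega)
  have hk4 : (4 : ℝ) ≤ k := by nlinarith only [(Nat.cast_nonneg k : (0 : ℝ) ≤ k), a1, hε]
  have hk1' : (k : ℝ) ^ (d + 2) ≤ n := by exact_mod_cast hk1
  have hk2' : (n : ℝ) ≤ (2 * k) ^ (d + 2) := by
    have : (n : ℝ) ≤ (k + 1) ^ (d + 2) := by exact_mod_cast hk2.le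
    exact this.trans (pow_le_pow_left₀ (by positivity) (by linarith) _)
  have hkn : (k : ℝ) ^ 2 ≤ n := (pow_le_pow_right₀ (by linarith) (by omega)).trans hk1'
  have hkn' : (k : ℝ) ≤ n := by nlinarith only [hkn, hk4]
  have hn0 : (0 : ℝ) < n := by linarith only [hkn', hk4]
  have hn1 : 0 < n := by exact_mod_cast hn0
  obtain ⟨c, hc⟩ : ∃ c : ℝ, c = (1 + ε) ^ 2 / (2 * ((1 - ε) * k)) := ⟨_, rfl⟩
  have hK : 0 < 2 * ((1 - ε) * k) := by
    have : 0 < 1 - ε := by linarith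
    positivity
  have hc1 : c * k ≤ 3 := by
    rw [hc, div_mul_eq_mul_div, div_le_iff₀ hK]
    linarith only [mul_le_mul_of_nonneg_right (by nlinarith only [hε0, hε] :
      (1 + ε) ^ 2 ≤ 6 * (1 - ε)) (by linarith : (0 : ℝ) ≤ k)]
  have hc2 : 1 / 2 ≤ c * k := by
    rw [hc, div_mul_eq_mul_div, le_div_iff₀ hK]
    linarith only [mul_le_mul_of_nonneg_right (by nlinarith only [hε0] : 1 - ε ≤ (1 + ε) ^ 2)
      (by linarith : (0 : ℝ) ≤ k)]
  have hc0 : 0 < c := by rw [hc]; positivity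
  obtain ⟨R, hR0, hR⟩ : ∃ R : ℝ, 0 ≤ R ∧ R ^ 2 = ε * k / (3 * d * A) :=
    ⟨√_, sqrt_nonneg _, sq_sqrt (by positivity)⟩
  have hdich := dichotomy (k := k) hd hn1 hB.le hH v hv hδ0 hδ hε0 (by linarith) a1 hR0 hc
    (κ := σ * n) (Y := (2 * δ) ^ 2 * n) (by
      rw [← hA, hR]
      have : c * (d * A * (ε * k / (3 * d * A))) = c * k / 3 * ε := by field_simp
      rw [this]; nlinarith only [hc1, hε0])
    (by
      have e : 2 * (k : ℝ) * (60 * d ^ 4 * k / δ) ^ d = 2 * (60 * d ^ 4 / δ) ^ d * k ^ (d + 1) := by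
        rw [mul_div_right_comm, mul_pow]; ring
      rw [e]
      calc _ ≤ σ * k * k ^ (d + 1) := mul_le_mul_of_nonneg_right a3 (by positivity)
        _ = σ * k ^ (d + 2) := by ring
        _ ≤ _ := mul_le_mul_of_nonneg_left hk1' hσ0.le)
    (by nlinarith only [mul_le_mul_of_nonneg_left hkn' (sq_nonneg δ), a5])
    (by nlinarith only [mul_le_mul_of_nonneg_right hσ1 hn0.le, mul_pos (pow_pos hδ0 2) hn0])
  have hsn : 0 < √(n : ℝ) := sqrt_pos.2 hn0
  rcases hdich with h | h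
  · refine le_trans ?_ (mul_le_mul_of_nonneg_left h (by positivity))
    rw [sqrt_mul (by positivity), sqrt_sq (by positivity),
      show √(n : ℝ) ^ d = √n * √n ^ (d - 1) by rw [← pow_succ']; congr 1; omega]
    refine le_trans ((le_div_iff₀ (by positivity)).2 hδt) (le_of_eq ?_)
    rw [one_div, inv_pow]
    field_simp
  · rw [← hA, ← hG, sub_sub] at h
    refine hεt.trans (le_trans (main_arith hε0 (by linarith) hB0 (by linarith) hn1 (by positivity)
      a2 hc (by positivity) ?_ ?_) (mul_le_mul_of_nonneg_left h (by positivity)))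
    · have hX : (k : ℝ) / 2 ≤ c * n := by
        nlinarith only [mul_le_mul_of_nonneg_left hkn hc0.le, hc2, hk4]
      have e1 : (n : ℝ) ^ d = n * n ^ (d - 1) := by rw [← pow_succ']; congr 1; omega
      have b1 : (B * n ^ d + σ * n * d * n ^ (d - 1) * G) / d.factorial ≤ (B' + ε) * n ^ d := by
        rw [div_le_iff₀ hf, hB']
        have := mul_le_mul_of_nonneg_right hσ2 (by positivity : (0 : ℝ) ≤ n ^ d)
        have e2 : (B / d.factorial + ε) * n ^ d * d.factorial =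
            B * n ^ d + ε * d.factorial * n ^ d := by field_simp
        rw [e2]
        nth_rewrite 1 [e1] at this
        linarith
      have b2 : d * (1 + c * (n * A)) ^ (d - 1) ≤ ε * (c * n) ^ d := by
        have b3 : 1 + c * (n * A) ≤ (1 + A) * (c * n) := by linarith only [hX, hk4]
        have b4 := pow_le_pow_left₀ (by positivity) b3 (d - 1)
        have e2 : (c * n) ^ d = c * n * (c * n) ^ (d - 1) := by rw [← pow_succ']; congr 1; omega
        rw [mul_pow] at b4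
        calc _ ≤ d * ((1 + A) ^ (d - 1) * (c * n) ^ (d - 1)) :=
              mul_le_mul_of_nonneg_left b4 (by positivity)
          _ = d * (1 + A) ^ (d - 1) * (c * n) ^ (d - 1) := by ring
          _ ≤ ε * (c * n) * (c * n) ^ (d - 1) :=
              mul_le_mul_of_nonneg_right (by
                linarith only [a4, mul_le_mul_of_nonneg_left hX hε0.le]) (by positivity)
          _ = _ := by rw [e2]; ring
      have b5 := mul_le_mul_of_nonneg_left b1 (by positivity : 0 ≤ c ^ d)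
      rw [mul_pow] at b2 ⊢
      linarith
    · refine le_trans ?_ a6
      have b1 : √((B' + 2 * ε) * (c * n) ^ d) ≤
          1 + (B' + 1) * (3 * 2 ^ (d + 2)) ^ d * (k : ℝ) ^ ((d + 2) * d) := by
        have b2 : c * n ≤ 3 * 2 ^ (d + 2) * (k : ℝ) ^ (d + 2) := by
          rw [mul_assoc, ← mul_pow]
          exact mul_le_mul (by nlinarith only [hc1, hc0, hk4]) hk2' hn0.le (by norm_num)
        have b3 := pow_le_pow_left₀ (by positivity) b2 d
        rw [mul_pow (3 * 2 ^ (d + 2) : ℝ), ← pow_mul] at b3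
        have b4 := mul_le_mul (by linarith : B' + 2 * ε ≤ B' + 1) b3 (by positivity) (by positivity)
        refine le_trans (sqrt_le_iff.2 ⟨by positivity, ?_⟩) (add_le_add_right (b4.trans_eq
          (mul_assoc _ _ _).symm) 1)
        have : 0 ≤ (B' + 2 * ε) * (c * n) ^ d := by positivity
        nlinarith only [this]
      refine (mul_le_mul_of_nonneg_left b1 (by positivity)).trans (le_of_eq ?_)
      have e1 : R ^ 2 / 4 = ε / (12 * d * A) * k := by rw [hR]; field_simp; norm_num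
      have e2 : ε ^ 2 * k / 4 = ε ^ 2 / 4 * k := by ring
      rw [e1, e2]; ring

lemma prob_mono {d n : ℕ} (v : Fin n → EuclideanSpace ℝ (Fin d)) {r s : ℝ} (h : r ≤ s) :
    prob v r ≤ prob v s := by
  unfold prob
  refine div_le_div_of_nonneg_right (Nat.cast_le.2 (card_le_card fun ε hε => ?_)) (by positivity)
  exact mem_filter.2 ⟨mem_univ _, (mem_filter.1 hε).2.trans h⟩

lemma rpow_half (n d : ℕ) : (n : ℝ) ^ ((d : ℝ) / 2) = √n ^ d := by
  rw [sqrt_eq_rpow, ← rpow_natCast, ← rpow_mul (Nat.cast_nonneg n)]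
  congr 1; ring

theorem liminf_lower {d : ℕ} (hd : 1 ≤ d) {B : ℝ} (hB : 0 < B) (hH : Hyp d B) {r : ℝ}
    (hr : √d ≤ r) (l : Filter ℕ) (hl : l ≤ atTop) :
    ENNReal.ofReal (√(2 / π) ^ d / √(B / d.factorial)) ≤
      liminf (fun n : ℕ => ENNReal.ofReal ((n : ℝ) ^ ((d : ℝ) / 2) * F d r n)) l := by
  refine le_of_forall_lt_imp_le_of_dense fun x hx => ?_
  have hx1 : x ≠ ⊤ := ne_top_of_lt hx
  rw [← ENNReal.ofReal_toReal hx1] at hx ⊢
  rw [ENNReal.ofReal_lt_ofReal_iff_of_nonneg ENNReal.toReal_nonneg] at hx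
  refine le_liminf_of_le (by isBoundedDefault) (Eventually.filter_mono hl ?_)
  filter_upwards [lower_main hd hB hH hx, eventually_ge_atTop 1] with n hn hn1
  refine ENNReal.ofReal_le_ofReal ?_
  have hne : Nonempty (Fin n → Metric.sphere (0 : EuclideanSpace ℝ (Fin d)) 1) :=
    ⟨fun _ => ⟨EuclideanSpace.single ⟨0, hd⟩ 1, by simp⟩⟩
  have hn0 : 0 < √(n : ℝ) ^ d := pow_pos (sqrt_pos.2 (by exact_mod_cast hn1)) d
  rw [rpow_half, ← div_le_iff₀' hn0]
  refine le_ciInf fun V => le_trans ?_ (prob_mono _ hr)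
  rw [div_le_iff₀' hn0]
  exact hn _ fun i => mem_sphere_zero_iff_norm.1 (V i).2

lemma hyp_one (d : ℕ) : Hyp d 1 := fun n u a T _ _ _ h => by
  refine (sum_le_card_nsmul _ _ 1 fun g hg => ?_).trans (by simp [Fintype.card_piFinset])
  exact (sq_le_one_iff_abs_le_one _).2 (h g (Fintype.mem_piFinset.1 hg))

lemma hyp_two : Hyp 2 (2 / 3) := fun n u a T hu hv ha _ => by
  have e1 : ∑ h ∈ Fintype.piFinset fun _ : Fin 2 => T, (Matrix.of fun l j => a (h j) l).det ^ 2 =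
      2 * ((∑ i ∈ T, a i 0 * a i 0) * (∑ i ∈ T, a i 1 * a i 1) - (∑ i ∈ T, a i 0 * a i 1) ^ 2) := by
    have h := andreief fun i : T => a i
    rw [Matrix.det_fin_two] at h
    have e0 : ∀ l l', ∑ i : T, a i l * a i l' = ∑ i ∈ T, a i l * a i l' := fun l l' =>
      sum_coe_sort T (fun i => a i l * a i l')
    simp only [Matrix.of_apply, e0] at h
    have e2 : ∑ i ∈ T, a i 1 * a i 0 = ∑ i ∈ T, a i 0 * a i 1 :=
      sum_congr rfl fun _ _ => mul_comm _ _
    rw [e2, ← sq] at h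
    refine Eq.trans ?_ (h.symm.trans (by norm_num))
    symm
    refine sum_bij (fun g _ j => (g j : Fin n)) (fun g _ => Fintype.mem_piFinset.2 fun j => (g j).2)
      (fun g _ g' _ e => funext fun j => Subtype.ext (congrFun e j))
      (fun g hg => ⟨fun j => ⟨g j, Fintype.mem_piFinset.1 hg j⟩, mem_univ _, rfl⟩) fun _ _ => rfl
  rw [e1]
  obtain ⟨c, hc⟩ : ∃ c, c = inner ℝ (u 0) (u 1) := ⟨_, rfl⟩
  have hc1 : |c| ≤ 1 := by
    have := abs_real_inner_le_norm (u 0) (u 1)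
    rwa [hu, hu, mul_one, ← hc] at this
  have h1 : ∀ i ∈ T, a i 0 * a i 0 + a i 1 * a i 1 + 2 * c * (a i 0 * a i 1) = 1 := fun i hi => by
    have := congrArg (· ^ 2) (hv i hi)
    simp only [Fin.sum_univ_two, norm_add_sq_real, norm_smul, hu, mul_one, norm_eq_abs, sq_abs,
      real_inner_smul_left, real_inner_smul_right, ← hc] at this
    linarith
  have h2 : ∑ i ∈ T, a i 0 * a i 0 + ∑ i ∈ T, a i 1 * a i 1 + 2 * c * ∑ i ∈ T, a i 0 * a i 1 =
      T.card := by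
    rw [mul_sum, ← sum_add_distrib, ← sum_add_distrib, sum_congr rfl h1]; simp
  have hx : 0 ≤ ∑ i ∈ T, a i 0 * a i 0 := sum_nonneg fun _ _ => mul_self_nonneg _
  have hy : 0 ≤ ∑ i ∈ T, a i 1 * a i 1 := sum_nonneg fun _ _ => mul_self_nonneg _
  rcases le_or_gt |c| (1 / 2) with h | h
  · generalize ∑ i ∈ T, a i 0 * a i 0 = x at *
    generalize ∑ i ∈ T, a i 1 * a i 1 = y at *
    generalize ∑ i ∈ T, a i 0 * a i 1 = z at *
    have hc2 : c ^ 2 ≤ 1 / 4 := by
      have := pow_le_pow_left₀ (abs_nonneg _) h 2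
      rw [sq_abs] at this; linarith
    have key : (1 - c ^ 2) * (x * y - z ^ 2) ≤ ((x + y + 2 * c * z) / 2) ^ 2 := by
      nlinarith [sq_nonneg (z + c * (x + y) / 2),
        mul_nonneg (by linarith : 0 ≤ 1 - c ^ 2) (sq_nonneg ((x - y) / 2))]
    rw [h2] at key
    rcases le_total 0 (x * y - z ^ 2) with h3 | h3
    · nlinarith [mul_le_mul_of_nonneg_right hc2 h3]
    · nlinarith [sq_nonneg (T.card : ℝ)]
  · have h3 : 0 ≤ c * ∑ i ∈ T, a i 0 * a i 1 := by
      rw [mul_sum]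
      refine sum_nonneg fun i hi => ?_
      by_contra hneg
      push Not at hneg
      have p1 := ha i hi 0
      have p2 := ha i hi 1
      have p3 := h1 i hi
      have p4 : c * (a i 0 * a i 1) = -(|c| * (|a i 0| * |a i 1|)) := by
        rw [← abs_mul, ← abs_mul, abs_of_neg hneg, neg_neg]
      rw [mul_assoc, p4, ← abs_mul_abs_self (a i 0), ← abs_mul_abs_self (a i 1)] at p3
      rw [p4] at hneg
      have p5 := abs_nonneg (a i 0)
      have p6 := abs_nonneg (a i 1)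
      generalize |a i 0| = p at *
      generalize |a i 1| = q at *
      have p7 : 0 < p * q := by
        by_contra hc; push Not at hc; nlinarith
      have p8 := mul_lt_mul_of_pos_right h p7
      rcases le_total p q with h4 | h4 <;> nlinarith
    generalize ∑ i ∈ T, a i 0 * a i 0 = x at *
    generalize ∑ i ∈ T, a i 1 * a i 1 = y at *
    generalize ∑ i ∈ T, a i 0 * a i 1 = z at *
    have h4 : (x + y) ^ 2 ≤ (T.card : ℝ) ^ 2 := pow_le_pow_left₀ (by linarith) (by linarith) 2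
    nlinarith [sq_nonneg (x - y), sq_nonneg z, sq_nonneg (T.card : ℝ)]

end Pool.Agent.Lib.MP_3b7d13_co
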