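import Pool.Agent.Lib.MP_3b7d13_co.Lattice
import Pool.Agent.Lib.MP_3b7d13_co.Asym

/-! The block argument for arbitrary radii. -/

namespace Pool.Agent.Lib.MP_3b7d13_co

open Finset Real Module

lemma level2 {k : ℕ} {ε α Λ : ℝ} {m : ℤ} (hε : 0 < ε) (hε1 : ε < 1) (hk : 0 < k)
    (hα : |α| / 2 + Λ / 2 ≤ ε * k) (hm : |α + 2 * m| ≤ Λ) :
    ((m + k).toNat : ℝ) = m + k ∧
      k.centralBinom * exp (-((1 + 1 / ε) * Λ ^ 2 / 4 / ((1 - ε) * k))) *
        exp (-((1 + ε) / (4 * ((1 - ε) * k)) * α ^ 2)) ≤ (2 * k).choose (m + k).toNat := by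
  have hk0 : (0 : ℝ) < k := by exact_mod_cast hk
  have h1 := abs_le.1 (le_refl |α|)
  have h2 := abs_le.1 hm
  have h3 : ((m + k).toNat : ℝ) = m + k := by
    have : (0 : ℝ) ≤ m + k := by nlinarith
    exact_mod_cast Int.toNat_of_nonneg (by exact_mod_cast this)
  have hK : 0 < (1 - ε) * k := mul_pos (by linarith) hk0
  refine ⟨h3, le_trans ?_ (choose_lower' (ρ := |α| / 2 + Λ / 2) hK
    (by rw [h3]; exact abs_le.2 ⟨by linarith, by linarith⟩) (by linarith))⟩
  rw [mul_assoc, ← exp_add]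
  refine mul_le_mul_of_nonneg_left (exp_le_exp.2 ?_) (Nat.cast_nonneg _)
  have c : (|α| / 2 + Λ / 2) ^ 2 ≤ (1 + 1 / ε) * Λ ^ 2 / 4 + (1 + ε) / 4 * α ^ 2 := by
    rw [← sq_abs α, ← sub_nonneg]
    have e : (1 + 1 / ε) * Λ ^ 2 / 4 + (1 + ε) / 4 * |α| ^ 2 - (|α| / 2 + Λ / 2) ^ 2 =
      (Λ - ε * |α|) ^ 2 / (4 * ε) := by field_simp; ring
    rw [e]; positivity
  have c2 := div_le_div_of_nonneg_right c hK.le
  have e : ((1 + 1 / ε) * Λ ^ 2 / 4 + (1 + ε) / 4 * α ^ 2) / ((1 - ε) * k) =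
      (1 + 1 / ε) * Λ ^ 2 / 4 / ((1 - ε) * k) + (1 + ε) / (4 * ((1 - ε) * k)) * α ^ 2 := by
    have : (1 - ε) ≠ 0 := by linarith
    field_simp
  linarith

lemma perturb {d M : ℕ} (u : Fin d → EuclideanSpace ℝ (Fin d)) (hu : ∀ l, ‖u l‖ = 1)
    (a : Fin d → Fin M → Fin d → ℝ) {ν : ℝ}
    (hν : ∀ l i j, |a l i j - if j = l then 1 else 0| ≤ ν) (ζ : Fin d → Fin M → Bool) :
    ‖∑ l, ∑ i, sgn (ζ l i) • ∑ j, a l i j • u j - ∑ l, (2 * heads (ζ l) - M : ℝ) • u l‖ ≤
      d * (M * (d * ν)) := by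
  simp only [← sum_sgn, sum_smul, ← sum_sub_distrib, ← smul_sub]
  refine (norm_sum_le _ _).trans ((sum_le_card_nsmul _ _ (M * (d * ν)) fun l _ => ?_).trans
    (by simp))
  refine (norm_sum_le _ _).trans ((sum_le_card_nsmul _ _ (d * ν) fun i _ => ?_).trans (by simp))
  have h1 : |sgn (ζ l i)| = 1 := by cases ζ l i <;> simp [sgn]
  have e : ∑ j, a l i j • u j - u l = ∑ j, (a l i j - if j = l then 1 else 0) • u j := by
    simp [sub_smul]
  rw [norm_smul, norm_eq_abs, h1, one_mul, e]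
  refine (norm_sum_le _ _).trans ((sum_le_card_nsmul _ _ ν fun j _ => ?_).trans (by simp))
  rw [norm_smul, hu, mul_one]; exact hν l i j

theorem block_lower2 {d n k : ℕ} (hd : 1 ≤ d) (v : Fin n → EuclideanSpace ℝ (Fin d))
    (u : Fin d → EuclideanSpace ℝ (Fin d)) (hu : ∀ l, ‖u l‖ = 1) (a : Fin n → Fin d → ℝ)
    (ha : ∀ i, v i = ∑ l, a i l • u l) (J : Fin d × Fin (2 * k) → Fin n)
    (hJ : Function.Injective J) {ν : ℝ}
    (hν : ∀ l i j, |a (J (l, i)) j - if j = l then 1 else 0| ≤ ν) {A ε R D c r Λ N0 : ℝ}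
    (hA : ∀ i, ∑ l, a i l ^ 2 ≤ A) (hA0 : 0 ≤ A) (hε0 : 0 < ε) (hε : ε < 1) (hk1 : 0 < k)
    (hk : Λ ≤ ε * k) (hR : 0 ≤ R) (hc : c = (1 + ε) ^ 2 / (2 * ((1 - ε) * k)))
    (h : c * (d * A * R ^ 2) ≤ ε)
    (hD : (Matrix.of fun l l' => ∑ i ∈ (univ.image J)ᶜ, a i l * a i l').det ≤ D) (hN0 : 0 ≤ N0)
    (hN : ∀ α : Fin d → ℝ, ∃ Z : Finset (Fin d → ℤ), N0 ≤ Z.card ∧ ∀ m ∈ Z,
      ‖∑ l, (α l + 2 * m l) • u l‖ ≤ r - d * ((2 * k : ℕ) * (d * ν)) ∧ ∀ l, |α l + 2 * m l| ≤ Λ) :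
    N0 * ((k.centralBinom / 4 ^ k * exp (-((1 + 1 / ε) * Λ ^ 2 / 4 / ((1 - ε) * k)))) ^ d *
      (1 / √(c ^ d * D + d * (1 + c * (n * A)) ^ (d - 1)) - 2 * (d * (exp (-(R ^ 2 / 4)) * 2)) -
        exp (-(ε ^ 2 * k / 4)))) ≤ prob v r := by
  classical
  have hk0 : (0 : ℝ) < k := by exact_mod_cast hk1
  have hK : 0 < (1 - ε) * k := mul_pos (by linarith) hk0
  obtain ⟨lam, hlam⟩ : ∃ lam, lam = (1 + ε) / (4 * ((1 - ε) * k)) := ⟨_, rfl⟩
  have hlam0 : 0 < lam := by rw [hlam]; positivity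
  obtain ⟨b, hb⟩ : ∃ b, b ^ 2 = 2 * lam := ⟨√(2 * lam), sq_sqrt (by positivity)⟩
  have hcb : c = (1 + ε) * b ^ 2 := by
    have : (1 - ε) ≠ 0 := by linarith
    rw [hc, hb, hlam]; field_simp; norm_num
  obtain ⟨a0, ha0⟩ : ∃ a0 : Fin n → Fin d → ℝ, ∀ i, a0 i = if i ∈ univ.image J then 0 else a i :=
    ⟨_, fun _ => rfl⟩
  have hg := gauss_lower hd a0 (A := A) (b := b) (R := R) (D := D) (fun i => by
      rw [ha0]; split_ifs
      · simpa using hA0
      · exact hA i) hA0 hε0.le hε.le hR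
    (le_trans (mul_le_mul_of_nonneg_right (by rw [hcb]; nlinarith [sq_nonneg b]) (by positivity)) h)
    (le_trans (le_of_eq (by
      congr 2
      funext l l'
      rw [← sum_compl_add_sum (univ.image J), sum_eq_zero (s := univ.image J) fun i hi => by
        rw [ha0, if_pos hi]; simp, add_zero]
      exact sum_congr rfl fun i hi => by rw [ha0, if_neg (mem_compl.1 hi)])) hD)
  rw [← hcb, hb, mul_div_cancel_left₀ _ two_ne_zero] at hg
  obtain ⟨p, hp⟩ : ∃ p : ℝ, p = k.centralBinom *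
    exp (-((1 + 1 / ε) * Λ ^ 2 / 4 / ((1 - ε) * k))) := ⟨_, rfl⟩
  have hp0 : 0 ≤ p := by rw [hp]; positivity
  have hω : ∀ ω : Fin n → Bool,
      N0 * p ^ d * (exp (-(lam * ∑ l, SS (fun i => a0 i l) ω ^ 2)) - exp (-(ε ^ 2 * k / 4))) ≤
      ∑ ζ : Fin d × Fin (2 * k) → Bool,
        if ‖∑ i, sgn (Function.extend J ζ ω i) • v i‖ ≤ r then (1 : ℝ) else 0 := fun ω => by
    by_cases hα : ∀ l, |SS (fun i => a0 i l) ω| / 2 + Λ / 2 ≤ ε * k
    · obtain ⟨Z, hZ, hZ1⟩ := hN fun l => SS (fun i => a0 i l) ω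
      have hl := fun m (hm : m ∈ Z) l => level2 hε0 hε hk1 (hα l) ((hZ1 m hm).2 l)
      rw [← hp, ← hlam] at hl
      have e1 : ∑ i ∈ (univ.image J)ᶜ, sgn (ω i) • v i = ∑ l, SS (fun i => a0 i l) ω • u l := by
        simp only [SS, sum_smul]
        rw [sum_comm, ← sum_subset (subset_univ (univ.image J)ᶜ) fun i _ hi => by
          rw [ha0, if_pos (notMem_compl.1 hi)]; simp]
        refine sum_congr rfl fun i hi => ?_
        rw [ha i, smul_sum, ha0, if_neg (mem_compl.1 hi)]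
        exact sum_congr rfl fun j _ => by rw [mul_smul]
      have e2 : ∑ ζ : Fin d × Fin (2 * k) → Bool,
          (if ‖∑ i, sgn (Function.extend J ζ ω i) • v i‖ ≤ r then (1 : ℝ) else 0) =
          (univ.filter fun ζ : Fin d → Fin (2 * k) → Bool => ‖∑ l, SS (fun i => a0 i l) ω • u l +
            ∑ l, ∑ i, sgn (ζ l i) • v (J (l, i))‖ ≤ r).card := by
        rw [card_filter, ← (Equiv.curry _ _ _).sum_comp]
        push_cast
        refine sum_congr rfl fun ζ _ => ?_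
        rw [vec_extend J hJ, e1, Fintype.sum_prod_type]
        rfl
      have hcc : (Z.biUnion fun m => Fintype.piFinset fun l => univ.filter
          fun y : Fin (2 * k) → Bool => heads y = (m l + k).toNat).card ≤
          (univ.filter fun ζ : Fin d → Fin (2 * k) → Bool => ‖∑ l, SS (fun i => a0 i l) ω • u l +
            ∑ l, ∑ i, sgn (ζ l i) • v (J (l, i))‖ ≤ r).card := card_le_card fun ζ hζ => by
        obtain ⟨m, hm, h1⟩ := mem_biUnion.1 hζ
        have h2 : ∀ l, (2 * heads (ζ l) - (2 * k : ℕ) : ℝ) = 2 * m l := fun l => by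
          rw [(mem_filter.1 (Fintype.mem_piFinset.1 h1 l)).2, (hl m hm l).1]; push_cast; ring
        have h3 := perturb u hu (fun l i => a (J (l, i))) hν ζ
        simp only [h2, ← ha] at h3
        refine mem_filter.2 ⟨mem_univ _, le_trans (le_of_eq ?_) ((norm_add_le _ _).trans
          ((add_le_add (hZ1 m hm).1 h3).trans_eq (sub_add_cancel _ _)))⟩
        simp only [add_smul, sum_add_distrib]
        congr 1; abel
      rw [card_biUnion fun m hm m' hm' hne => disjoint_left.2 fun ζ h1 h2 => hne (funext fun l => by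
        have a1 := (mem_filter.1 (Fintype.mem_piFinset.1 h1 l)).2
        have a2 := (mem_filter.1 (Fintype.mem_piFinset.1 h2 l)).2
        have a3 := (hl m hm l).1
        rw [← a1, a2, (hl m' hm' l).1, add_left_inj] at a3
        exact_mod_cast a3.symm)] at hcc
      rw [e2]
      refine le_trans ?_ ((Nat.cast_le (α := ℝ)).2 hcc)
      rw [Nat.cast_sum]
      refine le_trans ?_ (card_nsmul_le_sum _ _
        (p ^ d * exp (-(lam * ∑ l, SS (fun i => a0 i l) ω ^ 2))) fun m hm => ?_)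
      · rw [nsmul_eq_mul, mul_assoc]
        exact (mul_le_mul_of_nonneg_left (mul_le_mul_of_nonneg_left (sub_le_self _ (exp_pos _).le)
          (by positivity)) hN0).trans (mul_le_mul_of_nonneg_right hZ (by positivity))
      · rw [Fintype.card_piFinset, Nat.cast_prod]
        simp only [card_heads]
        refine le_trans (le_of_eq ?_) (prod_le_prod (fun l _ => by positivity)
          fun l _ => (hl m hm l).2)
        rw [prod_mul_distrib, prod_const, card_univ, Fintype.card_fin, ← exp_sum, sum_neg_distrib,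
          ← mul_sum]
    · push Not at hα
      obtain ⟨l, hl⟩ := hα
      refine le_trans (mul_nonpos_of_nonneg_of_nonpos (by positivity) (sub_nonpos.2
        (exp_le_exp.2 (neg_le_neg ?_)))) (sum_nonneg fun _ _ => by positivity)
      have b1 : (ε * k) ^ 2 ≤ ∑ l, SS (fun i => a0 i l) ω ^ 2 := by
        refine le_trans ?_ (single_le_sum (f := fun l => SS (fun i => a0 i l) ω ^ 2)
          (fun _ _ => sq_nonneg _) (mem_univ l))
        rw [← sq_abs (SS _ _)]
        exact pow_le_pow_left₀ (by positivity) (by linarith) 2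
      have b2 : 1 / (4 * k) ≤ lam := by
        rw [hlam, div_le_div_iff₀ (by positivity) (by positivity)]
        nlinarith [mul_pos hε0 hk0]
      refine le_trans (le_of_eq ?_) (mul_le_mul b2 b1 (by positivity) hlam0.le)
      field_simp
  have h1 := sum_le_sum fun ω (_ : ω ∈ univ) => hω ω
  rw [sum_extend J hJ fun ω => if ‖∑ i, sgn (ω i) • v i‖ ≤ r then (1 : ℝ) else 0, ← mul_sum,
    sum_sub_distrib, sum_boole] at h1
  simp only [sum_const, card_univ, Fintype.card_fun, Fintype.card_bool, Fintype.card_fin,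
    nsmul_eq_mul, Nat.cast_pow, Nat.cast_ofNat, Fintype.card_prod] at h1
  unfold prob
  rw [le_div_iff₀ (by positivity), div_mul_eq_mul_div, ← hp, div_pow, ← pow_mul]
  have e3 : (2 : ℝ) ^ (d * (2 * k)) = 4 ^ (k * d) := by
    rw [show d * (2 * k) = 2 * (k * d) by ring, pow_mul]; norm_num
  rw [e3] at h1
  rw [div_mul_eq_mul_div, ← mul_div_assoc, div_mul_eq_mul_div, div_le_iff₀ (by positivity)]
  have h2 := mul_le_mul_of_nonneg_left hg (mul_nonneg hN0 (pow_nonneg hp0 d))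
  linarith

theorem dichotomy2 {d n k : ℕ} (hd : 1 ≤ d) (hn : 1 ≤ n)
    (v : Fin n → EuclideanSpace ℝ (Fin d)) (hv : ∀ i, ‖v i‖ = 1) {δ ν Y κ : ℝ} (hδ0 : 0 < δ)
    (hδ : δ ≤ 1) (hν0 : 0 < ν) (hν1 : ν < 1)
    (hκ : 2 * k * (5 * d / (ν * δ)) ^ d ≤ κ) (hY : 1 ≤ Y) (hY1 : δ ^ 2 * n + κ ≤ Y) :
    cD d * (1 / √n) ^ (d - 1) / √Y ≤ prob v √d ∨
    ∃ (u : Fin d → EuclideanSpace ℝ (Fin d)) (a : Fin n → Fin d → ℝ)
      (J : Fin d × Fin (2 * k) → Fin n), (∀ l, ‖u l‖ = 1) ∧ (Matrix.of fun i l => u l i).det ≠ 0 ∧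
      (∀ i, v i = ∑ l, a i l • u l) ∧ Function.Injective J ∧
      (∀ l i j, |a (J (l, i)) j - if j = l then 1 else 0| ≤ ν) ∧ (∀ i, ∑ l, a i l ^ 2 ≤ d / δ ^ 2) ∧
      (Matrix.of fun l l' => ∑ i ∈ (univ.image J)ᶜ, a i l * a i l').det ≤
        (1 * n ^ d + κ * d * n ^ (d - 1) * (d.factorial * (1 / δ) ^ d) ^ 2) / d.factorial := by
  classical
  have hd1 : (1 : ℝ) ≤ d := by exact_mod_cast hd
  obtain ⟨r1, hr1, f1, c1, -, -, c13, c11, -, -⟩ := spannerD v univ
  obtain ⟨η, hη⟩ : ∃ η : ℝ, η = ν * δ / d := ⟨_, rfl⟩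
  have hη0 : 0 < η := by rw [hη]; positivity
  have hη1 : η ≤ 1 := by rw [hη, div_le_one (by positivity)]; nlinarith
  obtain ⟨lab, hlab⟩ : ∃ lab : Fin n → Fin r1 → ℤ, ∀ i j, lab i j = ⌊c1 i j / η⌋ :=
    ⟨_, fun _ _ => rfl⟩
  obtain ⟨T, hT⟩ : ∃ T, T = univ.filter fun i =>
    2 * k ≤ (univ.filter fun i' => lab i' = lab i).card := ⟨_, rfl⟩
  have hTc : (Tᶜ.card : ℝ) ≤ κ := by
    have h1 := nontight lab (Fintype.piFinset fun _ => Icc (-⌈1 / η⌉) ⌈1 / η⌉) (fun i => by
      rw [Fintype.mem_piFinset]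
      intro j
      rw [hlab]
      exact floor_mem hη0 zero_le_one (by rw [one_pow, sq_le_one_iff_abs_le_one]; exact c11 i j))
      (2 * k)
    rw [← hT, Fintype.card_piFinset, prod_const, card_univ, Fintype.card_fin] at h1
    have h2 := (Nat.cast_le (α := ℝ)).2 h1
    push_cast at h2
    refine h2.trans (le_trans (mul_le_mul_of_nonneg_left ?_ (by positivity)) hκ)
    have h3 := card_Icc_le hη0 hη1
    have e : 5 * (1 / η) = 5 * d / (ν * δ) := by rw [hη]; field_simp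
    refine (pow_le_pow_left₀ (Nat.cast_nonneg _) h3 r1).trans ?_
    rw [← e]
    exact pow_le_pow_right₀ (by have := (one_le_div hη0).2 hη1; linarith) hr1
  obtain ⟨w, hw⟩ : ∃ w : Fin n → ℝ, ∀ i, w i = if i ∈ T then 1 else δ := ⟨_, fun _ => rfl⟩
  have hw0 : ∀ i, δ ≤ w i := fun i => by rw [hw]; split_ifs; exacts [hδ, le_rfl]
  have hw1 : ∀ i, w i ≠ 0 := fun i => (hδ0.trans_le (hw0 i)).ne'
  obtain ⟨r, hr, f, c', -, hli, c3, c2, -, c4⟩ := spannerD (fun i => w i • v i) univ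
  have hsY : 1 ≤ √Y := one_le_sqrt.2 hY
  rcases hr.lt_or_eq with hr | rfl
  · left
    refine le_trans (div_le_self (by unfold cD; positivity) hsY) (degenerate0 hd hn v hv
      (Submodule.span ℝ (Set.range fun j => w (f j) • v (f j)))
      (lt_of_le_of_lt ((finrank_range_le_card _).trans (by simp)) hr) fun i => ?_)
    rw [← inv_smul_smul₀ (hw1 i) (v i), c3 i (mem_univ _)]
    exact Submodule.smul_mem _ _ (Submodule.sum_mem _ fun j _ =>
      Submodule.smul_mem _ _ (Submodule.subset_span ⟨j, rfl⟩))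
  obtain ⟨b, hb⟩ : ∃ b : Basis (Fin r) ℝ (EuclideanSpace ℝ (Fin r)), ∀ j, b j = w (f j) • v (f j) :=
    ⟨basisOfLinearIndependentOfCardEqFinrank' _ hli (by simp), fun j => Basis.mk_apply _ _ _⟩
  have hrep : ∀ i j, w i * b.repr (v i) j = c' i j := fun i j => by
    have h1 := c3 i (mem_univ _)
    simp only [← hb] at h1
    have h2 := congrArg (fun x => b.repr x j) h1
    simpa [Finsupp.single_apply] using h2
  have hself : ∀ l j, w (f l) * b.repr (v (f l)) j = if j = l then 1 else 0 := fun l j => by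
    have h2 := congrArg (fun x => b.repr x j) (hb l)
    simp only [Basis.repr_self, map_smul, Finsupp.coe_smul, Pi.smul_apply, smul_eq_mul] at h2
    rw [← h2, Finsupp.single_apply]
    simp only [eq_comm]
  by_cases hf : ∀ l, f l ∈ T
  swap
  · left
    push Not at hf
    obtain ⟨l, hl⟩ := hf
    refine degenerate1 hd hn v hv (δ • b.coord l) (f l) ?_ hY (le_trans ?_ hY1)
    · have := hself l l
      rw [hw, if_neg hl, if_pos rfl] at this
      simpa using this
    · rw [← sum_add_sum_compl T]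
      refine add_le_add ((sum_le_card_nsmul _ _ (δ ^ 2) fun i hi => ?_).trans ?_)
        ((sum_le_card_nsmul _ _ 1 fun i hi => ?_).trans (by simpa using hTc))
      · have := hrep i l
        rw [hw, if_pos hi, one_mul] at this
        simp only [LinearMap.smul_apply, Basis.coord_apply, smul_eq_mul, this, mul_pow]
        exact mul_le_of_le_one_right (sq_nonneg _) ((sq_le_one_iff_abs_le_one _).2 (c2 i l))
      · rw [nsmul_eq_mul, mul_comm]
        refine mul_le_mul_of_nonneg_left ?_ (sq_nonneg _)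
        exact_mod_cast (card_le_univ T).trans (by simp)
      · have := hrep i l
        rw [hw, if_neg (mem_compl.1 hi)] at this
        simp only [LinearMap.smul_apply, Basis.coord_apply, smul_eq_mul, this]
        exact (sq_le_one_iff_abs_le_one _).2 (c2 i l)
  right
  obtain ⟨a, ha⟩ : ∃ a : Fin n → Fin r → ℝ, ∀ i j, a i j = b.repr (v i) j := ⟨_, fun _ _ => rfl⟩
  simp only [← ha] at hrep hself
  have hbu : ∀ l, b l = v (f l) := fun l => by rw [hb, hw, if_pos (hf l), one_smul]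
  have haT : ∀ i ∈ T, ∀ j, a i j = c' i j := fun i hi j => by
    rw [← hrep, hw, if_pos hi, one_mul]
  have ha1 : ∀ i j, |a i j| ≤ 1 / δ := fun i j => by
    have h1 := c2 i j
    rw [← hrep, abs_mul, abs_of_pos (hδ0.trans_le (hw0 i))] at h1
    rw [le_div_iff₀ hδ0]
    nlinarith [mul_le_mul_of_nonneg_right (hw0 i) (abs_nonneg (a i j))]
  have hav : ∀ i, v i = ∑ l, a i l • b l := fun i => by simp only [ha, b.sum_repr]
  have hclose : ∀ i i', lab i = lab i' → ∀ j, |a i j - a i' j| ≤ ν := fun i i' hii j => by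
    have h1 : ∀ i, a i j = ∑ m, c1 i m * a (f1 m) j := fun i => by
      have := congrArg (fun x => b.repr x j) (c13 i (mem_univ _))
      simpa [ha] using this
    rw [h1 i, h1 i', ← sum_sub_distrib]
    refine (abs_sum_le_sum_abs _ _).trans ((sum_le_card_nsmul _ _ (η * (1 / δ)) fun m _ => ?_).trans ?_)
    · rw [← sub_mul, abs_mul]
      refine mul_le_mul (abs_sub_le_of_floor_eq hη0 ?_) (ha1 _ _) (abs_nonneg _) hη0.le
      rw [← hlab, ← hlab, hii]
    · simp only [card_univ, Fintype.card_fin, nsmul_eq_mul]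
      have : (r1 : ℝ) ≤ r := by exact_mod_cast hr1
      refine (mul_le_mul_of_nonneg_right this (by positivity)).trans (le_of_eq ?_)
      rw [hη]; field_simp
  have hself' : ∀ l j, a (f l) j = if j = l then 1 else 0 := fun l j => by
    rw [← hself, hw, if_pos (hf l), one_mul]
  have hcard : ∀ l, 2 * k ≤ (univ.filter fun i' => lab i' = lab (f l)).card := fun l => by
    have := hf l
    rw [hT] at this
    exact (mem_filter.1 this).2
  obtain ⟨J, hJ⟩ : ∃ J : Fin r × Fin (2 * k) → Fin n, ∀ l i,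
    J (l, i) = orderEmbOfCardLe _ (hcard l) i := ⟨fun z => orderEmbOfCardLe _ (hcard z.1) z.2,
      fun _ _ => rfl⟩
  have hJl : ∀ l i, lab (J (l, i)) = lab (f l) := fun l i => by
    rw [hJ]; exact (mem_filter.1 (orderEmbOfCardLe_mem _ (hcard l) i)).2
  refine ⟨b, a, J, fun l => by rw [hbu, hv], ?_, hav, ?_, fun l i j => ?_, fun i => ?_,
    det_bound a T _ zero_le_one ha1 hTc ?_⟩
  · exact ((EuclideanSpace.basisFun (Fin r) ℝ).toBasis.isUnit_det b).ne_zero
  · rintro ⟨l, i⟩ ⟨l', i'⟩ e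
    have h1 : l = l' := by
      by_contra hne
      have := hclose (f l) (f l') (by rw [← hJl l i, ← hJl l' i', e]) l
      rw [hself', hself', if_pos rfl, if_neg hne] at this
      norm_num at this
      linarith
    subst h1
    rw [hJ, hJ] at e
    rw [(orderEmbOfCardLe _ (hcard l)).injective e]
  · rw [← hself']; exact hclose _ _ (hJl l i) j
  · refine (sum_le_card_nsmul _ _ ((1 / δ) ^ 2) fun l _ => ?_).trans (le_of_eq ?_)
    · rw [← sq_abs]; exact pow_le_pow_left₀ (abs_nonneg _) (ha1 i l) 2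
    · simp [div_eq_mul_inv]
  · refine hyp_one r n b a T (fun l => by rw [hbu, hv]) (fun i _ => by rw [← hav, hv])
      (fun i hi l => by rw [haT i hi]; exact c2 i l) fun h hh => ?_
    refine le_trans (le_of_eq ?_) (c4 h)
    congr 3
    funext l j
    exact haT _ (hh j) l

end Pool.Agent.Lib.MP_3b7d13_co
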