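import Pool.Agent.Lib.MP_3b7d13_co.Blocks

/-! Counting lattice points in balls. -/

namespace Pool.Agent.Lib.MP_3b7d13_co

open Finset Real MeasureTheory

lemma round_lat {d : ℕ} (u : Fin d → EuclideanSpace ℝ (Fin d)) (hu : ∀ l, ‖u l‖ = 1)
    (α y : Fin d → ℝ) : ∃ m : Fin d → ℤ, ‖∑ l, (α l + 2 * m l - y l) • u l‖ ≤ √d ∧
      ∀ l, |α l + 2 * m l - y l| ≤ 2 := by
  have h : ∀ l, |y l - (α l + 2 * ⌊(y l - α l) / 2⌋ + 1)| ≤ 1 := fun l => by
    have a := Int.floor_le ((y l - α l) / 2)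
    have b := Int.lt_floor_add_one ((y l - α l) / 2)
    exact abs_le.2 ⟨by linarith, by linarith⟩
  obtain ⟨s, hs⟩ := round_slack u hu _ fun l => (h l).trans (le_add_of_nonneg_right (by positivity))
  have e : ∀ l, α l + 2 * ((⌊(y l - α l) / 2⌋ + if s l then 1 else 0 : ℤ) : ℝ) - y l =
      sgn (s l) - (y l - (α l + 2 * ⌊(y l - α l) / 2⌋ + 1)) := fun l => by
    cases s l <;> simp [sgn] <;> ring
  refine ⟨fun l => ⌊(y l - α l) / 2⌋ + if s l then 1 else 0, by simp only [e]; exact hs,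
    fun l => ?_⟩
  rw [e]
  have h1 : |sgn (s l)| = 1 := by cases s l <;> simp [sgn]
  linarith [abs_sub (sgn (s l)) (y l - (α l + 2 * ⌊(y l - α l) / 2⌋ + 1)), h l]

lemma exists_Z {d : ℕ} (P : (Fin d → ℤ) → Prop) (α : Fin d → ℝ) (Λ : ℝ) :
    ∃ Z : Finset (Fin d → ℤ), ∀ m, m ∈ Z ↔ P m ∧ ∀ l, |α l + 2 * m l| ≤ Λ := by
  classical
  refine ⟨(Fintype.piFinset fun l => Icc (-⌈|α l| + Λ⌉) ⌈|α l| + Λ⌉).filter
    fun m => P m ∧ ∀ l, |α l + 2 * m l| ≤ Λ, fun m => ⟨fun h => (mem_filter.1 h).2, fun h =>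
      mem_filter.2 ⟨Fintype.mem_piFinset.2 fun l => ?_, h⟩⟩⟩
  have a := abs_le.1 (h.2 l)
  have b := abs_le.1 (le_refl |α l|)
  have c := Int.le_ceil (|α l| + Λ)
  have c0 := abs_nonneg (α l)
  have c1 := (abs_nonneg _).trans (h.2 l)
  rw [mem_Icc, ← Int.cast_le (R := ℝ), ← Int.cast_le (R := ℝ)]
  push_cast
  constructor <;> linarith

lemma round_mem {d : ℕ} (u : Fin d → EuclideanSpace ℝ (Fin d)) (α y : Fin d → ℝ) (m : Fin d → ℤ)
    {ρ Λ : ℝ} (h1 : ‖∑ l, (α l + 2 * m l - y l) • u l‖ ≤ √d) (h2 : ∀ l, |α l + 2 * m l - y l| ≤ 2)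
    (h3 : ‖∑ l, y l • u l‖ ≤ ρ) (h4 : ∀ l, |y l| ≤ Λ) :
    ‖∑ l, (α l + 2 * m l) • u l‖ ≤ ρ + √d ∧ ∀ l, |α l + 2 * m l| ≤ Λ + 2 := by
  refine ⟨le_trans (le_of_eq ?_) ((norm_add_le _ _).trans (add_le_add h3 h1)), fun l => ?_⟩
  · simp only [← sum_add_distrib, ← add_smul, add_sub_cancel]
  · linarith [abs_add_le (y l) (α l + 2 * m l - y l), h2 l, h4 l,
      (by congr 1; ring : |y l + (α l + 2 * m l - y l)| = |α l + 2 * m l|)]

lemma count_vol {d : ℕ} (u : Fin d → EuclideanSpace ℝ (Fin d)) (hu : ∀ l, ‖u l‖ = 1)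
    (α : Fin d → ℝ) {ρ Λ : ℝ} (hK : ∀ y : Fin d → ℝ, ‖∑ l, y l • u l‖ ≤ ρ → ∀ l, |y l| ≤ Λ)
    (Z : Finset (Fin d → ℤ)) (hZ : ∀ m : Fin d → ℤ, (‖∑ l, (α l + 2 * m l) • u l‖ ≤ ρ + √d ∧
      ∀ l, |α l + 2 * m l| ≤ Λ + 2) → m ∈ Z) :
    volume {y : Fin d → ℝ | ‖∑ l, y l • u l‖ ≤ ρ} ≤ Z.card * 2 ^ d := by
  classical
  obtain ⟨K, hKd⟩ : ∃ K, K = {y : Fin d → ℝ | ‖∑ l, y l • u l‖ ≤ ρ} := ⟨_, rfl⟩
  have hKm : MeasurableSet K := by
    rw [hKd]; exact (isClosed_le (by fun_prop) continuous_const).measurableSet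
  obtain ⟨Q, hQ⟩ : ∃ Q : Set (Fin d → ℝ), Q = Set.pi Set.univ fun _ => Set.Ico 0 2 := ⟨_, rfl⟩
  have hQm : MeasurableSet Q := by rw [hQ]; exact MeasurableSet.univ_pi fun _ => measurableSet_Ico
  have hQv : volume Q = 2 ^ d := by
    rw [hQ, volume_pi_Ico]; simp
  obtain ⟨J, hJ⟩ := exists_Z (d := d) (fun _ => True) 0 (Λ + 2)
  obtain ⟨T, hT⟩ : ∃ T : (Fin d → ℤ) → Set (Fin d → ℝ), ∀ j,
    T j = (fun x => x + fun l => 2 * (j l : ℝ)) ⁻¹' K := ⟨_, fun _ => rfl⟩
  have hTm : ∀ j, MeasurableSet (T j) := fun j => by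
    rw [hT]; exact measurable_add_const _ hKm
  have h1 : K ⊆ ⋃ j ∈ J, (fun x => x + -fun l => 2 * (j l : ℝ)) ⁻¹' (T j ∩ Q) := fun y hy => by
    have a := fun l => Int.floor_le (y l / 2)
    have b := fun l => Int.lt_floor_add_one (y l / 2)
    refine Set.mem_biUnion (x := fun l => ⌊y l / 2⌋) ((hJ _).2 ⟨trivial, fun l => ?_⟩) ⟨?_, ?_⟩
    · have c := abs_le.1 (hK y (by rwa [hKd] at hy) l)
      simp only [Pi.zero_apply, zero_add]
      exact abs_le.2 ⟨by linarith [a l, b l], by linarith [a l, b l]⟩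
    · rw [hT]; simpa using hy
    · rw [hQ]
      intro l _
      simp only [Pi.add_apply, Pi.neg_apply]
      exact ⟨by linarith [a l], by linarith [b l]⟩
  rw [← hKd, ← hQv, ← setLIntegral_const]
  refine ((measure_mono h1).trans (measure_biUnion_finset_le _ _)).trans ?_
  simp only [measure_preimage_add_right]
  rw [sum_congr rfl fun j _ => by
    rw [← Measure.restrict_apply (hTm j), ← lintegral_indicator_one (hTm j)],
    ← lintegral_finsetSum _ fun j _ => measurable_one.indicator (hTm j)]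
  refine lintegral_mono fun x => ?_
  obtain ⟨m, m1, m2⟩ := round_lat u hu α x
  have e : ∑ j ∈ J, (T j).indicator (1 : (Fin d → ℝ) → ENNReal) x =
      (J.filter fun j => x ∈ T j).card := by
    rw [card_filter]; push_cast
    exact sum_congr rfl fun j _ => by simp [Set.indicator_apply]
  change ∑ j ∈ J, (T j).indicator 1 x ≤ _
  rw [e]
  refine Nat.cast_le.2 (card_le_card_of_injOn (fun j => m + j) (fun j hj => hZ _ ?_)
    fun j _ j' _ h => add_left_cancel h)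
  have h2 := (mem_filter.1 hj).2
  rw [hT, hKd] at h2
  have e2 : ∀ l, α l + 2 * ((m + j) l : ℝ) - (x l + 2 * j l) = α l + 2 * m l - x l := fun l => by
    simp only [Pi.add_apply]; push_cast; ring
  exact round_mem u α (fun l => x l + 2 * j l) (m + j) (by simp only [e2]; exact m1)
    (fun l => by rw [e2]; exact m2 l) h2 (hK _ h2)

lemma vol_ellipsoid {d : ℕ} (u : Fin d → EuclideanSpace ℝ (Fin d))
    (h : (Matrix.of fun i l => u l i).det ≠ 0) (ρ : ℝ) :
    volume {y : Fin d → ℝ | ‖∑ l, y l • u l‖ ≤ ρ} =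
      ENNReal.ofReal |(Matrix.of fun i l => u l i).det|⁻¹ *
        volume (Metric.closedBall (0 : EuclideanSpace ℝ (Fin d)) ρ) := by
  rw [← (PiLp.volume_preserving_toLp (Fin d)).measure_preimage
    measurableSet_closedBall.nullMeasurableSet, ← abs_inv, ← LinearMap.det_toLin',
    ← Measure.addHaar_preimage_linearMap _ (by rwa [LinearMap.det_toLin'])]
  congr 1
  ext y
  have : WithLp.toLp 2 (Matrix.toLin' (Matrix.of fun i l => u l i) y) = ∑ l, y l • u l := by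
    ext i
    simp [Matrix.mulVec, dotProduct, mul_comm]
  simp only [Set.mem_preimage, this, mem_closedBall_zero_iff, Set.mem_ofPred_eq]

lemma count_long {d : ℕ} (u : Fin d → EuclideanSpace ℝ (Fin d)) (hu : ∀ l, ‖u l‖ = 1)
    (α : Fin d → ℝ) {ρ : ℝ} (N : ℕ) (y : Fin d → ℝ) (hy : ‖∑ l, y l • u l‖ ≤ ρ) (l0 : Fin d)
    (hl : 5 * N < |y l0|) (Z : Finset (Fin d → ℤ)) (hZ : ∀ m : Fin d → ℤ,
      (‖∑ l, (α l + 2 * m l) • u l‖ ≤ ρ + √d ∧ ∀ l, |α l + 2 * m l| ≤ 5 * N + 2) → m ∈ Z) :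
    N ≤ Z.card := by
  obtain ⟨l1, -, h1⟩ := exists_max_image univ (fun l => |y l|) ⟨l0, mem_univ _⟩
  have h2 : 5 * N < |y l1| := hl.trans_le (h1 l0 (mem_univ _))
  have h3 : 0 < |y l1| := lt_of_le_of_lt (by positivity) h2
  choose m m1 m2 using fun i : ℕ => round_lat u hu α fun l => 5 * i / |y l1| * y l
  rw [← card_range N]
  refine card_le_card_of_injOn m (fun i hi => hZ _ (round_mem u α _ _ (m1 i) (m2 i) ?_ fun l => ?_))
    fun i _ i' _ h => ?_
  · have hi' : (i : ℝ) ≤ N := by exact_mod_cast (mem_range.1 hi).le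
    simp only [mul_smul (5 * i / |y l1|), ← smul_sum, norm_smul]
    refine (mul_le_of_le_one_left (norm_nonneg _) ?_).trans hy
    rw [norm_eq_abs, abs_of_nonneg (by positivity), div_le_one h3]; linarith
  · have hi' : (i : ℝ) ≤ N := by exact_mod_cast (mem_range.1 hi).le
    rw [abs_mul, abs_of_nonneg (by positivity), div_mul_eq_mul_div, div_le_iff₀ h3]
    exact mul_le_mul (by linarith) (h1 l (mem_univ _)) (abs_nonneg _) (by positivity)
  · have a := abs_le.1 (m2 i l1)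
    have b := abs_le.1 (m2 i' l1)
    rw [h] at a
    have c : |((i : ℝ) - i') * (5 / |y l1| * y l1)| ≤ 4 := by
      refine abs_le.2 ⟨?_, ?_⟩ <;> rw [sub_mul, ← mul_assoc, ← mul_assoc, ← mul_div_assoc,
        ← mul_div_assoc, mul_comm (i : ℝ), mul_comm (i' : ℝ)] <;> linarith
    rw [abs_mul, abs_mul, abs_of_nonneg (by positivity : 0 ≤ 5 / |y l1|),
      div_mul_cancel₀ _ h3.ne'] at c
    have c2 : |(i : ℤ) - i'| < 1 := by
      have : |(i : ℝ) - i'| < 1 := by linarith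
      exact_mod_cast this
    rw [Int.abs_lt_one_iff] at c2
    omega

lemma gram_le {d n : ℕ} (hd : 1 ≤ d) (hn : 1 ≤ n) (v : Fin n → EuclideanSpace ℝ (Fin d))
    (hv : ∀ i, ‖v i‖ = 1) (u : Fin d → EuclideanSpace ℝ (Fin d)) (a : Fin n → Fin d → ℝ)
    (ha : ∀ i, v i = ∑ l, a i l • u l) (P : Finset (Fin n)) :
    (Matrix.of fun l l' => ∑ i ∈ P, a i l * a i l').det * (Matrix.of fun i l => u l i).det ^ 2 ≤
      ((n : ℝ) / d) ^ d := by
  obtain ⟨w, hw⟩ : ∃ w : Fin n → Fin d → ℝ, ∀ i j, w i j = if i ∈ P then v i j else 0 :=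
    ⟨_, fun _ _ => rfl⟩
  obtain ⟨U, μ, h1, h2, h3⟩ := exists_diag w
  have e : (Matrix.of fun l l' => ∑ i, w i l * w i l') = (Matrix.of fun i l => u l i) *
      (Matrix.of fun l l' => ∑ i ∈ P, a i l * a i l') * (Matrix.of fun i l => u l i).transpose := by
    ext j j'
    have : ∀ i, w i j * w i j' = if i ∈ P then v i j * v i j' else 0 := fun i => by
      rw [hw, hw]; split_ifs <;> simp
    simp only [Matrix.of_apply, this, sum_ite_mem, univ_inter, Matrix.mul_apply,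
      Matrix.transpose_apply, mul_sum, sum_mul]
    rw [sum_comm]
    refine Eq.trans ?_ (sum_congr rfl fun _ _ => sum_comm).symm
    rw [sum_comm]
    refine sum_congr rfl fun i _ => ?_
    rw [ha i]
    simp only [WithLp.ofLp_sum, Finset.sum_apply, WithLp.ofLp_smul, Pi.smul_apply, smul_eq_mul,
      sum_mul_sum]
    exact sum_congr rfl fun _ _ => sum_congr rfl fun _ _ => by ring
  rw [e, Matrix.det_mul, Matrix.det_mul, Matrix.det_transpose] at h3
  have hμ : ∀ l, μ l = ∑ i, (∑ j, w i j * U j l) ^ 2 := fun l => by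
    have := h2 l l
    rw [if_pos rfl] at this
    simp only [← this, sq]
  have hs : ∑ l, μ l ≤ n := by
    simp only [hμ]
    rw [sum_comm]
    refine (sum_le_card_nsmul _ _ 1 fun i _ => ?_).trans (by simp)
    rw [h1]
    simp only [hw]
    split_ifs
    · rw [← EuclideanSpace.real_norm_sq_eq, hv, one_pow]
    · simp
  have hs0 : 0 < (n : ℝ) / d := by positivity
  have h4 : ∏ l, μ l ≤ ∏ l, (n : ℝ) / d * exp (μ l / (n / d) - 1) :=
    prod_le_prod (fun l _ => by rw [hμ]; positivity) fun l _ => by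
      rw [← div_le_iff₀' hs0]; linarith [add_one_le_exp (μ l / (n / d) - 1)]
  rw [prod_mul_distrib, ← exp_sum, Fin.prod_const, sum_sub_distrib, ← sum_div, Fin.sum_const,
    nsmul_eq_mul, mul_one] at h4
  refine le_trans (le_of_eq (by rw [h3]; ring)) (h4.trans (mul_le_of_le_one_right (by positivity)
    (exp_le_one_iff.2 (sub_nonpos.2 ?_))))
  rw [div_le_iff₀ hs0, mul_div_cancel₀ _ (by positivity)]
  exact hs

lemma parity_count {d : ℕ} (c : Fin d → ℤ) (r : ℝ) (Z : Finset (Fin d → ℤ))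
    (h1 : ∀ x ∈ Z, ∀ l, x l % 2 = c l % 2) (h2 : ∀ x ∈ Z, √(∑ l, (x l : ℝ) ^ 2) ≤ r) :
    (Z.card : ENNReal) * 2 ^ d ≤
      volume (Metric.closedBall (0 : EuclideanSpace ℝ (Fin d)) (r + √d)) := by
  rw [← (PiLp.volume_preserving_toLp (Fin d)).measure_preimage
    measurableSet_closedBall.nullMeasurableSet]
  have e : volume (⋃ x ∈ Z, Set.pi Set.univ fun l => Set.Ico ((x l : ℝ) - 1) (x l + 1)) =
      Z.card * 2 ^ d := by
    rw [measure_biUnion_finset (fun x hx x' hx' hne => ?_)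
      fun _ _ => MeasurableSet.univ_pi fun _ => measurableSet_Ico]
    · rw [sum_congr rfl fun x _ => volume_pi_Ico]
      norm_num
    · refine Set.disjoint_left.2 fun y a b => hne (funext fun l => ?_)
      have a1 := a l trivial
      have b1 := b l trivial
      have c1 : x l < x' l + 2 := by
        have : (x l : ℝ) < x' l + 2 := by linarith [a1.1, b1.2]
        exact_mod_cast this
      have c2 : x' l < x l + 2 := by
        have : (x' l : ℝ) < x l + 2 := by linarith [a1.2, b1.1]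
        exact_mod_cast this
      have := h1 x hx l
      have := h1 x' hx' l
      omega
  rw [← e]
  refine measure_mono (Set.iUnion₂_subset fun x hx y hy => ?_)
  rw [Set.mem_preimage, mem_closedBall_zero_iff, show WithLp.toLp 2 y =
    WithLp.toLp 2 (fun l => (x l : ℝ)) + WithLp.toLp 2 (fun l => y l - x l) by ext; simp]
  refine (norm_add_le _ _).trans (add_le_add ?_ ?_)
  · rw [EuclideanSpace.norm_eq]; simpa using h2 x hx
  · rw [EuclideanSpace.norm_eq]
    refine sqrt_le_sqrt ((sum_le_card_nsmul _ _ 1 fun l _ => ?_).trans (by simp))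
    have := hy l trivial
    rw [norm_eq_abs, sq_abs, sq_le_one_iff_abs_le_one]
    exact abs_le.2 ⟨by linarith [this.1], by linarith [this.2]⟩

end Pool.Agent.Lib.MP_3b7d13_co
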