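import Pool.Agent.Lib.MP_3b7d13_co.Asym
import Pool.Agent.Lib.MP_3b7d13_co.Blocks2
import Pool.Agent.Lib.MP_3b7d13_co.Lattice

/-! Asymptotic form of the lower bound for a general radius. -/

namespace Pool.Agent.Lib.MP_3b7d13_co

open Finset Real Filter Topology MeasureTheory

lemma ev_central2 {ε : ℝ} (hε0 : 0 < ε) (hε : ε < 1) (C : ℝ) : ∀ᶠ k : ℕ in atTop,
    (1 - ε) / π ≤ (k.centralBinom / 4 ^ k * exp (-(C / ((1 - ε) * k)))) ^ 2 * k := by
  have h0 : Tendsto (fun k : ℕ => C / ((1 - ε) * k)) atTop (𝓝 0) :=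
    tendsto_const_nhds.div_atTop (tendsto_natCast_atTop_atTop.const_mul_atTop (by linarith))
  have h1 := (continuous_exp.tendsto _).comp h0.neg
  have h2 : Tendsto (fun k : ℕ => 1 / (2 * (k : ℝ) + 1)) atTop (𝓝 0) :=
    tendsto_const_nhds.div_atTop (tendsto_atTop_add_const_right _ _
      (tendsto_natCast_atTop_atTop.const_mul_atTop two_pos))
  have h3 := (h1.pow 2).mul (h2.const_sub 1)
  simp only [neg_zero, exp_zero, one_pow, sub_zero, mul_one] at h3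
  filter_upwards [h3.eventually (lt_mem_nhds (by linarith : 1 - ε < 1))] with k hk
  simp only [Function.comp] at hk
  have h4 := cb_lower k
  have h5 : 1 - 1 / (2 * (k : ℝ) + 1) ≤ (k.centralBinom / 4 ^ k) ^ 2 * k * π := by
    have e : ((4 : ℝ) ^ k) ^ 2 = 16 ^ k := by rw [← pow_mul, mul_comm, pow_mul]; norm_num
    have e2 : 1 - 1 / (2 * (k : ℝ) + 1) = 2 * k / (2 * k + 1) := by field_simp; ring
    rw [div_pow, e, e2, div_mul_eq_mul_div, div_mul_eq_mul_div,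
      div_le_div_iff₀ (by positivity) (by positivity)]
    nlinarith [mul_le_mul_of_nonneg_right h4 (Nat.cast_nonneg k : (0 : ℝ) ≤ k)]
  rw [div_le_iff₀ pi_pos, mul_pow]
  nlinarith [mul_le_mul_of_nonneg_left h5 (sq_nonneg (exp (-(C / ((1 - ε) * k)))))]

lemma exists_eps2 {d : ℕ} (hd : 1 ≤ d) {R0 ω t : ℝ} (hR : 0 < R0)
    (ht : t < √(2 / π) ^ d * (R0 ^ d * ω / 2 ^ d / √((1 / d) ^ d))) :
    ∃ ε : ℝ, 0 < ε ∧ ε ≤ 1 / 2 ∧ ε ≤ R0 ∧
      t ≤ (1 - ε) * ((1 - ε) / (1 + ε) * √(2 / π)) ^ d *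
        ((R0 - ε) ^ d * ω / 2 ^ d / √((1 / d) ^ d + ε * (d.factorial : ℝ) ^ 2)) := by
  have hd0 : (0 : ℝ) < d := by exact_mod_cast hd
  have hc : ContinuousAt (fun ε : ℝ => (1 - ε) * ((1 - ε) / (1 + ε) * √(2 / π)) ^ d *
      ((R0 - ε) ^ d * ω / 2 ^ d / √((1 / d) ^ d + ε * (d.factorial : ℝ) ^ 2))) 0 := by
    have : √((1 / d) ^ d + 0 * (d.factorial : ℝ) ^ 2) ≠ 0 := by
      rw [zero_mul, add_zero]; positivity
    fun_prop (disch := first | assumption | norm_num)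
  have h1 := hc.eventually (lt_mem_nhds (a := t) (by simpa using ht))
  have h2 : ∀ᶠ ε : ℝ in 𝓝 0, ε ≤ 1 / 2 := eventually_le_nhds (by norm_num)
  have h3 : ∀ᶠ ε : ℝ in 𝓝 0, ε ≤ R0 := eventually_le_nhds hR
  obtain ⟨ε, ⟨a, b, b'⟩, c⟩ := (((h1.and (h2.and h3)).filter_mono nhdsWithin_le_nhds).and
    (self_mem_nhdsWithin (s := Set.Ioi (0 : ℝ)))).exists
  exact ⟨ε, c, b, b', a.le⟩

lemma main_arith2 {d n : ℕ} {ε B p c Q err k N τ : ℝ} (hε0 : 0 < ε) (hε : ε < 1) (hB : 0 < B)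
    (hk : 0 < k) (hn : 0 < n) (hp0 : 0 ≤ p) (hp : (1 - ε) / π ≤ p ^ 2 * k)
    (hc : c = (1 + ε) ^ 2 / (2 * ((1 - ε) * k))) (hQ0 : 0 < Q) (hQ : Q ≤ B * (c * n) ^ d)
    (herr : err * √(B * (c * n) ^ d) ≤ ε) (hN : 0 ≤ N) (hτ : τ * √B ≤ N) :
    (1 - ε) * ((1 - ε) / (1 + ε) * √(2 / π)) ^ d * τ ≤
      √n ^ d * (N * (p ^ d * (1 / √Q - err))) := by
  have hε1 : 0 < 1 - ε := by linarith
  have hc0 : 0 < c := by rw [hc]; positivity
  have hn0 : (0 : ℝ) < n := by exact_mod_cast hn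
  have e : √(B * (c * n) ^ d) = √B * (√c * √n) ^ d := by
    have e0 : √((c * n) ^ d) = √(c * n) ^ d := by
      rw [sqrt_eq_iff_mul_self_eq_of_pos (by positivity), ← mul_pow, mul_self_sqrt (by positivity)]
    rw [sqrt_mul (by positivity), ← sqrt_mul hc0.le, e0]
  have h1 : (1 - ε) / √(B * (c * n) ^ d) ≤ 1 / √Q - err := by
    have a := one_div_le_one_div_of_le (sqrt_pos.2 hQ0) (sqrt_le_sqrt hQ)
    have b : err ≤ ε / √(B * (c * n) ^ d) := (le_div_iff₀ (by positivity)).2 herr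
    rw [sub_div]; linarith
  have h2 : (1 - ε) / (1 + ε) * √(2 / π) * √c ≤ p := by
    refine abs_le_of_sq_le_sq' ?_ hp0 |>.2
    rw [mul_pow, mul_pow, sq_sqrt (by positivity), sq_sqrt hc0.le, hc]
    apply le_of_mul_le_mul_right _ hk
    refine le_trans (le_of_eq ?_) hp
    field_simp
  have h3 := pow_le_pow_left₀ (by positivity) h2 d
  have hsB : 0 < √B := sqrt_pos.2 hB
  refine le_trans (mul_le_mul_of_nonneg_left ((le_div_iff₀ hsB).2 hτ) (by positivity)) ?_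
  refine le_trans ?_ (mul_le_mul_of_nonneg_left (mul_le_mul_of_nonneg_left
    (mul_le_mul h3 h1 (by positivity) (by positivity)) hN) (by positivity))
  rw [e]
  apply le_of_eq
  simp only [mul_pow]
  have : 0 < √c := sqrt_pos.2 hc0
  have : 0 < √(n : ℝ) := sqrt_pos.2 hn0
  field_simp

lemma count_main {d : ℕ} (u : Fin d → EuclideanSpace ℝ (Fin d)) (hu : ∀ l, ‖u l‖ = 1)
    (hdet : (Matrix.of fun i l => u l i).det ≠ 0) {ρ τ B E : ℝ} (hρ : 0 ≤ ρ) (N : ℕ)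
    (hτ0 : 0 ≤ τ) (hN : 2 * τ ≤ N) (hB0 : 0 ≤ B) (hB : B ≤ 4)
    (hE : B * (Matrix.of fun i l => u l i).det ^ 2 ≤ E) (hτ : τ * √E ≤ ρ ^ d *
      (volume (Metric.closedBall (0 : EuclideanSpace ℝ (Fin d)) 1)).toReal / 2 ^ d)
    (α : Fin d → ℝ) : ∃ Z : Finset (Fin d → ℤ), τ * √B ≤ Z.card ∧ ∀ m ∈ Z,
      ‖∑ l, (α l + 2 * m l) • u l‖ ≤ ρ + √d ∧ ∀ l, |α l + 2 * m l| ≤ 5 * N + 2 := by
  obtain ⟨Z, hZ⟩ := exists_Z (fun m => ‖∑ l, (α l + 2 * m l) • u l‖ ≤ ρ + √d) α (5 * N + 2)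
  refine ⟨Z, ?_, fun m hm => (hZ m).1 hm⟩
  by_cases hK : ∀ y : Fin d → ℝ, ‖∑ l, y l • u l‖ ≤ ρ → ∀ l, |y l| ≤ 5 * N
  · have h := count_vol u hu α hK Z fun m hm => (hZ m).2 hm
    rw [vol_ellipsoid u hdet, Measure.addHaar_closedBall' _ _ hρ, finrank_euclideanSpace_fin] at h
    have h2 := ENNReal.toReal_mono (by finiteness) h
    simp only [ENNReal.toReal_mul, ENNReal.toReal_pow, ENNReal.toReal_natCast,
      ENNReal.toReal_ofNat] at h2
    rw [ENNReal.toReal_ofReal (by positivity), ENNReal.toReal_ofReal (by positivity)] at h2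
    have hp : 0 < |(Matrix.of fun i l => u l i).det| := abs_pos.2 hdet
    rw [inv_mul_le_iff₀ hp] at h2
    have h3 : √B * |(Matrix.of fun i l => u l i).det| ≤ √E := by
      rw [← sqrt_sq_eq_abs, ← sqrt_mul hB0]; exact sqrt_le_sqrt hE
    rw [le_div_iff₀ (by positivity)] at hτ
    refine le_of_mul_le_mul_right ?_ (mul_pos hp (by positivity : (0 : ℝ) < 2 ^ d))
    have h4 := mul_le_mul_of_nonneg_right (mul_le_mul_of_nonneg_left h3 hτ0)
      (by positivity : (0 : ℝ) ≤ 2 ^ d)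
    linarith
  · push Not at hK
    obtain ⟨y, hy, l0, hl⟩ := hK
    have h : (N : ℝ) ≤ Z.card := by
      exact_mod_cast count_long u hu α N y hy l0 hl Z fun m hm => (hZ m).2 hm
    have h2 : √B ≤ 2 := sqrt_le_iff.2 ⟨by norm_num, by linarith⟩
    nlinarith

theorem lower_main2 {d : ℕ} (hd : 1 ≤ d) {r t : ℝ} (hr : √d < r)
    (ht : t < √(2 / π) ^ d * ((r - √d) ^ d *
      (volume (Metric.closedBall (0 : EuclideanSpace ℝ (Fin d)) 1)).toReal / 2 ^ d /
        √((1 / d) ^ d))) :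
    ∀ᶠ n : ℕ in atTop, ∀ v : Fin n → EuclideanSpace ℝ (Fin d), (∀ i, ‖v i‖ = 1) →
      t ≤ √n ^ d * prob v r := by
  have hd1 : (1 : ℝ) ≤ d := by exact_mod_cast hd
  have hf : (1 : ℝ) ≤ d.factorial := by exact_mod_cast d.factorial_pos
  obtain ⟨ε, hε0, hε, hεR, hεt⟩ := exists_eps2 hd (sub_pos.2 hr) ht
  obtain ⟨E, hE⟩ : ∃ E : ℝ, E = (1 / d) ^ d + ε * (d.factorial : ℝ) ^ 2 := ⟨_, rfl⟩
  have hE0 : 0 < E := by rw [hE]; positivity
  obtain ⟨τ, hτ⟩ : ∃ τ, τ = (r - √d - ε) ^ d *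
    (volume (Metric.closedBall (0 : EuclideanSpace ℝ (Fin d)) 1)).toReal / 2 ^ d / √E := ⟨_, rfl⟩
  rw [← hE, ← hτ] at hεt
  have hρ : 0 ≤ r - √d - ε := sub_nonneg.2 hεR
  have hτ0 : 0 ≤ τ := by rw [hτ]; positivity
  obtain ⟨N, hN⟩ := exists_nat_ge (2 * τ)
  have hcD : 0 < cD d := by unfold cD; positivity
  obtain ⟨δ, hδ0, hδ, hδt⟩ : ∃ δ : ℝ, 0 < δ ∧ δ ≤ 1 ∧ t * (2 * δ) ≤ cD d := by
    refine ⟨min 1 (cD d / (2 * (|t| + 1))), by positivity, min_le_left _ _, ?_⟩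
    have h1 := min_le_right 1 (cD d / (2 * (|t| + 1)))
    have h2 : 0 < min 1 (cD d / (2 * (|t| + 1))) := by positivity
    rw [le_div_iff₀ (by positivity)] at h1
    nlinarith only [le_abs_self t, h1, h2]
  obtain ⟨A, hA⟩ : ∃ A : ℝ, A = d / δ ^ 2 := ⟨_, rfl⟩
  have hA0 : 0 < A := by rw [hA]; positivity
  obtain ⟨G, hG⟩ : ∃ G : ℝ, G = (d.factorial * (1 / δ) ^ d) ^ 2 := ⟨_, rfl⟩
  have hG0 : 0 < G := by rw [hG]; positivity
  obtain ⟨σ, hσ0, hσ1, hσ2⟩ : ∃ σ : ℝ, 0 < σ ∧ σ ≤ δ ^ 2 ∧ σ * d * G ≤ 1 := by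
    refine ⟨min (δ ^ 2) (1 / (d * G)), by positivity, min_le_left _ _, ?_⟩
    have := min_le_right (δ ^ 2) (1 / (d * G))
    rwa [le_div_iff₀ (by positivity), ← mul_assoc] at this
  have hlin : ∀ C a : ℝ, 0 < a → ∀ᶠ k : ℕ in atTop, C ≤ a * k := fun C a ha =>
    (tendsto_natCast_atTop_atTop.const_mul_atTop ha).eventually_ge_atTop C
  have herr := ((tendsto_poly_exp (γ := ε / (12 * d * A)) (by positivity)
    (4 * (3 * 2 ^ (d + 2)) ^ d) ((d + 2) * d)).const_mul (4 * (d : ℝ))).add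
    (tendsto_poly_exp (γ := ε ^ 2 / 4) (by positivity)
      (4 * (3 * 2 ^ (d + 2)) ^ d) ((d + 2) * d))
  simp only [mul_zero, add_zero] at herr
  obtain ⟨k0, hk0⟩ := eventually_atTop.1 ((hlin (5 * N + 2) ε hε0).and
    ((ev_central2 hε0 (by linarith) ((1 + 1 / ε) * (5 * N + 2) ^ 2 / 4)).and
    ((hlin (2 * (10 * d ^ 3 / (ε * δ)) ^ d) σ hσ0).and ((hlin (d * (1 + A) ^ (d - 1)) (ε / 2)
      (by positivity)).and ((hlin 1 (δ ^ 2) (by positivity)).and
        (herr.eventually (eventually_le_nhds hε0)))))))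
  filter_upwards [eventually_ge_atTop (k0 ^ (d + 2))] with n hn v hv
  obtain ⟨k, hk1, hk2⟩ : ∃ k, k ^ (d + 2) ≤ n ∧ n < (k + 1) ^ (d + 2) :=
    ⟨_, Nat.pow_nthRoot_le (Or.inl (by omega)), Nat.lt_pow_nthRoot_add_one (by omega) n⟩
  obtain ⟨a1, a2, a3, a4, a5, a6⟩ := hk0 k (by
    have := lt_of_pow_lt_pow_left₀ _ (Nat.zero_le _) (hn.trans_lt hk2)
    omega)
  have hk4 : (4 : ℝ) ≤ k := by
    nlinarith only [(Nat.cast_nonneg k : (0 : ℝ) ≤ k), (Nat.cast_nonneg N : (0 : ℝ) ≤ N), a1, hε]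
  have hk1' : (k : ℝ) ^ (d + 2) ≤ n := by exact_mod_cast hk1
  have hk2' : (n : ℝ) ≤ (2 * k) ^ (d + 2) := by
    have : (n : ℝ) ≤ (k + 1) ^ (d + 2) := by exact_mod_cast hk2.le
    exact this.trans (pow_le_pow_left₀ (by positivity) (by linarith) _)
  have hkn : (k : ℝ) ^ 2 ≤ n := (pow_le_pow_right₀ (by linarith) (by omega)).trans hk1'
  have hkn' : (k : ℝ) ≤ n := by nlinarith only [hkn, hk4]
  have hn0 : (0 : ℝ) < n := by linarith only [hkn', hk4]
  have hn1 : 0 < n := by exact_mod_cast hn0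
  have hk0' : (0 : ℝ) < k := by linarith only [hk4]
  obtain ⟨c, hc⟩ : ∃ c : ℝ, c = (1 + ε) ^ 2 / (2 * ((1 - ε) * k)) := ⟨_, rfl⟩
  have hK : 0 < 2 * ((1 - ε) * k) := by
    have : 0 < 1 - ε := by linarith
    positivity
  have hc1 : c * k ≤ 3 := by
    rw [hc, div_mul_eq_mul_div, div_le_iff₀ hK]
    linarith only [mul_le_mul_of_nonneg_right (by nlinarith only [hε0, hε] :
      (1 + ε) ^ 2 ≤ 6 * (1 - ε)) (by linarith : (0 : ℝ) ≤ k)]
  have hc2 : 1 / 2 ≤ c * k := by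
    rw [hc, div_mul_eq_mul_div, le_div_iff₀ hK]
    linarith only [mul_le_mul_of_nonneg_right (by nlinarith only [hε0] : 1 - ε ≤ (1 + ε) ^ 2)
      (by linarith : (0 : ℝ) ≤ k)]
  have hc0 : 0 < c := by rw [hc]; positivity
  obtain ⟨R, hR0, hR⟩ : ∃ R : ℝ, 0 ≤ R ∧ R ^ 2 = ε * k / (3 * d * A) :=
    ⟨√_, sqrt_nonneg _, sq_sqrt (by positivity)⟩
  have hdich := dichotomy2 (k := k) hd hn1 v hv hδ0 hδ (ν := ε / (2 * d ^ 2 * k))
    (κ := σ * n) (Y := (2 * δ) ^ 2 * n) (by positivity)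
    (by
      rw [div_lt_one (by positivity)]
      nlinarith only [mul_le_mul (one_le_pow₀ hd1 : (1 : ℝ) ≤ d ^ 2) hk4 (by norm_num)
        (by positivity), hε])
    (by
      have e0 : 5 * d / (ε / (2 * d ^ 2 * k) * δ) = 10 * d ^ 3 / (ε * δ) * k := by
        field_simp; norm_num
      have e : 2 * (k : ℝ) * (10 * d ^ 3 / (ε * δ) * k) ^ d =
          2 * (10 * d ^ 3 / (ε * δ)) ^ d * k ^ (d + 1) := by
        rw [mul_pow]; ring
      rw [e0, e]
      calc _ ≤ σ * k * k ^ (d + 1) := mul_le_mul_of_nonneg_right a3 (by positivity)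
        _ = σ * k ^ (d + 2) := by ring
        _ ≤ _ := mul_le_mul_of_nonneg_left hk1' hσ0.le)
    (by nlinarith only [mul_le_mul_of_nonneg_left hkn' (sq_nonneg δ), a5])
    (by nlinarith only [mul_le_mul_of_nonneg_right hσ1 hn0.le, mul_pos (pow_pos hδ0 2) hn0])
  have hsn : 0 < √(n : ℝ) := sqrt_pos.2 hn0
  rcases hdich with h | ⟨u, a, J, hu, hdet, ha, hJ, hν, haA, hD⟩
  · refine le_trans ?_ (mul_le_mul_of_nonneg_left (h.trans (prob_mono v hr.le)) (by positivity))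
    rw [sqrt_mul (by positivity), sqrt_sq (by positivity),
      show √(n : ℝ) ^ d = √n * √n ^ (d - 1) by rw [← pow_succ']; congr 1; omega]
    refine le_trans ((le_div_iff₀ (by positivity)).2 hδt) (le_of_eq ?_)
    rw [one_div, inv_pow]
    field_simp
  rw [← hA] at haA
  rw [← hG] at hD
  obtain ⟨s, hs⟩ : ∃ s, s = (Matrix.of fun i l => u l i).det ^ 2 := ⟨_, rfl⟩
  have hs0 : 0 < s := by rw [hs]; positivity
  have hs1 : s ≤ (d.factorial : ℝ) ^ 2 := by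
    have := Matrix.det_le (A := Matrix.of fun i l => u l i) (abv := AbsoluteValue.abs) (x := 1)
      fun i l => by
        have := PiLp.norm_apply_le (u l) i
        simpa [hu] using this
    rw [hs, ← sq_abs]
    exact pow_le_pow_left₀ (abs_nonneg _) (by simpa using this) 2
  obtain ⟨b, hb⟩ : ∃ b : ℝ, b = min 2 ((1 / d) ^ d / s) := ⟨_, rfl⟩
  have hb0 : 0 < b := by rw [hb]; positivity
  have hb2 : b ≤ 2 := by rw [hb]; exact min_le_left _ _
  have hbs : (b + ε) * s ≤ E := by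
    have : b * s ≤ (1 / d) ^ d := (le_div_iff₀ hs0).1 (by rw [hb]; exact min_le_right _ _)
    rw [hE]; nlinarith only [this, hs1, hε0]
  have e1 : (n : ℝ) ^ d = n * n ^ (d - 1) := by rw [← pow_succ']; congr 1; omega
  have hD2 : (Matrix.of fun l l' => ∑ i ∈ (univ.image J)ᶜ, a i l * a i l').det ≤ b * n ^ d := by
    rw [hb, min_mul_of_nonneg _ _ (by positivity)]
    refine le_min (hD.trans ?_) ?_
    · rw [div_le_iff₀ (by positivity)]
      have := mul_le_mul_of_nonneg_right hσ2 (by positivity : (0 : ℝ) ≤ n ^ d)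
      nth_rewrite 1 [e1] at this
      nlinarith only [this, hf, (by positivity : (0 : ℝ) ≤ n ^ d)]
    · have := gram_le hd hn1 v hv u a ha (univ.image J)ᶜ
      rw [← hs, ← le_div_iff₀ hs0] at this
      refine this.trans (le_of_eq ?_)
      rw [div_pow, div_pow, one_pow]; ring
  have h := block_lower2 hd v u hu a ha J hJ hν haA hA0.le hε0 (by linarith) (by exact_mod_cast hk0')
    a1 hR0 hc (by
      rw [hR]
      have : c * (d * A * (ε * k / (3 * d * A))) = c * k / 3 * ε := by field_simp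
      rw [this]; nlinarith only [hc1, hε0]) hD2 (r := r) (N0 := τ * √(b + ε)) (by positivity)
    fun α => by
      have e : r - d * ((2 * k : ℕ) * (d * (ε / (2 * d ^ 2 * k)))) = r - √d - ε + √d := by
        push_cast; field_simp; ring
      rw [e]
      exact count_main u hu hdet hρ N hτ0 hN (by positivity) (by linarith) (hs ▸ hbs)
        (by rw [hτ, div_mul_cancel₀ _ (sqrt_pos.2 hE0).ne']) α
  rw [sub_sub] at h
  refine hεt.trans (le_trans (main_arith2 (B := b + ε) hε0 (by linarith) (by positivity) hk0' hn1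
    (by positivity) a2 hc (by positivity) ?_ ?_ (by positivity) le_rfl)
    (mul_le_mul_of_nonneg_left h (by positivity)))
  · have hX : (k : ℝ) / 2 ≤ c * n := by
      nlinarith only [mul_le_mul_of_nonneg_left hkn hc0.le, hc2, hk4]
    have b2 : d * (1 + c * (n * A)) ^ (d - 1) ≤ ε * (c * n) ^ d := by
      have b3 : 1 + c * (n * A) ≤ (1 + A) * (c * n) := by linarith only [hX, hk4]
      have b4 := pow_le_pow_left₀ (by positivity) b3 (d - 1)
      have e2 : (c * n) ^ d = c * n * (c * n) ^ (d - 1) := by rw [← pow_succ']; congr 1; omega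
      rw [mul_pow] at b4
      calc _ ≤ d * ((1 + A) ^ (d - 1) * (c * n) ^ (d - 1)) :=
            mul_le_mul_of_nonneg_left b4 (by positivity)
        _ = d * (1 + A) ^ (d - 1) * (c * n) ^ (d - 1) := by ring
        _ ≤ ε * (c * n) * (c * n) ^ (d - 1) :=
            mul_le_mul_of_nonneg_right (by
              linarith only [a4, mul_le_mul_of_nonneg_left hX hε0.le]) (by positivity)
        _ = _ := by rw [e2]; ring
    rw [mul_pow] at b2 ⊢
    linarith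
  · refine le_trans ?_ a6
    have b1 : √((b + ε) * (c * n) ^ d) ≤
        1 + 4 * (3 * 2 ^ (d + 2)) ^ d * (k : ℝ) ^ ((d + 2) * d) := by
      have b2 : c * n ≤ 3 * 2 ^ (d + 2) * (k : ℝ) ^ (d + 2) := by
        rw [mul_assoc, ← mul_pow]
        exact mul_le_mul (by nlinarith only [hc1, hc0, hk4]) hk2' hn0.le (by norm_num)
      have b3 := pow_le_pow_left₀ (by positivity) b2 d
      rw [mul_pow (3 * 2 ^ (d + 2) : ℝ), ← pow_mul] at b3
      have b4 := mul_le_mul (by linarith : b + ε ≤ 4) b3 (by positivity) (by positivity)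
      refine le_trans (sqrt_le_iff.2 ⟨by positivity, ?_⟩) (add_le_add_right (b4.trans_eq
        (mul_assoc _ _ _).symm) 1)
      have : 0 ≤ (b + ε) * (c * n) ^ d := by positivity
      nlinarith only [this]
    refine (mul_le_mul_of_nonneg_left b1 (by positivity)).trans (le_of_eq ?_)
    have e1 : R ^ 2 / 4 = ε / (12 * d * A) * k := by rw [hR]; field_simp; norm_num
    have e2 : ε ^ 2 * k / 4 = ε ^ 2 / 4 * k := by ring
    rw [e1, e2]; ring

end Pool.Agent.Lib.MP_3b7d13_co
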