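import Pool.Agent.Lib.MP_3b7d13_co.Upper

/-! Sharp local bounds for binomial coefficients. -/

namespace Pool.Agent.Lib.MP_3b7d13_co

open Finset Real

lemma W_eq_cb (k : ℕ) : Wallis.W k * ((k.centralBinom : ℝ) ^ 2 * (2 * k + 1)) = 16 ^ k := by
  rw [Wallis.W_eq_factorial_ratio]
  have h : ((2 * k).factorial : ℝ) = k.centralBinom * k.factorial * k.factorial := by
    have := Nat.choose_mul_factorial_mul_factorial (n := 2 * k) (k := k) (by omega)
    rw [show 2 * k - k = k by omega, ← Nat.centralBinom_eq_two_mul_choose] at this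
    exact_mod_cast this.symm
  have h1 : (0 : ℝ) < k.centralBinom := by exact_mod_cast Nat.centralBinom_pos k
  rw [h, pow_mul]
  field_simp
  norm_num

lemma cb_lower (k : ℕ) : 2 * 16 ^ k ≤ π * ((k.centralBinom : ℝ) ^ 2 * (2 * k + 1)) := by
  rw [← W_eq_cb]
  have := mul_le_mul_of_nonneg_right (Wallis.W_le k)
    (by positivity : (0 : ℝ) ≤ (k.centralBinom : ℝ) ^ 2 * (2 * k + 1))
  linarith

lemma cb_upper (k : ℕ) :
    π * ((k.centralBinom : ℝ) ^ 2 * (2 * k + 1) ^ 2) ≤ 2 * (2 * k + 2) * 16 ^ k := by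
  rw [← W_eq_cb]
  have h := Wallis.le_W k
  rw [div_mul_eq_mul_div, div_le_iff₀ (by positivity)] at h
  have := mul_le_mul_of_nonneg_right h
    (by positivity : (0 : ℝ) ≤ (k.centralBinom : ℝ) ^ 2 * (2 * k + 1))
  nlinarith

lemma choose_lower {k : ℕ} {K : ℝ} (hK : 0 < K) (i : ℕ) (hi : K + i ≤ k) :
    k.centralBinom * exp (-(i ^ 2 / K)) ≤ (2 * k).choose (k + i) := by
  induction i with
  | zero => simp [Nat.centralBinom_eq_two_mul_choose]
  | succ i ih =>
    push_cast at hi ⊢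
    have ih' := ih (by linarith)
    have hik : i ≤ k := by
      have : (i : ℝ) ≤ k := by linarith
      exact_mod_cast this
    have h1 : ((2 * k).choose (k + (i + 1)) : ℝ) * (k + i + 1) = (2 * k).choose (k + i) * (k - i) := by
      have := Nat.choose_succ_right_eq (2 * k) (k + i)
      rw [show 2 * k - (k + i) = k - i by omega] at this
      have h2 := congrArg (Nat.cast : ℕ → ℝ) this
      push_cast [hik] at h2
      exact h2
    have h2 : (k + i + 1 : ℝ) ≤ (k - i) * exp ((2 * i + 1) / K) := by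
      have a := add_one_le_exp ((2 * i + 1) / K)
      have b : (2 * i + 1 : ℝ) ≤ (k - i) * ((2 * i + 1) / K) := by
        rw [← mul_div_assoc, le_div_iff₀ hK]
        have : (0 : ℝ) ≤ i := Nat.cast_nonneg i
        nlinarith
      have c := mul_le_mul_of_nonneg_left a (by linarith : (0 : ℝ) ≤ k - i)
      linarith
    have h3 : exp (-((i + 1) ^ 2 / K)) * exp ((2 * i + 1) / K) = exp (-(i ^ 2 / K)) := by
      rw [← exp_add]; congr 1; ring
    apply le_of_mul_le_mul_right _ (by positivity : (0 : ℝ) < k + i + 1)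
    rw [h1]
    calc _ ≤ k.centralBinom * exp (-((i + 1) ^ 2 / K)) * ((k - i) * exp ((2 * i + 1) / K)) :=
          mul_le_mul_of_nonneg_left h2 (by positivity)
      _ = k.centralBinom * exp (-(i ^ 2 / K)) * (k - i) := by rw [← h3]; ring
      _ ≤ _ := mul_le_mul_of_nonneg_right ih' (by linarith)

lemma choose_lower' {k j : ℕ} {K ρ : ℝ} (hK : 0 < K) (hj : |(j : ℝ) - k| ≤ ρ) (hρ : K + ρ ≤ k) :
    k.centralBinom * exp (-(ρ ^ 2 / K)) ≤ (2 * k).choose j := by
  have h := abs_le.1 hj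
  have key : ∀ i : ℕ, (i : ℝ) ≤ ρ →
      k.centralBinom * exp (-(ρ ^ 2 / K)) ≤ (2 * k).choose (k + i) := fun i hi => by
    refine le_trans (mul_le_mul_of_nonneg_left (exp_le_exp.2 ?_) (Nat.cast_nonneg _))
      (choose_lower hK i (by linarith))
    exact neg_le_neg (div_le_div_of_nonneg_right (pow_le_pow_left₀ (Nat.cast_nonneg _) hi 2) hK.le)
  rcases le_total k j with hkj | hkj
  · obtain ⟨i, rfl⟩ := Nat.exists_eq_add_of_le hkj
    push_cast at h
    exact key i (by linarith)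
  · obtain ⟨i, rfl⟩ := Nat.exists_eq_add_of_le hkj
    push_cast at h
    have := key i (by linarith)
    rwa [← Nat.choose_symm (by omega), show 2 * (j + i) - (j + i + i) = j by omega] at this

lemma level {k : ℕ} {ε α : ℝ} (hε : 0 < ε) (hε1 : ε < 1) (hα : |α| / 2 + 1 ≤ ε * k) :
    ∃ j < 2 * k, |α + (2 * j + 1 - 2 * k)| ≤ 1 ∧
      k.centralBinom * exp (-((1 + 1 / ε) / ((1 - ε) * k))) *
        exp (-((1 + ε) / (4 * ((1 - ε) * k)) * α ^ 2)) ≤ min ((2 * k).choose j) ((2 * k).choose (j + 1)) := by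
  have h0 := abs_nonneg α
  have h1 := abs_le.1 (le_refl |α|)
  have hk : (0 : ℝ) < k := by
    by_contra h; push Not at h; nlinarith
  have hk2 : ε * k < k := by nlinarith
  have hz : 0 ≤ (2 * k - α) / 2 := by linarith
  have a1 := Nat.floor_le hz
  have a2 := Nat.lt_floor_add_one ((2 * k - α) / 2)
  generalize ⌊(2 * k - α) / 2⌋₊ = j at a1 a2
  refine ⟨j, ?_, abs_le.2 ⟨by linarith, by linarith⟩, ?_⟩
  · have : (j : ℝ) < 2 * k := by linarith
    exact_mod_cast this
  have hK : 0 < (1 - ε) * k := mul_pos (by linarith) hk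
  have b1 := choose_lower' (k := k) (j := j) (ρ := |α| / 2 + 1) hK
    (abs_le.2 ⟨by linarith, by linarith⟩) (by linarith)
  have b2 := choose_lower' (k := k) (j := j + 1) (ρ := |α| / 2 + 1) hK
    (abs_le.2 ⟨by push_cast; linarith, by push_cast; linarith⟩) (by linarith)
  push_cast
  refine le_trans ?_ (le_min b1 b2)
  rw [mul_assoc, ← exp_add]
  refine mul_le_mul_of_nonneg_left (exp_le_exp.2 ?_) (Nat.cast_nonneg _)
  have c : (|α| / 2 + 1) ^ 2 ≤ 1 + 1 / ε + (1 + ε) / 4 * α ^ 2 := by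
    rw [← sq_abs α]
    have : |α| ≤ 1 / ε + ε / 4 * |α| ^ 2 := by
      rw [← sub_nonneg]
      have e : 1 / ε + ε / 4 * |α| ^ 2 - |α| = (1 - ε * |α| / 2) ^ 2 / ε := by field_simp; ring
      rw [e]; positivity
    nlinarith
  have c2 := div_le_div_of_nonneg_right c hK.le
  have e : (1 + 1 / ε + (1 + ε) / 4 * α ^ 2) / ((1 - ε) * k) =
      (1 + 1 / ε) / ((1 - ε) * k) + (1 + ε) / (4 * ((1 - ε) * k)) * α ^ 2 := by
    have : (1 - ε) ≠ 0 := by linarith
    field_simp
  linarith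

lemma ratio_le_exp {a y : ℝ} (ha : 0 < a) (hy : 0 ≤ y) : a - y ≤ (a + y) * exp (-(2 * y / a)) := by
  rcases le_or_gt a y with h | h
  · have : 0 ≤ (a + y) * exp (-(2 * y / a)) := by positivity
    linarith
  have h1 := le_log_one_add_of_nonneg (x := 2 * y / (a - y)) (by
    have : 0 < a - y := by linarith
    positivity)
  have h0 : 0 < a - y := by linarith
  have e1 : 2 * (2 * y / (a - y)) / (2 * y / (a - y) + 2) = 2 * y / a := by field_simp; ring
  have e2 : 1 + 2 * y / (a - y) = (a + y) / (a - y) := by field_simp; ring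
  rw [e1, e2, le_log_iff_exp_le (by positivity), le_div_iff₀ h0] at h1
  rw [exp_neg, ← div_eq_mul_inv, le_div_iff₀ (exp_pos _)]
  linarith

lemma choose_upper (k j : ℕ) :
    (k.choose ((k + 1) / 2 + j) : ℝ) ≤ k.choose (k / 2) * exp (-(2 * j ^ 2 / (k + 1))) := by
  induction j with
  | zero => simpa using Nat.choose_le_middle _ _
  | succ j ih =>
    rcases lt_or_ge k ((k + 1) / 2 + (j + 1)) with h | h
    · rw [Nat.choose_eq_zero_of_lt h]; simp; positivity
    obtain ⟨h0, hh⟩ : ∃ h0, h0 = (k + 1) / 2 := ⟨_, rfl⟩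
    rw [← hh] at ih h ⊢
    have hh1 : (k : ℝ) ≤ 2 * h0 := by exact_mod_cast (by omega : k ≤ 2 * h0)
    have h1 : (k.choose (h0 + (j + 1)) : ℝ) * (h0 + j + 1) = k.choose (h0 + j) * (k - (h0 + j)) := by
      have := congrArg (Nat.cast : ℕ → ℝ) (Nat.choose_succ_right_eq k (h0 + j))
      push_cast [show h0 + j ≤ k by omega] at this
      exact this
    have hj : (0 : ℝ) ≤ j := Nat.cast_nonneg j
    have h2 := ratio_le_exp (a := (k + 1) / 2) (y := h0 + j + 1 - (k + 1) / 2) (by positivity)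
      (by linarith)
    have h3 : exp (-(2 * (h0 + j + 1 - (k + 1) / 2) / ((k + 1) / 2))) ≤
        exp (-(2 * (2 * j + 1) / (k + 1))) := by
      refine exp_le_exp.2 (neg_le_neg ?_)
      rw [div_le_div_iff₀ (by positivity) (by positivity)]
      nlinarith [mul_nonneg (sub_nonneg.2 hh1) (by positivity : (0 : ℝ) ≤ k + 1)]
    have h4 : (k - (h0 + j) : ℝ) ≤ (h0 + j + 1) * exp (-(2 * (2 * j + 1) / (k + 1))) := by
      have := mul_le_mul_of_nonneg_left h3 (by positivity : (0 : ℝ) ≤ h0 + j + 1)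
      have e : ((k : ℝ) + 1) / 2 + (h0 + j + 1 - (k + 1) / 2) = h0 + j + 1 := by ring
      rw [e] at h2
      linarith
    have h5 : exp (-(2 * (j : ℝ) ^ 2 / (k + 1))) * exp (-(2 * (2 * j + 1) / (k + 1))) =
        exp (-(2 * ((j + 1 : ℕ) : ℝ) ^ 2 / (k + 1))) := by
      rw [← exp_add]; congr 1; push_cast; ring
    apply le_of_mul_le_mul_right _ (by positivity : (0 : ℝ) < h0 + j + 1)
    rw [h1, ← h5]
    calc _ ≤ (k.choose (h0 + j) : ℝ) * ((h0 + j + 1) * exp (-(2 * (2 * j + 1) / (k + 1)))) :=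
          mul_le_mul_of_nonneg_left h4 (Nat.cast_nonneg _)
      _ ≤ k.choose (k / 2) * exp (-(2 * j ^ 2 / (k + 1))) *
          ((h0 + j + 1) * exp (-(2 * (2 * j + 1) / (k + 1)))) :=
          mul_le_mul_of_nonneg_right ih (by positivity)
      _ = _ := by ring

end Pool.Agent.Lib.MP_3b7d13_co
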