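import Pool.Agent.Lib.MP_3b7d13_co.Spanner

/-! Spanners with control of all minors, a discrete Andreief identity, rounding with slack. -/

namespace Pool.Agent.Lib.MP_3b7d13_co

open Finset Module

lemma spannerD {d n : ℕ} (v : Fin n → EuclideanSpace ℝ (Fin d)) (T : Finset (Fin n)) :
    ∃ r ≤ d, ∃ f : Fin r → Fin n, ∃ c : Fin n → Fin r → ℝ, (∀ j, f j ∈ T) ∧
      LinearIndependent ℝ (fun j => v (f j)) ∧ (∀ i ∈ T, v i = ∑ j, c i j • v (f j)) ∧
      (∀ i j, |c i j| ≤ 1) ∧ (∀ i ∉ T, c i = 0) ∧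
      ∀ h : Fin r → Fin n, |(Matrix.of fun l j => c (h j) l).det| ≤ 1 := by
  classical
  obtain ⟨W, hW⟩ : ∃ W, W = Submodule.span ℝ (v '' T) := ⟨_, rfl⟩
  obtain ⟨f0, hf0, -, hf2⟩ := Submodule.exists_fun_fin_finrank_span_eq ℝ (v '' T)
  have hmem : ∀ i : T, v i ∈ W := fun i => by
    rw [hW]; exact Submodule.subset_span ⟨i, i.2, rfl⟩
  obtain ⟨w, hw⟩ : ∃ w : T → W, ∀ i, w i = ⟨v i, hmem i⟩ := ⟨_, fun _ => rfl⟩
  have hwv : ∀ i, (w i : EuclideanSpace ℝ (Fin d)) = v i := fun i => by rw [hw]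
  choose g0 hg0 hg1 using hf0
  have hr : finrank ℝ (Submodule.span ℝ (v '' T)) = finrank ℝ W := by rw [hW]
  let B : Basis (Fin (finrank ℝ (Submodule.span ℝ (v '' T)))) ℝ W := finBasisOfFinrankEq ℝ W hr.symm
  obtain ⟨g, -, hg⟩ := exists_max_image (univ : Finset (Fin (finrank ℝ (Submodule.span ℝ (v '' T))) → T))
    (fun g => |B.det fun j => w (g j)|) ⟨fun j => ⟨g0 j, hg0 j⟩, mem_univ _⟩
  have h0 : B.det (fun j => w ⟨g0 j, hg0 j⟩) ≠ 0 := by
    have hli : LinearIndependent ℝ fun j => w ⟨g0 j, hg0 j⟩ := by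
      refine LinearIndependent.of_comp W.subtype ?_
      have : (W.subtype ∘ fun j => w ⟨g0 j, hg0 j⟩) = f0 := funext fun j => by
        simp [hwv, hg1]
      rw [this]; exact hf2
    have hsp := hli.span_eq_top_of_card_eq_finrank' (by simp [hr])
    exact (B.is_basis_iff_det.1 ⟨hli, hsp⟩).ne_zero
  have h1 : B.det (fun j => w (g j)) ≠ 0 := by
    intro h
    have := hg _ (mem_univ fun j => ⟨g0 j, hg0 j⟩)
    rw [h, abs_zero] at this
    exact h0 (abs_nonpos_iff.1 this)
  obtain ⟨hli, hsp⟩ := B.is_basis_iff_det.2 (isUnit_iff_ne_zero.2 h1)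
  obtain ⟨G, hG⟩ : ∃ G, G = Basis.mk hli hsp.ge := ⟨_, rfl⟩
  have hGa : ∀ j, G j = w (g j) := fun j => by rw [hG, Basis.mk_apply]
  have hdet : ∀ h : Fin (finrank ℝ (Submodule.span ℝ (v '' T))) → T,
      |G.det fun j => w (h j)| ≤ 1 := fun h => by
    have e := congrArg (fun L => L fun j => w (h j)) (AlternatingMap.eq_smul_basis_det G B.det)
    simp only [AlternatingMap.smul_apply, smul_eq_mul] at e
    have e2 : (G : _ → W) = fun j => w (g j) := funext hGa
    rw [e2] at e
    have h3 := hg h (mem_univ _)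
    rw [e, abs_mul] at h3
    exact (mul_le_iff_le_one_right (abs_pos.2 h1)).1 h3
  refine ⟨_, ?_, fun j => g j, fun i j => if hi : i ∈ T then G.repr (w ⟨i, hi⟩) j else 0,
    fun j => (g j).2, ?_, fun i hi => ?_, fun i j => ?_, fun i hi => ?_, fun h => ?_⟩
  · exact (Submodule.finrank_le _).trans (by simp)
  · have := hli.map' W.subtype (Submodule.ker_subtype W)
    have e : (W.subtype ∘ fun j => w (g j)) = fun j => v (g j) := funext fun j => by simp [hwv]
    rwa [e] at this
  · have h2 := congrArg W.subtype (G.sum_repr (w ⟨i, hi⟩))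
    simp only [map_sum, map_smul, hGa, Submodule.subtype_apply, hwv] at h2
    simp only [dif_pos hi]
    exact h2.symm
  · by_cases hi : i ∈ T
    · simp only [dif_pos hi]
      have h3 := hdet (Function.update g j ⟨i, hi⟩)
      have h4 : (fun k => w (Function.update g j ⟨i, hi⟩ k)) =
          Function.update G j (w ⟨i, hi⟩) := by
        rw [funext hGa]; exact Function.comp_update w g j ⟨i, hi⟩
      rw [h4] at h3
      have h2 := congrArg (fun L => L (w ⟨i, hi⟩))
        (G.det_smul_mk_coord_eq_det_update hli hsp.ge j)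
      rw [← hG, ← funext hGa] at h2
      simp only [LinearMap.smul_apply, smul_eq_mul, MultilinearMap.toLinearMap_apply,
        Basis.det_self, one_mul, Basis.coord_apply] at h2
      rw [h2]; exact h3
    · simp [dif_neg hi]
  · funext j; simp [dif_neg hi]
  · by_cases hh : ∀ j, h j ∈ T
    · have := hdet fun j => ⟨h j, hh j⟩
      rw [Basis.det_apply] at this
      refine le_trans (le_of_eq ?_) this
      congr 2
      ext l j
      simp [Basis.toMatrix_apply, hh j]
    · push Not at hh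
      obtain ⟨j, hj⟩ := hh
      rw [Matrix.det_eq_zero_of_column_eq_zero j fun l => by simp [hj]]
      simp

lemma andreief {r : ℕ} {ι : Type*} [Fintype ι] [DecidableEq ι] (a : ι → Fin r → ℝ) :
    (r.factorial : ℝ) * (Matrix.of fun l l' => ∑ i, a i l * a i l').det =
      ∑ h : Fin r → ι, (Matrix.of fun l j => a (h j) l).det ^ 2 := by
  have h1 : (Matrix.of fun l l' => ∑ i, a i l * a i l').det =
      ∑ h : Fin r → ι, (∏ j, a (h j) j) * (Matrix.of fun l j => a (h j) l).det := by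
    simp only [Matrix.det_apply', Matrix.of_apply, prod_univ_sum, Fintype.piFinset_univ, mul_sum,
      prod_mul_distrib]
    rw [sum_comm]
    exact sum_congr rfl fun h _ => sum_congr rfl fun σ _ => by ring
  have h2 : ∀ σ : Equiv.Perm (Fin r), (Matrix.of fun l l' => ∑ i, a i l * a i l').det =
      ∑ h : Fin r → ι, (Equiv.Perm.sign σ * ∏ j, a (h j) (σ j)) *
        (Matrix.of fun l j => a (h j) l).det := fun σ => by
    rw [h1, ← (Equiv.arrowCongr σ (Equiv.refl ι)).sum_comp]
    refine sum_congr rfl fun h _ => ?_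
    have e1 : (Matrix.of fun l j => a ((Equiv.arrowCongr σ (Equiv.refl ι)) h j) l) =
        (Matrix.of fun l j => a (h j) l).submatrix id σ.symm := by
      ext l j; simp
    rw [e1, Matrix.det_permute', Equiv.Perm.sign_symm, ← Equiv.prod_comp σ]
    simp only [Equiv.arrowCongr_apply, Equiv.coe_refl, Function.comp, id, Equiv.symm_apply_apply]
    ring
  calc _ = ∑ _σ : Equiv.Perm (Fin r), (Matrix.of fun l l' => ∑ i, a i l * a i l').det := by
        simp [Fintype.card_perm]
    _ = _ := by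
        rw [sum_congr rfl fun σ _ => h2 σ, sum_comm]
        refine sum_congr rfl fun h _ => ?_
        rw [← sum_mul, sq]
        congr 1
        rw [Matrix.det_apply']
        rfl

lemma round_slack {d : ℕ} (x : Fin d → EuclideanSpace ℝ (Fin d)) (hx : ∀ l, ‖x l‖ = 1)
    (β : Fin d → ℝ) (hβ : ∀ l, |β l| ≤ 1 + 1 / (2 * d ^ 2)) :
    ∃ s : Fin d → Bool, ‖∑ l, (sgn (s l) - β l) • x l‖ ≤ √d := by
  classical
  by_cases h : ∀ l, |β l| ≤ 1
  · obtain ⟨s, hs⟩ := greedy x hx β h univ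
    exact ⟨s, Real.le_sqrt_of_sq_le (by simpa using hs)⟩
  push Not at h
  obtain ⟨l0, hl0⟩ := h
  have hd : (1 : ℝ) ≤ d := by exact_mod_cast l0.pos
  obtain ⟨b, hb⟩ : ∃ b : Fin d → ℝ, ∀ l, b l = max (-1) (min 1 (β l)) := ⟨_, fun _ => rfl⟩
  have hb1 : ∀ l, |b l| ≤ 1 := fun l => by
    rw [hb]; exact abs_le.2 ⟨le_max_left _ _, max_le (by norm_num) (min_le_left _ _)⟩
  have hγ : (0 : ℝ) < 1 / (2 * d ^ 2) := by positivity
  have hb2 : ∀ l, |b l - β l| ≤ 1 / (2 * d ^ 2) := fun l => by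
    have := abs_le.1 (hβ l)
    rw [hb, abs_le]
    rcases le_total 1 (β l) with h1 | h1
    · rw [min_eq_left h1, max_eq_right (by norm_num)]; constructor <;> linarith
    · rw [min_eq_right h1]
      rcases le_total (-1) (β l) with h2 | h2
      · rw [max_eq_right h2]; constructor <;> linarith
      · rw [max_eq_left h2]; constructor <;> linarith
  obtain ⟨t, ht⟩ : ∃ t, b l0 = sgn t := by
    rcases lt_abs.1 hl0 with h1 | h1
    · exact ⟨true, by rw [hb, min_eq_left h1.le, max_eq_right (by norm_num)]; rfl⟩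
    · exact ⟨false, by rw [hb, min_eq_right (by linarith), max_eq_left (by linarith)]; rfl⟩
  obtain ⟨s, hs⟩ := greedy x hx b hb1 (univ.erase l0)
  refine ⟨Function.update s l0 t, ?_⟩
  have e : ∑ l, (sgn (Function.update s l0 t l) - β l) • x l =
      ∑ l ∈ univ.erase l0, (sgn (s l) - b l) • x l + ∑ l, (b l - β l) • x l := by
    have e1 : ∑ l ∈ univ.erase l0, (sgn (s l) - b l) • x l =
        ∑ l, (sgn (Function.update s l0 t l) - b l) • x l := by
      rw [← add_sum_erase _ _ (mem_univ l0), Function.update_self, ht, sub_self, zero_smul, zero_add]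
      exact sum_congr rfl fun l hl => by rw [Function.update_of_ne (ne_of_mem_erase hl)]
    rw [e1, ← sum_add_distrib]
    exact sum_congr rfl fun l _ => by rw [← add_smul]; congr 1; ring
  rw [e]
  have h2 : ‖∑ l, (b l - β l) • x l‖ ≤ 1 / (2 * d) := by
    refine (norm_sum_le _ _).trans ((sum_le_card_nsmul _ _ (1 / (2 * (d : ℝ) ^ 2)) fun l _ => ?_).trans
      (le_of_eq ?_))
    · rw [norm_smul, hx, mul_one]; exact hb2 l
    · simp only [card_univ, Fintype.card_fin, nsmul_eq_mul]; field_simp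
  rw [card_erase_of_mem (mem_univ _), card_univ, Fintype.card_fin, Nat.cast_sub l0.pos] at hs
  refine (norm_add_le _ _).trans (Real.le_sqrt_of_sq_le ?_)
  generalize ‖∑ l ∈ univ.erase l0, (sgn (s l) - b l) • x l‖ = A at hs ⊢
  have h0 := norm_nonneg (∑ l, (b l - β l) • x l)
  generalize ‖∑ l, (b l - β l) • x l‖ = B at h2 h0 ⊢
  push_cast at hs
  have h3 : B * (2 * d) ≤ 1 := (le_div_iff₀ (by positivity)).1 h2
  have h4 : 2 * A ≤ d := by nlinarith [sq_nonneg (A - 1)]
  nlinarith [mul_le_mul_of_nonneg_right h4 h0]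

lemma solve_perturbed {d : ℕ} (N : Fin d → Fin d → ℝ) (ν : ℝ) (hN : ∀ l j, |N l j| ≤ ν)
    (hν : d * ν ≤ 1 / 2) (z : Fin d → ℝ) (Z : ℝ) (hz : ∀ j, |z j| ≤ Z) :
    ∃ β : Fin d → ℝ, (∀ j, β j + ∑ l, β l * N l j = z j) ∧ ∀ j, |β j| ≤ Z * (1 + 2 * (d * ν)) := by
  have key : ∀ (β w : Fin d → ℝ) (W : ℝ), (∀ j, β j + ∑ l, β l * N l j = w j) → (∀ j, |w j| ≤ W) →
      ∀ j, |β j| ≤ W * (1 + 2 * (d * ν)) := fun β w W h1 h2 j => by
    obtain ⟨j0, -, hj0⟩ := exists_max_image univ (fun j => |β j|) ⟨j, mem_univ _⟩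
    have hν0 : 0 ≤ ν := (abs_nonneg _).trans (hN j j)
    have a1 : |∑ l, β l * N l j0| ≤ d * (|β j0| * ν) := by
      refine (abs_sum_le_sum_abs _ _).trans ((sum_le_card_nsmul _ _ (|β j0| * ν) fun l _ => ?_).trans
        (by simp))
      rw [abs_mul]
      exact mul_le_mul (hj0 l (mem_univ _)) (hN l j0) (abs_nonneg _) (abs_nonneg _)
    have a2 : |β j0| ≤ |w j0| + |∑ l, β l * N l j0| := by
      have : β j0 = w j0 - ∑ l, β l * N l j0 := by linarith [h1 j0]
      rw [this]; exact abs_sub _ _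
    have a3 := h2 j0
    have a4 := hj0 j (mem_univ _)
    have a5 := abs_nonneg (β j0)
    have a6 : 0 ≤ d * ν := by positivity
    have a7 : |β j0| * (1 - d * ν) ≤ W := by nlinarith
    have a8 : |β j0| ≤ |β j0| * (1 - d * ν) * (1 + 2 * (d * ν)) := by
      have : 1 ≤ (1 - d * ν) * (1 + 2 * (d * ν)) := by nlinarith
      nlinarith
    have a9 := mul_le_mul_of_nonneg_right a7 (by linarith : 0 ≤ 1 + 2 * (d * ν))
    linarith
  let L : (Fin d → ℝ) →ₗ[ℝ] (Fin d → ℝ) := LinearMap.id + (Matrix.of N).vecMulLinear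
  have hL : ∀ β j, L β j = β j + ∑ l, β l * N l j := fun β j => by
    simp [L, Matrix.vecMul, dotProduct]
  have hinj : Function.Injective L := by
    rw [injective_iff_map_eq_zero]
    intro β hβ
    funext j
    have := key β 0 0 (fun j => by rw [← hL, hβ]) (by simp) j
    simpa using this
  obtain ⟨β, hβ⟩ := LinearMap.injective_iff_surjective.1 hinj z
  have h1 : ∀ j, β j + ∑ l, β l * N l j = z j := fun j => by rw [← hL, hβ]
  exact ⟨β, h1, key β z Z h1 hz⟩

end Pool.Agent.Lib.MP_3b7d13_co
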