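import Pool.Agent.Lib.MP_3b7d13_co.Gauss
import Pool.Agent.Lib.MP_3b7d13_co.Binom
import Pool.Agent.Lib.MP_3b7d13_co.Spanner2

/-! The block argument. -/

namespace Pool.Agent.Lib.MP_3b7d13_co

open Finset Real

lemma sum_extend {κ : Type*} [Fintype κ] [DecidableEq κ] {n : ℕ} (J : κ → Fin n)
    (hJ : Function.Injective J) (F : (Fin n → Bool) → ℝ) :
    ∑ ω : Fin n → Bool, ∑ ζ : κ → Bool, F (Function.extend J ζ ω) =
      2 ^ Fintype.card κ * ∑ ω, F ω := by
  have hinv : Function.Involutive fun z : (Fin n → Bool) × (κ → Bool) =>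
      (Function.extend J z.2 z.1, z.1 ∘ J) := by
    rintro ⟨ω, ζ⟩
    refine Prod.ext (funext fun i => ?_) (funext fun k => ?_)
    · by_cases h : ∃ k, J k = i
      · obtain ⟨k, rfl⟩ := h
        simp [hJ.extend_apply]
      · simp only [Function.extend_apply' _ _ _ h]
    · simp [hJ.extend_apply]
  rw [← Fintype.sum_prod_type', hinv.bijective.sum_comp (fun z => F z.1), Fintype.sum_prod_type,
    mul_sum]
  simp

lemma vec_extend {κ E : Type*} [Fintype κ] [AddCommGroup E] [Module ℝ E] {n : ℕ} (J : κ → Fin n)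
    (hJ : Function.Injective J) (v : Fin n → E) (ζ : κ → Bool) (ω : Fin n → Bool) :
    ∑ i, sgn (Function.extend J ζ ω i) • v i =
      ∑ i ∈ (univ.image J)ᶜ, sgn (ω i) • v i + ∑ k, sgn (ζ k) • v (J k) := by
  rw [← sum_compl_add_sum (univ.image J), sum_image hJ.injOn]
  congr 1
  · exact sum_congr rfl fun i hi => by
      rw [Function.extend_apply' _ _ _ (by simpa using hi)]
  · exact sum_congr rfl fun k _ => by rw [hJ.extend_apply]

lemma heads_update {M : ℕ} (e : Fin M → Bool) (i : Fin M) (h : e i = true) :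
    heads e = heads (Function.update e i false) + 1 := by
  unfold heads
  have : (univ.filter fun k => Function.update e i false k = true) =
      (univ.filter fun k => e k = true).erase i := by
    ext k
    by_cases hk : k = i
    · simp [hk]
    · simp [hk]
  rw [this, card_erase_add_one (by simpa using h)]

lemma card_false {M : ℕ} (e : Fin M → Bool) :
    (univ.filter fun k => e k = false).card = M - heads e := by
  have := card_filter_add_card_filter_not (s := univ) (fun k => e k = true)
  simp only [Bool.not_eq_true, card_univ, Fintype.card_fin] at this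
  unfold heads
  omega

lemma card_pos_set {M : ℕ} (e : Fin M → Bool) (j : ℕ) :
    (univ.filter fun i => heads (Function.update e i false) = j).card ≤ max (M - j) (j + 1) := by
  by_cases h : heads e = j
  · refine le_trans (card_le_card (t := univ.filter fun k => e k = false) fun i hi => ?_)
      (by rw [card_false, h]; exact le_max_left _ _)
    rw [mem_filter] at hi ⊢
    refine ⟨hi.1, ?_⟩
    by_contra hc
    have := heads_update e i (by simpa using hc)
    omega
  · rcases (univ.filter fun i => heads (Function.update e i false) = j).eq_empty_or_nonempty with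
      h0 | ⟨i0, h0⟩
    · rw [h0]; simp
    have key : ∀ i, heads (Function.update e i false) = j → e i = true := fun i hi => by
      by_contra hc
      rw [Function.update_eq_self_iff.2 (by simpa using hc)] at hi
      exact h hi
    have h1 := (mem_filter.1 h0).2
    have h2 := heads_update e i0 (key i0 h1)
    refine le_trans (card_le_card (t := univ.filter fun k => e k = true) fun i hi => ?_)
      (le_trans (le_of_eq ?_) (le_max_right _ _))
    · exact mem_filter.2 ⟨mem_univ _, key i (mem_filter.1 hi).2⟩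
    · change heads e = _
      omega

lemma card_pairs (M j : ℕ) : (univ.filter fun p : (Fin M → Bool) × Fin M =>
    heads p.1 = j ∧ p.1 p.2 = false).card = M.choose j * (M - j) := by
  rw [card_eq_sum_card_fiberwise (f := Prod.fst) (t := univ.filter fun e => heads e = j)
    (fun p hp => by simpa using (mem_filter.1 hp).2.1), ← card_heads, ← smul_eq_mul, ← sum_const]
  refine sum_congr rfl fun e he => ?_
  rw [← (mem_filter.1 he).2, ← card_false]
  refine card_bij (fun p _ => p.2) ?_ ?_ ?_
  · intro p hp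
    simp only [mem_filter, mem_univ, true_and] at hp ⊢
    rw [← hp.2]; exact hp.1.2
  · intro p hp q hq h
    simp only [mem_filter] at hp hq
    exact Prod.ext (hp.2.trans hq.2.symm) h
  · intro i hi
    exact ⟨(e, i), by simpa using (mem_filter.1 hi).2, rfl⟩

lemma min_mul_max (M j : ℕ) :
    min (M.choose j) (M.choose (j + 1)) * max (M - j) (j + 1) ≤ M.choose j * (M - j) := by
  rcases le_total (M - j) (j + 1) with h | h
  · rw [max_eq_right h, ← Nat.choose_succ_right_eq]
    exact Nat.mul_le_mul_right _ (min_le_right _ _)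
  · rw [max_eq_left h]
    exact Nat.mul_le_mul_right _ (min_le_left _ _)

lemma corner_count {d M : ℕ} (j : Fin d → ℕ) (P : (Fin d → Fin M → Bool) → Prop) [DecidablePred P]
    (h : ∀ (e : Fin d → Fin M → Bool) (I : Fin d → Fin M), (∀ l, heads (e l) = j l) →
      (∀ l, e l (I l) = false) → ∃ s : Fin d → Bool, P fun l => Function.update (e l) (I l) (s l)) :
    ∏ l, min (M.choose (j l)) (M.choose (j l + 1)) ≤ (univ.filter P).card := by
  have h' : ∀ q : Fin d → (Fin M → Bool) × Fin M, ∃ s : Fin d → Bool,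
      (∀ l, heads (q l).1 = j l ∧ (q l).1 (q l).2 = false) →
        P fun l => Function.update (q l).1 (q l).2 (s l) := fun q => by
    by_cases hq : ∀ l, heads (q l).1 = j l ∧ (q l).1 (q l).2 = false
    · obtain ⟨s, hs⟩ := h (fun l => (q l).1) (fun l => (q l).2) (fun l => (hq l).1) fun l => (hq l).2
      exact ⟨s, fun _ => hs⟩
    · exact ⟨fun _ => true, fun h => absurd h hq⟩
  choose s hs using h'
  have h1 := card_le_mul_card_image_of_maps_to
    (s := Fintype.piFinset fun l => univ.filter fun p : (Fin M → Bool) × Fin M =>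
      heads p.1 = j l ∧ p.1 p.2 = false) (t := univ.filter P)
    (f := fun q l => Function.update (q l).1 (q l).2 (s q l))
    (fun q hq => mem_filter.2 ⟨mem_univ _, hs q fun l =>
      (mem_filter.1 (Fintype.mem_piFinset.1 hq l)).2⟩) (∏ l, max (M - j l) (j l + 1))
    (fun ζ _ => by
      refine le_trans (card_le_card_of_injOn (t := Fintype.piFinset fun l =>
        univ.filter fun i => heads (Function.update (ζ l) i false) = j l)
        (fun q l => (q l).2) ?_ ?_) ?_
      · intro q hq
        rw [mem_coe, mem_filter] at hq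
        rw [mem_coe, Fintype.mem_piFinset]
        intro l
        have h2 := (mem_filter.1 (Fintype.mem_piFinset.1 hq.1 l)).2
        rw [mem_filter, ← hq.2]
        simp only [Function.update_idem]
        rw [Function.update_eq_self_iff.2 h2.2.symm]
        exact ⟨mem_univ _, h2.1⟩
      · intro q hq q' hq' he
        rw [mem_coe, mem_filter] at hq hq'
        funext l
        have h2 := (mem_filter.1 (Fintype.mem_piFinset.1 hq.1 l)).2
        have h3 := (mem_filter.1 (Fintype.mem_piFinset.1 hq'.1 l)).2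
        have h4 : (q l).2 = (q' l).2 := congrFun he l
        have h5 := congrArg (fun e => Function.update e (q l).2 false)
          (congrFun (hq.2.trans hq'.2.symm) l)
        simp only [← h4, Function.update_idem] at h5
        rw [Function.update_eq_self_iff.2 h2.2.symm, h4,
          Function.update_eq_self_iff.2 h3.2.symm] at h5
        exact Prod.ext h5 h4
      · rw [Fintype.card_piFinset]
        exact prod_le_prod' fun l _ => card_pos_set _ _)
  rw [Fintype.card_piFinset] at h1
  simp only [card_pairs] at h1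
  have h2 := (prod_le_prod' (s := univ) fun l _ => min_mul_max M (j l)).trans h1
  rw [prod_mul_distrib, mul_comm] at h2
  exact Nat.le_of_mul_le_mul_left h2 (prod_pos fun l _ => lt_max_of_lt_right (Nat.succ_pos _))

lemma corner_exists {d M : ℕ} (u : Fin d → EuclideanSpace ℝ (Fin d))
    (x : Fin d → Fin M → EuclideanSpace ℝ (Fin d)) (hx : ∀ l i, ‖x l i‖ = 1)
    (N : Fin d → Fin M → Fin d → ℝ) (hN : ∀ l i, x l i = u l + ∑ j, N l i j • u j) {ν : ℝ}
    (hν : ∀ l i j, |N l i j| ≤ ν) (hM : 2 ≤ M) (hν1 : d * M * ν ≤ 1 / (6 * d ^ 2))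
    (α : Fin d → ℝ) (e : Fin d → Fin M → Bool) (I : Fin d → Fin M)
    (hα : ∀ l, |α l + (2 * heads (e l) + 1 - M)| ≤ 1) (hI : ∀ l, e l (I l) = false) :
    ∃ s : Fin d → Bool, ‖∑ l, α l • u l +
      ∑ l, ∑ i, sgn (Function.update (e l) (I l) (s l) i) • x l i‖ ≤ √d := by
  rcases Nat.eq_zero_or_pos d with rfl | hd
  · exact ⟨fun _ => true, by simp⟩
  have hd1 : (1 : ℝ) ≤ d := by exact_mod_cast hd
  have hM2 : (2 : ℝ) ≤ M := by exact_mod_cast hM
  have hν0 : 0 ≤ ν := (abs_nonneg _).trans (hν ⟨0, hd⟩ (I ⟨0, hd⟩) ⟨0, hd⟩)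
  have h6 : 1 / (6 * (d : ℝ) ^ 2) ≤ 1 / 6 :=
    one_div_le_one_div_of_le (by norm_num) (by nlinarith)
  have h7 : 2 * (d * ν) ≤ d * M * ν := by nlinarith [mul_nonneg (by linarith : (0 : ℝ) ≤ d) hν0]
  obtain ⟨z, hz⟩ : ∃ z : Fin d → ℝ, ∀ j, z j = α j + (2 * heads (e j) + 1 - M) +
    ∑ l, ∑ i ∈ univ.erase (I l), sgn (e l i) * N l i j := ⟨_, fun _ => rfl⟩
  obtain ⟨β, hβ, hβ1⟩ := solve_perturbed (fun l j => N l (I l) j) ν (fun l j => hν _ _ _)
    (by linarith) (fun j => -z j) (1 + d * M * ν) fun j => by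
      rw [abs_neg, hz]
      refine (abs_add_le _ _).trans (add_le_add (hα j) ?_)
      refine (abs_sum_le_sum_abs _ _).trans ((sum_le_card_nsmul _ _ (M * ν) fun l _ => ?_).trans
        (by simp [mul_assoc]))
      refine (abs_sum_le_sum_abs _ _).trans ((sum_le_card_nsmul _ _ ν fun i _ => ?_).trans ?_)
      · have h1 : |sgn (e l i)| = 1 := by cases e l i <;> simp [sgn]
        rw [abs_mul, h1, one_mul]; exact hν _ _ _
      · rw [nsmul_eq_mul]
        refine mul_le_mul_of_nonneg_right ?_ hν0
        exact_mod_cast (card_le_univ _).trans (by simp)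
  obtain ⟨s, hs⟩ := round_slack (fun l => x l (I l)) (fun l => hx _ _) β fun l => by
    refine (hβ1 l).trans ?_
    have : 1 / (2 * (d : ℝ) ^ 2) = 3 * (1 / (6 * d ^ 2)) := by field_simp; norm_num
    rw [this]
    have h0 : 0 ≤ d * ν := by positivity
    nlinarith
  refine ⟨s, le_trans (le_of_eq ?_) hs⟩
  congr 1
  have e1 : ∀ l, ∑ i, sgn (Function.update (e l) (I l) (s l) i) • x l i =
      sgn (s l) • x l (I l) + ((2 * heads (e l) + 1 - M : ℝ) • u l +
        ∑ j, (∑ i ∈ univ.erase (I l), sgn (e l i) * N l i j) • u j) := fun l => by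
    rw [← add_sum_erase _ _ (mem_univ (I l)), Function.update_self]
    congr 1
    have e2 : ∑ i ∈ univ.erase (I l), sgn (e l i) = 2 * heads (e l) + 1 - M := by
      have := sum_sgn (e l)
      rw [← add_sum_erase _ _ (mem_univ (I l)), hI, sgn_false] at this
      linarith
    rw [← e2]
    simp only [sum_smul]
    rw [sum_comm, ← sum_add_distrib]
    refine sum_congr rfl fun i hi => ?_
    rw [Function.update_of_ne (ne_of_mem_erase hi), hN, smul_add, smul_sum]
    simp only [mul_smul]
  have e3 : ∑ l, β l • x l (I l) = -∑ j, z j • u j := by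
    simp only [hN, smul_add, sum_add_distrib, smul_sum, smul_smul]
    rw [sum_comm, ← sum_add_distrib, ← sum_neg_distrib]
    refine sum_congr rfl fun j _ => ?_
    rw [← sum_smul, ← add_smul, hβ, neg_smul]
  simp only [e1, sub_smul (sgn _), sum_sub_distrib, sum_add_distrib, e3, hz, add_smul]
  have e4 : ∑ l, ∑ j, (∑ i ∈ univ.erase (I l), sgn (e l i) * N l i j) • u j =
      ∑ j, (∑ l, ∑ i ∈ univ.erase (I l), sgn (e l i) * N l i j) • u j := by
    rw [sum_comm]
    exact sum_congr rfl fun j _ => by rw [← sum_smul]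
  rw [e4]
  abel

theorem block_lower {d n k : ℕ} (hd : 1 ≤ d) (v : Fin n → EuclideanSpace ℝ (Fin d))
    (hv : ∀ i, ‖v i‖ = 1) (u : Fin d → EuclideanSpace ℝ (Fin d)) (a : Fin n → Fin d → ℝ)
    (ha : ∀ i, v i = ∑ l, a i l • u l) (J : Fin d × Fin (2 * k) → Fin n)
    (hJ : Function.Injective J) {ν : ℝ}
    (hν : ∀ l i j, |a (J (l, i)) j - if j = l then 1 else 0| ≤ ν)
    (hν1 : d * (2 * k : ℕ) * ν ≤ 1 / (6 * d ^ 2)) {A ε R D c : ℝ} (hA : ∀ i, ∑ l, a i l ^ 2 ≤ A)
    (hA0 : 0 ≤ A) (hε0 : 0 < ε) (hε : ε < 1) (hk : 2 ≤ ε * k) (hR : 0 ≤ R)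
    (hc : c = (1 + ε) ^ 2 / (2 * ((1 - ε) * k))) (h : c * (d * A * R ^ 2) ≤ ε)
    (hD : (Matrix.of fun l l' => ∑ i ∈ (univ.image J)ᶜ, a i l * a i l').det ≤ D) :
    (k.centralBinom / 4 ^ k * exp (-((1 + 1 / ε) / ((1 - ε) * k)))) ^ d *
      (1 / √(c ^ d * D + d * (1 + c * (n * A)) ^ (d - 1)) - 2 * (d * (exp (-(R ^ 2 / 4)) * 2)) -
        exp (-(ε ^ 2 * k / 4))) ≤ prob v √d := by
  classical
  have hk0 : (0 : ℝ) < k := by
    by_contra h; push Not at h; nlinarith
  have hk1 : 2 ≤ 2 * k := by
    have : 0 < k := by exact_mod_cast hk0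
    omega
  have hK : 0 < (1 - ε) * k := mul_pos (by linarith) hk0
  obtain ⟨lam, hlam⟩ : ∃ lam, lam = (1 + ε) / (4 * ((1 - ε) * k)) := ⟨_, rfl⟩
  have hlam0 : 0 < lam := by rw [hlam]; positivity
  obtain ⟨b, hb⟩ : ∃ b, b ^ 2 = 2 * lam := ⟨√(2 * lam), sq_sqrt (by positivity)⟩
  have hcb : c = (1 + ε) * b ^ 2 := by
    have : (1 - ε) ≠ 0 := by linarith
    rw [hc, hb, hlam]; field_simp; norm_num
  obtain ⟨a0, ha0⟩ : ∃ a0 : Fin n → Fin d → ℝ, ∀ i, a0 i = if i ∈ univ.image J then 0 else a i :=
    ⟨_, fun _ => rfl⟩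
  have hg := gauss_lower hd a0 (A := A) (b := b) (R := R) (D := D) (fun i => by
      rw [ha0]; split_ifs
      · simpa using hA0
      · exact hA i) hA0 hε0.le hε.le hR
    (le_trans (mul_le_mul_of_nonneg_right (by rw [hcb]; nlinarith [sq_nonneg b]) (by positivity)) h)
    (le_trans (le_of_eq (by
      congr 2
      funext l l'
      rw [← sum_compl_add_sum (univ.image J), sum_eq_zero (s := univ.image J) fun i hi => by
        rw [ha0, if_pos hi]; simp, add_zero]
      exact sum_congr rfl fun i hi => by rw [ha0, if_neg (mem_compl.1 hi)])) hD)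
  rw [← hcb, hb, mul_div_cancel_left₀ _ two_ne_zero] at hg
  obtain ⟨p, hp⟩ : ∃ p : ℝ, p = k.centralBinom * exp (-((1 + 1 / ε) / ((1 - ε) * k))) := ⟨_, rfl⟩
  have hp0 : 0 ≤ p := by rw [hp]; positivity
  have hω : ∀ ω : Fin n → Bool,
      p ^ d * (exp (-(lam * ∑ l, SS (fun i => a0 i l) ω ^ 2)) - exp (-(ε ^ 2 * k / 4))) ≤
      ∑ ζ : Fin d × Fin (2 * k) → Bool,
        if ‖∑ i, sgn (Function.extend J ζ ω i) • v i‖ ≤ √d then (1 : ℝ) else 0 := fun ω => by
    by_cases hα : ∀ l, |SS (fun i => a0 i l) ω| / 2 + 1 ≤ ε * k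
    · choose j hj1 hj2 hj3 using fun l => level hε0 hε (hα l)
      rw [← hp, ← hlam] at hj3
      have e1 : ∑ i ∈ (univ.image J)ᶜ, sgn (ω i) • v i = ∑ l, SS (fun i => a0 i l) ω • u l := by
        simp only [SS, sum_smul]
        rw [sum_comm, ← sum_subset (subset_univ (univ.image J)ᶜ) fun i _ hi => by
          rw [ha0, if_pos (notMem_compl.1 hi)]; simp]
        refine sum_congr rfl fun i hi => ?_
        rw [ha i, smul_sum, ha0, if_neg (mem_compl.1 hi)]
        exact sum_congr rfl fun j _ => by rw [mul_smul]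
      have hcc := corner_count j (fun ζ => ‖∑ l, SS (fun i => a0 i l) ω • u l +
          ∑ l, ∑ i, sgn (ζ l i) • v (J (l, i))‖ ≤ √d) fun e I he hI =>
        corner_exists u (fun l i => v (J (l, i))) (fun _ _ => hv _)
          (fun l i j => a (J (l, i)) j - if j = l then 1 else 0) (fun l i => by
            simp only [sub_smul, sum_sub_distrib, ite_smul, one_smul, zero_smul, sum_ite_eq',
              mem_univ, if_true]
            rw [← ha]; abel) hν hk1 hν1 _ e I (fun l => by
            rw [he]; push_cast; exact hj2 l) hI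
      have e2 : ∑ ζ : Fin d × Fin (2 * k) → Bool,
          (if ‖∑ i, sgn (Function.extend J ζ ω i) • v i‖ ≤ √d then (1 : ℝ) else 0) =
          (univ.filter fun ζ : Fin d → Fin (2 * k) → Bool => ‖∑ l, SS (fun i => a0 i l) ω • u l +
            ∑ l, ∑ i, sgn (ζ l i) • v (J (l, i))‖ ≤ √d).card := by
        rw [card_filter, ← (Equiv.curry _ _ _).sum_comp]
        push_cast
        refine sum_congr rfl fun ζ _ => ?_
        rw [vec_extend J hJ, e1, Fintype.sum_prod_type]
        rfl
      rw [e2]
      refine le_trans ?_ ((Nat.cast_le (α := ℝ)).2 hcc)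
      rw [Nat.cast_prod]
      refine le_trans ?_ (prod_le_prod (fun l _ => by positivity) fun l _ => hj3 l)
      rw [prod_mul_distrib, prod_const, card_univ, Fintype.card_fin, ← exp_sum, sum_neg_distrib,
        ← mul_sum]
      exact mul_le_mul_of_nonneg_left (sub_le_self _ (exp_pos _).le) (by positivity)
    · push Not at hα
      obtain ⟨l, hl⟩ := hα
      refine le_trans (mul_nonpos_of_nonneg_of_nonpos (by positivity) (sub_nonpos.2
        (exp_le_exp.2 (neg_le_neg ?_)))) (sum_nonneg fun _ _ => by positivity)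
      have b1 : (ε * k) ^ 2 ≤ ∑ l, SS (fun i => a0 i l) ω ^ 2 := by
        refine le_trans ?_ (single_le_sum (f := fun l => SS (fun i => a0 i l) ω ^ 2)
          (fun _ _ => sq_nonneg _) (mem_univ l))
        rw [← sq_abs (SS _ _)]
        exact pow_le_pow_left₀ (by positivity) (by linarith) 2
      have b2 : 1 / (4 * k) ≤ lam := by
        rw [hlam, div_le_div_iff₀ (by positivity) (by positivity)]
        nlinarith [mul_pos hε0 hk0]
      refine le_trans (le_of_eq ?_) (mul_le_mul b2 b1 (by positivity) hlam0.le)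
      field_simp
  have h1 := sum_le_sum fun ω (_ : ω ∈ univ) => hω ω
  rw [sum_extend J hJ fun ω => if ‖∑ i, sgn (ω i) • v i‖ ≤ √d then (1 : ℝ) else 0, ← mul_sum,
    sum_sub_distrib, sum_boole] at h1
  simp only [sum_const, card_univ, Fintype.card_fun, Fintype.card_bool, Fintype.card_fin,
    nsmul_eq_mul, Nat.cast_pow, Nat.cast_ofNat, Fintype.card_prod] at h1
  unfold prob
  rw [le_div_iff₀ (by positivity), div_mul_eq_mul_div, ← hp, div_pow, ← pow_mul]
  have e3 : (2 : ℝ) ^ (d * (2 * k)) = 4 ^ (k * d) := by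
    rw [show d * (2 * k) = 2 * (k * d) by ring, pow_mul]; norm_num
  rw [e3] at h1
  rw [div_mul_eq_mul_div, div_mul_eq_mul_div, div_le_iff₀ (by positivity)]
  have h2 := mul_le_mul_of_nonneg_left hg (pow_nonneg hp0 d)
  linarith

end Pool.Agent.Lib.MP_3b7d13_co
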