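import Pool.Agent.Lib.MP_3b7d13_co.Moments

/-! The probabilistic core of the lower bound. -/

namespace Pool.Agent.Lib.MP_3b7d13_co

open Finset

lemma disc {a y t w δ : ℝ} (ha : 0 ≤ a) (ht : 0 ≤ t) (ht1 : t ≤ 1 / 2400) (hδ : 0 ≤ δ)
    (hw : w ^ 2 ≤ δ / 121) (h : (201 / 200) ^ 2 * (a ^ 2 + y ^ 2) ^ 2 ≤ 4 * a ^ 2) :
    (1 - a - t) ^ 2 + (y + w) ^ 2 ≤ (1 + δ) ^ 2 := by
  have h1 : 201 / 200 * (a ^ 2 + y ^ 2) ≤ 2 * a := by
    by_contra hc; push Not at hc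
    have := pow_lt_pow_left₀ hc (by linarith) (two_ne_zero)
    nlinarith
  have h2 : a ≤ 2 := by nlinarith [sq_nonneg y]
  have h3 : 2 * y * w ≤ y ^ 2 / 200 + 200 * w ^ 2 := by nlinarith [sq_nonneg (y - 200 * w)]
  have h4 : -(a ^ 2 / 200) - 2 * (1 - a) * t + t ^ 2 ≤ 0 := by
    rcases le_total a (1 / 2) with h5 | h5
    · nlinarith [sq_nonneg a, mul_nonneg ht (by linarith : 0 ≤ 1 - 2 * a)]
    · nlinarith [mul_nonneg ht (by linarith : 0 ≤ 2 - a)]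
  nlinarith [sq_nonneg δ]

lemma abs_sub_le_of_floor_eq {a b ρ : ℝ} (hρ : 0 < ρ) (h : ⌊a / ρ⌋ = ⌊b / ρ⌋) : |a - b| ≤ ρ := by
  have := Int.abs_sub_lt_one_of_floor_eq_floor h
  rw [← sub_div, abs_div, abs_of_pos hρ, div_lt_one hρ] at this
  exact this.le

lemma floor_mem {a R ρ : ℝ} (hρ : 0 < ρ) (hR : 0 ≤ R) (h : a ^ 2 ≤ R ^ 2) :
    ⌊a / ρ⌋ ∈ Icc (-⌈R / ρ⌉) ⌈R / ρ⌉ := by
  have h1 := abs_le_of_sq_le_sq' h hR
  rw [mem_Icc]
  constructor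
  · rw [Int.le_floor]
    push_cast
    have := Int.le_ceil (R / ρ)
    have h2 : -R / ρ ≤ a / ρ := div_le_div_of_nonneg_right h1.1 hρ.le
    rw [neg_div] at h2
    linarith
  · have h2 : a / ρ ≤ R / ρ := div_le_div_of_nonneg_right h1.2 hρ.le
    exact (Int.floor_le_floor h2).trans (Int.floor_le_ceil _)

lemma card_Icc_le {R ρ : ℝ} (hρ : 0 < ρ) (hR : ρ ≤ R) :
    ((Icc (-⌈R / ρ⌉) ⌈R / ρ⌉).card : ℝ) ≤ 5 * (R / ρ) := by
  have h1 : 1 ≤ R / ρ := (one_le_div hρ).2 hR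
  have h2 : (0 : ℤ) ≤ ⌈R / ρ⌉ := Int.ceil_nonneg (by linarith)
  have h3 := Int.ceil_lt_add_one (R / ρ)
  rw [Int.card_Icc]
  have h4 : ((⌈R / ρ⌉ + 1 - -⌈R / ρ⌉).toNat : ℤ) = ⌈R / ρ⌉ + 1 - -⌈R / ρ⌉ :=
    Int.toNat_of_nonneg (by omega)
  have h5 : ((⌈R / ρ⌉ + 1 - -⌈R / ρ⌉).toNat : ℝ) = (⌈R / ρ⌉ : ℝ) + 1 - -(⌈R / ρ⌉ : ℝ) := by
    exact_mod_cast h4
  rw [h5]; linarith

lemma SS_not {m : ℕ} (x : Fin m → ℝ) (η : Fin m → Bool) : SS x (fun k => !η k) = -SS x η := by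
  unfold SS
  rw [← sum_neg_distrib]
  exact sum_congr rfl fun k _ => by rw [sgn_not]; ring

lemma SS_sub {m : ℕ} (x y : Fin m → ℝ) (η : Fin m → Bool) :
    SS (fun k => x k - y k) η = SS x η - SS y η := by
  unfold SS
  rw [← sum_sub_distrib]
  exact sum_congr rfl fun k _ => by ring

/-- the constant -/
noncomputable def c0 : ℝ := 1 / (2400 * 11 * 100 * 240000 ^ 3)

lemma core {m : ℕ} (p1 p2 q1 q2 : Fin m → ℝ) (hp : ∀ k, p1 k ^ 2 + p2 k ^ 2 ≤ 1)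
    (hkey : 306 / 100 * (∑ k, ((p1 k - q1 k) ^ 2 + (p2 k - q2 k) ^ 2)) ^ 2 ≤
      4 * ∑ k, (p1 k - q1 k) ^ 2 + 2 * ∑ k, ((p1 k - q1 k) ^ 2 + (p2 k - q2 k) ^ 2) ^ 2)
    {δ : ℝ} (hδ : 0 < δ) (hδ1 : δ ≤ 1) :
    c0 * √δ * 4 ^ m / (m + 1) ≤
      (univ.filter fun z : Bool × (Fin m → Bool) × (Fin m → Bool) =>
        (sgn z.1 + SS p1 z.2.1 + SS q1 z.2.2) ^ 2 + (SS p2 z.2.1 + SS q2 z.2.2) ^ 2 ≤
          (1 + δ) ^ 2).card := by
  classical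
  obtain ⟨x, hx⟩ : ∃ x : Fin m → ℝ, x = fun k => p1 k - q1 k := ⟨_, rfl⟩
  obtain ⟨y, hy⟩ : ∃ y : Fin m → ℝ, y = fun k => p2 k - q2 k := ⟨_, rfl⟩
  have hpz := paley x y (by rw [hx, hy]; exact hkey)
  have hmk := markov2 p1 p2 hp 240000 (by norm_num)
  obtain ⟨G, hG⟩ : ∃ G, G = univ.filter fun η : Fin m → Bool =>
      (201 / 200 : ℝ) ^ 2 * (SS x η ^ 2 + SS y η ^ 2) ^ 2 ≤ 4 * SS x η ^ 2 ∧
        SS p1 η ^ 2 + SS p2 η ^ 2 ≤ 240000 * (m + 1) := ⟨_, rfl⟩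
  have hGc : (2 : ℝ) ^ m / 240000 ≤ G.card := by
    have : (univ.filter fun η : Fin m → Bool =>
        (201 / 200 : ℝ) ^ 2 * (SS x η ^ 2 + SS y η ^ 2) ^ 2 ≤ 4 * SS x η ^ 2) ⊆
        G ∪ (univ.filter fun η : Fin m → Bool =>
          ¬ SS p1 η ^ 2 + SS p2 η ^ 2 ≤ 240000 * (m + 1)) := by
      intro η hη
      rw [mem_filter] at hη
      by_cases hc : SS p1 η ^ 2 + SS p2 η ^ 2 ≤ 240000 * (m + 1)
      · exact mem_union_left _ (by rw [hG, mem_filter]; exact ⟨mem_univ _, hη.2, hc⟩)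
      · exact mem_union_right _ (by rw [mem_filter]; exact ⟨mem_univ _, hc⟩)
    have h2 := (card_le_card this).trans (card_union_le _ _)
    have h3 := (Nat.cast_le (α := ℝ)).2 h2
    push_cast at h3
    linarith
  obtain ⟨R, hR0, hR⟩ : ∃ R : ℝ, 0 ≤ R ∧ R ^ 2 = 240000 * (m + 1) :=
    ⟨√(240000 * (m + 1)), Real.sqrt_nonneg _, Real.sq_sqrt (by positivity)⟩
  have hm0 : (0 : ℝ) ≤ m := Nat.cast_nonneg m
  have hR1 : 1 ≤ R := by
    by_contra h; push Not at h; nlinarith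
  obtain ⟨ρ, hρ⟩ : ∃ ρ : ℝ, ρ = √δ / 11 := ⟨_, rfl⟩
  have hs0 : 0 < √δ := Real.sqrt_pos.2 hδ
  have hs1 : √δ ≤ 1 := Real.sqrt_le_one.2 hδ1
  have hρ0 : 0 < ρ := by rw [hρ]; positivity
  have hρ1 : ρ ≤ R := by rw [hρ]; linarith
  have hρ2 : ρ ^ 2 = δ / 121 := by rw [hρ, div_pow, Real.sq_sqrt hδ.le]; norm_num
  obtain ⟨T, hT⟩ : ∃ T : Finset (Bool × ℤ × ℤ), T = univ ×ˢ
      (Icc (-⌈R / (1 / 2400)⌉) ⌈R / (1 / 2400)⌉ ×ˢ Icc (-⌈R / ρ⌉) ⌈R / ρ⌉) := ⟨_, rfl⟩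
  have hTc : (T.card : ℝ) ≤ 50 * (R ^ 2 * 2400 / ρ) := by
    rw [hT, card_product, card_product]
    have a1 := card_Icc_le (R := R) (ρ := 1 / 2400) (by norm_num) (by linarith)
    have a2 := card_Icc_le hρ0 hρ1
    have a3 := mul_le_mul a1 a2 (Nat.cast_nonneg _) (by positivity)
    simp only [card_univ, Fintype.card_bool]
    push_cast
    refine le_trans (mul_le_mul_of_nonneg_left a3 (by norm_num)) (le_of_eq ?_)
    field_simp
    ring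
  obtain ⟨lab, hlab⟩ : ∃ lab : (Fin m → Bool) → Bool × ℤ × ℤ, ∀ η, lab η =
      (decide (SS x η ≤ 0), ⌊SS p1 η / (1 / 2400)⌋, ⌊SS p2 η / ρ⌋) := ⟨_, fun _ => rfl⟩
  have hcol := collide G T lab (fun η hη => by
    rw [hG, mem_filter] at hη
    have b := hη.2.2
    rw [← hR] at b
    rw [hT, hlab, mem_product, mem_product]
    exact ⟨mem_univ _, floor_mem (by norm_num) hR0 (by nlinarith [sq_nonneg (SS p2 η)]),
      floor_mem hρ0 hR0 (by nlinarith [sq_nonneg (SS p1 η)])⟩)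
    (fun η => sgn (decide (SS x η ≤ 0)) * SS p1 η)
  obtain ⟨A, hA⟩ : ∃ A, A = (G ×ˢ G).filter fun z => lab z.1 = lab z.2 ∧
      sgn (decide (SS x z.1 ≤ 0)) * SS p1 z.1 ≤ sgn (decide (SS x z.2 ≤ 0)) * SS p1 z.2 :=
    ⟨_, rfl⟩
  rw [← hA] at hcol
  have hAle : A.card ≤ (univ.filter fun z : Bool × (Fin m → Bool) × (Fin m → Bool) =>
        (sgn z.1 + SS p1 z.2.1 + SS q1 z.2.2) ^ 2 + (SS p2 z.2.1 + SS q2 z.2.2) ^ 2 ≤
          (1 + δ) ^ 2).card := by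
    refine card_le_card_of_injOn (fun z => (decide (SS x z.2 ≤ 0), z.1, fun k => !z.2 k)) ?_ ?_
    · rintro ⟨ε, η⟩ hz
      rw [hA, mem_coe, mem_filter, mem_product] at hz
      obtain ⟨⟨-, h2⟩, h3, h4⟩ := hz
      rw [hG, mem_filter] at h2
      have h5 := h2.2.1
      rw [hlab, hlab, Prod.mk.injEq, Prod.mk.injEq] at h3
      obtain ⟨e1, e2, e3⟩ := h3
      simp only at e1 e2 e3 h4 h5
      rw [e1] at h4
      have f2 := abs_le.1 (abs_sub_le_of_floor_eq (by norm_num) e2)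
      have f3 := abs_le.1 (abs_sub_le_of_floor_eq hρ0 e3)
      have g3 : (SS p2 ε - SS p2 η) ^ 2 ≤ δ / 121 := by
        rw [← hρ2]; exact sq_le_sq' f3.1 f3.2
      rw [mem_coe, mem_filter]
      refine ⟨mem_univ _, ?_⟩
      simp only [SS_not]
      have ex : SS x η = SS p1 η - SS q1 η := by rw [hx, SS_sub]
      have ey : SS y η = SS p2 η - SS q2 η := by rw [hy, SS_sub]
      by_cases hc : SS x η ≤ 0
      · rw [decide_eq_true hc, sgn_true] at h4 ⊢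
        have := disc (a := -SS x η) (y := SS y η) (t := SS p1 η - SS p1 ε)
          (w := SS p2 ε - SS p2 η) (by linarith) (by linarith) (by linarith) hδ.le g3
          (by rw [neg_sq]; exact h5)
        refine le_trans (le_of_eq ?_) this
        rw [ex, ey]; ring
      · rw [decide_eq_false hc, sgn_false] at h4 ⊢
        push Not at hc
        have := disc (a := SS x η) (y := SS y η) (t := SS p1 ε - SS p1 η)
          (w := SS p2 ε - SS p2 η) (by linarith) (by linarith) (by linarith) hδ.le g3 h5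
        refine le_trans (le_of_eq ?_) this
        rw [ex, ey]; ring
    · rintro ⟨ε, η⟩ - ⟨ε', η'⟩ - h
      simp only [Prod.mk.injEq] at h
      obtain ⟨-, h1, h2⟩ := h
      refine Prod.ext h1 (funext fun k => ?_)
      have := congrFun h2 k
      simpa using this
  have hAle' := (Nat.cast_le (α := ℝ)).2 hAle
  refine le_trans ?_ hAle'
  have h1 : ((2 : ℝ) ^ m / 240000) ^ 2 ≤ 2 * (50 * (R ^ 2 * 2400 / ρ)) * A.card :=
    ((pow_le_pow_left₀ (by positivity) hGc 2).trans hcol).trans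
      (mul_le_mul_of_nonneg_right (by linarith) (Nat.cast_nonneg _))
  have h2 : 0 < 2 * (50 * (R ^ 2 * 2400 / ρ)) := by positivity
  apply le_of_mul_le_mul_left _ h2
  refine le_trans (le_of_eq ?_) h1
  rw [hR, hρ, c0, div_pow, ← pow_mul, mul_comm m 2, pow_mul]
  field_simp
  ring

end Pool.Agent.Lib.MP_3b7d13_co
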