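import Mathlib

/-! Definitions for the reverse Littlewood-Offord problem. -/

namespace Pool.Agent.Lib.MP_3b7d13_co

open Filter

/-- The sign attached to a coin flip. -/
def sgn (b : Bool) : ℝ := if b then 1 else -1

/-- The probability that the Rademacher sum of `v 0, ..., v (n-1)` has norm at most `r`:
the proportion of the `2 ^ n` sign vectors for which this happens. -/
noncomputable def prob {d n : ℕ} (v : Fin n → EuclideanSpace ℝ (Fin d)) (r : ℝ) : ℝ :=
  ((Finset.univ.filter fun ε : Fin n → Bool => ‖∑ i, sgn (ε i) • v i‖ ≤ r).card : ℝ) / 2 ^ n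

/-- `F d r n` is the infimum of `prob V r` over all `n`-tuples `V` of unit vectors of `ℝ^d`. -/
noncomputable def F (d : ℕ) (r : ℝ) (n : ℕ) : ℝ :=
  ⨅ V : Fin n → Metric.sphere (0 : EuclideanSpace ℝ (Fin d)) 1, prob (fun i => (V i).1) r

/-- `f0 d r` is the lower limit of `n ^ (d / 2) * F d r n` along `n ≡ d (mod 2)`. -/
noncomputable def f0 (d : ℕ) (r : ℝ) : ENNReal :=
  liminf (fun n : ℕ => ENNReal.ofReal ((n : ℝ) ^ ((d : ℝ) / 2) * F d r n))
    (atTop ⊓ principal {n | n % 2 = d % 2})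

/-- `f1 d r` is the lower limit of `n ^ (d / 2) * F d r n` along `n ≢ d (mod 2)`. -/
noncomputable def f1 (d : ℕ) (r : ℝ) : ENNReal :=
  liminf (fun n : ℕ => ENNReal.ofReal ((n : ℝ) ^ ((d : ℝ) / 2) * F d r n))
    (atTop ⊓ principal {n | n % 2 ≠ d % 2})

end Pool.Agent.Lib.MP_3b7d13_co
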