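import Pool.Agent.Lib.MP_3b7d13_co.Kernel
import Pool.Agent.Lib.MP_3b7d13_co.Spanner2

/-! Small ball bounds in the degenerate cases. -/

namespace Pool.Agent.Lib.MP_3b7d13_co

open Finset Real MeasureTheory

theorem small_ball2 {n r d : ℕ} (hd : 1 ≤ d) (hr : r ≤ d) (c : Fin n → Fin r → ℝ)
    (hc : ∀ i j, |c i j| ≤ 1) (τ : Fin r → ℝ) (hτ0 : ∀ j, 0 < τ j) (hτ1 : ∀ j, τ j ≤ 1)
    (hτ2 : ∀ j, τ j ^ 2 * ∑ i, c i j ^ 2 ≤ 1) :
    7 / 16 * (1 / 4) ^ d * (∏ j, τ j) * 2 ^ n ≤ (univ.filter fun ε : Fin n → Bool =>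
      ∑ j, SS (fun i => c i j) ε ^ 2 ≤ 8 * (d : ℝ) ^ 3).card := by
  have hd1 : (1 : ℝ) ≤ d := by exact_mod_cast hd
  have hr1 : (r : ℝ) ≤ d := by exact_mod_cast hr
  obtain ⟨b, hb⟩ : ∃ b : ℝ, b = 1 / (2 * d) := ⟨_, rfl⟩
  have hb0 : 0 < b := by rw [hb]; positivity
  obtain ⟨Ψ, hΨ⟩ : ∃ Ψ : (Fin r → ℝ) → ℝ, ∀ t, Ψ t =
    ∑ ε : Fin n → Bool, ∏ j, cos (b * SS (fun i => c i j) ε * t j) := ⟨_, fun _ => rfl⟩
  have hΨc : Continuous Ψ := by
    have : Ψ = fun t => ∑ ε : Fin n → Bool, ∏ j, cos (b * SS (fun i => c i j) ε * t j) :=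
      funext hΨ
    rw [this]; fun_prop
  have hΨ2 : ∀ t, 2 ^ r * Ψ t =
      2 ^ n * ∑ s : Fin r → Bool, ∏ i, cos (SS (fun j => b * c i j * t j) s) := fun t => by
    rw [hΨ, mul_sum, mul_sum]
    simp only [← sum_cos_SS']
    rw [sum_comm]
    refine sum_congr rfl fun s _ => sum_congr rfl fun ε _ => ?_
    congr 1
    simp only [SS, mul_sum, sum_mul]
    rw [sum_comm]
    exact sum_congr rfl fun i _ => sum_congr rfl fun j _ => by ring
  have hu : ∀ (t : Fin r → ℝ) (M : ℝ), (∀ j, 0 ≤ t j ∧ t j ≤ M) → 0 ≤ M → ∀ s i,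
      |SS (fun j => b * c i j * t j) s| ≤ M / 2 := fun t M ht hM s i => by
    unfold SS
    refine (abs_sum_le_sum_abs _ _).trans ((sum_le_card_nsmul _ _ (b * M) fun j _ => ?_).trans ?_)
    · have h1 : |sgn (s j)| = 1 := by cases s j <;> simp [sgn]
      rw [abs_mul, h1, one_mul, abs_mul, abs_mul, abs_of_pos hb0, abs_of_nonneg (ht j).1, mul_assoc]
      refine mul_le_mul_of_nonneg_left ?_ hb0.le
      nlinarith [hc i j, (ht j).1, (ht j).2, abs_nonneg (c i j)]
    · simp only [card_univ, Fintype.card_fin, nsmul_eq_mul]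
      have : r * b ≤ 1 / 2 := by
        rw [hb, mul_one_div, div_le_div_iff₀ (by positivity) two_pos]; linarith
      nlinarith
  have hcos : ∀ t ∈ Set.Icc (0 : Fin r → ℝ) (fun _ => π), ∀ s i,
      0 ≤ cos (SS (fun j => b * c i j * t j) s) := fun t ht s i => by
    have := abs_le.1 (hu t π (fun j => ⟨ht.1 j, ht.2 j⟩) pi_pos.le s i)
    exact cos_nonneg_of_mem_Icc ⟨by linarith, by linarith⟩
  have hΨ0 : ∀ t ∈ Set.Icc (0 : Fin r → ℝ) (fun _ => π), 0 ≤ Ψ t := fun t ht => by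
    have : 0 ≤ 2 ^ r * Ψ t := by
      rw [hΨ2]
      exact mul_nonneg (by positivity) (sum_nonneg fun s _ => prod_nonneg fun i _ => hcos t ht s i)
    exact (mul_nonneg_iff_of_pos_left (by positivity)).1 this
  have hsub : Set.Icc (0 : Fin r → ℝ) τ ⊆ Set.Icc (0 : Fin r → ℝ) (fun _ => π) :=
    Set.Icc_subset_Icc_right fun j => by linarith [pi_gt_three, hτ1 j]
  have hΨ1 : ∀ t ∈ Set.Icc (0 : Fin r → ℝ) τ, 7 / 8 * 2 ^ n ≤ Ψ t := fun t ht => by
    have h1 : ∀ s : Fin r → Bool, 7 / 8 ≤ ∏ i, cos (SS (fun j => b * c i j * t j) s) := fun s => by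
      refine le_trans ?_ (one_sub_le_prod_cos univ _ (hcos t (hsub ht) s))
      have a1 : ∀ i, SS (fun j => b * c i j * t j) s ^ 2 ≤ r * ∑ j, b ^ 2 * (t j ^ 2 * c i j ^ 2) :=
        fun i => by
          unfold SS
          refine sq_sum_le_card_mul_sum_sq.trans (le_of_eq ?_)
          simp only [card_univ, Fintype.card_fin]
          congr 1
          exact sum_congr rfl fun j _ => by rw [mul_pow, sgn_sq]; ring
      have a2 : ∑ i, SS (fun j => b * c i j * t j) s ^ 2 ≤ r * (r * b ^ 2) := by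
        refine (sum_le_sum fun i _ => a1 i).trans ?_
        rw [← mul_sum, sum_comm]
        refine mul_le_mul_of_nonneg_left ((sum_le_card_nsmul _ _ (b ^ 2) fun j _ => ?_).trans
          (by simp)) (Nat.cast_nonneg _)
        rw [← mul_sum, ← mul_sum]
        refine mul_le_of_le_one_right (sq_nonneg _) (le_trans ?_ (hτ2 j))
        exact mul_le_mul_of_nonneg_right (pow_le_pow_left₀ (ht.1 j) (ht.2 j) 2)
          (sum_nonneg fun _ _ => sq_nonneg _)
      have a3 : r * b ≤ 1 / 2 := by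
        rw [hb, mul_one_div, div_le_div_iff₀ (by positivity) two_pos]; linarith
      have a4 := pow_le_pow_left₀ (by positivity) a3 2
      rw [← sum_div]
      nlinarith
    have h2 : 2 ^ r * (7 / 8 : ℝ) ≤ ∑ s : Fin r → Bool, ∏ i, cos (SS (fun j => b * c i j * t j) s) :=
      le_trans (by simp) (card_nsmul_le_sum univ _ _ fun s _ => h1 s)
    have h3 := mul_le_mul_of_nonneg_left h2 (by positivity : (0 : ℝ) ≤ 2 ^ n)
    rw [← hΨ2] at h3
    have h4 : (0 : ℝ) < 2 ^ r := by positivity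
    apply le_of_mul_le_mul_left _ h4
    linarith
  have hWc := WW_cont (r := r) (2 * d)
  have hW0 : ∀ t ∈ Set.Icc (0 : Fin r → ℝ) (fun _ => π), 0 ≤ WW (2 * d) t := fun t ht =>
    le_trans (div_nonneg (prod_nonneg fun j _ => KK_nonneg (ht.1 j) (ht.2 j)) two_pos.le)
      (WW_ge (by positivity) (by linarith) ht)
  have hlow : (1 / 2) ^ r / 2 * (7 / 8 * 2 ^ n) * ∏ j, τ j ≤
      ∫ t in Set.Icc (0 : Fin r → ℝ) (fun _ => π), WW (2 * d) t * Ψ t := by
    refine le_trans ?_ (setIntegral_mono_set (hWc.mul hΨc).integrableOn_Icc ?_ hsub.eventuallyLE)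
    · refine le_trans (le_of_eq ?_) (setIntegral_ge_of_const_le_real
        (c := (1 / 2) ^ r / 2 * (7 / 8 * 2 ^ n)) measurableSet_Icc measure_Icc_lt_top.ne
        (fun t ht => ?_) (hWc.mul hΨc).integrableOn_Icc)
      · rw [Measure.real, volume_Icc_pi_toReal (a := 0) (b := τ) (fun j => (hτ0 j).le)]
        simp
      · refine mul_le_mul ?_ (hΨ1 t ht) (by positivity) (hW0 t (hsub ht))
        refine le_trans ?_ (WW_ge (by positivity) (by linarith) (hsub ht))
        refine div_le_div_of_nonneg_right ?_ two_pos.le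
        refine le_trans (by simp) (prod_le_prod (f := fun _ => (1 / 2 : ℝ)) (by simp) fun j _ =>
          KK_ge_half (ht.1 j) ((ht.2 j).trans (hτ1 j)))
    · filter_upwards [ae_restrict_mem measurableSet_Icc] with t ht
      exact mul_nonneg (hW0 t ht) (hΨ0 t ht)
  have hup : ∫ t in Set.Icc (0 : Fin r → ℝ) (fun _ => π), WW (2 * d) t * Ψ t ≤
      2 ^ r * (univ.filter fun ε : Fin n → Bool =>
        ∑ j, SS (fun i => c i j) ε ^ 2 ≤ 8 * (d : ℝ) ^ 3).card := by
    simp only [hΨ, mul_sum]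
    rw [integral_finsetSum _ fun ε _ => (by fun_prop : Continuous _).integrableOn_Icc,
      card_filter]
    push_cast
    rw [mul_sum]
    refine sum_le_sum fun ε _ => ?_
    rw [integral_WW (2 * d) (fun j => b * SS (fun i => c i j) ε)]
    have p0 : 0 ≤ ∏ j, kk (b * SS (fun i => c i j) ε) := prod_nonneg fun j _ => kk_nonneg _
    have p1 : ∏ j, kk (b * SS (fun i => c i j) ε) ≤ 2 ^ r :=
      le_trans (prod_le_prod (fun j _ => kk_nonneg _) fun j _ => kk_le _) (by simp)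
    have e : (∑ j, (b * SS (fun i => c i j) ε) ^ 2) / (2 * d) =
        (∑ j, SS (fun i => c i j) ε ^ 2) / (8 * (d : ℝ) ^ 3) := by
      simp only [mul_pow, ← mul_sum]
      rw [hb]; field_simp; ring
    rw [e]
    split_ifs with h
    · have : 0 ≤ (∑ j, SS (fun i => c i j) ε ^ 2) / (8 * (d : ℝ) ^ 3) := by positivity
      nlinarith
    · push Not at h
      have : 1 ≤ (∑ j, SS (fun i => c i j) ε ^ 2) / (8 * (d : ℝ) ^ 3) :=
        (one_le_div (by positivity)).2 h.le
      nlinarith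
  have h5 := hlow.trans hup
  have hP : 0 < ∏ j, τ j := prod_pos fun j _ => hτ0 j
  generalize ∏ j, τ j = P at h5 hP ⊢
  have h6 : (1 / 4 : ℝ) ^ d ≤ (1 / 4) ^ r := pow_le_pow_of_le_one (by norm_num) (by norm_num) hr
  have h7 : (0 : ℝ) < 2 ^ r := by positivity
  apply le_of_mul_le_mul_left _ h7
  refine le_trans ?_ h5
  have h8 : (2 : ℝ) ^ r * (1 / 4) ^ r = (1 / 2) ^ r := by rw [← mul_pow]; norm_num
  calc (2 : ℝ) ^ r * (7 / 16 * (1 / 4) ^ d * P * 2 ^ n)
      = 2 ^ r * (7 / 16) * 2 ^ n * P * (1 / 4) ^ d := by ring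
    _ ≤ 2 ^ r * (7 / 16) * 2 ^ n * P * (1 / 4) ^ r :=
        mul_le_mul_of_nonneg_left h6 (by positivity)
    _ = _ := by rw [← h8]; ring

lemma reduceK {d n : ℕ} (v : Fin n → EuclideanSpace ℝ (Fin d)) (hv : ∀ i, ‖v i‖ = 1)
    (S : Finset (Fin n)) (G : Finset (Fin n → Bool))
    (h : ∀ ε ∈ G, ∃ a : Fin n → ℝ, (∀ i, |a i| ≤ 1) ∧
      ∑ i ∈ S, a i • v i = -∑ i ∈ Sᶜ, sgn (ε i) • v i) :
    (G.card : ℝ) / 2 ^ n ≤ 2 ^ S.card * prob v √d := by
  classical
  have hround : ∀ ε : Fin n → Bool, ∃ η : Fin n → Bool, ε ∈ G →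
      ‖∑ i, sgn (S.piecewise η ε i) • v i‖ ≤ √d := fun ε => by
    by_cases hε : ε ∈ G
    swap
    · exact ⟨ε, fun h' => absurd h' hε⟩
    obtain ⟨a, a1, a2⟩ := h ε hε
    obtain ⟨η, hη⟩ := rounding v hv S a a1
    refine ⟨η, fun _ => le_trans (le_of_eq ?_) hη⟩
    congr 1
    rw [a2, sub_neg_eq_add, ← sum_add_sum_compl S]
    congr 1
    · exact sum_congr rfl fun i hi => by rw [piecewise_eq_of_mem _ _ _ hi]
    · exact sum_congr rfl fun i hi => by rw [piecewise_eq_of_notMem _ _ _ (mem_compl.1 hi)]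
  choose η hη using hround
  have hcard := card_le_mul_card_image_of_maps_to (s := G)
    (t := univ.filter fun ε : Fin n → Bool => ‖∑ i, sgn (ε i) • v i‖ ≤ √d)
    (f := fun ε => S.piecewise (η ε) ε)
    (fun ε hε => mem_filter.2 ⟨mem_univ _, hη ε hε⟩) (2 ^ S.card)
    (fun b _ => by
      refine le_trans (card_le_card_of_injOn (t := (univ : Finset (S → Bool)))
        (fun ε i => ε i) (fun _ _ => mem_univ _) ?_) ?_
      · intro ε h1 ε' h2 h
        have g1 := (mem_filter.1 h1).2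
        have g2 := (mem_filter.1 h2).2
        funext i
        by_cases hi : i ∈ S
        · exact congrFun h ⟨i, hi⟩
        · have := congrFun (g1.trans g2.symm) i
          rwa [piecewise_eq_of_notMem _ _ _ hi, piecewise_eq_of_notMem _ _ _ hi] at this
      · simp)
  unfold prob
  rw [← mul_div_assoc]
  exact div_le_div_of_nonneg_right (by exact_mod_cast hcard) (by positivity)

lemma l1_le {r d : ℕ} (hr : r ≤ d) (y : Fin r → ℝ) (h : ∑ j, y j ^ 2 ≤ 8 * (d : ℝ) ^ 3) :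
    ∑ j, |y j| ≤ 3 * (d : ℝ) ^ 2 := by
  have h2 := sq_sum_le_card_mul_sum_sq (s := univ) (f := fun j => |y j|)
  simp only [sq_abs, card_univ, Fintype.card_fin] at h2
  have hr1 : (r : ℝ) ≤ d := by exact_mod_cast hr
  have h3 : (r : ℝ) * ∑ j, y j ^ 2 ≤ d * (8 * (d : ℝ) ^ 3) :=
    mul_le_mul hr1 h (sum_nonneg fun _ _ => sq_nonneg _) (Nat.cast_nonneg _)
  refine abs_le_of_sq_le_sq' ?_ (by positivity) |>.2
  have : (0 : ℝ) ≤ (d : ℝ) ^ 4 := by positivity
  nlinarith

lemma push_sum {r n : ℕ} {E : Type*} [AddCommGroup E] [Module ℝ E] (f : Fin r → Fin n)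
    (y : Fin r → ℝ) (x : Fin n → E) :
    ∑ i, (∑ j, if f j = i then y j else 0) • x i = ∑ j, y j • x (f j) := by
  simp only [sum_smul]
  rw [sum_comm]
  refine sum_congr rfl fun j _ => ?_
  rw [sum_eq_single (f j) (fun i _ hi => by rw [if_neg (Ne.symm hi), zero_smul]) (by simp),
    if_pos rfl]

lemma push_l1 {r n : ℕ} (f : Fin r → Fin n) (y : Fin r → ℝ) :
    ∑ i, |∑ j, if f j = i then y j else 0| ≤ ∑ j, |y j| := by
  refine (sum_le_sum fun i _ => abs_sum_le_sum_abs _ _).trans (le_of_eq ?_)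
  rw [sum_comm]
  refine sum_congr rfl fun j _ => ?_
  rw [sum_eq_single (f j) (fun i _ hi => by rw [if_neg (Ne.symm hi), abs_zero]) (by simp),
    if_pos rfl]

lemma rest_sum {r n : ℕ} {E : Type*} [AddCommGroup E] [Module ℝ E] (S : Finset (Fin n))
    (c : Fin n → Fin r → ℝ) (g : Fin r → E) (v : Fin n → E) (h0 : ∀ i ∈ S, c i = 0)
    (h1 : ∀ i ∉ S, v i = ∑ j, c i j • g j) (ε : Fin n → Bool) :
    ∑ i ∈ Sᶜ, sgn (ε i) • v i = ∑ j, SS (fun i => c i j) ε • g j := by
  simp only [SS, sum_smul]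
  rw [sum_comm, ← sum_subset (subset_univ Sᶜ) fun i _ hi => by simp [h0 i (by simpa using hi)]]
  refine sum_congr rfl fun i hi => ?_
  rw [h1 i (mem_compl.1 hi), smul_sum]
  exact sum_congr rfl fun j _ => by rw [mul_smul]

/-- the constant of the degenerate cases -/
noncomputable def cD (d : ℕ) : ℝ :=
  7 / 16 * (1 / 4) ^ d / (6 * (d : ℝ) ^ 3) / 2 ^ (6 * d ^ 3 * d + 1)

lemma prod_tau {r d : ℕ} (hr : r ≤ d) (τ : Fin r → ℝ) (l0 : Fin r) {a : ℝ} (ha0 : 0 ≤ a)
    (ha1 : a ≤ 1) (h0 : 0 ≤ τ l0) (h : ∀ l, l ≠ l0 → τ l = a) : τ l0 * a ^ (d - 1) ≤ ∏ l, τ l := by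
  rw [← mul_prod_erase univ _ (mem_univ l0),
    prod_congr rfl fun l hl => h l (ne_of_mem_erase hl), prod_const, card_erase_of_mem (mem_univ _),
    card_univ, Fintype.card_fin]
  exact mul_le_mul_of_nonneg_left (pow_le_pow_of_le_one ha0 ha1 (by omega)) h0

lemma inv_sqrt_facts {n : ℕ} (hn : 1 ≤ n) : 0 < 1 / √(n : ℝ) ∧ 1 / √(n : ℝ) ≤ 1 ∧
    ∀ c : Fin n → ℝ, (∀ i, |c i| ≤ 1) → (1 / √(n : ℝ)) ^ 2 * ∑ i, c i ^ 2 ≤ 1 := by
  have hn1 : (1 : ℝ) ≤ n := by exact_mod_cast hn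
  have hsq : 1 ≤ √(n : ℝ) := Real.one_le_sqrt.2 hn1
  refine ⟨by positivity, (div_le_one (by positivity)).2 hsq, fun c hc => ?_⟩
  rw [div_pow, Real.sq_sqrt (by positivity), one_pow, one_div_mul_eq_div, div_le_one (by positivity)]
  refine (sum_le_card_nsmul _ _ 1 fun i _ => ?_).trans (by simp)
  rw [sq_le_one_iff_abs_le_one]; exact hc i

theorem degenerate0 {d n : ℕ} (hd : 1 ≤ d) (hn : 1 ≤ n) (v : Fin n → EuclideanSpace ℝ (Fin d))
    (hv : ∀ i, ‖v i‖ = 1) (W : Submodule ℝ (EuclideanSpace ℝ (Fin d)))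
    (hW : Module.finrank ℝ W < d) (hvW : ∀ i, v i ∈ W) :
    cD d * (1 / √n) ^ (d - 1) ≤ prob v √d := by
  classical
  obtain ⟨S, hS, hZ⟩ := specials v (3 * d ^ 2)
  obtain ⟨r, hr, f, c, hfT, hli, c3, c1, c2, -⟩ := spannerD v Sᶜ
  have hr' : r < d := by
    have : LinearIndependent ℝ fun j => (⟨v (f j), hvW _⟩ : W) :=
      LinearIndependent.of_comp W.subtype hli
    have := this.fintype_card_le_finrank
    rw [Fintype.card_fin] at this
    omega
  obtain ⟨t0, t1, t2⟩ := inv_sqrt_facts hn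
  have hsb := small_ball2 hd hr c c1 (fun _ => 1 / √n) (fun _ => t0) (fun _ => t1)
    fun j => t2 _ fun i => c1 i j
  have hK := reduceK v hv S (univ.filter fun ε : Fin n → Bool =>
      ∑ j, SS (fun i => c i j) ε ^ 2 ≤ 8 * (d : ℝ) ^ 3) fun ε hε => by
    obtain ⟨a, a1, a2, a3⟩ := hZ (fun i => ∑ j, if f j = i then -SS (fun i => c i j) ε else 0)
      (fun i hi => sum_eq_zero fun j _ => if_neg fun e : f j = i => mem_compl.1 (hfT j) (e ▸ hi))
      ((push_l1 _ _).trans (by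
        simp only [abs_neg]
        push_cast
        exact l1_le hr _ (mem_filter.1 hε).2))
    refine ⟨a, a1, ?_⟩
    rw [sum_subset (subset_univ S) fun i _ hi => by rw [a2 i hi, zero_smul], a3, push_sum,
      rest_sum S c (fun j => v (f j)) v (fun i hi => c2 i (by simpa using hi))
        (fun i hi => c3 i (mem_compl.2 hi)), ← sum_neg_distrib]
    simp only [neg_smul]
  rw [← le_div_iff₀ (by positivity), prod_const, card_univ, Fintype.card_fin] at hsb
  have h2 := hsb.trans hK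
  have h3 : (2 : ℝ) ^ S.card ≤ 2 ^ (6 * d ^ 3 * d + 1) :=
    pow_le_pow_right₀ (by norm_num) (hS.trans (by nlinarith [Nat.zero_le (d ^ 3)]))
  have h4 : (1 / √(n : ℝ)) ^ (d - 1) ≤ (1 / √n) ^ r := pow_le_pow_of_le_one t0.le t1 (by omega)
  have hp : 0 ≤ prob v √d := div_nonneg (Nat.cast_nonneg _) (by positivity)
  have hd1 : (1 : ℝ) ≤ d := by exact_mod_cast hd
  have h5 : (1 : ℝ) ≤ 6 * (d : ℝ) ^ 3 := by nlinarith [one_le_pow₀ (n := 3) hd1]
  unfold cD
  rw [div_mul_eq_mul_div, div_le_iff₀ (by positivity)]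
  calc _ ≤ 7 / 16 * (1 / 4) ^ d * (1 / √(n : ℝ)) ^ r :=
        mul_le_mul (div_le_self (by positivity) h5) h4 (by positivity) (by positivity)
    _ ≤ _ := h2
    _ ≤ 2 ^ (6 * d ^ 3 * d + 1) * prob v √d := mul_le_mul_of_nonneg_right h3 hp
    _ = _ := mul_comm _ _

theorem degenerate1 {d n : ℕ} (hd : 1 ≤ d) (hn : 1 ≤ n) (v : Fin n → EuclideanSpace ℝ (Fin d))
    (hv : ∀ i, ‖v i‖ = 1) (L : EuclideanSpace ℝ (Fin d) →ₗ[ℝ] ℝ) (i0 : Fin n) (hL : L (v i0) = 1)
    {Y : ℝ} (hY : 1 ≤ Y) (hLY : ∑ i, L (v i) ^ 2 ≤ Y) :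
    cD d * (1 / √n) ^ (d - 1) / √Y ≤ prob v √d := by
  classical
  have hd1 : (1 : ℝ) ≤ d := by exact_mod_cast hd
  obtain ⟨C, hC⟩ : ∃ C : ℝ, C = 6 * (d : ℝ) ^ 3 := ⟨_, rfl⟩
  have hC1 : 1 ≤ C := by rw [hC]; nlinarith [one_le_pow₀ (n := 3) hd1]
  obtain ⟨S0, hS, hZ⟩ := specials (Function.update v i0 0) (6 * d ^ 3)
  obtain ⟨x, hx⟩ : ∃ x, x = Function.update v i0 ((1 / C) • v i0) := ⟨_, rfl⟩
  obtain ⟨r, hr, f, c, hfT, -, c3, c1, -, -⟩ := spannerD x (insert i0 S0ᶜ)
  have hx0 : 1 / C = ∑ j, c i0 j * L (x (f j)) := by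
    have := congrArg L (c3 i0 (mem_insert_self _ _))
    simp only [map_sum, map_smul, smul_eq_mul] at this
    rw [← this, hx, Function.update_self, map_smul, hL, smul_eq_mul, mul_one]
  have hr0 : (univ : Finset (Fin r)).Nonempty := by
    rcases (univ : Finset (Fin r)).eq_empty_or_nonempty with h | h
    · rw [h, sum_empty] at hx0
      have : 0 < 1 / C := by positivity
      linarith
    · exact h
  obtain ⟨l0, -, hl0⟩ := exists_max_image univ (fun j => |L (x (f j))|) hr0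
  obtain ⟨μ, hμ⟩ : ∃ μ, μ = |L (x (f l0))| := ⟨_, rfl⟩
  rw [← hμ] at hl0
  have hr1 : (r : ℝ) ≤ d := by exact_mod_cast hr
  have hμ0 : 0 ≤ μ := by rw [hμ]; exact abs_nonneg _
  have hbd : ∀ i, |∑ j, c i j * L (x (f j))| ≤ d * μ := fun i => by
    refine (abs_sum_le_sum_abs _ _).trans ((sum_le_card_nsmul _ _ μ fun j _ => ?_).trans ?_)
    · rw [abs_mul]
      exact (mul_le_of_le_one_left (abs_nonneg _) (c1 i j)).trans (hl0 j (mem_univ _))
    · simp only [card_univ, Fintype.card_fin, nsmul_eq_mul]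
      exact mul_le_mul_of_nonneg_right hr1 hμ0
  have hμ1 : 1 / C ≤ d * μ := by
    have := hbd i0
    rw [← hx0] at this
    exact (le_abs_self _).trans this
  have hdμ : 0 < d * μ := lt_of_lt_of_le (by positivity) hμ1
  have hμp : 0 < μ := (mul_pos_iff_of_pos_left (by positivity)).1 hdμ
  obtain ⟨S, hSd⟩ : ∃ S, S = insert i0 S0 := ⟨_, rfl⟩
  have hxv : ∀ i ∉ S, x i = v i := fun i hi => by
    rw [hx, Function.update_of_ne (by rintro rfl; exact hi (hSd ▸ mem_insert_self _ _))]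
  have hT : ∀ i ∉ S, i ∈ insert i0 S0ᶜ := fun i hi =>
    mem_insert_of_mem (mem_compl.2 fun h => hi (hSd ▸ mem_insert_of_mem h))
  obtain ⟨a, ha⟩ : ∃ a : Fin n → Fin r → ℝ, ∀ i, a i = if i ∈ S then 0 else c i := ⟨_, fun _ => rfl⟩
  have ha1 : ∀ i j, |a i j| ≤ 1 := fun i j => by
    rw [ha]; split_ifs
    · simp
    · exact c1 i j
  have ha0 : ∀ i ∈ S, a i = 0 := fun i hi => by rw [ha, if_pos hi]
  have ha3 : ∀ i ∉ S, v i = ∑ j, a i j • x (f j) := fun i hi => by
    rw [ha, if_neg hi, ← hxv i hi]; exact c3 i (hT i hi)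
  obtain ⟨a', ha'⟩ : ∃ a' : Fin n → Fin r → ℝ, ∀ i, a' i =
      Function.update (a i) l0 ((∑ j, a i j * L (x (f j))) / (d * μ)) := ⟨_, fun _ => rfl⟩
  have ha'1 : ∀ i j, |a' i j| ≤ 1 := fun i j => by
    rw [ha']
    by_cases hj : j = l0
    · rw [hj, Function.update_self, abs_div, abs_of_pos hdμ, div_le_one hdμ, ha]
      split_ifs
      · simp; positivity
      · exact hbd i
    · rw [Function.update_of_ne hj]; exact ha1 i j
  obtain ⟨t0, t1, t2⟩ := inv_sqrt_facts hn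
  have hsY : 1 ≤ √Y := Real.one_le_sqrt.2 hY
  have hCY : 1 ≤ C * √Y := by nlinarith
  obtain ⟨τ, hτ⟩ : ∃ τ : Fin r → ℝ, τ = Function.update (fun _ => 1 / √(n : ℝ)) l0 (1 / (C * √Y)) :=
    ⟨_, rfl⟩
  have hτ0 : τ l0 = 1 / (C * √Y) := by rw [hτ, Function.update_self]
  have hτ1 : ∀ l, l ≠ l0 → τ l = 1 / √n := fun l hl => by rw [hτ, Function.update_of_ne hl]
  have hsb := small_ball2 hd hr a' ha'1 τ (fun j => by
      by_cases hj : j = l0
      · rw [hj, hτ0]; positivity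
      · rw [hτ1 j hj]; exact t0)
    (fun j => by
      by_cases hj : j = l0
      · rw [hj, hτ0]; exact (div_le_one (by positivity)).2 hCY
      · rw [hτ1 j hj]; exact t1)
    (fun j => by
      by_cases hj : j = l0
      · rw [hj, hτ0]
        have b1 : ∀ i, a' i l0 ^ 2 ≤ C ^ 2 * L (v i) ^ 2 := fun i => by
          rw [ha', Function.update_self]
          by_cases hi : i ∈ S
          · simp [ha0 i hi]; positivity
          · have e := congrArg L (ha3 i hi)
            simp only [map_sum, map_smul, smul_eq_mul] at e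
            rw [← e, div_pow, div_le_iff₀ (by positivity)]
            have b2 : 1 ≤ C * (d * μ) := by
              rw [div_le_iff₀ (by positivity)] at hμ1; linarith
            nlinarith [mul_le_mul_of_nonneg_left (one_le_pow₀ (n := 2) b2) (sq_nonneg (L (v i)))]
        have b3 : ∑ i, a' i l0 ^ 2 ≤ C ^ 2 * Y := by
          refine (sum_le_sum fun i _ => b1 i).trans ?_
          rw [← mul_sum]; exact mul_le_mul_of_nonneg_left hLY (sq_nonneg _)
        rw [div_pow, mul_pow, Real.sq_sqrt (by linarith), one_pow, one_div_mul_eq_div,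
          div_le_one (by positivity)]
        exact b3
      · rw [hτ1 j hj]; exact t2 _ fun i => ha'1 i j)
  have hK := reduceK v hv S (univ.filter fun ε : Fin n → Bool =>
      ∑ j, SS (fun i => a' i j) ε ^ 2 ≤ 8 * (d : ℝ) ^ 3) fun ε hε => by
    have g1 := l1_le hr _ (mem_filter.1 hε).2
    obtain ⟨y, hy⟩ : ∃ y : Fin r → ℝ, ∀ j, y j = SS (fun i => a i j) ε := ⟨_, fun _ => rfl⟩
    obtain ⟨y', hy'⟩ : ∃ y' : Fin r → ℝ, ∀ j, y' j = SS (fun i => a' i j) ε := ⟨_, fun _ => rfl⟩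
    simp only [← hy'] at g1
    have g2 : ∀ j, j ≠ l0 → y' j = y j := fun j hj => by
      rw [hy, hy']; congr 1; funext i; rw [ha', Function.update_of_ne hj]
    have g3 : y' l0 * (d * μ) = ∑ j, y j * L (x (f j)) := by
      simp only [hy, hy', ha', Function.update_self, SS, sum_mul]
      rw [sum_comm]
      refine sum_congr rfl fun i _ => ?_
      rw [mul_assoc, div_mul_cancel₀ _ hdμ.ne', mul_sum]
      exact sum_congr rfl fun j _ => by ring
    have g4 : ∑ j, |y j| ≤ C := by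
      rw [← add_sum_erase _ _ (mem_univ l0)] at g1 g3 ⊢
      rw [sum_congr rfl fun j hj => by rw [g2 j (ne_of_mem_erase hj)]] at g1
      have g5 : |∑ j ∈ univ.erase l0, y j * L (x (f j))| ≤ (∑ j ∈ univ.erase l0, |y j|) * μ := by
        rw [sum_mul]
        refine (abs_sum_le_sum_abs _ _).trans (sum_le_sum fun j _ => ?_)
        rw [abs_mul]; exact mul_le_mul_of_nonneg_left (hl0 j (mem_univ _)) (abs_nonneg _)
      have g6 : |y l0| * μ ≤ |y' l0| * (d * μ) + (∑ j ∈ univ.erase l0, |y j|) * μ := by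
        have : y l0 * L (x (f l0)) = y' l0 * (d * μ) - ∑ j ∈ univ.erase l0, y j * L (x (f j)) := by
          linarith
        rw [hμ, ← abs_mul, this, ← hμ]
        refine (abs_sub _ _).trans (add_le_add (le_of_eq ?_) g5)
        rw [abs_mul, abs_of_pos hdμ]
      have g7 : |y l0| ≤ |y' l0| * d + ∑ j ∈ univ.erase l0, |y j| := by
        apply le_of_mul_le_mul_right _ hμp
        linarith
      have g8 : 0 ≤ ∑ j ∈ univ.erase l0, |y j| := sum_nonneg fun _ _ => abs_nonneg _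
      have g9 := abs_nonneg (y' l0)
      rw [hC]
      nlinarith [mul_le_mul_of_nonneg_left g1 (by linarith : (0 : ℝ) ≤ 2 * d),
        mul_nonneg g8 (sub_nonneg.2 hd1), mul_nonneg g9 (by linarith : (0 : ℝ) ≤ d)]
    obtain ⟨w, hw⟩ : ∃ w : Fin n → ℝ, ∀ i, w i = ∑ j, if f j = i then -y j else 0 :=
      ⟨_, fun _ => rfl⟩
    have hw1 : ∑ i, |w i| ≤ C := by
      simp only [hw]
      exact (push_l1 _ _).trans (by simpa only [abs_neg] using g4)
    obtain ⟨b, b1, b2, b3⟩ := hZ (Function.update w i0 0) (fun i hi => by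
        by_cases h : i = i0
        · rw [h, Function.update_self]
        · rw [Function.update_of_ne h, hw]
          refine sum_eq_zero fun j _ => if_neg fun e : f j = i => ?_
          have := hfT j
          rw [e, mem_insert, mem_compl] at this
          tauto)
      (by
        push_cast
        rw [← hC]
        refine le_trans (sum_le_sum fun i _ => ?_) hw1
        by_cases h : i = i0
        · rw [h, Function.update_self, abs_zero]; exact abs_nonneg _
        · rw [Function.update_of_ne h])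
    refine ⟨Function.update b i0 (w i0 / C), fun i => ?_, ?_⟩
    · by_cases h : i = i0
      · rw [h, Function.update_self, abs_div, abs_of_pos (by linarith : 0 < C),
          div_le_one (by linarith)]
        exact (single_le_sum (f := fun i => |w i|) (fun _ _ => abs_nonneg _) (mem_univ i0)).trans hw1
      · rw [Function.update_of_ne h]; exact b1 i
    · rw [rest_sum S a (fun j => x (f j)) v ha0 ha3, ← sum_neg_distrib]
      simp only [← hy, ← neg_smul]
      rw [← push_sum f (fun j => -y j) x]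
      simp only [← hw]
      rw [sum_subset (subset_univ S) fun i _ hi => by
        have h1 : i ≠ i0 := by rintro rfl; exact hi (hSd ▸ mem_insert_self _ _)
        rw [Function.update_of_ne h1, b2 i fun h => hi (hSd ▸ mem_insert_of_mem h), zero_smul]]
      rw [← add_sum_erase _ _ (mem_univ i0), ← add_sum_erase _ _ (mem_univ i0)] at b3 ⊢
      simp only [Function.update_self, smul_zero, zero_add] at b3 ⊢
      congr 1
      · rw [hx, Function.update_self, smul_smul]; congr 1; ring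
      · refine Eq.trans (sum_congr rfl fun i hi => ?_) (b3.trans (sum_congr rfl fun i hi => ?_))
        · rw [Function.update_of_ne (ne_of_mem_erase hi), Function.update_of_ne (ne_of_mem_erase hi)]
        · rw [Function.update_of_ne (ne_of_mem_erase hi), Function.update_of_ne (ne_of_mem_erase hi),
            hx, Function.update_of_ne (ne_of_mem_erase hi)]
  rw [← le_div_iff₀ (by positivity)] at hsb
  have h2 := hsb.trans hK
  have h3 : (2 : ℝ) ^ S.card ≤ 2 ^ (6 * d ^ 3 * d + 1) :=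
    pow_le_pow_right₀ (by norm_num) (hSd ▸ (card_insert_le _ _).trans (by omega))
  have h4 := prod_tau hr τ l0 t0.le t1 (by rw [hτ0]; positivity) hτ1
  have hp : 0 ≤ prob v √d := div_nonneg (Nat.cast_nonneg _) (by positivity)
  unfold cD
  rw [← hC, div_mul_eq_mul_div, div_right_comm, div_le_iff₀ (by positivity)]
  calc _ = 7 / 16 * (1 / 4) ^ d * (τ l0 * (1 / √(n : ℝ)) ^ (d - 1)) := by
        rw [hτ0]; field_simp
    _ ≤ 7 / 16 * (1 / 4) ^ d * ∏ l, τ l := mul_le_mul_of_nonneg_left h4 (by positivity)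
    _ ≤ _ := h2
    _ ≤ 2 ^ (6 * d ^ 3 * d + 1) * prob v √d := mul_le_mul_of_nonneg_right h3 hp
    _ = _ := mul_comm _ _

end Pool.Agent.Lib.MP_3b7d13_co
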