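import Pool.Agent.Lib.MP_3b7d13_co.Blocks
import Pool.Agent.Lib.MP_3b7d13_co.Degenerate
import Pool.Agent.Lib.MP_3b7d13_co.Core

/-! Either the configuration is degenerate or the block argument applies. -/

namespace Pool.Agent.Lib.MP_3b7d13_co

open Finset Real Module

/-- `B` bounds the mean square of the minors of unit vectors written in a maximal basis. -/
def Hyp (d : ℕ) (B : ℝ) : Prop :=
  ∀ (n : ℕ) (u : Fin d → EuclideanSpace ℝ (Fin d)) (a : Fin n → Fin d → ℝ) (T : Finset (Fin n)),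
    (∀ l, ‖u l‖ = 1) → (∀ i ∈ T, ‖∑ l, a i l • u l‖ = 1) → (∀ i ∈ T, ∀ l, |a i l| ≤ 1) →
    (∀ h : Fin d → Fin n, (∀ j, h j ∈ T) → |(Matrix.of fun l j => a (h j) l).det| ≤ 1) →
    ∑ h ∈ Fintype.piFinset fun _ : Fin d => T, (Matrix.of fun l j => a (h j) l).det ^ 2 ≤
      B * T.card ^ d

lemma det_bound {d n : ℕ} (a : Fin n → Fin d → ℝ) (T P : Finset (Fin n)) {B Λ κ : ℝ}
    (hB : 0 ≤ B) (hΛ : ∀ i l, |a i l| ≤ Λ) (hκ : (Tᶜ.card : ℝ) ≤ κ)
    (hT : ∑ h ∈ Fintype.piFinset fun _ : Fin d => T, (Matrix.of fun l j => a (h j) l).det ^ 2 ≤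
      B * T.card ^ d) :
    (Matrix.of fun l l' => ∑ i ∈ P, a i l * a i l').det ≤
      (B * n ^ d + κ * d * n ^ (d - 1) * (d.factorial * Λ ^ d) ^ 2) / d.factorial := by
  classical
  obtain ⟨a0, ha0⟩ : ∃ a0 : Fin n → Fin d → ℝ, ∀ i, a0 i = if i ∈ P then a i else 0 :=
    ⟨_, fun _ => rfl⟩
  have e : (Matrix.of fun l l' => ∑ i ∈ P, a i l * a i l') =
      Matrix.of fun l l' => ∑ i, a0 i l * a0 i l' := by
    congr 1
    funext l l'
    rw [← sum_subset (subset_univ P) fun i _ hi => by rw [ha0, if_neg hi]; simp]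
    exact sum_congr rfl fun i hi => by rw [ha0, if_pos hi]
  have h0 : ∀ h : Fin d → Fin n, (Matrix.of fun l j => a0 (h j) l).det ^ 2 ≤
      (Matrix.of fun l j => a (h j) l).det ^ 2 := fun h => by
    by_cases hh : ∀ j, h j ∈ P
    · simp only [ha0, if_pos (hh _), le_refl]
    · push Not at hh
      obtain ⟨j, hj⟩ := hh
      rw [Matrix.det_eq_zero_of_column_eq_zero j fun l => by simp [ha0, hj]]
      simpa using sq_nonneg _
  rw [e, le_div_iff₀ (by positivity), mul_comm, andreief]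
  refine (sum_le_sum fun h _ => h0 h).trans ?_
  rw [← sum_add_sum_compl (Fintype.piFinset fun _ : Fin d => T)]
  have hTn : (T.card : ℝ) ≤ n := by exact_mod_cast (card_le_univ T).trans (by simp)
  refine add_le_add (hT.trans (mul_le_mul_of_nonneg_left
    (pow_le_pow_left₀ (Nat.cast_nonneg _) hTn d) hB)) ?_
  refine (sum_le_card_nsmul _ _ ((d.factorial * Λ ^ d) ^ 2) fun h _ => ?_).trans ?_
  · have := Matrix.det_le (A := Matrix.of fun l j => a (h j) l) (abv := AbsoluteValue.abs) (x := Λ)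
      fun l j => hΛ _ _
    simp only [AbsoluteValue.abs_apply, Fintype.card_fin, nsmul_eq_mul] at this
    rw [← sq_abs]
    exact pow_le_pow_left₀ (abs_nonneg _) this 2
  · rw [nsmul_eq_mul]
    refine mul_le_mul_of_nonneg_right ?_ (sq_nonneg _)
    have h1 : (((Fintype.piFinset fun _ : Fin d => T)ᶜ).card : ℝ) = n ^ d - T.card ^ d := by
      have := card_add_card_compl (Fintype.piFinset fun _ : Fin d => T)
      rw [Fintype.card_piFinset] at this
      simp only [prod_const, card_univ, Fintype.card_fin, Fintype.card_fun] at this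
      have h2 := congrArg (Nat.cast : ℕ → ℝ) this
      push_cast at h2
      linarith
    have h2 : (Tᶜ.card : ℝ) = n - T.card := by
      have := congrArg (Nat.cast : ℕ → ℝ) (card_add_card_compl T)
      simp only [Fintype.card_fin, Nat.cast_add] at this
      linarith
    have h3 := (le_abs_self _).trans (abs_pow_sub_pow_le (n : ℝ) (T.card : ℝ) d)
    rw [abs_of_nonneg (sub_nonneg.2 hTn), Nat.abs_cast, Nat.abs_cast, max_eq_left hTn, ← h2] at h3
    rw [h1]
    exact h3.trans (by gcongr)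

lemma nontight {n : ℕ} {β : Type*} [DecidableEq β] (lab : Fin n → β) (C : Finset β)
    (hC : ∀ i, lab i ∈ C) (M : ℕ) :
    (univ.filter fun i => M ≤ (univ.filter fun i' => lab i' = lab i).card)ᶜ.card ≤ M * C.card := by
  refine card_le_mul_card_image_of_maps_to (f := lab) (fun i _ => hC i) M fun b _ => ?_
  rcases ((univ.filter fun i => M ≤ (univ.filter fun i' => lab i' = lab i).card)ᶜ.filter
    fun i => lab i = b).eq_empty_or_nonempty with h | ⟨i, hi⟩
  · rw [h]; simp
  · simp only [mem_filter, mem_compl, mem_univ, true_and, not_le] at hi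
    refine le_trans (card_le_card fun i' hi' => ?_) hi.1.le
    exact mem_filter.2 ⟨mem_univ _, (mem_filter.1 hi').2.trans hi.2.symm⟩

theorem dichotomy {d n k : ℕ} (hd : 1 ≤ d) (hn : 1 ≤ n) {B : ℝ} (hB : 0 ≤ B) (hH : Hyp d B)
    (v : Fin n → EuclideanSpace ℝ (Fin d)) (hv : ∀ i, ‖v i‖ = 1) {δ ε R c Y κ : ℝ} (hδ0 : 0 < δ)
    (hδ : δ ≤ 1) (hε0 : 0 < ε) (hε : ε < 1) (hk : 2 ≤ ε * k) (hR : 0 ≤ R)
    (hc : c = (1 + ε) ^ 2 / (2 * ((1 - ε) * k))) (h : c * (d * (d / δ ^ 2) * R ^ 2) ≤ ε)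
    (hκ : 2 * k * (60 * d ^ 4 * k / δ) ^ d ≤ κ) (hY : 1 ≤ Y) (hY1 : δ ^ 2 * n + κ ≤ Y) :
    cD d * (1 / √n) ^ (d - 1) / √Y ≤ prob v √d ∨
    (k.centralBinom / 4 ^ k * exp (-((1 + 1 / ε) / ((1 - ε) * k)))) ^ d *
      (1 / √(c ^ d * ((B * n ^ d + κ * d * n ^ (d - 1) * (d.factorial * (1 / δ) ^ d) ^ 2) /
        d.factorial) + d * (1 + c * (n * (d / δ ^ 2))) ^ (d - 1)) -
        2 * (d * (exp (-(R ^ 2 / 4)) * 2)) - exp (-(ε ^ 2 * k / 4))) ≤ prob v √d := by
  classical
  have hd1 : (1 : ℝ) ≤ d := by exact_mod_cast hd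
  have hk1 : (1 : ℝ) ≤ k := by
    by_contra h; push Not at h; nlinarith [(Nat.cast_nonneg k : (0 : ℝ) ≤ k)]
  obtain ⟨r1, hr1, f1, c1, -, -, c13, c11, -, -⟩ := spannerD v univ
  obtain ⟨ν, hν⟩ : ∃ ν : ℝ, ν = 1 / (12 * d ^ 3 * k) := ⟨_, rfl⟩
  have hd3 : (1 : ℝ) ≤ d ^ 3 := one_le_pow₀ hd1
  have hν0 : 0 < ν := by rw [hν]; positivity
  have hν1 : ν < 1 := by rw [hν, div_lt_one (by positivity)]; nlinarith
  obtain ⟨η, hη⟩ : ∃ η : ℝ, η = ν * δ / d := ⟨_, rfl⟩
  have hη0 : 0 < η := by rw [hη]; positivity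
  have hη1 : η ≤ 1 := by rw [hη, div_le_one (by positivity)]; nlinarith
  obtain ⟨lab, hlab⟩ : ∃ lab : Fin n → Fin r1 → ℤ, ∀ i j, lab i j = ⌊c1 i j / η⌋ :=
    ⟨_, fun _ _ => rfl⟩
  obtain ⟨T, hT⟩ : ∃ T, T = univ.filter fun i =>
    2 * k ≤ (univ.filter fun i' => lab i' = lab i).card := ⟨_, rfl⟩
  have hTc : (Tᶜ.card : ℝ) ≤ κ := by
    have h1 := nontight lab (Fintype.piFinset fun _ => Icc (-⌈1 / η⌉) ⌈1 / η⌉) (fun i => by
      rw [Fintype.mem_piFinset]
      intro j
      rw [hlab]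
      exact floor_mem hη0 zero_le_one (by rw [one_pow, sq_le_one_iff_abs_le_one]; exact c11 i j))
      (2 * k)
    rw [← hT, Fintype.card_piFinset, prod_const, card_univ, Fintype.card_fin] at h1
    have h2 := (Nat.cast_le (α := ℝ)).2 h1
    push_cast at h2
    refine h2.trans (le_trans (mul_le_mul_of_nonneg_left ?_ (by positivity)) hκ)
    have h3 := card_Icc_le hη0 hη1
    have e : 5 * (1 / η) = 60 * d ^ 4 * k / δ := by rw [hη, hν]; field_simp; norm_num
    refine (pow_le_pow_left₀ (Nat.cast_nonneg _) h3 r1).trans ?_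
    rw [← e]
    exact pow_le_pow_right₀ (by have := (one_le_div hη0).2 hη1; linarith) hr1
  obtain ⟨w, hw⟩ : ∃ w : Fin n → ℝ, ∀ i, w i = if i ∈ T then 1 else δ := ⟨_, fun _ => rfl⟩
  have hw0 : ∀ i, δ ≤ w i := fun i => by rw [hw]; split_ifs; exacts [hδ, le_rfl]
  have hw1 : ∀ i, w i ≠ 0 := fun i => (hδ0.trans_le (hw0 i)).ne'
  obtain ⟨r, hr, f, c', -, hli, c3, c2, -, c4⟩ := spannerD (fun i => w i • v i) univ
  have hsY : 1 ≤ √Y := one_le_sqrt.2 hY
  rcases hr.lt_or_eq with hr | rfl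
  · left
    refine le_trans (div_le_self (by unfold cD; positivity) hsY) (degenerate0 hd hn v hv
      (Submodule.span ℝ (Set.range fun j => w (f j) • v (f j)))
      (lt_of_le_of_lt ((finrank_range_le_card _).trans (by simp)) hr) fun i => ?_)
    rw [← inv_smul_smul₀ (hw1 i) (v i), c3 i (mem_univ _)]
    exact Submodule.smul_mem _ _ (Submodule.sum_mem _ fun j _ =>
      Submodule.smul_mem _ _ (Submodule.subset_span ⟨j, rfl⟩))
  obtain ⟨b, hb⟩ : ∃ b : Basis (Fin r) ℝ (EuclideanSpace ℝ (Fin r)), ∀ j, b j = w (f j) • v (f j) :=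
    ⟨basisOfLinearIndependentOfCardEqFinrank' _ hli (by simp), fun j => Basis.mk_apply _ _ _⟩
  have hrep : ∀ i j, w i * b.repr (v i) j = c' i j := fun i j => by
    have h1 := c3 i (mem_univ _)
    simp only [← hb] at h1
    have h2 := congrArg (fun x => b.repr x j) h1
    simpa [Finsupp.single_apply] using h2
  have hself : ∀ l j, w (f l) * b.repr (v (f l)) j = if j = l then 1 else 0 := fun l j => by
    have h2 := congrArg (fun x => b.repr x j) (hb l)
    simp only [Basis.repr_self, map_smul, Finsupp.coe_smul, Pi.smul_apply, smul_eq_mul] at h2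
    rw [← h2, Finsupp.single_apply]
    simp only [eq_comm]
  by_cases hf : ∀ l, f l ∈ T
  swap
  · left
    push Not at hf
    obtain ⟨l, hl⟩ := hf
    refine degenerate1 hd hn v hv (δ • b.coord l) (f l) ?_ hY (le_trans ?_ hY1)
    · have := hself l l
      rw [hw, if_neg hl, if_pos rfl] at this
      simpa using this
    · rw [← sum_add_sum_compl T]
      refine add_le_add ((sum_le_card_nsmul _ _ (δ ^ 2) fun i hi => ?_).trans ?_)
        ((sum_le_card_nsmul _ _ 1 fun i hi => ?_).trans (by simpa using hTc))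
      · have := hrep i l
        rw [hw, if_pos hi, one_mul] at this
        simp only [LinearMap.smul_apply, Basis.coord_apply, smul_eq_mul, this, mul_pow]
        exact mul_le_of_le_one_right (sq_nonneg _) ((sq_le_one_iff_abs_le_one _).2 (c2 i l))
      · rw [nsmul_eq_mul, mul_comm]
        refine mul_le_mul_of_nonneg_left ?_ (sq_nonneg _)
        exact_mod_cast (card_le_univ T).trans (by simp)
      · have := hrep i l
        rw [hw, if_neg (mem_compl.1 hi)] at this
        simp only [LinearMap.smul_apply, Basis.coord_apply, smul_eq_mul, this]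
        exact (sq_le_one_iff_abs_le_one _).2 (c2 i l)
  right
  obtain ⟨a, ha⟩ : ∃ a : Fin n → Fin r → ℝ, ∀ i j, a i j = b.repr (v i) j := ⟨_, fun _ _ => rfl⟩
  simp only [← ha] at hrep hself
  have hbu : ∀ l, b l = v (f l) := fun l => by rw [hb, hw, if_pos (hf l), one_smul]
  have haT : ∀ i ∈ T, ∀ j, a i j = c' i j := fun i hi j => by
    rw [← hrep, hw, if_pos hi, one_mul]
  have ha1 : ∀ i j, |a i j| ≤ 1 / δ := fun i j => by
    have h1 := c2 i j
    rw [← hrep, abs_mul, abs_of_pos (hδ0.trans_le (hw0 i))] at h1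
    rw [le_div_iff₀ hδ0]
    nlinarith [mul_le_mul_of_nonneg_right (hw0 i) (abs_nonneg (a i j))]
  have hav : ∀ i, v i = ∑ l, a i l • b l := fun i => by simp only [ha, b.sum_repr]
  have hclose : ∀ i i', lab i = lab i' → ∀ j, |a i j - a i' j| ≤ ν := fun i i' hii j => by
    have h1 : ∀ i, a i j = ∑ m, c1 i m * a (f1 m) j := fun i => by
      have := congrArg (fun x => b.repr x j) (c13 i (mem_univ _))
      simpa [ha] using this
    rw [h1 i, h1 i', ← sum_sub_distrib]
    refine (abs_sum_le_sum_abs _ _).trans ((sum_le_card_nsmul _ _ (η * (1 / δ)) fun m _ => ?_).trans ?_)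
    · rw [← sub_mul, abs_mul]
      refine mul_le_mul (abs_sub_le_of_floor_eq hη0 ?_) (ha1 _ _) (abs_nonneg _) hη0.le
      rw [← hlab, ← hlab, hii]
    · simp only [card_univ, Fintype.card_fin, nsmul_eq_mul]
      have : (r1 : ℝ) ≤ r := by exact_mod_cast hr1
      refine (mul_le_mul_of_nonneg_right this (by positivity)).trans (le_of_eq ?_)
      rw [hη]; field_simp
  have hself' : ∀ l j, a (f l) j = if j = l then 1 else 0 := fun l j => by
    rw [← hself, hw, if_pos (hf l), one_mul]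
  have hcard : ∀ l, 2 * k ≤ (univ.filter fun i' => lab i' = lab (f l)).card := fun l => by
    have := hf l
    rw [hT] at this
    exact (mem_filter.1 this).2
  obtain ⟨J, hJ⟩ : ∃ J : Fin r × Fin (2 * k) → Fin n, ∀ l i,
    J (l, i) = orderEmbOfCardLe _ (hcard l) i := ⟨fun z => orderEmbOfCardLe _ (hcard z.1) z.2,
      fun _ _ => rfl⟩
  have hJl : ∀ l i, lab (J (l, i)) = lab (f l) := fun l i => by
    rw [hJ]; exact (mem_filter.1 (orderEmbOfCardLe_mem _ (hcard l) i)).2
  refine block_lower hd v hv b a hav J ?_ (ν := ν) (fun l i j => ?_) ?_ (fun i => ?_)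
    (by positivity) hε0 hε hk hR hc h (det_bound a T _ hB ha1 hTc ?_)
  · rintro ⟨l, i⟩ ⟨l', i'⟩ e
    have h1 : l = l' := by
      by_contra hne
      have := hclose (f l) (f l') (by rw [← hJl l i, ← hJl l' i', e]) l
      rw [hself', hself', if_pos rfl, if_neg hne] at this
      norm_num at this
      linarith
    subst h1
    rw [hJ, hJ] at e
    rw [(orderEmbOfCardLe _ (hcard l)).injective e]
  · rw [← hself']; exact hclose _ _ (hJl l i) j
  · rw [hν]; push_cast; apply le_of_eq; field_simp; norm_num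
  · refine (sum_le_card_nsmul _ _ ((1 / δ) ^ 2) fun l _ => ?_).trans (le_of_eq ?_)
    · rw [← sq_abs]; exact pow_le_pow_left₀ (abs_nonneg _) (ha1 i l) 2
    · simp [div_eq_mul_inv]
  · refine hH n b a T (fun l => by rw [hbu, hv]) (fun i _ => by rw [← hav, hv])
      (fun i hi l => by rw [haT i hi]; exact c2 i l) fun h hh => ?_
    refine le_trans (le_of_eq ?_) (c4 h)
    congr 3
    funext l j
    exact haT _ (hh j) l

end Pool.Agent.Lib.MP_3b7d13_co
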