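import Pool.Agent.Lib.MP_3b7d13_co.Kernel

/-! A sharp lower bound for Gaussian averages of Rademacher sums. -/

namespace Pool.Agent.Lib.MP_3b7d13_co

open Finset Real MeasureTheory

/-- the standard Gaussian density -/
noncomputable def gam (z : ℝ) : ℝ := exp (-(1 / 2) * z ^ 2) / √(2 * π)

lemma gam_pos (z : ℝ) : 0 < gam z := by unfold gam; have := pi_pos; positivity
lemma gam_cont : Continuous gam := by unfold gam; fun_prop
lemma gam_int : Integrable gam := (integrable_exp_neg_mul_sq (by norm_num)).div_const _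

lemma gam_exp {c : ℝ} (hc : 0 ≤ c) : ∫ z, gam z * exp (-(c / 2 * z ^ 2)) = 1 / √(1 + c) := by
  have e : ∀ z, gam z * exp (-(c / 2 * z ^ 2)) = exp (-((1 + c) / 2) * z ^ 2) / √(2 * π) := fun z => by
    unfold gam
    rw [div_mul_eq_mul_div, ← exp_add]; congr 2; ring
  simp only [e]
  rw [integral_div, integral_gaussian, ← sqrt_div' _ (by positivity), one_div, ← sqrt_inv]
  congr 1
  have := pi_pos
  field_simp

lemma gam_one : ∫ z, gam z = 1 := by simpa using gam_exp le_rfl

lemma gam_cos (x : ℝ) : ∫ z, gam z * cos (x * z) = exp (-(x ^ 2 / 2)) := by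
  have h := fourierIntegral_gaussian (b := 1 / 2) (by norm_num) x
  have hi : Integrable fun z : ℝ => Complex.exp (Complex.I * x * z) * Complex.exp (-(1 / 2) * z ^ 2) := by
    have := integrable_cexp_quadratic (b := 1 / 2) (by norm_num) (Complex.I * x) 0
    refine this.congr (Filter.Eventually.of_forall fun z => ?_)
    simp only [← Complex.exp_add]; congr 1; ring
  have h2 := congrArg Complex.re h
  rw [← Complex.reCLM_apply, ← Complex.reCLM.integral_comp_comm hi] at h2
  have e1 : ∀ z : ℝ, Complex.reCLM (Complex.exp (Complex.I * x * z) * Complex.exp (-(1 / 2) * z ^ 2)) =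
      exp (-(1 / 2) * z ^ 2) * cos (x * z) := fun z => by
    have : Complex.exp (-(1 / 2) * (z : ℂ) ^ 2) = (exp (-(1 / 2) * z ^ 2) : ℝ) := by push_cast; rfl
    rw [this, Complex.reCLM_apply, Complex.re_mul_ofReal, mul_comm,
      show Complex.I * x * z = (x * z : ℝ) * Complex.I by push_cast; ring,
      Complex.exp_ofReal_mul_I_re]
  have e2 : ((π : ℂ) / (1 / 2)) ^ (1 / 2 : ℂ) * Complex.exp (-(x : ℂ) ^ 2 / (4 * (1 / 2))) =
      (√(2 * π) * exp (-(x ^ 2 / 2)) : ℝ) := by
    rw [sqrt_eq_rpow, Complex.ofReal_mul, Complex.ofReal_cpow (by positivity)]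
    push_cast
    congr 2 <;> ring
  simp only [e1] at h2
  rw [e2, Complex.ofReal_re] at h2
  have e3 : ∀ z, gam z * cos (x * z) = exp (-(1 / 2) * z ^ 2) * cos (x * z) / √(2 * π) := fun z => by
    unfold gam; ring
  simp only [e3]
  rw [integral_div, h2]
  have : 0 < √(2 * π) := by have := pi_pos; positivity
  field_simp

lemma trunc {R : ℝ} (hR : 0 ≤ R) {h : ℝ → ℝ} (hc : Continuous h) (h1 : ∀ z, |h z| ≤ 1) :
    |(∫ z, gam z * h z) - ∫ z in Set.Icc (-R) R, gam z * h z| ≤ exp (-(R ^ 2 / 4)) * 2 ∧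
      |∫ z in Set.Icc (-R) R, gam z * h z| ≤ 1 := by
  have hi : Integrable fun z => gam z * h z :=
    gam_int.mul_bdd hc.aestronglyMeasurable (Filter.Eventually.of_forall h1)
  have hb : ∀ z, ‖gam z * h z‖ ≤ gam z := fun z => by
    rw [norm_mul, Real.norm_eq_abs, abs_of_pos (gam_pos z)]
    exact mul_le_of_le_one_right (gam_pos z).le (h1 z)
  constructor
  · rw [← integral_add_compl (measurableSet_Icc (a := -R) (b := R)) hi, add_sub_cancel_left]
    have hi2 : Integrable fun z : ℝ => exp (-(R ^ 2 / 4)) * (exp (-(1 / 4) * z ^ 2) / √(2 * π)) :=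
      ((integrable_exp_neg_mul_sq (by norm_num)).div_const _).const_mul _
    rw [← Real.norm_eq_abs]
    refine (norm_integral_le_of_norm_le hi2.integrableOn ?_).trans
      ((setIntegral_le_integral hi2 (Filter.Eventually.of_forall fun z => by positivity)).trans ?_)
    · filter_upwards [ae_restrict_mem measurableSet_Icc.compl] with z hz
      refine (hb z).trans ?_
      unfold gam
      rw [← mul_div_assoc, ← exp_add]
      refine div_le_div_of_nonneg_right (exp_le_exp.2 ?_) (sqrt_nonneg _)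
      have : R ^ 2 ≤ z ^ 2 := by
        rw [Set.mem_compl_iff, Set.mem_Icc, ← abs_le, not_le] at hz
        rw [← sq_abs z]; exact pow_le_pow_left₀ hR hz.le 2
      linarith
    · rw [integral_const_mul, integral_div, integral_gaussian, ← sqrt_div' _ (by positivity)]
      refine mul_le_mul_of_nonneg_left (sqrt_le_iff.2 ⟨by norm_num, ?_⟩) (exp_pos _).le
      have := pi_pos
      rw [div_le_iff₀ (by positivity)]
      linarith
  · rw [← Real.norm_eq_abs]
    refine (norm_integral_le_of_norm_le gam_int.integrableOn (Filter.Eventually.of_forall hb)).trans ?_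
    rw [← gam_one]
    exact setIntegral_le_integral gam_int (Filter.Eventually.of_forall fun z => (gam_pos z).le)

lemma prod_sub_prod {ι : Type*} (s : Finset ι) (a b : ι → ℝ) {K : ℝ} (hK : 0 ≤ K)
    (ha : ∀ i, |a i| ≤ K) (hb : ∀ i, |b i| ≤ K) :
    K * |∏ i ∈ s, a i - ∏ i ∈ s, b i| ≤ K ^ s.card * ∑ i ∈ s, |a i - b i| := by
  classical
  induction s using Finset.induction_on with
  | empty => simp
  | insert j s hj ih =>
    rw [prod_insert hj, prod_insert hj, sum_insert hj, card_insert_of_notMem hj, pow_succ]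
    have h1 : |∏ i ∈ s, b i| ≤ K ^ s.card := by
      rw [abs_prod]
      exact (prod_le_prod (fun _ _ => abs_nonneg _) fun i _ => hb i).trans (by simp)
    have h2 : |a j * ∏ i ∈ s, a i - b j * ∏ i ∈ s, b i| ≤
        K * |∏ i ∈ s, a i - ∏ i ∈ s, b i| + |a j - b j| * K ^ s.card := by
      have : a j * ∏ i ∈ s, a i - b j * ∏ i ∈ s, b i =
          a j * (∏ i ∈ s, a i - ∏ i ∈ s, b i) + (a j - b j) * ∏ i ∈ s, b i := by ring
      rw [this]
      refine (abs_add_le _ _).trans (add_le_add ?_ ?_)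
      · rw [abs_mul]; exact mul_le_mul_of_nonneg_right (ha j) (abs_nonneg _)
      · rw [abs_mul]; exact mul_le_mul_of_nonneg_left h1 (abs_nonneg _)
    have h3 := mul_le_mul_of_nonneg_left (h2.trans (add_le_add_left ih _)) hK
    linarith

lemma prod_sub_prod_one {d : ℕ} (a b : Fin d → ℝ) {t : ℝ} (ha : ∀ i, |a i| ≤ 1) (hb : ∀ i, |b i| ≤ 1)
    (h : ∀ i, |a i - b i| ≤ t) : ∏ i, b i - d * t ≤ ∏ i, a i := by
  have h1 := prod_sub_prod univ a b zero_le_one ha hb
  have h2 : ∑ i, |a i - b i| ≤ d * t := (sum_le_card_nsmul _ _ t fun i _ => h i).trans (by simp)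
  rw [one_mul, one_pow, one_mul] at h1
  linarith [neg_abs_le (∏ i, a i - ∏ i, b i)]

lemma exp_le_cos {x ε : ℝ} (hε : ε ≤ 1) (hx : x ^ 2 ≤ ε) : exp (-((1 + ε) / 2 * x ^ 2)) ≤ cos x := by
  refine le_trans ?_ one_sub_sq_div_two_le_cos
  have h0 := sq_nonneg x
  rw [exp_neg, inv_le_iff_one_le_mul₀ (exp_pos _)]
  have h1 := add_one_le_exp ((1 + ε) / 2 * x ^ 2)
  have h2 := mul_le_mul_of_nonneg_left h1 (by linarith : 0 ≤ 1 - x ^ 2 / 2)
  nlinarith [mul_nonneg h0 (by nlinarith : 0 ≤ ε - (1 + ε) / 2 * x ^ 2)]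

lemma integral_cube' {r : ℕ} (R : ℝ) (G : Fin r → ℝ → ℝ) :
    ∫ t in Set.Icc (fun _ : Fin r => -R) (fun _ => R), ∏ j, G j (t j) =
      ∏ j, ∫ s in Set.Icc (-R) R, G j s := by
  rw [← Set.pi_univ_Icc, volume_pi, Measure.restrict_pi_pi, integral_fintype_prod_eq_prod]

lemma gauss_diag {n d : ℕ} (a : Fin n → Fin d → ℝ) (μ : Fin d → ℝ)
    (hμ : ∀ l l', ∑ i, a i l * a i l' = if l = l' then μ l else 0) {A b ε R : ℝ}
    (hA : ∀ i, ∑ l, a i l ^ 2 ≤ A) (hε0 : 0 ≤ ε) (hε : ε ≤ 1) (hR : 0 ≤ R)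
    (h : b ^ 2 * (d * A * R ^ 2) ≤ ε) :
    2 ^ n * (1 / √(∏ l, (1 + (1 + ε) * b ^ 2 * μ l)) - 2 * (d * (exp (-(R ^ 2 / 4)) * 2))) ≤
      ∑ η : Fin n → Bool, exp (-(b ^ 2 / 2 * ∑ l, SS (fun i => a i l) η ^ 2)) := by
  have hg := gam_cont
  have hμ0 : ∀ l, 0 ≤ μ l := fun l => by
    have := hμ l l
    rw [if_pos rfl] at this
    rw [← this]; exact sum_nonneg fun i _ => mul_self_nonneg _
  have h1 : ∀ η : Fin n → Bool, (∫ t in Set.Icc (fun _ : Fin d => -R) (fun _ => R),
      ∏ l, (gam (t l) * cos (b * SS (fun i => a i l) η * t l))) - d * (exp (-(R ^ 2 / 4)) * 2) ≤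
      exp (-(b ^ 2 / 2 * ∑ l, SS (fun i => a i l) η ^ 2)) := fun η => by
    rw [integral_cube' R fun l s => gam s * cos (b * SS (fun i => a i l) η * s)]
    have e : exp (-(b ^ 2 / 2 * ∑ l, SS (fun i => a i l) η ^ 2)) =
        ∏ l, exp (-((b * SS (fun i => a i l) η) ^ 2 / 2)) := by
      rw [← exp_sum, mul_sum, ← sum_neg_distrib]
      congr 1
      exact sum_congr rfl fun l _ => by ring
    rw [e]
    refine prod_sub_prod_one _ _ (fun l => ?_) (fun l => ?_) fun l => ?_
    · rw [abs_of_pos (exp_pos _), exp_le_one_iff, neg_nonpos]; positivity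
    · exact (trunc hR (by fun_prop) fun z => abs_cos_le_one _).2
    · rw [← gam_cos]
      exact (trunc hR (by fun_prop) fun z => abs_cos_le_one _).1
  refine le_trans ?_ (sum_le_sum fun η _ => h1 η)
  rw [sum_sub_distrib, ← integral_finsetSum _ fun η _ =>
    (by fun_prop : Continuous _).integrableOn_Icc]
  have h2 : ∀ t ∈ Set.Icc (fun _ : Fin d => -R) (fun _ => R),
      2 ^ n * ∏ l, (gam (t l) * exp (-((1 + ε) * b ^ 2 * μ l / 2 * t l ^ 2))) ≤
      ∑ η : Fin n → Bool, ∏ l, (gam (t l) * cos (b * SS (fun i => a i l) η * t l)) := fun t ht => by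
    simp only [prod_mul_distrib, ← mul_sum]
    rw [mul_left_comm]
    refine mul_le_mul_of_nonneg_left ?_ (prod_nonneg fun l _ => (gam_pos _).le)
    have e1 : 2 ^ d * ∑ η : Fin n → Bool, ∏ l, cos (b * SS (fun i => a i l) η * t l) =
        2 ^ n * ∑ s : Fin d → Bool, ∏ i, cos (SS (fun l => b * a i l * t l) s) := by
      rw [mul_sum, mul_sum]
      simp only [← sum_cos_SS']
      rw [sum_comm]
      refine sum_congr rfl fun s _ => sum_congr rfl fun ε _ => ?_
      congr 1
      simp only [SS, mul_sum, sum_mul]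
      rw [sum_comm]
      exact sum_congr rfl fun i _ => sum_congr rfl fun j _ => by ring
    have e2 : ∀ s : Fin d → Bool, ∏ l, exp (-((1 + ε) * b ^ 2 * μ l / 2 * t l ^ 2)) ≤
        ∏ i, cos (SS (fun l => b * a i l * t l) s) := fun s => by
      have e3 : ∑ i, SS (fun l => b * a i l * t l) s ^ 2 = ∑ l, b ^ 2 * μ l * t l ^ 2 := by
        simp only [SS, sq, sum_mul_sum]
        rw [sum_comm]
        refine sum_congr rfl fun l _ => ?_
        rw [sum_comm]
        have : ∀ l', ∑ i, sgn (s l) * (b * a i l * t l) * (sgn (s l') * (b * a i l' * t l')) =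
            if l = l' then b * b * μ l * (t l * t l) else 0 := fun l' => by
          have : ∑ i, sgn (s l) * (b * a i l * t l) * (sgn (s l') * (b * a i l' * t l')) =
              sgn (s l) * sgn (s l') * (b * b) * (t l * t l') * ∑ i, a i l * a i l' := by
            rw [mul_sum]; exact sum_congr rfl fun i _ => by ring
          rw [this, hμ]
          split_ifs with hl
          · subst hl
            linear_combination (b * b * μ l * (t l * t l)) * sgn_sq (s l)
          · simp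
        simp only [this, sum_ite_eq, mem_univ, if_true]
      have e4 : ∏ l, exp (-((1 + ε) * b ^ 2 * μ l / 2 * t l ^ 2)) =
          ∏ i, exp (-((1 + ε) / 2 * SS (fun l => b * a i l * t l) s ^ 2)) := by
        rw [← exp_sum, ← exp_sum, sum_neg_distrib, sum_neg_distrib, ← mul_sum, e3, mul_sum]
        congr 2
        exact sum_congr rfl fun l _ => by ring
      rw [e4]
      refine prod_le_prod (fun _ _ => (exp_pos _).le) fun i _ => exp_le_cos hε (le_trans ?_ h)
      unfold SS
      refine sq_sum_le_card_mul_sum_sq.trans ?_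
      have e5 : ∑ l, (sgn (s l) * (b * a i l * t l)) ^ 2 ≤ b ^ 2 * R ^ 2 * A := by
        refine le_trans (sum_le_sum fun l _ => ?_)
          (le_trans (le_of_eq (mul_sum _ _ _).symm) (mul_le_mul_of_nonneg_left (hA i) (by positivity)))
        have := sq_le_sq' (ht.1 l) (ht.2 l)
        rw [mul_pow, sgn_sq, one_mul, mul_pow, mul_pow]
        nlinarith [mul_le_mul_of_nonneg_left this (mul_nonneg (sq_nonneg b) (sq_nonneg (a i l)))]
      simp only [card_univ, Fintype.card_fin]
      nlinarith [mul_le_mul_of_nonneg_left e5 (Nat.cast_nonneg d : (0 : ℝ) ≤ d)]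
    have e6 : 2 ^ d * ∏ l, exp (-((1 + ε) * b ^ 2 * μ l / 2 * t l ^ 2)) ≤
        ∑ s : Fin d → Bool, ∏ i, cos (SS (fun l => b * a i l * t l) s) :=
      le_trans (by simp) (card_nsmul_le_sum univ _ _ fun s _ => e2 s)
    apply le_of_mul_le_mul_left _ (by positivity : (0 : ℝ) < 2 ^ d)
    rw [e1, mul_left_comm]
    exact mul_le_mul_of_nonneg_left e6 (by positivity)
  have h3 := setIntegral_mono_on (μ := volume) ((by fun_prop : Continuous _).integrableOn_Icc)
    ((by fun_prop : Continuous _).integrableOn_Icc) measurableSet_Icc h2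
  rw [integral_const_mul,
    integral_cube' R fun l s => gam s * exp (-((1 + ε) * b ^ 2 * μ l / 2 * s ^ 2))] at h3
  have hc : ∀ l, 0 ≤ (1 + ε) * b ^ 2 * μ l := fun l => by have := hμ0 l; positivity
  have hb1 : ∀ l (z : ℝ), |exp (-((1 + ε) * b ^ 2 * μ l / 2 * z ^ 2))| ≤ 1 := fun l z => by
    rw [abs_of_pos (exp_pos _), exp_le_one_iff, neg_nonpos]; have := hc l; positivity
  have h4 := prod_sub_prod_one
    (fun l => ∫ s in Set.Icc (-R) R, gam s * exp (-((1 + ε) * b ^ 2 * μ l / 2 * s ^ 2)))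
    (fun l => 1 / √(1 + (1 + ε) * b ^ 2 * μ l)) (t := exp (-(R ^ 2 / 4)) * 2)
    (fun l => (trunc hR (by fun_prop) (hb1 l)).2)
    (fun l => by
      have : 1 ≤ √(1 + (1 + ε) * b ^ 2 * μ l) := one_le_sqrt.2 (by linarith [hc l])
      rw [abs_of_pos (by positivity), div_le_one (by positivity)]; exact this)
    (fun l => by
      rw [abs_sub_comm, ← gam_exp (hc l)]
      exact (trunc hR (by fun_prop) (hb1 l)).1)
  rw [prod_div_distrib, prod_const_one, ← sqrt_prod _ fun l _ => by linarith [hc l]] at h4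
  have h5 := mul_le_mul_of_nonneg_left h4 (by positivity : (0 : ℝ) ≤ 2 ^ n)
  simp only [sum_const, card_univ, Fintype.card_fun, Fintype.card_bool, Fintype.card_fin,
    nsmul_eq_mul, Nat.cast_pow, Nat.cast_ofNat]
  linarith

lemma exists_diag {n d : ℕ} (a : Fin n → Fin d → ℝ) : ∃ (U : Fin d → Fin d → ℝ) (μ : Fin d → ℝ),
    (∀ y : Fin d → ℝ, ∑ l, (∑ j, y j * U j l) ^ 2 = ∑ j, y j ^ 2) ∧
    (∀ l l', ∑ i, (∑ j, a i j * U j l) * (∑ j, a i j * U j l') = if l = l' then μ l else 0) ∧
    ∏ l, μ l = (Matrix.of fun l l' => ∑ i, a i l * a i l').det := by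
  obtain ⟨M, hM⟩ : ∃ M : Matrix (Fin d) (Fin d) ℝ, M = Matrix.of fun l l' => ∑ i, a i l * a i l' :=
    ⟨_, rfl⟩
  have hH : M.IsHermitian := by
    ext l l'
    simp [hM, mul_comm]
  refine ⟨(hH.eigenvectorUnitary : Matrix (Fin d) (Fin d) ℝ), hH.eigenvalues, fun y => ?_,
    fun l l' => ?_, ?_⟩
  · have h1 := Unitary.coe_mul_star_self hH.eigenvectorUnitary
    rw [Unitary.coe_star] at h1
    generalize (hH.eigenvectorUnitary : Matrix (Fin d) (Fin d) ℝ) = U at h1
    have h2 : ∀ j j', ∑ l, U j l * U j' l = if j = j' then 1 else 0 := fun j j' => by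
      have := congrFun (congrFun h1 j) j'
      simpa [Matrix.mul_apply, Matrix.one_apply] using this
    simp only [sq, sum_mul_sum]
    rw [sum_comm]
    refine sum_congr rfl fun j _ => ?_
    rw [sum_comm]
    have : ∀ j', ∑ l, y j * U j l * (y j' * U j' l) = if j = j' then y j * y j' else 0 := fun j' => by
      have : ∑ l, y j * U j l * (y j' * U j' l) = y j * y j' * ∑ l, U j l * U j' l := by
        rw [mul_sum]; exact sum_congr rfl fun _ _ => by ring
      rw [this, h2]; simp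
    simp only [this, sum_ite_eq, mem_univ, if_true]
  · have h1 := hH.conjStarAlgAut_star_eigenvectorUnitary
    rw [Unitary.conjStarAlgAut_star_apply] at h1
    have h2 := congrFun (congrFun h1 l) l'
    generalize (hH.eigenvectorUnitary : Matrix (Fin d) (Fin d) ℝ) = U at h2
    rw [Matrix.diagonal_apply] at h2
    refine Eq.trans ?_ h2
    simp only [Matrix.mul_apply, Matrix.star_apply, star_trivial, hM, Matrix.of_apply, sum_mul, mul_sum]
    rw [sum_comm]
    refine Eq.trans (sum_congr rfl fun j _ => sum_comm) ?_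
    exact sum_congr rfl fun _ _ => sum_congr rfl fun _ _ => sum_congr rfl fun _ _ => by ring
  · rw [← hM, hH.det_eq_prod_eigenvalues]; rfl

theorem gauss_lower {n d : ℕ} (hd : 1 ≤ d) (a : Fin n → Fin d → ℝ) {A b ε R D : ℝ}
    (hA : ∀ i, ∑ l, a i l ^ 2 ≤ A) (hA0 : 0 ≤ A) (hε0 : 0 ≤ ε) (hε : ε ≤ 1) (hR : 0 ≤ R)
    (h : b ^ 2 * (d * A * R ^ 2) ≤ ε) (hD : (Matrix.of fun l l' => ∑ i, a i l * a i l').det ≤ D) :
    2 ^ n * (1 / √(((1 + ε) * b ^ 2) ^ d * D + d * (1 + (1 + ε) * b ^ 2 * (n * A)) ^ (d - 1)) -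
      2 * (d * (exp (-(R ^ 2 / 4)) * 2))) ≤
      ∑ η : Fin n → Bool, exp (-(b ^ 2 / 2 * ∑ l, SS (fun i => a i l) η ^ 2)) := by
  obtain ⟨U, μ, h1, h2, h3⟩ := exists_diag a
  have hg := gauss_diag (fun i l => ∑ j, a i j * U j l) μ h2 (fun i => by rw [h1]; exact hA i)
    hε0 hε hR h
  have e : ∀ η : Fin n → Bool, ∑ l, SS (fun i => ∑ j, a i j * U j l) η ^ 2 =
      ∑ l, SS (fun i => a i l) η ^ 2 := fun η => by
    rw [← h1 fun l => SS (fun i => a i l) η]
    refine sum_congr rfl fun l _ => ?_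
    congr 1
    simp only [SS, mul_sum, sum_mul]
    rw [sum_comm]
    exact sum_congr rfl fun _ _ => sum_congr rfl fun _ _ => by ring
  simp only [e] at hg
  refine le_trans (mul_le_mul_of_nonneg_left (sub_le_sub_right ?_ _) (by positivity)) hg
  obtain ⟨c, hc⟩ : ∃ c, c = (1 + ε) * b ^ 2 := ⟨_, rfl⟩
  rw [← hc]
  have hc0 : 0 ≤ c := by rw [hc]; positivity
  have hμ : ∀ l, 0 ≤ μ l ∧ μ l ≤ n * A := fun l => by
    have := h2 l l
    rw [if_pos rfl] at this
    rw [← this]
    refine ⟨sum_nonneg fun i _ => mul_self_nonneg _,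
      (sum_le_card_nsmul _ _ A fun i _ => ?_).trans (by simp)⟩
    refine le_trans ?_ (hA i)
    rw [← h1, ← sq]
    exact single_le_sum (f := fun l => (∑ j, a i j * U j l) ^ 2) (fun _ _ => sq_nonneg _) (mem_univ l)
  have hp : 0 < ∏ l, (1 + c * μ l) := prod_pos fun l _ => by have := (hμ l).1; positivity
  refine one_div_le_one_div_of_le (sqrt_pos.2 hp) (sqrt_le_sqrt ?_)
  have hK : 0 < 1 + c * (n * A) := by positivity
  have h4 := prod_sub_prod univ (fun l => 1 + c * μ l) (fun l => c * μ l) hK.le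
    (fun l => by
      have := hμ l
      rw [abs_of_nonneg (by nlinarith)]; nlinarith)
    (fun l => by
      have := hμ l
      rw [abs_of_nonneg (by nlinarith)]; nlinarith)
  simp only [add_sub_cancel_right, abs_one, sum_const, card_univ, Fintype.card_fin, nsmul_eq_mul,
    mul_one, prod_mul_distrib, prod_const, h3] at h4
  rw [show (1 + c * (n * A)) ^ d = (1 + c * (n * A)) * (1 + c * (n * A)) ^ (d - 1) by
    rw [← pow_succ']; congr 1; omega, mul_assoc] at h4
  have h5 := (le_abs_self _).trans (le_of_mul_le_mul_left h4 hK)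
  have h6 := mul_le_mul_of_nonneg_left hD (pow_nonneg hc0 d)
  linarith

end Pool.Agent.Lib.MP_3b7d13_co
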