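import Pool.Agent.Lib.MP_3b7d13_co.Hex

/-! Gaussian upper bounds for binomial coefficients and for sums along progressions. -/

namespace Pool.Agent.Lib.MP_3b7d13_co

open Finset Real

lemma choose_gauss' (K j : ℕ) (h : (K + 1) / 2 ≤ j) :
    (K.choose j : ℝ) ≤ K.choose (K / 2) * exp (-(((2 * j - K) ^ 2 - 1) / (2 * (K + 1)))) := by
  induction j, h using Nat.le_induction with
  | base =>
    refine le_trans (Nat.cast_le.2 (Nat.choose_le_middle _ _))
      (le_mul_of_one_le_right (Nat.cast_nonneg _) (one_le_exp (neg_nonneg.2 ?_)))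
    refine div_nonpos_of_nonpos_of_nonneg ?_ (by positivity)
    have h1 : (K : ℝ) ≤ 2 * ((K + 1) / 2 : ℕ) := by exact_mod_cast (by omega : K ≤ 2 * ((K + 1) / 2))
    have h2 : (2 * ((K + 1) / 2 : ℕ) : ℝ) ≤ K + 1 := by
      exact_mod_cast (by omega : 2 * ((K + 1) / 2) ≤ K + 1)
    nlinarith
  | succ j hj ih =>
    rcases lt_or_ge K (j + 1) with h | h
    · rw [Nat.choose_eq_zero_of_lt h]; simp only [Nat.cast_zero]; positivity
    have hh1 : (K : ℝ) ≤ 2 * j := by exact_mod_cast (by omega : K ≤ 2 * j)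
    have h1 : (K.choose (j + 1) : ℝ) * (j + 1) = K.choose j * (K - j) := by
      have := congrArg (Nat.cast : ℕ → ℝ) (Nat.choose_succ_right_eq K j)
      push_cast [show j ≤ K by omega] at this
      exact this
    have h2 := ratio_le_exp (a := (K + 1) / 2) (y := j + 1 - (K + 1) / 2) (by positivity)
      (by linarith)
    have e1 : ((K : ℝ) + 1) / 2 + (j + 1 - (K + 1) / 2) = j + 1 := by ring
    have e2 : ((K : ℝ) + 1) / 2 - (j + 1 - (K + 1) / 2) = K - j := by ring
    rw [e1, e2] at h2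
    have h5 : exp (-(((2 * (j : ℝ) - K) ^ 2 - 1) / (2 * (K + 1)))) *
        exp (-(2 * (j + 1 - (K + 1) / 2) / ((K + 1) / 2))) =
        exp (-(((2 * ((j + 1 : ℕ) : ℝ) - K) ^ 2 - 1) / (2 * (K + 1)))) := by
      rw [← exp_add]; congr 1; push_cast; field_simp; ring
    apply le_of_mul_le_mul_right _ (by positivity : (0 : ℝ) < j + 1)
    rw [h1, ← h5]
    refine (mul_le_mul ih h2 ?_ (by positivity)).trans (le_of_eq (by ring))
    have : (j : ℝ) + 1 ≤ K := by exact_mod_cast h
    linarith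

lemma choose_gauss (K j : ℕ) :
    (K.choose j : ℝ) ≤ K.choose (K / 2) * exp (-(((2 * j - K) ^ 2 - 1) / (2 * (K + 1)))) := by
  rcases le_or_gt ((K + 1) / 2) j with h | h
  · exact choose_gauss' K j h
  · have h1 := choose_gauss' K (K - j) (by omega)
    rw [Nat.choose_symm (by omega), Nat.cast_sub (by omega)] at h1
    convert h1 using 6
    ring

lemma card_level (K : ℕ) (x : ℤ) {b : ℝ} (hb : 0 ≤ b) (hb1 : b * (2 * (K + 1)) ≤ 1) :
    ((univ.filter fun y : Fin K → Bool => 2 * (heads y : ℤ) - K = x).card : ℝ) ≤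
      K.choose (K / 2) * exp b * exp (-(b * (x : ℝ) ^ 2)) := by
  rcases (univ.filter fun y : Fin K → Bool => 2 * (heads y : ℤ) - K = x).eq_empty_or_nonempty with
    h | ⟨y0, h⟩
  · rw [h]; simp only [card_empty, Nat.cast_zero]; positivity
  have h0 := (mem_filter.1 h).2
  have h1 : (univ.filter fun y : Fin K → Bool => 2 * (heads y : ℤ) - K = x) =
      univ.filter fun y => heads y = heads y0 := filter_congr fun y _ => by omega
  have h2 : (x : ℝ) = 2 * heads y0 - K := by rw [← h0]; push_cast; ring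
  rw [h1, card_heads, mul_assoc, ← exp_add]
  rcases eq_or_ne x 0 with h3 | h3
  · refine le_trans (Nat.cast_le.2 (Nat.choose_le_middle _ _))
      (le_mul_of_one_le_right (Nat.cast_nonneg _) (one_le_exp ?_))
    rw [h3]; simpa using hb
  · refine (choose_gauss K _).trans
      (mul_le_mul_of_nonneg_left (exp_le_exp.2 ?_) (Nat.cast_nonneg _))
    have h4 : (1 : ℝ) ≤ (x : ℝ) ^ 2 := by exact_mod_cast (one_le_sq_iff_one_le_abs x).2 (Int.one_le_abs h3)
    rw [← h2, neg_le, le_div_iff₀ (by positivity)]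
    nlinarith [mul_le_mul_of_nonneg_right hb1 (sub_nonneg.2 h4)]

lemma sum_gauss_inj {b : ℝ} (hb : 0 < b) (S : Finset ℤ) (τ : ℤ → ℕ) (h : Set.InjOn τ S) :
    ∑ a ∈ S, exp (-(b * (τ a : ℝ) ^ 2)) ≤ 1 + √(π / b) / 2 := by
  rw [← sum_image (f := fun i : ℕ => exp (-(b * (i : ℝ) ^ 2))) h]
  obtain ⟨N, hN⟩ := exists_nat_subset_range (S.image τ)
  exact (sum_le_sum_of_subset_of_nonneg hN fun _ _ _ => (exp_pos _).le).trans (sum_gauss_le hb N)

lemma gauss_ap {b m : ℝ} (hb : 0 < b) (hm : 0 < m) {e : ℝ} (h0 : 0 ≤ e) (h1 : e ≤ m) (S : Finset ℤ) :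
    ∑ a ∈ S, exp (-(b * (m * a + e) ^ 2)) ≤ 2 + √(π / b) / m := by
  have a1 := sum_gauss_inj (b := b * m ^ 2) (by positivity) (S.filter fun a => 0 ≤ a) Int.toNat
    fun x hx y hy hxy => by
      have := (mem_filter.1 hx).2; have := (mem_filter.1 hy).2; omega
  have a2 := sum_gauss_inj (b := b * m ^ 2) (by positivity) (S.filter fun a => ¬ 0 ≤ a)
    (fun a => (-1 - a).toNat) fun x hx y hy hxy => by
      have := (mem_filter.1 hx).2; have := (mem_filter.1 hy).2
      simp only at hxy; omega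
  have e1 : √(π / (b * m ^ 2)) = √(π / b) / m := by
    rw [← div_div, sqrt_div' _ (sq_nonneg m), sqrt_sq hm.le]
  rw [e1] at a1 a2
  rw [← sum_filter_add_sum_filter_not S fun a => 0 ≤ a]
  refine le_trans (add_le_add (le_trans (sum_le_sum fun a ha => ?_) a1)
    (le_trans (sum_le_sum fun a ha => ?_) a2)) (le_of_eq (by ring))
  · have h2 := (mem_filter.1 ha).2
    have h3 : ((a.toNat : ℕ) : ℝ) = a := by exact_mod_cast Int.toNat_of_nonneg h2
    have h4 : (0 : ℝ) ≤ a := by exact_mod_cast h2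
    rw [h3, mul_assoc, ← mul_pow]
    exact exp_le_exp.2 (neg_le_neg (mul_le_mul_of_nonneg_left
      (pow_le_pow_left₀ (by positivity) (by linarith) 2) hb.le))
  · have h2 : 0 ≤ -1 - a := by have := (mem_filter.1 ha).2; omega
    have h3 : (((-1 - a).toNat : ℕ) : ℝ) = -1 - a := by exact_mod_cast Int.toNat_of_nonneg h2
    have h4 : (0 : ℝ) ≤ -1 - a := by exact_mod_cast h2
    rw [h3, mul_assoc, ← mul_pow, ← neg_sq (m * a + e)]
    exact exp_le_exp.2 (neg_le_neg (mul_le_mul_of_nonneg_left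
      (pow_le_pow_left₀ (by positivity) (by linarith) 2) hb.le))

end Pool.Agent.Lib.MP_3b7d13_co
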