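import Pool.Agent.Lib.MP_3b7d13_co.Binom

/-! The hexagonal configuration. -/

namespace Pool.Agent.Lib.MP_3b7d13_co

open Finset Real Filter Topology

/-- three directions at mutual angle `2π/3` -/
noncomputable def hexv (k : ℕ) : Fin k ⊕ Fin k ⊕ Fin k → EuclideanSpace ℝ (Fin 2)
  | Sum.inl _ => !₂[1, 0]
  | Sum.inr (Sum.inl _) => !₂[-(1 / 2), √3 / 2]
  | Sum.inr (Sum.inr _) => !₂[-(1 / 2), -(√3 / 2)]

lemma hexv_norm (k : ℕ) (i : Fin k ⊕ Fin k ⊕ Fin k) : ‖hexv k i‖ = 1 := by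
  have : ‖hexv k i‖ ^ 2 = 1 := by
    rw [EuclideanSpace.real_norm_sq_eq, Fin.sum_univ_two]
    rcases i with i | i | i <;> simp [hexv, div_pow] <;> norm_num
  exact (pow_eq_one_iff_of_nonneg (norm_nonneg _) two_ne_zero).1 this

lemma hex_card (k : ℕ) {r : ℝ} (hr : r < 2) :
    (univ.filter fun ε : Fin (k + (k + k)) → Bool =>
      ‖∑ i, sgn (ε i) • hexv k ((blk k k k).symm i)‖ ≤ r).card ≤
      ∑ j ∈ range (k + 1), k.choose j ^ 3 := by
  have h1 : ∑ j ∈ range (k + 1), k.choose j ^ 3 = ((range (k + 1)).biUnion fun j =>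
      (univ.filter fun y : Fin k → Bool => heads y = j) ×ˢ
      (univ.filter fun y : Fin k → Bool => heads y = j) ×ˢ
      (univ.filter fun y : Fin k → Bool => heads y = j)).card := by
    rw [card_biUnion]
    · refine sum_congr rfl fun j _ => ?_
      rw [card_product, card_product, card_heads]; ring
    · intro j _ j' _ h
      refine disjoint_left.2 fun z h1 h2 => h ?_
      simp only [mem_product, mem_filter] at h1 h2
      exact h1.1.2.symm.trans h2.1.2
  rw [h1]
  refine card_le_card_of_injOn (fun ε => (fun i => ε (blk k k k (Sum.inl i)),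
    fun i => ε (blk k k k (Sum.inr (Sum.inl i))),
    fun i => ε (blk k k k (Sum.inr (Sum.inr i))))) ?_ ?_
  · intro ε hε
    rw [mem_coe, mem_filter] at hε
    have h2 := hε.2.trans_lt hr
    rw [← sq_lt_sq₀ (norm_nonneg _) (by norm_num), EuclideanSpace.real_norm_sq_eq,
      Fin.sum_univ_two, ← (blk k k k).sum_comp] at h2
    simp only [Equiv.symm_apply_apply, WithLp.ofLp_sum, Finset.sum_apply, WithLp.ofLp_smul,
      Pi.smul_apply, smul_eq_mul, Fintype.sum_sum_type, WithLp.ofLp_add, Pi.add_apply, hexv,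
      Matrix.cons_val_zero, Matrix.cons_val_one, ← sum_mul, sum_sgn] at h2
    have hle := heads_le (fun i => ε (blk k k k (Sum.inl i)))
    simp only [coe_biUnion, Set.mem_iUnion, mem_coe, mem_product, mem_filter, mem_univ, true_and,
      mem_range]
    generalize heads (fun i => ε (blk k k k (Sum.inl i))) = A at h2 hle ⊢
    generalize heads (fun i => ε (blk k k k (Sum.inr (Sum.inl i)))) = B at h2 ⊢
    generalize heads (fun i => ε (blk k k k (Sum.inr (Sum.inr i)))) = E at h2 ⊢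
    have h3 : (√3 : ℝ) ^ 2 = 3 := sq_sqrt (by norm_num)
    have h4 : ((2 * (A : ℤ) - B - E) ^ 2 + 3 * (B - E) ^ 2 : ℤ) < 4 := by
      have : ((2 * (A : ℝ) - B - E) ^ 2 + 3 * (B - E) ^ 2) < 4 := by
        refine lt_of_eq_of_lt ?_ (h2.trans_eq (by norm_num))
        linear_combination (-((B : ℝ) - E) ^ 2) * h3
      exact_mod_cast this
    have h5 : (B : ℤ) - E = 0 := by
      by_contra h
      have a1 : 1 ≤ ((B : ℤ) - E) ^ 2 := by
        rcases lt_or_gt_of_ne h with c | c <;> nlinarith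
      have a2 : 2 * (A : ℤ) - B - E = 0 := by nlinarith
      have a3 : (B : ℤ) - E ≤ 1 := by nlinarith
      have a4 : -1 ≤ (B : ℤ) - E := by nlinarith
      omega
    have h6 : 2 * (A : ℤ) - B - E < 2 := by nlinarith
    have h7 : -2 < 2 * (A : ℤ) - B - E := by nlinarith
    exact ⟨A, by omega, rfl, by omega, by omega⟩
  · intro ε _ ε' _ h
    simp only [Prod.mk.injEq] at h
    funext j
    obtain ⟨i, rfl⟩ := (blk k k k).surjective j
    rcases i with i | i | i
    · exact congrFun h.1 i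
    · exact congrFun h.2.1 i
    · exact congrFun h.2.2 i

lemma sum_gauss_le {b : ℝ} (hb : 0 < b) (N : ℕ) :
    ∑ i ∈ range N, exp (-(b * (i : ℝ) ^ 2)) ≤ 1 + √(π / b) / 2 := by
  rcases N with _ | N
  · simp only [range_zero, sum_empty]; positivity
  rw [sum_range_succ', add_comm]
  simp only [Nat.cast_zero, ne_eq, OfNat.ofNat_ne_zero, not_false_eq_true, zero_pow, mul_zero,
    neg_zero, exp_zero]
  refine add_le_add_right ?_ 1
  have h1 := AntitoneOn.sum_le_integral (x₀ := 0) (a := N) (f := fun x : ℝ => exp (-b * x ^ 2))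
    (fun x hx y _ hxy => exp_le_exp.2 (by
      have := pow_le_pow_left₀ hx.1 hxy 2
      nlinarith))
  simp only [zero_add, neg_mul] at h1
  refine h1.trans ?_
  rw [← integral_gaussian_Ioi, intervalIntegral.integral_of_le (Nat.cast_nonneg N)]
  simp only [neg_mul]
  refine MeasureTheory.setIntegral_mono_set ?_ (Eventually.of_forall fun x => (exp_pos _).le)
    (Set.Ioc_subset_Ioi_self).eventuallyLE
  simpa only [neg_mul] using (integrable_exp_neg_mul_sq hb).integrableOn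

lemma sum_choose_pow (k m : ℕ) (hm : 0 < m) : ∑ j ∈ range (k + 1), (k.choose j : ℝ) ^ m ≤
    (k.choose (k / 2) : ℝ) ^ m * (2 + √(π * (k + 1) / (2 * m))) := by
  obtain ⟨G, hG⟩ : ∃ G : ℕ → ℝ, ∀ j, G j = if (k + 1) / 2 ≤ j then (k.choose j : ℝ) ^ m else 0 :=
    ⟨_, fun _ => rfl⟩
  have h1 : ∑ j ∈ range (k + 1), (k.choose j : ℝ) ^ m ≤ 2 * ∑ j ∈ range (k + 1), G j := by
    rw [two_mul]
    nth_rewrite 2 [← sum_flip]
    rw [← sum_add_distrib]
    refine sum_le_sum fun j hj => ?_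
    have hj' : j ≤ k := Nat.lt_succ_iff.1 (mem_range.1 hj)
    rw [hG, hG, Nat.choose_symm hj']
    have : (0 : ℝ) ≤ (k.choose j : ℝ) ^ m := by positivity
    split_ifs with c1 c2 c2
    · linarith
    · linarith
    · linarith
    · omega
  have h2 : ∑ j ∈ range (k + 1), G j =
      ∑ i ∈ range (k + 1 - (k + 1) / 2), (k.choose ((k + 1) / 2 + i) : ℝ) ^ m := by
    rw [← sum_Ico_eq_sum_range (fun j => (k.choose j : ℝ) ^ m), sum_congr rfl fun j _ => hG j,
      ← sum_filter]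
    congr 1
    ext j
    simp only [mem_filter, mem_range, mem_Ico]
    tauto
  have hm0 : (0 : ℝ) < m := by exact_mod_cast hm
  have h3 := sum_gauss_le (b := 2 * m / (k + 1)) (by positivity) (k + 1 - (k + 1) / 2)
  have h4 : ∑ i ∈ range (k + 1 - (k + 1) / 2), (k.choose ((k + 1) / 2 + i) : ℝ) ^ m ≤
      (k.choose (k / 2) : ℝ) ^ m *
        ∑ i ∈ range (k + 1 - (k + 1) / 2), exp (-(2 * m / (k + 1) * (i : ℝ) ^ 2)) := by
    rw [mul_sum]
    refine sum_le_sum fun i _ => (pow_le_pow_left₀ (Nat.cast_nonneg _) (choose_upper k i) m).trans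
      (le_of_eq ?_)
    rw [mul_pow, ← exp_nat_mul]
    congr 2; ring
  have h5 := mul_le_mul_of_nonneg_left h3 (by positivity : 0 ≤ (k.choose (k / 2) : ℝ) ^ m)
  have e : π / (2 * m / (k + 1)) = π * (k + 1) / (2 * m) := by field_simp
  rw [e] at h5
  rw [h2] at h1
  linarith

/-- sharp upper bound for the middle binomial coefficient -/
lemma mid_sq_le (k : ℕ) : π * ((k.choose (k / 2) : ℝ) / 2 ^ k) ^ 2 * k ≤ 2 := by
  have key : ∀ l : ℕ, π * ((l.centralBinom : ℝ) / 4 ^ l) ^ 2 * (2 * l) ≤ 2 := fun l => by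
    have h := cb_upper l
    have e : ((4 : ℝ) ^ l) ^ 2 = 16 ^ l := by rw [← pow_mul, mul_comm, pow_mul]; norm_num
    rw [div_pow, e, ← mul_div_assoc, div_mul_eq_mul_div, div_le_iff₀ (by positivity)]
    have hl : (0 : ℝ) ≤ l := Nat.cast_nonneg l
    apply le_of_mul_le_mul_right _ (by positivity : (0 : ℝ) < (2 * l + 1) ^ 2)
    have h16 : (0 : ℝ) < 16 ^ l := by positivity
    nlinarith [mul_le_mul_of_nonneg_right h (by positivity : (0 : ℝ) ≤ 2 * l)]
  rcases Nat.even_or_odd' k with ⟨l, rfl | rfl⟩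
  · rw [Nat.mul_div_cancel_left _ (by norm_num : 0 < 2), ← Nat.centralBinom_eq_two_mul_choose,
      pow_mul]
    have := key l
    push_cast
    norm_num at this ⊢
    exact this
  · rw [show (2 * l + 1) / 2 = l by omega]
    have h : (l + 1).centralBinom = 2 * (2 * l + 1).choose l := by
      rw [Nat.centralBinom_eq_two_mul_choose, show 2 * (l + 1) = 2 * l + 1 + 1 by ring,
        Nat.choose_succ_succ', Nat.choose_symm_half]; ring
    have h1 := key (l + 1)
    have e : (((l + 1).centralBinom : ℝ)) / 4 ^ (l + 1) = (2 * l + 1).choose l / 2 ^ (2 * l + 1) := by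
      rw [h, pow_succ 2, pow_mul, pow_succ 4]; push_cast; norm_num; field_simp; ring
    rw [e] at h1
    refine le_trans (mul_le_mul_of_nonneg_left ?_ (by positivity)) h1
    push_cast; linarith

lemma hex_prob (k : ℕ) (hk : 1 ≤ k) {r : ℝ} (hr : r < 2) :
    ((k + (k + k) : ℕ) : ℝ) * prob (fun i => hexv k ((blk k k k).symm i)) r ≤
      6 / π * (√(2 / π) * (2 / √k) + √((1 + 1 / k) / 3)) := by
  have hk0 : (0 : ℝ) < k := by exact_mod_cast hk
  have h1 : ((univ.filter fun ε : Fin (k + (k + k)) → Bool =>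
      ‖∑ i, sgn (ε i) • hexv k ((blk k k k).symm i)‖ ≤ r).card : ℝ) ≤
      ∑ j ∈ range (k + 1), (k.choose j : ℝ) ^ 3 := by exact_mod_cast hex_card k hr
  have h2 := h1.trans (sum_choose_pow k 3 (by norm_num))
  have h3 := mid_sq_le k
  unfold prob
  obtain ⟨p, hp⟩ : ∃ p : ℝ, p = (k.choose (k / 2) : ℝ) / 2 ^ k := ⟨_, rfl⟩
  have hp0 : 0 ≤ p := by rw [hp]; positivity
  rw [← hp] at h3
  have h4 : p ≤ √(2 / π) / √k := by
    rw [← sqrt_div (by positivity)]
    refine le_sqrt_of_sq_le ?_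
    rw [le_div_iff₀ hk0, le_div_iff₀ pi_pos]; linarith
  have h5 : p ^ 2 * k ≤ 2 / π := by rw [le_div_iff₀ pi_pos]; linarith
  have h6 : √(2 / π) / √k * √(π * (k + 1) / (2 * (3 : ℕ))) = √((1 + 1 / k) / 3) := by
    rw [← sqrt_div (by positivity), ← sqrt_mul (by positivity)]
    congr 1; push_cast; field_simp
  calc _ ≤ ((k + (k + k) : ℕ) : ℝ) * ((k.choose (k / 2) : ℝ) ^ 3 *
        (2 + √(π * (k + 1) / (2 * (3 : ℕ)))) / 2 ^ (k + (k + k))) := by gcongr
    _ = 3 * (p ^ 2 * k) * (p * (2 + √(π * (k + 1) / (2 * (3 : ℕ))))) := by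
        rw [hp]; push_cast; field_simp; ring
    _ ≤ 3 * (2 / π) * (√(2 / π) / √k * (2 + √(π * (k + 1) / (2 * (3 : ℕ))))) := by gcongr
    _ = _ := by rw [mul_add (√(2 / π) / √k), h6]; ring

lemma hex_tendsto : Tendsto (fun k : ℕ => 6 / π * (√(2 / π) * (2 / √k) + √((1 + 1 / k) / 3)))
    atTop (𝓝 (2 * √3 / π)) := by
  have h1 : Tendsto (fun k : ℕ => 2 / √(k : ℝ)) atTop (𝓝 0) :=
    tendsto_const_nhds.div_atTop (tendsto_sqrt_atTop.comp tendsto_natCast_atTop_atTop)
  have h2 : Tendsto (fun k : ℕ => 1 / (k : ℝ)) atTop (𝓝 0) := tendsto_one_div_atTop_nhds_zero_nat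
  have h3 := ((h1.const_mul √(2 / π)).add ((h2.const_add 1).div_const 3).sqrt).const_mul (6 / π)
  convert h3 using 2
  have h4 : √((1 + 0) / 3 : ℝ) = √3 / 3 := by
    rw [sqrt_eq_iff_mul_self_eq_of_pos (by positivity)]
    have := mul_self_sqrt (by norm_num : (0 : ℝ) ≤ 3)
    linarith
  rw [h4]; ring

end Pool.Agent.Lib.MP_3b7d13_co
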