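import Pool.Agent.Lib.MP_3b7d13_co.Six
import Pool.Agent.Lib.MP_3b7d13_co.Asym

/-! The sharp mean square bound for determinants in dimension three. -/

namespace Pool.Agent.Lib.MP_3b7d13_co

open Finset

/-- the entries of `v vᵀ` -/
def sq6 (v : Fin 3 → ℝ) : Fin 6 → ℝ := ![v 0 ^ 2, v 1 ^ 2, v 2 ^ 2, v 0 * v 1, v 0 * v 2, v 1 * v 2]

/-- the mixed discriminant of three symmetric matrices, times six -/
def mix (m n o : Fin 6 → ℝ) : ℝ :=
  m 0 * n 1 * o 2 + m 0 * n 2 * o 1 + m 1 * n 0 * o 2 + m 1 * n 2 * o 0 + m 2 * n 0 * o 1 +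
    m 2 * n 1 * o 0 + 2 * (m 3 * n 4 * o 5 + m 3 * n 5 * o 4 + m 4 * n 3 * o 5 + m 4 * n 5 * o 3 +
    m 5 * n 3 * o 4 + m 5 * n 4 * o 3) - 2 * (m 0 * n 5 * o 5 + m 5 * n 0 * o 5 + m 5 * n 5 * o 0) -
    2 * (m 1 * n 4 * o 4 + m 4 * n 1 * o 4 + m 4 * n 4 * o 1) -
    2 * (m 2 * n 3 * o 3 + m 3 * n 2 * o 3 + m 3 * n 3 * o 2)

lemma mix_sq6 (a b c : Fin 3 → ℝ) : mix (sq6 a) (sq6 b) (sq6 c) = d3 a b c ^ 2 := by
  simp only [mix, sq6, d3, Matrix.cons_val_zero, Matrix.cons_val_one, Matrix.cons_val]; ring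

lemma mix_rot (m n o : Fin 6 → ℝ) : mix m n o = mix n o m := by simp only [mix]; ring

lemma mix_sum {ι : Type*} [DecidableEq ι] (S : Finset ι) (w : ι → ℝ) (φ : ι → Fin 6 → ℝ)
    (n o : Fin 6 → ℝ) : mix (∑ i ∈ S, w i • φ i) n o = ∑ i ∈ S, w i * mix (φ i) n o := by
  induction S using Finset.induction_on with
  | empty => simp [mix]
  | insert j s hj ih =>
    rw [sum_insert hj, sum_insert hj, ← ih]
    simp only [mix, Pi.add_apply, Pi.smul_apply, smul_eq_mul]; ring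

lemma mix_link {ι : Type*} [DecidableEq ι] (S : Finset ι) (w : ι → ℝ) (v : ι → Fin 3 → ℝ)
    (a : Fin 3 → ℝ) : mix (sq6 a) (∑ i ∈ S, w i • sq6 (v i)) (∑ i ∈ S, w i • sq6 (v i)) =
      ∑ j ∈ S, ∑ k ∈ S, w j * w k * d3 a (v j) (v k) ^ 2 := by
  rw [mix_rot, mix_sum]
  refine sum_congr rfl fun j _ => ?_
  rw [mix_rot, mix_sum, mul_sum]
  refine sum_congr rfl fun k _ => ?_
  rw [mix_rot, mix_sq6]; ring

lemma mix_all {ι : Type*} [DecidableEq ι] (S : Finset ι) (w : ι → ℝ) (v : ι → Fin 3 → ℝ) :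
    mix (∑ i ∈ S, w i • sq6 (v i)) (∑ i ∈ S, w i • sq6 (v i)) (∑ i ∈ S, w i • sq6 (v i)) =
      ∑ i ∈ S, ∑ j ∈ S, ∑ k ∈ S, w i * w j * w k * d3 (v i) (v j) (v k) ^ 2 := by
  rw [mix_sum]
  refine sum_congr rfl fun i _ => ?_
  rw [mix_link, mul_sum]
  refine sum_congr rfl fun j _ => ?_
  rw [mul_sum]
  exact sum_congr rfl fun k _ => by ring

lemma mix_move (M : Fin 6 → ℝ) (a : Fin 3 → ℝ) (s t : ℝ) :
    mix (s • M + t • sq6 a) (s • M + t • sq6 a) (s • M + t • sq6 a) =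
      s ^ 3 * mix M M M + 3 * s ^ 2 * t * mix (sq6 a) M M := by
  simp only [mix, sq6, Pi.add_apply, Pi.smul_apply, smul_eq_mul, Matrix.cons_val_zero,
    Matrix.cons_val_one, Matrix.cons_val]
  ring

lemma six_simplex (v : Fin 6 → Fin 3 → ℝ) (h : ∀ i j k, d3 (v i) (v j) (v k) ^ 2 ≤ 1)
    (w0 : Fin 6 → ℝ) (hw0 : w0 ∈ stdSimplex ℝ (Fin 6)) :
    mix (∑ i, w0 i • sq6 (v i)) (∑ i, w0 i • sq6 (v i)) (∑ i, w0 i • sq6 (v i)) ≤ 4 / 9 := by
  obtain ⟨w, hw, hmax⟩ := (isCompact_stdSimplex ℝ (Fin 6)).exists_isMaxOn ⟨w0, hw0⟩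
    (f := fun w => mix (∑ i, w i • sq6 (v i)) (∑ i, w i • sq6 (v i)) (∑ i, w i • sq6 (v i)))
    (by simp only [mix_all]; fun_prop)
  refine le_trans (hmax hw0) ?_
  by_cases hc : ∀ i, w i ≤ 3 / 16
  · have := near_uniform v h (fun i => 6 * w i - 1) (fun i => by linarith [hc i]) (by
      rw [sum_sub_distrib, ← mul_sum, hw.2]; simp)
    simp only [mix_all]
    have e : ∑ i, ∑ j, ∑ k, (1 + (6 * w i - 1)) * (1 + (6 * w j - 1)) * (1 + (6 * w k - 1)) *
        d3 (v i) (v j) (v k) ^ 2 =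
        216 * ∑ i, ∑ j, ∑ k, w i * w j * w k * d3 (v i) (v j) (v k) ^ 2 := by
      simp only [mul_sum]
      exact sum_congr rfl fun _ _ => sum_congr rfl fun _ _ => sum_congr rfl fun _ _ => by ring
    linarith
  push Not at hc
  obtain ⟨a, ha⟩ := hc
  obtain ⟨w', hw'⟩ : ∃ w' : Fin 6 → ℝ, ∀ i,
    w' i = 201 / 200 * w i + if i = a then -(1 / 200) else 0 := ⟨_, fun _ => rfl⟩
  have h1 : w' ∈ stdSimplex ℝ (Fin 6) := by
    refine ⟨fun i => ?_, ?_⟩
    · rw [hw']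
      split_ifs with c
      · rw [c]; linarith
      · linarith [hw.1 i]
    · simp only [hw', sum_add_distrib, ← mul_sum, hw.2, sum_ite_eq', mem_univ, if_true]; norm_num
  have h2 : ∑ i, w' i • sq6 (v i) =
      (201 / 200 : ℝ) • ∑ i, w i • sq6 (v i) + (-(1 / 200) : ℝ) • sq6 (v a) := by
    simp only [hw', add_smul, sum_add_distrib, mul_smul, ← smul_sum, ite_smul, zero_smul,
      sum_ite_eq', mem_univ, if_true]
  have h3 := hmax h1
  simp only [Set.mem_ofPred_eq, h2, mix_move] at h3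
  have h4 : mix (sq6 (v a)) (∑ i, w i • sq6 (v i)) (∑ i, w i • sq6 (v i)) ≤ 2 / 3 * (1 - w a) ^ 2 := by
    obtain ⟨f, g, hfg⟩ := d3_proj (v a)
    have b1 := planar_weighted (fun j => f (v j)) (fun j => g (v j)) (univ.erase a) w
      (fun i _ => hw.1 i) fun j k => by rw [← hfg]; exact h _ _ _
    have b2 : ∑ j ∈ univ.erase a, w j = 1 - w a := by
      rw [← hw.2, ← add_sum_erase _ _ (mem_univ a)]; ring
    rw [b2] at b1
    simp only [← hfg] at b1
    rw [mix_link, ← sum_erase (a := a) _ (by simp [d3_12])]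
    refine le_trans (le_of_eq (sum_congr rfl fun j _ => ?_)) b1
    rw [sum_erase _ (by simp [d3_13])]
  have h5 : w a ≤ 1 := by
    rw [← hw.2]; exact single_le_sum (fun i _ => hw.1 i) (mem_univ a)
  have h6 : (1 - w a) ^ 2 ≤ (13 / 16) ^ 2 := pow_le_pow_left₀ (by linarith) (by linarith) 2
  change mix (∑ i, w i • sq6 (v i)) (∑ i, w i • sq6 (v i)) (∑ i, w i • sq6 (v i)) ≤ 4 / 9
  linarith

theorem mean_det {ι : Type*} [DecidableEq ι] (S : Finset ι) (w : ι → ℝ) (v : ι → Fin 3 → ℝ)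
    (hw : ∀ i ∈ S, 0 ≤ w i) (h : ∀ i ∈ S, ∀ j ∈ S, ∀ k ∈ S, d3 (v i) (v j) (v k) ^ 2 ≤ 1) :
    ∑ i ∈ S, ∑ j ∈ S, ∑ k ∈ S, w i * w j * w k * d3 (v i) (v j) (v k) ^ 2 ≤
      4 / 9 * (∑ i ∈ S, w i) ^ 3 := by
  obtain ⟨S', a1, a2, μ, a3, a4, a5⟩ := reduce (fun i => sq6 (v i)) S w hw
  obtain ⟨e⟩ : Nonempty (S' ↪ Fin 6) :=
    Function.Embedding.nonempty_of_card_le (by simpa using a2)
  obtain ⟨v', hv'⟩ : ∃ v' : Fin 6 → Fin 3 → ℝ, v' = Function.extend e (fun i => v i) 0 := ⟨_, rfl⟩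
  obtain ⟨μ', hμ'⟩ : ∃ μ' : Fin 6 → ℝ, μ' = Function.extend e (fun i => μ i) 0 := ⟨_, rfl⟩
  have b1 : ∀ i, v' (e i) = v i := fun i => by rw [hv', e.injective.extend_apply]
  have b2 : ∀ i, μ' (e i) = μ i := fun i => by rw [hμ', e.injective.extend_apply]
  have b3 : ∀ j, j ∉ Set.range e → v' j = 0 := fun j hj => by
    rw [hv', Function.extend_apply' _ _ _ hj]; rfl
  have b4 : ∀ j, j ∉ Set.range e → μ' j = 0 := fun j hj => by
    rw [hμ', Function.extend_apply' _ _ _ hj]; rfl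
  have c1 : ∑ i ∈ S', μ i • sq6 (v i) = ∑ j, μ' j • sq6 (v' j) := by
    rw [← sum_coe_sort S']
    exact Fintype.sum_of_injective e e.injective _ _ (fun j hj => by rw [b4 j hj, zero_smul])
      fun i => by rw [b1, b2]
  have c2 : ∑ i ∈ S', μ i = ∑ j, μ' j := by
    rw [← sum_coe_sort S']
    exact Fintype.sum_of_injective e e.injective _ _ b4 fun i => by rw [b2]
  have c3 : ∀ j, 0 ≤ μ' j := fun j => by
    by_cases hj : j ∈ Set.range e
    · obtain ⟨i, rfl⟩ := hj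
      rw [b2]; exact a3 _ i.2
    · rw [b4 j hj]
  have c4 : ∀ i j k, d3 (v' i) (v' j) (v' k) ^ 2 ≤ 1 := fun i j k => by
    by_cases hi : i ∈ Set.range e
    · by_cases hj : j ∈ Set.range e
      · by_cases hk : k ∈ Set.range e
        · obtain ⟨i, rfl⟩ := hi
          obtain ⟨j, rfl⟩ := hj
          obtain ⟨k, rfl⟩ := hk
          rw [b1, b1, b1]; exact h _ (a1 i.2) _ (a1 j.2) _ (a1 k.2)
        · simp [b3 k hk, d3]
      · simp [b3 j hj, d3]
    · simp [b3 i hi, d3]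
  rw [← mix_all, ← a5, c1]
  have h0 : 0 ≤ ∑ j, μ' j := sum_nonneg fun j _ => c3 j
  refine le_trans ?_ (mul_le_mul_of_nonneg_left (pow_le_pow_left₀ h0 (c2 ▸ a4) 3) (by norm_num))
  rcases h0.eq_or_lt with h1 | h1
  · have : ∀ j, μ' j = 0 := fun j => (sum_eq_zero_iff_of_nonneg fun j _ => c3 j).1 h1.symm j (mem_univ _)
    simp [this, mix]
  · have h2 := six_simplex v' c4 (fun j => μ' j / ∑ j, μ' j)
      ⟨fun j => div_nonneg (c3 j) h0, by rw [← sum_div, div_self h1.ne']⟩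
    rw [mix_all] at h2 ⊢
    refine le_trans (le_of_eq ?_) ((mul_le_mul_of_nonneg_right h2 (pow_nonneg h0 3)))
    simp only [sum_mul]
    exact sum_congr rfl fun _ _ => sum_congr rfl fun _ _ => sum_congr rfl fun _ _ => by
      field_simp

lemma hyp_three : Hyp 3 (4 / 9) := fun n u a T _ _ _ h => by
  have e : ∀ g : Fin 3 → Fin n, (Matrix.of fun l j => a (g j) l).det = d3 (a (g 0)) (a (g 1)) (a (g 2)) :=
    fun g => by rw [Matrix.det_fin_three]; simp only [Matrix.of_apply, d3]; ring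
  have h1 := mean_det T (fun _ => 1) a (fun _ _ => zero_le_one) fun i hi j hj k hk => by
    have := h ![i, j, k] fun l => by fin_cases l <;> assumption
    rw [e] at this
    exact (sq_le_one_iff_abs_le_one _).2 this
  simp only [one_mul, sum_const, nsmul_eq_mul, mul_one] at h1
  refine le_trans (le_of_eq ?_) h1
  simp only [e, ← sum_product']
  exact sum_bij' (fun g _ => (g 0, g 1, g 2)) (fun p _ => ![p.1, p.2.1, p.2.2])
    (fun g hg => by
      have := Fintype.mem_piFinset.1 hg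
      simp [this])
    (fun p hp => by
      simp only [mem_product] at hp
      exact Fintype.mem_piFinset.2 fun l => by fin_cases l <;> simp [hp])
    (fun g _ => by funext l; fin_cases l <;> rfl) (fun p _ => rfl) fun g _ => rfl

end Pool.Agent.Lib.MP_3b7d13_co
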