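import Pool.Agent.Lib.MP_3b7d13_co.Moments

/-! A Fourier minorant and a small ball bound for Rademacher sums of short vectors. -/

namespace Pool.Agent.Lib.MP_3b7d13_co

open Finset Real MeasureTheory

/-- the kernel -/
noncomputable def KK (t : ℝ) : ℝ := ((π - t) * cos t + sin t) / 2

/-- minus its second derivative -/
noncomputable def LL (t : ℝ) : ℝ := ((π - t) * cos t - sin t) / 2

/-- its cosine transform -/
noncomputable def kk (x : ℝ) : ℝ := ∫ t in (0 : ℝ)..π, KK t * cos (x * t)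

lemma KK_cont : Continuous KK := by unfold KK; fun_prop
lemma LL_cont : Continuous LL := by unfold LL; fun_prop

lemma KK_deriv (t : ℝ) : HasDerivAt KK (-((π - t) * sin t) / 2) t := by
  unfold KK
  have h := ((((hasDerivAt_id t).const_sub π).mul (hasDerivAt_cos t)).add (hasDerivAt_sin t)).div_const 2
  refine h.congr_deriv ?_
  simp only [id]; ring

lemma KK_nonneg {t : ℝ} (h0 : 0 ≤ t) (h1 : t ≤ π) : 0 ≤ KK t := by
  have hanti : AntitoneOn KK (Set.Icc 0 π) := by
    refine antitoneOn_of_deriv_nonpos (convex_Icc _ _) KK_cont.continuousOn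
      (fun x _ => (KK_deriv x).differentiableAt.differentiableWithinAt) fun x hx => ?_
    rw [interior_Icc] at hx
    rw [(KK_deriv x).deriv]
    have := mul_nonneg (sub_nonneg.2 hx.2.le) (sin_nonneg_of_nonneg_of_le_pi hx.1.le hx.2.le)
    linarith
  have := hanti ⟨h0, h1⟩ ⟨pi_pos.le, le_rfl⟩ h1
  simpa [KK] using this

lemma KK_ge_half {t : ℝ} (h0 : 0 ≤ t) (h1 : t ≤ 1) : 1 / 2 ≤ KK t := by
  unfold KK
  have h2 := one_sub_sq_div_two_le_cos (x := t)
  have h3 := sin_nonneg_of_nonneg_of_le_pi h0 (by linarith [pi_gt_three])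
  have h4 : 1 / 2 ≤ cos t := by nlinarith
  nlinarith [pi_gt_three]

lemma LL_le_KK {t : ℝ} (h0 : 0 ≤ t) (h1 : t ≤ π) : LL t ≤ KK t := by
  unfold KK LL
  linarith [sin_nonneg_of_nonneg_of_le_pi h0 h1]

lemma kk_formula (x : ℝ) : (1 - x ^ 2) ^ 2 * kk x = 1 + cos (π * x) := by
  unfold kk
  rw [← intervalIntegral.integral_const_mul]
  have h : ∀ t ∈ Set.uIcc (0 : ℝ) π, HasDerivAt (fun t => (1 - x ^ 2) *
      (((π - t) * cos t + sin t) / 2 * (-(x * sin (x * t))) + (π - t) * sin t / 2 * cos (x * t)) -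
      sin t * (x * sin (x * t)) - cos t * cos (x * t))
      ((1 - x ^ 2) ^ 2 * (KK t * cos (x * t))) t := fun t _ => by
    have a := hasDerivAt_cos t
    have b := hasDerivAt_sin t
    have c := ((hasDerivAt_id t).const_mul x).cos
    have d := ((hasDerivAt_id t).const_mul x).sin
    have e := (hasDerivAt_id t).const_sub π
    have h := (((((((e.mul a).add b).div_const 2).mul (d.const_mul x).neg).add
      (((e.mul b).div_const 2).mul c)).const_mul (1 - x ^ 2)).sub (b.mul (d.const_mul x))).sub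
      (a.mul c)
    refine h.congr_deriv ?_
    simp only [id, KK, Pi.mul_apply, Pi.add_apply, Pi.neg_apply]; ring
  rw [intervalIntegral.integral_eq_sub_of_hasDerivAt h
    ((by have := KK_cont; fun_prop : Continuous fun t =>
      (1 - x ^ 2) ^ 2 * (KK t * cos (x * t))).intervalIntegrable _ _)]
  simp [mul_comm x π]
  ring

lemma kk_LL (x : ℝ) : x ^ 2 * kk x = ∫ t in (0 : ℝ)..π, LL t * cos (x * t) := by
  unfold kk
  rw [← intervalIntegral.integral_const_mul, ← sub_eq_zero, ← intervalIntegral.integral_sub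
    ((by have := KK_cont; fun_prop : Continuous fun t =>
      x ^ 2 * (KK t * cos (x * t))).intervalIntegrable _ _)
    ((by have := LL_cont; fun_prop : Continuous fun t =>
      LL t * cos (x * t)).intervalIntegrable _ _)]
  have h : ∀ t ∈ Set.uIcc (0 : ℝ) π, HasDerivAt (fun t =>
      ((π - t) * cos t + sin t) / 2 * (x * sin (x * t)) - (π - t) * sin t / 2 * cos (x * t))
      (x ^ 2 * (KK t * cos (x * t)) - LL t * cos (x * t)) t := fun t _ => by
    have a := hasDerivAt_cos t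
    have b := hasDerivAt_sin t
    have c := ((hasDerivAt_id t).const_mul x).cos
    have d := ((hasDerivAt_id t).const_mul x).sin
    have e := (hasDerivAt_id t).const_sub π
    have h := ((((e.mul a).add b).div_const 2).mul (d.const_mul x)).sub
      (((e.mul b).div_const 2).mul c)
    refine h.congr_deriv ?_
    simp only [id, KK, LL, Pi.mul_apply, Pi.add_apply]; ring
  rw [intervalIntegral.integral_eq_sub_of_hasDerivAt h
    ((by have := KK_cont; have := LL_cont; fun_prop : Continuous fun t =>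
      x ^ 2 * (KK t * cos (x * t)) - LL t * cos (x * t)).intervalIntegrable _ _)]
  simp

lemma kk_one : 0 ≤ kk 1 := by
  unfold kk
  have h : ∀ t ∈ Set.uIcc (0 : ℝ) π, HasDerivAt (fun t =>
      (π - t) * (t + sin t * cos t) / 4 + t ^ 2 / 8 + 3 * sin t ^ 2 / 8)
      (KK t * cos (1 * t)) t := fun t _ => by
    have a := hasDerivAt_cos t
    have b := hasDerivAt_sin t
    have e := (hasDerivAt_id t).const_sub π
    have h := (((e.mul ((hasDerivAt_id t).add (b.mul a))).div_const 4).add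
      (((hasDerivAt_id t).pow 2).div_const 8)).add (((b.pow 2).const_mul 3).div_const 8)
    refine h.congr_deriv ?_
    simp only [id, KK, Pi.mul_apply, Pi.add_apply, one_mul]
    have := sin_sq_add_cos_sq t
    norm_num
    linear_combination (-(π - t) / 4) * this
  rw [intervalIntegral.integral_eq_sub_of_hasDerivAt h
    ((by have := KK_cont; fun_prop : Continuous fun t =>
      KK t * cos (1 * t)).intervalIntegrable _ _)]
  simp
  positivity

lemma kk_nonneg (x : ℝ) : 0 ≤ kk x := by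
  by_cases h : 1 - x ^ 2 = 0
  · have : x = 1 ∨ x = -1 := mul_self_eq_one_iff.1 (by linarith)
    rcases this with rfl | rfl
    · exact kk_one
    · have := kk_one
      unfold kk at this ⊢
      simpa using this
  · have h1 := kk_formula x
    have h2 : 0 < (1 - x ^ 2) ^ 2 := by positivity
    have h3 : 0 ≤ (1 - x ^ 2) ^ 2 * kk x := by rw [h1]; linarith [neg_one_le_cos (π * x)]
    exact (mul_nonneg_iff_of_pos_left h2).1 h3

lemma kk_le (x : ℝ) : kk x ≤ 2 := by
  have h0 := kk_formula 0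
  have : kk x ≤ kk 0 := by
    unfold kk
    refine intervalIntegral.integral_mono_on pi_pos.le
      ((by have := KK_cont; fun_prop : Continuous fun t =>
        KK t * cos (x * t)).intervalIntegrable _ _)
      ((by have := KK_cont; fun_prop : Continuous fun t =>
        KK t * cos (0 * t)).intervalIntegrable _ _) fun t ht => ?_
    rw [zero_mul, cos_zero]
    exact mul_le_mul_of_nonneg_left (cos_le_one _) (KK_nonneg ht.1 ht.2)
  simp at h0
  linarith

lemma sum_cos_SS {m : ℕ} (a : Fin m → ℝ) (θ : ℝ) :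
    ∑ η, cos (θ + SS a η) = 2 ^ m * (cos θ * ∏ i, cos (a i)) := by
  induction m generalizing θ with
  | zero => simp [SS]
  | succ m ih =>
    rw [sum_cons, Fin.prod_univ_succ]
    simp only [SS_cons, sgn_true, sgn_false, ← add_assoc]
    rw [sum_add_distrib, ih, ih, one_mul, neg_one_mul, ← sub_eq_add_neg, cos_add, cos_sub]
    ring

lemma sum_cos_SS' {m : ℕ} (a : Fin m → ℝ) : ∑ η, cos (SS a η) = 2 ^ m * ∏ i, cos (a i) := by
  simpa using sum_cos_SS a 0

lemma one_sub_le_prod_cos {ι : Type*} (s : Finset ι) (u : ι → ℝ) (h : ∀ i, 0 ≤ cos (u i)) :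
    1 - ∑ i ∈ s, u i ^ 2 / 2 ≤ ∏ i ∈ s, cos (u i) := by
  classical
  induction s using Finset.induction_on with
  | empty => simp
  | insert a s ha ih =>
    rw [sum_insert ha, prod_insert ha]
    have h1 := one_sub_sq_div_two_le_cos (x := u a)
    have h2 : ∏ i ∈ s, cos (u i) ≤ 1 := prod_le_one (fun i _ => h i) fun i _ => cos_le_one _
    have h3 : 0 ≤ ∏ i ∈ s, cos (u i) := prod_nonneg fun i _ => h i
    nlinarith [mul_nonneg (sub_nonneg.2 (cos_le_one (u a))) (sub_nonneg.2 h2)]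

lemma integral_cube {r : ℕ} (G : Fin r → ℝ → ℝ) :
    ∫ t in Set.Icc (0 : Fin r → ℝ) (fun _ => π), ∏ j, G j (t j) =
      ∏ j, ∫ s in (0 : ℝ)..π, G j s := by
  rw [← Set.pi_univ_Icc, volume_pi, Measure.restrict_pi_pi, integral_fintype_prod_eq_prod]
  refine prod_congr rfl fun j _ => ?_
  rw [intervalIntegral.integral_of_le pi_pos.le, Pi.zero_apply, integral_Icc_eq_integral_Ioc]

/-- the weight -/
noncomputable def WW {r : ℕ} (ρ : ℝ) (t : Fin r → ℝ) : ℝ :=
  ∏ j, KK (t j) - (∑ i, LL (t i) * ∏ j ∈ univ.erase i, KK (t j)) / ρ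

lemma WW_cont {r : ℕ} (ρ : ℝ) : Continuous (WW (r := r) ρ) := by
  unfold WW
  have := KK_cont
  have := LL_cont
  fun_prop

lemma WW_ge {r : ℕ} {ρ : ℝ} (hρ : 0 < ρ) (hr : 2 * r ≤ ρ) {t : Fin r → ℝ}
    (ht : t ∈ Set.Icc (0 : Fin r → ℝ) (fun _ => π)) : (∏ j, KK (t j)) / 2 ≤ WW ρ t := by
  unfold WW
  have hK : ∀ j, 0 ≤ KK (t j) := fun j => KK_nonneg (ht.1 j) (ht.2 j)
  have h1 : ∑ i, LL (t i) * ∏ j ∈ univ.erase i, KK (t j) ≤ r * ∏ j, KK (t j) := by
    refine (sum_le_card_nsmul _ _ (∏ j, KK (t j)) fun i _ => ?_).trans (by simp)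
    rw [← mul_prod_erase univ _ (mem_univ i)]
    exact mul_le_mul_of_nonneg_right (LL_le_KK (ht.1 i) (ht.2 i)) (prod_nonneg fun j _ => hK j)
  have h2 : 0 ≤ ∏ j, KK (t j) := prod_nonneg fun j _ => hK j
  have h3 : (∑ i, LL (t i) * ∏ j ∈ univ.erase i, KK (t j)) / ρ ≤ (∏ j, KK (t j)) / 2 := by
    rw [div_le_div_iff₀ hρ two_pos]
    nlinarith [mul_le_mul_of_nonneg_left hr h2]
  linarith

lemma integral_WW {r : ℕ} (ρ : ℝ) (x : Fin r → ℝ) :
    ∫ t in Set.Icc (0 : Fin r → ℝ) (fun _ => π), WW ρ t * ∏ j, cos (x j * t j) =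
      (∏ j, kk (x j)) * (1 - (∑ j, x j ^ 2) / ρ) := by
  have hK := KK_cont
  have hL := LL_cont
  have e : ∀ t : Fin r → ℝ, WW ρ t * ∏ j, cos (x j * t j) =
      ∏ j, (KK (t j) * cos (x j * t j)) -
        (∑ i, ∏ j, ((if j = i then LL (t j) else KK (t j)) * cos (x j * t j))) / ρ := fun t => by
    unfold WW
    rw [sub_mul, prod_mul_distrib, div_mul_eq_mul_div, sum_mul]
    congr 2
    refine sum_congr rfl fun i _ => ?_
    rw [prod_mul_distrib, ← mul_prod_erase univ (fun j => if j = i then LL (t j) else KK (t j))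
      (mem_univ i), if_pos rfl]
    congr 2
    exact prod_congr rfl fun j hj => by rw [if_neg (ne_of_mem_erase hj)]
  simp only [e]
  have c1 : ∀ i : Fin r, Continuous fun t : Fin r → ℝ =>
      ∏ j, ((if j = i then LL (t j) else KK (t j)) * cos (x j * t j)) := fun i => by
    refine continuous_finsetProd _ fun j _ => ?_
    split_ifs <;> fun_prop
  rw [integral_sub ((by fun_prop : Continuous _).integrableOn_Icc)
    (((continuous_finsetSum _ fun i _ => c1 i).div_const ρ).integrableOn_Icc), integral_div,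
    integral_finsetSum _ fun i _ => (c1 i).integrableOn_Icc,
    integral_cube (fun j s => KK s * cos (x j * s))]
  have e2 : ∀ i : Fin r, ∫ t in Set.Icc (0 : Fin r → ℝ) (fun _ => π),
      ∏ j, ((if j = i then LL (t j) else KK (t j)) * cos (x j * t j)) =
        x i ^ 2 * ∏ j, kk (x j) := fun i => by
    rw [integral_cube (fun j s => (if j = i then LL s else KK s) * cos (x j * s)),
      ← mul_prod_erase univ _ (mem_univ i), ← mul_prod_erase univ (fun j => kk (x j)) (mem_univ i),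
      ← mul_assoc, kk_LL]
    simp only [if_true]
    congr 1
    exact prod_congr rfl fun j hj => by simp only [if_neg (ne_of_mem_erase hj)]; rfl
  simp only [e2]
  rw [← sum_mul]
  change ∏ j, kk (x j) - _ = _
  ring

theorem small_ball {n r d : ℕ} (hn : 1 ≤ n) (hd : 1 ≤ d) (hr : r ≤ d) (c : Fin n → Fin r → ℝ)
    (hc : ∀ i j, |c i j| ≤ 1) :
    7 / 16 * (1 / 4) ^ d * (1 / √n) ^ d * 2 ^ n ≤ (univ.filter fun ε : Fin n → Bool =>
      ∑ j, SS (fun i => c i j) ε ^ 2 ≤ 8 * (d : ℝ) ^ 3).card := by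
  have hd1 : (1 : ℝ) ≤ d := by exact_mod_cast hd
  have hn1 : (1 : ℝ) ≤ n := by exact_mod_cast hn
  have hr1 : (r : ℝ) ≤ d := by exact_mod_cast hr
  obtain ⟨b, hb⟩ : ∃ b : ℝ, b = 1 / (2 * d) := ⟨_, rfl⟩
  have hb0 : 0 < b := by rw [hb]; positivity
  obtain ⟨τ, hτ⟩ : ∃ τ : ℝ, τ = 1 / √n := ⟨_, rfl⟩
  rw [← hτ]
  have hsq : 1 ≤ √(n : ℝ) := Real.one_le_sqrt.2 hn1
  have hτ0 : 0 < τ := by rw [hτ]; positivity
  have hτ1 : τ ≤ 1 := by rw [hτ]; exact (div_le_one (by positivity)).2 hsq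
  have hτ2 : τ ^ 2 * n = 1 := by
    rw [hτ, div_pow, Real.sq_sqrt (by positivity)]; field_simp
  obtain ⟨Ψ, hΨ⟩ : ∃ Ψ : (Fin r → ℝ) → ℝ, ∀ t, Ψ t =
    ∑ ε : Fin n → Bool, ∏ j, cos (b * SS (fun i => c i j) ε * t j) := ⟨_, fun _ => rfl⟩
  have hΨc : Continuous Ψ := by
    have : Ψ = fun t => ∑ ε : Fin n → Bool, ∏ j, cos (b * SS (fun i => c i j) ε * t j) :=
      funext hΨ
    rw [this]; fun_prop
  have hΨ2 : ∀ t, 2 ^ r * Ψ t =
      2 ^ n * ∑ s : Fin r → Bool, ∏ i, cos (SS (fun j => b * c i j * t j) s) := fun t => by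
    rw [hΨ, mul_sum, mul_sum]
    simp only [← sum_cos_SS']
    rw [sum_comm]
    refine sum_congr rfl fun s _ => sum_congr rfl fun ε _ => ?_
    congr 1
    simp only [SS, mul_sum, sum_mul]
    rw [sum_comm]
    exact sum_congr rfl fun i _ => sum_congr rfl fun j _ => by ring
  have hu : ∀ (t : Fin r → ℝ) (M : ℝ), (∀ j, 0 ≤ t j ∧ t j ≤ M) → 0 ≤ M → ∀ s i,
      |SS (fun j => b * c i j * t j) s| ≤ M / 2 := fun t M ht hM s i => by
    unfold SS
    refine (abs_sum_le_sum_abs _ _).trans ((sum_le_card_nsmul _ _ (b * M) fun j _ => ?_).trans ?_)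
    · have h1 : |sgn (s j)| = 1 := by cases s j <;> simp [sgn]
      rw [abs_mul, h1, one_mul, abs_mul, abs_mul, abs_of_pos hb0, abs_of_nonneg (ht j).1, mul_assoc]
      refine mul_le_mul_of_nonneg_left ?_ hb0.le
      nlinarith [hc i j, (ht j).1, (ht j).2, abs_nonneg (c i j)]
    · simp only [card_univ, Fintype.card_fin, nsmul_eq_mul]
      have : r * b ≤ 1 / 2 := by
        rw [hb, mul_one_div, div_le_div_iff₀ (by positivity) two_pos]; linarith
      nlinarith
  have hcos : ∀ t ∈ Set.Icc (0 : Fin r → ℝ) (fun _ => π), ∀ s i,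
      0 ≤ cos (SS (fun j => b * c i j * t j) s) := fun t ht s i => by
    have := abs_le.1 (hu t π (fun j => ⟨ht.1 j, ht.2 j⟩) pi_pos.le s i)
    exact cos_nonneg_of_mem_Icc ⟨by linarith, by linarith⟩
  have hΨ0 : ∀ t ∈ Set.Icc (0 : Fin r → ℝ) (fun _ => π), 0 ≤ Ψ t := fun t ht => by
    have : 0 ≤ 2 ^ r * Ψ t := by
      rw [hΨ2]
      exact mul_nonneg (by positivity) (sum_nonneg fun s _ => prod_nonneg fun i _ => hcos t ht s i)
    exact (mul_nonneg_iff_of_pos_left (by positivity)).1 this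
  have hsub : Set.Icc (0 : Fin r → ℝ) (fun _ => τ) ⊆ Set.Icc (0 : Fin r → ℝ) (fun _ => π) :=
    Set.Icc_subset_Icc_right fun j => by linarith [pi_gt_three]
  have hΨ1 : ∀ t ∈ Set.Icc (0 : Fin r → ℝ) (fun _ => τ), 7 / 8 * 2 ^ n ≤ Ψ t := fun t ht => by
    have h1 : ∀ s : Fin r → Bool, 7 / 8 ≤ ∏ i, cos (SS (fun j => b * c i j * t j) s) := fun s => by
      refine le_trans ?_ (one_sub_le_prod_cos univ _ (hcos t (hsub ht) s))
      have : ∑ i, SS (fun j => b * c i j * t j) s ^ 2 / 2 ≤ n * (τ ^ 2 / 8) := by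
        refine (sum_le_card_nsmul _ _ (τ ^ 2 / 8) fun i _ => ?_).trans (by simp)
        have := hu t τ (fun j => ⟨ht.1 j, ht.2 j⟩) hτ0.le s i
        have := pow_le_pow_left₀ (abs_nonneg _) this 2
        rw [sq_abs] at this
        linarith
      linarith
    have h2 : 2 ^ r * (7 / 8 : ℝ) ≤ ∑ s : Fin r → Bool, ∏ i, cos (SS (fun j => b * c i j * t j) s) :=
      le_trans (by simp) (card_nsmul_le_sum univ _ _ fun s _ => h1 s)
    have h3 := mul_le_mul_of_nonneg_left h2 (by positivity : (0 : ℝ) ≤ 2 ^ n)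
    rw [← hΨ2] at h3
    have h4 : (0 : ℝ) < 2 ^ r := by positivity
    apply le_of_mul_le_mul_left _ h4
    linarith
  have hWc := WW_cont (r := r) (2 * d)
  have hW0 : ∀ t ∈ Set.Icc (0 : Fin r → ℝ) (fun _ => π), 0 ≤ WW (2 * d) t := fun t ht =>
    le_trans (div_nonneg (prod_nonneg fun j _ => KK_nonneg (ht.1 j) (ht.2 j)) two_pos.le)
      (WW_ge (by positivity) (by linarith) ht)
  have hlow : (1 / 2) ^ r / 2 * (7 / 8 * 2 ^ n) * τ ^ r ≤
      ∫ t in Set.Icc (0 : Fin r → ℝ) (fun _ => π), WW (2 * d) t * Ψ t := by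
    refine le_trans ?_ (setIntegral_mono_set (hWc.mul hΨc).integrableOn_Icc ?_ hsub.eventuallyLE)
    · refine le_trans (le_of_eq ?_) (setIntegral_ge_of_const_le_real
        (c := (1 / 2) ^ r / 2 * (7 / 8 * 2 ^ n)) measurableSet_Icc measure_Icc_lt_top.ne
        (fun t ht => ?_) (hWc.mul hΨc).integrableOn_Icc)
      · rw [Measure.real, volume_Icc_pi_toReal (a := 0) (b := fun _ => τ) (fun j => hτ0.le)]
        simp
      · refine mul_le_mul ?_ (hΨ1 t ht) (by positivity) (hW0 t (hsub ht))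
        refine le_trans ?_ (WW_ge (by positivity) (by linarith) (hsub ht))
        refine div_le_div_of_nonneg_right ?_ two_pos.le
        refine le_trans (by simp) (prod_le_prod (f := fun _ => (1 / 2 : ℝ)) (by simp) fun j _ =>
          KK_ge_half (ht.1 j) ((ht.2 j).trans hτ1))
    · filter_upwards [ae_restrict_mem measurableSet_Icc] with t ht
      exact mul_nonneg (hW0 t ht) (hΨ0 t ht)
  have hup : ∫ t in Set.Icc (0 : Fin r → ℝ) (fun _ => π), WW (2 * d) t * Ψ t ≤
      2 ^ r * (univ.filter fun ε : Fin n → Bool =>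
        ∑ j, SS (fun i => c i j) ε ^ 2 ≤ 8 * (d : ℝ) ^ 3).card := by
    simp only [hΨ, mul_sum]
    rw [integral_finsetSum _ fun ε _ => (by fun_prop : Continuous _).integrableOn_Icc,
      card_filter]
    push_cast
    rw [mul_sum]
    refine sum_le_sum fun ε _ => ?_
    rw [integral_WW (2 * d) (fun j => b * SS (fun i => c i j) ε)]
    have p0 : 0 ≤ ∏ j, kk (b * SS (fun i => c i j) ε) := prod_nonneg fun j _ => kk_nonneg _
    have p1 : ∏ j, kk (b * SS (fun i => c i j) ε) ≤ 2 ^ r :=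
      le_trans (prod_le_prod (fun j _ => kk_nonneg _) fun j _ => kk_le _) (by simp)
    have e : (∑ j, (b * SS (fun i => c i j) ε) ^ 2) / (2 * d) =
        (∑ j, SS (fun i => c i j) ε ^ 2) / (8 * (d : ℝ) ^ 3) := by
      simp only [mul_pow, ← mul_sum]
      rw [hb]; field_simp; ring
    rw [e]
    split_ifs with h
    · have : 0 ≤ (∑ j, SS (fun i => c i j) ε ^ 2) / (8 * (d : ℝ) ^ 3) := by positivity
      nlinarith
    · push Not at h
      have : 1 ≤ (∑ j, SS (fun i => c i j) ε ^ 2) / (8 * (d : ℝ) ^ 3) :=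
        (one_le_div (by positivity)).2 h.le
      nlinarith
  have h5 := hlow.trans hup
  have h6 : (1 / 4 : ℝ) ^ d * τ ^ d ≤ (1 / 4) ^ r * τ ^ r :=
    mul_le_mul (pow_le_pow_of_le_one (by norm_num) (by norm_num) hr)
      (pow_le_pow_of_le_one hτ0.le hτ1 hr) (by positivity) (by positivity)
  have h7 : (0 : ℝ) < 2 ^ r := by positivity
  apply le_of_mul_le_mul_left _ h7
  refine le_trans ?_ h5
  have h8 : (2 : ℝ) ^ r * (1 / 4) ^ r = (1 / 2) ^ r := by rw [← mul_pow]; norm_num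
  calc (2 : ℝ) ^ r * (7 / 16 * (1 / 4) ^ d * τ ^ d * 2 ^ n)
      = 2 ^ r * (7 / 16) * 2 ^ n * ((1 / 4) ^ d * τ ^ d) := by ring
    _ ≤ 2 ^ r * (7 / 16) * 2 ^ n * ((1 / 4) ^ r * τ ^ r) :=
        mul_le_mul_of_nonneg_left h6 (by positivity)
    _ = _ := by rw [← h8]; ring

end Pool.Agent.Lib.MP_3b7d13_co
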