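import Pool.Agent.Lib.MP_3b7d13_co.Core
import Pool.Agent.Lib.MP_3b7d13_co.Angles

/-! The lower bound for an odd number of unit vectors in the plane. -/

namespace Pool.Agent.Lib.MP_3b7d13_co

open Finset Real

/-- positions of the unpaired vector and of the two members of each pair -/
def pos (m : ℕ) : Option (Fin m ⊕ Fin m) → Fin (2 * m + 1)
  | none => ⟨0, by omega⟩
  | some (Sum.inl k) => ⟨2 * k + 2, by omega⟩
  | some (Sum.inr k) => ⟨2 * k + 1, by omega⟩

lemma pos_bij (m : ℕ) : Function.Bijective (pos m) := by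
  rw [Fintype.bijective_iff_injective_and_card]
  refine ⟨?_, by simp; omega⟩
  rintro (_ | a | a) (_ | b | b) h <;> simp only [pos, Fin.mk.injEq] at h <;>
    first | rfl | omega | (congr 2; ext; omega)

/-- number of sign vectors with short sum, for vectors given by their angles -/
noncomputable def cntA (n : ℕ) (θ : ℕ → ℝ) (r : ℝ) : ℕ :=
  (univ.filter fun ε : Fin n → Bool =>
    (∑ i, sgn (ε i) * cos (θ i)) ^ 2 + (∑ i, sgn (ε i) * sin (θ i)) ^ 2 ≤ r ^ 2).card

lemma cntA_lower (m : ℕ) (θ : ℕ → ℝ) (hmono : ∀ i, θ i ≤ θ (i + 1)) (h0 : θ 0 = 0)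
    (hπ : θ (2 * m + 1) = π)
    (hL : ∀ j ≤ m, ∑ k ∈ range j, (2 - 2 * cos (θ (2 * k + 2) - θ (2 * k + 1))) ≤
      ∑ k ∈ range j, (θ (2 * k + 1) - θ (2 * k)) ^ 2)
    (hR : ∀ j ≤ m, ∑ k ∈ Ico j m, (2 - 2 * cos (θ (2 * k + 2) - θ (2 * k + 1))) ≤
      ∑ k ∈ Ico (j + 1) (m + 1), (θ (2 * k + 1) - θ (2 * k)) ^ 2)
    {δ : ℝ} (hδ : 0 < δ) (hδ1 : δ ≤ 1) :
    c0 * √δ * 4 ^ m / (m + 1) ≤ cntA (2 * m + 1) θ (1 + δ) := by
  have hk := key_angles m θ hmono h0 hπ hL hR
  have e : ∀ k : ℕ, 2 - 2 * cos (θ (2 * k + 2) - θ (2 * k + 1)) =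
      (cos (θ (2 * k + 2)) - cos (θ (2 * k + 1))) ^ 2 +
        (sin (θ (2 * k + 2)) - sin (θ (2 * k + 1))) ^ 2 := fun k => by
    rw [cos_sub]
    nlinarith [sin_sq_add_cos_sq (θ (2 * k + 2)), sin_sq_add_cos_sq (θ (2 * k + 1))]
  simp only [e] at hk
  rw [← Fin.sum_univ_eq_sum_range (fun k => (cos (θ (2 * k + 2)) - cos (θ (2 * k + 1))) ^ 2 +
        (sin (θ (2 * k + 2)) - sin (θ (2 * k + 1))) ^ 2),
    ← Fin.sum_univ_eq_sum_range (fun k => (cos (θ (2 * k + 2)) - cos (θ (2 * k + 1))) ^ 2),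
    ← Fin.sum_univ_eq_sum_range (fun k => ((cos (θ (2 * k + 2)) - cos (θ (2 * k + 1))) ^ 2 +
        (sin (θ (2 * k + 2)) - sin (θ (2 * k + 1))) ^ 2) ^ 2)] at hk
  have hc := core (m := m) (fun k => cos (θ (2 * k + 2))) (fun k => sin (θ (2 * k + 2)))
    (fun k => cos (θ (2 * k + 1))) (fun k => sin (θ (2 * k + 1)))
    (fun k => by rw [cos_sq_add_sin_sq]) hk hδ hδ1
  refine hc.trans (le_of_eq ?_)
  congr 1
  symm
  unfold cntA
  have hb : Function.Bijective fun ε : Fin (2 * m + 1) → Bool =>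
      ((ε (pos m none), fun k => ε (pos m (some (Sum.inl k))),
        fun k => ε (pos m (some (Sum.inr k)))) : Bool × (Fin m → Bool) × (Fin m → Bool)) := by
    rw [Fintype.bijective_iff_injective_and_card]
    refine ⟨?_, by simp; ring⟩
    intro ε ε' h
    simp only [Prod.mk.injEq] at h
    funext i
    obtain ⟨o, rfl⟩ := (pos_bij m).2 i
    rcases o with _ | a | a
    · exact h.1
    · exact congrFun h.2.1 a
    · exact congrFun h.2.2 a
  refine card_bijective _ hb fun ε => ?_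
  simp only [mem_filter, mem_univ, true_and]
  rw [← (pos_bij m).sum_comp (fun i => sgn (ε i) * cos (θ i)),
    ← (pos_bij m).sum_comp (fun i => sgn (ε i) * sin (θ i))]
  simp only [Fintype.sum_option, Fintype.sum_sum_type, SS]
  have z0 : ((pos m none : Fin (2 * m + 1)) : ℕ) = 0 := rfl
  have z1 : ∀ k : Fin m, ((pos m (some (Sum.inl k)) : Fin (2 * m + 1)) : ℕ) = 2 * k + 2 :=
    fun _ => rfl
  have z2 : ∀ k : Fin m, ((pos m (some (Sum.inr k)) : Fin (2 * m + 1)) : ℕ) = 2 * k + 1 :=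
    fun _ => rfl
  simp only [z0, z1, z2, h0, cos_zero, sin_zero, mul_one, mul_zero, zero_add, add_assoc]

/-- choice of the optimal starting point of a cyclic sequence of odd period -/
lemma exists_start (m : ℕ) (g : ℕ → ℝ) (hper : ∀ i, g (i + (2 * m + 1)) = g i) :
    ∃ s, (∀ j, ∑ k ∈ range j, g (s + (2 * k + 1)) ≤ ∑ k ∈ range j, g (s + 2 * k)) ∧
      ∀ j ≤ m, ∑ k ∈ Ico j m, g (s + (2 * k + 1)) ≤ ∑ k ∈ Ico (j + 1) (m + 1), g (s + 2 * k) := by
  obtain ⟨W, hW⟩ : ∃ W : ℕ → ℝ, ∀ s, W s = ∑ k ∈ range m, g (s + (2 * k + 1)) := ⟨_, fun _ => rfl⟩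
  have hWper : Function.Periodic W (2 * m + 1) := fun s => by
    rw [hW, hW]
    exact sum_congr rfl fun k _ => by
      rw [show s + (2 * m + 1) + (2 * k + 1) = s + (2 * k + 1) + (2 * m + 1) by ring, hper]
  obtain ⟨s, -, hs⟩ := exists_min_image (range (2 * m + 1)) W ⟨0, by simp⟩
  have hmin : ∀ t, W s ≤ W t := fun t => by
    rw [← hWper.map_mod_nat t]
    exact hs _ (mem_range.2 (Nat.mod_lt _ (by omega)))
  have hstep : ∀ t, W (t + 2) = W t + g t - g (t + 1) := fun t => by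
    have a := sum_range_succ (fun k => g (t + (2 * k + 1))) m
    have b := sum_range_succ' (fun k => g (t + (2 * k + 1))) m
    rw [hper] at a
    rw [hW, hW]
    have c : ∑ k ∈ range m, g (t + 2 + (2 * k + 1)) = ∑ k ∈ range m, g (t + (2 * (k + 1) + 1)) :=
      sum_congr rfl fun k _ => by congr 1; ring
    simp only [mul_zero, zero_add] at b
    linarith
  have hiter : ∀ j, W (s + 2 * j) =
      W s + ∑ k ∈ range j, g (s + 2 * k) - ∑ k ∈ range j, g (s + (2 * k + 1)) := by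
    intro j
    induction j with
    | zero => simp
    | succ j ih =>
      rw [show s + 2 * (j + 1) = s + 2 * j + 2 by ring, hstep, ih, sum_range_succ, sum_range_succ,
        add_assoc s]
      ring
  refine ⟨s, fun j => by linarith [hiter j, hmin (s + 2 * j)], fun j hj => ?_⟩
  have h1 := hmin (s + (2 * j + 1))
  have h2 : W (s + (2 * j + 1)) = ∑ k ∈ Ico (j + 1) (m + 1), g (s + 2 * k) +
      ∑ k ∈ range j, g (s + (2 * k + 1)) := by
    rw [hW, ← sum_range_add_sum_Ico _ (Nat.sub_le m j), sum_Ico_eq_sum_range, sum_Ico_eq_sum_range,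
      show m + 1 - (j + 1) = m - j by omega, show m - (m - j) = j by omega]
    congr 1
    · exact sum_congr rfl fun k _ => by congr 1; ring
    · refine sum_congr rfl fun k _ => ?_
      rw [← hper (s + (2 * k + 1))]
      congr 1; omega
  rw [h2, hW, ← sum_range_add_sum_Ico _ hj] at h1
  linarith

lemma exists_angle (a b : ℝ) (h : a ^ 2 + b ^ 2 = 1) :
    ∃ (s : Bool) (φ : ℝ), 0 ≤ φ ∧ φ ≤ π ∧ a = sgn s * cos φ ∧ b = sgn s * sin φ := by
  have ha1 : -1 ≤ a := by nlinarith [sq_nonneg b]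
  have ha2 : a ≤ 1 := by nlinarith [sq_nonneg b]
  rcases le_total 0 b with hb | hb
  · refine ⟨true, arccos a, arccos_nonneg _, arccos_le_pi _, ?_, ?_⟩
    · rw [cos_arccos ha1 ha2, sgn_true, one_mul]
    · rw [sin_arccos, sgn_true, one_mul, show 1 - a ^ 2 = b ^ 2 by linarith, sqrt_sq hb]
  · refine ⟨false, arccos (-a), arccos_nonneg _, arccos_le_pi _, ?_, ?_⟩
    · rw [cos_arccos (by linarith) (by linarith), sgn_false]; ring
    · rw [sin_arccos, sgn_false, show 1 - (-a) ^ 2 = (-b) ^ 2 by linarith,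
        sqrt_sq (by linarith)]; ring

lemma sgn_beq (a b : Bool) : sgn (a == b) = sgn a * sgn b := by
  cases a <;> cases b <;> simp [sgn]

lemma exists_sgn_pow (k : ℕ) : ∃ b : Bool, (-1 : ℝ) ^ k = sgn b := by
  rcases neg_one_pow_eq_or ℝ k with h | h
  · exact ⟨true, h⟩
  · exact ⟨false, h⟩

theorem prob_lower (m : ℕ) (v : Fin (2 * m + 1) → EuclideanSpace ℝ (Fin 2)) (hv : ∀ i, ‖v i‖ = 1)
    {δ : ℝ} (hδ : 0 < δ) (hδ1 : δ ≤ 1) :
    c0 / 2 * √δ / (2 * m + 1) ≤ prob v (1 + δ) := by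
  have hv2 : ∀ i, v i 0 ^ 2 + v i 1 ^ 2 = 1 := fun i => by
    have := EuclideanSpace.real_norm_sq_eq (v i)
    rw [hv, Fin.sum_univ_two] at this
    linarith
  choose s a ha0 ha1 hx hy using fun i => exists_angle _ _ (hv2 i)
  have hn : 0 < 2 * m + 1 := by omega
  obtain ⟨ix, hix⟩ : ∃ ix : ℕ → Fin (2 * m + 1), ∀ j, ix j = Tuple.sort a ⟨j % (2 * m + 1),
    Nat.mod_lt _ hn⟩ := ⟨_, fun _ => rfl⟩
  obtain ⟨Θ, hΘ⟩ : ∃ Θ : ℕ → ℝ, ∀ j, Θ j = a (ix j) + (j / (2 * m + 1) : ℕ) * π :=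
    ⟨_, fun _ => rfl⟩
  have hper : ∀ j, Θ (j + (2 * m + 1)) = Θ j + π := fun j => by
    rw [hΘ, hΘ, hix, hix, Nat.add_div_right _ hn]
    simp only [Nat.add_mod_right]
    push_cast; ring
  have hmono : ∀ j, Θ j ≤ Θ (j + 1) := fun j => by
    rw [hΘ, hΘ]
    by_cases hd : (2 * m + 1) ∣ j + 1
    · rw [Nat.succ_div_of_dvd hd]
      push_cast
      linarith [ha0 (ix (j + 1)), ha1 (ix j)]
    · rw [Nat.succ_div_of_not_dvd hd, hix, hix]
      have := Tuple.monotone_sort a (a := ⟨j % (2 * m + 1), Nat.mod_lt _ hn⟩)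
        (b := ⟨(j + 1) % (2 * m + 1), Nat.mod_lt _ hn⟩) (by
          rw [Fin.mk_le_mk]
          have h1 := Nat.succ_div_of_not_dvd hd
          have h2 := Nat.div_add_mod j (2 * m + 1)
          have h3 := Nat.div_add_mod (j + 1) (2 * m + 1)
          rw [h1] at h3
          omega)
      simp only [Function.comp] at this
      linarith
  obtain ⟨s0, hs1, hs2⟩ := exists_start m (fun i => 2 - 2 * cos (Θ (i + 1) - Θ i)) (fun i => by
    rw [show i + (2 * m + 1) + 1 = i + 1 + (2 * m + 1) by ring, hper, hper]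
    congr 3; ring)
  have hh : ∀ t : ℝ, 2 - 2 * cos t ≤ t ^ 2 := fun t => by
    linarith [one_sub_sq_div_two_le_cos (x := t)]
  have hlow := cntA_lower m (fun i => Θ (s0 + i) - Θ s0)
    (fun i => by linarith [hmono (s0 + i), show Θ (s0 + (i + 1)) = Θ (s0 + i + 1) from rfl])
    (by simp) (by simp [hper]) (fun j _ => by
      refine le_trans (le_of_eq ?_) ((hs1 j).trans (sum_le_sum fun k _ => ?_))
      · exact sum_congr rfl fun k _ => by congr 3; ring_nf
      · refine (hh _).trans (le_of_eq ?_); congr 1; ring_nf)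
    (fun j hj => by
      refine le_trans (le_of_eq ?_) ((hs2 j hj).trans (sum_le_sum fun k _ => ?_))
      · exact sum_congr rfl fun k _ => by congr 3; ring_nf
      · refine (hh _).trans (le_of_eq ?_); congr 1; ring_nf) hδ hδ1
  obtain ⟨τ, hτ⟩ : ∃ τ : Fin (2 * m + 1) → Fin (2 * m + 1), ∀ i, τ i = ix (s0 + i) :=
    ⟨_, fun _ => rfl⟩
  have hτb : Function.Bijective τ := by
    refine (Finite.injective_iff_bijective).1 fun i j hij => ?_
    rw [hτ, hτ, hix, hix] at hij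
    have h1 := (Tuple.sort a).injective hij
    rw [Fin.mk.injEq] at h1
    have h2 : (i : ℕ) ≡ j [MOD (2 * m + 1)] := Nat.ModEq.add_left_cancel' s0 h1
    exact Fin.ext (Nat.ModEq.eq_of_lt_of_lt h2 i.2 j.2)
  choose b hb using fun i : Fin (2 * m + 1) => exists_sgn_pow ((s0 + i) / (2 * m + 1))
  have hcos : ∀ i, v (τ i) 0 = sgn (s (τ i) == b i) * cos (Θ (s0 + i)) := fun i => by
    rw [hΘ, cos_add_nat_mul_pi, hb, sgn_beq, hx, ← hτ]
    have := sgn_sq (b i)
    linear_combination (-(sgn (s (τ i)) * cos (a (τ i)))) * this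
  have hsin : ∀ i, v (τ i) 1 = sgn (s (τ i) == b i) * sin (Θ (s0 + i)) := fun i => by
    rw [hΘ, sin_add_nat_mul_pi, hb, sgn_beq, hy, ← hτ]
    have := sgn_sq (b i)
    linear_combination (-(sgn (s (τ i)) * sin (a (τ i)))) * this
  have hcnt : (univ.filter fun ε : Fin (2 * m + 1) → Bool => ‖∑ i, sgn (ε i) • v i‖ ≤ 1 + δ).card =
      cntA (2 * m + 1) (fun i => Θ (s0 + i) - Θ s0) (1 + δ) := by
    unfold cntA
    have hbij : Function.Bijective fun (ε : Fin (2 * m + 1) → Bool) (i : Fin (2 * m + 1)) =>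
        (ε (τ i) == (s (τ i) == b i)) := by
      refine (Finite.injective_iff_bijective).1 fun ε ε' h => ?_
      funext j
      obtain ⟨i, rfl⟩ := hτb.2 j
      have : (ε (τ i) == (s (τ i) == b i)) = (ε' (τ i) == (s (τ i) == b i)) := congrFun h i
      revert this
      cases ε (τ i) <;> cases ε' (τ i) <;> cases (s (τ i) == b i) <;> simp
    refine card_bijective _ hbij fun ε => ?_
    simp only [mem_filter, mem_univ, true_and]
    rw [← sq_le_sq₀ (norm_nonneg _) (by linarith), EuclideanSpace.real_norm_sq_eq,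
      Fin.sum_univ_two]
    have X : (∑ i, sgn (ε i) • v i) 0 =
        ∑ i, sgn (ε (τ i) == (s (τ i) == b i)) * cos (Θ (s0 + i)) := by
      rw [← hτb.sum_comp (fun i => sgn (ε i) • v i)]
      simp only [WithLp.ofLp_sum, Finset.sum_apply, WithLp.ofLp_smul, Pi.smul_apply, smul_eq_mul]
      exact sum_congr rfl fun i _ => by rw [hcos, sgn_beq (ε (τ i))]; ring
    have Y : (∑ i, sgn (ε i) • v i) 1 =
        ∑ i, sgn (ε (τ i) == (s (τ i) == b i)) * sin (Θ (s0 + i)) := by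
      rw [← hτb.sum_comp (fun i => sgn (ε i) • v i)]
      simp only [WithLp.ofLp_sum, Finset.sum_apply, WithLp.ofLp_smul, Pi.smul_apply, smul_eq_mul]
      exact sum_congr rfl fun i _ => by rw [hsin, sgn_beq (ε (τ i))]; ring
    rw [X, Y]
    have X' : ∑ i : Fin (2 * m + 1), sgn (ε (τ i) == (s (τ i) == b i)) * cos (Θ (s0 + i) - Θ s0) =
        cos (Θ s0) * ∑ i, sgn (ε (τ i) == (s (τ i) == b i)) * cos (Θ (s0 + i)) +
        sin (Θ s0) * ∑ i, sgn (ε (τ i) == (s (τ i) == b i)) * sin (Θ (s0 + i)) := by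
      rw [mul_sum, mul_sum, ← sum_add_distrib]
      exact sum_congr rfl fun i _ => by rw [cos_sub]; ring
    have Y' : ∑ i : Fin (2 * m + 1), sgn (ε (τ i) == (s (τ i) == b i)) * sin (Θ (s0 + i) - Θ s0) =
        cos (Θ s0) * ∑ i, sgn (ε (τ i) == (s (τ i) == b i)) * sin (Θ (s0 + i)) -
        sin (Θ s0) * ∑ i, sgn (ε (τ i) == (s (τ i) == b i)) * cos (Θ (s0 + i)) := by
      rw [mul_sum, mul_sum, ← sum_sub_distrib]
      exact sum_congr rfl fun i _ => by rw [sin_sub]; ring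
    rw [X', Y']
    generalize ∑ i, sgn (ε (τ i) == (s (τ i) == b i)) * cos (Θ (s0 + i)) = A
    generalize ∑ i, sgn (ε (τ i) == (s (τ i) == b i)) * sin (Θ (s0 + i)) = B
    have : (cos (Θ s0) * A + sin (Θ s0) * B) ^ 2 + (cos (Θ s0) * B - sin (Θ s0) * A) ^ 2 =
        A ^ 2 + B ^ 2 := by
      linear_combination (A ^ 2 + B ^ 2) * cos_sq_add_sin_sq (Θ s0)
    rw [this]
  unfold prob
  rw [hcnt, le_div_iff₀ (by positivity)]
  refine le_trans ?_ hlow
  have hc : 0 < c0 := by unfold c0; positivity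
  have e : c0 / 2 * √δ / (2 * m + 1) * 2 ^ (2 * m + 1) = c0 * √δ * 4 ^ m / (2 * m + 1) := by
    rw [pow_succ, pow_mul]; field_simp; norm_num
  rw [e]
  have hm0 : (0 : ℝ) ≤ m := Nat.cast_nonneg m
  exact div_le_div_of_nonneg_left (by positivity) (by positivity) (by linarith)

end Pool.Agent.Lib.MP_3b7d13_co
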