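import Pool.Agent.Lib.MP_3b7d13_co.Defs

/-! Moments of Rademacher sums, a Paley-Zygmund bound and a collision bound. -/

namespace Pool.Agent.Lib.MP_3b7d13_co

open Finset

/-- a scalar Rademacher sum -/
def SS {m : ℕ} (x : Fin m → ℝ) (η : Fin m → Bool) : ℝ := ∑ k, sgn (η k) * x k

lemma sgn_true : sgn true = 1 := rfl
lemma sgn_false : sgn false = -1 := rfl
lemma sgn_not (b : Bool) : sgn (!b) = -sgn b := by cases b <;> simp [sgn]
lemma sgn_sq (b : Bool) : sgn b ^ 2 = 1 := by cases b <;> simp [sgn]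

lemma sum_cons {m : ℕ} (f : (Fin (m + 1) → Bool) → ℝ) :
    ∑ η, f η = ∑ η : Fin m → Bool, (f (Fin.cons true η) + f (Fin.cons false η)) := by
  rw [← (Fin.consEquiv fun _ => Bool).sum_comp, Fintype.sum_prod_type, Fintype.sum_bool,
    ← sum_add_distrib]
  rfl

lemma SS_cons {m : ℕ} (x : Fin (m + 1) → ℝ) (b : Bool) (η : Fin m → Bool) :
    SS x (Fin.cons b η) = sgn b * x 0 + SS (fun k => x k.succ) η := by
  unfold SS
  rw [Fin.sum_univ_succ]
  simp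

lemma mom2 {m : ℕ} (x : Fin m → ℝ) : ∑ η, SS x η ^ 2 = 2 ^ m * ∑ k, x k ^ 2 := by
  induction m with
  | zero => simp [SS]
  | succ m ih =>
    rw [sum_cons, Fin.sum_univ_succ]
    simp only [SS_cons, sgn_true, sgn_false]
    have : ∀ η : Fin m → Bool, (1 * x 0 + SS (fun k => x k.succ) η) ^ 2 +
        (-1 * x 0 + SS (fun k => x k.succ) η) ^ 2 =
        2 * x 0 ^ 2 + 2 * SS (fun k => x k.succ) η ^ 2 := fun η => by ring
    simp only [this]
    rw [sum_add_distrib, ← mul_sum, ← mul_sum, ih]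
    simp
    ring

lemma mom4 {m : ℕ} (x y : Fin m → ℝ) : ∑ η, (SS x η ^ 2 + SS y η ^ 2) ^ 2 ≤
    2 ^ m * (3 * (∑ k, (x k ^ 2 + y k ^ 2)) ^ 2 - 2 * ∑ k, (x k ^ 2 + y k ^ 2) ^ 2) := by
  induction m with
  | zero => simp [SS]
  | succ m ih =>
    rw [sum_cons, Fin.sum_univ_succ, Fin.sum_univ_succ]
    simp only [SS_cons, sgn_true, sgn_false]
    have h : ∀ η : Fin m → Bool,
        ((1 * x 0 + SS (fun k => x k.succ) η) ^ 2 + (1 * y 0 + SS (fun k => y k.succ) η) ^ 2) ^ 2 +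
        ((-1 * x 0 + SS (fun k => x k.succ) η) ^ 2 + (-1 * y 0 + SS (fun k => y k.succ) η) ^ 2) ^ 2 ≤
        2 * (SS (fun k => x k.succ) η ^ 2 + SS (fun k => y k.succ) η ^ 2) ^ 2 +
          12 * (x 0 ^ 2 + y 0 ^ 2) * (SS (fun k => x k.succ) η ^ 2 + SS (fun k => y k.succ) η ^ 2) +
          2 * (x 0 ^ 2 + y 0 ^ 2) ^ 2 := fun η => by
      generalize SS (fun k => x k.succ) η = a
      generalize SS (fun k => y k.succ) η = b
      nlinarith [sq_nonneg (a * y 0 - b * x 0)]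
    refine (sum_le_sum fun η _ => h η).trans ?_
    rw [sum_add_distrib, sum_add_distrib, ← mul_sum, ← mul_sum, sum_add_distrib, mom2, mom2]
    have ih' := ih (fun k => x k.succ) (fun k => y k.succ)
    simp only [sum_const, card_univ, Fintype.card_fun, Fintype.card_bool, Fintype.card_fin,
      nsmul_eq_mul, Nat.cast_pow, Nat.cast_ofNat]
    have e : ∑ k : Fin m, (x k.succ ^ 2 + y k.succ ^ 2) =
        ∑ k : Fin m, x k.succ ^ 2 + ∑ k : Fin m, y k.succ ^ 2 := sum_add_distrib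
    rw [e] at ih' ⊢
    rw [pow_succ (2 : ℝ) m]
    nlinarith

/-- Paley-Zygmund: with constant probability the paired differences point into the disc. -/
lemma paley {m : ℕ} (x y : Fin m → ℝ)
    (h : 306 / 100 * (∑ k, (x k ^ 2 + y k ^ 2)) ^ 2 ≤
      4 * ∑ k, x k ^ 2 + 2 * ∑ k, (x k ^ 2 + y k ^ 2) ^ 2) :
    (2 : ℝ) ^ m / 120000 ≤ (univ.filter fun η : Fin m → Bool =>
      (201 / 200) ^ 2 * (SS x η ^ 2 + SS y η ^ 2) ^ 2 ≤ 4 * SS x η ^ 2).card := by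
  obtain ⟨G, hG⟩ : ∃ G, G = univ.filter fun η : Fin m → Bool =>
      (201 / 200 : ℝ) ^ 2 * (SS x η ^ 2 + SS y η ^ 2) ^ 2 ≤ 4 * SS x η ^ 2 := ⟨_, rfl⟩
  rw [← hG]
  have h4 := mom4 x y
  have h2 := mom2 x
  have h4' := mom4 x 0
  simp only [Pi.zero_apply, ne_eq, OfNat.ofNat_ne_zero, not_false_eq_true, zero_pow, add_zero,
    SS, mul_zero, sum_const_zero] at h4'
  change ∑ η, (SS x η ^ 2) ^ 2 ≤ _ at h4'
  obtain ⟨σ, hσ⟩ : ∃ σ, σ = ∑ k, x k ^ 2 := ⟨_, rfl⟩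
  obtain ⟨V, hV⟩ : ∃ V, V = ∑ k, (x k ^ 2 + y k ^ 2) := ⟨_, rfl⟩
  obtain ⟨Q, hQ⟩ : ∃ Q, Q = ∑ k, (x k ^ 2 + y k ^ 2) ^ 2 := ⟨_, rfl⟩
  have hQ0 : 0 ≤ Q := by rw [hQ]; exact sum_nonneg fun _ _ => sq_nonneg _
  have hσ0 : 0 ≤ σ := by rw [hσ]; exact sum_nonneg fun _ _ => sq_nonneg _
  have hQ1 : 0 ≤ ∑ k, (x k ^ 2) ^ 2 := sum_nonneg fun _ _ => sq_nonneg _
  rw [← hσ] at h h2 h4'
  rw [← hV, ← hQ] at h h4
  have hp : (0 : ℝ) < 2 ^ m := by positivity
  have hB : 102 / 100 * (3 * V ^ 2 - 2 * Q) ≤ 4 * σ := by nlinarith [sq_nonneg V]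
  have hB' : 102 / 100 * ∑ η, (SS x η ^ 2 + SS y η ^ 2) ^ 2 ≤ 2 ^ m * (4 * σ) := by
    have := mul_le_mul_of_nonneg_left hB hp.le
    nlinarith
  rcases hσ0.eq_or_lt with hσ1 | hσ1
  · have hz : ∑ η, (SS x η ^ 2 + SS y η ^ 2) ^ 2 = 0 := by
      refine le_antisymm ?_ (sum_nonneg fun _ _ => sq_nonneg _)
      rw [← hσ1] at hB'
      linarith
    have hall : G = univ := by
      rw [hG, filter_eq_self]
      intro η _
      rw [(sum_eq_zero_iff_of_nonneg fun _ _ => sq_nonneg _).1 hz η (mem_univ _), mul_zero]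
      positivity
    rw [hall]
    simp only [card_univ, Fintype.card_fun, Fintype.card_bool, Fintype.card_fin, Nat.cast_pow,
      Nat.cast_ofNat]
    linarith
  have hZ : ∑ η, (4 * SS x η ^ 2 - (201 / 200) ^ 2 * (SS x η ^ 2 + SS y η ^ 2) ^ 2) ≤
      ∑ η ∈ G, 4 * SS x η ^ 2 := by
    rw [hG, sum_filter]
    refine sum_le_sum fun η _ => ?_
    split_ifs with hc
    · have : 0 ≤ (201 / 200 : ℝ) ^ 2 * (SS x η ^ 2 + SS y η ^ 2) ^ 2 := by positivity
      linarith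
    · push Not at hc; linarith
  rw [sum_sub_distrib, ← mul_sum, ← mul_sum, ← mul_sum, h2] at hZ
  have h5 : 2 ^ m * σ / 200 ≤ ∑ η ∈ G, SS x η ^ 2 := by
    have : 0 ≤ 2 ^ m * σ := by positivity
    nlinarith
  have h6 := sq_sum_le_card_mul_sum_sq (s := G) (f := fun η => SS x η ^ 2)
  have h7 : ∑ η ∈ G, (SS x η ^ 2) ^ 2 ≤ 2 ^ m * (3 * σ ^ 2) := by
    refine (sum_le_sum_of_subset_of_nonneg (subset_univ G) fun _ _ _ => sq_nonneg _).trans ?_
    refine h4'.trans ?_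
    exact mul_le_mul_of_nonneg_left (by linarith) hp.le
  have h8 : (2 ^ m * σ / 200) ^ 2 ≤ G.card * (2 ^ m * (3 * σ ^ 2)) :=
    ((pow_le_pow_left₀ (by positivity) h5 2).trans h6).trans
      (mul_le_mul_of_nonneg_left h7 (Nat.cast_nonneg _))
  have h9 : 0 < 2 ^ m * (3 * σ ^ 2) := by positivity
  apply le_of_mul_le_mul_right _ h9
  refine le_trans (le_of_eq ?_) h8
  ring

lemma markov2 {m : ℕ} (p q : Fin m → ℝ) (h : ∀ k, p k ^ 2 + q k ^ 2 ≤ 1) (K : ℝ) (hK : 0 < K) :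
    ((univ.filter fun η : Fin m → Bool =>
      ¬ SS p η ^ 2 + SS q η ^ 2 ≤ K * (m + 1)).card : ℝ) ≤ 2 ^ m / K := by
  obtain ⟨B, hB⟩ : ∃ B, B = univ.filter fun η : Fin m → Bool =>
      ¬ SS p η ^ 2 + SS q η ^ 2 ≤ K * (m + 1) := ⟨_, rfl⟩
  rw [← hB]
  have h1 : ∑ η ∈ B, K * (m + 1) ≤ ∑ η ∈ B, (SS p η ^ 2 + SS q η ^ 2) := by
    refine sum_le_sum fun η hη => ?_
    rw [hB, mem_filter] at hη
    exact (not_le.1 hη.2).le
  have h2 : ∑ η ∈ B, (SS p η ^ 2 + SS q η ^ 2) ≤ ∑ η, (SS p η ^ 2 + SS q η ^ 2) :=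
    sum_le_sum_of_subset_of_nonneg (subset_univ B) fun _ _ _ => by positivity
  rw [sum_add_distrib (s := univ), mom2, mom2, ← mul_add, ← sum_add_distrib] at h2
  have h3 : ∑ k, (p k ^ 2 + q k ^ 2) ≤ m + 1 := by
    refine (sum_le_sum fun k _ => h k).trans ?_
    simp
  have hp : (0 : ℝ) < 2 ^ m := by positivity
  have h4 := mul_le_mul_of_nonneg_left h3 hp.le
  rw [sum_const, nsmul_eq_mul] at h1
  rw [le_div_iff₀ hK]
  have hm : (0 : ℝ) < m + 1 := by positivity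
  apply le_of_mul_le_mul_right _ hm
  nlinarith

/-- Collision bound with a tie-breaking order. -/
lemma collide {α β : Type*} [DecidableEq α] [DecidableEq β] (G : Finset α) (T : Finset β)
    (lab : α → β) (hT : ∀ a ∈ G, lab a ∈ T) (f : α → ℝ) :
    (G.card : ℝ) ^ 2 ≤ 2 * T.card *
      ((G ×ˢ G).filter fun z => lab z.1 = lab z.2 ∧ f z.1 ≤ f z.2).card := by
  obtain ⟨A, hA⟩ : ∃ A, A = (G ×ˢ G).filter fun z => lab z.1 = lab z.2 ∧ f z.1 ≤ f z.2 :=
    ⟨_, rfl⟩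
  obtain ⟨C, hC⟩ : ∃ C, C = (G ×ˢ G).filter fun z => lab z.1 = lab z.2 := ⟨_, rfl⟩
  rw [← hA]
  have h1 : C.card ≤ 2 * A.card := by
    have : C ⊆ A ∪ A.image Prod.swap := by
      intro z hz
      rw [hC, mem_filter, mem_product] at hz
      rcases le_total (f z.1) (f z.2) with h | h
      · exact mem_union_left _ (by rw [hA, mem_filter, mem_product]; exact ⟨hz.1, hz.2, h⟩)
      · refine mem_union_right _ (mem_image.2 ⟨z.swap, ?_, by simp⟩)
        rw [hA, mem_filter, mem_product]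
        exact ⟨⟨hz.1.2, hz.1.1⟩, hz.2.symm, h⟩
    refine (card_le_card this).trans ((card_union_le _ _).trans ?_)
    have := card_image_le (s := A) (f := Prod.swap)
    omega
  have h2 : G.card = ∑ t ∈ T, (G.filter fun a => lab a = t).card :=
    card_eq_sum_card_fiberwise hT
  have h3 : C.card = ∑ t ∈ T, (G.filter fun a => lab a = t).card ^ 2 := by
    rw [card_eq_sum_card_fiberwise (f := fun z : α × α => lab z.1) (t := T)]
    · refine sum_congr rfl fun t _ => ?_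
      rw [sq, ← card_product]
      congr 1
      ext z
      simp only [hC, mem_filter, mem_product]
      constructor
      · rintro ⟨⟨⟨a, b⟩, c⟩, d⟩; exact ⟨⟨a, d⟩, b, c ▸ d⟩
      · rintro ⟨⟨a, d⟩, b, c⟩; exact ⟨⟨⟨a, b⟩, d.trans c.symm⟩, d⟩
    · intro z hz
      rw [hC, mem_coe, mem_filter, mem_product] at hz
      exact hT _ hz.1.1
  have h4 := sq_sum_le_card_mul_sum_sq (s := T) (f := fun t => (G.filter fun a => lab a = t).card)
  rw [← h2, ← h3] at h4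
  have h5 : G.card ^ 2 ≤ 2 * T.card * A.card := by
    refine h4.trans ?_
    calc T.card * C.card ≤ T.card * (2 * A.card) := Nat.mul_le_mul_left _ h1
      _ = 2 * T.card * A.card := by ring
  exact_mod_cast h5

end Pool.Agent.Lib.MP_3b7d13_co
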