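import Pool.Agent.Lib.MP_3b7d13_co.Hex

/-! The orthogonal configuration. -/

namespace Pool.Agent.Lib.MP_3b7d13_co

open Finset Real Filter Topology

lemma card_near (k : ℕ) : (univ.filter fun y : Fin k → Bool =>
    (2 * (heads y : ℤ) - k) ^ 2 ≤ 2).card ≤ 2 * k.choose (k / 2) := by
  refine le_trans (card_le_card (t := (univ.filter fun y : Fin k → Bool => heads y = k / 2) ∪
    (univ.filter fun y : Fin k → Bool => heads y = (k + 1) / 2)) fun y hy => ?_)
    ((card_union_le _ _).trans ?_)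
  · simp only [mem_filter, mem_univ, true_and, mem_union] at hy ⊢
    have a : 2 * (heads y : ℤ) - k < 2 := by nlinarith
    have b : -2 < 2 * (heads y : ℤ) - k := by nlinarith
    omega
  · rw [card_heads, card_heads]
    have := Nat.choose_le_middle ((k + 1) / 2) k
    omega

lemma orth_card {d : ℕ} (K : Fin d → ℕ) (l0 : Fin d) (hK : ∀ l, l ≠ l0 → Odd (K l)) :
    (univ.filter fun ε : Fin (∑ l, K l) → Bool =>
      ‖∑ i, sgn (ε i) • EuclideanSpace.single (finSigmaFinEquiv.symm i).1 (1 : ℝ)‖ ≤ √d).card ≤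
      ∏ l, 2 * (K l).choose (K l / 2) := by
  refine le_trans (card_le_card_of_injOn (t := Fintype.piFinset fun l =>
    univ.filter fun y : Fin (K l) → Bool => (2 * (heads y : ℤ) - K l) ^ 2 ≤ 2)
    (fun ε l i => ε (finSigmaFinEquiv ⟨l, i⟩)) ?_ ?_) ?_
  · intro ε hε
    rw [mem_coe, mem_filter] at hε
    have h2 := hε.2
    rw [← sq_le_sq₀ (norm_nonneg _) (sqrt_nonneg _), sq_sqrt (Nat.cast_nonneg _),
      EuclideanSpace.real_norm_sq_eq, ← finSigmaFinEquiv.sum_comp, Fintype.sum_sigma] at h2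
    simp only [Equiv.symm_apply_apply, ← sum_smul, sum_sgn, WithLp.ofLp_sum, Finset.sum_apply,
      WithLp.ofLp_smul, Pi.smul_apply, smul_eq_mul, PiLp.single_apply, mul_ite, mul_one, mul_zero,
      sum_ite_eq, mem_univ, if_true] at h2
    obtain ⟨x, hx⟩ : ∃ x : Fin d → ℤ, ∀ l,
      x l = 2 * (heads fun i => ε (finSigmaFinEquiv ⟨l, i⟩) : ℤ) - K l := ⟨_, fun _ => rfl⟩
    have h3 : ∑ l, x l ^ 2 ≤ d := by
      simp only [hx]; exact_mod_cast h2
    rw [mem_coe, Fintype.mem_piFinset]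
    intro l
    rw [mem_filter, ← hx]
    refine ⟨mem_univ _, ?_⟩
    have h4 : ((univ.erase l).erase l0).card • (1 : ℤ) ≤ ∑ j ∈ (univ.erase l).erase l0, x j ^ 2 :=
      card_nsmul_le_sum _ _ _ fun j hj => by
        obtain ⟨m, hm⟩ := hK j (ne_of_mem_erase hj)
        have : x j ≠ 0 := by have := hx j; omega
        rcases lt_or_gt_of_ne this with c | c <;> nlinarith
    have h5 : ∑ j ∈ (univ.erase l).erase l0, x j ^ 2 ≤ ∑ j ∈ univ.erase l, x j ^ 2 :=
      sum_le_sum_of_subset_of_nonneg (erase_subset _ _) fun _ _ _ => sq_nonneg _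
    rw [← add_sum_erase _ _ (mem_univ l)] at h3
    have h6 := pred_card_le_card_erase (s := univ.erase l) (a := l0)
    have h7 := card_erase_of_mem (mem_univ l)
    simp only [card_univ, Fintype.card_fin, nsmul_eq_mul, mul_one] at h4 h7
    omega
  · intro ε _ ε' _ h
    funext j
    obtain ⟨⟨l, i⟩, rfl⟩ := finSigmaFinEquiv.surjective j
    exact congrFun (congrFun h l) i
  · rw [Fintype.card_piFinset]
    exact prod_le_prod' fun l _ => card_near _

lemma orth_F {d k : ℕ} (hk : 1 ≤ k) (K : Fin d → ℕ) (l0 : Fin d) (hK : ∀ l, l ≠ l0 → Odd (K l))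
    (h1 : ∀ l, k ≤ K l) (h2 : ∀ l, K l ≤ k + 1) :
    √(∑ l, K l : ℕ) ^ d * F d √d (∑ l, K l) ≤ √(8 * d / π * (1 + 1 / k)) ^ d := by
  have hk0 : (0 : ℝ) < k := by exact_mod_cast hk
  have a1 : F d √d (∑ l, K l) ≤ prob (fun i : Fin (∑ l, K l) =>
      EuclideanSpace.single (finSigmaFinEquiv.symm i).1 (1 : ℝ)) √d :=
    ciInf_le (f := fun V : Fin (∑ l, K l) →
      Metric.sphere (0 : EuclideanSpace ℝ (Fin d)) 1 => prob (fun i => (V i).1) √d)
    ⟨0, by rintro _ ⟨V, rfl⟩; unfold prob; positivity⟩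
    (fun i => ⟨EuclideanSpace.single (finSigmaFinEquiv.symm i).1 (1 : ℝ), by simp⟩)
  have a2 : prob (fun i : Fin (∑ l, K l) =>
      EuclideanSpace.single (finSigmaFinEquiv.symm i).1 (1 : ℝ)) √d ≤ √(8 / π / k) ^ d := by
    unfold prob
    rw [div_le_iff₀ (by positivity)]
    refine ((Nat.cast_le (α := ℝ)).2 (orth_card K l0 hK)).trans ?_
    rw [← prod_pow_eq_pow_sum, Nat.cast_prod, ← Fin.prod_const, ← prod_mul_distrib]
    refine prod_le_prod (fun _ _ => Nat.cast_nonneg _) fun l _ => ?_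
    rw [← div_le_iff₀ (by positivity)]
    refine le_sqrt_of_sq_le ?_
    have b1 := mid_sq_le (K l)
    have b2 : (k : ℝ) ≤ K l := by exact_mod_cast h1 l
    have b3 := mul_le_mul_of_nonneg_left b2
      (by positivity : 0 ≤ π * (((K l).choose (K l / 2) : ℝ) / 2 ^ K l) ^ 2)
    rw [le_div_iff₀ hk0, le_div_iff₀ pi_pos]
    push_cast
    rw [mul_div_assoc]
    linarith
  have a3 : ((∑ l, K l : ℕ) : ℝ) ≤ d * (k + 1) := by
    have := sum_le_card_nsmul univ K (k + 1) fun l _ => h2 l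
    simp only [card_univ, Fintype.card_fin, smul_eq_mul] at this
    exact_mod_cast this
  calc _ ≤ √(d * (k + 1)) ^ d * √(8 / π / k) ^ d :=
        (mul_le_mul_of_nonneg_left (a1.trans a2) (by positivity)).trans
          (mul_le_mul_of_nonneg_right (pow_le_pow_left₀ (sqrt_nonneg _) (sqrt_le_sqrt a3) d)
            (by positivity))
    _ = _ := by
        rw [← mul_pow, ← sqrt_mul (by positivity)]
        congr 2; field_simp

end Pool.Agent.Lib.MP_3b7d13_co
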