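import Pool.Agent.Lib.MP_3b7d13_co.Hex
import Pool.Agent.Lib.MP_3b7d13_co.Lattice

/-! The orthogonal configuration at a general radius. -/

namespace Pool.Agent.Lib.MP_3b7d13_co

open Finset Real Filter Topology MeasureTheory

lemma orth_card2 {d : ℕ} (K : Fin d → ℕ) (r : ℝ) : ∃ Z : ℕ, (Z : ENNReal) * 2 ^ d ≤
    volume (Metric.closedBall (0 : EuclideanSpace ℝ (Fin d)) (r + √d)) ∧
    (univ.filter fun ε : Fin (∑ l, K l) → Bool =>
      ‖∑ i, sgn (ε i) • EuclideanSpace.single (finSigmaFinEquiv.symm i).1 (1 : ℝ)‖ ≤ r).card ≤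
      (∏ l, (K l).choose (K l / 2)) * Z := by
  obtain ⟨x, hx⟩ : ∃ x : (Fin (∑ l, K l) → Bool) → Fin d → ℤ, ∀ ε l,
    x ε l = 2 * (heads fun i => ε (finSigmaFinEquiv ⟨l, i⟩) : ℤ) - K l := ⟨_, fun _ _ => rfl⟩
  refine ⟨_, parity_count (fun l => K l) r _ (fun y hy l => ?_) fun y hy => ?_,
    card_le_mul_card_image (f := x) _ _ fun y hy => ?_⟩
  · obtain ⟨ε, -, rfl⟩ := mem_image.1 hy
    rw [hx]; omega
  · obtain ⟨ε, hε, rfl⟩ := mem_image.1 hy
    have h2 := (mem_filter.1 hε).2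
    rw [EuclideanSpace.norm_eq, ← finSigmaFinEquiv.sum_comp, Fintype.sum_sigma] at h2
    simp only [Equiv.symm_apply_apply, ← sum_smul, sum_sgn, WithLp.ofLp_sum, Finset.sum_apply,
      WithLp.ofLp_smul, Pi.smul_apply, smul_eq_mul, PiLp.single_apply, mul_ite, mul_one, mul_zero,
      sum_ite_eq, mem_univ, if_true, norm_eq_abs, sq_abs] at h2
    simp only [hx]; exact_mod_cast h2
  · refine le_trans (card_le_card_of_injOn (t := Fintype.piFinset fun l =>
      univ.filter fun z : Fin (K l) → Bool => heads z = ((y l + K l) / 2).toNat)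
      (fun ε l i => ε (finSigmaFinEquiv ⟨l, i⟩)) ?_ ?_) ?_
    · intro ε hε
      rw [mem_coe, mem_filter] at hε
      rw [mem_coe, Fintype.mem_piFinset]
      intro l
      have := hx ε l
      rw [hε.2] at this
      exact mem_filter.2 ⟨mem_univ _, by beta_reduce; omega⟩
    · intro ε _ ε' _ h
      funext j
      obtain ⟨⟨l, i⟩, rfl⟩ := finSigmaFinEquiv.surjective j
      exact congrFun (congrFun h l) i
    · rw [Fintype.card_piFinset]
      exact prod_le_prod' fun l _ => by rw [card_heads]; exact Nat.choose_le_middle _ _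

lemma orth_F2 {d k : ℕ} (hk : 1 ≤ k) (K : Fin d → ℕ) (r : ℝ)
    (h1 : ∀ l, k ≤ K l) (h2 : ∀ l, K l ≤ k + 1) :
    √(∑ l, K l : ℕ) ^ d * F d r (∑ l, K l) ≤ √(d / (2 * π) * (1 + 1 / k)) ^ d *
      (volume (Metric.closedBall (0 : EuclideanSpace ℝ (Fin d)) (r + √d))).toReal := by
  have hk0 : (0 : ℝ) < k := by exact_mod_cast hk
  obtain ⟨V, hV⟩ : ∃ V, V =
    (volume (Metric.closedBall (0 : EuclideanSpace ℝ (Fin d)) (r + √d))).toReal := ⟨_, rfl⟩
  have hV0 : 0 ≤ V := by rw [hV]; positivity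
  obtain ⟨Z, z1, z2⟩ := orth_card2 K r
  have z3 := ENNReal.toReal_mono (measure_closedBall_lt_top).ne z1
  simp only [ENNReal.toReal_mul, ENNReal.toReal_pow, ENNReal.toReal_natCast,
    ENNReal.toReal_ofNat] at z3
  rw [← hV, ← le_div_iff₀ (by positivity)] at z3
  rw [← hV]
  have a1 : F d r (∑ l, K l) ≤ prob (fun i : Fin (∑ l, K l) =>
      EuclideanSpace.single (finSigmaFinEquiv.symm i).1 (1 : ℝ)) r :=
    ciInf_le (f := fun V : Fin (∑ l, K l) →
      Metric.sphere (0 : EuclideanSpace ℝ (Fin d)) 1 => prob (fun i => (V i).1) r)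
    ⟨0, by rintro _ ⟨V, rfl⟩; unfold prob; positivity⟩
    (fun i => ⟨EuclideanSpace.single (finSigmaFinEquiv.symm i).1 (1 : ℝ), by simp⟩)
  have a2 : prob (fun i : Fin (∑ l, K l) =>
      EuclideanSpace.single (finSigmaFinEquiv.symm i).1 (1 : ℝ)) r ≤
      √(2 / π / k) ^ d * (V / 2 ^ d) := by
    unfold prob
    rw [div_le_iff₀ (by positivity)]
    refine ((Nat.cast_le (α := ℝ)).2 z2).trans ?_
    rw [Nat.cast_mul, mul_right_comm]
    refine mul_le_mul ?_ z3 (by positivity) (by positivity)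
    rw [← prod_pow_eq_pow_sum, Nat.cast_prod, ← Fin.prod_const, ← prod_mul_distrib]
    refine prod_le_prod (fun _ _ => Nat.cast_nonneg _) fun l _ => ?_
    rw [← div_le_iff₀ (by positivity)]
    refine le_sqrt_of_sq_le ?_
    have b1 := mid_sq_le (K l)
    have b2 : (k : ℝ) ≤ K l := by exact_mod_cast h1 l
    have b3 := mul_le_mul_of_nonneg_left b2
      (by positivity : 0 ≤ π * (((K l).choose (K l / 2) : ℝ) / 2 ^ K l) ^ 2)
    rw [le_div_iff₀ hk0, le_div_iff₀ pi_pos]
    linarith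
  have a3 : ((∑ l, K l : ℕ) : ℝ) ≤ d * (k + 1) := by
    have := sum_le_card_nsmul univ K (k + 1) fun l _ => h2 l
    simp only [card_univ, Fintype.card_fin, smul_eq_mul] at this
    exact_mod_cast this
  calc _ ≤ √(d * (k + 1)) ^ d * (√(2 / π / k) ^ d * (V / 2 ^ d)) :=
        (mul_le_mul_of_nonneg_left (a1.trans a2) (by positivity)).trans
          (mul_le_mul_of_nonneg_right (pow_le_pow_left₀ (sqrt_nonneg _) (sqrt_le_sqrt a3) d)
            (by positivity))
    _ = _ := by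
        have e : √(d / (2 * π) * (1 + 1 / k)) = √(d * (k + 1)) * √(2 / π / k) / 2 := by
          rw [← sqrt_mul (by positivity), eq_div_iff two_ne_zero,
            show (2 : ℝ) = √4 by rw [eq_comm, sqrt_eq_iff_mul_self_eq_of_pos two_pos]; norm_num,
            ← sqrt_mul (by positivity), ← show (2 : ℝ) = √4 by
              rw [eq_comm, sqrt_eq_iff_mul_self_eq_of_pos two_pos]; norm_num]
          congr 1; field_simp; norm_num
        rw [e, div_pow, mul_pow]; ring

end Pool.Agent.Lib.MP_3b7d13_co
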