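import Mathlib

/-! Five planar vectors with all determinants at most one have `∑ det ^ 2 ≤ 8`. -/

namespace Pool.Agent.Lib.MP_3b7d13_co

open Finset

lemma sq_add_sq_le {y z : ℝ} (hy : y ^ 2 ≤ 1) (hz : z ^ 2 ≤ 1) : y ^ 2 + z ^ 2 ≤ 1 + (y * z) ^ 2 := by
  nlinarith [mul_nonneg (sub_nonneg.2 hy) (sub_nonneg.2 hz)]

lemma window {x y z t : ℝ} (hx : 0 ≤ x) (hxt : x ≤ t) (ht : t ≤ 1) (hy : 0 ≤ y) (hy1 : y ≤ 1)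
    (hz : 0 ≤ z) (hz1 : z ≤ 1) (h : x * t + y * z ≤ 1) :
    x ^ 2 + y ^ 2 + z ^ 2 + t ^ 2 / 2 ≤ 5 / 2 := by
  have h1 := sq_add_sq_le (pow_le_one₀ hy hy1) (pow_le_one₀ hz hz1)
  have h2 : (y * z) ^ 2 ≤ (1 - x * t) ^ 2 := pow_le_pow_left₀ (mul_nonneg hy hz) (by linarith) 2
  have ht0 : 0 ≤ t := hx.trans hxt
  have h3 : t ^ 2 ≤ 1 := pow_le_one₀ ht0 ht
  have h4 : x ^ 2 ≤ x * t := by nlinarith
  have h5 : (x * t) ^ 2 ≤ x * t := by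
    have : x * t ≤ 1 := by nlinarith [mul_nonneg hy hz]
    nlinarith [mul_nonneg hx ht0]
  nlinarith

/-- the pentagon inequality when `s0` is at least as large as the two opposite sides -/
lemma penta0 {s0 s1 s2 s3 s4 d0 d1 d2 d3 d4 : ℝ} (h0 : s0 ≤ 1) (h1 : 0 ≤ s1 ∧ s1 ≤ 1)
    (h2 : 0 ≤ s2 ∧ s2 ≤ s0) (h3 : 0 ≤ s3 ∧ s3 ≤ s0) (h4 : 0 ≤ s4 ∧ s4 ≤ 1)
    (g0 : 0 ≤ d0 ∧ d0 ≤ 1) (g1 : 0 ≤ d1 ∧ d1 ≤ 1) (g2 : 0 ≤ d2 ∧ d2 ≤ 1) (g3 : 0 ≤ d3 ∧ d3 ≤ 1)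
    (g4 : 0 ≤ d4 ∧ d4 ≤ 1) (w1 : s0 * s2 + s1 * d1 ≤ 1) (w4 : s3 * s0 + s4 * d4 ≤ 1) :
    s0 ^ 2 + s1 ^ 2 + s2 ^ 2 + s3 ^ 2 + s4 ^ 2 + (d0 ^ 2 + d1 ^ 2 + d2 ^ 2 + d3 ^ 2 + d4 ^ 2) ≤ 8 := by
  have a1 := window h2.1 h2.2 h0 h1.1 h1.2 g1.1 g1.2 (by linarith)
  have a2 := window h3.1 h3.2 h0 h4.1 h4.2 g4.1 g4.2 w4
  have b0 : d0 ^ 2 ≤ 1 := pow_le_one₀ g0.1 g0.2
  have b2 : d2 ^ 2 ≤ 1 := pow_le_one₀ g2.1 g2.2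
  have b3 : d3 ^ 2 ≤ 1 := pow_le_one₀ g3.1 g3.2
  linarith

lemma penta {s0 s1 s2 s3 s4 d0 d1 d2 d3 d4 : ℝ} (h0 : 0 ≤ s0 ∧ s0 ≤ 1) (h1 : 0 ≤ s1 ∧ s1 ≤ 1)
    (h2 : 0 ≤ s2 ∧ s2 ≤ 1) (h3 : 0 ≤ s3 ∧ s3 ≤ 1) (h4 : 0 ≤ s4 ∧ s4 ≤ 1)
    (g0 : 0 ≤ d0 ∧ d0 ≤ 1) (g1 : 0 ≤ d1 ∧ d1 ≤ 1) (g2 : 0 ≤ d2 ∧ d2 ≤ 1) (g3 : 0 ≤ d3 ∧ d3 ≤ 1)
    (g4 : 0 ≤ d4 ∧ d4 ≤ 1) (w0 : s4 * s1 + s0 * d0 ≤ 1) (w1 : s0 * s2 + s1 * d1 ≤ 1)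
    (w2 : s1 * s3 + s2 * d2 ≤ 1) (w3 : s2 * s4 + s3 * d3 ≤ 1) (w4 : s3 * s0 + s4 * d4 ≤ 1) :
    s0 ^ 2 + s1 ^ 2 + s2 ^ 2 + s3 ^ 2 + s4 ^ 2 + (d0 ^ 2 + d1 ^ 2 + d2 ^ 2 + d3 ^ 2 + d4 ^ 2) ≤ 8 := by
  by_contra hc
  have c0 : s2 ≤ s0 → s3 ≤ s0 → False := fun a b =>
    hc (penta0 h0.2 h1 ⟨h2.1, a⟩ ⟨h3.1, b⟩ h4 g0 g1 g2 g3 g4 w1 w4)
  have c1 : s3 ≤ s1 → s4 ≤ s1 → False := fun a b =>
    hc (by linarith [penta0 h1.2 h2 ⟨h3.1, a⟩ ⟨h4.1, b⟩ h0 g1 g2 g3 g4 g0 w2 w0])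
  have c2 : s4 ≤ s2 → s0 ≤ s2 → False := fun a b =>
    hc (by linarith [penta0 h2.2 h3 ⟨h4.1, a⟩ ⟨h0.1, b⟩ h1 g2 g3 g4 g0 g1 w3 w1])
  have c3 : s0 ≤ s3 → s1 ≤ s3 → False := fun a b =>
    hc (by linarith [penta0 h3.2 h4 ⟨h0.1, a⟩ ⟨h1.1, b⟩ h2 g3 g4 g0 g1 g2 w4 w2])
  have c4 : s1 ≤ s4 → s2 ≤ s4 → False := fun a b =>
    hc (by linarith [penta0 h4.2 h0 ⟨h1.1, a⟩ ⟨h2.1, b⟩ h3 g4 g0 g1 g2 g3 w0 w3])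
  rcases le_total s2 s0 with a | a <;> rcases le_total s3 s0 with b | b <;>
    rcases le_total s3 s1 with c | c <;> rcases le_total s4 s1 with d | d <;>
    rcases le_total s4 s2 with e | e <;>
    first
      | exact c0 a b | exact c1 c d | exact c2 e a | exact c3 b c | exact c4 d e
      | exact c0 a (by linarith) | exact c0 (by linarith) b

lemma five_param (a r : Fin 4 → ℝ) (h1 : ∀ i, a i ^ 2 ≤ 1)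
    (h2 : ∀ j k, (a j * a k * (r k - r j)) ^ 2 ≤ 1) :
    2 * ∑ i, a i ^ 2 + ∑ j, ∑ k, (a j * a k * (r k - r j)) ^ 2 ≤ 16 := by
  obtain ⟨σ, hσ⟩ : ∃ σ : Equiv.Perm (Fin 4), Monotone (r ∘ σ) := ⟨_, Tuple.monotone_sort r⟩
  obtain ⟨A, hA⟩ : ∃ A : Fin 4 → ℝ, ∀ i, A i = |a (σ i)| := ⟨_, fun _ => rfl⟩
  obtain ⟨R, hR⟩ : ∃ R : Fin 4 → ℝ, ∀ i, R i = r (σ i) := ⟨_, fun _ => rfl⟩
  have e : ∀ j k, (a (σ j) * a (σ k) * (r (σ k) - r (σ j))) ^ 2 = (A j * A k * (R k - R j)) ^ 2 :=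
    fun j k => by simp only [hA, hR, mul_pow, sq_abs]
  have hA0 : ∀ i, 0 ≤ A i ∧ A i ≤ 1 := fun i => by
    rw [hA]; exact ⟨abs_nonneg _, (sq_le_one_iff_abs_le_one _).1 (h1 _)⟩
  have hm : ∀ j k, j ≤ k → 0 ≤ A j * A k * (R k - R j) ∧ A j * A k * (R k - R j) ≤ 1 :=
    fun j k h => by
      have : R j ≤ R k := by rw [hR, hR]; exact hσ h
      refine ⟨mul_nonneg (mul_nonneg (hA0 j).1 (hA0 k).1) (sub_nonneg.2 this), ?_⟩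
      have := h2 (σ j) (σ k)
      rw [e, sq_le_one_iff_abs_le_one] at this
      exact (le_abs_self _).trans this
  have hp : ∀ {x y : ℝ}, 0 ≤ x ∧ x ≤ 1 → 0 ≤ y ∧ y ≤ 1 → x * y ≤ 1 := fun hx hy =>
    mul_le_one₀ hx.2 hy.1 hy.2
  have key := penta (hm 0 1 (by decide)) (hm 1 2 (by decide)) (hm 2 3 (by decide)) (hA0 3) (hA0 0)
    (hA0 2) (hm 0 3 (by decide)) (hA0 1) (hm 0 2 (by decide)) (hm 1 3 (by decide))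
    (le_of_eq_of_le (by ring) (hp (hA0 1) (hm 0 2 (by decide))))
    (le_of_eq_of_le (by ring) (hp (hm 0 2 (by decide)) (hm 1 3 (by decide))))
    (le_of_eq_of_le (by ring) (hp (hA0 2) (hm 1 3 (by decide))))
    (le_of_eq_of_le (by ring) (hp (hA0 2) (hm 0 3 (by decide))))
    (le_of_eq_of_le (by ring) (hp (hA0 1) (hm 0 3 (by decide))))
  rw [← Equiv.sum_comp σ fun i => a i ^ 2,
    ← Equiv.sum_comp σ fun j => ∑ k, (a j * a k * (r k - r j)) ^ 2]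
  have e3 : ∀ j, ∑ k, (a (σ j) * a k * (r k - r (σ j))) ^ 2 = ∑ k, (A j * A k * (R k - R j)) ^ 2 :=
    fun j => by
      rw [← Equiv.sum_comp σ fun k => (a (σ j) * a k * (r k - r (σ j))) ^ 2]
      exact sum_congr rfl fun k _ => e j k
  simp only [e3]
  have e2 : ∀ i, a (σ i) ^ 2 = A i ^ 2 := fun i => by rw [hA, sq_abs]
  simp only [e2, Fin.sum_univ_four]
  linarith

lemma four {a b c d e f : ℝ} (ha : a ^ 2 ≤ 1) (hb : b ^ 2 ≤ 1) (hc : c ^ 2 ≤ 1) (hd : d ^ 2 ≤ 1)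
    (he : e ^ 2 ≤ 1) (hf : f ^ 2 ≤ 1) (h : a * b + c * d + e * f = 0) :
    a ^ 2 + b ^ 2 + c ^ 2 + d ^ 2 + e ^ 2 + f ^ 2 ≤ 5 := by
  have h1 := sq_add_sq_le ha hb
  have h2 := sq_add_sq_le hc hd
  have h3 := sq_add_sq_le he hf
  have g1 : (a * b) ^ 2 ≤ 1 := by rw [mul_pow]; exact mul_le_one₀ ha (sq_nonneg _) hb
  have g2 : (c * d) ^ 2 ≤ 1 := by rw [mul_pow]; exact mul_le_one₀ hc (sq_nonneg _) hd
  have g3 : (e * f) ^ 2 ≤ 1 := by rw [mul_pow]; exact mul_le_one₀ he (sq_nonneg _) hf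
  generalize a * b = x at *
  generalize c * d = y at *
  generalize e * f = z at *
  obtain rfl : z = -(x + y) := by linarith
  rcases le_total 0 (x * y) with p | p
  · linarith
  · rcases le_total (x ^ 2) (y ^ 2) with q | q
    · have := (sq_le_sq₀ (sq_nonneg x) (neg_nonneg.2 p)).1
        (by linarith [mul_le_mul_of_nonneg_left q (sq_nonneg x)])
      linarith
    · have := (sq_le_sq₀ (sq_nonneg y) (neg_nonneg.2 p)).1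
        (by linarith [mul_le_mul_of_nonneg_left q (sq_nonneg y)])
      linarith

/-- the ten Pluecker coordinates of five planar vectors -/
lemma ten (a : Fin 4 → ℝ) (m : Fin 4 → Fin 4 → ℝ) (h1 : ∀ i, a i ^ 2 ≤ 1) (h2 : ∀ j k, m j k ^ 2 ≤ 1)
    (r1 : ∀ j k, a 0 * m j k = a j * m 0 k - a k * m 0 j) (r2 : ∀ j k, m j k = -m k j)
    (r3 : m 0 1 * m 2 3 + m 2 0 * m 1 3 + m 0 3 * m 1 2 = 0) :
    2 * ∑ i, a i ^ 2 + ∑ j, ∑ k, m j k ^ 2 ≤ 16 := by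
  by_cases h : ∀ i, a i ≠ 0
  · have e : ∀ j k, m j k = a j * a k * (m 0 k / (a 0 * a k) - m 0 j / (a 0 * a j)) := fun j k => by
      have := h 0; have := h j; have := h k
      field_simp
      linarith [r1 j k]
    have := five_param a (fun k => m 0 k / (a 0 * a k)) h1 fun j k => by rw [← e]; exact h2 j k
    simpa only [← e] using this
  · push Not at h
    obtain ⟨i, hi⟩ := h
    have h3 : ∑ i, a i ^ 2 ≤ 3 := by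
      rw [Fin.sum_univ_succAbove _ i, hi]
      refine le_trans (le_of_eq (by simp)) ((sum_le_card_nsmul univ _ 1 fun j _ =>
        h1 (i.succAbove j)).trans (by simp))
    have h4 := four (h2 0 1) (h2 2 3) (h2 2 0) (h2 1 3) (h2 0 3) (h2 1 2) r3
    have h5 : ∀ j, m j j = 0 := fun j => by linarith [r2 j j]
    simp only [Fin.sum_univ_four, h5, r2 1 0, r2 0 2, r2 3 0, r2 2 1, r2 3 1, r2 3 2] at h3 ⊢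
    linarith

end Pool.Agent.Lib.MP_3b7d13_co
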