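import Pool.Agent.Lib.MP_3b7d13_co.PlLow

/-! Three unit vectors of a planar datum that span a large triangle. -/

namespace Pool.Agent.Lib.MP_3b7d13_co.Pl

open Real MeasureTheory Module Finset

lemma unit_sq {a : E2} (h : ‖a‖ = 1) : a 0 ^ 2 + a 1 ^ 2 = 1 := by
  have := EuclideanSpace.real_norm_sq_eq a
  rw [h, Fin.sum_univ_two] at this
  linarith

lemma flip (L : Submodule ℤ E2) {a : E2} (ha : ‖a‖ = 1) (la : a ∈ L) (s : ℝ) :
    ∃ A : E2, ‖A‖ = 1 ∧ A ∈ L ∧ s • a = |s| • A := by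
  rcases le_total 0 s with h | h
  · exact ⟨a, ha, la, by rw [abs_of_nonneg h]⟩
  · exact ⟨-a, by rw [norm_neg, ha], L.neg_mem la, by rw [abs_of_nonpos h]; module⟩

lemma geo (D : Datum 2) : ∃ a b c : E2, ‖a‖ = 1 ∧ ‖b‖ = 1 ∧ ‖c‖ = 1 ∧ a ∈ D.L ∧ b ∈ D.L ∧ c ∈ D.L ∧
    4 * √D.M.det ≤ |dt (a + b) (b + c)| := by
  have mem : ∀ i, D.a i ∈ D.L := fun i => Submodule.subset_span ⟨i, rfl⟩
  have ne : Nonempty (Fin D.N) := by
    by_contra! h
    have := D.μ_sum
    simp at this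
  obtain ⟨⟨i, j⟩, -, mx⟩ := exists_max_image (univ : Finset (Fin D.N × Fin D.N))
    (fun p => |dt (D.a p.1) (D.a p.2)|) univ_nonempty
  have mx' : ∀ k l, |dt (D.a k) (D.a l)| ≤ |dt (D.a i) (D.a j)| := fun k l => mx (k, l) (mem_univ _)
  have dm : D.M.det = (∑ k, D.μ k * D.a k 0 * D.a k 0) * (∑ k, D.μ k * D.a k 1 * D.a k 1) -
      (∑ k, D.μ k * D.a k 0 * D.a k 1) * ∑ k, D.μ k * D.a k 1 * D.a k 0 := by
    rw [Matrix.det_fin_two]; rfl
  by_cases h : dt (D.a i) (D.a j) = 0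
  · refine ⟨_, _, _, D.a_unit i, D.a_unit i, D.a_unit i, mem i, mem i, mem i, ?_⟩
    have : D.M.det = 0 := by
      rw [dm, sum_mul_sum, sum_mul_sum, ← sum_sub_distrib]
      refine sum_eq_zero fun k _ => ?_
      rw [← sum_sub_distrib]
      refine sum_eq_zero fun l _ => ?_
      have := mx' k l
      rw [h, abs_zero, abs_nonpos_iff, dt] at this
      linear_combination D.μ k * D.μ l * D.a k 0 * D.a l 1 * this
    rw [this, sqrt_zero, mul_zero]
    exact abs_nonneg _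
  have hp := abs_pos.2 h
  obtain ⟨s, t, e, s1, t1⟩ : ∃ s t : Fin D.N → ℝ, (∀ k, D.a k = s k • D.a i + t k • D.a j) ∧
      (∀ k, |s k| ≤ 1) ∧ ∀ k, |t k| ≤ 1 :=
    ⟨_, _, fun k => cramer h (D.a k), fun k => by rw [abs_div, div_le_one hp]; exact mx' _ _,
      fun k => by rw [abs_div, div_le_one hp]; exact mx' _ _⟩
  by_cases q : ∀ k, s k ^ 2 + t k ^ 2 ≤ 1
  · refine ⟨_, _, -D.a i, D.a_unit i, D.a_unit j, by rw [norm_neg, D.a_unit], mem i, mem j,
      D.L.neg_mem (mem i), ?_⟩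
    have ai := D.a_unit i
    generalize D.a i = a at *
    generalize D.a j = b at *
    have f : ∀ u v : Fin 2, ∑ k, D.μ k * D.a k u * D.a k v =
        (∑ k, D.μ k * s k ^ 2) * (a u * a v) + (∑ k, D.μ k * (s k * t k)) * (a u * b v + b u * a v) +
          (∑ k, D.μ k * t k ^ 2) * (b u * b v) := fun u v => by
      simp only [sum_mul, ← sum_add_distrib]
      refine sum_congr rfl fun k _ => ?_
      rw [e k]
      simp only [PiLp.add_apply, PiLp.smul_apply, smul_eq_mul]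
      ring
    have pq : ∑ k, D.μ k * s k ^ 2 + ∑ k, D.μ k * t k ^ 2 ≤ 1 := by
      rw [← sum_add_distrib, ← D.μ_sum]
      exact sum_le_sum fun k _ => by nlinarith [D.μ_pos k, q k]
    have p0 : 0 ≤ ∑ k, D.μ k * s k ^ 2 := sum_nonneg fun k _ => by have := D.μ_pos k; positivity
    have q0 : 0 ≤ ∑ k, D.μ k * t k ^ 2 := sum_nonneg fun k _ => by have := D.μ_pos k; positivity
    simp only [f] at dm
    generalize ∑ k, D.μ k * s k ^ 2 = P at *
    generalize ∑ k, D.μ k * t k ^ 2 = Q at *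
    generalize ∑ k, D.μ k * (s k * t k) = R at *
    have e1 : D.M.det = (P * Q - R ^ 2) * dt a b ^ 2 := by rw [dm, dt]; ring
    have e2 : dt (a + b) (b + -a) = 2 * dt a b := by simp [dt]; ring
    have e3 : P * Q - R ^ 2 ≤ 1 / 4 := by nlinarith [sq_nonneg (P - Q), sq_nonneg R]
    have e4 : √D.M.det ≤ |dt a b| / 2 := sqrt_le_iff.2 ⟨by positivity, by
      rw [e1, div_pow, sq_abs]
      nlinarith [sq_nonneg (dt a b)]⟩
    rw [e2, abs_mul, abs_two]
    linarith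
  push Not at q
  obtain ⟨k, q⟩ := q
  obtain ⟨A, a1, a2, a3⟩ := flip D.L (D.a_unit i) (mem i) (-s k)
  obtain ⟨B, b1, b2, b3⟩ := flip D.L (D.a_unit j) (mem j) (t k)
  have z : D.a k = -(|s k| • A) + |t k| • B := by
    rw [abs_neg] at a3
    rw [← a3, ← b3, neg_smul, neg_neg]
    exact e k
  refine ⟨A, B, D.a k, a1, b1, D.a_unit k, a2, b2, mem k, ?_⟩
  have u1 := unit_sq a1
  have u2 := unit_sq b1
  have u3 := unit_sq (D.a_unit k)
  have e1 : dt (A + B) (B + D.a k) = dt A B * (1 + |s k| + |t k|) := by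
    rw [z]; simp [dt]; ring
  have e2 := ineq (C := A 0 * B 0 + A 1 * B 1) (Δ := dt A B) (abs_nonneg _) (s1 k) (abs_nonneg _)
    (t1 k) (by rwa [sq_abs, sq_abs]) (by
      rw [z] at u3
      simp only [PiLp.add_apply, PiLp.neg_apply, PiLp.smul_apply, smul_eq_mul] at u3
      linear_combination u3 - |s k| ^ 2 * u1 - |t k| ^ 2 * u2) (by
      rw [dt]
      linear_combination (B 0 ^ 2 + B 1 ^ 2) * u1 + u2)
  have tr : ∑ k, D.μ k * D.a k 0 * D.a k 0 + ∑ k, D.μ k * D.a k 1 * D.a k 1 = 1 := by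
    rw [← sum_add_distrib, ← D.μ_sum]
    exact sum_congr rfl fun l _ => by linear_combination D.μ l * unit_sq (D.a_unit l)
  have sy : ∑ k, D.μ k * D.a k 1 * D.a k 0 = ∑ k, D.μ k * D.a k 0 * D.a k 1 :=
    sum_congr rfl fun l _ => by ring
  have e4 : √D.M.det ≤ 1 / 2 := sqrt_le_iff.2 ⟨by positivity, by
    rw [dm, sy]
    generalize ∑ k, D.μ k * D.a k 0 * D.a k 0 = P at *
    generalize ∑ k, D.μ k * D.a k 1 * D.a k 1 = Q at *
    generalize ∑ k, D.μ k * D.a k 0 * D.a k 1 = R at *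
    nlinarith [sq_nonneg (P - Q), sq_nonneg R]⟩
  rw [e1]
  linarith

end Pool.Agent.Lib.MP_3b7d13_co.Pl
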