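import Pool.Agent.Lib.MP_3b7d13_co.VarDefs

/-! A lower bound for the value of planar data at radius two. -/

namespace Pool.Agent.Lib.MP_3b7d13_co.Pl

open Real MeasureTheory Module
open scoped RealInnerProductSpace

abbrev E2 := EuclideanSpace ℝ (Fin 2)

def dt (u v : E2) : ℝ := u 0 * v 1 - u 1 * v 0

lemma tri {p q r : E2} (hp : ‖p‖ = 1) (hq : ‖q‖ = 1) (hr : ‖r‖ = 1) {l m n : ℝ} (hl : 0 ≤ l)
    (hm : 0 ≤ m) (hn : 0 ≤ n) (hs : l + m + n = 1) {w : E2} (hw : w = l • p + m • q + n • r) :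
    ‖w - p‖ ≤ 1 ∨ ‖w - q‖ ≤ 1 ∨ ‖w - r‖ ≤ 1 := by
  by_contra! h
  obtain ⟨h1, h2, h3⟩ := h
  have e : ‖w‖ ^ 2 = l * ⟪w, p⟫ + m * ⟪w, q⟫ + n * ⟪w, r⟫ := by
    rw [← real_inner_self_eq_norm_sq]
    nth_rewrite 2 [hw]
    simp only [inner_add_right, inner_smul_right]
  have a1 := norm_sub_sq_real w p
  have a2 := norm_sub_sq_real w q
  have a3 := norm_sub_sq_real w r
  rw [hp] at a1; rw [hq] at a2; rw [hr] at a3
  have b1 : 0 < ‖w‖ ^ 2 - 2 * ⟪w, p⟫ := by nlinarith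
  have b2 : 0 < ‖w‖ ^ 2 - 2 * ⟪w, q⟫ := by nlinarith
  have b3 : 0 < ‖w‖ ^ 2 - 2 * ⟪w, r⟫ := by nlinarith
  have c1 := mul_nonneg hl b1.le
  have c2 := mul_nonneg hm b2.le
  have c3 := mul_nonneg hn b3.le
  have e2 : l * (‖w‖ ^ 2 - 2 * ⟪w, p⟫) + m * (‖w‖ ^ 2 - 2 * ⟪w, q⟫) +
      n * (‖w‖ ^ 2 - 2 * ⟪w, r⟫) = -‖w‖ ^ 2 := by linear_combination ‖w‖ ^ 2 * hs + 2 * e
  have := sq_nonneg ‖w‖
  rcases hl.eq_or_lt with rfl | k
  · rcases hm.eq_or_lt with rfl | k
    · have := mul_pos (show 0 < n by linarith) b3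
      linarith
    · have := mul_pos k b2
      linarith
  · have := mul_pos k b1
    linarith

lemma cramer {u v : E2} (h : dt u v ≠ 0) (z : E2) :
    z = (dt z v / dt u v) • u + (dt u z / dt u v) • v := by
  ext i
  fin_cases i <;> simp <;> field_simp <;> unfold dt <;> ring

lemma cover {a b c : E2} (ha : ‖a‖ = 1) (hb : ‖b‖ = 1) (hc : ‖c‖ = 1)
    (h : dt (a + b) (b + c) ≠ 0) (z : E2) :
    ∃ m n : ℤ, ‖z - (m • (a + b) + n • (b + c))‖ ≤ 1 := by
  have e := cramer h z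
  generalize dt z (b + c) / dt (a + b) (b + c) = s at e
  generalize dt (a + b) z / dt (a + b) (b + c) = t at e
  have s0 := Int.fract_nonneg s
  have s1 := Int.fract_lt_one s
  have t0 := Int.fract_nonneg t
  have t1 := Int.fract_lt_one t
  rw [← Int.floor_add_fract s, ← Int.floor_add_fract t] at e
  generalize ⌊s⌋ = m at e
  generalize ⌊t⌋ = n at e
  generalize Int.fract s = σ at *
  generalize Int.fract t = τ at *
  subst e
  have f : ∀ (i j : ℤ) (x : E2), ‖x‖ ≤ 1 → x = (σ - i) • (a + b) + (τ - j) • (b + c) →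
      ∃ m' n' : ℤ, ‖((m : ℝ) + σ) • (a + b) + ((n : ℝ) + τ) • (b + c) -
        (m' • (a + b) + n' • (b + c))‖ ≤ 1 := fun i j x h1 h2 => ⟨m + i, n + j, by
    convert h1 using 2
    rw [h2, ← Int.cast_smul_eq_zsmul ℝ, ← Int.cast_smul_eq_zsmul ℝ]
    push_cast
    module⟩
  rcases le_total (σ + τ) 1 with k | k
  · rcases tri (p := -b) (by rw [norm_neg, hb]) ha hc (l := 1 - σ - τ) (by linarith) s0 t0
      (by ring) rfl with j | j | j
    · exact f 0 0 _ j (by push_cast; module)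
    · exact f 1 0 _ j (by push_cast; module)
    · exact f 0 1 _ j (by push_cast; module)
  · rcases tri (q := -c) (r := -a) hb (by rw [norm_neg, hc]) (by rw [norm_neg, ha])
      (l := σ + τ - 1) (m := 1 - τ) (n := 1 - σ) (by linarith) (by linarith) (by linarith)
      (by ring) rfl with j | j | j
    · exact f 1 1 _ j (by push_cast; module)
    · exact f 1 0 _ j (by push_cast; module)
    · exact f 0 1 _ j (by push_cast; module)

lemma covol_span (β : Basis (Fin 2) ℝ E2) :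
    ZLattice.covolume (Submodule.span ℤ (Set.range β)) volume = |dt (β 0) (β 1)| := by
  rw [ZLattice.covolume_eq_det_mul_measureReal _ volume (β.restrictScalars ℤ)
    (EuclideanSpace.basisFun (Fin 2) ℝ).toBasis,
    measureReal_congr (ZSpan.fundamentalDomain_ae_parallelepiped _ volume)]
  have e : volume.real (parallelepiped (EuclideanSpace.basisFun (Fin 2) ℝ).toBasis) = 1 := by
    have := (EuclideanSpace.basisFun (Fin 2) ℝ).volume_parallelepiped
    rw [Measure.real]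
    erw [this]
    rfl
  rw [e, mul_one, Basis.det_apply, Matrix.det_fin_two]
  simp [Basis.toMatrix_apply, dt, mul_comm]

lemma count_ge (L : Submodule ℤ E2) [DiscreteTopology L] [IsZLattice ℝ L] {a b c : E2}
    (ha : ‖a‖ = 1) (hb : ‖b‖ = 1) (hc : ‖c‖ = 1) (la : a ∈ L) (lb : b ∈ L) (lc : c ∈ L) (y : E2) :
    ENNReal.ofReal (|dt (a + b) (b + c)| / ZLattice.covolume L volume) ≤
      (Set.encard {x : E2 | x ∈ L ∧ ‖(2 : ℝ) • x + y‖ ≤ 2} : ℕ∞) := by
  by_cases h : dt (a + b) (b + c) = 0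
  · simp [h]
  have li : LinearIndependent ℝ ![a + b, b + c] := by
    refine LinearIndependent.pair_iff.2 fun s t e => ?_
    have e0 := congrArg (· 0) e
    have e1 := congrArg (· 1) e
    generalize a + b = u at *
    generalize b + c = v at *
    simp only [PiLp.add_apply, PiLp.smul_apply, smul_eq_mul, PiLp.zero_apply] at e0 e1
    exact ⟨(mul_eq_zero.1 (show s * dt u v = 0 by
        unfold dt; linear_combination v 1 * e0 - v 0 * e1)).resolve_right h,
      (mul_eq_zero.1 (show t * dt u v = 0 by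
        unfold dt; linear_combination u 0 * e1 - u 1 * e0)).resolve_right h⟩
  let β := basisOfLinearIndependentOfCardEqFinrank li (by simp)
  have b0 : β 0 = a + b := by simp [β]
  have b1 : β 1 = b + c := by simp [β]
  have le : Submodule.span ℤ (Set.range β) ≤ L := Submodule.span_le.2 (by
    rintro _ ⟨i, rfl⟩
    fin_cases i
    · exact b0 ▸ L.add_mem la lb
    · exact b1 ▸ L.add_mem lb lc)
  have ix := ZLattice.covolume_div_covolume_eq_relIndex' _ L le
  rw [covol_span, b0, b1] at ix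
  have pos : 0 < |dt (a + b) (b + c)| / ZLattice.covolume L volume :=
    div_pos (abs_pos.2 h) (ZLattice.covolume_pos L volume)
  rw [ix] at pos ⊢
  rw [ENNReal.ofReal_natCast, ← ENat.toENNReal_coe, ENat.toENNReal_le]
  set H := (Submodule.span ℤ (Set.range β)).toAddSubgroup.addSubgroupOf L.toAddSubgroup with hH
  have fin : Finite (L.toAddSubgroup ⧸ H) := Nat.finite_of_card_ne_zero (Nat.cast_pos.1 pos).ne'
  have e1 : ((Submodule.span ℤ (Set.range β)).toAddSubgroup.relIndex L.toAddSubgroup : ℕ∞) =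
      (Set.univ : Set (L.toAddSubgroup ⧸ H)).encard := by
    rw [Set.encard_univ, ENat.card_eq_coe_natCard]
    rfl
  have e2 : (Set.univ : Set (L.toAddSubgroup ⧸ H)) ⊆
      QuotientAddGroup.mk '' {x : L.toAddSubgroup | ‖(2 : ℝ) • (x : E2) + y‖ ≤ 2} := by
    intro q _
    obtain ⟨x, rfl⟩ := QuotientAddGroup.mk_surjective q
    obtain ⟨m, n, k⟩ := cover ha hb hc h ((x : E2) + (2 : ℝ)⁻¹ • y)
    have mm : m • (a + b) + n • (b + c) ∈ Submodule.span ℤ (Set.range β) :=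
      Submodule.add_mem _ (Submodule.smul_mem _ _ (Submodule.subset_span ⟨0, b0⟩))
        (Submodule.smul_mem _ _ (Submodule.subset_span ⟨1, b1⟩))
    generalize m • (a + b) + n • (b + c) = w at k mm
    refine ⟨x - ⟨w, le mm⟩, ?_, QuotientAddGroup.eq.2 ?_⟩
    · change ‖(2 : ℝ) • ((x : E2) - w) + y‖ ≤ 2
      rw [show (2 : ℝ) • ((x : E2) - w) + y = (2 : ℝ) • ((x : E2) + (2 : ℝ)⁻¹ • y - w) by module,
        norm_smul, Real.norm_two]
      linarith
    · rw [neg_sub, sub_add_cancel]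
      exact mm
  rw [e1]
  refine (Set.encard_le_encard e2).trans ((Set.encard_image_le _ _).trans ?_)
  rw [← Subtype.val_injective.encard_image]
  exact Set.encard_le_encard (by rintro _ ⟨x, hx, rfl⟩; exact ⟨x.2, hx⟩)

lemma le_of_sq_le_sq_aux {x y : ℝ} (h : 0 ≤ y) (k : x ^ 2 ≤ y ^ 2) : x ≤ y :=
  (abs_le_of_sq_le_sq' k h).2

lemma ineq {s t C Δ : ℝ} (s0 : 0 ≤ s) (s1 : s ≤ 1) (t0 : 0 ≤ t) (t1 : t ≤ 1)
    (h : 1 < s ^ 2 + t ^ 2) (e : s ^ 2 + t ^ 2 - 2 * s * t * C = 1) (d : Δ ^ 2 + C ^ 2 = 1) :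
    2 ≤ |Δ * (1 + s + t)| := by
  have s2 : 0 < s := by nlinarith
  have t2 : 0 < t := by nlinarith
  have st := mul_pos s2 t2
  have c0 : 0 < C := by
    by_contra! k
    nlinarith [mul_nonneg st.le (neg_nonneg.2 k)]
  have a1 : 2 * s * C ≤ t := le_of_mul_le_mul_left (a := t) (by nlinarith) t2
  have a2 : 2 * t * C ≤ s := le_of_mul_le_mul_left (a := s) (by nlinarith) s2
  have a3 : C ≤ s * t := by nlinarith [mul_le_mul_of_nonneg_left a1 s0, mul_le_mul_of_nonneg_left a2 t0]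
  have a4 : C ≤ 1 / 2 := by
    by_contra! k
    nlinarith [mul_pos s2 (sub_pos.2 k), mul_pos t2 (sub_pos.2 k)]
  have a5 : 1 + C ≤ s + t := le_of_sq_le_sq_aux (by linarith) (by nlinarith)
  refine le_of_sq_le_sq_aux (abs_nonneg _) ?_
  rw [sq_abs, mul_pow, show Δ ^ 2 = 1 - C ^ 2 by linarith]
  have a6 : (2 + C) ^ 2 ≤ (1 + s + t) ^ 2 := pow_le_pow_left₀ (by linarith) (by linarith) 2
  have a7 : 0 ≤ 1 - C ^ 2 := by nlinarith
  have a8 : 2 ^ 2 ≤ (1 - C ^ 2) * (2 + C) ^ 2 := by nlinarith [mul_pos c0 c0, mul_pos c0 (mul_pos c0 c0)]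
  exact a8.trans (mul_le_mul_of_nonneg_left a6 a7)

end Pool.Agent.Lib.MP_3b7d13_co.Pl
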