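import Pool.Agent.Lib.MP_3b7d13_co.VarDefs

/-! The square lattice gives the value `8 / π` just above radius two. -/

namespace Pool.Agent.Lib.MP_3b7d13_co.Pl

open MeasureTheory ProbabilityTheory

/-- The standard basis of the plane. -/
noncomputable def upB : Module.Basis (Fin 2) ℝ (EuclideanSpace ℝ (Fin 2)) :=
  (EuclideanSpace.basisFun (Fin 2) ℝ).toBasis

/-- The square lattice with equal weights, no drift and given further vectors. -/
noncomputable def upD (k : ℕ) (w : Fin k → EuclideanSpace ℝ (Fin 2)) (hw : ∀ j, ‖w j‖ = 1) :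
    Datum 2 where
  N := 2
  a := upB
  μ := fun _ => 1 / 2
  η := fun _ => 0
  k := k
  w := w
  a_unit := fun i => by simp [upB]
  w_unit := hw
  μ_pos := fun _ => by norm_num
  μ_sum := by simp
  discrete := inferInstance
  spans := upB.span_eq
  orth := fun x => by simp
  quad := ⟨0, fun i => by simp⟩

theorem up_covol : ZLattice.covolume (Submodule.span ℤ (Set.range upB)) volume = 1 := by
  rw [ZLattice.covolume_eq_measure_fundamentalDomain _ _ (ZSpan.isAddFundamentalDomain upB volume),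
    Measure.real, measure_congr (ZSpan.fundamentalDomain_ae_parallelepiped upB volume)]
  have := (EuclideanSpace.basisFun (Fin 2) ℝ).volume_parallelepiped
  rw [show (upB : Fin 2 → EuclideanSpace ℝ (Fin 2)) = EuclideanSpace.basisFun (Fin 2) ℝ from rfl,
    this]
  simp

theorem up_val {k : ℕ} {w : Fin k → EuclideanSpace ℝ (Fin 2)} (hw : ∀ j, ‖w j‖ = 1) {r S : ℝ}
    (hr : r < √S) (h : ∀ ε : Fin k → Bool, ∃ p q : ℤ × ℤ, ∀ m n : ℤ,
      (2 * (m : ℝ) + ∑ j, sgn (ε j) * w j 0) ^ 2 + (2 * (n : ℝ) + ∑ j, sgn (ε j) * w j 1) ^ 2 < S →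
        (m, n) = p ∨ (m, n) = q) :
    (upD k w hw).val r ≤ ENNReal.ofReal (8 / Real.pi) := by
  have hc : ∀ ε g, (upD k w hw).count r ε g ≤ 2 := fun ε g => by
    obtain ⟨p, q, hpq⟩ := h ε
    let f : ℤ × ℤ → EuclideanSpace ℝ (Fin 2) := fun z => !₂[(z.1 : ℝ), (z.2 : ℝ)]
    have sub : {x : EuclideanSpace ℝ (Fin 2) | x ∈ (upD k w hw).L ∧
        ‖(2 : ℝ) • x + ∑ j, sgn (ε j) • (upD k w hw).w j +
          ∑ i, (√((upD k w hw).μ i) * g i) • (upD k w hw).η i‖ ≤ r} ⊆ {f p, f q} := by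
      rintro x ⟨h1, h2⟩
      have h3 := (upB.mem_span_iff_repr_mem ℤ x).1 h1
      obtain ⟨m, hm⟩ := h3 0
      obtain ⟨n, hn⟩ := h3 1
      have hm : (m : ℝ) = x 0 := by simpa [upB] using hm
      have hn : (n : ℝ) = x 1 := by simpa [upB] using hn
      have h4 := (Real.lt_sqrt (norm_nonneg _)).1 (h2.trans_lt hr)
      rw [EuclideanSpace.real_norm_sq_eq, Fin.sum_univ_two] at h4
      have e : x = f (m, n) := by
        ext i
        fin_cases i <;> simp [f, hm, hn]
      have := hpq m n (by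
        simp [upD] at h4
        rw [hm, hn]
        exact h4)
      rcases this with l | l
      · exact Or.inl (by rw [e, l])
      · exact Or.inr (by rw [e, l]; rfl)
    have h5 : Set.encard ({f p, f q} : Set (EuclideanSpace ℝ (Fin 2))) ≤ 2 :=
      (Set.encard_insert_le _ _).trans (by rw [Set.encard_singleton]; rfl)
    have h6 := (Set.encard_le_encard sub).trans h5
    unfold Datum.count
    exact_mod_cast h6
  have hdet : (upD k w hw).M.det = 1 / 4 := by
    rw [Matrix.det_fin_two]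
    have e : ∀ s t, (upD k w hw).M s t = ∑ i : Fin 2, 1 / 2 * upB i s * upB i t := fun _ _ => rfl
    simp [e, upB]
    norm_num
  have hint : ∫⁻ g, (∑ ε, (upD k w hw).count r ε g) / 2 ^ (upD k w hw).k
      ∂(Measure.pi fun _ => gaussianReal 0 1) ≤ 2 := by
    refine (lintegral_mono (g := fun _ => 2) fun g => ?_).trans (by simp)
    refine ENNReal.div_le_of_le_mul ((Finset.sum_le_card_nsmul _ _ _ fun ε _ => hc ε g).trans ?_)
    simp [mul_comm]
  unfold Datum.val
  refine (mul_le_mul_right hint _).trans (le_of_eq ?_)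
  rw [hdet, show (upD k w hw).L = Submodule.span ℤ (Set.range upB) from rfl, up_covol,
    show (1 / 4 : ℝ) = (1 / 2) ^ 2 by norm_num, Real.sqrt_sq (by norm_num),
    show (2 : ENNReal) = ENNReal.ofReal 2 by simp, ← ENNReal.ofReal_mul' (by norm_num)]
  congr 1
  norm_num
  ring

theorem up_gam {p : ℕ} {r : ℝ} {c : ENNReal} (D : Datum 2) (hk : D.k % 2 = p % 2)
    (h : D.val r ≤ c) : Gam 2 p r ≤ c := by
  unfold Gam
  split_ifs
  · exact zero_le
  · exact iInf_le_of_le ⟨D, hk⟩ h

theorem up_key1 {m n : ℤ} (h : (2 * (m : ℝ) + 1) ^ 2 + (2 * (n : ℝ)) ^ 2 < 5) :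
    n = 0 ∧ (m = 0 ∨ m = -1) := by
  have h : (2 * m + 1) ^ 2 + (2 * n) ^ 2 < 5 := by exact_mod_cast h
  have a1 : m ≤ 0 := by nlinarith [sq_nonneg n]
  have a2 : -1 ≤ m := by nlinarith [sq_nonneg n]
  have a3 : n * n < 1 := by
    obtain rfl | rfl : m = 0 ∨ m = -1 := by omega
    all_goals nlinarith
  exact ⟨by nlinarith, by omega⟩

theorem up1 {r : ℝ} (hr : r < √5) : Gam 2 1 r ≤ ENNReal.ofReal (8 / Real.pi) := by
  refine up_gam (upD 1 (fun _ => !₂[1, 0]) fun _ => by
    simp [EuclideanSpace.norm_eq, Fin.sum_univ_two]) rfl (up_val _ hr fun ε => ?_)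
  cases e : ε 0
  · refine ⟨(0, 0), (1, 0), fun m n h => ?_⟩
    have := up_key1 (m := -m) (n := n) (by
      simp [sgn, e] at h
      push_cast
      linarith)
    simp only [Prod.mk.injEq]
    omega
  · refine ⟨(0, 0), (-1, 0), fun m n h => ?_⟩
    have := up_key1 (m := m) (n := n) (by
      simp [sgn, e] at h
      linarith)
    simp only [Prod.mk.injEq]
    omega

theorem up_key0 {m n : ℤ} (h : (2 * (m : ℝ) + √2) ^ 2 + (2 * (n : ℝ)) ^ 2 < 10 - 4 * √2) :
    n = 0 ∧ (m = 0 ∨ m = -1) := by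
  have u2 : √2 * √2 = 2 := Real.mul_self_sqrt (by norm_num)
  have u0 : 1 < √2 := by nlinarith [Real.sqrt_nonneg 2]
  have u1 : √2 < 3 / 2 := by nlinarith [Real.sqrt_nonneg 2]
  generalize √2 = u at h u2 u0 u1
  have h1 : (m : ℝ) * m + n * n + (m + 1) * u < 2 := by nlinarith
  have a1 : m ≤ 0 := by
    by_contra l
    have : (1 : ℝ) ≤ m := by exact_mod_cast (by omega : 1 ≤ m)
    nlinarith [mul_self_nonneg (n : ℝ)]
  have a2 : -1 ≤ m := by
    by_contra l
    have : (m : ℝ) ≤ -2 := by exact_mod_cast (by omega : m ≤ -2)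
    nlinarith [mul_self_nonneg (n : ℝ)]
  have a3 : (n : ℝ) * n < 1 := by
    obtain rfl | rfl : m = 0 ∨ m = -1 := by omega
    all_goals
      push_cast at h1
      nlinarith
  have a4 : n * n < 1 := by exact_mod_cast a3
  exact ⟨by nlinarith, by omega⟩

theorem up0 {r : ℝ} (hr : r < √(10 - 4 * √2)) : Gam 2 0 r ≤ ENNReal.ofReal (8 / Real.pi) := by
  have u2 : √2 * √2 = 2 := Real.mul_self_sqrt (by norm_num)
  refine up_gam (upD 2 ![!₂[√2 / 2, √2 / 2], !₂[√2 / 2, -(√2 / 2)]] fun j => by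
    fin_cases j <;> simp [EuclideanSpace.norm_eq, Fin.sum_univ_two] <;> nlinarith)
    (show 2 % 2 = 0 % 2 by norm_num) (up_val _ hr fun ε => ?_)
  cases e : ε 0 <;> cases e' : ε 1
  · refine ⟨(0, 0), (1, 0), fun m n h => ?_⟩
    have := up_key0 (m := -m) (n := n) (by
      simp [sgn, e, e', Fin.sum_univ_two] at h
      push_cast
      nlinarith)
    simp only [Prod.mk.injEq]
    omega
  · refine ⟨(0, 0), (0, 1), fun m n h => ?_⟩
    have := up_key0 (m := -n) (n := m) (by
      simp [sgn, e, e', Fin.sum_univ_two] at h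
      push_cast
      nlinarith)
    simp only [Prod.mk.injEq]
    omega
  · refine ⟨(0, 0), (0, -1), fun m n h => ?_⟩
    have := up_key0 (m := n) (n := m) (by
      simp [sgn, e, e', Fin.sum_univ_two] at h
      nlinarith)
    simp only [Prod.mk.injEq]
    omega
  · refine ⟨(0, 0), (-1, 0), fun m n h => ?_⟩
    have := up_key0 (m := m) (n := n) (by
      simp [sgn, e, e', Fin.sum_univ_two] at h
      nlinarith)
    simp only [Prod.mk.injEq]
    omega

end Pool.Agent.Lib.MP_3b7d13_co.Pl
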