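import Pool.Agent.Lib.MP_3b7d13_co.PlVal
import Pool.Agent.Lib.MP_3b7d13_co.PlUp

/-! The exact values of both planar constants just above the radius two. -/

namespace Pool.Agent.Lib.MP_3b7d13_co.Pl

theorem aboveTwo : ∀ r : ℝ, 2 < r →
    (r < √(10 - 4 * √2) → f0 2 r = ENNReal.ofReal (8 / Real.pi)) ∧
    (r < √5 → f1 2 r = ENNReal.ofReal (8 / Real.pi)) := by
  refine fun r h => ⟨fun u => Pl.plateau 0 h (Pl.up0 u), fun u => ?_⟩
  have e : {n : ℕ | n % 2 ≠ 2 % 2} = {n | n % 2 = 1 % 2} := Set.ext fun n => by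
    simp only [Set.mem_ofPred_eq]
    omega
  rw [f1, e]
  exact Pl.plateau 1 h (Pl.up1 u)

end Pool.Agent.Lib.MP_3b7d13_co.Pl
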