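import Pool.Agent.Lib.MP_3b7d13_co.TrFull
import Pool.Agent.Lib.MP_3b7d13_co.TrStr
import Pool.Agent.Lib.MP_3b7d13_co.Asym2
import Pool.Agent.Lib.MP_3b7d13_co.Lower

/-! The lower bound at transcendental radii and the blocking threshold. -/

namespace Pool.Agent.Lib.MP_3b7d13_co.Tr

open Real Finset MeasureTheory Metric Filter Topology Module Var
open scoped RealInnerProductSpace

variable {d : ℕ}

lemma exists_shell {r β : ℝ} (hr : 0 < r) (hβ : 0 < β) :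
    ∃ (φ g ψ g' : E d → ℝ) (C C' : ℝ), TP φ g C ∧ TP ψ g' C' ∧ (∀ x, 0 ≤ φ x) ∧ (∀ x, φ x ≤ 1) ∧
      (∀ x, ‖x‖ ≤ r → φ x = 1) ∧ (∀ x, ψ x ≤ 1) ∧ (∀ x, ψ x ≠ 0 → |‖x‖ ^ 2 - r ^ 2| < β) ∧
      ∀ x, φ x ≤ (if ‖x‖ ≤ r then 1 else 0) + ψ x := by
  set b := min (r / 2) (β / (3 * r))
  have hb : 0 < b := by positivity
  have hb1 : b ≤ r / 2 := min_le_left _ _
  have hb2 : b * (3 * r) ≤ β := (le_div_iff₀ (by positivity)).1 (min_le_right _ _)
  let b1 : ContDiffBump (0 : E d) := ⟨r, r + b, hr, by linarith⟩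
  let b2 : ContDiffBump (0 : E d) := ⟨r - b, r, by linarith, by linarith⟩
  obtain ⟨g, C, t1⟩ := exists_TP_of_smooth (φ := b1) b1.contDiff b1.hasCompactSupport b1.neg
  obtain ⟨g', C', t2⟩ := exists_TP_of_smooth (φ := fun x => b1 x - b2 x)
    (b1.contDiff.sub b2.contDiff) (b1.hasCompactSupport.sub b2.hasCompactSupport)
    fun x => by rw [b1.neg, b2.neg]
  have p1 : ∀ x, ‖x‖ ≤ r → b1 x = 1 := fun x hx =>
    b1.one_of_mem_closedBall (mem_closedBall_zero_iff.2 hx)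
  have p2 : ∀ x, r ≤ ‖x‖ → b2 x = 0 := fun x hx => b2.zero_of_le_dist (by rwa [dist_zero_right])
  refine ⟨b1, g, _, g', C, C', t1, t2, fun x => b1.nonneg, fun x => b1.le_one, p1,
    fun x => by linarith [b1.le_one (x := x), b2.nonneg (x := x)], fun x hx => ?_, fun x => ?_⟩
  · have a1 : r - b < ‖x‖ := lt_of_not_ge fun h => hx (by
      rw [p1 x (by linarith), b2.one_of_mem_closedBall (mem_closedBall_zero_iff.2 h), sub_self])
    have a2 : ‖x‖ < r + b := lt_of_not_ge fun h => hx (by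
      rw [p2 x (by linarith), b1.zero_of_le_dist (by rwa [dist_zero_right]), sub_self])
    rw [abs_lt]
    constructor <;> nlinarith [norm_nonneg x]
  · split_ifs with hx
    · linarith [b2.le_one (x := x)]
    · rw [p2 x (not_le.1 hx).le]; simp

theorem lower_tr (hd : 2 ≤ d) (p : ℕ) {s r : ℝ} (hsr : s < r)
    (hb : ¬∃ k, k % 2 = p % 2 ∧ Blocked d k s) (hr : Transcendental ℚ r) :
    Gam d p r ≤ liminf (fun n : ℕ => ENNReal.ofReal ((n : ℝ) ^ ((d : ℝ) / 2) * F d r n))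
      (atTop ⊓ 𝓟 {n | n % 2 = p % 2}) := by
  unfold Gam
  split_ifs with hb'
  · exact zero_le
  set Γ := ⨅ D : {D : Datum d // D.k % 2 = p % 2}, D.1.val r
  by_contra hlt
  obtain ⟨c, hc0, hc1, hc2⟩ := ENNReal.lt_iff_exists_real_btwn.1 (not_le.1 hlt)
  have := frequently_iff_neBot.1 (frequently_lt_of_liminf_lt (by isBoundedDefault) hc1)
  let 𝒰 := Ultrafilter.of ((atTop ⊓ 𝓟 {n | n % 2 = p % 2}) ⊓
    𝓟 {n : ℕ | ENNReal.ofReal ((n : ℝ) ^ ((d : ℝ) / 2) * F d r n) < ENNReal.ofReal c})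
  have h𝒰 := le_inf_iff.1 (Ultrafilter.of_le _ : (𝒰 : Filter ℕ) ≤ _)
  have hat := (le_inf_iff.1 h𝒰.1).1
  have e0 : ‖(EuclideanSpace.single ⟨0, by omega⟩ 1 : E d)‖ = 1 := by simp
  have : Nonempty (sphere (0 : E d) 1) := ⟨⟨_, mem_sphere_zero_iff_norm.2 e0⟩⟩
  have hV : ∀ n : ℕ, ∃ v : Fin n → E d, (∀ i, ‖v i‖ = 1) ∧ (0 < n →
      (n : ℝ) ^ ((d : ℝ) / 2) * F d r n < c → (n : ℝ) ^ ((d : ℝ) / 2) * prob v r < c) := fun n => by
    by_cases h : 0 < n ∧ (n : ℝ) ^ ((d : ℝ) / 2) * F d r n < c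
    · have hn : 0 < (n : ℝ) ^ ((d : ℝ) / 2) := rpow_pos_of_pos (Nat.cast_pos.2 h.1) _
      obtain ⟨V, hV⟩ := exists_lt_of_ciInf_lt ((lt_div_iff₀' hn).2 h.2)
      exact ⟨fun i => V i, fun i => mem_sphere_zero_iff_norm.1 (V i).2,
        fun _ _ => (lt_div_iff₀' hn).1 hV⟩
    · exact ⟨fun _ => _, fun _ => e0, fun h1 h2 => (h ⟨h1, h2⟩).elim⟩
  choose v hv hv' using hV
  have hrt : ∀ n, rt (Fin n) = √n := fun n => by simp [rt]
  have hn : Tendsto (fun n => rt (Fin n)) 𝒰 atTop := by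
    simp only [hrt]
    exact (tendsto_sqrt_atTop.comp tendsto_natCast_atTop_atTop).mono_left hat
  have hq : ∀ᶠ n in 𝒰, Fintype.card (Fin n) % 2 = p % 2 := by
    simp only [Fintype.card_fin]
    exact le_principal_iff.1 (le_inf_iff.1 h𝒰.1).2
  have hpr : ∀ᶠ n in 𝒰, rt (Fin n) ^ d * Ex (v n) (fun x => if ‖x‖ ≤ r then 1 else 0) ≤ c := by
    filter_upwards [le_principal_iff.1 h𝒰.2, hat (eventually_gt_atTop 0)] with n a1 a2
    rw [hrt, sqrt_pow_eq (Nat.cast_nonneg _), ← prob_eq]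
    exact (hv' n a2 ((ENNReal.ofReal_lt_ofReal_iff_of_nonneg
      (mul_nonneg (by positivity) (F_nonneg _ _ _))).1 a1)).le
  obtain ⟨c0, h0, h1⟩ := degen 𝒰 hv (card_tendsto hn) hsr
    (hq.mono fun n h1 j h2 h3 => hb ⟨j, h2.trans h1, h3⟩)
  have hM : ∀ a b, ∃ x, Tendsto (fun n => emp (v n) a b) 𝒰 (𝓝 x) := fun a b => by
    obtain ⟨x, -, hx⟩ := ultra_lim 𝒰 (f := fun n => emp (v n) a b) (a := -2) (b := 2) (by
      filter_upwards [(card_tendsto hn).eventually_gt_atTop 0] with n a1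
      have := emp_close (a := v n) (v := 0) (fun i => (hv n i).le) (by simp) one_pos a1 (β := 1)
        (by simp [hv]) a b
      simp only [emp, mom, Matrix.of_apply, Pi.zero_apply, PiLp.zero_apply, mul_zero,
        sum_const_zero, sub_zero] at this
      exact abs_le.1 (this.trans (by norm_num)))
    exact ⟨x, hx⟩
  choose M hM using hM
  have hMl : Tendsto (fun n => emp (v n)) 𝒰 (𝓝 (Matrix.of M)) :=
    tendsto_pi_nhds.2 fun a => tendsto_pi_nhds.2 (hM a)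
  have hpd := posDef_of_bdd (fun n i => (hv n i).le) hn hMl (C := c / c0) (by
    filter_upwards [h1, hpr, hn.eventually_ge_atTop 0] with n a1 a2 a3
    rw [le_div_iff₀' h0, mul_left_comm]
    exact (mul_le_mul_of_nonneg_left a1 (pow_nonneg a3 d)).trans a2)
  have hs : 0 ≤ s := by
    by_contra h
    exact hb ⟨p, rfl, _, fun _ => _, e0, fun _ => e0, fun _ _ =>
      (not_le.1 h).trans_le (norm_nonneg _)⟩
  obtain ⟨Λ, m, f, L, R, P, q, K, h2, h3⟩ := exists_str' 𝒰 (fun n i => (hv n i).le) hn hpd hMl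
  have hS : IsClosed {y : ℝ | Γ ≤ ENNReal.ofReal y} :=
    isClosed_le continuous_const ENNReal.continuous_ofReal
  have h5 : ShellNull 𝒰 v r → ∀ η > 0, Γ ≤ ENNReal.ofReal (c + η) := fun hnull η hη => by
    obtain ⟨β, hβ, h4⟩ := hnull η hη
    obtain ⟨φ, g, ψ, g', C, C', t1, t2, b0, b1, b2, b3, b4, b5⟩ :=
      exists_shell (d := d) (hs.trans_lt hsr) hβ
    obtain ⟨x0, ⟨-, hx0⟩, hx⟩ := ultra_lim 𝒰
      (f := fun n => rt (Fin n) ^ d * ∫ y, g y * Phi (v n) y) (a := 0) (b := c + η) (by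
        filter_upwards [hpr, hn.eventually_ge_atTop 0, h4 ψ g' C' t2 b3 b4] with n a1 a2 a3
        rw [← t1.Ex_eq]
        refine ⟨mul_nonneg (pow_nonneg a2 d) (div_nonneg (sum_nonneg fun _ _ => b0 _)
          (by positivity)), (mul_le_mul_of_nonneg_left (Ex_mono _ b5) (pow_nonneg a2 d)).trans
            (le_trans (le_of_eq ?_) (add_le_add a1 a3))⟩
        simp only [Ex, sum_add_distrib, add_div, mul_add])
    have h6 := hx.sub (h3 g C t1.cg t1.dec)
    simp only [sub_sub_cancel, sub_zero] at h6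
    have hD : ∀ D : Datum d, D.k % 2 = p % 2 → FV D g ∈ {y : ℝ | Γ ≤ ENNReal.ofReal y} :=
      fun D hD => (iInf_le (fun D : {D : Datum d // D.k % 2 = p % 2} => D.1.val r) ⟨D, hD⟩).trans
        (val_le_FV D t1 b0 b2)
    refine le_trans ?_ (ENNReal.ofReal_le_ofReal hx0)
    rcases isEmpty_or_nonempty (Fin m) with hm | ⟨⟨l0⟩⟩
    · have hP : P = 1 := ContinuousLinearMap.ext fun x => by simp [h2.proj]
      exact full hv hn h2 (hP ▸ h2.lim) t1.dec hS hD hpd hMl hq hm h6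
    · exact part t1.cg t1.dec hS hD hv hn hpd hMl hq h2 hd l0 h6
  have h6 : ∀ η > 0, Γ ≤ ENNReal.ofReal (c + η) := by
    rcases isEmpty_or_nonempty (Fin m) with hm | ⟨⟨l0⟩⟩
    · have hP : P = 1 := ContinuousLinearMap.ext fun x => by simp [h2.proj]
      exact (full_cases hv hn h2 h3 (by omega) (hP ▸ h2.lim) hm hpd hMl hq hr (hs.trans_lt hsr)
        hpr).elim h5 id
    · exact h5 (part_null h2 h3 l0 r)
  have h7 := hS.mem_of_tendsto (b := 𝓝[>] c) (tendsto_id.mono_left nhdsWithin_le_nhds)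
    (eventually_nhdsWithin_of_forall fun y hy => by simpa using h6 (y - c) (sub_pos.2 hy))
  exact hc2.not_ge h7

lemma blocked_orth {k : ℕ} (hd : 0 < d) (e : Fin k ↪ Fin d) {s : ℝ} (hs : s < √k) :
    Blocked d k s := by
  refine ⟨EuclideanSpace.single ⟨0, hd⟩ 1, fun i => EuclideanSpace.single (e i) 1, by simp,
    by simp, fun j ε => hs.trans_le (sqrt_le_iff.2 ⟨norm_nonneg _, ?_⟩)⟩
  rw [EuclideanSpace.real_norm_sq_eq]
  refine le_trans ?_ (sum_le_sum_of_subset_of_nonneg (subset_univ (univ.map e))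
    fun _ _ _ => sq_nonneg _)
  rw [sum_map]
  refine le_trans (by simp) (card_nsmul_le_sum univ _ 1 fun i _ => ?_)
  have : ∃ n : ℤ, ((2 * j : ℝ) • EuclideanSpace.single (⟨0, hd⟩ : Fin d) (1 : ℝ) +
      ∑ l, sgn (ε l) • EuclideanSpace.single (e l) (1 : ℝ)) (e i) = 2 * n + 1 := by
    refine ⟨(if e i = ⟨0, hd⟩ then j else 0) - if ε i then 0 else 1, ?_⟩
    simp only [PiLp.add_apply, PiLp.smul_apply, WithLp.ofLp_sum, Finset.sum_apply,
      PiLp.single_apply, smul_eq_mul, mul_ite, mul_one, mul_zero, e.injective.eq_iff,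
      sum_ite_eq, mem_univ, if_true, sgn]
    split_ifs <;> push_cast <;> ring
  obtain ⟨n, hn⟩ := this
  rw [hn]
  have : (1 : ℤ) ≤ (2 * n + 1) ^ 2 := (one_le_sq_iff_one_le_abs _).2 (Int.one_le_abs (by omega))
  simpa using (Int.cast_le (R := ℝ)).2 this

lemma not_blocked {k : ℕ} (hd : 1 ≤ d) {s : ℝ} (hs : √d < s) : ¬Blocked d k s := fun hb => by
  have hV : 0 < (volume (closedBall (0 : E d) 1)).toReal :=
    ENNReal.toReal_pos (measure_closedBall_pos _ _ one_pos).ne' measure_closedBall_lt_top.ne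
  have := sub_pos.2 hs
  have hd0 : (0 : ℝ) < d := Nat.cast_pos.2 hd
  obtain ⟨t, t1, t2⟩ := exists_between (show 0 < √(2 / π) ^ d * ((s - √d) ^ d *
    (volume (closedBall (0 : E d) 1)).toReal / 2 ^ d / √((1 / d) ^ d)) by positivity)
  obtain ⟨n, hn⟩ := eventually_atTop.1 (lower_main2 hd hs t2)
  have h1 : t / √(2 * (n + 1) + k : ℕ) ^ d ≤ F d s (2 * (n + 1) + k) := by
    have : Nonempty (sphere (0 : E d) 1) := ⟨⟨EuclideanSpace.single ⟨0, hd⟩ 1, by simp⟩⟩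
    exact le_ciInf fun V => (div_le_iff₀' (by positivity)).2
      (hn _ (by omega) _ fun i => mem_sphere_zero_iff_norm.1 (V i).2)
  rw [F_blocked hb] at h1
  exact h1.not_gt (by positivity)

lemma not_blocked_two {k : ℕ} (hk : k % 2 = 1) {s : ℝ} (hs : 1 < s) : ¬Blocked 2 k s := by
  rintro ⟨a, w, h1, h2, h3⟩
  obtain ⟨m, rfl⟩ : ∃ m, k = 2 * m + 1 := ⟨k / 2, by omega⟩
  have hδ : 0 < min (s - 1) 1 := lt_min (by linarith) one_pos
  have := prob_lower m w h2 hδ (min_le_right _ _)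
  rw [prob, filter_false_of_mem fun ε _ => not_le.2 (lt_of_le_of_lt (b := s)
    (by linarith [min_le_left (s - 1) 1]) (by simpa using h3 0 ε))] at this
  refine this.not_gt ?_
  unfold c0
  simp only [card_empty, Nat.cast_zero, zero_div]
  positivity

theorem tendsto_tr (hd : 2 ≤ d) (p : ℕ) : ∃ r₀ ∈ Set.Icc √(d - 1 : ℝ) √d,
    ∀ r : ℝ, Transcendental ℚ r → p % 2 = d % 2 ∨ d = 2 ∨ r ≠ r₀ →
      Tendsto (fun n : ℕ => ENNReal.ofReal ((n : ℝ) ^ ((d : ℝ) / 2) * F d r n))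
        (atTop ⊓ 𝓟 {n | n % 2 = p % 2}) (𝓝 (Gam d p r)) := by
  let U := {s : ℝ | ¬∃ k, k % 2 = p % 2 ∧ Blocked d k s}
  have h1 : ∀ s, √d < s → s ∈ U := fun s hs ⟨k, _, hk⟩ => not_blocked (by omega) hs hk
  have h2 : p % 2 = d % 2 → √d ∈ lowerBounds U := fun h s hs => le_of_not_gt fun h' =>
    hs ⟨d, h.symm, blocked_orth (by omega) (.refl _) h'⟩
  have h3 : √(d - 1 : ℝ) ∈ lowerBounds U := by
    by_cases h : p % 2 = d % 2
    · exact fun s hs => (sqrt_le_sqrt (by linarith)).trans (h2 h hs)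
    · refine fun s hs => le_of_not_gt fun h' => hs ⟨d - 1, by omega,
        blocked_orth (by omega) (Fin.castLEEmb (by omega)) ?_⟩
      rwa [Nat.cast_pred (by omega)]
  have h4 : U.Nonempty := ⟨_, h1 _ (lt_add_one _)⟩
  have h5 : sInf U ≤ √d := le_of_forall_gt_imp_ge_of_dense fun s hs => csInf_le ⟨_, h3⟩ (h1 s hs)
  refine ⟨sInf U, ⟨le_csInf h4 h3, h5⟩, fun r hr h => ?_⟩
  have h6 : ∀ n : ℕ, r ≠ √n := by
    rintro n rfl
    exact hr (IsAlgebraic.of_pow two_pos (by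
      rw [sq_sqrt (Nat.cast_nonneg n)]; exact isAlgebraic_natCast n))
  have h7 : r ≠ sInf U := by
    rcases h with h | rfl | h
    · exact le_antisymm h5 (le_csInf h4 (h2 h)) ▸ h6 d
    · by_cases h : p % 2 = 2 % 2
      · exact le_antisymm h5 (le_csInf h4 (h2 h)) ▸ h6 2
      · rw [show sInf U = √(1 : ℕ) from le_antisymm (le_of_forall_gt_imp_ge_of_dense fun s hs =>
          csInf_le ⟨_, h3⟩ fun ⟨k, a1, a2⟩ => not_blocked_two (by omega) (by simpa using hs) a2)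
          (le_trans (by norm_num) (le_csInf h4 h3))]
        exact h6 1
    · exact h
  refine tendsto_of_le_liminf_of_limsup_le ?_ (upper d p r)
  rcases h7.lt_or_gt with a | a
  · rw [Gam, if_pos (not_not.1 (notMem_of_lt_csInf a ⟨_, h3⟩))]
    exact zero_le
  · obtain ⟨s, s1, s2⟩ := exists_lt_of_csInf_lt h4 a
    exact lower_tr hd p s2 s1 hr

end Pool.Agent.Lib.MP_3b7d13_co.Tr
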