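import Pool.Agent.Lib.MP_3b7d13_co.PlGeo
import Pool.Agent.Lib.MP_3b7d13_co.TrMain

/-! The planar variational value at radius two. -/

namespace Pool.Agent.Lib.MP_3b7d13_co.Pl

open Real MeasureTheory Filter

lemma val_ge (D : Datum 2) : ENNReal.ofReal (8 / π) ≤ D.val 2 := by
  obtain ⟨a, b, c, ha, hb, hc, la, lb, lc, h⟩ := geo D
  have k : ∀ ε g, ENNReal.ofReal (|dt (a + b) (b + c)| / ZLattice.covolume D.L volume) ≤
      D.count 2 ε g := fun ε g => by
    have := count_ge D.L ha hb hc la lb lc (Var.pos D ε g)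
    simpa only [Datum.count, Var.pos, add_assoc] using this
  have cp := ZLattice.covolume_pos D.L (volume : Measure E2)
  have dp := sqrt_pos.2 (Var.M_posDef D).det_pos
  have pp := Var.pref_pos D
  generalize |dt (a + b) (b + c)| = X at *
  have k2 : ENNReal.ofReal (X / ZLattice.covolume D.L volume) ≤
      (∑ ε, ∫⁻ t, D.count 2 ε t ∂(Var.gam D.N)) / 2 ^ D.k := by
    rw [ENNReal.le_div_iff_mul_le (.inl (by simp)) (.inl (by simp))]
    refine le_trans (le_of_eq ?_) (Finset.sum_le_sum fun ε _ => lintegral_mono (k ε))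
    simp [mul_comm]
  rw [Var.val_eq]
  refine le_trans ?_ (mul_le_mul_right k2 _)
  rw [← ENNReal.ofReal_mul pp.le]
  refine ENNReal.ofReal_le_ofReal ?_
  have := pi_pos
  rw [Var.pref, show ((2 : ℕ) : ℝ) / 2 = 1 by norm_num, rpow_one, show
    2 / π * ZLattice.covolume D.L volume / √D.M.det * (X / ZLattice.covolume D.L volume) =
      2 * (X / √D.M.det) / π by field_simp]
  refine div_le_div_of_nonneg_right ?_ this.le
  have := (le_div_iff₀ dp).2 h
  linarith

lemma gam_ge (p : ℕ) : ENNReal.ofReal (8 / π) ≤ Gam 2 p 2 := by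
  rw [Gam, if_neg]
  · exact le_iInf fun D => val_ge D.1
  · rintro ⟨k, -, hb⟩
    exact Tr.not_blocked (by norm_num) ((sqrt_lt' two_pos).2 (by norm_num)) hb

theorem plateau (p : ℕ) {r : ℝ} (h : 2 < r) (u : Gam 2 p r ≤ ENNReal.ofReal (8 / π)) :
    liminf (fun n : ℕ => ENNReal.ofReal ((n : ℝ) ^ (((2 : ℕ) : ℝ) / 2) * F 2 r n))
      (atTop ⊓ principal {n | n % 2 = p % 2}) = ENNReal.ofReal (8 / π) := by
  have := Var.neBot_parity p
  exact le_antisymm (le_trans liminf_le_limsup ((Var.upper 2 p r).trans u))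
    ((gam_ge p).trans (Var.lower le_rfl p h))

end Pool.Agent.Lib.MP_3b7d13_co.Pl
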