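import Mathlib

/-! Weighted sums of squared determinants of planar vectors. -/

namespace Pool.Agent.Lib.MP_3b7d13_co

open Finset

lemma cara {ι : Type*} [Fintype ι] [DecidableEq ι] {D : ℕ} (m : ι → Fin D → ℝ) (N : ℕ) :
    ∀ c : ι → ℝ, (univ.filter fun i => c i ≠ 0).card ≤ N → (∀ i, 0 ≤ c i) →
      ∃ c' : ι → ℝ, (∀ i, 0 ≤ c' i) ∧ (univ.filter fun i => c' i ≠ 0).card ≤ D ∧
        ∑ i, c' i • m i = ∑ i, c i • m i ∧ ∑ i, c' i ≤ ∑ i, c i := by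
  induction N with
  | zero => exact fun c h hc => ⟨c, hc, h.trans (Nat.zero_le _), rfl, le_rfl⟩
  | succ N ih =>
    intro c h hc
    obtain ⟨S, hS⟩ : ∃ S, S = univ.filter fun i => c i ≠ 0 := ⟨_, rfl⟩
    rcases le_or_gt S.card D with hD | hD
    · exact ⟨c, hc, hS ▸ hD, rfl, le_rfl⟩
    have h1 : ¬ LinearIndependent ℝ fun i : S => m i := fun hli => by
      have := hli.fintype_card_le_finrank
      simp only [Fintype.card_coe, Module.finrank_fin_fun] at this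
      omega
    obtain ⟨g, hg, i1, hi1⟩ := Fintype.not_linearIndependent_iff.1 h1
    obtain ⟨l0, hl0⟩ : ∃ l0 : ι → ℝ, ∀ i, l0 i = if h : i ∈ S then g ⟨i, h⟩ else 0 :=
      ⟨_, fun _ => rfl⟩
    have h2 : ∑ i, l0 i • m i = 0 := by
      rw [← sum_subset (subset_univ S) fun i _ hi => by rw [hl0, dif_neg hi, zero_smul],
        ← sum_coe_sort, ← hg]
      exact sum_congr rfl fun i _ => by rw [hl0, dif_pos i.2]
    obtain ⟨l, hl1, hl2, hl3, i2, hi2⟩ : ∃ l : ι → ℝ, (∀ i ∉ S, l i = 0) ∧ ∑ i, l i • m i = 0 ∧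
        0 ≤ ∑ i, l i ∧ ∃ i, l i ≠ 0 := by
      have a1 : ∀ i ∉ S, l0 i = 0 := fun i hi => by rw [hl0, dif_neg hi]
      have a2 : l0 i1 ≠ 0 := by rw [hl0, dif_pos i1.2]; exact hi1
      rcases le_total 0 (∑ i, l0 i) with h3 | h3
      · exact ⟨l0, a1, h2, h3, i1, a2⟩
      · refine ⟨fun i => -l0 i, fun i hi => neg_eq_zero.2 (a1 i hi), ?_, ?_, i1, neg_ne_zero.2 a2⟩
        · simp only [neg_smul, sum_neg_distrib, h2, neg_zero]
        · rw [sum_neg_distrib]; linarith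
    have h4 : (univ.filter fun i => 0 < l i).Nonempty := by
      by_contra hne
      have a1 : ∀ i ∈ univ, l i ≤ 0 := fun i _ => not_lt.1 fun hi =>
        hne ⟨i, mem_filter.2 ⟨mem_univ _, hi⟩⟩
      exact hi2 ((sum_eq_zero_iff_of_nonpos a1).1 (le_antisymm (sum_nonpos a1) hl3) i2 (mem_univ _))
    obtain ⟨i0, hi0, hmin⟩ := exists_min_image _ (fun i => c i / l i) h4
    have hi0' : 0 < l i0 := (mem_filter.1 hi0).2
    have ht : 0 ≤ c i0 / l i0 := div_nonneg (hc _) hi0'.le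
    obtain ⟨c', a1, a2, a3, a4⟩ := ih (fun i => c i - c i0 / l i0 * l i) (by
      refine (card_le_card (t := S.erase i0) fun i hi => ?_).trans ?_
      · have hi' := (mem_filter.1 hi).2
        refine mem_erase.2 ⟨?_, ?_⟩
        · rintro rfl
          exact hi' (by field_simp; ring)
        · by_contra hn
          have : c i = 0 := by simpa [hS] using hn
          exact hi' (by rw [this, hl1 i hn]; ring)
      · have : i0 ∈ S := by
          by_contra hn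
          exact hi0'.ne' (hl1 _ hn)
        rw [card_erase_of_mem this, hS]; omega) (fun i => by
      rcases le_or_gt (l i) 0 with h5 | h5
      · nlinarith [hc i]
      · have := hmin i (mem_filter.2 ⟨mem_univ _, h5⟩)
        rw [le_div_iff₀ h5] at this
        linarith)
    refine ⟨c', a1, a2, a3.trans ?_, a4.trans ?_⟩
    · simp only [sub_smul, mul_smul, sum_sub_distrib, ← smul_sum, hl2, smul_zero, sub_zero]
    · rw [sum_sub_distrib, ← mul_sum]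
      linarith [mul_nonneg ht hl3]

lemma pad {ι : Type*} [Fintype ι] [DecidableEq ι] (i0 : ι) {N : ℕ} (c : ι → ℝ)
    (h : (univ.filter fun i => c i ≠ 0).card ≤ N) :
    ∃ (e : Fin N → ι) (c' : Fin N → ℝ), (∀ k, c' k = 0 ∨ c' k = c (e k)) ∧
      ∀ F : ι → ℝ, ∑ i, c i * F i = ∑ k, c' k * F (e k) := by
  obtain ⟨S, hS⟩ : ∃ S, S = univ.filter fun i => c i ≠ 0 := ⟨_, rfl⟩
  obtain ⟨j⟩ : Nonempty (S ↪ Fin N) :=
    Function.Embedding.nonempty_of_card_le (by rw [Fintype.card_coe, Fintype.card_fin, hS]; exact h)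
  refine ⟨Function.extend j Subtype.val fun _ => i0, Function.extend j (fun i => c i) 0,
    fun k => ?_, fun F => ?_⟩
  · by_cases hk : ∃ i, j i = k
    · obtain ⟨i, rfl⟩ := hk
      right; rw [j.injective.extend_apply, j.injective.extend_apply]
    · left; rw [Function.extend_apply' _ _ _ hk]; rfl
  · rw [← sum_subset (subset_univ (univ.map j)) fun k _ hk => by
      rw [Function.extend_apply' _ _ _ (by simpa using hk)]; simp, sum_map,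
      ← sum_subset (subset_univ S) fun i _ hi => by
        have : c i = 0 := by simpa [hS] using hi
        rw [this, zero_mul], ← sum_coe_sort]
    exact sum_congr rfl fun i _ => by rw [j.injective.extend_apply, j.injective.extend_apply]

lemma k4 {a b c d e f : ℝ} (ha : |a| ≤ 1) (hb : |b| ≤ 1) (hc : |c| ≤ 1) (hd : |d| ≤ 1)
    (he : |e| ≤ 1) (hf : |f| ≤ 1) (h : a * f - b * e + c * d = 0) :
    a ^ 2 + b ^ 2 + c ^ 2 + d ^ 2 + e ^ 2 + f ^ 2 ≤ 5 := by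
  have key : ∀ x y : ℝ, |x| ≤ 1 → |y| ≤ 1 → x ^ 2 + y ^ 2 ≤ 1 + (x * y) ^ 2 ∧ (x * y) ^ 2 ≤ 1 :=
    fun x y hx hy => by
      have h1 := (sq_le_one_iff_abs_le_one x).2 hx
      have h2 := (sq_le_one_iff_abs_le_one y).2 hy
      constructor
      · nlinarith [mul_nonneg (sub_nonneg.2 h1) (sub_nonneg.2 h2)]
      · rw [mul_pow]; exact mul_le_one₀ h1 (sq_nonneg _) h2
  obtain ⟨p1, p2⟩ := key a f ha hf
  obtain ⟨q1, q2⟩ := key b e hb he
  obtain ⟨r1, r2⟩ := key c d hc hd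
  generalize a * f = X at *
  generalize c * d = Z at *
  rw [show b * e = X + Z by linarith] at q1 q2
  have : X ^ 2 + (X + Z) ^ 2 + Z ^ 2 ≤ 2 := by
    rcases le_total 0 (X * Z) with h1 | h1
    · nlinarith
    · rcases le_total 0 (X * (X + Z)) with h2 | h2 <;> nlinarith
  linarith

lemma k5a {s t u d : ℝ} (hs : s ≤ 1) (ht : t ≤ 1) (hu : u ≤ 1) (hd0 : 0 ≤ d) (hd : d ≤ 1)
    (h : s * u + d * t ≤ 1) : d ^ 2 ≤ 3 - (s + t + u) := by
  nlinarith [mul_nonneg (sub_nonneg.2 hs) (sub_nonneg.2 hu),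
    mul_nonneg (sub_nonneg.2 ht) (sub_nonneg.2 hd), mul_nonneg hd0 (sub_nonneg.2 hd)]

lemma k5b (q : Fin 5 → Fin 5 → ℝ) (h0 : ∀ j k, j ≤ k → 0 ≤ q j k) (h1 : ∀ j k, q j k ≤ 1)
    (h : ∀ i j k l, q i j * q k l + q i l * q j k = q i k * q j l) :
    q 0 1 ^ 2 + q 1 2 ^ 2 + q 2 3 ^ 2 + q 3 4 ^ 2 + q 0 4 ^ 2 +
      (q 0 2 ^ 2 + q 0 3 ^ 2 + q 1 3 ^ 2 + q 1 4 ^ 2 + q 2 4 ^ 2) ≤ 8 := by
  have m : ∀ i j k l, k ≤ l → q i j * q k l ≤ 1 := fun i j k l hkl =>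
    mul_le_one₀ (h1 _ _) (h0 _ _ hkl) (h1 _ _)
  have d1 := k5a (h1 0 1) (h1 1 2) (h1 2 3) (h0 0 3 (by decide)) (h1 0 3)
    ((h 0 1 2 3).trans_le (m _ _ _ _ (by decide)))
  have d2 := k5a (h1 1 2) (h1 2 3) (h1 3 4) (h0 1 4 (by decide)) (h1 1 4)
    ((h 1 2 3 4).trans_le (m _ _ _ _ (by decide)))
  have d3 := k5a (h1 0 4) (h1 3 4) (h1 2 3) (h0 0 2 (by decide)) (h1 0 2)
    ((add_comm _ _).trans_le ((h 0 2 3 4).trans_le (m _ _ _ _ (by decide))))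
  have d4 := k5a (h1 0 1) (h1 0 4) (h1 3 4) (h0 1 3 (by decide)) (h1 1 3)
    (by linarith [h 0 1 3 4, m 0 3 1 4 (by decide)])
  have d0 := k5a (h1 0 4) (h1 0 1) (h1 1 2) (h0 2 4 (by decide)) (h1 2 4)
    (by linarith [h 0 1 2 4, m 0 2 1 4 (by decide)])
  have e1 := m 0 3 0 3 (by decide)
  have e2 := m 1 4 1 4 (by decide)
  have e3 := m 0 2 0 2 (by decide)
  have e4 := m 1 3 1 3 (by decide)
  have e0 := m 2 4 2 4 (by decide)
  have a0 := h0 0 1 (by decide)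
  have a1 := h0 1 2 (by decide)
  have a2 := h0 2 3 (by decide)
  have a3 := h0 3 4 (by decide)
  have a4 := h0 0 4 (by decide)
  have b0 := h1 0 1
  have b1 := h1 1 2
  have b2 := h1 2 3
  have b3 := h1 3 4
  have b4 := h1 0 4
  generalize q 0 1 = s0 at *
  generalize q 1 2 = s1 at *
  generalize q 2 3 = s2 at *
  generalize q 3 4 = s3 at *
  generalize q 0 4 = s4 at *
  have key : ∀ M : ℝ, M ≤ 1 → s0 ≤ M → s1 ≤ M → s2 ≤ M → s3 ≤ M → s4 ≤ M →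
      s0 ^ 2 + s1 ^ 2 + s2 ^ 2 + s3 ^ 2 + s4 ^ 2 ≤ M * (s0 + s1 + s2 + s3 + s4) :=
    fun M _ c0 c1 c2 c3 c4 => by
      linarith [mul_le_mul_of_nonneg_right c0 a0, mul_le_mul_of_nonneg_right c1 a1,
        mul_le_mul_of_nonneg_right c2 a2, mul_le_mul_of_nonneg_right c3 a3,
        mul_le_mul_of_nonneg_right c4 a4]
  rcases le_total (s0 + s1 + s2 + s3 + s4) 3 with hs | hs
  · linarith [key 1 le_rfl b0 b1 b2 b3 b4]
  have key2 : ∀ M : ℝ, M ≤ 1 → s0 ≤ M → s1 ≤ M → s2 ≤ M → s3 ≤ M → s4 ≤ M →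
      s0 ^ 2 + s1 ^ 2 + s2 ^ 2 + s3 ^ 2 + s4 ^ 2 + 1 ≤ M + (s0 + s1 + s2 + s3 + s4) :=
    fun M hM c0 c1 c2 c3 c4 => by
      linarith [key M hM c0 c1 c2 c3 c4, mul_nonneg (sub_nonneg.2 hM)
        (by linarith : 0 ≤ s0 + s1 + s2 + s3 + s4 - 1)]
  obtain ⟨i, -, hi⟩ := exists_max_image univ ![s0, s1, s2, s3, s4] univ_nonempty
  have := key2 (![s0, s1, s2, s3, s4] i) (by fin_cases i <;> assumption) (hi 0 (mem_univ _))
    (hi 1 (mem_univ _)) (hi 2 (mem_univ _)) (hi 3 (mem_univ _)) (hi 4 (mem_univ _))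
  fin_cases i <;> simp at this <;> linarith

lemma k5 (x y : Fin 5 → ℝ) (h : ∀ j k, |x j * y k - y j * x k| ≤ 1) :
    ∑ j, ∑ k, (x j * y k - y j * x k) ^ 2 ≤ 16 := by
  obtain ⟨z, hz0, hz⟩ : ∃ z : Fin 5 → ℂ, (∀ j, 0 ≤ (z j).im) ∧ ∀ j k,
      |x j * y k - y j * x k| = |(z j).re * (z k).im - (z j).im * (z k).re| := by
    refine ⟨fun j => if 0 ≤ y j then ⟨x j, y j⟩ else ⟨-x j, -y j⟩, fun j => ?_, fun j k => ?_⟩
    · dsimp only; split_ifs with c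
      · exact c
      · exact neg_nonneg.2 (not_le.1 c).le
    · dsimp only; split_ifs
      · rfl
      · rw [← abs_neg]; congr 1; ring
      · rw [← abs_neg]; congr 1; ring
      · congr 1; ring
  obtain ⟨σ, hσ⟩ : ∃ σ : Equiv.Perm (Fin 5), Monotone ((fun j => (z j).arg) ∘ σ) :=
    ⟨_, Tuple.monotone_sort _⟩
  obtain ⟨q, hq⟩ : ∃ q : Fin 5 → Fin 5 → ℝ, ∀ j k,
    q j k = (z (σ j)).re * (z (σ k)).im - (z (σ j)).im * (z (σ k)).re := ⟨_, fun _ _ => rfl⟩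
  have h1 := k5b q (fun j k hjk => by
      have a : (z (σ j)).arg ≤ (z (σ k)).arg := hσ hjk
      have b := Real.sin_nonneg_of_nonneg_of_le_pi (sub_nonneg.2 a) (by
        linarith [Complex.arg_le_pi (z (σ k)), Complex.arg_nonneg_iff.2 (hz0 (σ j))])
      rw [hq, ← Complex.norm_mul_cos_arg, ← Complex.norm_mul_cos_arg (z (σ k)),
        ← Complex.norm_mul_sin_arg, ← Complex.norm_mul_sin_arg (z (σ j))]
      rw [Real.sin_sub] at b
      linarith [mul_nonneg (mul_nonneg (norm_nonneg (z (σ j))) (norm_nonneg (z (σ k)))) b])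
    (fun j k => by rw [hq]; exact (le_abs_self _).trans ((hz _ _).symm.trans_le (h _ _)))
    (fun i j k l => by simp only [hq]; ring)
  have h2 : ∑ j, ∑ k, (x j * y k - y j * x k) ^ 2 = ∑ j, ∑ k, q j k ^ 2 := by
    rw [← Equiv.sum_comp σ]
    refine sum_congr rfl fun j _ => ?_
    rw [← Equiv.sum_comp σ]
    exact sum_congr rfl fun k _ => by rw [← sq_abs, hz, sq_abs, hq]
  have h3 : ∀ j k, q k j ^ 2 = q j k ^ 2 := fun j k => by simp only [hq]; ring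
  have h4 : ∀ j, q j j ^ 2 = 0 := fun j => by simp only [hq]; ring
  rw [h2]
  simp only [Fin.sum_univ_five, h4]
  linarith [h3 0 1, h3 0 2, h3 0 3, h3 0 4, h3 1 2, h3 1 3, h3 1 4, h3 2 3, h3 2 4, h3 3 4]

lemma planar3 {ι : Type*} [Fintype ι] [DecidableEq ι] (i0 : ι) (c x y : ι → ℝ) (hc : ∀ i, 0 ≤ c i)
    (h : ∀ j k, |x j * y k - y j * x k| ≤ 1) :
    (∑ i, c i * (x i * x i)) * (∑ i, c i * (y i * y i)) - (∑ i, c i * (x i * y i)) ^ 2 ≤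
      (∑ i, c i) ^ 2 / 3 := by
  obtain ⟨c', a1, a2, a3, a4⟩ := cara (fun i => ![x i * x i, y i * y i, x i * y i]) _ c le_rfl hc
  have b0 := congrFun a3 0
  have b1 := congrFun a3 1
  have b2 := congrFun a3 2
  simp only [Finset.sum_apply, Pi.smul_apply, smul_eq_mul, Matrix.cons_val_zero,
    Matrix.cons_val_one, Matrix.cons_val] at b0 b1 b2
  obtain ⟨e, w, hw, hF⟩ := pad i0 c' a2
  have hw0 : ∀ k, 0 ≤ w k := fun k => by
    rcases hw k with h1 | h1 <;> rw [h1]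
    exact a1 _
  have b3 := hF fun _ => 1
  simp only [mul_one] at b3
  rw [← b0, ← b1, ← b2, hF, hF, hF]
  refine le_trans ?_ (div_le_div_of_nonneg_right
    (pow_le_pow_left₀ (sum_nonneg fun i _ => a1 i) a4 2) (by norm_num))
  rw [b3]
  simp only [Fin.sum_univ_three]
  have q : ∀ j k, w j * w k * (x (e j) * y (e k) - y (e j) * x (e k)) ^ 2 ≤ w j * w k := fun j k =>
    mul_le_of_le_one_right (mul_nonneg (hw0 j) (hw0 k)) ((sq_le_one_iff_abs_le_one _).2 (h _ _))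
  linarith [q 0 1, q 0 2, q 1 2, sq_nonneg (w 0 - w 1), sq_nonneg (w 0 - w 2), sq_nonneg (w 1 - w 2)]

lemma lp5 (c : Fin 5 → ℝ) (Q : Fin 5 → Fin 5 → ℝ) {ρ : ℝ} (hρ0 : 0 ≤ ρ) (hρ : ρ ≤ 1 / 5)
    (hc : ∀ j, c j ≤ ρ) (hs : c 0 + c 1 + c 2 + c 3 + c 4 = 1 - ρ) (hQ : ∀ j k, Q j k ≤ 1)
    (h4 : ∀ i j k l, Q i j + Q i k + Q i l + Q j k + Q j l + Q k l ≤ 5)
    (h5 : Q 0 1 + Q 0 2 + Q 0 3 + Q 0 4 + Q 1 2 + Q 1 3 + Q 1 4 + Q 2 3 + Q 2 4 + Q 3 4 ≤ 8) :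
    c 0 * c 1 * Q 0 1 + c 0 * c 2 * Q 0 2 + c 0 * c 3 * Q 0 3 + c 0 * c 4 * Q 0 4 +
      c 1 * c 2 * Q 1 2 + c 1 * c 3 * Q 1 3 + c 1 * c 4 * Q 1 4 + c 2 * c 3 * Q 2 3 +
      c 2 * c 4 * Q 2 4 + c 3 * c 4 * Q 3 4 ≤ 2 / 9 := by
  have p : ∀ j k, 0 ≤ (ρ - c j) * (ρ - c k) * (1 - Q j k) := fun j k =>
    mul_nonneg (mul_nonneg (sub_nonneg.2 (hc j)) (sub_nonneg.2 (hc k))) (sub_nonneg.2 (hQ j k))
  have l : ∀ m i j k l, 0 ≤ ρ * (ρ - c m) * (5 - (Q i j + Q i k + Q i l + Q j k + Q j l + Q k l)) :=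
    fun m i j k l => mul_nonneg (mul_nonneg hρ0 (sub_nonneg.2 (hc m))) (sub_nonneg.2 (h4 i j k l))
  have μ := mul_nonneg (mul_nonneg hρ0 (by linarith : 0 ≤ c 0 + c 1 + c 2 + c 3 + c 4 - 4 * ρ))
    (sub_nonneg.2 h5)
  have h6 : 1 / 6 ≤ ρ := by linarith [hc 0, hc 1, hc 2, hc 3, hc 4]
  have e : 2 / 5 * (c 0 + c 1 + c 2 + c 3 + c 4) ^ 2 - ρ * (c 0 + c 1 + c 2 + c 3 + c 4 - 3 * ρ) ≤
      2 / 9 := by
    rw [hs]; nlinarith [mul_nonneg (sub_nonneg.2 h6) (sub_nonneg.2 hρ)]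
  linarith [p 0 1, p 0 2, p 0 3, p 0 4, p 1 2, p 1 3, p 1 4, p 2 3, p 2 4, p 3 4, l 0 1 2 3 4,
    l 1 0 2 3 4, l 2 0 1 3 4, l 3 0 1 2 4, l 4 0 1 2 3, sq_nonneg (c 0 - c 1), sq_nonneg (c 0 - c 2),
    sq_nonneg (c 0 - c 3), sq_nonneg (c 0 - c 4), sq_nonneg (c 1 - c 2), sq_nonneg (c 1 - c 3),
    sq_nonneg (c 1 - c 4), sq_nonneg (c 2 - c 3), sq_nonneg (c 2 - c 4), sq_nonneg (c 3 - c 4)]

lemma planar5 {ι : Type*} [Fintype ι] [DecidableEq ι] (i0 : ι) (c x y : ι → ℝ) (hc : ∀ i, 0 ≤ c i)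
    {ρ : ℝ} (hρ : ∀ i, c i ≤ ρ) (hs : ∑ i, c i = 1 - ρ)
    (hcard : (univ.filter fun i => c i ≠ 0).card ≤ 5) (h : ∀ j k, |x j * y k - y j * x k| ≤ 1) :
    (∑ i, c i * (x i * x i)) * (∑ i, c i * (y i * y i)) - (∑ i, c i * (x i * y i)) ^ 2 ≤ 2 / 9 := by
  have hρ0 : 0 ≤ ρ := (hc i0).trans (hρ i0)
  rcases le_total ρ (1 / 5) with h1 | h1
  · obtain ⟨e, w, hw, hF⟩ := pad i0 c hcard
    have b3 := hF fun _ => 1
    simp only [mul_one, Fin.sum_univ_five] at b3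
    have h5 := k5 (fun j => x (e j)) (fun j => y (e j)) fun j k => h _ _
    simp only [Fin.sum_univ_five] at h5
    have := lp5 w (fun j k => (x (e j) * y (e k) - y (e j) * x (e k)) ^ 2) hρ0 h1 (fun k => by
        rcases hw k with h1 | h1 <;> rw [h1]
        exacts [hρ0, hρ _]) (b3.symm.trans hs) (fun j k => (sq_le_one_iff_abs_le_one _).2 (h _ _))
      (fun i j k l => k4 (h _ _) (h _ _) (h _ _) (h _ _) (h _ _) (h _ _) (by ring)) (by linarith)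
    rw [hF, hF, hF]
    simp only [Fin.sum_univ_five]
    linarith
  · refine (planar3 i0 c x y hc h).trans ?_
    have h2 : 0 ≤ 1 - ρ := hs ▸ sum_nonneg fun i _ => hc i
    rw [hs]; nlinarith

end Pool.Agent.Lib.MP_3b7d13_co
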