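import Pool.Agent.Lib.MP_3b7d13_co.Penta

/-! Support reduction and determinant bounds for five vectors. -/

namespace Pool.Agent.Lib.MP_3b7d13_co

open Finset Module

lemma reduce {ι E : Type*} [DecidableEq ι] [AddCommGroup E] [Module ℝ E] [FiniteDimensional ℝ E]
    (φ : ι → E) (S : Finset ι) : ∀ w : ι → ℝ, (∀ i ∈ S, 0 ≤ w i) →
      ∃ S' ⊆ S, S'.card ≤ finrank ℝ E ∧ ∃ μ : ι → ℝ, (∀ i ∈ S', 0 ≤ μ i) ∧
        ∑ i ∈ S', μ i ≤ ∑ i ∈ S, w i ∧ ∑ i ∈ S', μ i • φ i = ∑ i ∈ S, w i • φ i := by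
  induction S using Finset.strongInduction with
  | H S ih =>
    intro w hw
    rcases le_or_gt S.card (finrank ℝ E) with h | h
    · exact ⟨S, Subset.rfl, h, w, hw, le_rfl, rfl⟩
    have hd : ¬ LinearIndependent ℝ fun i : S => φ i := fun hl => by
      have := hl.fintype_card_le_finrank
      rw [Fintype.card_coe] at this
      omega
    obtain ⟨g, hg, i1, hi1⟩ := Fintype.not_linearIndependent_iff.1 hd
    have key : ∀ δ : ι → ℝ, ∑ i ∈ S, δ i • φ i = 0 → 0 ≤ ∑ i ∈ S, δ i → (∃ i ∈ S, δ i ≠ 0) →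
        ∃ S' ⊆ S, S'.card ≤ finrank ℝ E ∧ ∃ μ : ι → ℝ, (∀ i ∈ S', 0 ≤ μ i) ∧
          ∑ i ∈ S', μ i ≤ ∑ i ∈ S, w i ∧ ∑ i ∈ S', μ i • φ i = ∑ i ∈ S, w i • φ i := by
      intro δ h1 h2 h3
      have hne : (S.filter fun i => 0 < δ i).Nonempty := by
        by_contra hc
        rw [not_nonempty_iff_eq_empty, filter_eq_empty_iff] at hc
        obtain ⟨i, hi, hi'⟩ := h3
        have h4 : ∀ i ∈ S, δ i ≤ 0 := fun i hi => not_lt.1 (hc hi)
        exact hi' ((sum_eq_zero_iff_of_nonpos h4).1 (le_antisymm (sum_nonpos h4) h2) i hi)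
      obtain ⟨i0, hi0, hmin⟩ := exists_min_image _ (fun i => w i / δ i) hne
      rw [mem_filter] at hi0
      have ht : 0 ≤ w i0 / δ i0 := div_nonneg (hw i0 hi0.1) hi0.2.le
      have h0 : w i0 - w i0 / δ i0 * δ i0 = 0 := by
        rw [div_mul_cancel₀ _ hi0.2.ne', sub_self]
      obtain ⟨S', a1, a2, μ, a3, a4, a5⟩ := ih (S.erase i0) (erase_ssubset hi0.1)
        (fun i => w i - w i0 / δ i0 * δ i) fun i hi => by
          have hi' := mem_of_mem_erase hi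
          rcases le_or_gt (δ i) 0 with c | c
          · nlinarith [hw i hi', mul_nonneg ht (neg_nonneg.2 c)]
          · have := (le_div_iff₀ c).1 (hmin i (mem_filter.2 ⟨hi', c⟩))
            linarith
      refine ⟨S', a1.trans (erase_subset _ _), a2, μ, a3, a4.trans ?_, a5.trans ?_⟩
      · rw [sum_erase (f := fun i => w i - w i0 / δ i0 * δ i) _ h0, sum_sub_distrib, ← mul_sum]
        linarith [mul_nonneg ht h2]
      · rw [sum_erase _ (by rw [h0, zero_smul])]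
        simp only [sub_smul, sum_sub_distrib, mul_smul, ← smul_sum, h1, smul_zero, sub_zero]
    obtain ⟨δ, hδ⟩ : ∃ δ : ι → ℝ, ∀ i, δ i = if h : i ∈ S then g ⟨i, h⟩ else 0 := ⟨_, fun _ => rfl⟩
    have hδ1 : ∑ i ∈ S, δ i • φ i = 0 := by
      rw [← hg, ← sum_coe_sort S]
      exact sum_congr rfl fun i _ => by rw [hδ, dif_pos i.2]
    have hδ2 : δ i1 ≠ 0 := by rw [hδ, dif_pos i1.2]; exact hi1
    rcases le_total 0 (∑ i ∈ S, δ i) with c | c
    · exact key δ hδ1 c ⟨i1, i1.2, hδ2⟩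
    · exact key (fun i => -δ i) (by simp only [neg_smul, sum_neg_distrib, hδ1, neg_zero])
        (by rw [sum_neg_distrib]; linarith) ⟨i1, i1.2, neg_ne_zero.2 hδ2⟩

lemma planar_sum {ι : Type*} (f g : ι → ℝ) (S : Finset ι) (w : ι → ℝ) :
    ∑ j ∈ S, ∑ k ∈ S, w j * w k * (f j * g k - f k * g j) ^ 2 =
      2 * ((∑ j ∈ S, w j • ![f j ^ 2, g j ^ 2, f j * g j]) 0 *
        (∑ j ∈ S, w j • ![f j ^ 2, g j ^ 2, f j * g j]) 1 -
        (∑ j ∈ S, w j • ![f j ^ 2, g j ^ 2, f j * g j]) 2 ^ 2) := by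
  simp only [Finset.sum_apply, Pi.smul_apply, smul_eq_mul, Matrix.cons_val_zero, Matrix.cons_val_one,
    Matrix.cons_val]
  have e : (∑ j ∈ S, w j * f j ^ 2) * ∑ j ∈ S, w j * g j ^ 2 =
      (∑ j ∈ S, w j * g j ^ 2) * ∑ j ∈ S, w j * f j ^ 2 := mul_comm _ _
  rw [mul_sub, two_mul, two_mul]
  nth_rewrite 2 [e]
  simp only [sq (∑ j ∈ S, _), sum_mul_sum, ← sum_add_distrib, ← sum_sub_distrib]
  exact sum_congr rfl fun _ _ => sum_congr rfl fun _ _ => by ring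

lemma planar_weighted {ι : Type*} [DecidableEq ι] (f g : ι → ℝ) (S : Finset ι) (w : ι → ℝ)
    (hw : ∀ i ∈ S, 0 ≤ w i) (h : ∀ j k, (f j * g k - f k * g j) ^ 2 ≤ 1) :
    ∑ j ∈ S, ∑ k ∈ S, w j * w k * (f j * g k - f k * g j) ^ 2 ≤ 2 / 3 * (∑ j ∈ S, w j) ^ 2 := by
  obtain ⟨S', -, a2, μ, a3, a4, a5⟩ := reduce (fun j => ![f j ^ 2, g j ^ 2, f j * g j]) S w hw
  rw [planar_sum, ← a5, ← planar_sum]
  have h1 : ∑ j ∈ S', ∑ k ∈ S', μ j * μ k * (f j * g k - f k * g j) ^ 2 ≤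
      (∑ j ∈ S', μ j) ^ 2 - ∑ j ∈ S', μ j ^ 2 := by
    rw [sq, sum_mul_sum, ← sum_sub_distrib]
    refine sum_le_sum fun j hj => ?_
    rw [← add_sum_erase _ _ hj, ← add_sum_erase _ (fun k => μ j * μ k) hj]
    have : ∑ k ∈ S'.erase j, μ j * μ k * (f j * g k - f k * g j) ^ 2 ≤ ∑ k ∈ S'.erase j, μ j * μ k :=
      sum_le_sum fun k hk => mul_le_of_le_one_right
        (mul_nonneg (a3 j hj) (a3 k (mem_of_mem_erase hk))) (h j k)
    linarith
  have h2 : (∑ j ∈ S', μ j) ^ 2 ≤ S'.card * ∑ j ∈ S', μ j ^ 2 := sq_sum_le_card_mul_sum_sq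
  have h3 : (S'.card : ℝ) ≤ 3 := by exact_mod_cast a2.trans (by simp)
  have h4 := mul_le_mul_of_nonneg_right h3 (sum_nonneg fun j (_ : j ∈ S') => sq_nonneg (μ j))
  have h5 := pow_le_pow_left₀ (sum_nonneg a3) a4 2
  linarith

/-- the determinant of three vectors -/
def d3 (a b c : Fin 3 → ℝ) : ℝ :=
  a 0 * (b 1 * c 2 - b 2 * c 1) - a 1 * (b 0 * c 2 - b 2 * c 0) + a 2 * (b 0 * c 1 - b 1 * c 0)

lemma d3_proj (v : Fin 3 → ℝ) :
    ∃ f g : (Fin 3 → ℝ) → ℝ, ∀ a b, d3 v a b = f a * g b - f b * g a := by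
  by_cases h0 : v 0 = 0
  · by_cases h1 : v 1 = 0
    · exact ⟨fun a => v 2 * a 0, fun a => a 1, fun a b => by simp only [d3, h0, h1]; ring⟩
    · exact ⟨fun a => v 1 * a 2 - v 2 * a 1, fun a => a 0, fun a b => by simp only [d3, h0]; ring⟩
  · exact ⟨fun a => v 0 * a 1 - v 1 * a 0, fun a => (v 0 * a 2 - v 2 * a 0) / v 0,
      fun a b => by simp only [d3]; field_simp; ring⟩

lemma link5 (v : Fin 3 → ℝ) (u : Fin 5 → Fin 3 → ℝ) (h : ∀ j k, d3 v (u j) (u k) ^ 2 ≤ 1) :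
    ∑ j, ∑ k, d3 v (u j) (u k) ^ 2 ≤ 16 := by
  have := ten (fun i => d3 v (u i.castSucc) (u 4)) (fun j k => d3 v (u j.castSucc) (u k.castSucc))
    (fun _ => h _ _) (fun _ _ => h _ _) (fun j k => by simp only [d3]; ring)
    (fun j k => by simp only [d3]; ring) (by simp only [d3]; ring)
  refine le_trans (le_of_eq ?_) this
  simp only [Fin.sum_univ_castSucc (n := 4), sum_add_distrib, two_mul]
  have e1 : ∀ j, d3 v (u (Fin.last 4)) (u j) ^ 2 = d3 v (u j) (u 4) ^ 2 := fun j => by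
    change d3 v (u 4) (u j) ^ 2 = _
    simp only [d3]; ring
  have e2 : d3 v (u (Fin.last 4)) (u 4) = 0 := by
    change d3 v (u 4) (u 4) = _
    simp only [d3]; ring
  simp only [e1, e2]
  change _ + ∑ x : Fin 4, d3 v (u x.castSucc) (u 4) ^ 2 + _ = _
  ring

lemma omit5 (u : Fin 5 → Fin 3 → ℝ) (h : ∀ i j k, d3 (u i) (u j) (u k) ^ 2 ≤ 1) :
    ∑ i, ∑ j, ∑ k, d3 (u i) (u j) (u k) ^ 2 ≤ 48 := by
  have := ten ![d3 (u 1) (u 2) (u 3), -d3 (u 0) (u 2) (u 3), d3 (u 0) (u 1) (u 3), -d3 (u 0) (u 1) (u 2)]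
    ![![0, d3 (u 2) (u 3) (u 4), -d3 (u 1) (u 3) (u 4), d3 (u 1) (u 2) (u 4)],
      ![-d3 (u 2) (u 3) (u 4), 0, d3 (u 0) (u 3) (u 4), -d3 (u 0) (u 2) (u 4)],
      ![d3 (u 1) (u 3) (u 4), -d3 (u 0) (u 3) (u 4), 0, d3 (u 0) (u 1) (u 4)],
      ![-d3 (u 1) (u 2) (u 4), d3 (u 0) (u 2) (u 4), -d3 (u 0) (u 1) (u 4), 0]]
    (fun i => by fin_cases i <;> simp [-sq_le_one_iff_abs_le_one, h])
    (fun j k => by fin_cases j <;> fin_cases k <;> simp [-sq_le_one_iff_abs_le_one, h])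
    (fun j k => by fin_cases j <;> fin_cases k <;> simp [d3] <;> ring)
    (fun j k => by fin_cases j <;> fin_cases k <;> simp)
    (by simp [d3]; ring)
  simp only [Fin.sum_univ_four, Matrix.cons_val_zero, Matrix.cons_val_one, Matrix.cons_val] at this
  refine le_trans (le_of_eq ?_) (mul_le_mul_of_nonneg_left this (by norm_num : (0 : ℝ) ≤ 3)) |>.trans
    (by norm_num)
  simp only [Fin.sum_univ_five, d3]
  ring

end Pool.Agent.Lib.MP_3b7d13_co
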