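import Pool.Agent.Lib.MP_3b7d13_co.Hex

/-! The configuration of the six root directions of `A₃`. -/

namespace Pool.Agent.Lib.MP_3b7d13_co

open Finset Real Filter Topology

lemma choose_gauss0 (k j : ℕ) : (k.choose ((k + 1) / 2 + j) : ℝ) ≤ k.choose (k / 2) *
    exp (-(((2 * ((k + 1) / 2 + j : ℕ) - k) ^ 2 - 1) / (2 * (k + 1)))) := by
  obtain ⟨h0, hh⟩ : ∃ h0, h0 = (k + 1) / 2 := ⟨_, rfl⟩
  have hh1 : (k : ℝ) ≤ 2 * h0 := by exact_mod_cast (by omega : k ≤ 2 * h0)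
  have hh2 : 2 * (h0 : ℝ) ≤ k + 1 := by exact_mod_cast (by omega : 2 * h0 ≤ k + 1)
  rw [← hh]
  induction j with
  | zero =>
    refine le_trans (Nat.cast_le.2 (Nat.choose_le_middle _ _))
      (le_mul_of_one_le_right (Nat.cast_nonneg _) (one_le_exp (neg_nonneg.2
        (div_nonpos_of_nonpos_of_nonneg ?_ (by positivity)))))
    push_cast; nlinarith
  | succ j ih =>
    rcases lt_or_ge k (h0 + (j + 1)) with h | h
    · rw [Nat.choose_eq_zero_of_lt h]; simp; positivity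
    have h1 : (k.choose (h0 + (j + 1)) : ℝ) * (h0 + j + 1) = k.choose (h0 + j) * (k - (h0 + j)) := by
      have := congrArg (Nat.cast : ℕ → ℝ) (Nat.choose_succ_right_eq k (h0 + j))
      push_cast [show h0 + j ≤ k by omega] at this
      exact this
    have hj : (0 : ℝ) ≤ j := Nat.cast_nonneg j
    have h2 := ratio_le_exp (a := (k + 1) / 2) (y := h0 + j + 1 - (k + 1) / 2) (by positivity)
      (by linarith)
    have h5 : exp (-(((2 * ((h0 + j : ℕ) : ℝ) - k) ^ 2 - 1) / (2 * (k + 1)))) *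
        exp (-(2 * (h0 + j + 1 - (k + 1) / 2) / ((k + 1) / 2))) =
        exp (-(((2 * ((h0 + (j + 1) : ℕ) : ℝ) - k) ^ 2 - 1) / (2 * (k + 1)))) := by
      rw [← exp_add]; congr 1; push_cast; field_simp; ring
    apply le_of_mul_le_mul_right _ (by positivity : (0 : ℝ) < h0 + j + 1)
    rw [h1, ← h5]
    refine (mul_le_mul ih (le_of_eq_of_le (by ring) h2) ?_ (by positivity)).trans (le_of_eq (by ring))
    have : ((h0 + (j + 1) : ℕ) : ℝ) ≤ k := by exact_mod_cast h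
    push_cast at this; linarith

lemma choose_gauss (k h : ℕ) : (k.choose h : ℝ) ≤ k.choose (k / 2) *
    exp (-(((2 * h - k) ^ 2 - 1) / (2 * (k + 1)))) := by
  rcases le_or_gt ((k + 1) / 2) h with h1 | h1
  · obtain ⟨j, rfl⟩ := Nat.exists_eq_add_of_le h1
    exact choose_gauss0 k j
  · obtain ⟨j, hj⟩ := Nat.exists_eq_add_of_le (show (k + 1) / 2 ≤ k - h by omega)
    have := choose_gauss0 k j
    rw [← hj, Nat.choose_symm (by omega), Nat.cast_sub (by omega)] at this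
    convert this using 5; ring

lemma class_half {b : ℝ} (hb : 0 < b) (A : Finset ℤ) (e : ℤ) (h : ∀ z ∈ A, 0 ≤ z ∧ z % 4 = e) :
    ∑ z ∈ A, exp (-(b * (z : ℝ) ^ 2)) ≤ 1 + √(π / b) / 8 := by
  have h1 : ∑ z ∈ A, exp (-(b * (z : ℝ) ^ 2)) ≤
      ∑ i ∈ A.image fun z => (z / 4).toNat, exp (-(16 * b * ((i : ℕ) : ℝ) ^ 2)) := by
    rw [sum_image fun z hz z' hz' hzz => by
      have := h z hz
      have := h z' hz'
      have : (z / 4).toNat = (z' / 4).toNat := hzz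
      omega]
    refine sum_le_sum fun z hz => exp_le_exp.2 (neg_le_neg ?_)
    have h2 : 4 * (((z / 4).toNat : ℤ) : ℝ) ≤ z := by
      have := h z hz
      exact_mod_cast (by omega : 4 * ((z / 4).toNat : ℤ) ≤ z)
    rw [Int.cast_natCast] at h2
    have := mul_le_mul_of_nonneg_left (pow_le_pow_left₀ (by positivity) h2 2) hb.le
    linarith
  obtain ⟨N, hN⟩ := (A.image fun z => (z / 4).toNat).exists_nat_subset_range
  refine (h1.trans (sum_le_sum_of_subset_of_nonneg hN fun _ _ _ => (exp_pos _).le)).trans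
    ((sum_gauss_le (by positivity) N).trans (le_of_eq ?_))
  rw [show π / (16 * b) = π / b / 4 ^ 2 by field_simp; norm_num, sqrt_div' _ (by norm_num),
    sqrt_sq (by norm_num)]
  ring

lemma class_sum {b : ℝ} (hb : 0 < b) (A : Finset ℤ) (e : ℤ) (h : ∀ z ∈ A, z % 4 = e) :
    ∑ z ∈ A, exp (-(b * (z : ℝ) ^ 2)) ≤ 2 + √(π / b) / 4 := by
  rw [← sum_filter_add_sum_filter_not A fun z => 0 ≤ z]
  have h1 := class_half hb (A.filter fun z => 0 ≤ z) e fun z hz =>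
    ⟨(mem_filter.1 hz).2, h z (mem_filter.1 hz).1⟩
  have h2 := class_half hb ((A.filter fun z => ¬ 0 ≤ z).image fun z => -z) (-e % 4) fun z hz => by
    obtain ⟨w, hw, rfl⟩ := mem_image.1 hz
    have := (mem_filter.1 hw).2
    have := h w (mem_filter.1 hw).1
    omega
  rw [sum_image fun z _ z' _ hzz => neg_injective hzz] at h2
  simp only [Int.cast_neg, neg_sq] at h2
  linarith

/-- the six root directions -/
noncomputable def rt : Fin 6 → EuclideanSpace ℝ (Fin 3) :=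
  ![!₂[√2 / 2, √2 / 2, 0], !₂[√2 / 2, -(√2 / 2), 0], !₂[√2 / 2, 0, √2 / 2],
    !₂[√2 / 2, 0, -(√2 / 2)], !₂[0, √2 / 2, √2 / 2], !₂[0, √2 / 2, -(√2 / 2)]]

lemma rt_norm (m : Fin 6) : ‖rt m‖ = 1 := by
  have : ‖rt m‖ ^ 2 = 1 := by
    rw [EuclideanSpace.real_norm_sq_eq, Fin.sum_univ_three]
    fin_cases m <;> simp [rt, div_pow] <;> norm_num
  exact (pow_eq_one_iff_of_nonneg (norm_nonneg _) two_ne_zero).1 this

/-- class sizes -/
def rK (l c : ℕ) : Fin 6 → ℕ := ![2 * l + c, 2 * l, 2 * l + c, 2 * l, 2 * l, 2 * l + c]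

/-- admissible numbers of heads -/
def rH (l c : ℕ) : Finset (Fin 6 → ℕ) :=
  (Fintype.piFinset fun m => range (rK l c m + 1)).filter fun h =>
    h 0 + h 1 + h 2 + h 3 = 4 * l + c ∧ h 0 + h 4 + h 5 = h 1 + 2 * l + c ∧
      h 2 + h 4 = h 3 + h 5

lemma rt_card (l c : ℕ) {r : ℝ} (hr : r < 2) :
    (univ.filter fun ε : Fin (∑ m, rK l c m) → Bool =>
      ‖∑ i, sgn (ε i) • rt (finSigmaFinEquiv.symm i).1‖ ≤ r).card ≤
      ∑ h ∈ rH l c, ∏ m, (rK l c m).choose (h m) := by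
  refine le_trans (card_le_card_of_injOn (t := (rH l c).biUnion fun h => Fintype.piFinset fun m =>
    univ.filter fun y : Fin (rK l c m) → Bool => heads y = h m)
    (fun ε m i => ε (finSigmaFinEquiv ⟨m, i⟩)) ?_ ?_) (card_biUnion_le.trans (le_of_eq ?_))
  · intro ε hε
    rw [mem_coe, mem_filter] at hε
    have h2 := hε.2.trans_lt hr
    rw [← sq_lt_sq₀ (norm_nonneg _) (by norm_num), EuclideanSpace.real_norm_sq_eq,
      ← finSigmaFinEquiv.sum_comp, Fintype.sum_sigma] at h2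
    simp only [Equiv.symm_apply_apply, ← sum_smul, sum_sgn] at h2
    obtain ⟨h, hh⟩ : ∃ h : Fin 6 → ℕ, ∀ m, h m = heads fun i => ε (finSigmaFinEquiv ⟨m, i⟩) :=
      ⟨_, fun _ => rfl⟩
    simp only [← hh] at h2
    simp only [Fin.sum_univ_three, Fin.sum_univ_six, rt, rK, Matrix.cons_val, WithLp.ofLp_add,
      WithLp.ofLp_smul, Pi.add_apply, Pi.smul_apply, smul_eq_mul] at h2
    push_cast at h2
    have h3 : (√2 : ℝ) ^ 2 = 2 := sq_sqrt (by norm_num)
    obtain ⟨P, hP⟩ : ∃ P : ℤ, P = h 0 + h 1 + h 2 + h 3 - (4 * l + c) := ⟨_, rfl⟩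
    obtain ⟨Q, hQ⟩ : ∃ Q : ℤ, Q = h 0 + h 4 + h 5 - (h 1 + 2 * l + c) := ⟨_, rfl⟩
    obtain ⟨R, hR⟩ : ∃ R : ℤ, R = h 2 + h 4 - (h 3 + h 5) := ⟨_, rfl⟩
    have h4 : P ^ 2 + Q ^ 2 + R ^ 2 < 2 := by
      have : (P : ℝ) ^ 2 + Q ^ 2 + R ^ 2 < 2 := by
        have e : √2 ^ 2 * ((P : ℝ) ^ 2 + Q ^ 2 + R ^ 2) < 2 ^ 2 := by
          refine lt_of_eq_of_lt ?_ h2
          rw [hP, hQ, hR]; push_cast; ring
        rw [h3] at e; linarith
      exact_mod_cast this
    have k : ∀ x : ℤ, x ^ 2 < 2 → -2 < x ∧ x < 2 := fun x hx => by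
      constructor <;> nlinarith only [hx]
    have p1 := k P (by linarith only [h4, sq_nonneg Q, sq_nonneg R])
    have q1 := k Q (by linarith only [h4, sq_nonneg P, sq_nonneg R])
    have r1 := k R (by linarith only [h4, sq_nonneg Q, sq_nonneg P])
    have h5 : (P + Q + R) % 2 = 0 := by omega
    have h6 : P = 0 ∧ Q = 0 ∧ R = 0 := by
      clear hP hQ hR h2 hε k
      obtain ⟨_, _⟩ := p1
      obtain ⟨_, _⟩ := q1
      obtain ⟨_, _⟩ := r1
      interval_cases P <;> interval_cases Q <;> interval_cases R <;> omega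
    rw [mem_coe, mem_biUnion]
    refine ⟨h, mem_filter.2 ⟨Fintype.mem_piFinset.2 fun m => mem_range.2 (Nat.lt_succ_of_le ?_),
      by omega⟩, Fintype.mem_piFinset.2 fun m => mem_filter.2 ⟨mem_univ _, (hh m).symm⟩⟩
    rw [hh]; exact heads_le _
  · intro ε _ ε' _ h
    funext j
    obtain ⟨⟨l, i⟩, rfl⟩ := finSigmaFinEquiv.surjective j
    exact congrFun (congrFun h l) i
  · refine sum_congr rfl fun h _ => ?_
    rw [Fintype.card_piFinset]
    exact prod_congr rfl fun m _ => card_heads _ _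

lemma rH_sum (l c : ℕ) (hc : c ≤ 1) {b : ℝ} (hb : 0 < b) :
    ∑ h ∈ rH l c, exp (-(b * ∑ m, (2 * (h m : ℝ) - rK l c m) ^ 2)) ≤
      2 * (2 + √(π / b) / 4) ^ 3 := by
  obtain ⟨φ, hφ⟩ : ∃ φ : (Fin 6 → ℕ) → ℤ × ℤ × ℤ, ∀ h, φ h =
    (2 * ((h 0 : ℤ) + h 1) - (4 * l + c), 2 * ((h 0 : ℤ) - h 1) - c, 2 * ((h 2 : ℤ) - h 3) - c) :=
    ⟨_, fun _ => rfl⟩
  obtain ⟨g, hg⟩ : ∃ g : ℤ → ℝ, ∀ z, g z = exp (-(b * (z : ℝ) ^ 2)) := ⟨_, fun _ => rfl⟩
  have hg0 : ∀ z, 0 ≤ g z := fun z => by rw [hg]; positivity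
  obtain ⟨U, hU⟩ : ∃ U : Finset ℤ, ∀ h ∈ rH l c, (φ h).1 ∈ U ∧ (φ h).2.1 ∈ U ∧ (φ h).2.2 ∈ U :=
    ⟨(rH l c).image (fun h => (φ h).1) ∪ (rH l c).image (fun h => (φ h).2.1) ∪
      (rH l c).image (fun h => (φ h).2.2), fun h hh =>
      ⟨mem_union_left _ (mem_union_left _ (mem_image_of_mem _ hh)),
        mem_union_left _ (mem_union_right _ (mem_image_of_mem _ hh)),
        mem_union_right _ (mem_image_of_mem _ hh)⟩⟩
  obtain ⟨Z, hZ⟩ : ∃ Z : ℤ → Finset (ℤ × ℤ × ℤ), ∀ e, Z e = (U.filter fun z => z % 4 = e) ×ˢ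
    (U.filter fun z => z % 4 = e) ×ˢ (U.filter fun z => z % 4 = -e % 4) := ⟨_, fun _ => rfl⟩
  have h1 : ∀ e, ∑ z ∈ Z e, g z.1 * (g z.2.1 * g z.2.2) ≤ (2 + √(π / b) / 4) ^ 3 := fun e => by
    have a : ∀ e, ∑ z ∈ U.filter fun z => z % 4 = e, g z ≤ 2 + √(π / b) / 4 := fun e => by
      simp only [hg]; exact class_sum hb _ e fun z hz => (mem_filter.1 hz).2
    rw [hZ, sum_product]
    simp only [← mul_sum, sum_product, ← sum_mul]
    rw [pow_three]
    exact mul_le_mul (a _) (mul_le_mul (a _) (a _) (sum_nonneg fun _ _ => hg0 _) (by positivity))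
      (mul_nonneg (sum_nonneg fun _ _ => hg0 _) (sum_nonneg fun _ _ => hg0 _)) (by positivity)
  have h2 : ∑ h ∈ rH l c, exp (-(b * ∑ m, (2 * (h m : ℝ) - rK l c m) ^ 2)) =
      ∑ z ∈ (rH l c).image φ, g z.1 * (g z.2.1 * g z.2.2) := by
    rw [sum_image fun h hh h' hh' e => by
      have a := (mem_filter.1 hh).2
      have a' := (mem_filter.1 hh').2
      simp only [hφ, Prod.mk.injEq] at e
      funext m
      fin_cases m <;> simp <;> omega]
    refine sum_congr rfl fun h hh => ?_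
    obtain ⟨a1, a2, a3⟩ := (mem_filter.1 hh).2
    have b1 := congrArg (Nat.cast : ℕ → ℝ) a1
    have b2 := congrArg (Nat.cast : ℕ → ℝ) a2
    have b3 := congrArg (Nat.cast : ℕ → ℝ) a3
    simp only [hg, hφ, ← exp_add, Fin.sum_univ_six, rK, Matrix.cons_val]
    push_cast at b1 b2 b3 ⊢
    congr 1
    have c3 : (h 3 : ℝ) = 4 * l + c - h 0 - h 1 - h 2 := by linarith
    have c4 : (h 4 : ℝ) = 3 * l + c - h 0 - h 2 := by linarith
    have c5 : (h 5 : ℝ) = h 1 + h 2 - l := by linarith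
    rw [c3, c4, c5]; ring
  have h3 : (rH l c).image φ ⊆ Z c ∪ Z (c + 2) := fun z hz => by
    obtain ⟨h, hh, rfl⟩ := mem_image.1 hz
    have a := (mem_filter.1 hh).2
    obtain ⟨u1, u2, u3⟩ := hU h hh
    simp only [hZ, mem_union, mem_product, mem_filter, u1, u2, u3, true_and]
    simp only [hφ]
    omega
  rw [h2]
  refine (sum_le_sum_of_subset_of_nonneg h3 fun _ _ _ =>
    mul_nonneg (hg0 _) (mul_nonneg (hg0 _) (hg0 _))).trans ?_
  have h4 := sum_union_inter (s₁ := Z c) (s₂ := Z (c + 2)) (f := fun z => g z.1 * (g z.2.1 * g z.2.2))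
  have h5 : 0 ≤ ∑ z ∈ Z c ∩ Z (c + 2), g z.1 * (g z.2.1 * g z.2.2) :=
    sum_nonneg fun _ _ => mul_nonneg (hg0 _) (mul_nonneg (hg0 _) (hg0 _))
  linarith [h1 c, h1 (c + 2)]

lemma rt_F (l c : ℕ) (hl : 1 ≤ l) (hc : c ≤ 1) {r : ℝ} (hr : r < 2) {u : ℝ} (hu : u = 1 / (2 * l)) :
    √(∑ m, rK l c m : ℕ) ^ 3 * F 3 r (∑ m, rK l c m) ≤
      2 * exp (3 * u) * (√(6 * (1 + u)) * (2 / π) * (2 * √u + √(2 * π * (1 + 2 * u)) / 4)) ^ 3 := by
  obtain ⟨k, hk⟩ : ∃ k : ℝ, k = 2 * l := ⟨_, rfl⟩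
  have hk0 : 0 < k := by rw [hk]; positivity
  rw [← hk] at hu
  have hK : ∀ m, k ≤ rK l c m ∧ (rK l c m : ℝ) ≤ k + 1 := fun m => by
    have : 2 * l ≤ rK l c m ∧ rK l c m ≤ 2 * l + 1 := by fin_cases m <;> simp [rK] <;> omega
    rw [hk]; exact_mod_cast this
  have a1 : F 3 r (∑ m, rK l c m) ≤ prob (fun i : Fin (∑ m, rK l c m) =>
      rt (finSigmaFinEquiv.symm i).1) r :=
    ciInf_le (f := fun V : Fin (∑ m, rK l c m) →
      Metric.sphere (0 : EuclideanSpace ℝ (Fin 3)) 1 => prob (fun i => (V i).1) r)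
    ⟨0, by rintro _ ⟨V, rfl⟩; unfold prob; positivity⟩
    (fun i => ⟨rt (finSigmaFinEquiv.symm i).1, mem_sphere_zero_iff_norm.2 (rt_norm _)⟩)
  have a2 : prob (fun i : Fin (∑ m, rK l c m) => rt (finSigmaFinEquiv.symm i).1) r ≤
      √(2 / π * u) ^ 6 * exp (3 * u) * (2 * (2 + √(π / (1 / (2 * (k + 2)))) / 4) ^ 3) := by
    unfold prob
    rw [div_le_iff₀ (by positivity)]
    refine ((Nat.cast_le (α := ℝ)).2 (rt_card l c hr)).trans ?_
    refine le_trans ?_ (mul_le_mul_of_nonneg_right (mul_le_mul_of_nonneg_left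
      (rH_sum l c hc (by positivity)) (by positivity)) (by positivity))
    rw [mul_sum, sum_mul, Nat.cast_sum]
    refine sum_le_sum fun h _ => ?_
    have e : √(2 / π * u) ^ 6 * exp (3 * u) *
        exp (-(1 / (2 * (k + 2)) * ∑ m, (2 * (h m : ℝ) - rK l c m) ^ 2)) * 2 ^ ∑ m, rK l c m =
        ∏ m, √(2 / π * u) * 2 ^ rK l c m *
          exp (u / 2 - 1 / (2 * (k + 2)) * (2 * (h m : ℝ) - rK l c m) ^ 2) := by
      rw [prod_mul_distrib, prod_mul_distrib, prod_pow_eq_pow_sum, ← exp_sum, sum_sub_distrib,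
        ← mul_sum, Fin.prod_const, Fin.sum_const, sub_eq_add_neg, exp_add]
      simp only [nsmul_eq_mul, Nat.cast_ofNat]
      rw [show 6 * (u / 2) = 3 * u by ring]; ring
    rw [e, Nat.cast_prod]
    refine prod_le_prod (fun _ _ => Nat.cast_nonneg _) fun m _ => (choose_gauss _ _).trans
      (mul_le_mul ?_ (exp_le_exp.2 ?_) (by positivity) (by positivity))
    · rw [← div_le_iff₀ (by positivity)]
      refine le_sqrt_of_sq_le ?_
      have b1 := mid_sq_le (rK l c m)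
      have b3 := mul_le_mul_of_nonneg_left (hK m).1
        (by positivity : 0 ≤ π * (((rK l c m).choose (rK l c m / 2) : ℝ) / 2 ^ rK l c m) ^ 2)
      rw [hu, mul_one_div, le_div_iff₀ hk0, le_div_iff₀ pi_pos]
      linarith
    · have b1 : 1 / (2 * ((rK l c m : ℝ) + 1)) ≤ u / 2 := by
        rw [hu, div_div]
        exact one_div_le_one_div_of_le (by positivity) (by linarith [(hK m).1])
      have b2 : 1 / (2 * (k + 2)) ≤ 1 / (2 * ((rK l c m : ℝ) + 1)) :=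
        one_div_le_one_div_of_le (by positivity) (by linarith [(hK m).2])
      have b3 := mul_le_mul_of_nonneg_right b2 (sq_nonneg (2 * (h m : ℝ) - rK l c m))
      rw [sub_div, div_eq_mul_one_div (_ ^ 2)]
      linarith
  have a3 : ((∑ m, rK l c m : ℕ) : ℝ) ≤ 6 * (k + 1) := by
    rw [Nat.cast_sum]
    exact (sum_le_card_nsmul univ (fun m => (rK l c m : ℝ)) (k + 1) fun m _ => (hK m).2).trans
      (by simp [mul_add])
  have hu0 : 0 < u := by rw [hu]; positivity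
  have e1 : √(6 * (k + 1)) * √u = √(6 * (1 + u)) := by
    rw [← sqrt_mul (by positivity), hu]; congr 1; field_simp
  have e2 : √(π / (1 / (2 * (k + 2)))) * √u = √(2 * π * (1 + 2 * u)) := by
    rw [← sqrt_mul (by positivity), hu]; congr 1; field_simp
  have e3 : √(2 / π * u) ^ 6 = (2 / π * (√u * √u)) ^ 3 := by
    rw [mul_self_sqrt hu0.le, show 6 = 2 * 3 by rfl, pow_mul, sq_sqrt (by positivity)]
  refine ((mul_le_mul_of_nonneg_left (a1.trans a2) (by positivity)).trans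
    (mul_le_mul_of_nonneg_right (pow_le_pow_left₀ (sqrt_nonneg _) (sqrt_le_sqrt a3) 3)
      (by positivity))).trans (le_of_eq ?_)
  rw [← e1, ← e2, e3]; ring

lemma rt_tendsto : Tendsto (fun l : ℕ => (fun u : ℝ => 2 * exp (3 * u) *
    (√(6 * (1 + u)) * (2 / π) * (2 * √u + √(2 * π * (1 + 2 * u)) / 4)) ^ 3) (1 / (2 * l)))
    atTop (𝓝 (2 * √(3 / π) ^ 3)) := by
  have h1 : Tendsto (fun l : ℕ => 1 / (2 * (l : ℝ))) atTop (𝓝 0) :=
    tendsto_const_nhds.div_atTop (tendsto_natCast_atTop_atTop.const_mul_atTop two_pos)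
  have h2 : Continuous fun u : ℝ => 2 * exp (3 * u) *
      (√(6 * (1 + u)) * (2 / π) * (2 * √u + √(2 * π * (1 + 2 * u)) / 4)) ^ 3 := by fun_prop
  have h3 : √(3 / π) = √6 * (2 / π) * (√(2 * π) / 4) := by
    rw [sqrt_eq_iff_mul_self_eq_of_pos (by positivity)]
    have a := mul_self_sqrt (by norm_num : (0 : ℝ) ≤ 6)
    have b := mul_self_sqrt (by positivity : (0 : ℝ) ≤ 2 * π)
    calc _ = √6 * √6 * (√(2 * π) * √(2 * π)) * (2 / π) ^ 2 / 16 := by ring
      _ = _ := by rw [a, b]; field_simp; norm_num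
  have h4 := (h2.tendsto 0).comp h1
  rw [h3]
  simp only [mul_zero, exp_zero, add_zero, mul_one, sqrt_zero, zero_add] at h4
  exact h4

end Pool.Agent.Lib.MP_3b7d13_co
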