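import Pool.Agent.Lib.MP_3b7d13_co.GaussUp

/-! The configuration of the six edge directions of a regular tetrahedron. -/

namespace Pool.Agent.Lib.MP_3b7d13_co

open Finset Real Filter Topology

/-- the six edge directions of a regular tetrahedron -/
noncomputable def rootv (l : Fin 6) : EuclideanSpace ℝ (Fin 3) :=
  (√2)⁻¹ • ![!₂[1, 1, 0], !₂[1, -1, 0], !₂[1, 0, 1], !₂[1, 0, -1], !₂[0, 1, 1], !₂[0, 1, -1]] l

lemma rootv_norm (l : Fin 6) : ‖rootv l‖ = 1 := by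
  have : ‖rootv l‖ ^ 2 = 1 := by
    rw [rootv, norm_smul, mul_pow, EuclideanSpace.real_norm_sq_eq, Fin.sum_univ_three]
    fin_cases l <;> simp <;> norm_num
  exact (pow_eq_one_iff_of_nonneg (norm_nonneg _) two_ne_zero).1 this

/-- block sizes -/
def rootK (k c : ℕ) : Fin 6 → ℕ := ![2 * k, 2 * k + c, 2 * k, 2 * k + c, 2 * k, 2 * k + c]

/-- block sums of the sign vectors with total zero -/
def rootX (t : ℤ × ℤ × ℤ × ℤ) : Fin 6 → ℤ :=
  ![2 * t.2.1 + 2 * t.2.2.1 + 2, 2 * t.2.1 - 2 * t.2.2.1 + t.1 - 2, 2 * t.2.2.2 - 2 * t.2.1,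
    -(2 * t.2.1) - 2 * t.2.2.2 - t.1, -(2 * t.2.2.1) - 2 * t.2.2.2 - 2,
    2 * t.2.2.2 - 2 * t.2.2.1 + t.1 - 2]

lemma root_int {x0 x1 x2 x3 x4 x5 c N : ℤ} (h0 : x0 % 2 = 0) (h2 : x2 % 2 = 0) (h4 : x4 % 2 = 0)
    (h1 : (x1 - c) % 2 = 0) (h3 : (x3 - c) % 2 = 0) (h5 : (x5 - c) % 2 = 0) (hc : 0 ≤ c ∧ c ≤ 1)
    (b0 : -N ≤ x0 ∧ x0 ≤ N) (b1 : -N ≤ x1 ∧ x1 ≤ N) (b2 : -N ≤ x2 ∧ x2 ≤ N) (b3 : -N ≤ x3 ∧ x3 ≤ N)
    (h : (x0 + x1 + x2 + x3) ^ 2 + (x0 - x1 + x4 + x5) ^ 2 + (x2 - x3 + x4 - x5) ^ 2 < 8) :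
    ∃ t ∈ ({c, c + 2} : Finset ℤ) ×ˢ Icc (-N - 1) N ×ˢ Icc (-N - 1) N ×ˢ Icc (-N - 1) N,
      ![x0, x1, x2, x3, x4, x5] = rootX t := by
  have key : ∀ a b d : ℤ, a % 2 = 0 → b % 2 = 0 → d % 2 = 0 → (a + b + d) % 4 = 0 →
      a ^ 2 + b ^ 2 + d ^ 2 < 8 → a = 0 ∧ b = 0 ∧ d = 0 := fun a b d p q r s t => by
    have a1 : a < 3 := by nlinarith [sq_nonneg b, sq_nonneg d]
    have a2 : -3 < a := by nlinarith [sq_nonneg b, sq_nonneg d]
    have a3 : b < 3 := by nlinarith [sq_nonneg a, sq_nonneg d]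
    have a4 : -3 < b := by nlinarith [sq_nonneg a, sq_nonneg d]
    have a5 : d < 3 := by nlinarith [sq_nonneg b, sq_nonneg a]
    have a6 : -3 < d := by nlinarith [sq_nonneg b, sq_nonneg a]
    interval_cases a <;> interval_cases b <;> interval_cases d <;> omega
  obtain ⟨e1, e2, e3⟩ := key _ _ _ (by omega) (by omega) (by omega) (by omega) h
  clear key h
  obtain ⟨y0, rfl⟩ : ∃ y, x0 = 2 * y := ⟨x0 / 2, by omega⟩
  obtain ⟨y2, rfl⟩ : ∃ y, x2 = 2 * y := ⟨x2 / 2, by omega⟩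
  obtain ⟨y4, rfl⟩ : ∃ y, x4 = 2 * y := ⟨x4 / 2, by omega⟩
  obtain ⟨y1, rfl⟩ : ∃ y, x1 = 2 * y + c := ⟨(x1 - c) / 2, by omega⟩
  obtain ⟨y3, rfl⟩ : ∃ y, x3 = 2 * y + c := ⟨(x3 - c) / 2, by omega⟩
  obtain ⟨y5, rfl⟩ : ∃ y, x5 = 2 * y + c := ⟨(x5 - c) / 2, by omega⟩
  clear h0 h1 h2 h3 h4 h5
  obtain ⟨a, ha | ha⟩ := Int.even_or_odd' (y0 + y1)
  · refine ⟨(c, a, y0 - a - 1, y2 + a), ?_, ?_⟩
    · simp only [mem_product, mem_insert, mem_singleton, mem_Icc, true_or, true_and]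
      omega
    · simp only [rootX, Matrix.vecCons_inj, and_true]
      omega
  · refine ⟨(c + 2, a, y0 - a - 1, y2 + a), ?_, ?_⟩
    · simp only [mem_product, mem_insert, mem_singleton, mem_Icc, or_true, true_and]
      omega
    · simp only [rootX, Matrix.vecCons_inj, and_true]
      omega

lemma root_card (k c : ℕ) (hc : c ≤ 1) {r : ℝ} (hr : r < 2) :
    ((univ.filter fun ε : Fin (∑ l, rootK k c l) → Bool =>
      ‖∑ i, sgn (ε i) • rootv (finSigmaFinEquiv.symm i).1‖ ≤ r).card : ℝ) ≤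
      (∏ l, ((rootK k c l).choose (rootK k c l / 2) : ℝ)) * exp (1 / (4 * k + 4)) ^ 6 *
        (2 * (2 + √(π / (1 / (4 * k + 4))) / 4) ^ 3) := by
  obtain ⟨W, hW⟩ : ∃ W, W = ({(c : ℤ), (c : ℤ) + 2} : Finset ℤ) ×ˢ Icc (-(2 * k + 1 : ℤ) - 1) (2 * k + 1) ×ˢ
    Icc (-(2 * k + 1 : ℤ) - 1) (2 * k + 1) ×ˢ Icc (-(2 * k + 1 : ℤ) - 1) (2 * k + 1) := ⟨_, rfl⟩
  have h1 : (univ.filter fun ε : Fin (∑ l, rootK k c l) → Bool =>
      ‖∑ i, sgn (ε i) • rootv (finSigmaFinEquiv.symm i).1‖ ≤ r).card ≤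
      (W.biUnion fun t => Fintype.piFinset fun l => univ.filter fun y : Fin (rootK k c l) → Bool =>
        2 * (heads y : ℤ) - rootK k c l = rootX t l).card := by
    refine card_le_card_of_injOn (fun ε l i => ε (finSigmaFinEquiv ⟨l, i⟩)) ?_ ?_
    · intro ε hε
      rw [mem_coe, mem_filter] at hε
      have h2 := hε.2.trans_lt hr
      rw [← sq_lt_sq₀ (norm_nonneg _) (by norm_num), ← finSigmaFinEquiv.sum_comp,
        Fintype.sum_sigma] at h2
      obtain ⟨x, hx⟩ : ∃ x : Fin 6 → ℤ, ∀ l,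
        x l = 2 * (heads fun i => ε (finSigmaFinEquiv ⟨l, i⟩) : ℤ) - rootK k c l := ⟨_, fun _ => rfl⟩
      have hx' : ∀ l, 2 * ((heads fun i => ε (finSigmaFinEquiv ⟨l, i⟩) : ℕ) : ℝ) - rootK k c l = x l :=
        fun l => by rw [hx]; push_cast; rfl
      simp only [Equiv.symm_apply_apply, ← sum_smul, sum_sgn, hx', rootv, smul_comm _ (√2)⁻¹,
        ← smul_sum, norm_smul, mul_pow, EuclideanSpace.real_norm_sq_eq, Fin.sum_univ_three,
        Fin.sum_univ_six] at h2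
      simp at h2
      have h3 : (x 0 + x 1 + x 2 + x 3) ^ 2 + (x 0 - x 1 + x 4 + x 5) ^ 2 +
          (x 2 - x 3 + x 4 - x 5) ^ 2 < 8 := by
        have : ((x 0 : ℝ) + x 1 + x 2 + x 3) ^ 2 + (x 0 - x 1 + x 4 + x 5) ^ 2 +
          (x 2 - x 3 + x 4 - x 5) ^ 2 < 8 := by linarith
        exact_mod_cast this
      have hb : ∀ l, -(rootK k c l : ℤ) ≤ x l ∧ x l ≤ rootK k c l ∧ (x l + rootK k c l) % 2 = 0 :=
        fun l => by
          have := heads_le fun i => ε (finSigmaFinEquiv ⟨l, i⟩)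
          have := hx l
          omega
      have b0 := hb 0; have b1 := hb 1; have b2 := hb 2
      have b3 := hb 3; have b4 := hb 4; have b5 := hb 5
      simp only [rootK, Matrix.cons_val_zero, Matrix.cons_val_one, Matrix.cons_val] at b0 b1 b2 b3 b4 b5
      obtain ⟨t, ht, e⟩ := root_int (c := c) (N := 2 * k + 1) (by omega) (by omega) (by omega)
        (by omega) (by omega) (by omega) (by omega) (by omega) (by omega) (by omega) (by omega) h3
      simp only [coe_biUnion, Set.mem_iUnion, mem_coe, Fintype.mem_piFinset, mem_filter, mem_univ,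
        true_and]
      refine ⟨t, hW ▸ ht, fun l => ?_⟩
      rw [← hx, ← e]
      fin_cases l <;> rfl
    · intro ε _ ε' _ h
      funext j
      obtain ⟨⟨l, i⟩, rfl⟩ := finSigmaFinEquiv.surjective j
      exact congrFun (congrFun h l) i
  obtain ⟨b, hb⟩ : ∃ b : ℝ, b = 1 / (4 * k + 4) := ⟨_, rfl⟩
  have hb0 : 0 < b := by rw [hb]; positivity
  rw [← hb]
  refine ((Nat.cast_le (α := ℝ)).2 (h1.trans card_biUnion_le)).trans ?_
  have h2 : ∀ t : ℤ × ℤ × ℤ × ℤ, ((Fintype.piFinset fun l => univ.filter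
      fun y : Fin (rootK k c l) → Bool => 2 * (heads y : ℤ) - rootK k c l = rootX t l).card : ℝ) ≤
      (∏ l, ((rootK k c l).choose (rootK k c l / 2) : ℝ)) * exp b ^ 6 *
        (exp (-(b * (4 * t.2.1 + t.1) ^ 2)) * (exp (-(b * (4 * t.2.2.1 + (4 - t.1)) ^ 2)) *
          exp (-(b * (4 * t.2.2.2 + t.1) ^ 2)))) := fun t => by
    rw [Fintype.card_piFinset, Nat.cast_prod]
    refine (prod_le_prod (fun _ _ => Nat.cast_nonneg _) fun l _ =>
      card_level (rootK k c l) (rootX t l) hb0.le ?_).trans (le_of_eq ?_)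
    · have : (rootK k c l : ℝ) ≤ 2 * k + 1 := by
        have : rootK k c l ≤ 2 * k + 1 := by fin_cases l <;> simp [rootK, hc]
        exact_mod_cast this
      rw [hb, div_mul_eq_mul_div, div_le_one (by positivity)]
      linarith
    · rw [prod_mul_distrib, prod_mul_distrib, prod_const, card_univ, Fintype.card_fin, ← exp_sum,
        ← exp_add, ← exp_add]
      congr 2
      simp only [Fin.sum_univ_six, rootX, Matrix.cons_val_zero, Matrix.cons_val_one, Matrix.cons_val]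
      push_cast; ring
  rw [Nat.cast_sum]
  refine (sum_le_sum fun t _ => h2 t).trans ?_
  rw [← mul_sum]
  refine mul_le_mul_of_nonneg_left ?_ (by positivity)
  rw [hW, sum_product]
  refine (sum_le_card_nsmul _ _ ((2 + √(π / b) / 4) ^ 3) fun e he => ?_).trans ?_
  · have he' : (0 : ℝ) ≤ e ∧ (e : ℝ) ≤ 4 := by
      have : 0 ≤ e ∧ e ≤ 4 := by simp only [mem_insert, mem_singleton] at he; omega
      exact_mod_cast this
    simp only [sum_product, ← mul_sum, ← sum_mul]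
    have g1 := gauss_ap hb0 (by norm_num) he'.1 he'.2 (Icc (-(2 * k + 1 : ℤ) - 1) (2 * k + 1))
    have g2 := gauss_ap hb0 (e := 4 - e) (m := 4) (by norm_num) (by linarith) (by linarith)
      (Icc (-(2 * k + 1 : ℤ) - 1) (2 * k + 1))
    rw [pow_succ', sq]
    exact mul_le_mul g1 (mul_le_mul g2 g1 (by positivity) (by positivity)) (by positivity)
      (by positivity)
  · rw [nsmul_eq_mul]
    refine mul_le_mul_of_nonneg_right ?_ (by positivity)
    exact_mod_cast card_le_two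

lemma root_F (k c : ℕ) (hk : 1 ≤ k) (hc : c ≤ 1) {r : ℝ} (hr : r < 2) :
    √(12 * k + 3 * c : ℕ) ^ 3 * F 3 r (12 * k + 3 * c) ≤ 2 * exp (1 / (4 * k + 4)) ^ 6 *
      (√(12 + 3 * (1 / k)) / π * (2 / √k + √(π * (1 + 1 / k)) / 2)) ^ 3 := by
  have hk0 : (0 : ℝ) < k := by exact_mod_cast hk
  have e : ∑ l, rootK k c l = 12 * k + 3 * c := by
    simp only [Fin.sum_univ_six, rootK, Matrix.cons_val_zero, Matrix.cons_val_one, Matrix.cons_val]
    ring
  have a1 : F 3 r (∑ l, rootK k c l) ≤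
      prob (fun i : Fin (∑ l, rootK k c l) => rootv (finSigmaFinEquiv.symm i).1) r :=
    ciInf_le (f := fun V : Fin (∑ l, rootK k c l) →
      Metric.sphere (0 : EuclideanSpace ℝ (Fin 3)) 1 => prob (fun i => (V i).1) r)
    ⟨0, by rintro _ ⟨V, rfl⟩; unfold prob; positivity⟩
    (fun i => ⟨rootv (finSigmaFinEquiv.symm i).1, mem_sphere_zero_iff_norm.2 (rootv_norm _)⟩)
  have a2 : (∏ l, ((rootK k c l).choose (rootK k c l / 2) : ℝ)) / 2 ^ ∑ l, rootK k c l ≤
      (1 / (π * k)) ^ 3 := by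
    rw [← prod_pow_eq_pow_sum, ← prod_div_distrib]
    refine (prod_le_prod (g := fun _ => √(1 / (π * k))) (fun _ _ => by positivity)
      fun l _ => le_sqrt_of_sq_le ?_).trans (le_of_eq ?_)
    · have b1 := mid_sq_le (rootK k c l)
      have b2 : (2 * k : ℝ) ≤ rootK k c l := by
        have : 2 * k ≤ rootK k c l := by fin_cases l <;> simp [rootK]
        exact_mod_cast this
      have b3 := mul_le_mul_of_nonneg_left b2 (by positivity :
        0 ≤ π * (((rootK k c l).choose (rootK k c l / 2) : ℝ) / 2 ^ rootK k c l) ^ 2)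
      rw [le_div_iff₀ (by positivity)]
      linarith
    · rw [prod_const, card_univ, Fintype.card_fin, show 6 = 2 * 3 from rfl, pow_mul,
        sq_sqrt (by positivity)]
  have a3 : F 3 r (∑ l, rootK k c l) ≤ (1 / (π * k)) ^ 3 * exp (1 / (4 * k + 4)) ^ 6 *
      (2 * (2 + √(π / (1 / (4 * k + 4))) / 4) ^ 3) := by
    refine a1.trans ((div_le_div_of_nonneg_right (root_card k c hc hr) (by positivity)).trans ?_)
    rw [mul_div_right_comm, mul_div_right_comm]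
    gcongr
  rw [e] at a3
  have a4 : √(12 * k + 3 * c : ℕ) ≤ √k * √(12 + 3 * (1 / k)) := by
    rw [← sqrt_mul hk0.le]
    refine sqrt_le_sqrt ?_
    have : (c : ℝ) ≤ 1 := by exact_mod_cast hc
    rw [mul_add, mul_left_comm, mul_one_div_cancel hk0.ne']
    push_cast; linarith
  have a5 : √(π / (1 / (4 * k + 4))) = 2 * √k * √(π * (1 + 1 / k)) := by
    rw [sqrt_eq_iff_mul_self_eq_of_pos (by positivity), ← sq, mul_pow, mul_pow, sq_sqrt hk0.le,
      sq_sqrt (by positivity)]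
    field_simp; norm_num
  rw [a5] at a3
  refine (mul_le_mul (pow_le_pow_left₀ (sqrt_nonneg _) a4 3) a3 ?_ (by positivity)).trans
    (le_of_eq ?_)
  · exact Real.iInf_nonneg fun V => by unfold prob; positivity
  · have h1 : 0 < √(k : ℝ) := sqrt_pos.2 hk0
    have h2 : 1 / (π * k) = 1 / (π * √k ^ 2) := by rw [sq_sqrt hk0.le]
    rw [h2]
    field_simp
    ring

lemma root_tendsto : Tendsto (fun k : ℕ => 2 * exp (1 / (4 * (k : ℝ) + 4)) ^ 6 *
    (√(12 + 3 * (1 / k)) / π * (2 / √k + √(π * (1 + 1 / k)) / 2)) ^ 3)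
    atTop (𝓝 (2 * √(3 / π) ^ 3)) := by
  have h1 : Tendsto (fun k : ℕ => 2 / √(k : ℝ)) atTop (𝓝 0) :=
    tendsto_const_nhds.div_atTop (tendsto_sqrt_atTop.comp tendsto_natCast_atTop_atTop)
  have h2 : Tendsto (fun k : ℕ => 1 / (k : ℝ)) atTop (𝓝 0) := tendsto_one_div_atTop_nhds_zero_nat
  have h0 : Tendsto (fun k : ℕ => 1 / (4 * (k : ℝ) + 4)) atTop (𝓝 0) :=
    tendsto_const_nhds.div_atTop (tendsto_atTop_add_const_right _ _
      (tendsto_natCast_atTop_atTop.const_mul_atTop (by norm_num)))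
  have h3 := ((h0.rexp.pow 6).const_mul 2).mul ((((((h2.const_mul 3).const_add 12).sqrt).div_const π).mul
    (h1.add ((((h2.const_add 1).const_mul π).sqrt).div_const 2))).pow 3)
  convert h3 using 2
  have h4 : √(3 / π) = √12 / π * (√π / 2) := by
    rw [sqrt_eq_iff_mul_self_eq_of_pos (by positivity), mul_mul_mul_comm, div_mul_div_comm,
      div_mul_div_comm, mul_self_sqrt (by norm_num), mul_self_sqrt pi_pos.le]
    field_simp; norm_num
  simp [h4]

end Pool.Agent.Lib.MP_3b7d13_co
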