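import Pool.Agent.Lib.MP_3b7d13_co.Reduce

/-! The weighted bound for six vectors with nearly equal weights. -/

namespace Pool.Agent.Lib.MP_3b7d13_co

open Finset

lemma d3_swap12 (a b c : Fin 3 → ℝ) : d3 b a c ^ 2 = d3 a b c ^ 2 := by simp only [d3]; ring
lemma d3_swap13 (a b c : Fin 3 → ℝ) : d3 c b a ^ 2 = d3 a b c ^ 2 := by simp only [d3]; ring
lemma d3_swap23 (a b c : Fin 3 → ℝ) : d3 a c b ^ 2 = d3 a b c ^ 2 := by simp only [d3]; ring
lemma d3_12 (a c : Fin 3 → ℝ) : d3 a a c = 0 := by simp only [d3]; ring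
lemma d3_13 (a c : Fin 3 → ℝ) : d3 a c a = 0 := by simp only [d3]; ring
lemma d3_23 (a c : Fin 3 → ℝ) : d3 c a a = 0 := by simp only [d3]; ring

lemma deg_eq (v : Fin 6 → Fin 3 → ℝ) (a : Fin 6) : ∑ j, ∑ k, d3 (v a) (v j) (v k) ^ 2 =
    ∑ j : Fin 5, ∑ k : Fin 5, d3 (v a) (v (a.succAbove j)) (v (a.succAbove k)) ^ 2 := by
  simp only [Fin.sum_univ_succAbove _ a, d3_12, d3_13]
  simp

lemma tot_eq (v : Fin 6 → Fin 3 → ℝ) (a : Fin 6) : ∑ i, ∑ j, ∑ k, d3 (v i) (v j) (v k) ^ 2 =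
    3 * ∑ j, ∑ k, d3 (v a) (v j) (v k) ^ 2 + ∑ i : Fin 5, ∑ j : Fin 5, ∑ k : Fin 5,
      d3 (v (a.succAbove i)) (v (a.succAbove j)) (v (a.succAbove k)) ^ 2 := by
  rw [Fin.sum_univ_succAbove _ a, deg_eq]
  have e : ∀ i : Fin 5, ∑ j, ∑ k, d3 (v (a.succAbove i)) (v j) (v k) ^ 2 =
      2 * ∑ k : Fin 5, d3 (v a) (v (a.succAbove i)) (v (a.succAbove k)) ^ 2 +
        ∑ j : Fin 5, ∑ k : Fin 5,
          d3 (v (a.succAbove i)) (v (a.succAbove j)) (v (a.succAbove k)) ^ 2 := fun i => by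
    simp only [Fin.sum_univ_succAbove _ a, d3_12, sum_add_distrib, d3_swap23 _ (v a),
      d3_swap12 (v a)]
    ring
  simp only [e, sum_add_distrib, ← mul_sum]
  ring

lemma prod_lower {a b c : ℝ} (ha : -1 ≤ a ∧ a ≤ 1 / 8) (hb : -1 ≤ b ∧ b ≤ 1 / 8)
    (hc : -1 ≤ c ∧ c ≤ 1 / 8) :
    1 + (a - 9 / 16 * a ^ 2) + (b - 9 / 16 * b ^ 2) + (c - 9 / 16 * c ^ 2) ≤
      (1 + a) * (1 + b) * (1 + c) := by
  have key : ∀ x y z : ℝ, 0 ≤ z → z ≤ 1 / 8 → -((x ^ 2 + y ^ 2) / 16) ≤ x * y * z := fun x y z h0 h1 => by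
    nlinarith [mul_nonneg h0 (sq_nonneg (x + y)), mul_nonneg (sub_nonneg.2 h1) (sq_nonneg x),
      mul_nonneg (sub_nonneg.2 h1) (sq_nonneg y)]
  have h0 := sq_nonneg (a + b + c)
  have h1 := sq_nonneg a
  have h2 := sq_nonneg b
  have h3 := sq_nonneg c
  rcases le_total 0 c with p | p
  · linarith [key a b c p hc.2]
  rcases le_total 0 b with q | q
  · linarith [key a c b q hb.2]
  rcases le_total 0 a with r | r
  · linarith [key b c a r ha.2]
  have e1 := mul_nonneg_of_nonpos_of_nonpos r q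
  have e2 := mul_nonneg_of_nonpos_of_nonpos r p
  have e3 := mul_nonneg_of_nonpos_of_nonpos q p
  have e4 := mul_nonneg e1 (by linarith : 0 ≤ 1 + c)
  linarith

lemma near_uniform (v : Fin 6 → Fin 3 → ℝ) (h : ∀ i j k, d3 (v i) (v j) (v k) ^ 2 ≤ 1)
    (e : Fin 6 → ℝ) (he : ∀ i, e i ≤ 1 / 8) (hs : ∑ i, e i = 0) :
    ∑ i, ∑ j, ∑ k, (1 + e i) * (1 + e j) * (1 + e k) * d3 (v i) (v j) (v k) ^ 2 ≤ 96 := by
  have he' : ∀ i, -(5 / 8) ≤ e i := fun i => by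
    rw [Fin.sum_univ_succAbove _ i] at hs
    have := sum_le_card_nsmul univ _ (1 / 8) fun j (_ : j ∈ univ) => he (i.succAbove j)
    simp only [card_univ, Fintype.card_fin, nsmul_eq_mul] at this
    norm_num at this
    linarith
  obtain ⟨g, hg⟩ : ∃ g : Fin 6 → ℝ, ∀ i, g i = e i - 9 / 16 * e i ^ 2 := ⟨_, fun _ => rfl⟩
  obtain ⟨D, hD⟩ : ∃ D : Fin 6 → ℝ, ∀ i, D i = ∑ j, ∑ k, d3 (v i) (v j) (v k) ^ 2 := ⟨_, fun _ => rfl⟩
  have hD1 : ∀ i, D i ≤ 16 := fun i => by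
    rw [hD, deg_eq]; exact link5 _ _ fun _ _ => h _ _ _
  have hD2 : ∀ i, ∑ j, D j ≤ 3 * D i + 48 := fun i => by
    simp only [hD]
    rw [tot_eq v i]
    exact add_le_add_right (omit5 _ fun _ _ _ => h _ _ _) _
  have h1 : ∑ i, ∑ j, ∑ k, (1 + g i + g j + g k) * d3 (v i) (v j) (v k) ^ 2 =
      ∑ i, D i + 3 * ∑ i, g i * D i := by
    have a1 : ∑ i, ∑ j, ∑ k, g j * d3 (v i) (v j) (v k) ^ 2 = ∑ i, g i * D i := by
      rw [sum_comm]
      simp only [hD, mul_sum]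
      exact sum_congr rfl fun _ _ => sum_congr rfl fun _ _ => sum_congr rfl fun _ _ => by
        rw [d3_swap12]
    have a2 : ∑ i, ∑ j, ∑ k, g k * d3 (v i) (v j) (v k) ^ 2 = ∑ i, g i * D i := by
      rw [← a1]
      refine sum_congr rfl fun _ _ => ?_
      rw [sum_comm]
      exact sum_congr rfl fun _ _ => sum_congr rfl fun _ _ => by rw [d3_swap23]
    simp only [add_mul, one_mul, sum_add_distrib, a1, a2]
    simp only [hD, mul_sum]
    simp only [← mul_sum]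
    ring
  have h2 : ∑ i, D i + 3 * ∑ i, g i * D i ≤ 96 + 48 * ∑ i, g i := by
    have a1 : ∀ i, -(4 / 3 * (1 / 8 - e i) * (96 - ∑ j, D j)) ≤ 3 * (g i * (16 - D i)) := fun i => by
      have b1 : -(4 / 3 * (1 / 8 - e i)) ≤ g i := by
        rw [hg]; nlinarith [mul_nonneg (sub_nonneg.2 (he i)) (sub_nonneg.2 (he' i)), he i, he' i]
      have b2 := mul_le_mul_of_nonneg_right b1 (sub_nonneg.2 (hD1 i))
      have b3 := mul_le_mul_of_nonneg_left (hD2 i) (sub_nonneg.2 (he i))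
      linarith
    have a2 := sum_le_sum fun i (_ : i ∈ univ) => a1 i
    simp only [sum_neg_distrib, ← sum_mul, ← mul_sum, sum_sub_distrib, mul_sub, hs] at a2
    simp only [sum_const, card_univ, Fintype.card_fin, nsmul_eq_mul] at a2
    norm_num at a2
    linarith
  have h3 : ∑ i, ∑ j, ∑ k, ((1 + e i) * (1 + e j) * (1 + e k) - (1 + g i + g j + g k)) *
      d3 (v i) (v j) (v k) ^ 2 ≤ ∑ i, ∑ j, ∑ k, if i = j ∨ i = k ∨ j = k then 0 else
        (1 + e i) * (1 + e j) * (1 + e k) - (1 + g i + g j + g k) := by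
    refine sum_le_sum fun i _ => sum_le_sum fun j _ => sum_le_sum fun k _ => ?_
    split_ifs with c
    · rcases c with rfl | rfl | rfl <;> simp [d3_12, d3_13, d3_23]
    · refine mul_le_of_le_one_right (sub_nonneg.2 ?_) (h _ _ _)
      simp only [hg]
      exact prod_lower ⟨by linarith [he' i], he i⟩ ⟨by linarith [he' j], he j⟩
        ⟨by linarith [he' k], he k⟩
  have h4 : (∑ i, ∑ j, ∑ k, if i = j ∨ i = k ∨ j = k then 0 else
      (1 + e i) * (1 + e j) * (1 + e k) - (1 + g i + g j + g k)) + 48 * ∑ i, g i =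
      ∑ i, (2 * e i ^ 3 - 21 / 4 * e i ^ 2) := by
    simp only [Fin.sum_univ_six, hg] at hs ⊢
    obtain h5 : e 5 = -(e 0 + e 1 + e 2 + e 3 + e 4) := by linarith
    simp only [Fin.reduceEq, or_self, or_true, or_false, if_true, if_false, h5]
    ring
  have h5 : ∑ i, (2 * e i ^ 3 - 21 / 4 * e i ^ 2) ≤ 0 := sum_nonpos fun i _ => by
    nlinarith [mul_nonneg (sub_nonneg.2 (he i)) (sq_nonneg (e i)), sq_nonneg (e i)]
  simp only [sub_mul, sum_sub_distrib] at h3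
  linarith

end Pool.Agent.Lib.MP_3b7d13_co
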