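import Pool.Agent.Lib.MP_3b7d13_co.Moments

/-! Maximal determinant spanners and rounding in a zonotope. -/

namespace Pool.Agent.Lib.MP_3b7d13_co

open Finset Module

lemma spanner {d n : ℕ} (v : Fin n → EuclideanSpace ℝ (Fin d)) (T : Finset (Fin n)) :
    ∃ r ≤ d, ∃ f : Fin r → Fin n, Function.Injective f ∧ (∀ j, f j ∈ T) ∧
      ∀ i ∈ T, ∃ c : Fin r → ℝ, (∀ j, |c j| ≤ 1) ∧ v i = ∑ j, c j • v (f j) := by
  classical
  obtain ⟨W, hW⟩ : ∃ W, W = Submodule.span ℝ (v '' T) := ⟨_, rfl⟩
  obtain ⟨f0, hf0, -, hf2⟩ := Submodule.exists_fun_fin_finrank_span_eq ℝ (v '' T)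
  have hmem : ∀ i : T, v i ∈ W := fun i => by
    rw [hW]; exact Submodule.subset_span ⟨i, i.2, rfl⟩
  obtain ⟨w, hw⟩ : ∃ w : T → W, ∀ i, w i = ⟨v i, hmem i⟩ := ⟨_, fun _ => rfl⟩
  have hwv : ∀ i, (w i : EuclideanSpace ℝ (Fin d)) = v i := fun i => by rw [hw]
  choose g0 hg0 hg1 using hf0
  have hr : finrank ℝ (Submodule.span ℝ (v '' T)) = finrank ℝ W := by rw [hW]
  let B : Basis (Fin (finrank ℝ (Submodule.span ℝ (v '' T)))) ℝ W := finBasisOfFinrankEq ℝ W hr.symm
  obtain ⟨g, -, hg⟩ := exists_max_image (univ : Finset (Fin (finrank ℝ (Submodule.span ℝ (v '' T))) → T))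
    (fun g => |B.det fun j => w (g j)|) ⟨fun j => ⟨g0 j, hg0 j⟩, mem_univ _⟩
  have h0 : B.det (fun j => w ⟨g0 j, hg0 j⟩) ≠ 0 := by
    have hli : LinearIndependent ℝ fun j => w ⟨g0 j, hg0 j⟩ := by
      refine LinearIndependent.of_comp W.subtype ?_
      have : (W.subtype ∘ fun j => w ⟨g0 j, hg0 j⟩) = f0 := funext fun j => by
        simp [hwv, hg1]
      rw [this]; exact hf2
    have hsp := hli.span_eq_top_of_card_eq_finrank' (by simp [hr])
    exact (B.is_basis_iff_det.1 ⟨hli, hsp⟩).ne_zero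
  have h1 : B.det (fun j => w (g j)) ≠ 0 := by
    intro h
    have := hg _ (mem_univ fun j => ⟨g0 j, hg0 j⟩)
    rw [h, abs_zero] at this
    exact h0 (abs_nonpos_iff.1 this)
  obtain ⟨hli, hsp⟩ := B.is_basis_iff_det.2 (isUnit_iff_ne_zero.2 h1)
  refine ⟨_, ?_, fun j => g j, ?_, fun j => (g j).2, fun i hi => ?_⟩
  · exact (Submodule.finrank_le _).trans (by simp)
  · intro j k h
    exact hli.injective (congrArg w (Subtype.ext h))
  · refine ⟨fun j => (Basis.mk hli hsp.ge).coord j (w ⟨i, hi⟩), fun j => ?_, ?_⟩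
    · have h2 := congrArg (fun L => L (w ⟨i, hi⟩))
        (B.det_smul_mk_coord_eq_det_update hli hsp.ge j)
      simp only [LinearMap.smul_apply, smul_eq_mul, MultilinearMap.toLinearMap_apply] at h2
      have h3 := hg (Function.update g j ⟨i, hi⟩) (mem_univ _)
      have h4 : (fun k => w (Function.update g j ⟨i, hi⟩ k)) =
          Function.update (fun k => w (g k)) j (w ⟨i, hi⟩) :=
        Function.comp_update w g j ⟨i, hi⟩
      rw [h4] at h3
      have h5 : |B.det fun j => w (g j)| * |(Basis.mk hli hsp.ge).coord j (w ⟨i, hi⟩)| ≤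
          |B.det fun j => w (g j)| * 1 := by
        rw [← abs_mul, h2, mul_one]; exact h3
      exact le_of_mul_le_mul_left h5 (abs_pos.2 h1)
    · have h2 := congrArg W.subtype ((Basis.mk hli hsp.ge).sum_repr (w ⟨i, hi⟩))
      simp only [map_sum, map_smul, Basis.mk_apply, Submodule.subtype_apply, hwv] at h2
      exact h2.symm

lemma spanner' {d n : ℕ} (v : Fin n → EuclideanSpace ℝ (Fin d)) (T : Finset (Fin n)) :
    ∃ F ⊆ T, F.card ≤ d ∧ ∀ i ∈ T, ∃ c : Fin n → ℝ, (∀ j, |c j| ≤ 1) ∧ (∀ j ∉ F, c j = 0) ∧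
      v i = ∑ j, c j • v j := by
  classical
  obtain ⟨r, hr, f, hf, hT, h⟩ := spanner v T
  refine ⟨univ.image f, fun j hj => ?_, card_image_le.trans (by simpa using hr), fun i hi => ?_⟩
  · obtain ⟨k, -, rfl⟩ := mem_image.1 hj
    exact hT k
  obtain ⟨c, hc, e⟩ := h i hi
  refine ⟨Function.extend f c 0, fun j => ?_, fun j hj => ?_, ?_⟩
  · by_cases hj : ∃ k, f k = j
    · obtain ⟨k, rfl⟩ := hj
      rw [hf.extend_apply]; exact hc k
    · rw [Function.extend_apply' _ _ _ hj]; simp
  · rw [Function.extend_apply' _ _ _ (by simpa using hj)]; rfl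
  · rw [e, ← sum_subset (subset_univ (univ.image f)), sum_image (hf.injOn)]
    · exact sum_congr rfl fun k _ => by rw [hf.extend_apply]
    · intro j _ hj
      rw [Function.extend_apply' _ _ _ (by simpa using hj)]; simp

lemma specials {d n : ℕ} (v : Fin n → EuclideanSpace ℝ (Fin d)) (m : ℕ) :
    ∃ S : Finset (Fin n), S.card ≤ m * d ∧ ∀ w : Fin n → ℝ, (∀ i ∈ S, w i = 0) →
      ∑ i, |w i| ≤ m → ∃ a : Fin n → ℝ, (∀ i, |a i| ≤ 1) ∧ (∀ i ∉ S, a i = 0) ∧
        ∑ i, a i • v i = ∑ i, w i • v i := by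
  classical
  induction m with
  | zero =>
    refine ⟨∅, by simp, fun w _ hw => ⟨0, by simp, by simp, ?_⟩⟩
    have h0 : ∑ i, |w i| = 0 := le_antisymm (by simpa using hw) (sum_nonneg fun _ _ => abs_nonneg _)
    refine sum_congr rfl fun i _ => ?_
    rw [abs_eq_zero.1 ((sum_eq_zero_iff_of_nonneg fun _ _ => abs_nonneg _).1 h0 i (mem_univ _))]
    rfl
  | succ m ih =>
    obtain ⟨S, hS, h⟩ := ih
    obtain ⟨F, hF, hFc, hc⟩ := spanner' v Sᶜ
    have hc' : ∀ i, ∃ c : Fin n → ℝ, (∀ j, |c j| ≤ 1) ∧ (∀ j ∉ F, c j = 0) ∧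
        (i ∉ S → v i = ∑ j, c j • v j) := fun i => by
      by_cases hi : i ∈ S
      · exact ⟨0, by simp, by simp, fun h => absurd hi h⟩
      · obtain ⟨c, h1, h2, h3⟩ := hc i (mem_compl.2 hi)
        exact ⟨c, h1, h2, fun _ => h3⟩
    choose c c1 c2 c3 using hc'
    refine ⟨S ∪ F, (card_union_le _ _).trans (by rw [Nat.succ_mul]; omega), fun w hw hw1 => ?_⟩
    have hm : (0 : ℝ) < m + 1 := by positivity
    push_cast at hw1
    obtain ⟨a, a1, a2, a3⟩ := h (fun i => m / (m + 1) * w i)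
      (fun i hi => by rw [hw i (mem_union_left _ hi), mul_zero]) (by
        simp only [abs_mul, ← mul_sum]
        rw [abs_of_nonneg (by positivity), div_mul_eq_mul_div, div_le_iff₀ hm]
        exact mul_le_mul_of_nonneg_left hw1 (Nat.cast_nonneg m))
    refine ⟨fun j => a j + ∑ i, w i / (m + 1) * c i j, fun j => ?_, fun j hj => ?_, ?_⟩
    · by_cases hj : j ∈ S
      · have : j ∉ F := fun h => mem_compl.1 (hF h) hj
        simp only [c2 _ j this, mul_zero, sum_const_zero, add_zero]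
        exact a1 j
      · simp only [a2 j hj, zero_add]
        refine (abs_sum_le_sum_abs _ _).trans ?_
        have : ∑ i, |w i / (m + 1) * c i j| ≤ ∑ i, |w i| / (m + 1) := sum_le_sum fun i _ => by
          rw [abs_mul, abs_div, abs_of_pos hm]
          exact mul_le_of_le_one_right (by positivity) (c1 i j)
        refine this.trans ?_
        rw [← sum_div, div_le_one hm]; exact hw1
    · rw [mem_union, not_or] at hj
      simp only [a2 j hj.1, c2 _ j hj.2, mul_zero, sum_const_zero, add_zero]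
    · simp only [add_smul, sum_add_distrib, a3, sum_smul]
      rw [sum_comm, ← sum_add_distrib]
      refine sum_congr rfl fun i _ => ?_
      by_cases hi : i ∈ S
      · simp [hw i (mem_union_left _ hi)]
      · simp only [mul_smul, ← smul_sum]
        rw [← c3 i hi, smul_smul, ← add_smul]
        congr 1
        field_simp

lemma greedy {d n : ℕ} (v : Fin n → EuclideanSpace ℝ (Fin d)) (hv : ∀ i, ‖v i‖ = 1)
    (a : Fin n → ℝ) (ha : ∀ i, |a i| ≤ 1) (R : Finset (Fin n)) :
    ∃ ε : Fin n → Bool, ‖∑ i ∈ R, (sgn (ε i) - a i) • v i‖ ^ 2 ≤ R.card := by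
  classical
  induction R using Finset.induction_on with
  | empty => exact ⟨fun _ => true, by simp⟩
  | insert k R hk ih =>
    obtain ⟨ε, hε⟩ := ih
    have key : ∀ b, ∑ i ∈ insert k R, (sgn (Function.update ε k b i) - a i) • v i =
        (sgn b - a k) • v k + ∑ i ∈ R, (sgn (ε i) - a i) • v i := fun b => by
      rw [sum_insert hk, Function.update_self]
      congr 1
      exact sum_congr rfl fun i hi => by
        rw [Function.update_of_ne (by rintro rfl; exact hk hi)]
    rw [card_insert_of_notMem hk]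
    push_cast
    generalize ∑ i ∈ R, (sgn (ε i) - a i) • v i = z at hε key
    have e : ∀ s : ℝ, ‖s • v k + z‖ ^ 2 = s ^ 2 + 2 * (s * inner ℝ (v k) z) + ‖z‖ ^ 2 := fun s => by
      rw [norm_add_sq_real, norm_smul, hv, mul_one, Real.norm_eq_abs, sq_abs, real_inner_smul_left]
    have h1 := abs_le.1 (ha k)
    by_contra hcon
    push Not at hcon
    have h2 := hcon (Function.update ε k true)
    have h3 := hcon (Function.update ε k false)
    rw [key, e, sgn_true] at h2
    rw [key, e, sgn_false] at h3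
    generalize inner ℝ (v k) z = p at h2 h3
    have h4 : 0 ≤ 1 + a k := by linarith
    have h5 : 0 ≤ 1 - a k := by linarith
    have h6 := mul_le_mul_of_nonneg_left h2.le h4
    have h7 := mul_le_mul_of_nonneg_left h3.le h5
    have h8 : a k ^ 2 = 0 := by nlinarith [sq_nonneg (a k)]
    have h9 : a k = 0 := pow_eq_zero_iff (two_ne_zero) |>.1 h8
    rw [h9] at h2 h3
    linarith

lemma vertex {d n : ℕ} (v : Fin n → EuclideanSpace ℝ (Fin d)) (S : Finset (Fin n)) (k : ℕ) :
    ∀ a : Fin n → ℝ, (∀ i, |a i| ≤ 1) → (S.filter fun i => |a i| ≠ 1).card ≤ k →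
      ∃ a' : Fin n → ℝ, (∀ i, |a' i| ≤ 1) ∧ (S.filter fun i => |a' i| ≠ 1).card ≤ d ∧
        ∑ i ∈ S, a' i • v i = ∑ i ∈ S, a i • v i := by
  classical
  induction k with
  | zero => exact fun a ha h => ⟨a, ha, by omega, rfl⟩
  | succ k ih =>
    intro a ha h
    by_cases hd : (S.filter fun i => |a i| ≠ 1).card ≤ d
    · exact ⟨a, ha, hd, rfl⟩
    obtain ⟨R, hR⟩ : ∃ R, R = S.filter fun i => |a i| ≠ 1 := ⟨_, rfl⟩
    rw [← hR] at h hd
    have hdep : ¬ LinearIndependent ℝ fun i : R => v i := fun hli => by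
      have := hli.fintype_card_le_finrank
      simp at this
      omega
    obtain ⟨g, hg, i0, hi0⟩ := Fintype.not_linearIndependent_iff.1 hdep
    obtain ⟨u, hu⟩ : ∃ u : Fin n → ℝ, ∀ i, u i = if h : i ∈ R then g ⟨i, h⟩ else 0 :=
      ⟨_, fun _ => rfl⟩
    have hu0 : ∀ i ∉ R, u i = 0 := fun i hi => by rw [hu, dif_neg hi]
    have hRS : R ⊆ S := by rw [hR]; exact filter_subset _ _
    have hu1 : ∑ i ∈ S, u i • v i = 0 := by
      rw [← sum_subset hRS fun i _ hi => by rw [hu0 i hi, zero_smul], ← sum_coe_sort, ← hg]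
      exact sum_congr rfl fun i _ => by rw [hu, dif_pos i.2]
    obtain ⟨j, hj, hmin⟩ := exists_min_image (univ.filter fun i => u i ≠ 0)
      (fun i => (1 - a i * SignType.sign (u i)) / |u i|)
      ⟨i0, mem_filter.2 ⟨mem_univ _, by rw [hu, dif_pos i0.2]; exact hi0⟩⟩
    obtain ⟨t, ht⟩ : ∃ t, t = (1 - a j * SignType.sign (u j)) / |u j| := ⟨_, rfl⟩
    rw [← ht] at hmin
    have huj : u j ≠ 0 := (mem_filter.1 hj).2
    have ht0 : 0 ≤ t := by
      rw [ht]
      refine div_nonneg ?_ (abs_nonneg _)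
      have := abs_le.1 (ha j)
      rcases lt_or_gt_of_ne huj with h | h
      · simp [sign_neg h]; linarith
      · simp [sign_pos h]; linarith
    have hb : ∀ i, |a i + t * u i| ≤ 1 := fun i => by
      by_cases hi : u i = 0
      · rw [hi, mul_zero, add_zero]; exact ha i
      have h1 := hmin i (mem_filter.2 ⟨mem_univ _, hi⟩)
      rw [le_div_iff₀ (abs_pos.2 hi)] at h1
      have := abs_le.1 (ha i)
      rcases lt_or_gt_of_ne hi with h | h
      · simp only [sign_neg h, abs_of_neg h, SignType.coe_neg_one] at h1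
        exact abs_le.2 ⟨by linarith, by nlinarith⟩
      · simp only [sign_pos h, abs_of_pos h, SignType.coe_one] at h1
        exact abs_le.2 ⟨by nlinarith, by linarith⟩
    have hjj : |a j + t * u j| = 1 := by
      rw [ht]
      rcases lt_or_gt_of_ne huj with h | h
      · simp only [sign_neg h, abs_of_neg h, SignType.coe_neg_one]
        have : a j + (1 - a j * -1) / -u j * u j = -1 := by field_simp; ring
        rw [this]; simp
      · simp only [sign_pos h, abs_of_pos h, SignType.coe_one]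
        have : a j + (1 - a j * 1) / u j * u j = 1 := by field_simp; ring
        rw [this]; simp
    have hjR : j ∈ R := by
      by_contra hc; exact huj (hu0 j hc)
    obtain ⟨a', b1, b2, b3⟩ := ih (fun i => a i + t * u i) hb (by
      have : (S.filter fun i => |a i + t * u i| ≠ 1) ⊆ R.erase j := fun i hi => by
        rw [mem_filter] at hi
        refine mem_erase.2 ⟨by rintro rfl; exact hi.2 hjj, ?_⟩
        by_contra hc
        have h2 := hi.2
        rw [hu0 i hc, mul_zero, add_zero] at h2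
        exact hc (by rw [hR]; exact mem_filter.2 ⟨hi.1, h2⟩)
      have h3 := card_le_card this
      rw [card_erase_of_mem hjR] at h3
      omega)
    refine ⟨a', b1, b2, b3.trans ?_⟩
    simp only [add_smul, sum_add_distrib, mul_smul, ← smul_sum, hu1, smul_zero, add_zero]

lemma rounding {d n : ℕ} (v : Fin n → EuclideanSpace ℝ (Fin d)) (hv : ∀ i, ‖v i‖ = 1)
    (S : Finset (Fin n)) (a : Fin n → ℝ) (ha : ∀ i, |a i| ≤ 1) :
    ∃ ε : Fin n → Bool, ‖∑ i ∈ S, sgn (ε i) • v i - ∑ i ∈ S, a i • v i‖ ≤ √d := by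
  classical
  obtain ⟨a', h1, h2, h3⟩ := vertex v S _ a ha le_rfl
  obtain ⟨ε, hε⟩ := greedy v hv a' h1 (S.filter fun i => |a' i| ≠ 1)
  refine ⟨fun i => if |a' i| ≠ 1 then ε i else decide (a' i = 1), ?_⟩
  rw [← h3, ← sum_sub_distrib]
  have e : ∑ i ∈ S, (sgn (if |a' i| ≠ 1 then ε i else decide (a' i = 1)) • v i - a' i • v i) =
      ∑ i ∈ S.filter fun i => |a' i| ≠ 1, (sgn (ε i) - a' i) • v i := by
    rw [sum_filter]
    refine sum_congr rfl fun i _ => ?_
    split_ifs with h
    · rw [sub_smul]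
    · push Not at h
      rcases (abs_eq zero_le_one).1 h with h | h
      · simp [h, sgn]
      · have : a' i ≠ 1 := by rw [h]; norm_num
        rw [decide_eq_false this, h, sgn_false, sub_self]
  rw [e]
  exact Real.le_sqrt_of_sq_le (hε.trans (by exact_mod_cast h2))

end Pool.Agent.Lib.MP_3b7d13_co
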