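import Pool.Agent.Lib.MP_3b7d13_co.Planar
import Pool.Agent.Lib.MP_3b7d13_co.Dichotomy

/-! The mean square of the minors in dimension three. -/

namespace Pool.Agent.Lib.MP_3b7d13_co

open Finset

/-- determinant of a symmetric `3 × 3` matrix -/
def sdet (m : Fin 6 → ℝ) : ℝ :=
  m 0 * m 1 * m 2 + 2 * m 3 * m 4 * m 5 - m 0 * m 5 ^ 2 - m 1 * m 4 ^ 2 - m 2 * m 3 ^ 2

/-- entries of a rank one symmetric matrix -/
def sq6 (a : Fin 3 → ℝ) : Fin 6 → ℝ :=
  ![a 0 * a 0, a 1 * a 1, a 2 * a 2, a 0 * a 1, a 0 * a 2, a 1 * a 2]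

/-- determinant of three vectors -/
def det3 (a b c : Fin 3 → ℝ) : ℝ :=
  a 0 * (b 1 * c 2 - b 2 * c 1) - a 1 * (b 0 * c 2 - b 2 * c 0) + a 2 * (b 0 * c 1 - b 1 * c 0)

lemma exists_cross (a : Fin 3 → ℝ) : ∃ f g : Fin 3 → ℝ, a 0 = f 1 * g 2 - f 2 * g 1 ∧
    a 1 = f 2 * g 0 - f 0 * g 2 ∧ a 2 = f 0 * g 1 - f 1 * g 0 := by
  by_cases h : a 0 = 0
  · exact ⟨![1, 0, 0], ![0, a 2, -a 1], by simp [h], by simp, by simp⟩
  · exact ⟨![-a 1 / a 0, 1, 0], ![-a 2, 0, a 0], by simp, by simp; field_simp, by simp⟩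

lemma moment {ι : Type*} [Fintype ι] (a : ι → Fin 3 → ℝ) (c : ι → ℝ) (f g : Fin 3 → ℝ)
    (m : Fin 6 → ℝ) (hm : ∑ i, c i • sq6 (a i) = m) :
    ∑ i, c i * ((f 0 * a i 0 + f 1 * a i 1 + f 2 * a i 2) *
      (g 0 * a i 0 + g 1 * a i 1 + g 2 * a i 2)) =
      f 0 * g 0 * m 0 + f 1 * g 1 * m 1 + f 2 * g 2 * m 2 + (f 0 * g 1 + f 1 * g 0) * m 3 +
        (f 0 * g 2 + f 2 * g 0) * m 4 + (f 1 * g 2 + f 2 * g 1) * m 5 := by
  subst hm
  simp only [Finset.sum_apply, Pi.smul_apply, smul_eq_mul, mul_sum, ← sum_add_distrib]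
  refine sum_congr rfl fun i _ => ?_
  simp only [sq6, Matrix.cons_val]
  ring

theorem sdet_le {ι : Type*} [Fintype ι] [DecidableEq ι] (a : ι → Fin 3 → ℝ)
    (h : ∀ i j k, |det3 (a i) (a j) (a k)| ≤ 1) (c : ι → ℝ) (hc : ∀ i, 0 ≤ c i) :
    sdet (∑ i, c i • sq6 (a i)) ≤ 2 / 27 * (∑ i, c i) ^ 3 := by
  have hom : ∀ (t : ℝ) (m : Fin 6 → ℝ), sdet (t • m) = t ^ 3 * sdet m := fun t m => by
    simp only [sdet, Pi.smul_apply, smul_eq_mul]; ring
  have hz : ∀ c : ι → ℝ, (∀ i, 0 ≤ c i) → ∑ i, c i = 0 → sdet (∑ i, c i • sq6 (a i)) = 0 :=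
    fun c hc h0 => by
      rw [sum_eq_zero fun i _ => by
        rw [(sum_eq_zero_iff_of_nonneg fun i _ => hc i).1 h0 i (mem_univ _), zero_smul]]
      simp [sdet]
  rcases isEmpty_or_nonempty ι with hι | ⟨⟨i1⟩⟩
  · rw [hz c hc (by simp)]; simp
  obtain ⟨c0, hc0, hmax⟩ := (isCompact_stdSimplex ℝ ι).exists_isMaxOn
    ⟨_, single_mem_stdSimplex ℝ i1⟩ (f := fun c : ι → ℝ => sdet (∑ i, c i • sq6 (a i)))
    (Continuous.continuousOn (by unfold sdet; fun_prop))
  obtain ⟨Φ, hΦ⟩ : ∃ Φ, Φ = sdet (∑ i, c0 i • sq6 (a i)) := ⟨_, rfl⟩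
  have H : ∀ c : ι → ℝ, (∀ i, 0 ≤ c i) → sdet (∑ i, c i • sq6 (a i)) ≤ Φ * (∑ i, c i) ^ 3 :=
    fun c hc => by
      rcases (sum_nonneg fun i (_ : i ∈ univ) => hc i).eq_or_lt with h0 | h0
      · rw [hz c hc h0.symm, ← h0]; simp
      have h1 := hmax (a := fun i => (∑ i, c i)⁻¹ * c i) ⟨fun i => mul_nonneg (by positivity) (hc i),
        by rw [← mul_sum, inv_mul_cancel₀ h0.ne']⟩
      simp only [Set.mem_ofPred_eq, mul_smul, ← smul_sum, hom, ← hΦ] at h1
      rwa [inv_pow, inv_mul_le_iff₀ (by positivity), mul_comm] at h1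
  refine (H c hc).trans (mul_le_mul_of_nonneg_right ?_
    (pow_nonneg (sum_nonneg fun i _ => hc i) 3))
  by_contra hlt
  push Not at hlt
  obtain ⟨w, a1, a2, a3, a4⟩ := cara (fun i => sq6 (a i)) _ c0 le_rfl hc0.1
  rw [hc0.2] at a4
  have hw : ∑ i, w i = 1 := by
    have h1 := H w a1
    rw [a3, ← hΦ] at h1
    have h2 : 1 ≤ (∑ i, w i) ^ 3 := by
      by_contra h3; push Not at h3; nlinarith
    exact le_antisymm a4 ((one_le_pow_iff_of_nonneg (sum_nonneg fun i _ => a1 i)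
      (by norm_num)).1 h2)
  obtain ⟨i0, -, hi0⟩ := exists_max_image univ w ⟨i1, mem_univ _⟩
  have hρ : 0 < w i0 := by
    by_contra h1; push Not at h1
    have := sum_nonpos fun i (hi : i ∈ univ) => (hi0 i hi).trans h1
    linarith
  obtain ⟨f, g, e0, e1, e2⟩ := exists_cross (a i0)
  have hup : ∀ t : ℝ, ∑ i, Function.update w i0 (w i0 - t) i • sq6 (a i) =
      ∑ i, w i • sq6 (a i) - t • sq6 (a i0) := fun t => by
    rw [← add_sum_erase _ _ (mem_univ i0), ← add_sum_erase _ (fun i => w i • sq6 (a i))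
      (mem_univ i0), Function.update_self, sum_congr rfl fun i hi => by
        rw [Function.update_of_ne (ne_of_mem_erase hi)], sub_smul]
    abel
  have hups : ∀ t : ℝ, ∑ i, Function.update w i0 (w i0 - t) i = 1 - t := fun t => by
    rw [sum_update_of_mem (mem_univ _), ← hw, ← add_sum_erase _ w (mem_univ i0), sdiff_singleton_eq_erase]
    ring
  have hup0 : ∀ t : ℝ, t ≤ w i0 → ∀ i, 0 ≤ Function.update w i0 (w i0 - t) i := fun t ht i => by
    rcases eq_or_ne i i0 with rfl | hi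
    · rw [Function.update_self]; linarith
    · rw [Function.update_of_ne hi]; exact a1 i
  have hE := planar5 i0 (Function.update w i0 (w i0 - w i0))
    (fun i => f 0 * a i 0 + f 1 * a i 1 + f 2 * a i 2)
    (fun i => g 0 * a i 0 + g 1 * a i 1 + g 2 * a i 2) (hup0 _ le_rfl) (ρ := w i0) (fun i => by
      rcases eq_or_ne i i0 with rfl | hi
      · rw [Function.update_self]; linarith
      · rw [Function.update_of_ne hi]; exact hi0 i (mem_univ _)) (hups _) (by
      refine (card_le_card (t := (univ.filter fun i => w i ≠ 0).erase i0) fun i hi => ?_).trans ?_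
      · have hi' := (mem_filter.1 hi).2
        rcases eq_or_ne i i0 with rfl | hi
        · simp at hi'
        · rw [Function.update_of_ne hi] at hi'
          exact mem_erase.2 ⟨hi, mem_filter.2 ⟨mem_univ _, hi'⟩⟩
      · have : i0 ∈ univ.filter fun i => w i ≠ 0 := mem_filter.2 ⟨mem_univ _, hρ.ne'⟩
        rw [card_erase_of_mem this]; omega) (fun j k => by
      refine le_trans (le_of_eq ?_) (h i0 j k)
      congr 1
      rw [det3, e0, e1, e2]; ring)
  rw [moment a _ f f _ (hup _), moment a _ g g _ (hup _), moment a _ f g _ (hup _), a3] at hE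
  have key : ∀ t : ℝ, 0 < t → t ≤ w i0 → 3 * Φ ≤ 2 / 9 + 3 * t * Φ := fun t ht ht1 => by
    have h1 := H _ (hup0 t ht1)
    rw [hup, hups, a3] at h1
    generalize ∑ i, c0 i • sq6 (a i) = m at h1 hE hΦ
    simp only [sdet, sq6, Pi.sub_apply, Pi.smul_apply, smul_eq_mul, Matrix.cons_val] at h1 hE hΦ
    rw [e0, e1, e2] at h1 hE
    have h2 := mul_le_mul_of_nonneg_left hE ht.le
    have h3 : 0 ≤ Φ * t ^ 3 := by positivity
    apply le_of_mul_le_mul_left _ ht
    rw [hΦ] at h1 h3 ⊢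
    linarith
  have h5 := key (min (w i0) ((Φ - 2 / 27) / (2 * Φ))) (lt_min hρ (div_pos (by linarith)
    (by linarith))) (min_le_left _ _)
  have h6 := min_le_right (w i0) ((Φ - 2 / 27) / (2 * Φ))
  rw [le_div_iff₀ (by linarith)] at h6
  linarith

lemma hyp_three : Hyp 3 (4 / 9) := fun n u a T _ _ _ hd => by
  have e1 : ∑ h ∈ Fintype.piFinset fun _ : Fin 3 => T, (Matrix.of fun l j => a (h j) l).det ^ 2 =
      ∑ h : Fin 3 → T, (Matrix.of fun l j => a (h j) l).det ^ 2 := by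
    symm
    refine sum_bij (fun g _ j => (g j : Fin n)) (fun g _ => Fintype.mem_piFinset.2 fun j => (g j).2)
      (fun g _ g' _ e => funext fun j => Subtype.ext (congrFun e j))
      (fun g hg => ⟨fun j => ⟨g j, Fintype.mem_piFinset.1 hg j⟩, mem_univ _, rfl⟩) fun _ _ => rfl
  have h1 := sdet_le (fun i : T => a i) (fun i j k => by
    refine le_trans (le_of_eq ?_) (hd ![i, j, k] fun l => by fin_cases l <;> simp)
    congr 1
    simp only [Matrix.det_fin_three, det3, Matrix.of_apply, Matrix.cons_val]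
    ring) (fun _ => 1) fun _ => zero_le_one
  rw [e1, ← andreief fun i : T => a i]
  have e2 : (Matrix.of fun l l' => ∑ i : T, a i l * a i l').det =
      sdet (∑ i : T, (1 : ℝ) • sq6 (a i)) := by
    have c : ∀ l l', ∑ i : T, a i l * a i l' = ∑ i : T, a i l' * a i l := fun l l' =>
      sum_congr rfl fun _ _ => mul_comm _ _
    simp only [Matrix.det_fin_three, sdet, sq6, Matrix.of_apply, one_smul, Finset.sum_apply,
      Matrix.cons_val]
    rw [c 1 0, c 2 0, c 2 1]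
    ring
  rw [e2]
  simp only [sum_const, card_univ, Fintype.card_coe, nsmul_eq_mul, mul_one] at h1
  norm_num [Nat.factorial] at h1 ⊢
  linarith

end Pool.Agent.Lib.MP_3b7d13_co
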