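import Pool.Agent.Lib.MP_3b7d13_co.Moments

/-! The lattice construction giving the upper bound. -/

namespace Pool.Agent.Lib.MP_3b7d13_co

open Finset

/-- number of heads -/
def heads {k : ℕ} (ε : Fin k → Bool) : ℕ := (univ.filter fun i => ε i = true).card

lemma sum_sgn {k : ℕ} (ε : Fin k → Bool) : ∑ i, sgn (ε i) = 2 * (heads ε : ℝ) - k := by
  unfold heads
  rw [card_filter]
  push_cast
  have : ∀ i, sgn (ε i) = 2 * (if ε i = true then (1 : ℝ) else 0) - 1 := fun i => by
    cases ε i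
    · simp [sgn]
    · simp only [sgn, if_true]; norm_num
  simp only [this, sum_sub_distrib, ← mul_sum]
  simp

lemma card_heads (k j : ℕ) : (univ.filter fun ε : Fin k → Bool => heads ε = j).card = k.choose j := by
  have hb : Function.Bijective fun ε : Fin k → Bool => univ.filter fun i => ε i = true := by
    rw [Fintype.bijective_iff_injective_and_card]
    refine ⟨fun ε ε' h => funext fun i => ?_, by simp⟩
    have := congrArg (i ∈ ·) h
    simp only [mem_filter, mem_univ, true_and, eq_iff_iff] at this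
    exact Bool.eq_iff_iff.2 this
  have : k.choose j = (powersetCard j (univ : Finset (Fin k))).card := by simp
  rw [this]
  refine card_bijective _ hb fun ε => ?_
  simp [heads, mem_powersetCard]

lemma heads_le {k : ℕ} (ε : Fin k → Bool) : heads ε ≤ k := by
  unfold heads
  exact (card_le_univ _).trans (by simp)

lemma centralBinom_sq_le (n : ℕ) : n.centralBinom ^ 2 * (2 * n + 1) ≤ 16 ^ n := by
  induction n with
  | zero => simp
  | succ n ih =>
    have h := Nat.succ_mul_centralBinom_succ n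
    have h2 : ((n + 1) * (n + 1).centralBinom) ^ 2 * (2 * (n + 1) + 1) ≤ (n + 1) ^ 2 * 16 ^ (n + 1) := by
      rw [h, pow_succ 16]
      calc (2 * (2 * n + 1) * n.centralBinom) ^ 2 * (2 * (n + 1) + 1)
          = (n.centralBinom ^ 2 * (2 * n + 1)) * (4 * (2 * n + 1) * (2 * n + 3)) := by ring
        _ ≤ 16 ^ n * (16 * (n + 1) ^ 2) := Nat.mul_le_mul ih (by nlinarith)
        _ = _ := by ring
    rw [mul_pow, mul_assoc] at h2
    exact Nat.le_of_mul_le_mul_left h2 (by positivity)

lemma choose_half_sq_le (k : ℕ) : k.choose (k / 2) ^ 2 * k ≤ 4 ^ k := by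
  rcases Nat.even_or_odd' k with ⟨n, rfl | rfl⟩
  · rw [Nat.mul_div_cancel_left _ (by norm_num : 0 < 2), ← Nat.centralBinom_eq_two_mul_choose,
      pow_mul 4]
    exact (Nat.mul_le_mul_left _ (by omega)).trans (centralBinom_sq_le n)
  · rw [show (2 * n + 1) / 2 = n by omega]
    have h : (2 * n + 1).choose n ≤ 2 * n.centralBinom := by
      rw [← Nat.choose_symm_half, Nat.choose_succ_succ', Nat.centralBinom_eq_two_mul_choose]
      have := Nat.choose_le_middle (n + 1) (2 * n)
      rw [Nat.mul_div_cancel_left _ (by norm_num : 0 < 2)] at this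
      omega
    calc (2 * n + 1).choose n ^ 2 * (2 * n + 1) ≤ (2 * n.centralBinom) ^ 2 * (2 * n + 1) :=
          Nat.mul_le_mul_right _ (Nat.pow_le_pow_left h 2)
      _ = 4 * (n.centralBinom ^ 2 * (2 * n + 1)) := by ring
      _ ≤ 4 * 16 ^ n := Nat.mul_le_mul_left _ (centralBinom_sq_le n)
      _ = 4 ^ (2 * n + 1) := by rw [pow_succ, pow_mul]; ring

lemma choose_mono_half (a j t : ℕ) (h : j + t ≤ a / 2) : a.choose j ≤ a.choose (j + t) := by
  induction t with
  | zero => rfl
  | succ t ih =>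
    exact (ih (by omega)).trans (Nat.choose_le_succ_of_lt_half_left (by omega))

lemma spaced_half (a N : ℕ) (J : Finset ℕ) (hJ : ∀ j ∈ J, j ≤ a / 2)
    (hsp : ∀ j ∈ J, ∀ j' ∈ J, j < j' → j + N ≤ j') :
    N * ∑ j ∈ J, a.choose j ≤ 2 ^ a + N * a.choose (a / 2) := by
  rw [← sum_filter_add_sum_filter_not J (fun j => j + N ≤ a / 2 + 1), mul_add]
  refine Nat.add_le_add ?_ (Nat.mul_le_mul_left _ ?_)
  · calc N * ∑ j ∈ J with j + N ≤ a / 2 + 1, a.choose j
        = ∑ j ∈ J with j + N ≤ a / 2 + 1, ∑ t ∈ range N, a.choose j := by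
          rw [mul_sum]; simp
      _ ≤ ∑ j ∈ J with j + N ≤ a / 2 + 1, ∑ t ∈ range N, a.choose (j + t) := by
          refine sum_le_sum fun j hj => sum_le_sum fun t ht => choose_mono_half _ _ _ ?_
          rw [mem_filter] at hj; rw [mem_range] at ht; omega
      _ = ∑ z ∈ (J.filter fun j => j + N ≤ a / 2 + 1) ×ˢ range N, a.choose (z.1 + z.2) := by
          rw [sum_product]
      _ = ∑ i ∈ ((J.filter fun j => j + N ≤ a / 2 + 1) ×ˢ range N).image (fun z => z.1 + z.2),
            a.choose i := by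
          rw [sum_image]
          rintro ⟨j, t⟩ h1 ⟨j', t'⟩ h2 h
          simp only [coe_product, coe_filter, coe_range, Set.mem_prod, Set.mem_ofPred_eq,
            Set.mem_Iio] at h1 h2 h
          have : j = j' := by
            rcases lt_trichotomy j j' with c | c | c
            · have := hsp j h1.1.1 j' h2.1.1 c; omega
            · exact c
            · have := hsp j' h2.1.1 j h1.1.1 c; omega
          exact Prod.ext this (by simp only; omega)
      _ ≤ ∑ i ∈ range (a + 1), a.choose i := by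
          refine sum_le_sum_of_subset fun i hi => ?_
          obtain ⟨⟨j, t⟩, h1, rfl⟩ := mem_image.1 hi
          simp only [mem_product, mem_filter, mem_range] at h1 ⊢
          omega
      _ = 2 ^ a := Nat.sum_range_choose a
  · have h1 : (J.filter fun j => ¬ j + N ≤ a / 2 + 1).card ≤ 1 := by
      refine card_le_one.2 fun j h1 j' h2 => ?_
      rw [mem_filter] at h1 h2
      have := hJ j h1.1
      have := hJ j' h2.1
      rcases lt_trichotomy j j' with c | c | c
      · have := hsp j h1.1 j' h2.1 c; omega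
      · exact c
      · have := hsp j' h2.1 j h1.1 c; omega
    refine (sum_le_card_nsmul _ _ (a.choose (a / 2)) fun j _ => Nat.choose_le_middle _ _).trans ?_
    rw [smul_eq_mul]
    exact (Nat.mul_le_mul_right _ h1).trans (by simp)

lemma spaced (a N : ℕ) (J : Finset ℕ) (hJ : ∀ j ∈ J, j ≤ a)
    (hsp : ∀ j ∈ J, ∀ j' ∈ J, j < j' → j + N ≤ j') :
    N * ∑ j ∈ J, a.choose j ≤ 2 * 2 ^ a + 2 * (N * a.choose (a / 2)) := by
  rw [← sum_filter_add_sum_filter_not J (fun j => j ≤ a / 2), mul_add]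
  have h1 := spaced_half a N (J.filter fun j => j ≤ a / 2) (fun j hj => (mem_filter.1 hj).2)
    fun j hj j' hj' => hsp j (mem_filter.1 hj).1 j' (mem_filter.1 hj').1
  have h2 := spaced_half a N ((J.filter fun j => ¬ j ≤ a / 2).image fun j => a - j)
    (fun j hj => by
      obtain ⟨i, hi, rfl⟩ := mem_image.1 hj
      have := (mem_filter.1 hi).2
      omega)
    (fun j hj j' hj' hlt => by
      obtain ⟨i, hi, rfl⟩ := mem_image.1 hj
      obtain ⟨i', hi', rfl⟩ := mem_image.1 hj'
      have := hJ i (mem_filter.1 hi).1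
      have := hsp i' (mem_filter.1 hi').1 i (mem_filter.1 hi).1 (by omega)
      omega)
  rw [sum_image (fun i hi i' hi' h => by
    have := hJ i (mem_filter.1 hi).1
    have := hJ i' (mem_filter.1 hi').1
    have h' : a - i = a - i' := h
    omega)] at h2
  have h3 : ∑ j ∈ J with ¬ j ≤ a / 2, a.choose (a - j) = ∑ j ∈ J with ¬ j ≤ a / 2, a.choose j :=
    sum_congr rfl fun j hj => Nat.choose_symm (hJ j (mem_filter.1 hj).1)
  rw [h3] at h2
  omega

lemma card_class (a N : ℕ) (hN : Odd N) (c : ℤ) :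
    N * (univ.filter fun ε : Fin a → Bool => (N : ℤ) ∣ 4 * heads ε - c).card ≤
      2 * 2 ^ a + 2 * (N * a.choose (a / 2)) := by
  have h1 : (univ.filter fun ε : Fin a → Bool => (N : ℤ) ∣ 4 * heads ε - c).card =
      ∑ j ∈ (range (a + 1)).filter fun j : ℕ => (N : ℤ) ∣ 4 * j - c, a.choose j := by
    rw [card_eq_sum_card_fiberwise (f := heads)
      (t := (range (a + 1)).filter fun j : ℕ => (N : ℤ) ∣ 4 * j - c)]
    · refine sum_congr rfl fun j hj => ?_
      rw [← card_heads]
      congr 1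
      ext ε
      simp only [mem_filter, mem_univ, true_and]
      exact ⟨fun h => h.2, fun h => ⟨h ▸ (mem_filter.1 hj).2, h⟩⟩
    · intro ε hε
      rw [mem_coe, mem_filter] at hε
      rw [mem_coe, mem_filter, mem_range]
      exact ⟨Nat.lt_succ_of_le (heads_le ε), hε.2⟩
  rw [h1]
  refine spaced a N _ (fun j hj => Nat.lt_succ_iff.1 (mem_range.1 (mem_filter.1 hj).1))
    fun j hj j' hj' hlt => ?_
  have h2 := dvd_sub (mem_filter.1 hj').2 (mem_filter.1 hj).2
  have h3 : (N : ℤ) ∣ ((2 ^ 2 * (j' - j) : ℕ) : ℤ) := by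
    have e : ((2 ^ 2 * (j' - j) : ℕ) : ℤ) = 4 * (j' : ℤ) - c - (4 * (j : ℤ) - c) := by
      push_cast [hlt.le]
      ring
    rw [e]; exact h2
  have h4 : N ∣ j' - j :=
    (Nat.Coprime.pow_right 2 (Nat.coprime_two_right.2 hN)).dvd_of_dvd_mul_left
      (Int.natCast_dvd_natCast.1 h3)
  have := Nat.le_of_dvd (by omega) h4
  omega

lemma card_triples (a b e N : ℕ) (hN : Odd N) (p q : ℤ) :
    N * (univ.filter fun z : (Fin a → Bool) × (Fin b → Bool) × (Fin e → Bool) =>
      2 * (heads z.1 : ℤ) - a + (2 * heads z.2.1 - b) = p ∧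
        2 * (heads z.1 : ℤ) - a - (2 * heads z.2.1 - b) + N * (2 * heads z.2.2 - e) = q).card ≤
      b.choose (b / 2) * e.choose (e / 2) * (2 * 2 ^ a + 2 * (N * a.choose (a / 2))) := by
  have hN0 : (N : ℤ) ≠ 0 := by
    have := hN.pos
    omega
  have h1 := card_le_mul_card_image_of_maps_to
    (s := univ.filter fun z : (Fin a → Bool) × (Fin b → Bool) × (Fin e → Bool) =>
      2 * (heads z.1 : ℤ) - a + (2 * heads z.2.1 - b) = p ∧
        2 * (heads z.1 : ℤ) - a - (2 * heads z.2.1 - b) + N * (2 * heads z.2.2 - e) = q)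
    (t := univ.filter fun ε : Fin a → Bool => (N : ℤ) ∣ 4 * heads ε - (p + q + 2 * a))
    (f := Prod.fst) (fun z hz => by
      rw [mem_filter] at hz ⊢
      refine ⟨mem_univ _, -(2 * heads z.2.2 - e), ?_⟩
      linarith [hz.2.1, hz.2.2]) (b.choose (b / 2) * e.choose (e / 2)) (fun x _ => by
      rcases ((univ.filter fun z : (Fin a → Bool) × (Fin b → Bool) × (Fin e → Bool) =>
        2 * (heads z.1 : ℤ) - a + (2 * heads z.2.1 - b) = p ∧
          2 * (heads z.1 : ℤ) - a - (2 * heads z.2.1 - b) + N * (2 * heads z.2.2 - e) = q).filter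
          fun z => z.1 = x).eq_empty_or_nonempty with h | ⟨z0, hz0⟩
      · rw [h]; simp
      refine le_trans (card_le_card_of_injOn (t := (univ.filter fun y => heads y = heads z0.2.1) ×ˢ
        (univ.filter fun y => heads y = heads z0.2.2)) Prod.snd ?_ ?_) ?_
      · intro z hz
        simp only [coe_filter, mem_filter, mem_univ, true_and, Set.mem_ofPred_eq, coe_product,
          Set.mem_prod] at hz hz0 ⊢
        obtain ⟨⟨h1, h2⟩, h3⟩ := hz
        obtain ⟨⟨g1, g2⟩, g3⟩ := hz0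
        rw [h3] at h1 h2
        rw [g3] at g1 g2
        have e1 : heads z.2.1 = heads z0.2.1 := by omega
        refine ⟨e1, ?_⟩
        rw [e1] at h2
        have : (N : ℤ) * (2 * heads z.2.2 - e) = N * (2 * heads z0.2.2 - e) := by linarith
        have := mul_left_cancel₀ hN0 this
        omega
      · intro z hz z' hz' h
        simp only [coe_filter, mem_filter, Set.mem_ofPred_eq] at hz hz'
        exact Prod.ext (hz.2.trans hz'.2.symm) h
      · rw [card_product, card_heads, card_heads]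
        exact Nat.mul_le_mul (Nat.choose_le_middle _ _) (Nat.choose_le_middle _ _))
  calc _ ≤ N * (b.choose (b / 2) * e.choose (e / 2) * (univ.filter fun ε : Fin a → Bool =>
        (N : ℤ) ∣ 4 * heads ε - (p + q + 2 * a)).card) := Nat.mul_le_mul_left _ h1
    _ = b.choose (b / 2) * e.choose (e / 2) * (N * (univ.filter fun ε : Fin a → Bool =>
        (N : ℤ) ∣ 4 * heads ε - (p + q + 2 * a)).card) := by ring
    _ ≤ _ := Nat.mul_le_mul_left _ (card_class a N hN _)

lemma odd_int {P : ℤ} (h : Odd P) : P = 1 ∨ P = -1 ∨ (9 : ℝ) ≤ (P : ℝ) ^ 2 := by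
  obtain ⟨k, rfl⟩ := h
  rcases le_or_gt 1 k with h1 | h1
  · right; right
    have : (1 : ℝ) ≤ k := by exact_mod_cast h1
    push_cast; nlinarith
  rcases le_or_gt k (-2) with h2 | h2
  · right; right
    have : (k : ℝ) ≤ -2 := by exact_mod_cast h2
    push_cast; nlinarith
  omega

lemma odd_sq_ge {P : ℤ} (h : Odd P) : (1 : ℝ) ≤ (P : ℝ) ^ 2 := by
  rcases odd_int h with rfl | rfl | h1
  · simp
  · simp
  · linarith

lemma lattice_pts {N : ℕ} {δ : ℝ} (hδ : 0 < δ) (hδ1 : δ ≤ 1 / 4) (hN3 : 3 ≤ N)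
    (hN : (N : ℝ) ^ 2 * δ ≤ 9 / 4) {P Q : ℤ} (hP : Odd P) (hQ : Odd Q)
    (h : (1 - (1 / N) ^ 2) * (P : ℝ) ^ 2 + (1 / N) ^ 2 * (Q : ℝ) ^ 2 ≤ (1 + δ) ^ 2) :
    (P = 1 ∨ P = -1) ∧ (Q = 1 ∨ Q = -1) := by
  have hN3' : (3 : ℝ) ≤ N := by exact_mod_cast hN3
  obtain ⟨s, hs⟩ : ∃ s : ℝ, s = (1 / N) ^ 2 := ⟨_, rfl⟩
  rw [← hs] at h
  have hs1 : s * N ^ 2 = 1 := by rw [hs]; field_simp
  have hs0 : 0 < s := by rw [hs]; positivity
  have hs2 : s ≤ 1 / 9 := by nlinarith [mul_le_mul_of_nonneg_left (by nlinarith : (9 : ℝ) ≤ N ^ 2) hs0.le]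
  have hs3 : δ ≤ 9 / 4 * s := by nlinarith [mul_le_mul_of_nonneg_left hN hs0.le]
  have p1 := odd_sq_ge hP
  have q1 := odd_sq_ge hQ
  constructor
  · rcases odd_int hP with h1 | h1 | h1
    · exact Or.inl h1
    · exact Or.inr h1
    · exfalso
      nlinarith [mul_le_mul_of_nonneg_left h1 (by linarith : 0 ≤ 1 - s)]
  · rcases odd_int hQ with h1 | h1 | h1
    · exact Or.inl h1
    · exact Or.inr h1
    · exfalso
      nlinarith [mul_le_mul_of_nonneg_left h1 hs0.le,
        mul_le_mul_of_nonneg_left p1 (by linarith : 0 ≤ 1 - s)]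

/-- the three blocks -/
def blk (a b e : ℕ) : Fin a ⊕ Fin b ⊕ Fin e ≃ Fin (a + (b + e)) :=
  (Equiv.sumCongr (Equiv.refl _) finSumFinEquiv).trans finSumFinEquiv

/-- the three directions -/
noncomputable def dir (a b e : ℕ) (s : ℝ) : Fin a ⊕ Fin b ⊕ Fin e → EuclideanSpace ℝ (Fin 2)
  | Sum.inl _ => !₂[√(1 - s ^ 2), s]
  | Sum.inr (Sum.inl _) => !₂[√(1 - s ^ 2), -s]
  | Sum.inr (Sum.inr _) => !₂[0, 1]

lemma dir_norm (a b e : ℕ) {s : ℝ} (hs : s ^ 2 ≤ 1) (i : Fin a ⊕ Fin b ⊕ Fin e) :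
    ‖dir a b e s i‖ = 1 := by
  have : ‖dir a b e s i‖ ^ 2 = 1 := by
    rw [EuclideanSpace.real_norm_sq_eq, Fin.sum_univ_two]
    rcases i with i | i | i <;> simp [dir, Real.sq_sqrt (sub_nonneg.2 hs)]
  exact (pow_eq_one_iff_of_nonneg (norm_nonneg _) two_ne_zero).1 this

lemma prob_upper (a b e N : ℕ) (ha : Odd a) (hb : Even b) (he : Even e) (hN : Odd N) {δ : ℝ}
    (hδ : 0 < δ) (hδ1 : δ ≤ 1 / 4) (hN3 : 3 ≤ N) (hNδ : (N : ℝ) ^ 2 * δ ≤ 9 / 4) :
    N * (univ.filter fun ε : Fin (a + (b + e)) → Bool =>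
      ‖∑ i, sgn (ε i) • dir a b e (1 / N) ((blk a b e).symm i)‖ ≤ 1 + δ).card ≤
      4 * (b.choose (b / 2) * e.choose (e / 2) * (2 * 2 ^ a + 2 * (N * a.choose (a / 2)))) := by
  obtain ⟨S, hS⟩ : ∃ S : ℤ → ℤ → Finset ((Fin a → Bool) × (Fin b → Bool) × (Fin e → Bool)),
      ∀ p q, S p q = univ.filter fun z =>
      2 * (heads z.1 : ℤ) - a + (2 * heads z.2.1 - b) = p ∧
        2 * (heads z.1 : ℤ) - a - (2 * heads z.2.1 - b) + N * (2 * heads z.2.2 - e) = q :=
    ⟨_, fun _ _ => rfl⟩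
  have hS1 : ∀ p q, N * (S p q).card ≤
      b.choose (b / 2) * e.choose (e / 2) * (2 * 2 ^ a + 2 * (N * a.choose (a / 2))) :=
    fun p q => by rw [hS]; exact card_triples a b e N hN p q
  have hN3' : (3 : ℝ) ≤ N := by exact_mod_cast hN3
  have hs : (1 / (N : ℝ)) ^ 2 ≤ 1 := by
    rw [div_pow, div_le_one (by positivity)]; nlinarith
  have h1 : (univ.filter fun ε : Fin (a + (b + e)) → Bool =>
      ‖∑ i, sgn (ε i) • dir a b e (1 / N) ((blk a b e).symm i)‖ ≤ 1 + δ).card ≤
      (S 1 1 ∪ S 1 (-1) ∪ S (-1) 1 ∪ S (-1) (-1)).card := by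
    refine card_le_card_of_injOn (fun ε => (fun i => ε (blk a b e (Sum.inl i)),
      fun i => ε (blk a b e (Sum.inr (Sum.inl i))),
      fun i => ε (blk a b e (Sum.inr (Sum.inr i))))) ?_ ?_
    · intro ε hε
      rw [mem_coe, mem_filter] at hε
      have h2 := hε.2
      rw [← sq_le_sq₀ (norm_nonneg _) (by linarith), EuclideanSpace.real_norm_sq_eq,
        Fin.sum_univ_two, ← (blk a b e).sum_comp] at h2
      simp only [Equiv.symm_apply_apply, WithLp.ofLp_sum, Finset.sum_apply, WithLp.ofLp_smul,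
        Pi.smul_apply, smul_eq_mul, Fintype.sum_sum_type, WithLp.ofLp_add, Pi.add_apply, dir,
        Matrix.cons_val_zero, Matrix.cons_val_one, ← sum_mul, sum_sgn] at h2
      generalize hA : heads (fun i => ε (blk a b e (Sum.inl i))) = A at h2
      generalize hB : heads (fun i => ε (blk a b e (Sum.inr (Sum.inl i)))) = B at h2
      generalize hE : heads (fun i => ε (blk a b e (Sum.inr (Sum.inr i)))) = E at h2
      have := lattice_pts hδ hδ1 hN3 hNδ (P := 2 * (A : ℤ) - a + (2 * B - b))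
        (Q := 2 * (A : ℤ) - a - (2 * B - b) + N * (2 * E - e)) ?_ ?_ ?_
      · simp only [coe_union, Set.mem_union, mem_coe, hS, mem_filter, mem_univ, true_and, hA, hB, hE]
        tauto
      · obtain ⟨a', rfl⟩ := ha
        obtain ⟨b', rfl⟩ := hb
        exact ⟨A - a' - 1 + B - b', by push_cast; ring⟩
      · obtain ⟨a', rfl⟩ := ha
        obtain ⟨b', rfl⟩ := hb
        obtain ⟨e', rfl⟩ := he
        exact ⟨A - a' - 1 - B + b' + N * (E - e'), by push_cast; ring⟩
      · refine le_trans (le_of_eq ?_) h2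
        push_cast
        have hc := Real.sq_sqrt (sub_nonneg.2 hs)
        have hN0 : (N : ℝ) ≠ 0 := by positivity
        have e1 : (2 * (A : ℝ) - a) * (1 / N) + ((2 * B - b) * -(1 / N) + (2 * E - e) * 1) =
            (1 / N) * (2 * A - a - (2 * B - b) + N * (2 * E - e)) := by field_simp; ring
        rw [e1]
        linear_combination (-(2 * (A : ℝ) - a + (2 * B - b)) ^ 2) * hc
    · intro ε _ ε' _ h
      simp only [Prod.mk.injEq] at h
      funext j
      obtain ⟨i, rfl⟩ := (blk a b e).surjective j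
      rcases i with i | i | i
      · exact congrFun h.1 i
      · exact congrFun h.2.1 i
      · exact congrFun h.2.2 i
  have h2 : (S 1 1 ∪ S 1 (-1) ∪ S (-1) 1 ∪ S (-1) (-1)).card ≤
      (S 1 1).card + (S 1 (-1)).card + (S (-1) 1).card + (S (-1) (-1)).card :=
    (card_union_le _ _).trans (Nat.add_le_add_right ((card_union_le _ _).trans
      (Nat.add_le_add_right (card_union_le _ _) _)) _)
  have h3 := Nat.mul_le_mul_left N (h1.trans h2)
  have := hS1 1 1
  have := hS1 1 (-1)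
  have := hS1 (-1) 1
  have := hS1 (-1) (-1)
  rw [mul_add, mul_add, mul_add] at h3
  omega

end Pool.Agent.Lib.MP_3b7d13_co
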