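import Pool.Agent.Lib.MP_3b7d13_co.VarQ

/-! Test functions and the Fourier representation of expectations. -/

namespace Pool.Agent.Lib.MP_3b7d13_co.Var

open Real Finset MeasureTheory Metric Filter Topology FourierTransform Convolution
open scoped RealInnerProductSpace ContDiff

variable {d : ℕ} {ι : Type*} [Fintype ι]

/-- A compactly supported function and its real Fourier transform, with polynomial decay. -/
structure TP (φ g : E d → ℝ) (C : ℝ) : Prop where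
  cφ : Continuous φ
  supp : HasCompactSupport φ
  cg : Continuous g
  dec : ∀ ξ, |g ξ| ≤ C * wt ξ
  four : ∀ ξ, 𝓕 (fun x => (φ x : ℂ)) ξ = g ξ

lemma TP.C_nonneg {φ g : E d → ℝ} {C : ℝ} (h : TP φ g C) : 0 ≤ C :=
  nonneg_of_mul_nonneg_left ((abs_nonneg _).trans (h.dec 0)) (wt_pos 0)

lemma TP.int_g {φ g : E d → ℝ} {C : ℝ} (h : TP φ g C) : Integrable g :=
  (wt_integrable.const_mul C).mono' h.cg.aestronglyMeasurable (ae_of_all _ h.dec)

lemma TP.int_φ {φ g : E d → ℝ} {C : ℝ} (h : TP φ g C) : Integrable fun x => (φ x : ℂ) :=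
  (h.cφ.integrable_of_hasCompactSupport h.supp).ofReal

lemma TP.int_mul {φ g : E d → ℝ} {C : ℝ} (h : TP φ g C) {f : E d → ℝ} (hf : Continuous f)
    (h1 : ∀ ξ, |f ξ| ≤ 1) : Integrable fun ξ => g ξ * f ξ :=
  h.int_g.mul_bdd hf.aestronglyMeasurable (ae_of_all _ h1)

lemma TP.inv {φ g : E d → ℝ} {C : ℝ} (h : TP φ g C) (x : E d) :
    φ x = ∫ ξ, g ξ * cos (2 * π * ⟪ξ, x⟫) := by
  have e : 𝓕 (fun x => (φ x : ℂ)) = fun ξ => (g ξ : ℂ) := funext h.four
  have h1 := congrFun ((Complex.continuous_ofReal.comp h.cφ).fourierInv_fourier_eq h.int_φ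
    (by rw [Function.comp_def, e]; exact h.int_g.ofReal)) x
  rw [Function.comp_def, e, fourierInv_eq'] at h1
  have hi : Integrable fun v : E d =>
      Complex.exp (((2 * π * ⟪v, x⟫ : ℝ) : ℂ) * Complex.I) • (g v : ℂ) := by
    simp only [smul_eq_mul]
    refine h.int_g.ofReal.bdd_mul (c := 1) (Continuous.aestronglyMeasurable (by fun_prop))
      (ae_of_all _ fun v => ?_)
    rw [Complex.norm_exp_ofReal_mul_I]
  have h2 := congrArg Complex.re h1
  have h3 := integral_re hi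
  simp only [RCLike.re_to_complex] at h3
  rw [← h3] at h2
  simp only [smul_eq_mul, Complex.re_mul_ofReal, Complex.exp_ofReal_mul_I_re,
    Complex.ofReal_re] at h2
  rw [← h2]
  simp_rw [mul_comm]

/-- The expectation of `φ` at the Rademacher sum. -/
noncomputable def Ex [DecidableEq ι] (v : ι → E d) (φ : E d → ℝ) : ℝ :=
  (∑ ε : ι → Bool, φ (∑ i, sgn (ε i) • v i)) / 2 ^ Fintype.card ι

lemma avg_cos [DecidableEq ι] (v : ι → E d) (ξ : E d) (c : ℝ) :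
    ∑ ε : ι → Bool, cos (c + 2 * π * ⟪ξ, ∑ i, sgn (ε i) • v i⟫) =
      2 ^ Fintype.card ι * (cos c * Phi v ξ) := by
  rw [Phi, ← sum_cos_sgn]
  refine sum_congr rfl fun ε _ => ?_
  rw [inner_sum, mul_sum]
  congr 2
  refine sum_congr rfl fun i _ => ?_
  rw [real_inner_smul_right]; ring

lemma TP.Ex_shift [DecidableEq ι] {φ g : E d → ℝ} {C : ℝ} (h : TP φ g C) (v : ι → E d)
    (z : E d) :
    Ex v (fun x => φ (x - z)) = ∫ ξ, g ξ * (cos (2 * π * ⟪ξ, z⟫) * Phi v ξ) := by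
  unfold Ex
  simp_rw [h.inv]
  rw [← integral_finsetSum _ fun ε _ => h.int_mul (by fun_prop) fun ξ => abs_cos_le_one _,
    ← integral_div]
  congr 1
  funext ξ
  rw [← mul_sum]
  have e : ∀ ε : ι → Bool, 2 * π * ⟪ξ, ∑ i, sgn (ε i) • v i - z⟫ =
      -(2 * π * ⟪ξ, z⟫) + 2 * π * ⟪ξ, ∑ i, sgn (ε i) • v i⟫ := fun ε => by
    rw [inner_sub_right]; ring
  simp_rw [e]
  rw [avg_cos, cos_neg]
  field_simp

lemma TP.Ex_eq [DecidableEq ι] {φ g : E d → ℝ} {C : ℝ} (h : TP φ g C) (v : ι → E d) :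
    Ex v φ = ∫ ξ, g ξ * Phi v ξ := by
  simpa using h.Ex_shift v 0

lemma exists_TP_of_smooth {φ : E d → ℝ} (hc : ContDiff ℝ ∞ φ) (hs : HasCompactSupport φ)
    (he : ∀ x, φ (-x) = φ x) : ∃ g C, TP φ g C := by
  have hc' : ContDiff ℝ ∞ fun x => (φ x : ℂ) := Complex.ofRealCLM.contDiff.comp hc
  have hs' : HasCompactSupport fun x => (φ x : ℂ) := hs.comp_left (g := Complex.ofReal) rfl
  let f : SchwartzMap (E d) ℂ := hs'.toSchwartzMap hc'
  have hf : ∀ ξ, (𝓕 f) ξ = 𝓕 (fun x => (φ x : ℂ)) ξ := fun ξ => rfl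
  have hreal : ∀ ξ, (starRingEnd ℂ) (𝓕 (fun x => (φ x : ℂ)) ξ) = 𝓕 (fun x => (φ x : ℂ)) ξ := by
    intro ξ
    have e : (fun x => (φ x : ℂ)) = fun x => (φ (-x) : ℂ) := by funext x; rw [he]
    conv_rhs => rw [e, ← fourierInv_eq_fourier_comp_neg (fun x => (φ x : ℂ)), fourierInv_eq']
    rw [fourier_eq', ← integral_conj]
    congr 1
    funext v
    simp only [smul_eq_mul, map_mul, Complex.conj_ofReal, ← Complex.exp_conj, Complex.conj_I]
    congr 2
    push_cast; ring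
  obtain ⟨C0, h0, hC0⟩ := (𝓕 f).decay 0 0
  obtain ⟨C1, h1, hC1⟩ := (𝓕 f).decay (d + 1) 0
  simp only [norm_iteratedFDeriv_zero, pow_zero, one_mul] at hC0 hC1
  refine ⟨fun ξ => ((𝓕 f) ξ).re, 2 ^ d * (C0 + C1), hc.continuous, hs,
    Complex.continuous_re.comp (𝓕 f).continuous, fun ξ => ?_, fun ξ => ?_⟩
  · refine (Complex.abs_re_le_norm _).trans ?_
    have e : wt ξ = ((1 + ‖ξ‖) ^ (d + 1))⁻¹ := by
      unfold wt
      rw [rpow_neg (by positivity), ← rpow_natCast]; norm_num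
    rw [e, ← div_eq_mul_inv, le_div_iff₀ (by positivity)]
    have h2 := add_pow_le (zero_le_one' ℝ) (norm_nonneg ξ) (d + 1)
    simp only [add_tsub_cancel_right, one_pow] at h2
    calc _ ≤ ‖(𝓕 f) ξ‖ * (2 ^ d * (1 + ‖ξ‖ ^ (d + 1))) := by gcongr
      _ = 2 ^ d * (‖(𝓕 f) ξ‖ + ‖ξ‖ ^ (d + 1) * ‖(𝓕 f) ξ‖) := by ring
      _ ≤ _ := by gcongr; exacts [hC0 ξ, hC1 ξ]
  · rw [hf]
    exact (Complex.conj_eq_iff_re.1 (hreal ξ)).symm

lemma exists_bump {s r : ℝ} (hs : 0 < s) (hsr : s < r) : ∃ (φ g : E d → ℝ) (C : ℝ), TP φ g C ∧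
    (∀ x, 0 ≤ φ x) ∧ (∀ x, φ x ≤ 1) ∧ (∀ x, ‖x‖ ≤ s → φ x = 1) ∧ ∀ x, r ≤ ‖x‖ → φ x = 0 := by
  let b : ContDiffBump (0 : E d) := ⟨s, r, hs, hsr⟩
  obtain ⟨g, C, h⟩ := exists_TP_of_smooth (φ := b) b.contDiff b.hasCompactSupport b.neg
  exact ⟨b, g, C, h, fun x => b.nonneg, fun x => b.le_one,
    fun x hx => b.one_of_mem_closedBall (mem_closedBall_zero_iff.2 hx),
    fun x hx => b.zero_of_le_dist (by rwa [dist_zero_right])⟩

lemma exists_pos_bump {r : ℝ} (hr : 0 < r) : ∃ (φ g : E d → ℝ) (C B c ρ : ℝ), TP φ g C ∧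
    (∀ x, φ x ≤ B) ∧ (∀ x, r ≤ ‖x‖ → φ x = 0) ∧ (∀ ξ, 0 ≤ g ξ) ∧ 0 < c ∧ 0 < ρ ∧
      ∀ ξ, ‖ξ‖ ≤ ρ → c ≤ g ξ := by
  obtain ⟨φ, g, C, h, h0, h1, h2, h3⟩ := exists_bump (d := d) (s := r / 4) (r := r / 2)
    (by positivity) (by linarith)
  have hi : Integrable φ := h.cφ.integrable_of_hasCompactSupport h.supp
  let ψ : E d → ℝ := φ ⋆[ContinuousLinearMap.mul ℝ ℝ] φ
  have hψ : ∀ x, ψ x = ∫ t, φ t * φ (x - t) := fun x => rfl
  have hg0 : 0 < g 0 := by
    have e := h.four 0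
    rw [fourier_eq'] at e
    simp only [inner_zero_right, mul_zero, Complex.ofReal_zero, zero_mul, Complex.exp_zero,
      one_smul, integral_complex_ofReal, Complex.ofReal_inj] at e
    rw [← e]
    refine h.cφ.integral_pos_of_hasCompactSupport_nonneg_nonzero h.supp h0 (x := 0) ?_
    rw [h2 0 (by simp; positivity)]; norm_num
  obtain ⟨ρ, hρ, hρ'⟩ := Metric.continuousAt_iff.1 (h.cg.continuousAt (x := 0)) (g 0 / 2)
    (by positivity)
  refine ⟨ψ, fun ξ => g ξ ^ 2, C * C, ∫ t, φ t, (g 0 / 2) ^ 2, ρ / 2, ⟨?_, ?_, ?_, ?_, ?_⟩,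
    fun x => ?_, fun x hx => ?_, fun ξ => sq_nonneg _, by positivity, by positivity,
    fun ξ hξ => ?_⟩
  · exact h.supp.continuous_convolution_left _ h.cφ hi.locallyIntegrable
  · exact h.supp.convolution _ h.supp
  · exact h.cg.pow 2
  · intro ξ
    rw [abs_pow, sq]
    have a1 := h.dec ξ
    have a2 : |g ξ| ≤ C := a1.trans (mul_le_of_le_one_right h.C_nonneg (wt_le_one ξ))
    calc _ ≤ C * (C * wt ξ) := mul_le_mul a2 a1 (abs_nonneg _) h.C_nonneg
      _ = _ := by ring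
  · intro ξ
    have e : (fun x => (ψ x : ℂ)) =
        (fun x => (φ x : ℂ)) ⋆[ContinuousLinearMap.mul ℂ ℂ] fun x => (φ x : ℂ) := by
      funext x
      rw [hψ, ← integral_complex_ofReal]
      simp [convolution_def]
    rw [e, fourier_mul_convolution_eq h.int_φ h.int_φ, h.four]
    push_cast; ring
  · rw [hψ]
    refine integral_mono_of_nonneg (ae_of_all _ fun t => mul_nonneg (h0 _) (h0 _)) hi
      (ae_of_all _ fun t => mul_le_of_le_one_right (h0 _) (h1 _))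
  · rw [hψ]
    refine integral_eq_zero_of_ae (ae_of_all _ fun t => ?_)
    by_cases ht : r / 2 ≤ ‖t‖
    · simp [h3 t ht]
    · have := norm_le_insert' x t
      have h4 : r / 2 ≤ ‖x - t‖ := by
        have := norm_sub_norm_le x t
        linarith
      simp [h3 _ h4]
  · have := hρ' (x := ξ) (by rw [dist_zero_right]; linarith)
    rw [Real.dist_eq, abs_lt] at this
    exact pow_le_pow_left₀ (by positivity) (by linarith) 2

end Pool.Agent.Lib.MP_3b7d13_co.Var
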