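import Pool.Agent.Lib.MP_3b7d13_co.VarMAT
import Pool.Agent.Lib.MP_3b7d13_co.VarTest
import Pool.Agent.Lib.MP_3b7d13_co.Upper

/-! Anti-concentration of Rademacher sums on thin spherical shells. -/

namespace Pool.Agent.Lib.MP_3b7d13_co.Tr

open Real Finset Var
open scoped RealInnerProductSpace

variable {d : ℕ} {ι : Type*} [Fintype ι] [DecidableEq ι]

lemma sperner_dir (U : Finset ι) (𝒜 : Finset (ι → Bool))
    (h : ∀ δ ∈ 𝒜, ∀ δ' ∈ 𝒜, (∀ i ∉ U, δ i = δ' i) → δ ≤ δ' → δ = δ') :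
    (𝒜.card : ℝ) * √U.card ≤ 2 ^ Fintype.card ι := by
  have h1 : ∀ ω : {i // i ∉ U} → Bool, (𝒜.filter fun δ => (fun i : {i // i ∉ U} => δ i) = ω).card ≤
      U.card.choose (U.card / 2) := fun ω => by
    let f : (ι → Bool) → Finset U := fun δ => univ.filter fun i => δ i = true
    have h2 : ∀ δ ∈ 𝒜.filter fun δ => (fun i : {i // i ∉ U} => δ i) = ω,
        ∀ δ' ∈ 𝒜.filter fun δ => (fun i : {i // i ∉ U} => δ i) = ω, f δ ⊆ f δ' → δ = δ' := by
      intro δ a1 δ' a2 a3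
      have a4 : ∀ i ∉ U, δ i = δ' i := fun i hi =>
        congrFun ((mem_filter.1 a1).2.trans (mem_filter.1 a2).2.symm) ⟨i, hi⟩
      refine h δ (mem_filter.1 a1).1 δ' (mem_filter.1 a2).1 a4 fun i => ?_
      by_cases hi : i ∈ U
      · exact Bool.le_iff_imp.2 fun a5 =>
          (mem_filter.1 (a3 (mem_filter.2 ⟨mem_univ (⟨i, hi⟩ : U), a5⟩))).2
      · exact (a4 i hi).le
    rw [← card_image_of_injOn (f := f) fun δ a1 δ' a2 a3 => h2 δ a1 δ' a2 a3.le]
    refine (IsAntichain.sperner ?_).trans_eq (by rw [Fintype.card_coe])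
    intro s hs t ht hst hle
    obtain ⟨δ, a1, rfl⟩ := mem_image.1 hs
    obtain ⟨δ', a2, rfl⟩ := mem_image.1 ht
    exact hst (congrArg f (h2 δ a1 δ' a2 hle))
  have h2 : 𝒜.card ≤ 2 ^ Fintype.card {i // i ∉ U} * U.card.choose (U.card / 2) := by
    rw [card_eq_sum_card_fiberwise (f := fun δ (i : {i // i ∉ U}) => δ i) (t := univ)
      fun _ _ => mem_coe.2 (mem_univ _)]
    simpa using sum_le_card_nsmul univ _ _ fun ω _ => h1 ω
  have h3 : (U.card.choose (U.card / 2) : ℝ) * √U.card ≤ 2 ^ U.card := by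
    refine abs_le_of_sq_le_sq' ?_ (by positivity) |>.2
    rw [mul_pow, sq_sqrt (Nat.cast_nonneg _), ← pow_mul, mul_comm U.card, pow_mul]
    norm_num
    exact_mod_cast choose_half_sq_le U.card
  have h4 : Fintype.card ι = Fintype.card {i // i ∉ U} + U.card := by
    rw [Fintype.card_subtype_compl, Fintype.card_coe, Nat.sub_add_cancel (card_le_univ U)]
  calc _ ≤ (2 ^ Fintype.card {i // i ∉ U} * U.card.choose (U.card / 2) : ℝ) * √U.card := by
        gcongr; exact_mod_cast h2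
    _ ≤ _ := by rw [h4, pow_add, mul_assoc]; gcongr

/-- Turn the coordinates in `T` to `true`. -/
def up (T : Finset ι) (δ : ι → Bool) : ι → Bool := fun i => if i ∈ T then true else δ i

lemma sum_up (b : ι → E d) {T : Finset ι} {δ : ι → Bool} (h : ∀ i ∈ T, δ i = false) :
    ∑ i, sgn (up T δ i) • b i = ∑ i, sgn (δ i) • b i + (2 : ℝ) • ∑ i ∈ T, b i := by
  rw [← sum_ite_mem_eq T b, smul_sum, ← sum_add_distrib]
  refine sum_congr rfl fun i _ => ?_
  by_cases hi : i ∈ T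
  · simp only [up, hi, if_true, h i hi, sgn_true, sgn_false]; module
  · simp [up, hi]

omit [Fintype ι] in
lemma exists_up {δ δ' : ι → Bool} (hle : δ ≤ δ') (hne : δ ≠ δ') {V : Finset ι}
    (hV : ∀ i ∉ V, δ i = δ' i) :
    ∃ T ⊆ V, T.Nonempty ∧ (∀ i ∈ T, δ i = false) ∧ up T δ = δ' := by
  have h : ∀ i, δ i ≠ δ' i → δ i = false ∧ δ' i = true := fun i hi => by
    have := hle i
    revert hi this
    cases δ i <;> cases δ' i <;> simp
  refine ⟨V.filter fun i => δ i ≠ δ' i, filter_subset _ _, ?_,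
    fun i hi => (h i (mem_filter.1 hi).2).1, funext fun i => ?_⟩
  · obtain ⟨i, hi⟩ := Function.ne_iff.1 hne
    exact ⟨i, mem_filter.2 ⟨by_contra fun a => hi (hV i a), hi⟩⟩
  · unfold up
    split_ifs with hi
    · exact (h i (mem_filter.1 hi).2).2.symm
    · by_contra a
      exact hi (mem_filter.2 ⟨by_contra fun b => a (hV i b), a⟩)

lemma ac0 (b : ι → E d) {U W : Finset ι} (hU : U.Nonempty) (hW : W.Nonempty) {θ β : ℝ}
    (hθ : 0 ≤ θ) (h : ∀ i ∈ U, ∀ j ∈ W, θ ≤ ⟪b i, b j⟫) (hβ : β ≤ 2 * θ) (z : E d) (t : ℝ) :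
    ((univ.filter fun δ : ι → Bool => |‖z + ∑ i, sgn (δ i) • b i‖ ^ 2 - t| < β).card : ℝ) ≤
      2 ^ Fintype.card ι * (1 / √W.card + 2 ^ W.card / √U.card) := by
  classical
  set 𝒜 := univ.filter fun δ : ι → Bool => |‖z + ∑ i, sgn (δ i) • b i‖ ^ 2 - t| < β with h𝒜
  let A1 := 𝒜.filter fun δ => ∀ δ' ∈ 𝒜, (∀ i ∉ W, δ i = δ' i) → δ ≤ δ' → δ = δ'
  let A2 := fun T : Finset ι =>
    𝒜.filter fun δ => T.Nonempty ∧ (∀ i ∈ T, δ i = false) ∧ up T δ ∈ 𝒜
  have h1 : 𝒜 ⊆ A1 ∪ W.powerset.biUnion A2 := fun δ hδ => by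
    rw [mem_union, or_iff_not_imp_left, mem_filter, not_and]
    intro a1
    have a2 := a1 hδ
    push Not at a2
    obtain ⟨δ', a3, a4, a5, a6⟩ := a2
    obtain ⟨T, b1, b2, b3, rfl⟩ := exists_up a5 a6 a4
    exact mem_biUnion.2 ⟨T, mem_powerset.2 b1, mem_filter.2 ⟨hδ, b2, b3, a3⟩⟩
  have h2 := sperner_dir W A1 fun δ a1 δ' a2 => (mem_filter.1 a1).2 δ' (mem_filter.1 a2).1
  have h3 : ∀ T ∈ W.powerset, ((A2 T).card : ℝ) ≤ 2 ^ Fintype.card ι / √U.card := fun T hT => by
    rw [le_div_iff₀ (sqrt_pos.2 (Nat.cast_pos.2 hU.card_pos))]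
    refine sperner_dir U _ fun δ a1 δ' a2 a3 a4 => by_contra fun a5 => ?_
    obtain ⟨T', b1, b2, b3, rfl⟩ := exists_up a4 a5 a3
    obtain ⟨c1, c2, c3, c4⟩ := mem_filter.1 a1
    obtain ⟨d1, -, d3, d4⟩ := mem_filter.1 a2
    simp only [h𝒜, mem_filter, mem_univ, true_and, sum_up b c3, sum_up b d3, sum_up b b3,
      ← add_assoc, abs_lt] at c1 c4 d1 d4
    have e1 : θ ≤ ⟪∑ i ∈ T', b i, ∑ i ∈ T, b i⟫ := by
      obtain ⟨i, hi⟩ := b2
      obtain ⟨j, hj⟩ := c2
      have e0 : ∀ i ∈ T', ∀ j ∈ T, θ ≤ ⟪b i, b j⟫ := fun i hi j hj =>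
        h i (b1 hi) j (mem_powerset.1 hT hj)
      simp only [sum_inner, inner_sum]
      exact (e0 i hi j hj).trans ((single_le_sum (f := fun i => ⟪b i, b j⟫)
        (fun i hi => hθ.trans (e0 i hi j hj)) hi).trans (single_le_sum
          (f := fun j => ∑ i ∈ T', ⟪b i, b j⟫)
          (fun j hj => sum_nonneg fun i hi => hθ.trans (e0 i hi j hj)) hj))
    generalize z + ∑ i, sgn (δ i) • b i = s at *
    generalize ∑ i ∈ T', b i = p at *
    generalize ∑ i ∈ T, b i = q at *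
    rw [norm_add_sq_real _ ((2 : ℝ) • q)] at c4 d4
    rw [inner_add_left, real_inner_smul_left p, real_inner_smul_right p] at d4
    linarith
  have h4 : (𝒜.card : ℝ) ≤ A1.card + ∑ T ∈ W.powerset, ((A2 T).card : ℝ) := by
    exact_mod_cast (card_le_card h1).trans ((card_union_le _ _).trans
      (Nat.add_le_add_left card_biUnion_le _))
  have h5 := sum_le_card_nsmul _ _ _ h3
  rw [card_powerset, nsmul_eq_mul] at h5
  rw [← le_div_iff₀ (sqrt_pos.2 (Nat.cast_pos.2 hW.card_pos))] at h2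
  refine h4.trans ((add_le_add h2 h5).trans_eq ?_)
  push_cast
  ring

omit [Fintype ι] in
lemma greedy {x : ι → ℝ} (hx : ∀ i, 0 ≤ x i) {κ : ℝ} (hκ : 0 < κ) (m : ℕ) (s : Finset ι)
    (h : ∀ J : Finset ι, J.card ≤ m → 2 * κ * m ≤ ∑ i ∈ s \ J, x i) :
    ∃ c : ι → ℕ, ∀ l < m, κ ≤ ∑ i ∈ s with c i = l, x i := by
  induction m generalizing s with
  | zero => exact ⟨0, fun l hl => absurd hl (Nat.not_lt_zero l)⟩
  | succ m ih =>
    obtain ⟨B, b1, b2, b3⟩ : ∃ B ⊆ s, κ ≤ ∑ i ∈ B, x i ∧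
        ∀ J : Finset ι, J.card ≤ m → 2 * κ * m ≤ ∑ i ∈ (s \ B) \ J, x i := by
      by_cases h1 : ∃ i ∈ s, κ ≤ x i
      · obtain ⟨i, a1, a2⟩ := h1
        refine ⟨{i}, singleton_subset_iff.2 a1, by simpa using a2, fun J hJ => ?_⟩
        have := h ({i} ∪ J) ((card_union_le _ _).trans (by rw [card_singleton]; omega))
        rw [sdiff_sdiff_left, sup_eq_union]
        push_cast at this
        linarith
      push Not at h1
      have a0 := h ∅ (by simp)
      rw [sdiff_empty] at a0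
      obtain ⟨B, a1, a2⟩ := exists_min_image (s.powerset.filter fun B => κ ≤ ∑ i ∈ B, x i) card
        ⟨s, mem_filter.2 ⟨mem_powerset_self s, by
          push_cast at a0; nlinarith [Nat.cast_nonneg (α := ℝ) m]⟩⟩
      obtain ⟨a3, a4⟩ := mem_filter.1 a1
      rw [mem_powerset] at a3
      refine ⟨B, a3, a4, fun J hJ => ?_⟩
      obtain ⟨i, hi⟩ : B.Nonempty := by
        rw [nonempty_iff_ne_empty]; rintro rfl; simp at a4; linarith
      have a5 : ∑ i ∈ B.erase i, x i < κ := by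
        by_contra a6
        have := a2 _ (mem_filter.2 ⟨mem_powerset.2 ((erase_subset i B).trans a3), not_lt.1 a6⟩)
        exact (card_erase_lt_of_mem hi).not_ge this
      have a6 := add_sum_erase B x hi
      have a7 := h J (by omega)
      have a8 : ∑ i ∈ s \ J, x i ≤ ∑ i ∈ (s \ B) \ J ∪ B, x i :=
        sum_le_sum_of_subset_of_nonneg (fun j hj => by
          simp only [mem_union, mem_sdiff] at hj ⊢; tauto) fun _ _ _ => hx _
      rw [sum_union (disjoint_left.2 fun j hj => (mem_sdiff.1 (mem_sdiff.1 hj).1).2)] at a8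
      push_cast at a7
      linarith [h1 i (a3 hi)]
    obtain ⟨c, hc⟩ := ih _ b3
    refine ⟨fun i => if i ∈ B then m else c i, fun l hl => ?_⟩
    rcases (Nat.lt_succ_iff.1 hl).eq_or_lt with rfl | hl
    · exact b2.trans (sum_le_sum_of_subset_of_nonneg
        (fun i hi => mem_filter.2 ⟨b1 hi, if_pos hi⟩) fun _ _ _ => hx _)
    · refine (hc l hl).trans (sum_le_sum_of_subset_of_nonneg (fun i hi => ?_) fun _ _ _ => hx _)
      obtain ⟨a1, a2⟩ := mem_filter.1 hi
      exact mem_filter.2 ⟨(mem_sdiff.1 a1).1, (if_neg (mem_sdiff.1 a1).2).trans a2⟩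

lemma cos_var {κ : Type*} [Fintype κ] [DecidableEq κ] (a : κ → ι → ℝ)
    (h : ∀ l k, l ≠ k → ∀ i, a l i = 0 ∨ a k i = 0) :
    ∑ ε : ι → Bool, (∑ l, (cos (∑ i, sgn (ε i) * a l i) - ∏ i, cos (a l i))) ^ 2 ≤
      2 ^ Fintype.card ι * (4 * Fintype.card κ) := by
  have h0 : ∀ x : ι → ℝ, ∑ ε : ι → Bool, cos (∑ i, sgn (ε i) * x i) =
      2 ^ Fintype.card ι * ∏ i, cos (x i) := fun x => by simpa using sum_cos_sgn 0 x
  simp only [sq, sum_mul_sum]
  rw [sum_comm, mul_comm 4, mul_left_comm, ← card_univ (α := κ), ← nsmul_eq_mul]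
  refine sum_le_card_nsmul _ _ _ fun l _ => ?_
  rw [sum_comm, sum_eq_single l (fun k _ hk => ?_) (by simp)]
  · have : (2 : ℝ) ^ Fintype.card ι = (univ : Finset (ι → Bool)).card := by simp
    rw [this, ← nsmul_eq_mul]
    refine sum_le_card_nsmul _ _ _ fun ε _ => ?_
    have a1 := abs_le.1 (abs_prod_le_one univ (fun i => cos (a l i)) fun _ => abs_cos_le_one _)
    have a2 := abs_le.1 (abs_cos_le_one (∑ i, sgn (ε i) * a l i))
    nlinarith
  · have e : ∀ ε : ι → Bool, (cos (∑ i, sgn (ε i) * a l i) - ∏ i, cos (a l i)) *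
        (cos (∑ i, sgn (ε i) * a k i) - ∏ i, cos (a k i)) =
        (cos (∑ i, sgn (ε i) * (a l i + a k i)) + cos (∑ i, sgn (ε i) * (a l i - a k i))) / 2 -
          (∏ i, cos (a k i)) * cos (∑ i, sgn (ε i) * a l i) -
          (∏ i, cos (a l i)) * cos (∑ i, sgn (ε i) * a k i) +
          (∏ i, cos (a l i)) * ∏ i, cos (a k i) := fun ε => by
      simp only [mul_add, mul_sub, sum_add_distrib, sum_sub_distrib, cos_add, cos_sub]
      ring
    have e1 : ∀ i, cos (a l i + a k i) = cos (a l i) * cos (a k i) := fun i => by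
      rcases h k l hk i with h | h <;> simp [h]
    have e2 : ∀ i, cos (a l i - a k i) = cos (a l i) * cos (a k i) := fun i => by
      rcases h k l hk i with h | h <;> simp [h]
    simp only [e, sum_add_distrib, sum_sub_distrib, ← sum_div, ← mul_sum, h0, e1, e2,
      prod_mul_distrib]
    simp
    ring

lemma resample {κ : Type*} [Fintype κ] [DecidableEq κ] (c : ι → κ) (e : ι → E d) (f : E d → ℝ) :
    2 ^ Fintype.card κ * ∑ ε : ι → Bool, f (∑ i, sgn (ε i) • e i) =
      ∑ ε : ι → Bool, ∑ δ : κ → Bool, f (∑ l, sgn (δ l) • ∑ i with c i = l, sgn (ε i) • e i) := by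
  have : (2 : ℝ) ^ Fintype.card κ = (univ : Finset (κ → Bool)).card := by simp
  rw [this, ← nsmul_eq_mul, ← sum_const, sum_comm (t := (univ : Finset (κ → Bool)))]
  refine sum_congr rfl fun δ _ => ?_
  have h : Function.Involutive fun (ε : ι → Bool) i => if δ (c i) then ε i else !ε i :=
    fun ε => funext fun i => by by_cases h : δ (c i) <;> simp [h]
  rw [← Equiv.sum_comp (h.toPerm _)]
  refine sum_congr rfl fun ε _ => congrArg f ?_
  rw [← sum_fiberwise univ c]
  refine sum_congr rfl fun l _ => ?_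
  rw [smul_sum]
  refine sum_congr rfl fun i hi => ?_
  rw [Function.Involutive.coe_toPerm, (mem_filter.1 hi).2, smul_smul]
  cases δ l <;> simp [sgn_not, sgn_true, sgn_false]

lemma cos_le_exp {x : ℝ} (hx : |x| ≤ 1) : 0 ≤ cos x ∧ cos x ≤ exp (-(x ^ 2 / 5)) := by
  have h := pi_gt_three
  refine ⟨cos_nonneg_of_mem_Icc (abs_le.1 (by linarith)),
    (cos_le_one_sub_mul_cos_sq (by linarith)).trans (le_trans ?_ (add_one_le_exp _))⟩
  have : 1 / 5 ≤ 2 / π ^ 2 := by
    rw [div_le_div_iff₀ (by norm_num) (by positivity)]; nlinarith [pi_lt_d2]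
  nlinarith [sq_nonneg x]

theorem sphere_ac (hd : 0 < d) {η : ℝ} (hη : 0 < η) : ∃ m : ℕ, ∀ τ > 0, ∃ β > 0,
    ∀ (ι : Type) [Fintype ι] [DecidableEq ι] (e : ι → E d),
      (∀ J : Finset ι, J.card ≤ m → τ ≤ ∑ i ∈ Jᶜ, ‖e i‖ ^ 2) → ∀ (z : E d) (t : ℝ),
        Ex e (fun x => if |‖z + x‖ ^ 2 - t| < β then 1 else 0) ≤ η := by
  have hd' : (0 : ℝ) < d := Nat.cast_pos.2 hd
  set γ := 1 - exp (-(1 / d / 5 : ℝ)) with hγ
  have hγ0 : 0 < γ := sub_pos.2 (exp_lt_one_iff.2 (neg_lt_zero.2 (by positivity)))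
  have hγ1 : γ ≤ 1 := sub_le_self _ (exp_pos _).le
  obtain ⟨w, hw⟩ := exists_nat_gt ((4 / η) ^ 2)
  obtain ⟨g, hg⟩ := exists_nat_gt (w + (2 ^ w * 4 / η) ^ 2)
  obtain ⟨m, hm⟩ := exists_nat_gt (12 * (2 ^ d * d * g) / γ + 128 / (η * γ ^ 2))
  have hw0 : (0 : ℝ) < w := lt_of_le_of_lt (by positivity) hw
  have hwg : w ≤ g := by exact_mod_cast (le_add_of_nonneg_right (sq_nonneg _)).trans hg.le
  have hm0 : (0 : ℝ) < m := lt_of_le_of_lt (by positivity) hm
  refine ⟨m, fun τ hτ => ⟨2 * (τ / (2 * m) * γ), by positivity, fun ι _ _ e he z t => ?_⟩⟩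
  set κ := τ / (2 * m) with hκ
  have hκ0 : 0 < κ := by positivity
  obtain ⟨c0, hc0⟩ := greedy (x := fun i => ‖e i‖ ^ 2) (fun _ => sq_nonneg _) hκ0 m univ
    fun J hJ => by
      rw [← compl_eq_univ_sdiff]
      exact le_trans (le_of_eq (by rw [hκ]; field_simp)) (he J hJ)
  let c : ι → Fin m := fun i => ⟨c0 i % m, Nat.mod_lt _ (Nat.cast_pos.1 hm0)⟩
  let v : Fin m → ℝ := fun l => ∑ i with c i = l, ‖e i‖ ^ 2
  have hv : ∀ l, κ ≤ v l := fun l => (hc0 l l.2).trans (sum_le_sum_of_subset_of_nonneg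
    (fun i hi => mem_filter.2 ⟨mem_univ _, Fin.ext (by
      simp only [c, (mem_filter.1 hi).2, Nat.mod_eq_of_lt l.2])⟩) fun _ _ _ => sq_nonneg _)
  have hv0 : ∀ l, 0 < √(v l) := fun l => sqrt_pos.2 (hκ0.trans_le (hv l))
  have hv2 : ∀ l, √(v l) ^ 2 = v l := fun l => sq_sqrt (hκ0.le.trans (hv l))
  have hs : ∀ l, ∃ s : Fin d, v l / d ≤ ∑ i with c i = l, e i s ^ 2 := fun l => by
    obtain ⟨s, -, hs⟩ := exists_le_of_sum_le (s := (univ : Finset (Fin d))) ⟨⟨0, hd⟩, mem_univ _⟩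
      (f := fun _ => v l / d) (g := fun s => ∑ i with c i = l, e i s ^ 2) (le_of_eq (by
        rw [sum_comm]
        simp only [← EuclideanSpace.real_norm_sq_eq, sum_const, card_univ, Fintype.card_fin,
          nsmul_eq_mul]
        field_simp
        rfl))
    exact ⟨s, hs⟩
  choose s hs using hs
  let a : Fin m → ι → ℝ := fun l i => if c i = l then e i (s l) / √(v l) else 0
  have ha : ∀ l, ∏ i, cos (a l i) ≤ 1 - γ := fun l => by
    have a1 : ∀ i, |a l i| ≤ 1 := fun i => by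
      simp only [a]
      split_ifs with hi
      · rw [abs_div, abs_of_pos (hv0 l), div_le_one (hv0 l)]
        exact (PiLp.norm_apply_le (e i) (s l)).trans (le_sqrt_of_sq_le (single_le_sum
          (f := fun i => ‖e i‖ ^ 2) (fun _ _ => sq_nonneg _) (mem_filter.2 ⟨mem_univ _, hi⟩)))
      · simp
    refine (prod_le_prod (fun i _ => (cos_le_exp (a1 i)).1) fun i _ => (cos_le_exp (a1 i)).2).trans ?_
    rw [← exp_sum, hγ, sub_sub_cancel, exp_le_exp, sum_neg_distrib, neg_le_neg_iff, ← sum_div]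
    gcongr
    simp only [a, ite_pow, div_pow, hv2, zero_pow two_ne_zero, ← sum_filter, ← sum_div]
    rw [le_div_iff₀ (hκ0.trans_le (hv l))]
    exact le_trans (le_of_eq (by ring)) (hs l)
  have hvar := cos_var a fun l k hlk i => by
    by_cases h : c i = l
    · exact Or.inr (if_neg fun h' => hlk (h.symm.trans h'))
    · exact Or.inl (if_neg h)
  have key : ∀ ε : ι → Bool, ∑ δ : Fin m → Bool, (if |‖z + ∑ l, sgn (δ l) •
      ∑ i with c i = l, sgn (ε i) • e i‖ ^ 2 - t| < 2 * (κ * γ) then (1 : ℝ) else 0) ≤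
      2 ^ m * (η / 2 + (∑ l, (cos (∑ i, sgn (ε i) * a l i) - ∏ i, cos (a l i))) ^ 2 /
        (m * γ / 4) ^ 2) := fun ε => by
    set b : Fin m → E d := fun l => ∑ i with c i = l, sgn (ε i) • e i with hb
    have hX : ∀ l, ∑ i, sgn (ε i) * a l i = b l (s l) / √(v l) := fun l => by
      simp [hb, a, ← sum_filter, sum_div, mul_div_assoc]
    simp only [hX, sum_boole]
    let G := univ.filter fun l => κ * γ ≤ b l (s l) ^ 2
    by_cases hG : 2 ^ d * d * g ≤ G.card
    · obtain ⟨y, -, hy⟩ := exists_le_card_fiber_of_mul_le_card_of_maps_to (s := G)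
        (t := (univ : Finset ((Fin d → Bool) × Fin d)))
        (f := fun l => (fun s => decide (0 ≤ b l s), s l)) (fun _ _ => mem_univ _)
        ⟨(fun _ => true, ⟨0, hd⟩), mem_univ _⟩ (n := g) (by simpa using hG)
      set U := G.filter fun l => (fun s => decide (0 ≤ b l s), s l) = y
      obtain ⟨W, a1, a2⟩ := exists_subset_card_eq (hwg.trans hy)
      have a3 : W.Nonempty := card_pos.1 (a2 ▸ Nat.cast_pos.1 hw0)
      refine (ac0 b (a3.mono a1) a3 (θ := κ * γ) (by positivity) (fun l hl k hk => ?_) le_rfl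
        z t).trans ?_
      · obtain ⟨b1, b2⟩ := mem_filter.1 hl
        obtain ⟨b3, b4⟩ := mem_filter.1 (a1 hk)
        obtain ⟨b5, b6⟩ := Prod.ext_iff.1 (b2.trans b4.symm)
        have b7 : ∀ s, 0 ≤ b l s * b k s := fun s => by
          have := decide_eq_decide.1 (congrFun b5 s)
          by_cases h : 0 ≤ b l s
          · exact mul_nonneg h (this.1 h)
          · exact mul_nonneg_of_nonpos_of_nonpos (not_le.1 h).le (not_le.1 (mt this.2 h)).le
        rw [inner_eq]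
        refine le_trans ?_ (single_le_sum (fun s _ => b7 s) (mem_univ (s l)))
        have b8 := (mem_filter.1 b3).2
        rw [← show s l = s k from b6] at b8
        refine abs_le_of_sq_le_sq' ?_ (b7 _) |>.2
        rw [mul_pow (b l _), sq]
        exact mul_le_mul (mem_filter.1 b1).2 b8 (by positivity) (sq_nonneg _)
      · rw [Fintype.card_fin, a2]
        refine mul_le_mul_of_nonneg_left (le_add_of_le_of_nonneg ?_ (by positivity)) (by positivity)
        have b1 : 4 / η ≤ √w := le_sqrt_of_sq_le hw.le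
        have b2 : 2 ^ w * 4 / η ≤ √U.card := le_sqrt_of_sq_le
          (((le_add_of_nonneg_left hw0.le).trans hg.le).trans (Nat.cast_le.2 hy))
        have b3 : 1 / √w ≤ η / 4 := by
          rw [div_le_iff₀ (sqrt_pos.2 hw0)]; rw [div_le_iff₀ hη] at b1; linarith
        have b4 : 2 ^ w / √U.card ≤ η / 4 := by
          rw [div_le_iff₀ (lt_of_lt_of_le (by positivity) b2)]; rw [div_le_iff₀ hη] at b2; linarith
        linarith
    · have a1 : m * γ / 4 ≤ ∑ l, (cos (b l (s l) / √(v l)) - ∏ i, cos (a l i)) := by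
        have a2 : ∀ l, γ / 2 - (if κ * γ ≤ b l (s l) ^ 2 then 3 else 0) ≤
            cos (b l (s l) / √(v l)) - ∏ i, cos (a l i) := fun l => by
          split_ifs with h
          · linarith [ha l, neg_one_le_cos (b l (s l) / √(v l))]
          · have : (b l (s l) / √(v l)) ^ 2 ≤ γ := by
              rw [div_pow, hv2, div_le_iff₀ (hκ0.trans_le (hv l))]
              nlinarith [hv l]
            linarith [ha l, one_sub_sq_div_two_le_cos (x := b l (s l) / √(v l))]
        refine le_trans ?_ (sum_le_sum fun l _ => a2 l)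
        rw [sum_sub_distrib, ← sum_filter, sum_const, sum_const, card_univ, Fintype.card_fin,
          nsmul_eq_mul, nsmul_eq_mul]
        have a3 : (G.card : ℝ) ≤ 2 ^ d * d * g := by exact_mod_cast (not_le.1 hG).le
        have a4 := (div_le_iff₀ hγ0).1 ((le_add_of_nonneg_right (by positivity)).trans hm.le)
        linarith
      refine le_trans ?_ (mul_le_mul_of_nonneg_left (le_add_of_nonneg_of_le (by positivity)
        ((one_le_div (by positivity)).2 (pow_le_pow_left₀ (by positivity) a1 2))) (by positivity))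
      simpa using Nat.cast_le (α := ℝ) |>.2 (card_le_univ (α := Fin m → Bool) _)
  rw [Ex, div_le_iff₀ (by positivity)]
  refine le_of_mul_le_mul_left ?_ (show (0 : ℝ) < 2 ^ Fintype.card (Fin m) by positivity)
  rw [resample c e fun x => if |‖z + x‖ ^ 2 - t| < 2 * (κ * γ) then 1 else 0, Fintype.card_fin]
  refine (sum_le_sum fun ε _ => key ε).trans ?_
  rw [← mul_sum, sum_add_distrib, sum_const, ← sum_div, card_univ, nsmul_eq_mul]
  gcongr
  have a1 := (div_le_iff₀ (by positivity)).1 ((le_add_of_nonneg_left (by positivity)).trans hm.le)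
  have a2 : 2 ^ Fintype.card ι * (4 * (m : ℝ)) / (m * γ / 4) ^ 2 ≤ η / 2 * 2 ^ Fintype.card ι := by
    rw [div_le_iff₀ (by positivity)]
    nlinarith [mul_le_mul_of_nonneg_left a1 (show 0 ≤ 2 ^ Fintype.card ι * (m : ℝ) by positivity)]
  rw [Fintype.card_fin] at hvar
  have a3 := div_le_div_of_nonneg_right hvar (show 0 ≤ (m * γ / 4) ^ 2 by positivity)
  simp only [Fintype.card_pi, Fintype.card_bool, prod_const, card_univ, Nat.cast_pow,
    Nat.cast_ofNat]
  linarith

end Pool.Agent.Lib.MP_3b7d13_co.Tr
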