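import Mathlib

/-! Infinitesimal deformation of the real numbers moving a transcendental number upwards. -/

namespace Pool.Agent.Lib.MP_3b7d13_co.Tr

open Filter Topology Polynomial

/-- Germs of real sequences along a free ultrafilter. -/
abbrev Gm := Germ (hyperfilter ℕ : Filter ℕ) ℝ

/-- The germ `X` converges to `a`. -/
def Close (X : Gm) (a : ℝ) : Prop := X.Tendsto (𝓝 a)

lemma Close.coe {f : ℕ → ℝ} {a : ℝ} : Close (f : Gm) a ↔ Tendsto f (hyperfilter ℕ) (𝓝 a) :=
  Germ.coe_tendsto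

lemma Close.add {X Y : Gm} {a b : ℝ} (h : Close X a) (h' : Close Y b) : Close (X + Y) (a + b) := by
  induction X using Germ.inductionOn
  induction Y using Germ.inductionOn
  exact Close.coe.2 ((Close.coe.1 h).add (Close.coe.1 h'))

lemma Close.mul {X Y : Gm} {a b : ℝ} (h : Close X a) (h' : Close Y b) : Close (X * Y) (a * b) := by
  induction X using Germ.inductionOn
  induction Y using Germ.inductionOn
  exact Close.coe.2 ((Close.coe.1 h).mul (Close.coe.1 h'))

lemma Close.const (a : ℝ) : Close ((fun _ => a : ℕ → ℝ) : Gm) a := Close.coe.2 tendsto_const_nhds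

lemma Close.pow {X : Gm} {a : ℝ} (h : Close X a) (k : ℕ) : Close (X ^ k) (a ^ k) := by
  induction k with
  | zero => rw [pow_zero, pow_zero]; exact Close.const 1
  | succ k ih => simpa only [pow_succ] using ih.mul h

lemma Close.eq_zero {a : ℝ} (h : Close 0 a) : a = 0 :=
  tendsto_nhds_unique (Close.coe.1 (show Close ((fun _ => 0 : ℕ → ℝ) : Gm) a from h))
    tendsto_const_nhds

/-- Graphs of ring homomorphisms that are infinitely close to the inclusion. -/
def Good (S : Subring (ℝ × Gm)) : Prop := ∀ x ∈ S, Close x.2 x.1 ∧ (x.1 = 0 → x.2 = 0)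

lemma close_eval {A : Type*} [CommRing A] {p : A →+* ℝ} {p' : A →+* Gm}
    (h : ∀ a, Close (p' a) (p a)) {y : ℝ} {Y : Gm} (hy : Close Y y) (q : A[X]) :
    Close (q.eval₂ p' Y) (q.eval₂ p y) := by
  induction q using Polynomial.induction_on' with
  | add u v hu hv => simpa only [eval₂_add] using hu.add hv
  | monomial k a => simpa only [eval₂_monomial] using (h a).mul (hy.pow k)

lemma good_range {A : Type*} [CommRing A] {p : A →+* ℝ} {p' : A →+* Gm}
    (h : ∀ a, Close (p' a) (p a)) {y : ℝ} {Y : Gm} (hy : Close Y y)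
    (hf : ∀ q : A[X], q.eval₂ p y = 0 → q.eval₂ p' Y = 0) :
    Good ((eval₂RingHom p y).prod (eval₂RingHom p' Y)).range := by
  rintro _ ⟨q, rfl⟩
  exact ⟨close_eval h hy q, hf q⟩

lemma exists_root {A : Type*} [CommRing A] {p : A →+* ℝ} {p' : A →+* Gm}
    (h : ∀ a, Close (p' a) (p a)) {y : ℝ} {m : A[X]} (h0 : m.eval₂ p y = 0)
    (h1 : (derivative m).eval₂ p y ≠ 0) : ∃ Y, Close Y y ∧ m.eval₂ p' Y = 0 := by
  obtain ⟨Q, hQ⟩ : X - C y ∣ m.map p := dvd_iff_isRoot.2 (by rwa [IsRoot, eval_map])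
  have hQy : Q.eval y ≠ 0 := by
    rw [← eval_map, ← derivative_map, hQ] at h1
    simpa using h1
  have hP : ∀ t, m.eval₂ p t = (t - y) * Q.eval t := fun t => by
    rw [← eval_map, hQ]; simp
  obtain ⟨δ, hδ, hδ'⟩ : ∃ δ > 0, ∀ t ∈ Set.Icc (y - δ) (y + δ), 0 < Q.eval y * Q.eval t := by
    have : ∀ᶠ t in 𝓝 y, 0 < Q.eval y * Q.eval t :=
      (Q.continuous.const_mul _).continuousAt.eventually (lt_mem_nhds (mul_self_pos.2 hQy))
    obtain ⟨δ, hδ, h2⟩ := Metric.eventually_nhds_iff.1 this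
    refine ⟨δ / 2, half_pos hδ, fun t ht => h2 ?_⟩
    rw [Real.dist_eq, abs_lt]
    constructor <;> linarith [ht.1, ht.2]
  choose c hc using fun k => show ∃ f : ℕ → ℝ, (f : Gm) = p' (m.coeff k) from Quot.exists_rep _
  have hc' : ∀ k, Tendsto (c k) (hyperfilter ℕ) (𝓝 (p (m.coeff k))) := fun k =>
    Close.coe.1 (hc k ▸ h _)
  let F : ℕ → ℝ → ℝ := fun n t => ∑ k ∈ Finset.range (m.natDegree + 1), c k n * t ^ k
  have hF : ∀ {u : ℕ → ℝ} {t : ℝ}, Tendsto u (hyperfilter ℕ) (𝓝 t) →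
      Tendsto (fun n => F n (u n)) (hyperfilter ℕ) (𝓝 ((t - y) * Q.eval t)) := fun {u t} hu => by
    rw [← hP, eval₂_eq_sum_range]
    exact tendsto_finsetSum _ fun k _ => (hc' k).mul (hu.pow k)
  have hl : ∀ᶠ n in (hyperfilter ℕ : Filter ℕ), Q.eval y * F n (y - δ) < 0 :=
    ((hF tendsto_const_nhds).const_mul _).eventually (gt_mem_nhds (by
      nlinarith [hδ' (y - δ) ⟨le_rfl, by linarith⟩]))
  have hr : ∀ᶠ n in (hyperfilter ℕ : Filter ℕ), 0 < Q.eval y * F n (y + δ) :=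
    ((hF tendsto_const_nhds).const_mul _).eventually (lt_mem_nhds (by
      nlinarith [hδ' (y + δ) ⟨by linarith, le_rfl⟩]))
  obtain ⟨u, hu⟩ := Eventually.choice (show ∀ᶠ n in (hyperfilter ℕ : Filter ℕ),
      ∃ t, t ∈ Set.Icc (y - δ) (y + δ) ∧ F n t = 0 by
    filter_upwards [hl, hr] with n a1 a2
    obtain ⟨t, b1, b2⟩ := intermediate_value_Icc (f := fun t => Q.eval y * F n t)
      (by linarith : y - δ ≤ y + δ) (by fun_prop) ⟨a1.le, a2.le⟩
    exact ⟨t, b1, (mul_eq_zero.1 b2).resolve_left hQy⟩)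
  obtain ⟨t, ht, hut⟩ := isCompact_Icc.ultrafilter_le_nhds ((hyperfilter ℕ).map u)
    (le_principal_iff.2 (hu.mono fun n hn => hn.1))
  have h2 : (t - y) * Q.eval t = 0 :=
    tendsto_nhds_unique (hF hut) (tendsto_const_nhds.congr' (hu.mono fun n hn => hn.2.symm))
  have h3 : t = y := sub_eq_zero.1 ((mul_eq_zero.1 h2).resolve_right fun h4 => by
    simpa [h4] using hδ' t ht)
  refine ⟨(u : Gm), Close.coe.2 (h3 ▸ hut), ?_⟩
  rw [eval₂_eq_sum_range]
  have e : ∑ k ∈ Finset.range (m.natDegree + 1), p' (m.coeff k) * (u : Gm) ^ k =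
      ((fun n => F n (u n) : ℕ → ℝ) : Gm) := by
    simp only [← hc]
    have := map_sum (Germ.coeRingHom (hyperfilter ℕ : Filter ℕ)) (fun k => c k * u ^ k)
      (Finset.range (m.natDegree + 1))
    simp only [map_mul, map_pow, Germ.coe_coeRingHom] at this
    rw [← this]
    congr 1
    funext n
    simp [F]
  rw [e]
  exact Germ.coe_eq.2 (hu.mono fun n hn => hn.2)

lemma extend {S : Subring (ℝ × Gm)} (hS : Good S) (y : ℝ) :
    ∃ S', Good S' ∧ S ≤ S' ∧ ∃ Y, (y, Y) ∈ S' := by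
  let p : S →+* ℝ := (RingHom.fst _ _).comp S.subtype
  let p' : S →+* Gm := (RingHom.snd _ _).comp S.subtype
  have h : ∀ a, Close (p' a) (p a) := fun a => (hS _ a.2).1
  have hi : Function.Injective p := (injective_iff_map_eq_zero p).2 fun a ha =>
    Subtype.ext (Prod.ext ha ((hS _ a.2).2 ha))
  obtain ⟨Y, hY, hf⟩ : ∃ Y, Close Y y ∧ ∀ q : S[X], q.eval₂ p y = 0 → q.eval₂ p' Y = 0 := by
    by_cases h0 : ∃ q : S[X], q ≠ 0 ∧ q.eval₂ p y = 0
    · obtain ⟨m, ⟨m0, m1⟩, m2⟩ := (measure natDegree).wf.has_min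
        {q : S[X] | q ≠ 0 ∧ q.eval₂ p y = 0} h0
      have m3 : ∀ q : S[X], q.natDegree < m.natDegree → q.eval₂ p y = 0 → q = 0 :=
        fun q a1 a2 => by_contra fun a3 => m2 q ⟨a3, a2⟩ a1
      have m4 : m.natDegree ≠ 0 := fun a1 => by
        rw [eq_C_of_natDegree_eq_zero a1, eval₂_C] at m1
        rw [eq_C_of_natDegree_eq_zero a1, hi (m1.trans (map_zero p).symm), map_zero] at m0
        exact m0 rfl
      obtain ⟨Y, a1, a2⟩ := exists_root h m1 fun a3 => m4 (by
        have := congrArg (Polynomial.map p) (m3 _ (natDegree_derivative_lt m4) a3)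
        rw [← derivative_map, Polynomial.map_zero] at this
        rw [← natDegree_map_eq_of_injective hi]
        exact derivative_eq_zero.1 this)
      have m5 : p' m.leadingCoeff ≠ 0 := fun a3 => m0 (leadingCoeff_eq_zero.1
        (hi ((Close.eq_zero (a3 ▸ h _)).trans (map_zero p).symm)))
      refine ⟨Y, a1, fun q => ?_⟩
      induction hn : q.natDegree using Nat.strong_induction_on generalizing q with
      | _ n ih =>
        intro a3
        rcases lt_or_ge q.natDegree m.natDegree with a4 | a4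
        · rw [m3 q a4 a3, eval₂_zero]
        · have := ih _ (hn ▸ natDegree_cancelLeads_lt_of_natDegree_le_natDegree a4
            ((Nat.pos_of_ne_zero m4).trans_le a4)) _ rfl (by simp [cancelLeads, a3, m1])
          simpa [cancelLeads, a2, m5, Nat.sub_eq_zero_of_le a4] using this
    · exact ⟨_, Close.const y, fun q hq => by
        rw [show q = 0 from by_contra fun a => h0 ⟨q, a, hq⟩, eval₂_zero]⟩
  refine ⟨_, good_range h hY hf, fun x hx => ⟨C ⟨x, hx⟩, ?_⟩, Y, X, ?_⟩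
  · simp [p, p']
  · simp

theorem deform_hom {τ : ℝ} (hτ : Transcendental ℚ τ) : ∃ Φ : ℝ →+* Gm, (∀ a, Close (Φ a) a) ∧
    Φ τ = ((fun n => τ + 1 / ((n : ℝ) + 1) : ℕ → ℝ) : Gm) := by
  have hY : Close ((fun n => τ + 1 / ((n : ℝ) + 1) : ℕ → ℝ) : Gm) τ := Close.coe.2 (by
    simpa using (tendsto_one_div_add_atTop_nhds_zero_nat.const_add τ).mono_left
      Nat.hyperfilter_le_atTop)
  have hτ' : Transcendental ℤ τ := hτ.restrictScalars (algebraMap ℤ ℚ).injective_int
  have h0 := good_range (p := Int.castRingHom ℝ) (p' := Int.castRingHom Gm)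
    (fun a => Close.const (a : ℝ)) hY fun q hq => by
      rw [transcendental_iff.1 hτ' q hq, eval₂_zero]
  obtain ⟨S, h1, h2⟩ := zorn_le_nonempty₀ {S | Good S} (fun c hc hc' y hy =>
    ⟨sSup c, fun x hx => by
      obtain ⟨S, a1, a2⟩ := (Subring.mem_sSup_of_directedOn ⟨y, hy⟩ hc'.directedOn).1 hx
      exact hc a1 x a2, fun z hz => le_sSup hz⟩) _ h0
  let p : S →+* ℝ := (RingHom.fst _ _).comp S.subtype
  let p' : S →+* Gm := (RingHom.snd _ _).comp S.subtype
  have hb : Function.Bijective p := ⟨(injective_iff_map_eq_zero p).2 fun a ha =>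
    Subtype.ext (Prod.ext ha ((h2.1 _ a.2).2 ha)), fun y => by
      obtain ⟨S', a1, a2, Y, a3⟩ := extend h2.1 y
      exact ⟨⟨_, h2.2 a1 a2 a3⟩, rfl⟩⟩
  let e := RingEquiv.ofBijective p hb
  refine ⟨p'.comp e.symm.toRingHom, fun a => ?_, ?_⟩
  · obtain ⟨b, rfl⟩ := e.surjective a
    have : (p'.comp e.symm.toRingHom) (e b) = p' b := by simp
    rw [this]
    exact (h2.1 _ b.2).1
  · have := congrArg p' (e.symm_apply_apply ⟨(τ, ((fun n => τ + 1 / ((n : ℝ) + 1) : ℕ → ℝ) : Gm)),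
      h1 ⟨X, by simp⟩⟩)
    exact this

end Pool.Agent.Lib.MP_3b7d13_co.Tr
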