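import Pool.Agent.Lib.MP_3b7d13_co.VarReal
import Pool.Agent.Lib.MP_3b7d13_co.TrDeform

/-! Deformation of a datum pushing the points on a sphere of transcendental radius outwards. -/

namespace Pool.Agent.Lib.MP_3b7d13_co.Tr

open Real Finset MeasureTheory Metric Filter Topology Module Var
open scoped RealInnerProductSpace

variable {d : ℕ}

lemma deform_vec {r : ℝ} (hr : Transcendental ℚ r) (hr0 : 0 ≤ r) :
    ∃ (S : E d → ℕ → E d) (Ψ : E d →+ Germ (hyperfilter ℕ : Filter ℕ) (E d)),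
      (∀ x, Ψ x = S x) ∧ (∀ x, Tendsto (S x) (hyperfilter ℕ) (𝓝 x)) ∧
      (∀ x, ‖x‖ = 1 → ∀ᶠ n in (hyperfilter ℕ : Filter ℕ), ‖S x n‖ = 1) ∧
      ∀ x, ‖x‖ = r → ∀ᶠ n in (hyperfilter ℕ : Filter ℕ), r < ‖S x n‖ := by
  obtain ⟨Φ, h1, h2⟩ := deform_hom hr
  choose ρ hρ using fun a => show ∃ f : ℕ → ℝ, (f : Gm) = Φ a from Quot.exists_rep _
  let S : E d → ℕ → E d := fun x n => WithLp.toLp 2 fun s => ρ (x s) n
  have hn : ∀ x, ((fun n => ‖S x n‖ ^ 2 : ℕ → ℝ) : Gm) = Φ (‖x‖ ^ 2) := fun x => by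
    have := map_sum (Germ.coeRingHom (hyperfilter ℕ : Filter ℕ)) (fun s => ρ (x s) ^ 2) univ
    simp only [map_pow, Germ.coe_coeRingHom, hρ] at this
    rw [EuclideanSpace.real_norm_sq_eq, map_sum]
    simp only [map_pow]
    rw [← this]
    congr 1
    funext n
    simp [S, EuclideanSpace.real_norm_sq_eq]
  refine ⟨S, AddMonoidHom.mk' (fun x => (S x : Germ _ _)) fun x y => Germ.coe_eq.2 ?_,
    fun _ => rfl, fun x => ?_, fun x hx => ?_, fun x hx => ?_⟩
  · filter_upwards [eventually_all.2 fun s => Germ.coe_eq.1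
      (show (ρ (x s + y s) : Gm) = ↑(ρ (x s) + ρ (y s)) by
        rw [Germ.coe_add, hρ, hρ, hρ, map_add])] with n hn
    ext s
    exact hn s
  · exact ((PiLp.continuous_toLp 2 _).tendsto _).comp
      (tendsto_pi_nhds.2 fun s => Close.coe.1 (hρ (x s) ▸ h1 _))
  · have := hn x
    rw [hx, one_pow, map_one] at this
    filter_upwards [Germ.coe_eq.1 this] with n hn
    exact (sq_eq_sq₀ (norm_nonneg _) zero_le_one).1 (hn.trans (one_pow 2).symm)
  · have := hn x
    rw [hx, map_pow, h2, ← Germ.coe_pow] at this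
    filter_upwards [Germ.coe_eq.1 this] with n hn
    have a1 : 0 < 1 / ((n : ℝ) + 1) := by positivity
    rw [(sq_eq_sq₀ (norm_nonneg _) (by linarith)).1 hn]
    linarith

theorem deform_datum (D : Datum d) (hη : ∀ i, D.η i = 0) {r : ℝ} (hr : Transcendental ℚ r)
    (hr0 : 0 ≤ r) {γ : ENNReal} (h : ∀ s < r, D.val s ≤ γ) {q : ℕ} (hq : D.k % 2 = q % 2) :
    ⨅ D : {D : Datum d // D.k % 2 = q % 2}, D.1.val r ≤ γ := by
  classical
  obtain ⟨S, Ψ, h0, h1, h2, h3⟩ := deform_vec (d := d) hr hr0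
  let b := Free.chooseBasis ℤ D.L
  let β := b.ofZLatticeBasis ℝ D.L
  let T : ℕ → E d →L[ℝ] E d := fun n =>
    ∑ j, ContinuousLinearMap.smulRightL ℝ _ _ (β.coord j).toContinuousLinearMap (S (β j) n)
  have hT : ∀ n x, T n x = ∑ j, β.repr x j • S (β j) n := fun n x => by
    simp [T, _root_.sum_apply]
  have hT1 : Tendsto T (hyperfilter ℕ) (𝓝 1) := by
    have := tendsto_finsetSum univ fun j _ => ((ContinuousLinearMap.smulRightL ℝ _ _
      (β.coord j).toContinuousLinearMap).continuous.tendsto _).comp (h1 (β j))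
    refine (congrArg (fun u => Tendsto T _ (𝓝 u)) ?_).mp this
    ext1 x
    simp [_root_.sum_apply]
  have hlin : ∀ {κ : Type} [Fintype κ] (c : κ → ℤ) (x : κ → E d),
      ∀ᶠ n in (hyperfilter ℕ : Filter ℕ), S (∑ j, c j • x j) n = ∑ j, c j • S (x j) n := by
    intro κ _ c x
    have e := map_sum (Germ.coeAddHom (hyperfilter ℕ : Filter ℕ)) (fun j => c j • S (x j)) univ
    have e' : Ψ (∑ j, c j • x j) = ↑(∑ j, c j • S (x j)) := by
      simp only [map_zsmul] at e
      rw [map_sum]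
      simp only [map_zsmul]
      simp only [h0]
      exact e.symm
    filter_upwards [Germ.coe_eq.1 ((h0 _).symm.trans e')] with n hn
    simpa using hn
  have hL : ∀ x ∈ D.L, ∀ᶠ n in (hyperfilter ℕ : Filter ℕ), T n x = S x n := fun x hx => by
    have e : ∀ j, β.repr x j = b.repr ⟨x, hx⟩ j := b.ofZLatticeBasis_repr_apply ℝ D.L ⟨x, hx⟩
    filter_upwards [hlin (b.repr ⟨x, hx⟩) β] with n hn
    simp only [← Int.cast_smul_eq_zsmul ℝ, ← e, Basis.sum_repr] at hn
    rw [hT, hn]
  have haL : ∀ i, D.a i ∈ D.L := fun i => Submodule.subset_span ⟨i, rfl⟩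
  obtain ⟨s, s1, s2⟩ := (eventually_mem_nhdsWithin.and (eventually_all.2 fun ε : Fin D.k → Bool =>
    (eventually_all_finite (per_finite D r (∑ j, sgn (ε j) • D.w j)) (l := 𝓝[<] r)
      (p := fun x s => ‖(2 : ℝ) • (x : E d) + ∑ j, sgn (ε j) • D.w j‖ < r →
        ‖(2 : ℝ) • (x : E d) + ∑ j, sgn (ε j) • D.w j‖ ≤ s)).2 fun x _ => by
      by_cases hx : ‖(2 : ℝ) • (x : E d) + ∑ j, sgn (ε j) • D.w j‖ < r
      · exact ((eventually_ge_nhds hx).filter_mono nhdsWithin_le_nhds).mono fun s hs _ => hs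
      · exact Eventually.of_forall fun s hs => (hx hs).elim)).exists
  have hnear : ∀ (ε : Fin D.k → Bool) (x : D.L), ∀ᶠ n in (hyperfilter ℕ : Filter ℕ),
      ‖(2 : ℝ) • T n x + ∑ j, sgn (ε j) • S (D.w j) n‖ ≤ r →
        ‖(2 : ℝ) • (x : E d) + ∑ j, sgn (ε j) • D.w j‖ ≤ s := fun ε x => by
    have e : ∀ᶠ n in (hyperfilter ℕ : Filter ℕ), (2 : ℝ) • T n x + ∑ j, sgn (ε j) • S (D.w j) n =
        S ((2 : ℝ) • (x : E d) + ∑ j, sgn (ε j) • D.w j) n := by
      have e1 : ∀ (c : Bool) (y : E d), (if c then 1 else -1 : ℤ) • y = sgn c • y :=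
        fun c y => by cases c <;> simp [sgn]
      filter_upwards [hL x x.2, hlin (κ := Option (Fin D.k))
        (fun j => j.elim 2 fun j => if ε j then 1 else -1) fun j => j.elim x D.w] with n a1 a2
      simp only [Fintype.sum_option, Option.elim, e1, two_zsmul] at a2
      rw [a1, two_smul, two_smul, a2]
    rcases lt_trichotomy ‖(2 : ℝ) • (x : E d) + ∑ j, sgn (ε j) • D.w j‖ r with a | a | a
    · exact Eventually.of_forall fun n _ => s2 ε x a.le a
    · filter_upwards [e, h3 _ a] with n a1 a2 a3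
      exact absurd (a1 ▸ a3) a2.not_ge
    · filter_upwards [e, (h1 _).norm.eventually (lt_mem_nhds a)] with n a1 a2 a3
      exact absurd (a1 ▸ a3) a2.not_ge
  set I := (∑ ε, ∫⁻ t, D.count s ε t ∂(gam D.N)) / 2 ^ D.k with hI
  have hcov : ZLattice.covolume D.L volume = volume.real (ZSpan.fundamentalDomain β) := by
    rw [ZLattice.covolume_eq_det_mul_measureReal D.L volume b β,
      show ((↑) : D.L → E d) ∘ b = β from funext fun j => (b.ofZLatticeBasis_apply ℝ D.L j).symm,
      Basis.det_self, abs_one, one_mul]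
  have key : ∀ᶠ n in (hyperfilter ℕ : Filter ℕ),
      ⨅ D : {D : Datum d // D.k % 2 = q % 2}, D.1.val r ≤
        ENNReal.ofReal ((2 / π) ^ ((d : ℝ) / 2) * (|(T n).det| * ZLattice.covolume D.L volume) /
          √(mom D.μ fun i => T n (D.a i)).det) * I := by
    filter_upwards [hT1.eventually (Units.nhds (1 : (E d →L[ℝ] E d)ˣ)),
      Metric.tendsto_nhds.1 hT1 _ one_half_pos, eventually_all.2 fun i => hL _ (haL i),
      eventually_all.2 fun i => h2 _ (D.a_unit i), eventually_all.2 fun j => h2 _ (D.w_unit j),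
      eventually_all.2 fun ε => (eventually_all_finite (lattice_finite D.L (r + D.k))).2
        fun x _ => hnear ε x] with n ⟨u, a1⟩ a2 a3 a4 a5 a6
    let e := (ContinuousLinearEquiv.ofUnit u).symm
    have he : ∀ x, e.symm x = T n x := fun x => a1 ▸ rfl
    have hs : Submodule.span ℤ (Set.range fun i => T n (D.a i)) =
        ZLattice.comap ℝ D.L e.toLinearMap := by
      have := Submodule.map_span ((e.symm.toLinearEquiv.restrictScalars ℤ).toLinearMap)
        (Set.range D.a)
      rw [← Set.range_comp, Submodule.map_equiv_eq_comap_symm] at this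
      exact ((congrArg (fun f => Submodule.span ℤ (Set.range f)) (funext fun i => he _)).symm.trans
        this.symm)
    let D' : Datum d :=
      { N := D.N, a := fun i => T n (D.a i), μ := D.μ, η := 0, k := D.k,
        w := fun j => S (D.w j) n, a_unit := fun i => (a3 i).symm ▸ a4 i, w_unit := a5,
        μ_pos := D.μ_pos, μ_sum := D.μ_sum, discrete := by rw [hs]; infer_instance,
        spans := by
          rw [← Submodule.span_span_of_tower ℤ, hs]; exact IsZLattice.span_top,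
        orth := by simp, quad := ⟨0, by simp⟩ }
    have hL' : D'.L = ZLattice.comap ℝ D.L e.toLinearMap := hs
    refine (iInf_le (fun D : {D : Datum d // D.k % 2 = q % 2} => D.1.val r) ⟨D', hq⟩).trans ?_
    rw [val_eq]
    refine mul_le_mul' (le_of_eq (congrArg _ ?_)) ?_
    · rw [pref, hL', ZLattice.covolume_eq_det_mul_measureReal _ volume
        (b.ofZLatticeComap ℝ D.L e.toLinearEquiv) β, hcov,
        show ((↑) : _ → E d) ∘ b.ofZLatticeComap ℝ D.L e.toLinearEquiv = (T n).toLinearMap ∘ β from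
          funext fun j => (Basis.ofZLatticeComap_apply ℝ D.L _ b j).trans ((he _).trans
            (congrArg (T n) (b.ofZLatticeBasis_apply ℝ D.L j).symm)),
        Basis.det_comp, Basis.det_self, mul_one]
      rfl
    · rw [hI]
      gcongr with ε _ t
      refine ENat.toENNReal_le.2 ((Set.encard_le_encard fun y hy => ?_).trans
        (Set.encard_image_le (T n) _))
      have b1 : e y ∈ D.L := (hL' ▸ hy.1 :)
      have b2 : T n (e y) = y := (he _).symm.trans (e.symm_apply_apply y)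
      have b3 : ‖(2 : ℝ) • T n (e y) + ∑ j, sgn (ε j) • S (D.w j) n‖ ≤ r := by
        simpa [D', b2] using hy.2
      refine ⟨e y, ⟨b1, ?_⟩, b2⟩
      simp only [hη, smul_zero, sum_const_zero, add_zero]
      refine a6 ε ⟨_, b1⟩ ?_ b3
      have b4 := (T n - 1).le_opNorm (e y)
      rw [← dist_eq_norm] at b4
      have b5 : ‖∑ j, sgn (ε j) • S (D.w j) n‖ ≤ D.k := by
        refine (norm_sum_le _ _).trans (le_of_eq ?_)
        rw [sum_congr rfl fun j _ => show ‖sgn (ε j) • S (D.w j) n‖ = 1 by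
          rw [norm_smul, a5]; cases ε j <;> simp [sgn]]
        simp [D']
      have b6 := norm_sub_le ((2 : ℝ) • T n (e y) + ∑ j, sgn (ε j) • S (D.w j) n)
        (∑ j, sgn (ε j) • S (D.w j) n)
      rw [add_sub_cancel_right, norm_smul, Real.norm_two] at b6
      have b7 := norm_sub_norm_le (e y) (T n (e y))
      rw [norm_sub_rev] at b7
      change ‖T n (e y) - e y‖ ≤ _ at b4
      change ‖e y‖ ≤ _
      nlinarith [norm_nonneg (e y)]
  refine le_trans (ge_of_tendsto (ENNReal.Tendsto.mul_const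
    ((ENNReal.continuous_ofReal.tendsto (pref D)).comp ?_) (Or.inl (by simpa using pref_pos D)))
    key) ((val_eq D s).ge.trans (h s s1))
  have t1 := (ContinuousLinearMap.continuous_det.tendsto _).comp hT1
  have t2 : Tendsto (fun n => mom D.μ fun i => T n (D.a i)) (hyperfilter ℕ) (𝓝 D.M) :=
    mom_tendsto D.μ fun i => (h1 _).congr' ((hL _ (haL i)).mono fun n hn => hn.symm)
  have t3 := (((t1.abs.mul_const (ZLattice.covolume D.L volume)).const_mul
    ((2 / π) ^ ((d : ℝ) / 2))).div (((continuous_id.matrix_det.tendsto _).comp t2).sqrt)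
    (sqrt_pos.2 (M_posDef D).det_pos).ne')
  have t4 : (1 : E d →L[ℝ] E d).det = 1 := map_one LinearMap.det
  rw [t4, abs_one, one_mul] at t3
  exact t3

end Pool.Agent.Lib.MP_3b7d13_co.Tr
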