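import Pool.Agent.Lib.MP_3b7d13_co.TrShell
import Pool.Agent.Lib.MP_3b7d13_co.TrDatum

/-! Either the sphere carries no limiting mass, or the limit is atomic and can be deformed. -/

namespace Pool.Agent.Lib.MP_3b7d13_co.Tr

open Real Finset MeasureTheory Metric Filter Topology Module Var
open scoped RealInnerProductSpace

variable {d : ℕ}

lemma exists_datum0 {ι κ : Type*} [Fintype ι] [Fintype κ] (a : ι → E d) (μ : ι → ℝ) (w : κ → E d)
    (ha : ∀ i, ‖a i‖ = 1) (hw : ∀ j, ‖w j‖ = 1) (hμ : ∀ i, 0 < μ i) (h1 : ∑ i, μ i = 1)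
    (hd : DiscreteTopology (Submodule.span ℤ (Set.range a)))
    (hs : Submodule.span ℝ (Set.range a) = ⊤) :
    ∃ D : Datum d, D.k = Fintype.card κ ∧ (∀ i, D.η i = 0) ∧
      ∀ g, FV D g = cM (mom μ a) * ∑' x : dualS (Set.range a), g x * Phi w x := by
  let e := (Fintype.equivFin ι).symm
  let e' := (Fintype.equivFin κ).symm
  have hr : Set.range (a ∘ e) = Set.range a := e.surjective.range_comp a
  refine ⟨⟨_, a ∘ e, μ ∘ e, 0, _, w ∘ e', fun _ => ha _, fun _ => hw _, fun _ => hμ _,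
    (e.sum_comp μ).trans h1, by rwa [hr], by rwa [hr], by simp, 0, by simp⟩, rfl, fun _ => rfl,
    fun g => ?_⟩
  have e1 : mult (μ ∘ e) 0 (w ∘ e') = Phi w := funext fun x => by
    simp only [mult, Phi, Function.comp]
    simp [e'.prod_comp fun j => cos (2 * π * ⟪x, w j⟫)]
  have e2 : mom (μ ∘ e) (a ∘ e) = mom μ a := by
    ext s t
    exact e.sum_comp fun i => μ i * a i s * a i t
  change cM (mom (μ ∘ e) (a ∘ e)) * ∑' x : dualS (Set.range (a ∘ e)),
    g x * mult (μ ∘ e) 0 (w ∘ e') x = _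
  rw [e1, e2, hr]

variable {κ : Type*} {ι : κ → Type} [∀ k, Fintype (ι k)] [∀ k, DecidableEq (ι k)]

/-- Thin shells around the sphere of radius `r` carry little mass in the limit. -/
def ShellNull (l : Filter κ) (v : ∀ k, ι k → E d) (r : ℝ) : Prop :=
  ∀ ε > 0, ∃ β > 0, ∀ (ψ g : E d → ℝ) (C : ℝ), TP ψ g C → (∀ x, ψ x ≤ 1) →
    (∀ x, ψ x ≠ 0 → |‖x‖ ^ 2 - r ^ 2| < β) → ∀ᶠ k in l, rt (ι k) ^ d * Ex (v k) ψ ≤ ε

variable {𝒰 : Ultrafilter κ}
  {v : ∀ k, ι k → E d} (hv : ∀ k i, ‖v k i‖ = 1) (hn : Tendsto (fun k => rt (ι k)) 𝒰 atTop)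
  {Λ : Set (E d)} {m : ℕ} {f : Fin m → E d} {L : Submodule ℤ (E d)} {R : κ → E d →L[ℝ] E d}
  {P : E d →L[ℝ] E d} {p : ∀ k, ι k → E d} {C : ℝ} (h : Str 𝒰 v Λ f L R P p C) {M : Mat d}
  (hX : ∀ (g : E d → ℝ) (B : ℝ), Continuous g → (∀ y, |g y| ≤ B * wt y) →
    Tendsto (fun k => rt (ι k) ^ d * (∫ y, g y * Phi (v k) y) -
      cM M * ∑' x : Λ, g x * Phi (fun i => R k (v k i)) x) 𝒰 (𝓝 0))

include h hX in
theorem part_null (l0 : Fin m) (r : ℝ) : ShellNull 𝒰 v r := by
  intro ε hε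
  obtain ⟨Ψ, G, C0, t0, b0, -, b2, -⟩ := exists_bump (d := d) (s := |r| + 2) (r := |r| + 3)
    (by positivity) (by linarith)
  set B := cM M * ∑' x : Λ, C0 * wt (x : E d) + 1
  have hB : ∀ᶠ k in 𝒰, rt (ι k) ^ d * Ex (v k) Ψ ≤ B := by
    filter_upwards [(hX G C0 t0.cg t0.dec).eventually (ge_mem_nhds one_pos)] with k hk
    have := mul_le_mul_of_nonneg_left ((le_abs_self _).trans (tsum_of_norm_bounded
      (f := fun x : Λ => G x * Phi (fun i => R k (v k i)) x) (h.sep.summable.mul_left C0).hasSum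
      fun x => abs_mul_le_wt t0.dec _ (abs_Phi_le_one _ _))) (cM_nonneg M)
    rw [t0.Ex_eq]
    linarith
  obtain ⟨K, hK⟩ := exists_nat_gt (4 * |B| / ε)
  have hK0 : (0 : ℝ) < K := lt_of_le_of_lt (by positivity) hK
  have hK1 : (1 : ℝ) ≤ K := by exact_mod_cast Nat.cast_pos.1 hK0
  refine ⟨1 / (3 * K ^ 3), by positivity, fun ψ g C t1 p1 p2 => ?_⟩
  have a1 : ∀ j : ℕ, ∀ᶠ k in 𝒰, rt (ι k) ^ d * Ex (v k) ψ ≤
      rt (ι k) ^ d * Ex (v k) (fun x => ψ (x - ((j : ℝ) / K) • f l0)) + ε / 2 := fun j => by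
    have := (hX g C t1.cg t1.dec).sub (hX (fun y => g y * cos (2 * π * ⟪y, ((j : ℝ) / K) • f l0⟫))
      C (by have := t1.cg; fun_prop) fun y => abs_mul_le_wt t1.dec y (abs_cos_le_one _))
    have e : ∀ x : Λ, ⟪(x : E d), ((j : ℝ) / K) • f l0⟫ = 0 := fun x => by
      rw [real_inner_smul_right, real_inner_comm, h.orth x x.2, mul_zero]
    simp only [e, mul_zero, cos_zero, mul_one, sub_zero, sub_sub_sub_cancel_right, mul_assoc (g _),
      ← t1.Ex_eq, ← t1.Ex_shift] at this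
    filter_upwards [this.eventually (ge_mem_nhds (half_pos hε))] with k hk
    linarith
  have a2 : ∀ x, ∑ j ∈ range K, ψ (x - ((j : ℝ) / K) • f l0) ≤ 2 * Ψ x := fun x => by
    by_cases hx : ‖x‖ ≤ |r| + 2
    · rw [b2 x hx, mul_one, ← sum_filter_of_ne fun j _ hj => p2 _ hj]
      refine (sum_le_card_nsmul _ _ _ fun j _ => p1 _).trans ?_
      rw [nsmul_eq_mul, mul_one]
      exact_mod_cast overlap (h.on.1 l0) (Nat.cast_pos.1 hK0) _
    · refine (sum_eq_zero fun j hj => by_contra fun h' => ?_).trans_le (by linarith [b0 x])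
      have c1 := (abs_lt.1 (p2 _ h')).2
      have c2 : 1 / (3 * (K : ℝ) ^ 3) ≤ 1 :=
        div_le_one_of_le₀ (by linarith [one_le_pow₀ (n := 3) hK1]) (by positivity)
      have c3 := norm_sub_norm_le x (((j : ℝ) / K) • f l0)
      have c4 : (j : ℝ) / K ≤ 1 := div_le_one_of_le₀ (Nat.cast_le.2 (mem_range.1 hj).le) hK0.le
      rw [norm_smul, h.on.1, mul_one, Real.norm_of_nonneg (by positivity)] at c3
      nlinarith [not_le.1 hx, abs_nonneg r, sq_abs r]
  filter_upwards [hB, (eventually_all_finset (range K)).2 fun j _ => a1 j] with k c1 c2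
  have c3 := sum_le_sum c2
  have c4 : ∑ j ∈ range K, Ex (v k) (fun x => ψ (x - ((j : ℝ) / K) • f l0)) ≤ 2 * Ex (v k) Ψ := by
    rw [← Ex_smul]
    refine le_trans (le_of_eq ?_) (Ex_mono _ a2)
    simp only [Ex, ← sum_div]
    rw [sum_comm]
  rw [sum_add_distrib, sum_const, sum_const, ← mul_sum, card_range, nsmul_eq_mul,
    nsmul_eq_mul] at c3
  rw [div_lt_iff₀ hε] at hK
  refine le_of_mul_le_mul_left ?_ hK0
  have c5 : 0 ≤ rt (ι k) ^ d := pow_nonneg (sqrt_nonneg _) d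
  linarith [mul_le_mul_of_nonneg_left c4 c5, le_abs_self B]

include hv hn h hX in
theorem full_cases (hd : 0 < d) (hR : Tendsto R 𝒰 (𝓝 1)) (hm : IsEmpty (Fin m)) (hM : M.PosDef)
    (hMl : Tendsto (fun k => emp (v k)) 𝒰 (𝓝 M)) {q : ℕ}
    (hq : ∀ᶠ k in 𝒰, Fintype.card (ι k) % 2 = q % 2) {r c0 : ℝ} (hr : Transcendental ℚ r)
    (hr0 : 0 < r)
    (hpr : ∀ᶠ k in 𝒰, rt (ι k) ^ d * Ex (v k) (fun x => if ‖x‖ ≤ r then 1 else 0) ≤ c0) :
    ShellNull 𝒰 v r ∨ ∀ η > 0,
      ⨅ D : {D : Datum d // D.k % 2 = q % 2}, D.1.val r ≤ ENNReal.ofReal (c0 + η) := by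
  classical
  obtain ⟨A, c, K, hK, hA, hc, h1⟩ := classes hv hn h hR
  have hΛ : dualS (Set.range (Subtype.val : A → E d)) = Λ := by
    refine Set.Subset.antisymm (fun x hx => by_contra fun hx' => ?_) ?_
    · obtain ⟨k, a1, a2⟩ := (h1.and ((h.off x hx' fun j => hm.elim j).eventually_gt_atTop
        ((2 * π * ‖π⁻¹ • x‖) ^ 2 * K))).exists
      choose n hn using fun b : A => hx b ⟨b, rfl⟩
      refine ((Q_le_of_int _ x fun i => n (c k i)).trans (le_trans (le_of_eq ?_)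
        (sum_inner_sq_le (π⁻¹ • x) _ a1.1))).not_gt a2
      refine sum_congr rfl fun i _ => ?_
      rw [← hn, real_inner_smul_left, inner_sub_right]
      field_simp
    · rintro x hx _ ⟨b, rfl⟩
      rw [real_inner_comm]
      exact (h.dual _ (hA _ b.2).1).1 x hx
  let μ : κ → A → ℝ := fun k b => (univ.filter fun i => c k i = b).card / Fintype.card (ι k)
  have hμ : ∀ k, mom (μ k) Subtype.val = emp fun i => (c k i : E d) := fun k => by
    ext s t
    simp only [emp, mom, Matrix.of_apply, μ]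
    rw [← sum_fiberwise univ (c k)]
    refine sum_congr rfl fun b _ => ?_
    rw [sum_congr rfl fun i hi => by rw [(mem_filter.1 hi).2], sum_const, nsmul_eq_mul]
    ring
  have hnn := card_tendsto hn
  have hM' : Tendsto (fun k => mom (μ k) Subtype.val) 𝒰 (𝓝 M) := by
    refine tendsto_pi_nhds.2 fun s => tendsto_pi_nhds.2 fun t =>
      (tendsto_pi_nhds.1 (tendsto_pi_nhds.1 hMl s) t).congr_dist ?_
    rw [Metric.tendsto_nhds]
    intro ε hε
    have hδ : 0 < ε / 6 := by positivity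
    filter_upwards [h1, near_id hv hR hδ, hnn.eventually_gt_atTop (K / (ε / 6) ^ 2)]
      with k a1 a2 a3
    have b1 := emp_close (a := fun i => (c k i : E d)) (fun i => (hA _ (c k i).2).2.le)
      (fun i => (hv k i).le) hδ (lt_of_le_of_lt (by positivity) a3) (β := 4 * (ε / 6) ^ 2) (by
        refine (sum_le_sum fun i _ => show _ ≤ 2 * ‖R k (v k i) - c k i‖ ^ 2 + 2 * (ε / 6) ^ 2
          from ?_).trans ?_
        · have := norm_sub_le_norm_sub_add_norm_sub (c k i : E d) (R k (v k i)) (v k i)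
          rw [norm_sub_rev (c k i : E d) (R k (v k i))] at this
          nlinarith [pow_le_pow_left₀ (norm_nonneg _) (this.trans (add_le_add_right (a2 i) _)) 2,
            sq_nonneg (‖R k (v k i) - c k i‖ - ε / 6)]
        · rw [div_lt_iff₀ (by positivity)] at a3
          rw [sum_add_distrib, sum_const, ← mul_sum, card_univ, nsmul_eq_mul]
          linarith [a1.1]) s t
    rw [show 4 * (ε / 6) ^ 2 / (ε / 6) = 4 * (ε / 6) by field_simp] at b1
    rw [dist_zero_right, Real.norm_of_nonneg dist_nonneg, hμ, dist_comm, Real.dist_eq]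
    linarith
  have hsp : Submodule.span ℝ (Set.range (Subtype.val : A → E d)) = ⊤ := by
    obtain ⟨k, hk⟩ := (hM'.eventually (ev_posDef hM)).exists
    exact span_top_of_posDef (hk (mom_herm _ _))
  have hdisc : DiscreteTopology (Submodule.span ℤ (Set.range (Subtype.val : A → E d))) :=
    DiscreteTopology.of_subset (s := (L : Set (E d))) h.disc (Submodule.span_le.2 (by
      rintro _ ⟨b, rfl⟩; exact (hA _ b.2).1))
  have hcM : 0 < cM M := by have := hM.det_pos; unfold cM; positivity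
  let T : ∀ k, Finset (ι k) → ℝ := fun k J => ∑ i ∈ Jᶜ, ‖R k (v k i) - c k i‖ ^ 2
  by_cases hs : ∀ m : ℕ, ∃ τ > 0, ∀ᶠ k in 𝒰, ∀ J : Finset (ι k), J.card ≤ m → τ ≤ T k J
  · refine Or.inl fun ε hε => ?_
    set L' := Submodule.span ℤ (Set.range (Subtype.val : A → E d))
    have : IsZLattice ℝ L' := ⟨by rw [Submodule.span_span_of_tower, hsp]⟩
    have hΛ' : dualS (L' : Set (E d)) = Λ := (dualS_span _).trans hΛ
    set a := cM M * (2 ^ d * ZLattice.covolume L' volume)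
    have ha : 0 < a := by have := ZLattice.covolume_pos L' (volume : Measure (E d)); positivity
    obtain ⟨m, a1⟩ := shell_bound L' hd r K (η := ε / 2 / a) (by positivity)
    obtain ⟨τ, a2, a3⟩ := hs m
    obtain ⟨β, a4, a5⟩ := a1 τ a2
    refine ⟨β, a4, fun ψ g B t1 p1 p2 => ?_⟩
    filter_upwards [a3, h1, (hX g B t1.cg t1.dec).eventually (ge_mem_nhds (half_pos hε))]
      with k b1 b2 b3
    rw [← t1.Ex_eq, ← hΛ', real_space L' (hΛ' ▸ h.sep) t1, ← mul_assoc] at b3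
    have := a5 _ (fun i => (c k i : E d)) _ (fun i => Submodule.subset_span ⟨_, rfl⟩) b2.1 b1 ψ p1 p2
    rw [le_div_iff₀' ha] at this
    linarith
  refine Or.inr fun η hη => ?_
  simp only [not_forall, not_exists, not_and, ← Ultrafilter.eventually_not, not_le] at hs
  obtain ⟨m, hs⟩ := hs
  choose J0 j1 j2 using fun k => exists_min_image (univ.filter fun J : Finset (ι k) => J.card ≤ m)
    (T k) ⟨∅, by simp⟩
  have hT : Tendsto (fun k => T k (J0 k)) 𝒰 (𝓝 0) := tendsto_order.2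
    ⟨fun a ha => Eventually.of_forall fun k => ha.trans_le (sum_nonneg fun _ _ => sq_nonneg _),
      fun a ha => (hs a ha).mono fun k ⟨J, b1, b2⟩ =>
        (j2 k J (mem_filter.2 ⟨mem_univ _, b1⟩)).trans_lt b2⟩
  obtain ⟨σ, hσ⟩ := Ultrafilter.eventually_exists_iff.1 (show ∀ᶠ k in 𝒰, ∃ σ : A → Fin 2,
      ∃ H : Fin m → E d, ∃ j : Fin m ↪ ι k, (∀ l, ‖H l - v k (j l)‖ ≤ dist (R k) 1) ∧
      (∀ l, H l = R k (v k (j l))) ∧ T k (univ.map j) ≤ T k (J0 k) ∧
      ∀ b, ((univ.map j)ᶜ.filter fun i => c k i = b).card % 2 = σ b by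
    filter_upwards [hnn.eventually_ge_atTop m] with k hk
    obtain ⟨J, b1, -, b2⟩ := exists_subsuperset_card_eq (subset_univ (J0 k))
      (mem_filter.1 (j1 k)).2 (Nat.cast_le.1 hk)
    let j : Fin m ↪ ι k := (J.equivFinOfCardEq b2).symm.toEmbedding.trans (.subtype _)
    have b3 : J0 k ⊆ univ.map j := fun i hi =>
      mem_map.2 ⟨J.equivFinOfCardEq b2 ⟨i, b1 hi⟩, mem_univ _, by simp [j]⟩
    refine ⟨fun b => ⟨_, Nat.mod_lt _ two_pos⟩, _, j, fun l => ?_, fun _ => rfl,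
      sum_le_sum_of_subset_of_nonneg (compl_subset_compl.2 b3) fun _ _ _ => sq_nonneg _,
      fun _ => rfl⟩
    have := (R k - 1).le_opNorm (v k (j l))
    rwa [hv, mul_one, ← dist_eq_norm] at this)
  obtain ⟨H, hH⟩ := Eventually.choice hσ
  have hR' := tendsto_iff_dist_tendsto_zero.1 hR
  have hH1 : ∀ l, Tendsto (fun k => ‖H k l‖) 𝒰 (𝓝 1) := fun l =>
    tendsto_iff_dist_tendsto_zero.2 (squeeze_zero' (Eventually.of_forall fun _ => dist_nonneg)
      (hH.mono fun k ⟨j, b1, _⟩ => hv k (j l) ▸ (dist_norm_norm_le _ _).trans (b1 l)) hR')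
  choose W w1 w2 using fun l => (isCompact_closedBall (0 : E d) 2).ultrafilter_le_nhds
    (𝒰.map fun k => H k l) (le_principal_iff.2
      (((hH1 l).eventually (ge_mem_nhds one_lt_two)).mono fun k hk => mem_closedBall_zero_iff.2 hk))
  have w3 : ∀ l, ‖W l‖ = 1 := fun l => tendsto_nhds_unique (Tendsto.norm (w2 l)) (hH1 l)
  let Θ : E d → ℝ := fun x => ∏ b : A, cos (2 * π * ⟪x, (b : E d)⟫) ^ (σ b : ℕ)
  have hΘ : ∀ x ∈ Λ, ∀ k (s : Finset (ι k)), (∀ b, (s.filter fun i => c k i = b).card % 2 = σ b) →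
      ∏ i ∈ s, cos (2 * π * ⟪x, (c k i : E d)⟫) = Θ x := fun x hx k s hs => by
    rw [← prod_fiberwise s (c k)]
    refine prod_congr rfl fun b _ => ?_
    obtain ⟨n, hn⟩ := hΛ.ge hx b ⟨b, rfl⟩
    rw [prod_congr rfl fun i hi => by rw [(mem_filter.1 hi).2], prod_const, ← hs,
      pow_eq_pow_mod _ (show cos (2 * π * ⟪x, (b : E d)⟫) ^ 2 = 1 by
        rw [← sub_eq_zero, show 2 * π * ⟪x, (b : E d)⟫ = n * π by rw [← hn]; ring, cos_sq',
          sin_int_mul_pi]
        ring)]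
  have hlim : ∀ x ∈ Λ, Tendsto (fun k => Phi (fun i => R k (v k i)) x) 𝒰 (𝓝 (Phi W x * Θ x)) := by
    intro x hx
    have a1 : Tendsto (fun k => Phi (H k) x * Θ x) 𝒰 (𝓝 (Phi W x * Θ x)) :=
      (tendsto_finsetProd _ fun l _ => (Continuous.tendsto (f := fun y : E d =>
        cos (2 * π * ⟪x, y⟫)) (by fun_prop) _).comp (w2 l)).mul_const _
    refine a1.congr_dist (squeeze_zero' (Eventually.of_forall fun _ => dist_nonneg)
      (hH.mono fun k ⟨j, _, b1, b2, b3⟩ => ?_)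
      (by simpa using hT.const_mul ((2 * π * ‖x‖) ^ 2)))
    have c1 : Phi (fun i => R k (v k i)) x =
        Phi (H k) x * ∏ i ∈ (univ.map j)ᶜ, cos (2 * π * ⟪x, R k (v k i)⟫) := by
      simp only [Phi, b1]
      rw [← prod_mul_prod_compl (univ.map j), prod_map]
    rw [c1, ← hΘ x hx k _ b3, Real.dist_eq, ← mul_sub, abs_mul]
    refine (mul_le_of_le_one_left (abs_nonneg _) (abs_Phi_le_one _ _)).trans
      ((abs_prod_sub_prod _ _ _ (fun _ => abs_cos_le_one _) fun _ => abs_cos_le_one _).trans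
        (le_trans ?_ (mul_le_mul_of_nonneg_left b2 (sq_nonneg _))))
    rw [mul_sum]
    refine sum_le_sum fun i _ => ?_
    obtain ⟨n, hn⟩ := hΛ.ge hx _ ⟨c k i, rfl⟩
    have c2 : |2 * π * ⟪x, R k (v k i) - c k i⟫| ≤ 2 * π * ‖x‖ * ‖R k (v k i) - c k i‖ := by
      rw [abs_mul, abs_of_pos two_pi_pos, mul_assoc (2 * π)]
      gcongr
      exact abs_real_inner_le_norm _ _
    rw [show 2 * π * ⟪x, R k (v k i)⟫ = n * π + 2 * π * ⟪x, R k (v k i) - c k i⟫ by
      rw [← hn, inner_sub_right]; ring, show 2 * π * ⟪x, (c k i : E d)⟫ = n * π by rw [← hn]; ring,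
      cos_add, sin_int_mul_pi, zero_mul, sub_zero, ← mul_one_sub, abs_mul, ← mul_pow]
    refine (mul_le_of_le_one_left (abs_nonneg _) (abs_cos_le_one _)).trans ?_
    rw [abs_of_nonneg (sub_nonneg.2 (cos_le_one _))]
    nlinarith [one_sub_sq_div_two_le_cos (x := 2 * π * ⟪x, R k (v k i) - c k i⟫),
      pow_le_pow_left₀ (abs_nonneg _) c2 2, sq_abs (2 * π * ⟪x, R k (v k i) - c k i⟫)]
  have a1 := ((((cM_contAt hM).tendsto.comp hM').div_const (cM M)).mul_const c0).eventually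
    (ge_mem_nhds (show _ < c0 + η by rw [div_self hcM.ne']; linarith))
  obtain ⟨k, ⟨j, -, -, -, b1⟩, b2, b3, b4, b5⟩ := (hH.and (hq.and (a1.and
    ((eventually_all.2 fun b => (hc b).eventually_gt_atTop 0).and
      (hnn.eventually_gt_atTop 0))))).exists
  obtain ⟨D, d1, d2, d3⟩ := exists_datum0 Subtype.val (μ k)
    (Sum.elim W fun i : ((univ.map j)ᶜ : Finset (ι k)) => (c k i : E d)) (fun b => (hA _ b.2).2)
    (by rintro (l | i); exacts [w3 l, (hA _ (c k i).2).2]) (fun b => div_pos (b4 b) b5) (by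
      simp only [μ, ← sum_div]
      rw [← Nat.cast_sum, ← card_eq_sum_card_fiberwise fun _ _ => mem_coe.2 (mem_univ _),
        card_univ, div_self b5.ne']) hdisc hsp
  refine deform_datum D d2 hr hr0.le (fun s hs => ?_) (by
    have := card_le_univ (univ.map j)
    rw [d1, Fintype.card_sum, Fintype.card_coe, card_compl, ← b2]
    simp only [card_map, card_univ, Fintype.card_fin] at this ⊢
    rw [Nat.add_sub_cancel' this])
  obtain ⟨φ, g, B, t1, p0, p1, p2, p3⟩ := exists_bump (d := d) (s := max s (r / 2)) (r := r)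
    (by positivity) (max_lt hs (half_lt_self hr0))
  refine (val_le_FV D t1 p0 fun x hx => p2 x (hx.trans (le_max_left _ _))).trans
    (ENNReal.ofReal_le_ofReal ?_)
  have c1 := (tendsto_tsum_of_dominated_convergence (𝓕 := 𝒰)
    (f := fun k (x : Λ) => g x * Phi (fun i => R k (v k i)) x) (h.sep.summable.mul_left B)
    (fun x => (hlim x x.2).const_mul _) (Eventually.of_forall fun k x =>
      abs_mul_le_wt t1.dec _ (abs_Phi_le_one _ _))).const_mul (cM M)
  have c2 := (hX g B t1.cg t1.dec).add c1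
  simp only [sub_add_cancel, zero_add, ← t1.Ex_eq] at c2
  have c3 := le_of_tendsto c2 (hpr.mono fun k hk => le_trans (mul_le_mul_of_nonneg_left
    (Ex_mono _ fun x => by
      split_ifs with hx
      exacts [p1 x, (p3 x (not_le.1 hx).le).le]) (pow_nonneg (sqrt_nonneg _) d)) hk)
  have c4 : ∀ x : Λ, Phi (Sum.elim W fun i : ((univ.map j)ᶜ : Finset (ι k)) => (c k i : E d)) x =
      Phi W x * Θ x := fun x => by
    rw [← hΘ x x.2 k _ b1, ← prod_coe_sort]
    exact Fintype.prod_sum_type _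
  rw [d3, hΛ]
  simp only [c4]
  refine le_trans (le_trans (le_of_eq ?_) (mul_le_mul_of_nonneg_left c3
    (div_nonneg (cM_nonneg _) hcM.le))) b3
  field_simp

end Pool.Agent.Lib.MP_3b7d13_co.Tr
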