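import Pool.Agent.Lib.MP_3b7d13_co.VarLower
import Pool.Agent.Lib.MP_3b7d13_co.TrAC

/-! Thin spherical shells carry little mass. -/

namespace Pool.Agent.Lib.MP_3b7d13_co.Tr

open Real Finset MeasureTheory Metric Filter Topology Module Var
open scoped RealInnerProductSpace

variable {d : ℕ}

lemma overlap {f x : E d} (hf : ‖f‖ = 1) {K : ℕ} (hK : 0 < K) (t : ℝ) :
    ((range K).filter fun j : ℕ => |‖x - ((j : ℝ) / K) • f‖ ^ 2 - t| < 1 / (3 * K ^ 3)).card ≤ 2 := by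
  by_contra h
  obtain ⟨i, j, k, a1, a2, a3, b1, b2, b3⟩ := two_lt_card_iff.1 (not_le.1 h)
  simp only [mem_filter, mem_range, norm_sub_sq_real, real_inner_smul_right, norm_smul, hf,
    mul_one, Real.norm_eq_abs, sq_abs] at a1 a2 a3
  have hK' : (0 : ℝ) < K := Nat.cast_pos.2 hK
  have c1 : ∀ {i j : ℕ}, i < K → j < K → i ≠ j → 1 ≤ |(i : ℝ) - j| ∧ |(i : ℝ) - j| ≤ K := by
    intro i j hi hj hij
    have : (1 : ℤ) ≤ |(i : ℤ) - j| ∧ |(i : ℤ) - j| ≤ K :=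
      ⟨Int.one_le_abs (by omega), abs_le.2 ⟨by omega, by omega⟩⟩
    exact_mod_cast this
  obtain ⟨d1, d2⟩ := c1 a1.1 a2.1 b1
  obtain ⟨d3, d4⟩ := c1 a1.1 a3.1 b2
  obtain ⟨d5, d6⟩ := c1 a2.1 a3.1 b3
  set p := ‖x‖ ^ 2 - 2 * (i / K * ⟪x, f⟫) + (i / K) ^ 2 - t with hp
  set q := ‖x‖ ^ 2 - 2 * (j / K * ⟪x, f⟫) + (j / K) ^ 2 - t with hq
  set s := ‖x‖ ^ 2 - 2 * (k / K * ⟪x, f⟫) + (k / K) ^ 2 - t with hs
  have e : ((i : ℝ) - j) * (i - k) * (j - k) = K ^ 2 * ((j - k) * p - (i - k) * q + (i - j) * s) := by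
    rw [hp, hq, hs]; field_simp; ring
  have e1 : 1 ≤ |((i : ℝ) - j) * (i - k) * (j - k)| := by
    rw [abs_mul, abs_mul]; exact one_le_mul_of_one_le_of_one_le (one_le_mul_of_one_le_of_one_le d1 d3) d5
  have e2 : ∀ {u w : ℝ}, |u| ≤ K → |w| < 1 / (3 * K ^ 3) → |u * w| < K * (1 / (3 * K ^ 3)) :=
    fun hu hw => by rw [abs_mul]; exact mul_lt_mul' hu hw (abs_nonneg _) hK'
  have e3 : |(j - k) * p - (i - k) * q + (i - j) * s| < 3 * (K * (1 / (3 * K ^ 3))) := by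
    linarith [e2 d6 a1.2, e2 d4 a2.2, e2 d2 a3.2, abs_add_le ((j - k) * p - (i - k) * q) ((i - j) * s),
      abs_sub ((j - k) * p) ((i - k) * q)]
  rw [e, abs_mul, abs_of_pos (pow_pos hK' 2)] at e1
  have e4 := mul_lt_mul_of_pos_left e3 (pow_pos hK' 2)
  rw [show (K : ℝ) ^ 2 * (3 * (K * (1 / (3 * K ^ 3)))) = 1 by field_simp] at e4
  linarith

lemma second_moment {ι : Type*} [Fintype ι] [DecidableEq ι] (e : ι → E d) :
    Ex e (fun x => ‖x‖ ^ 2) = ∑ i, ‖e i‖ ^ 2 := by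
  rw [Ex, div_eq_iff (by positivity)]
  simp only [← real_inner_self_eq_norm_sq, sum_inner, inner_sum, real_inner_smul_left,
    real_inner_smul_right]
  rw [sum_comm, sum_mul]
  refine sum_congr rfl fun i _ => ?_
  rw [sum_comm, sum_eq_single i (fun j _ hj => ?_) (by simp)]
  · simp [← mul_assoc, ← sq, sgn_sq, mul_comm]
  · have h : Function.Involutive fun ε : ι → Bool => Function.update ε i (!ε i) :=
      fun ε => by simp
    have := Equiv.sum_comp (h.toPerm _) fun ε => sgn (ε i) * (sgn (ε j) * ⟪e j, e i⟫)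
    simp only [Function.Involutive.coe_toPerm, Function.update_self, Function.update_of_ne hj,
      sgn_not, neg_mul, sum_neg_distrib] at this
    linarith

variable (L : Submodule ℤ (E d)) [DiscreteTopology L] [IsZLattice ℝ L]

lemma real_space (hs : Sep (dualS (L : Set (E d)))) {φ g : E d → ℝ} {C : ℝ} (h : TP φ g C)
    {ι : Type*} [Fintype ι] [DecidableEq ι] (y : ι → E d) :
    ∑' x : dualS (L : Set (E d)), g x * Phi y x = 2 ^ d * ZLattice.covolume L volume *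
      Ex y fun z => ∑' x : L, φ ((2 : ℝ) • (x : E d) + z) := by
  have := (hasSum_sum fun (ε : ι → Bool) (_ : ε ∈ univ) =>
    poisson L hs h (∑ i, sgn (ε i) • y i)).tsum_eq
  have e := fun x => avg_cos y x 0
  simp only [zero_add, cos_zero, one_mul] at e
  simp only [← mul_sum, e, mul_left_comm (g _), tsum_mul_left] at this
  rw [Ex, ← mul_div_assoc, ← this]
  field_simp

lemma ball_count (ρ : ℝ) : ∃ N : ℕ, ∀ u : E d, ∃ F : Finset L, F.card ≤ N ∧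
    ∀ x : L, ‖(2 : ℝ) • (x : E d) + u‖ ≤ ρ → x ∈ F := by
  classical
  refine ⟨(lattice_finite L ρ).toFinset.card, fun u => ?_⟩
  by_cases h : ∃ x0 : L, ‖(2 : ℝ) • (x0 : E d) + u‖ ≤ ρ
  · obtain ⟨x0, h⟩ := h
    refine ⟨(lattice_finite L ρ).toFinset.image (· + x0), card_image_le, fun x hx =>
      mem_image.2 ⟨x - x0, (Set.Finite.mem_toFinset _).2 ?_, sub_add_cancel _ _⟩⟩
    have := norm_sub_le ((2 : ℝ) • (x : E d) + u) ((2 : ℝ) • (x0 : E d) + u)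
    rw [add_sub_add_right_eq_sub, ← smul_sub, norm_smul, Real.norm_two] at this
    change ‖(x : E d) - x0‖ ≤ ρ
    linarith
  · exact ⟨∅, by simp, fun x hx => (h ⟨x, hx⟩).elim⟩

lemma shell_bound (hd : 0 < d) (r K : ℝ) {η : ℝ} (hη : 0 < η) : ∃ m : ℕ, ∀ τ > 0, ∃ β > 0,
    ∀ (ι : Type) [Fintype ι] [DecidableEq ι] (a y : ι → E d), (∀ i, a i ∈ L) →
      ∑ i, ‖y i - a i‖ ^ 2 ≤ K → (∀ J : Finset ι, J.card ≤ m → τ ≤ ∑ i ∈ Jᶜ, ‖y i - a i‖ ^ 2) →
      ∀ ψ : E d → ℝ, (∀ x, ψ x ≤ 1) → (∀ x, ψ x ≠ 0 → |‖x‖ ^ 2 - r ^ 2| < β) →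
        (Ex y fun z => ∑' x : L, ψ ((2 : ℝ) • (x : E d) + z)) ≤ η := by
  obtain ⟨N1, h1⟩ := ball_count L (|r| + 1)
  obtain ⟨T, hT⟩ := exists_nat_gt (N1 * |K| * 2 / η)
  have hT0 : (0 : ℝ) < T := lt_of_le_of_lt (by positivity) hT
  have hT1 : (1 : ℝ) ≤ T := by exact_mod_cast Nat.cast_pos.1 hT0
  obtain ⟨N2, h2⟩ := ball_count L (|r| + 1 + T)
  obtain ⟨m, hm⟩ := sphere_ac hd (η := η / 2 / (N2 + 1)) (by positivity)
  refine ⟨m, fun τ hτ => ?_⟩
  obtain ⟨β, hβ, h3⟩ := hm τ hτ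
  refine ⟨min β 1, by positivity, fun ι _ _ a y ha hK hJ ψ p1 p2 => ?_⟩
  have p3 : ∀ x, ψ x ≠ 0 → ‖x‖ ≤ |r| + 1 := fun x hx => abs_le_of_sq_le_sq' (by
    nlinarith [(abs_lt.1 (lt_min_iff.1 (p2 x hx)).2).2, abs_nonneg r, sq_abs r]) (by positivity) |>.2
  obtain ⟨F, f1, f2⟩ := h2 (∑ i, a i)
  have key : ∀ z : E d, ∑' x : L, ψ ((2 : ℝ) • (x : E d) + (∑ i, a i + z)) ≤
      ∑ x ∈ F, (if |‖((2 : ℝ) • (x : E d) + ∑ i, a i) + z‖ ^ 2 - r ^ 2| < β then 1 else 0) +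
        N1 / T * ‖z‖ ^ 2 := fun z => by
    by_cases hz : ‖z‖ ≤ T
    · rw [tsum_eq_sum (s := F) fun x hx => by_contra fun h => hx (f2 x (by
        linarith [p3 _ h, norm_sub_le ((2 : ℝ) • (x : E d) + (∑ i, a i + z)) z,
          show ‖(2 : ℝ) • (x : E d) + ∑ i, a i‖ = ‖(2 : ℝ) • (x : E d) + (∑ i, a i + z) - z‖ by
            congr 1; abel]))]
      refine le_add_of_le_of_nonneg (sum_le_sum fun x _ => ?_) (by positivity)
      rw [add_assoc]
      split_ifs with h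
      · exact p1 _
      · exact (by_contra fun h' => h (lt_min_iff.1 (p2 _ h')).1 : ψ _ = 0).le
    · obtain ⟨G, g1, g2⟩ := h1 (∑ i, a i + z)
      rw [tsum_eq_sum (s := G) fun x hx => by_contra fun h => hx (g2 x (p3 _ h))]
      refine le_add_of_nonneg_of_le (sum_nonneg fun _ _ => by positivity)
        ((sum_le_card_nsmul _ _ _ fun _ _ => p1 _).trans ?_)
      rw [nsmul_eq_mul, mul_one, div_mul_eq_mul_div, le_div_iff₀ hT0]
      exact mul_le_mul (Nat.cast_le.2 g1) (by nlinarith [not_le.1 hz]) hT0.le (Nat.cast_nonneg _)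
  have e : (Ex y fun z => ∑' x : L, ψ ((2 : ℝ) • (x : E d) + z)) =
      Ex (fun i => y i - a i) fun z => ∑' x : L, ψ ((2 : ℝ) • (x : E d) + (∑ i, a i + z)) := by
    unfold Ex
    refine congrArg (· / _) (sum_congr rfl fun ε _ => ?_)
    beta_reduce
    rw [← (Equiv.addRight (∑ i, if ε i then 0 else (⟨a i, ha i⟩ : L))).tsum_eq]
    refine tsum_congr fun x => congrArg ψ ?_
    simp only [Equiv.coe_addRight, Submodule.coe_add, AddSubmonoidClass.coe_finsetSum, smul_add,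
      add_assoc, smul_sum, ← sum_add_distrib]
    refine congrArg _ (sum_congr rfl fun i _ => ?_)
    cases ε i <;> simp [sgn]
    module
  rw [e]
  refine (Ex_mono _ key).trans ?_
  have e2 : ∀ (f : L → E d → ℝ) (g : E d → ℝ), Ex (fun i => y i - a i)
      (fun z => ∑ x ∈ F, f x z + g z) = ∑ x ∈ F, Ex (fun i => y i - a i) (f x) +
        Ex (fun i => y i - a i) g := fun f g => by
    simp only [Ex, sum_add_distrib, add_div, ← sum_div]
    rw [sum_comm]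
  rw [e2, Ex_smul, second_moment]
  have b1 := sum_le_card_nsmul F _ _ fun (x : L) _ =>
    h3 ι _ hJ ((2 : ℝ) • (x : E d) + ∑ i, a i) (r ^ 2)
  have b2 : F.card • (η / 2 / (N2 + 1)) ≤ η / 2 := by
    rw [nsmul_eq_mul, ← mul_div_assoc, div_le_iff₀ (by positivity), mul_comm]
    gcongr
    exact_mod_cast f1.trans (Nat.le_succ _)
  have b3 : N1 / T * ∑ i, ‖y i - a i‖ ^ 2 ≤ η / 2 := by
    rw [div_lt_iff₀ hη] at hT
    rw [div_mul_eq_mul_div, div_le_iff₀ hT0]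
    linarith [mul_le_mul_of_nonneg_left (hK.trans (le_abs_self K)) (Nat.cast_nonneg (α := ℝ) N1)]
  linarith

end Pool.Agent.Lib.MP_3b7d13_co.Tr
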