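import Pool.Agent.Lib.MP_3b7d13_co.Defs

/-! The variational problem over lattices generated by unit vectors. -/

namespace Pool.Agent.Lib.MP_3b7d13_co

open MeasureTheory ProbabilityTheory
open scoped RealInnerProductSpace

/-- A lattice datum in dimension `d`: unit vectors `a i` generating a lattice, positive weights
`μ i` of sum one, drift vectors `η i`, and finitely many further unit vectors `w j`. -/
structure Datum (d : ℕ) where
  N : ℕ
  a : Fin N → EuclideanSpace ℝ (Fin d)
  μ : Fin N → ℝ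
  η : Fin N → EuclideanSpace ℝ (Fin d)
  k : ℕ
  w : Fin k → EuclideanSpace ℝ (Fin d)
  a_unit : ∀ i, ‖a i‖ = 1
  w_unit : ∀ j, ‖w j‖ = 1
  μ_pos : ∀ i, 0 < μ i
  μ_sum : ∑ i, μ i = 1
  discrete : DiscreteTopology (Submodule.span ℤ (Set.range a))
  spans : Submodule.span ℝ (Set.range a) = ⊤
  orth : ∀ x, ∑ i, (μ i * ⟪a i, x⟫) • η i = 0
  quad : ∃ T : EuclideanSpace ℝ (Fin d) →ₗ[ℝ] EuclideanSpace ℝ (Fin d),
    ∀ i, ⟪a i, η i⟫ = ⟪a i, T (a i)⟫

/-- The lattice generated by the vectors `a i`. -/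
def Datum.L {d : ℕ} (D : Datum d) : Submodule ℤ (EuclideanSpace ℝ (Fin d)) :=
  Submodule.span ℤ (Set.range D.a)

/-- The second moment matrix of the weighted vectors `a i`. -/
def Datum.M {d : ℕ} (D : Datum d) : Matrix (Fin d) (Fin d) ℝ :=
  Matrix.of fun s t => ∑ i, D.μ i * D.a i s * D.a i t

/-- The number of lattice points `x` such that `2 x + ∑ ± w j + ∑ √(μ i) g i η i` lies in the
closed ball of radius `r`. -/
noncomputable def Datum.count {d : ℕ} (D : Datum d) (r : ℝ) (ε : Fin D.k → Bool)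
    (g : Fin D.N → ℝ) : ENNReal :=
  (Set.encard {x : EuclideanSpace ℝ (Fin d) | x ∈ D.L ∧
    ‖(2 : ℝ) • x + ∑ j, sgn (ε j) • D.w j + ∑ i, (√(D.μ i) * g i) • D.η i‖ ≤ r} : ℕ∞)

/-- The value of a datum at radius `r`: the expected count, for uniform signs and independent
standard Gaussians `g i`, times `(2 / π) ^ (d / 2) * covol L / √(det M)`. -/
noncomputable def Datum.val {d : ℕ} (D : Datum d) (r : ℝ) : ENNReal :=
  ENNReal.ofReal ((2 / Real.pi) ^ ((d : ℝ) / 2) * ZLattice.covolume D.L volume / √D.M.det) *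
    ∫⁻ g, (∑ ε, D.count r ε g) / 2 ^ D.k ∂(Measure.pi fun _ => gaussianReal 0 1)

/-- There are unit vectors `a, w 0, ..., w (k - 1)` such that all the points
`2 j a + ∑ ± w i`, with `j` an integer, have norm larger than `r`. -/
def Blocked (d k : ℕ) (r : ℝ) : Prop :=
  ∃ (a : EuclideanSpace ℝ (Fin d)) (w : Fin k → EuclideanSpace ℝ (Fin d)),
    ‖a‖ = 1 ∧ (∀ i, ‖w i‖ = 1) ∧
      ∀ (j : ℤ) (ε : Fin k → Bool), r < ‖(2 * j : ℝ) • a + ∑ i, sgn (ε i) • w i‖

open Classical in
/-- The value of the variational problem for the parity class of `p`: zero if the radius is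
blocked for some `k ≡ p (mod 2)`, and otherwise the infimum of the values of all data with
`k ≡ p (mod 2)`. -/
noncomputable def Gam (d p : ℕ) (r : ℝ) : ENNReal :=
  if ∃ k, k % 2 = p % 2 ∧ Blocked d k r then 0
  else ⨅ D : {D : Datum d // D.k % 2 = p % 2}, D.1.val r

end Pool.Agent.Lib.MP_3b7d13_co
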