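import Pool.Agent.Lib.MP_3b7d13_co.VarUpper

/-! If the radius is not blocked, the small ball probability is at least a constant times the
Gaussian mass of the central peak. -/

namespace Pool.Agent.Lib.MP_3b7d13_co.Var

open Real Finset MeasureTheory Metric Filter Topology
open scoped RealInnerProductSpace

variable {d : ℕ}

lemma parity_sub {ι A : Type*} [DecidableEq ι] [Fintype A] [AddCommGroup A]
    (h2 : ∀ x : A, x + x = 0) (c : ι → A) (t : Finset ι) :
    ∃ t' ⊆ t, t'.card ≤ Fintype.card A ∧ ∑ i ∈ t', c i = ∑ i ∈ t, c i := by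
  induction t using Finset.strongInduction with
  | H t ih =>
    by_cases h : t.card ≤ Fintype.card A
    · exact ⟨t, Subset.rfl, h, rfl⟩
    obtain ⟨x, hx, y, hy, hxy, he⟩ := exists_ne_map_eq_of_card_lt_of_maps_to
      (t := (univ : Finset A)) (f := c) (by rw [card_univ]; exact not_le.1 h)
      (fun _ _ => mem_coe.2 (mem_univ _))
    have hy' : y ∈ t.erase x := mem_erase.2 ⟨hxy.symm, hy⟩
    obtain ⟨t', h1, h3, h4⟩ := ih ((t.erase x).erase y)
      ((erase_subset _ _).trans_ssubset (erase_ssubset hx))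
    refine ⟨t', h1.trans ((erase_subset _ _).trans (erase_subset _ _)), h3, ?_⟩
    rw [h4, ← add_sum_erase t c hx, ← add_sum_erase _ c hy', ← add_assoc, he, h2, zero_add]

lemma Ex_cond {ι : Type*} [Fintype ι] [DecidableEq ι] (v : ι → E d) (S : Finset ι)
    (ε0 : ι → Bool) {f : E d → ℝ} (hf : ∀ x, 0 ≤ f x) :
    Ex (fun i : {i // i ∉ S} => v i) (fun x => f (x + ∑ i ∈ S, sgn (ε0 i) • v i)) / 2 ^ S.card ≤
      Ex v f := by
  let e : ({i // i ∉ S} → Bool) → ι → Bool := fun ε i => if h : i ∈ S then ε0 i else ε ⟨i, h⟩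
  have he : Function.Injective e := fun ε ε' h => funext fun i => by
    simpa [e, i.2] using congrFun h i
  have hc : Fintype.card ι = Fintype.card {i // i ∉ S} + S.card := by
    rw [Fintype.card_subtype_compl, Fintype.card_coe, Nat.sub_add_cancel (card_le_univ S)]
  unfold Ex
  rw [div_div, ← pow_add, ← hc]
  gcongr
  rw [← sum_congr rfl fun ε _ => show f (∑ i, sgn (e ε i) • v i) = _ from ?_,
    ← sum_image (f := fun ε : ι → Bool => f (∑ i, sgn (ε i) • v i)) he.injOn]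
  · exact sum_le_sum_of_subset_of_nonneg (subset_univ _) fun _ _ _ => hf _
  · congr 1
    rw [← sum_add_sum_compl S, add_comm]
    congr 1
    · rw [sum_subtype (p := fun i => i ∉ S) Sᶜ (by simp)]
      exact sum_congr rfl fun i _ => by simp [e, i.2]
    · exact sum_congr rfl fun i hi => by simp [e, hi]

lemma Ex_smul {ι : Type*} [Fintype ι] [DecidableEq ι] (v : ι → E d) (c : ℝ) (f : E d → ℝ) :
    Ex v (fun x => c * f x) = c * Ex v f := by
  unfold Ex
  rw [← mul_sum, mul_div_assoc]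

lemma central {ι : Type*} [Fintype ι] {v : ι → E d} (hv : ∀ i, ‖v i‖ ≤ 1) {t : ℝ} (h0 : 0 < t)
    (h1 : t ≤ 1 / 8) : t ^ d * J v ≤ ∫ ξ in closedBall (0 : E d) (t / 4), |Phi v ξ| := by
  have e := Measure.integral_comp_smul (volume : Measure (E d))
    ((closedBall (0 : E d) (1 / 4)).indicator fun ω => exp (-qf v ω)) t⁻¹
  rw [integral_indicator measurableSet_closedBall, inv_pow, inv_inv,
    abs_of_pos (by positivity)] at e
  simp only [finrank_euclideanSpace, Fintype.card_fin, smul_eq_mul] at e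
  rw [J, ← e, ← integral_indicator measurableSet_closedBall]
  refine integral_mono_of_nonneg (ae_of_all _ fun ζ => Set.indicator_nonneg
    (fun _ _ => (exp_pos _).le) _) ((integrable_indicator_iff measurableSet_closedBall).2
      ((Phi_cont v).abs.continuousOn.integrableOn_compact (isCompact_closedBall _ _)))
      (ae_of_all _ fun ζ => ?_)
  beta_reduce
  by_cases h : t⁻¹ • ζ ∈ closedBall (0 : E d) (1 / 4)
  · have h2 : ‖ζ‖ ≤ t / 4 := by
      rw [mem_closedBall_zero_iff, norm_smul, Real.norm_of_nonneg (by positivity),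
        inv_mul_le_iff₀ h0] at h
      linarith
    rw [Set.indicator_of_mem h, Set.indicator_of_mem (mem_closedBall_zero_iff.2 h2)]
    refine le_trans ?_ (le_abs_self _)
    rw [qf_smul, qf, mul_sum, ← sum_neg_distrib, exp_sum, Phi]
    refine prod_le_prod (fun _ _ => (exp_pos _).le) fun i _ => le_trans ?_ (exp_le_cos ?_)
    · rw [exp_le_exp, neg_le_neg_iff, mul_pow]
      have : 2 * π ≤ t⁻¹ := by
        rw [le_inv_comm₀ (by positivity) h0]
        refine h1.trans ?_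
        rw [one_div]
        exact inv_anti₀ (by positivity) (by linarith [pi_le_four])
      gcongr
    · have := (abs_real_inner_le_norm ζ (v i)).trans (mul_le_of_le_one_right (norm_nonneg _) (hv i))
      rw [abs_mul, abs_of_pos (by positivity : 0 < 2 * π)]
      nlinarith [pi_le_four, pi_pos, abs_nonneg ⟪ζ, v i⟫]
  · rw [Set.indicator_of_notMem h]
    exact Set.indicator_nonneg (fun _ _ => abs_nonneg _) _

lemma pos_bound {ι : Type*} [Fintype ι] {v : ι → E d} (hv : ∀ i, ‖v i‖ ≤ 1) {φ g : E d → ℝ}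
    {C c t T R : ℝ} (h : TP φ g C) (hg : ∀ ξ, 0 ≤ g ξ) (hc : 0 ≤ c) (h0 : 0 < t) (h1 : t ≤ 1 / 8)
    (hcg : ∀ ξ, ‖ξ‖ ≤ t → c ≤ g ξ) (z : E d)
    (hs : ∀ ξ, ‖ξ‖ ≤ T → Q v ξ ≤ R → |Phi v ξ| / 2 ≤ cos (2 * π * ⟪ξ, z⟫) * Phi v ξ) :
    J v * (c * t ^ d / 2 - 3 / 2 * C * (cI d * exp (-R) + tail d T)) ≤
      ∫ ξ, g ξ * (cos (2 * π * ⟪ξ, z⟫) * Phi v ξ) := by
  let A : Set (E d) := {ξ | ‖ξ‖ ≤ T → R < Q v ξ}
  have hA : MeasurableSet A := by
    have : A = {ξ : E d | ‖ξ‖ ≤ T}ᶜ ∪ {ξ | R < Q v ξ} := by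
      ext ξ; simp only [A, Set.mem_ofPred_eq, Set.mem_union, Set.mem_compl_iff]; tauto
    rw [this]
    exact (isClosed_le continuous_norm continuous_const).measurableSet.compl.union
      (isOpen_lt continuous_const (Q_cont v)).measurableSet
  have i1 : Integrable fun ξ => g ξ * |Phi v ξ| :=
    h.int_mul (Phi_cont v).abs fun ξ => by rw [abs_abs]; exact abs_Phi_le_one _ _
  have i2 : Integrable fun ξ => wt ξ * |Phi v ξ| :=
    wt_integrable.mul_bdd (Phi_cont v).abs.aestronglyMeasurable (ae_of_all _ fun ξ => by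
      rw [Real.norm_eq_abs, abs_abs]; exact abs_Phi_le_one _ _)
  have hb : ∀ ξ, |cos (2 * π * ⟪ξ, z⟫) * Phi v ξ| ≤ |Phi v ξ| := fun ξ => by
    rw [abs_mul]; exact mul_le_of_le_one_left (abs_nonneg _) (abs_cos_le_one _)
  have i3 : Integrable fun ξ => g ξ * (cos (2 * π * ⟪ξ, z⟫) * Phi v ξ) :=
    h.int_mul (Continuous.mul (by fun_prop) (Phi_cont v)) fun ξ =>
      (hb ξ).trans (abs_Phi_le_one _ _)
  have a1 : c * (t ^ d * J v) ≤ ∫ ξ, g ξ * |Phi v ξ| := by
    refine (mul_le_mul_of_nonneg_left (central hv h0 h1) hc).trans ?_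
    rw [← integral_const_mul]
    refine le_trans (setIntegral_mono_on (((Phi_cont v).abs.const_mul
      c).continuousOn.integrableOn_compact (isCompact_closedBall _ _)) i1.integrableOn
      measurableSet_closedBall fun ξ hξ => ?_) (setIntegral_le_integral i1
        (ae_of_all _ fun ξ => mul_nonneg (hg ξ) (abs_nonneg _)))
    exact mul_le_mul_of_nonneg_right (hcg ξ ((mem_closedBall_zero_iff.1 hξ).trans (by linarith)))
      (abs_nonneg _)
  have a2 := mul_le_mul_of_nonneg_left (conc hv hA (T := T) (R := R) fun ξ h1 h2 => (h1 h2).le)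
    h.C_nonneg
  have a3 : ∫ ξ, (1 / 2 * (g ξ * |Phi v ξ|) - 3 / 2 * C * A.indicator
      (fun ξ => wt ξ * |Phi v ξ|) ξ) ≤ ∫ ξ, g ξ * (cos (2 * π * ⟪ξ, z⟫) * Phi v ξ) := by
    refine integral_mono ((i1.const_mul _).sub ((i2.indicator hA).const_mul _)) i3 fun ξ => ?_
    beta_reduce
    by_cases hξ : ξ ∈ A
    · rw [Set.indicator_of_mem hξ]
      have b1 := mul_le_mul_of_nonneg_right ((le_abs_self _).trans (h.dec ξ)) (abs_nonneg (Phi v ξ))
      have b2 := mul_le_mul_of_nonneg_left (neg_le_of_abs_le (hb ξ)) (hg ξ)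
      nlinarith
    · rw [Set.indicator_of_notMem hξ]
      simp only [A, Set.mem_ofPred_eq, Classical.not_imp, not_lt] at hξ
      have := mul_le_mul_of_nonneg_left (hs ξ hξ.1 hξ.2) (hg ξ)
      nlinarith
  rw [integral_sub (i1.const_mul _) ((i2.indicator hA).const_mul _), integral_const_mul,
    integral_const_mul, integral_indicator hA] at a3
  nlinarith

lemma neg_one_zpow_eq {a b : ℤ} (h : (a : ZMod 2) = b) : (-1 : ℝ) ^ a = (-1) ^ b := by
  obtain ⟨c, hc⟩ := (ZMod.intCast_eq_intCast_iff_dvd_sub _ _ _).1 h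
  rw [show b = a + 2 * c by push_cast at hc; linarith, zpow_add₀ (by norm_num), zpow_mul]
  simp

lemma prod_neg_one_zpow {ι : Type*} (s : Finset ι) (m : ι → ℤ) :
    ∏ i ∈ s, (-1 : ℝ) ^ m i = (-1) ^ ∑ i ∈ s, m i := by
  classical
  induction s using Finset.induction_on with
  | empty => simp
  | insert a s ha ih => rw [prod_insert ha, sum_insert ha, ih, zpow_add₀ (by norm_num)]

lemma sign_ok {ι : Type*} [Fintype ι] (v : ι → E d) (ξ z : E d) (m : ι → ℤ) (m0 : ℤ)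
    (h1 : ∀ i, |2 * ⟪ξ, v i⟫ - m i| ≤ 1 / 2) (h2 : |2 * ⟪ξ, z⟫ - m0| ≤ 1 / 3)
    (h3 : (m0 : ZMod 2) = (∑ i, m i : ℤ)) :
    |Phi v ξ| / 2 ≤ cos (2 * π * ⟪ξ, z⟫) * Phi v ξ := by
  have hp := pi_pos
  have a1 : 0 ≤ ∏ i, cos (π * (2 * ⟪ξ, v i⟫ - m i)) := prod_nonneg fun i _ => by
    have := abs_le.1 (h1 i)
    exact cos_nonneg_of_mem_Icc ⟨by nlinarith, by nlinarith⟩
  have a2 : 1 / 2 ≤ cos (π * (2 * ⟪ξ, z⟫ - m0)) := by
    rw [← cos_abs, ← cos_pi_div_three, abs_mul, abs_of_pos hp]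
    exact cos_le_cos_of_nonneg_of_le_pi (by positivity) (by linarith) (by nlinarith)
  rw [Phi_eq_sign v ξ m, abs_mul, abs_sign, one_mul, abs_of_nonneg a1,
    show 2 * π * ⟪ξ, z⟫ = π * (2 * ⟪ξ, z⟫ - m0) + m0 * π by ring, cos_add_int_mul_pi,
    prod_neg_one_zpow, ← neg_one_zpow_eq h3]
  have : (-1 : ℝ) ^ m0 * (-1) ^ m0 = 1 := by rw [← mul_zpow]; simp
  calc _ ≤ cos (π * (2 * ⟪ξ, z⟫ - m0)) * ∏ i, cos (π * (2 * ⟪ξ, v i⟫ - m i)) := by nlinarith
    _ = ((-1 : ℝ) ^ m0 * (-1) ^ m0) * _ := by rw [this, one_mul]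
    _ = _ := by ring

lemma eigen {ι : Type*} [Fintype ι] (v : ι → E d) : ∃ e : OrthonormalBasis (Fin d) ℝ (E d),
    ∀ l ω, qf v (e l) * ⟪ω, e l⟫ ^ 2 ≤ qf v ω := by
  let N : E d →ₗ[ℝ] E d := ∑ i, (innerSL ℝ (v i)).toLinearMap.smulRight (v i)
  have hN : ∀ x y, ⟪y, N x⟫ = ∑ i, ⟪y, v i⟫ * ⟪x, v i⟫ := fun x y => by
    simp only [N, LinearMap.sum_apply, LinearMap.smulRight_apply, inner_sum,
      real_inner_smul_right, ContinuousLinearMap.coe_coe, innerSL_apply_apply]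
    exact sum_congr rfl fun i _ => by rw [real_inner_comm x, mul_comm]
  have hs : N.IsSymmetric := fun x y => by
    rw [real_inner_comm, hN, hN]; exact sum_congr rfl fun i _ => mul_comm _ _
  have hn : Module.finrank ℝ (E d) = d := by simp
  refine ⟨hs.eigenvectorBasis hn, fun l ω => ?_⟩
  set e := hs.eigenvectorBasis hn l
  have h1 : N e = hs.eigenvalues hn l • e := hs.apply_eigenvectorBasis hn l
  have h2 : qf v e = hs.eigenvalues hn l := by
    have := hN e e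
    rw [h1, real_inner_smul_right, real_inner_self_eq_norm_sq,
      (hs.eigenvectorBasis hn).orthonormal.1 l] at this
    simp only [qf, sq]; linarith
  have h3 := hN e ω
  rw [h1, real_inner_smul_right, ← h2] at h3
  have h4 := sum_mul_sq_le_sq_mul_sq univ (fun i => ⟪ω, v i⟫) fun i => ⟪e, v i⟫
  rw [← h3] at h4
  rcases (qf_nonneg v e).eq_or_lt with h | h
  · rw [← h, zero_mul]; exact qf_nonneg _ _
  · refine le_of_mul_le_mul_left ?_ h
    calc _ = (qf v e * ⟪ω, e⟫) ^ 2 := by ring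
      _ ≤ _ := h4
      _ = _ := mul_comm _ _

lemma unblocked {ι : Type*} {v : ι → E d} (hv : ∀ i, ‖v i‖ = 1) (W : Finset ι) (i0 : ι) {s : ℝ}
    (h : ¬Blocked d W.card s) :
    ∃ (j : ℤ) (ε : ι → Bool), ‖(2 * j : ℝ) • v i0 + ∑ i ∈ W, sgn (ε i) • v i‖ ≤ s := by
  classical
  simp only [Blocked, not_exists, not_and, not_forall, not_lt] at h
  obtain ⟨j, ε, h⟩ := h (v i0) (fun t => v (W.equivFin.symm t)) (hv _) fun _ => hv _
  refine ⟨j, fun i => if hi : i ∈ W then ε (W.equivFin ⟨i, hi⟩) else true, le_trans (le_of_eq ?_) h⟩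
  congr 2
  rw [← sum_coe_sort W, ← W.equivFin.symm.sum_comp]
  exact sum_congr rfl fun t _ => by simp

variable {κ : Type*} {ι : κ → Type*} [∀ k, Fintype (ι k)]

lemma bdd_or (𝒰 : Ultrafilter κ) (f : κ → ℝ) :
    (∃ C, ∀ᶠ k in 𝒰, f k ≤ C) ∨ Tendsto f 𝒰 atTop := by
  by_cases h : ∃ C, ∀ᶠ k in 𝒰, f k ≤ C
  · exact Or.inl h
  refine Or.inr (tendsto_atTop.2 fun C => ?_)
  exact (Ultrafilter.eventually_not.2 fun h' => h ⟨C, h'⟩).mono fun k hk => (not_le.1 hk).le

lemma active (𝒰 : Ultrafilter κ) (v : ∀ k, ι k → E d) (β : E d) :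
    ∃ (ξ : κ → E d) (C : ℝ), (∀ᶠ k in 𝒰, Q (v k) (ξ k) ≤ C) ∧
      ∀ R : ℝ, ∀ᶠ k in 𝒰, ∀ y ∈ ball β (1 / 8), Q (v k) y ≤ R → ‖y - ξ k‖ ≤ 1 / 4 := by
  by_cases h : ∃ C, ∀ᶠ k in 𝒰, ∃ y ∈ ball β (1 / 8), Q (v k) y ≤ C
  · obtain ⟨C, h⟩ := h
    obtain ⟨ξ, hξ⟩ := Eventually.choice h
    refine ⟨ξ, C, hξ.mono fun k hk => hk.2, fun R => hξ.mono fun k hk y hy _ => ?_⟩
    rw [← dist_eq_norm]
    linarith [dist_triangle_right y (ξ k) β, mem_ball.1 hy, mem_ball.1 hk.1]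
  · refine ⟨0, 0, Eventually.of_forall fun k => by simp [Q], fun R => ?_⟩
    exact (Ultrafilter.eventually_not.2 fun h' => h ⟨R, h'⟩).mono fun k hk y hy hR =>
      (hk ⟨y, hy, hR⟩).elim

lemma small_dir (𝒰 : Ultrafilter κ) {v : ∀ k, ι k → E d} (hv : ∀ k i, ‖v k i‖ ≤ 1) :
    ∃ (H : ∀ k, ι k → ℝ) (C : ℝ), (∀ᶠ k in 𝒰, ∑ i, H k i ^ 2 ≤ C) ∧
      ∀ R δ : ℝ, 0 < δ → ∀ᶠ k in 𝒰, ∀ ω, ‖ω‖ ≤ 1 → qf (v k) ω ≤ R →
        ∀ i, |⟪ω, v k i⟫| ≤ H k i + δ := by
  choose e he using fun k => eigen (v k)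
  have key : ∀ l, ∃ (u : κ → E d) (C : ℝ), (∀ᶠ k in 𝒰, qf (v k) (u k) ≤ C) ∧
      ∀ R δ : ℝ, 0 < δ → ∀ᶠ k in 𝒰, ∀ ω, ‖ω‖ ≤ 1 → qf (v k) ω ≤ R →
        ∀ i, |⟪ω, e k l⟫ * ⟪e k l, v k i⟫| ≤ |⟪u k, v k i⟫| + δ := fun l => by
    rcases bdd_or 𝒰 fun k => qf (v k) (e k l) with ⟨C, h⟩ | h
    · refine ⟨fun k => e k l, C, h, fun R δ hδ => Eventually.of_forall fun k ω h1 _ i => ?_⟩
      have := abs_real_inner_le_norm ω (e k l)
      rw [(e k).orthonormal.1 l, mul_one] at this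
      rw [abs_mul]
      nlinarith [abs_nonneg ⟪e k l, v k i⟫]
    · refine ⟨0, 0, Eventually.of_forall fun k => by simp [qf], fun R δ hδ => ?_⟩
      filter_upwards [h.eventually_gt_atTop (|R| / δ ^ 2)] with k hk ω _ h2 i
      have h3 := abs_real_inner_le_norm (e k l) (v k i)
      rw [(e k).orthonormal.1 l, one_mul] at h3
      have h4 : |⟪ω, e k l⟫| ≤ δ := by
        refine abs_le_of_sq_le_sq ?_ hδ.le
        by_contra h5
        rw [div_lt_iff₀ (by positivity)] at hk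
        nlinarith [he k l ω, le_abs_self R, qf_nonneg (v k) (e k l)]
      rw [abs_mul]
      simp only [Pi.zero_apply, inner_zero_left, abs_zero, zero_add]
      nlinarith [abs_nonneg ⟪e k l, v k i⟫, hv k i, abs_nonneg ⟪ω, e k l⟫]
  choose u C h1 h2 using key
  refine ⟨fun k i => ∑ l, |⟪u l k, v k i⟫|, d * ∑ l, C l, ?_, fun R δ hδ => ?_⟩
  · filter_upwards [eventually_all.2 h1] with k hk
    refine (sum_le_sum fun i _ => sq_sum_le_card_mul_sum_sq).trans ?_
    rw [← mul_sum, sum_comm, card_univ, Fintype.card_fin]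
    gcongr with l
    simpa only [sq_abs, qf] using hk l
  · filter_upwards [eventually_all.2 fun l => h2 l R (δ / (d + 1)) (by positivity)]
      with k hk ω h3 h4 i
    rw [← (e k).sum_inner_mul_inner]
    refine (abs_sum_le_sum_abs _ _).trans ((sum_le_sum fun l _ => hk l ω h3 h4 i).trans ?_)
    rw [sum_add_distrib, sum_const, card_univ, Fintype.card_fin, nsmul_eq_mul, mul_div_assoc']
    gcongr
    rw [div_le_iff₀ (by positivity)]
    nlinarith

lemma peaks (𝒰 : Ultrafilter κ) {v : ∀ k, ι k → E d} (hv : ∀ k i, ‖v k i‖ ≤ 1) (T : ℝ) :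
    ∃ (N : ℕ) (m : ∀ k, ι k → Fin N → ℤ) (H : ∀ k, ι k → ℝ) (C : ℝ),
      (∀ᶠ k in 𝒰, ∑ i, H k i ^ 2 ≤ C) ∧ ∀ R δ : ℝ, 0 < δ → ∀ᶠ k in 𝒰, ∀ ξ, ‖ξ‖ ≤ T →
        Q (v k) ξ ≤ R → ∃ β, ∀ i, |2 * ⟪ξ, v k i⟫ - m k i β| ≤ H k i + δ := by
  obtain ⟨Z, -, hZ, hc⟩ := finite_cover_balls_of_compact (isCompact_closedBall (0 : E d) T)
    (e := 1 / 8) (by norm_num)
  obtain ⟨N, β, -, hβ⟩ := hZ.fin_param
  choose ξ C h1 h2 using fun j => active 𝒰 v (β j)
  obtain ⟨H, C', h3, h4⟩ := small_dir 𝒰 hv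
  refine ⟨N, fun k i j => round (2 * ⟪ξ j k, v k i⟫), fun k i =>
    ∑ j, |2 * ⟪ξ j k, v k i⟫ - round (2 * ⟪ξ j k, v k i⟫)| + 2 * H k i,
    2 * (N * ∑ j, C j) + 8 * C', ?_, fun R δ hδ => ?_⟩
  · filter_upwards [eventually_all.2 h1, h3] with k hk hk'
    have : ∑ i, (∑ j, |2 * ⟪ξ j k, v k i⟫ - round (2 * ⟪ξ j k, v k i⟫)|) ^ 2 ≤ N * ∑ j, C j := by
      refine (sum_le_sum fun i _ => sq_sum_le_card_mul_sum_sq).trans ?_
      rw [← mul_sum, sum_comm, card_univ, Fintype.card_fin]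
      gcongr with j
      simpa only [sq_abs, Q_eq_round] using hk j
    refine le_trans (sum_le_sum fun i _ => show _ ≤ 2 * (∑ j, |2 * ⟪ξ j k, v k i⟫ -
      round (2 * ⟪ξ j k, v k i⟫)|) ^ 2 + 8 * H k i ^ 2 from ?_) ?_
    · nlinarith [sq_nonneg (∑ j, |2 * ⟪ξ j k, v k i⟫ - round (2 * ⟪ξ j k, v k i⟫)| - 2 * H k i)]
    · rw [sum_add_distrib, ← mul_sum, ← mul_sum]
      linarith
  · filter_upwards [h1 |> eventually_all.2, eventually_all.2 fun j => h2 j R,
      eventually_all.2 fun j => h4 (R + C j) (δ / 2) (by positivity)] with k a1 a2 a3 y hy hR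
    obtain ⟨z, hz, hyz⟩ := Set.mem_iUnion₂.1 (hc (mem_closedBall_zero_iff.2 hy))
    obtain ⟨j, rfl⟩ := hβ.ge hz
    have b1 := a2 j y hyz hR
    have b2 := Q_sub_le (v k) y (ξ j k)
    rw [Q_small (hv k) b1] at b2
    refine ⟨j, fun i => ?_⟩
    have b3 := a3 j (y - ξ j k) (by linarith)
      (by linarith [a1 j, Q_nonneg (v k) y, Q_nonneg (v k) (ξ j k)]) i
    have b4 := single_le_sum (f := fun j => |2 * ⟪ξ j k, v k i⟫ - round (2 * ⟪ξ j k, v k i⟫)|)
      (fun _ _ => abs_nonneg _) (mem_univ j)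
    rw [inner_sub_left] at b3
    rw [abs_le] at b3 ⊢
    have b5 := abs_le.1 b4
    constructor <;> linarith

lemma J_sub {ι : Type*} [Fintype ι] [DecidableEq ι] (v : ι → E d) (S : Finset ι) :
    J v ≤ J fun i : {i // i ∉ S} => v i := by
  refine integral_mono (J_integrable _ _ _) (J_integrable _ _ _) fun ω => ?_
  simp only [exp_le_exp, neg_le_neg_iff, qf]
  rw [← sum_subtype (p := fun i => i ∉ S) Sᶜ (by simp) fun i => ⟪ω, v i⟫ ^ 2]
  exact sum_le_sum_of_subset_of_nonneg (subset_univ _) fun _ _ _ => sq_nonneg _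

lemma Q_sub {ι : Type*} [Fintype ι] [DecidableEq ι] (v : ι → E d) (S : Finset ι) (ξ : E d) :
    Q v ξ ≤ Q (fun i : {i // i ∉ S} => v i) ξ + S.card := by
  unfold Q
  rw [← sum_subtype (p := fun i => i ∉ S) Sᶜ (by simp)
    fun i => ‖((2 * ⟪ξ, v i⟫ : ℝ) : UnitAddCircle)‖ ^ 2, ← sum_compl_add_sum S]
  gcongr
  refine (sum_le_card_nsmul _ _ 1 fun i _ => ?_).trans (by simp)
  have := AddCircle.norm_le_half_period (1 : ℝ) (x := ((2 * ⟪ξ, v i⟫ : ℝ) : UnitAddCircle))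
    one_ne_zero
  rw [abs_one] at this
  exact pow_le_one₀ (norm_nonneg _) (by linarith)

lemma card_large {ι : Type*} [Fintype ι] (H : ι → ℝ) {C θ : ℝ} (h : ∑ i, H i ^ 2 ≤ C)
    (hθ : 0 < θ) (S : Finset ι) (hS : ∀ i ∈ S, θ < H i) : (S.card : ℝ) ≤ C / θ ^ 2 := by
  rw [le_div_iff₀ (by positivity)]
  refine le_trans ?_ ((sum_le_sum_of_subset_of_nonneg (subset_univ S)
    fun _ _ _ => sq_nonneg _).trans h)
  rw [← nsmul_eq_mul]
  exact card_nsmul_le_sum _ _ _ fun i hi => by gcongr; exact (hS i hi).le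

theorem degen (𝒰 : Ultrafilter κ) [∀ k, DecidableEq (ι k)] {v : ∀ k, ι k → E d}
    (hv : ∀ k i, ‖v k i‖ = 1) (hn : Tendsto (fun k => (Fintype.card (ι k) : ℝ)) 𝒰 atTop)
    {s r : ℝ} (hsr : s < r)
    (hb : ∀ᶠ k in 𝒰, ∀ j, j % 2 = Fintype.card (ι k) % 2 → ¬Blocked d j s) :
    ∃ c > 0, ∀ᶠ k in 𝒰, c * J (v k) ≤ Ex (v k) fun x => if ‖x‖ ≤ r then 1 else 0 := by
  obtain ⟨φ, g, C, B, c, ρ, h, hB, h0, hg, hc, hρ, hcg⟩ :=
    exists_pos_bump (d := d) (sub_pos.2 hsr)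
  set t := min ρ (1 / 8)
  have ht : 0 < t := lt_min hρ (by norm_num)
  have t1 : Tendsto (fun T => 3 / 2 * C * (cI d * exp (-T) + tail d T)) atTop (𝓝 0) := by
    simpa using ((tendsto_exp_neg_atTop_nhds_zero.const_mul (cI d)).add (tail_tendsto d)).const_mul
      (3 / 2 * C)
  obtain ⟨T, hT⟩ := (t1.eventually (gt_mem_nhds (show 0 < c * t ^ d / 4 by positivity))).exists
  obtain ⟨N, m, H, C0, h1, h2⟩ := peaks 𝒰 (fun k i => (hv k i).le) T
  set K : ℝ := (Fintype.card (Option (Fin N) → ZMod 2) : ℝ)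
  have hK : 0 ≤ K := Nat.cast_nonneg _
  set θ := 1 / (12 * (K + 1)) with hθ'
  have hθ : 0 < θ := by positivity
  set C1 := |C0| / θ ^ 2
  have hC1 : 0 ≤ C1 := by positivity
  set δ := θ / (|s| + C1 + K + 1) with hδ'
  have hδ : 0 < δ := by positivity
  have e1 : θ * (K + 1) = 1 / 12 := by rw [hθ']; field_simp
  have e2 : δ * (|s| + C1 + K + 1) = θ := by rw [hδ']; field_simp
  refine ⟨c * t ^ d / 4 / (|B| + 1) / 2 ^ ⌊C1⌋₊, by positivity, ?_⟩
  filter_upwards [hb, h1, h2 (T + C1) δ hδ, hn.eventually_gt_atTop (C0 / δ ^ 2)]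
    with k a1 a2 a3 a4
  obtain ⟨i0, hi0⟩ : ∃ i, H k i ≤ δ := by
    by_contra h'
    push Not at h'
    exact (card_large _ a2 hδ univ fun i _ => h' i).not_gt a4
  set S := univ.filter fun i => θ < H k i
  have hS : (S.card : ℝ) ≤ C1 :=
    card_large _ (a2.trans (le_abs_self _)) hθ S fun i hi => (mem_filter.1 hi).2
  have hS' : ∀ i, i ∉ S → H k i ≤ θ := fun i hi => by simpa [S] using hi
  obtain ⟨W, hW1, hW2, hW3⟩ := parity_sub (A := Option (Fin N) → ZMod 2)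
    (fun x => funext fun o => CharTwo.add_self_eq_zero _)
    (fun i o => o.elim 1 fun β => m k i β) Sᶜ
  have hW2' : (W.card : ℝ) ≤ K := Nat.cast_le.2 hW2
  have hd : Disjoint S W := disjoint_left.2 fun i hi hi' => mem_compl.1 (hW1 hi') hi
  have hpar : (S ∪ W).card % 2 = Fintype.card (ι k) % 2 := by
    have := congrFun hW3 none
    simp only [Finset.sum_apply, Option.elim_none, sum_const, nsmul_eq_mul, mul_one] at this
    have h3 := (ZMod.natCast_eq_natCast_iff' _ _ _).1 this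
    have h4 := card_add_card_compl S
    rw [card_union_of_disjoint hd]
    omega
  obtain ⟨j, ε, hj⟩ := unblocked (hv k) _ i0 (a1 _ hpar)
  have hsg : ∀ b, |sgn b| = 1 := fun b => by cases b <;> simp [sgn]
  have hj2 : |(2 * j : ℝ)| ≤ |s| + C1 + K := by
    have b1 : ‖∑ i ∈ S ∪ W, sgn (ε i) • v k i‖ ≤ C1 + K := by
      refine (norm_sum_le _ _).trans ?_
      simp only [norm_smul, Real.norm_eq_abs, hsg, hv, mul_one, sum_const, nsmul_eq_mul,
        card_union_of_disjoint hd, Nat.cast_add]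
      linarith
    have b2 := norm_sub_le ((2 * j : ℝ) • v k i0 + ∑ i ∈ S ∪ W, sgn (ε i) • v k i)
      (∑ i ∈ S ∪ W, sgn (ε i) • v k i)
    rw [add_sub_cancel_right, norm_smul, hv, mul_one, Real.norm_eq_abs] at b2
    linarith [le_abs_self s]
  rw [sum_union hd] at hj
  set z := (2 * j : ℝ) • v k i0 + ∑ i ∈ W, sgn (ε i) • v k i with hz
  set u := fun i : {i // i ∉ S} => v k i
  have hδθ : δ ≤ θ := by nlinarith [abs_nonneg s]
  have key := pos_bound (v := u) (fun i => (hv k i).le) h hg hc.le ht (min_le_right _ _)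
    (fun ξ hξ => hcg ξ (hξ.trans (min_le_left _ _))) z (T := T) (R := T) fun ξ b1 b2 => by
      obtain ⟨β, hβ⟩ := a3 ξ b1 ((Q_sub _ S ξ).trans (add_le_add b2 hS))
      refine sign_ok u ξ z (fun i => m k i β)
        (2 * j * m k i0 β + ∑ i ∈ W, (if ε i then 1 else -1) * m k i β) (fun i => ?_) ?_ ?_
      · refine (hβ i).trans ?_
        nlinarith [hS' i i.2]
      · have e3 : 2 * ⟪ξ, z⟫ - ((2 * j * m k i0 β +
            ∑ i ∈ W, (if ε i then 1 else -1) * m k i β : ℤ) : ℝ) =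
            2 * j * (2 * ⟪ξ, v k i0⟫ - m k i0 β) +
              ∑ i ∈ W, sgn (ε i) * (2 * ⟪ξ, v k i⟫ - m k i β) := by
          simp only [hz, inner_add_right, inner_sum, real_inner_smul_right, mul_sub,
            sum_sub_distrib, mul_add, mul_sum, sgn]
          push_cast
          simp only [mul_left_comm (2 : ℝ)]
          ring
        rw [e3]
        refine (abs_add_le _ _).trans ?_
        have b3 : |∑ i ∈ W, sgn (ε i) * (2 * ⟪ξ, v k i⟫ - m k i β)| ≤ K * (2 * θ) := by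
          refine (abs_sum_le_sum_abs _ _).trans ((sum_le_card_nsmul _ _ (2 * θ) fun i hi => ?_).trans
            ?_)
          · rw [abs_mul, hsg, one_mul]
            linarith [hβ i, hS' i (mem_compl.1 (hW1 hi))]
          · rw [nsmul_eq_mul]; gcongr
        have b4 : |2 * j * (2 * ⟪ξ, v k i0⟫ - m k i0 β)| ≤ (|s| + C1 + K) * (2 * δ) := by
          rw [abs_mul]
          gcongr
          linarith [hβ i0]
        nlinarith
      · have := congrFun hW3 (some β)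
        simp only [Finset.sum_apply, Option.elim_some] at this
        rw [← sum_subtype (p := fun i => i ∉ S) Sᶜ (by simp) fun i => m k i β]
        push_cast
        rw [← this, show (2 : ZMod 2) = 0 from rfl, zero_mul, zero_mul, zero_add]
        refine sum_congr rfl fun i _ => ?_
        split_ifs
        · rw [one_mul]
        · rw [neg_one_mul, CharTwo.neg_eq]
  rw [← h.Ex_shift] at key
  refine le_trans ?_ (Ex_cond (v k) S ε fun x => by positivity)
  have b5 : Ex u (fun x => φ (x - z)) ≤ (|B| + 1) * Ex u fun x =>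
      if ‖x + ∑ i ∈ S, sgn (ε i) • v k i‖ ≤ r then 1 else 0 := by
    rw [← Ex_smul]
    refine Ex_mono _ fun x => ?_
    split_ifs with hx
    · linarith [hB (x - z), le_abs_self B]
    · rw [mul_zero, h0]
      have := norm_add_le (x - z) ((2 * j : ℝ) • v k i0 +
        (∑ i ∈ S, sgn (ε i) • v k i + ∑ i ∈ W, sgn (ε i) • v k i))
      rw [show x - z + ((2 * j : ℝ) • v k i0 + (∑ i ∈ S, sgn (ε i) • v k i +
        ∑ i ∈ W, sgn (ε i) • v k i)) = x + ∑ i ∈ S, sgn (ε i) • v k i by rw [hz]; abel] at this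
      linarith [not_le.1 hx]
  have b6 : c * t ^ d / 4 * J (v k) ≤ Ex u fun x => φ (x - z) := by
    refine le_trans ?_ key
    rw [mul_comm]
    exact mul_le_mul (J_sub _ S) (by linarith) (by positivity) (J_nonneg _)
  have b7 := (div_le_iff₀' (by positivity : 0 < |B| + 1)).2 (b6.trans b5)
  have b8 := J_nonneg (v k)
  calc _ = c * t ^ d / 4 * J (v k) / (|B| + 1) / 2 ^ ⌊C1⌋₊ := by ring
    _ ≤ _ := div_le_div₀ (le_trans (by positivity) b7) b7 (by positivity)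
        (pow_le_pow_right₀ one_le_two (Nat.le_floor hS))

lemma qf_add_le {ι : Type*} [Fintype ι] (v : ι → E d) (x y : E d) :
    qf v (x + y) ≤ 2 * qf v x + 2 * qf v y := by
  simp only [qf, mul_sum, ← sum_add_distrib, inner_add_left]
  exact sum_le_sum fun i _ => by nlinarith [sq_nonneg (⟪x, v i⟫ - ⟪y, v i⟫)]

lemma rt_sq (ι : Type*) [Fintype ι] : rt ι ^ 2 = Fintype.card ι := sq_sqrt (Nat.cast_nonneg _)

lemma qf_le {ι : Type*} [Fintype ι] {v : ι → E d} (hv : ∀ i, ‖v i‖ ≤ 1) (x : E d) :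
    qf v x ≤ (rt ι * ‖x‖) ^ 2 := by
  rw [mul_pow, rt_sq, ← card_univ, ← nsmul_eq_mul]
  refine sum_le_card_nsmul _ _ _ fun i _ => sq_le_sq' ?_ ?_ <;>
    linarith [abs_le.1 ((abs_real_inner_le_norm x (v i)).trans
      (mul_le_of_le_one_right (norm_nonneg _) (hv i)))]

theorem posDef_of_bdd {l : Filter κ} [l.NeBot] {v : ∀ k, ι k → E d} (hv : ∀ k i, ‖v k i‖ ≤ 1)
    (hn : Tendsto (fun k => rt (ι k)) l atTop) {M : Mat d}
    (hMl : Tendsto (fun k => emp (v k)) l (𝓝 M)) {C : ℝ}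
    (hC : ∀ᶠ k in l, rt (ι k) ^ d * J (v k) ≤ C) : M.PosDef := by
  have hq : ∀ ζ, Tendsto (fun k => qm (emp (v k)) ζ) l (𝓝 (qm M ζ)) := fun ζ =>
    (qm_cont.tendsto (M, ζ)).comp (hMl.prodMk_nhds tendsto_const_nhds)
  have hH : M.IsHermitian := by
    refine Matrix.IsHermitian.ext fun p q => ?_
    refine tendsto_nhds_unique (tendsto_pi_nhds.1 (tendsto_pi_nhds.1 hMl q) p) ?_
    refine (tendsto_pi_nhds.1 (tendsto_pi_nhds.1 hMl p) q).congr fun k => ?_
    exact ((mom_herm _ _).apply p q).symm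
  refine posDef_of_qm hH fun ζ0 hζ => lt_of_not_ge fun h0 => ?_
  have hn0 := norm_pos_iff.2 hζ
  set ζ := ‖ζ0‖⁻¹ • ζ0
  have h1 : ‖ζ‖ = 1 := by simp [ζ, norm_smul, hn0.ne']
  have h2 : qm M ζ ≤ 0 := by
    rw [qm_smul]; exact mul_nonpos_of_nonneg_of_nonpos (sq_nonneg _) h0
  set V := (volume : Measure (E d)).real (ball 0 1)
  have hV : 0 < V := ENNReal.toReal_pos (measure_ball_pos _ _ one_pos).ne' measure_ball_lt_top.ne
  obtain ⟨L, hL⟩ := exists_nat_gt (C / (V * exp (-4)))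
  rw [div_lt_iff₀ (by positivity)] at hL
  obtain ⟨k, a1, a2, a3⟩ := (hC.and ((hn.eventually_gt_atTop (8 * L + 4)).and
    ((hq ζ).eventually (gt_mem_nhds (h2.trans_lt
      (show (0 : ℝ) < 1 / (2 * L + 1) ^ 2 by positivity)))))).exists
  set t := rt (ι k)
  have hL0 : (0 : ℝ) ≤ L := Nat.cast_nonneg L
  have ht : 0 < t := by linarith
  let c : ℕ → E d := fun j => (2 * j : ℝ) • t⁻¹ • ζ
  have hc : ∀ i j : ℕ, dist (c i) (c j) = 2 * |(i : ℝ) - j| * t⁻¹ := fun i j => by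
    rw [dist_eq_norm, ← sub_smul, norm_smul, norm_smul, h1, ← mul_sub, Real.norm_eq_abs, abs_mul,
      Real.norm_of_nonneg (by positivity), abs_two, mul_one]
  have b1 : ∑ j ∈ range L, ∫ ω in ball (c j) t⁻¹, exp (-qf (v k) ω) ≤ J (v k) := by
    have hsub : ⋃ j ∈ range L, ball (c j) t⁻¹ ⊆ closedBall 0 (1 / 4) := by
      refine Set.iUnion₂_subset fun j hj => ball_subset_closedBall.trans
        (closedBall_subset_closedBall' ?_)
      have hj' : (j : ℝ) ≤ L := by exact_mod_cast (mem_range.1 hj).le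
      have := hc j 0
      simp only [c, Nat.cast_zero, mul_zero, zero_smul, sub_zero, Nat.abs_cast] at this
      rw [this, show t⁻¹ + 2 * j * t⁻¹ = (2 * j + 1) / t by ring, div_le_iff₀ ht]
      linarith
    rw [← integral_biUnion_finset _ (fun _ _ => measurableSet_ball)
      (fun i _ j _ hij => ball_disjoint_ball ?_)
      fun j _ => (J_integrable _ _ _).mono_set ball_subset_closedBall]
    · exact setIntegral_mono_set (J_integrable _ _ _) (ae_of_all _ fun _ => (exp_pos _).le)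
        hsub.eventuallyLE
    · have : (1 : ℝ) ≤ |(i : ℝ) - j| := by
        exact_mod_cast Int.one_le_abs (sub_ne_zero.2 (show (i : ℤ) ≠ j by exact_mod_cast hij))
      rw [hc]
      nlinarith [inv_pos.2 ht]
  have b2 : ∀ j ∈ range L, exp (-4) * (t⁻¹ ^ d * V) ≤ ∫ ω in ball (c j) t⁻¹, exp (-qf (v k) ω) := by
    intro j hj
    have hj' : (j : ℝ) ≤ L := by exact_mod_cast (mem_range.1 hj).le
    have e : (volume : Measure (E d)).real (ball (c j) t⁻¹) = t⁻¹ ^ d * V := by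
      rw [Measure.real, Measure.addHaar_ball_of_pos _ _ (inv_pos.2 ht), ENNReal.toReal_mul,
        ENNReal.toReal_ofReal (by positivity)]
      simp [V, Measure.real]
    rw [← e]
    refine setIntegral_ge_of_const_le_real measurableSet_ball measure_ball_lt_top.ne (fun ω hω => ?_)
      ((J_integrable _ _ _).mono_set ball_subset_closedBall)
    have c1 := qf_add_le (v k) (c j) (ω - c j)
    have c2 := qf_le (hv k) (ω - c j)
    have c3 : t * ‖ω - c j‖ ≤ 1 := by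
      rw [← le_div_iff₀' ht, one_div]; exact (mem_ball_iff_norm.1 hω).le
    have c4 : qf (v k) (c j) ≤ 1 := by
      rw [qf_smul, ← qm_emp]
      rw [lt_div_iff₀ (by positivity)] at a3
      have : 0 ≤ qm (emp (v k)) ζ := by rw [qm_emp]; exact qf_nonneg _ _
      have : (2 * j : ℝ) ^ 2 ≤ (2 * L + 1) ^ 2 := by gcongr; linarith
      nlinarith
    rw [add_sub_cancel] at c1
    rw [exp_le_exp]
    nlinarith [pow_le_one₀ (by positivity) c3 (n := 2)]
  have b3 := (card_nsmul_le_sum _ _ _ b2).trans b1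
  rw [card_range, nsmul_eq_mul] at b3
  have b4 := (mul_le_mul_of_nonneg_left b3 (pow_pos ht d).le).trans a1
  rw [show t ^ d * (L * (exp (-4) * (t⁻¹ ^ d * V))) = (t * t⁻¹) ^ d * (L * (V * exp (-4))) by
    ring, mul_inv_cancel₀ ht.ne', one_pow, one_mul] at b4
  linarith

end Pool.Agent.Lib.MP_3b7d13_co.Var
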