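import Pool.Agent.Lib.MP_3b7d13_co.VarPart

/-! The lower bound when the limiting dual group spans the space. -/

namespace Pool.Agent.Lib.MP_3b7d13_co.Var

open Real Finset MeasureTheory Metric Filter Topology Module
open scoped RealInnerProductSpace

variable {d : ℕ}

lemma cls {ι : Type*} (t : Finset ι) (z : ι → E d) {x : E d} (S : E d →L[ℝ] E d) {C δ : ℝ}
    (hx : ‖x‖ = 1) (hu : ∀ i ∈ t, ‖S (x + z i)‖ = 1) (hC : ∑ i ∈ t, ‖z i‖ ^ 2 ≤ C) (hC1 : 1 ≤ C)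
    (hG : ∀ u w, |⟪S u, S w⟫ - ⟪u, w⟫| ≤ δ * (‖u‖ * ‖w‖)) (hδ : 0 < δ) (hn : C ≤ δ ^ 2 * t.card)
    {h : E d} (hh : (t.card : ℝ) • h = ∑ i ∈ t, z i) :
    t.card * ‖h‖ ^ 2 ≤ C ∧ ‖h‖ ≤ δ ∧
      t.card * (2 * ⟪x, h⟫ + (⟪S x, S x⟫ - 1)) ^ 2 ≤ 20 * C ^ 3 * δ ^ 2 ∧
      ∑ i ∈ t, (‖x + z i - h‖ ^ 2 - 1) ^ 2 ≤ 136 * C ^ 3 * δ ^ 2 := by
  set n : ℝ := (t.card : ℝ) with hn'
  have hn0 : 0 < n := by by_contra h'; nlinarith [sq_pos_of_pos hδ]
  have a1 : (∑ i ∈ t, ‖z i‖) ^ 2 ≤ n * C :=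
    sq_sum_le_card_mul_sum_sq.trans (mul_le_mul_of_nonneg_left hC hn0.le)
  have a2 : n * ‖h‖ ^ 2 ≤ C := by
    have : n * ‖h‖ ≤ ∑ i ∈ t, ‖z i‖ := by
      rw [← Real.norm_of_nonneg hn0.le, ← norm_smul, hh]; exact norm_sum_le _ _
    refine le_of_mul_le_mul_left ?_ hn0
    nlinarith [mul_self_le_mul_self (by positivity) this]
  have a3 : ‖h‖ ≤ δ := abs_le_of_sq_le_sq' (by nlinarith) hδ.le |>.2
  set b := 2 * ⟪x, h⟫ + (⟪S x, S x⟫ - 1) with hb
  let γ : ι → ℝ := fun i => 2 * ⟪x, z i⟫ + ‖z i‖ ^ 2 + (⟪S x, S x⟫ - 1)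
  have a4 : ∀ i ∈ t, |γ i| ≤ 3 * C * δ * ‖z i‖ := fun i hi => by
    have b1 := hu i hi
    rw [← sq_eq_sq₀ (norm_nonneg _) zero_le_one, map_add, norm_add_sq_real,
      ← real_inner_self_eq_norm_sq, ← real_inner_self_eq_norm_sq (S (z i))] at b1
    have b2 := abs_le.1 (hG x (z i))
    have b3 := abs_le.1 (hG (z i) (z i))
    rw [real_inner_self_eq_norm_sq (z i)] at b3
    have b4 : ‖z i‖ ≤ C := abs_le_of_sq_le_sq' (by
      nlinarith [single_le_sum (f := fun i => ‖z i‖ ^ 2) (fun _ _ => sq_nonneg _) hi])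
        (by linarith) |>.2
    have b5 : δ * (‖z i‖ * ‖z i‖) ≤ C * δ * ‖z i‖ := by
      nlinarith [mul_nonneg hδ.le (norm_nonneg (z i))]
    have b6 : δ * ‖z i‖ ≤ C * δ * ‖z i‖ := by nlinarith [mul_nonneg hδ.le (norm_nonneg (z i))]
    rw [hx, one_mul] at b2
    simp only [γ]
    rw [abs_le]
    constructor <;> linarith
  have a5 : n * b ^ 2 ≤ 20 * C ^ 3 * δ ^ 2 := by
    have b1 : n * b = ∑ i ∈ t, γ i - ∑ i ∈ t, ‖z i‖ ^ 2 := by
      simp only [γ, sum_add_distrib, ← mul_sum, ← inner_sum, ← hh, real_inner_smul_right,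
        sum_const, nsmul_eq_mul, hb]
      ring
    have b2 : |∑ i ∈ t, γ i| ≤ 3 * C * δ * ∑ i ∈ t, ‖z i‖ := by
      rw [mul_sum]; exact (abs_sum_le_sum_abs _ _).trans (sum_le_sum a4)
    have b3 : (∑ i ∈ t, γ i) ^ 2 ≤ (3 * C * δ) ^ 2 * (n * C) := by
      rw [← sq_abs]
      refine (pow_le_pow_left₀ (abs_nonneg _) b2 2).trans ?_
      rw [mul_pow]; gcongr
    have b4 : (∑ i ∈ t, ‖z i‖ ^ 2) ^ 2 ≤ C ^ 3 * (δ ^ 2 * n) := by
      refine (pow_le_pow_left₀ (sum_nonneg fun _ _ => sq_nonneg _) hC 2).trans ?_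
      nlinarith [mul_le_mul_of_nonneg_left hn (show 0 ≤ C ^ 3 by positivity),
        mul_le_mul_of_nonneg_left hC1 (show 0 ≤ C ^ 2 by positivity),
        mul_le_mul_of_nonneg_left hC1 (show 0 ≤ C ^ 3 by positivity)]
    refine le_of_mul_le_mul_left ?_ hn0
    rw [← mul_assoc, ← sq, ← mul_pow, b1]
    nlinarith [sq_nonneg (∑ i ∈ t, γ i + ∑ i ∈ t, ‖z i‖ ^ 2)]
  refine ⟨a2, a3, a5, ?_⟩
  have a6 : ∀ i ∈ t, (‖x + z i - h‖ ^ 2 - 1) ^ 2 ≤
      4 * ((9 * C ^ 2 + 4) * δ ^ 2) * ‖z i‖ ^ 2 + 4 * (b ^ 2 + ‖h‖ ^ 2 * δ ^ 2) := fun i hi => by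
    have e : ‖x + z i - h‖ ^ 2 - 1 = γ i - b - 2 * ⟪z i, h⟫ + ‖h‖ ^ 2 := by
      rw [norm_sub_sq_real, norm_add_sq_real, hx, inner_add_left, hb]; ring
    have b1 : γ i ^ 2 ≤ (3 * C * δ * ‖z i‖) ^ 2 := sq_le_sq' (abs_le.1 (a4 i hi)).1 (abs_le.1 (a4 i hi)).2
    have b2 : ⟪z i, h⟫ ^ 2 ≤ (‖z i‖ * δ) ^ 2 := by
      rw [← sq_abs]
      exact pow_le_pow_left₀ (abs_nonneg _) ((abs_real_inner_le_norm _ _).trans (by gcongr)) 2
    have b3 : (‖h‖ ^ 2) ^ 2 ≤ ‖h‖ ^ 2 * δ ^ 2 := by rw [sq (‖h‖ ^ 2)]; gcongr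
    rw [e]
    nlinarith [sq_nonneg (γ i + b), sq_nonneg (γ i + 2 * ⟪z i, h⟫), sq_nonneg (γ i - ‖h‖ ^ 2),
      sq_nonneg (b - 2 * ⟪z i, h⟫), sq_nonneg (b + ‖h‖ ^ 2), sq_nonneg (2 * ⟪z i, h⟫ + ‖h‖ ^ 2)]
  refine (sum_le_sum a6).trans ?_
  rw [sum_add_distrib, ← mul_sum, sum_const, nsmul_eq_mul]
  have b1 := mul_le_mul_of_nonneg_left hC (show 0 ≤ 4 * ((9 * C ^ 2 + 4) * δ ^ 2) by positivity)
  have b2 := mul_le_mul_of_nonneg_right a2 (sq_nonneg δ)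
  have b3 : C * δ ^ 2 ≤ C ^ 3 * δ ^ 2 := by gcongr; nlinarith
  nlinarith

lemma core {ι β : Type*} [Fintype ι] [Fintype β] [DecidableEq β] {a : β → E d} (c : ι → β)
    (y : ι → E d) (S : E d →L[ℝ] E d) {C δ e : ℝ} (ha : ∀ b, ‖a b‖ = 1) (hu : ∀ i, ‖S (y i)‖ = 1)
    (hC : ∑ i, ‖y i - a (c i)‖ ^ 2 ≤ C) (hC1 : 1 ≤ C)
    (hF : ∀ x, ‖∑ i, ⟪a (c i), x⟫ • (y i - a (c i))‖ ≤ C * ‖x‖)
    (hG : ∀ u w, |⟪S u, S w⟫ - ⟪u, w⟫| ≤ δ * (‖u‖ * ‖w‖)) (hδ : 0 < δ) (hδ1 : δ ≤ 1)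
    {μ : β → ℝ} (hμ : ∀ b, μ b = (univ.filter fun i => c i = b).card / Fintype.card ι)
    (hn : ∀ b, C ≤ δ ^ 2 * (univ.filter fun i => c i = b).card) (hn' : C ≤ δ ^ 2 * Fintype.card ι)
    (he : 0 < e) (hco : ∀ ζ, e * ‖ζ‖ ^ 2 ≤ ∑ b, μ b * ⟪ζ, a b⟫ ^ 2) :
    ∃ (η : β → E d) (w h : ι → E d), (∀ i, ‖w i‖ = 1) ∧ (∀ x, ∑ b, (μ b * ⟪a b, x⟫) • η b = 0) ∧
      (∃ T : E d →ₗ[ℝ] E d, ∀ b, ⟪a b, η b⟫ = ⟪a b, T (a b)⟫) ∧
      ∑ i, ‖w i - (y i - h i)‖ ^ 2 ≤ Fintype.card β * (136 * C ^ 3 * δ ^ 2) ∧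
      (∀ x, ∑ i, ⟪x, y i - a (c i) - h i⟫ * ⟪x, h i⟫ = 0) ∧ (∀ i, ‖h i‖ ≤ δ) ∧
      ∑ i, ‖h i‖ ^ 2 ≤ Fintype.card β * C ∧
      ∀ x, |∑ b, μ b * ⟪x, η b⟫ ^ 2 - ∑ i, ⟪x, h i⟫ ^ 2| ≤ ‖x‖ ^ 2 * ((21 * Fintype.card β * C ^ 3 +
        4 * ((C + 3 * Fintype.card β * C ^ 2) / e) ^ 2) * δ) := by
  set N : ℝ := (Fintype.card β : ℝ) with hN
  let t : β → Finset ι := fun b => univ.filter fun i => c i = b
  let n : β → ℝ := fun b => (t b).card
  have hn0 : ∀ b, 0 < n b := fun b => by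
    by_contra h'; nlinarith [sq_pos_of_pos hδ, hn b]
  set r := rt ι
  have hr2 : r ^ 2 = Fintype.card ι := rt_sq ι
  have hr : 0 < r := sqrt_pos.2 (by by_contra h'; nlinarith [sq_pos_of_pos hδ])
  have hμ' : ∀ b, μ b * r ^ 2 = n b := fun b => by
    rw [hμ, ← hr2, div_mul_cancel₀ _ (by positivity)]
  have hμ0 : ∀ b, 0 ≤ μ b := fun b => by rw [hμ]; positivity
  have hfib : ∀ {M : Type} [AddCommMonoid M] (F : β → ι → M),
      ∑ i, F (c i) i = ∑ b, ∑ i ∈ t b, F b i := fun F => by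
    rw [← sum_fiberwise univ c]
    exact sum_congr rfl fun b _ => sum_congr rfl fun i hi => by rw [(mem_filter.1 hi).2]
  have hμ1 : ∑ b, μ b = 1 := by
    have := hfib fun _ _ => (1 : ℝ)
    simp only [sum_const, nsmul_eq_mul, mul_one, card_univ] at this
    simp only [hμ, ← sum_div]
    rw [← this, div_self (by rw [← hr2]; positivity)]
  obtain ⟨h, hh⟩ : ∃ h : β → E d, ∀ b, n b • h b = ∑ i ∈ t b, (y i - a b) :=
    ⟨_, fun b => smul_inv_smul₀ (hn0 b).ne' _⟩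
  have k := fun b => cls (t b) (fun i => y i - a b) S (ha b) (fun i _ => by simp [hu])
    (le_trans (single_le_sum (f := fun b => ∑ i ∈ t b, ‖y i - a b‖ ^ 2)
      (fun _ _ => sum_nonneg fun _ _ => sq_nonneg _) (mem_univ b))
        ((hfib fun b i => ‖y i - a b‖ ^ 2) ▸ hC)) hC1 hG hδ (hn b) (hh b)
  simp only [add_sub_cancel] at k
  choose w hw1 hw2 using fun i => exists_unit (ha (c i)) (y i - h (c i))
  let q : β → ℝ := fun b => 2 * ⟪a b, h b⟫ + (⟪S (a b), S (a b)⟫ - 1)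
  let η : β → E d := fun b => r • h b - (r * q b / 2) • a b
  let F : E d →ₗ[ℝ] E d := ∑ b, μ b • (innerSL ℝ (a b)).toLinearMap.smulRight (η b)
  have hF1 : ∀ x, F x = ∑ b, (μ b * ⟪a b, x⟫) • η b := fun x => by
    simp [F, LinearMap.sum_apply, smul_smul]
  obtain ⟨G, -, hG1, hG2⟩ := solve μ a he hco
  have hq : ∀ b, μ b * (r * q b) ^ 2 ≤ 20 * C ^ 3 * δ ^ 2 := fun b => by
    rw [mul_pow, ← mul_assoc, hμ']; exact (k b).2.2.1
  have hF2 : ∀ x, ‖F x‖ ≤ (C + 3 * N * C ^ 2) * δ * ‖x‖ := fun x => by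
    have e1 : F x = r⁻¹ • ∑ i, ⟪a (c i), x⟫ • (y i - a (c i)) -
        ∑ b, (μ b * ⟪a b, x⟫ * (r * q b / 2)) • a b := by
      rw [hfib fun b i => ⟪a b, x⟫ • (y i - a b), hF1, smul_sum, ← sum_sub_distrib]
      refine sum_congr rfl fun b _ => ?_
      rw [← smul_sum, ← hh, ← hμ']
      simp only [η, smul_sub, smul_smul]
      congr 2
      field_simp
    have e2 : r⁻¹ * C ≤ C * δ := by
      rw [inv_mul_le_iff₀ hr]
      refine abs_le_of_sq_le_sq' ?_ (by positivity) |>.2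
      rw [mul_pow, hr2]
      nlinarith [mul_le_mul_of_nonneg_left (hC1.trans hn') (sq_nonneg C)]
    have e3 : ∀ b, ‖(μ b * ⟪a b, x⟫ * (r * q b / 2)) • a b‖ ≤ 3 * C ^ 2 * δ * ‖x‖ := fun b => by
      have b1 : μ b ≤ 1 := hμ1 ▸ single_le_sum (fun b _ => hμ0 b) (mem_univ b)
      have b2 : |μ b * (r * q b)| ≤ 6 * C ^ 2 * δ := abs_le_of_sq_le_sq (by
        have : C ^ 3 * δ ^ 2 ≤ C ^ 4 * δ ^ 2 := by gcongr; norm_num
        nlinarith [mul_le_mul b1 (hq b) (mul_nonneg (hμ0 b) (sq_nonneg _)) zero_le_one,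
          show 0 ≤ C ^ 4 * δ ^ 2 by positivity]) (by positivity)
      have b3 := abs_real_inner_le_norm (a b) x
      rw [ha, one_mul] at b3
      rw [norm_smul, ha, mul_one, Real.norm_eq_abs, show μ b * ⟪a b, x⟫ * (r * q b / 2) =
        μ b * (r * q b) * ⟪a b, x⟫ / 2 by ring, abs_div, abs_mul, abs_two]
      linarith [mul_le_mul b2 b3 (abs_nonneg _) (by positivity)]
    rw [e1]
    refine (norm_sub_le _ _).trans ?_
    have e4 := (norm_sum_le _ _).trans (sum_le_card_nsmul univ _ _ fun b _ => e3 b)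
    rw [card_univ, nsmul_eq_mul] at e4
    rw [norm_smul, Real.norm_of_nonneg (by positivity)]
    nlinarith [mul_le_mul_of_nonneg_left (hF x) (inv_pos.2 hr).le,
      mul_le_mul_of_nonneg_right e2 (norm_nonneg x)]
  refine ⟨fun b => η b - F (G (a b)), w, fun i => h (c i), hw1, fun x => ?_,
    ⟨(-(r / 2)) • ((ContinuousLinearMap.adjoint S ∘L S).toLinearMap - LinearMap.id) - F ∘ₗ G,
      fun b => ?_⟩, ?_, fun x => ?_, fun i => (k _).2.1, ?_, fun x => ?_⟩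
  · simp only [smul_sub, sum_sub_distrib, ← hF1, ← map_smul, ← map_sum, hG1, sub_self]
  · simp only [η, q, inner_sub_right, real_inner_smul_right, LinearMap.sub_apply,
      LinearMap.smul_apply, ContinuousLinearMap.coe_coe, ContinuousLinearMap.comp_apply,
      ContinuousLinearMap.adjoint_inner_right, LinearMap.id_apply, LinearMap.comp_apply,
      real_inner_self_eq_norm_sq (a b), ha]
    ring
  · refine (sum_le_sum fun i _ => (pow_le_pow_left₀ (norm_nonneg _) (hw2 i) 2).trans_eq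
      (sq_abs _)).trans ?_
    rw [hfib fun b i => (‖y i - h b‖ ^ 2 - 1) ^ 2, hN, ← card_univ, ← nsmul_eq_mul]
    exact sum_le_card_nsmul _ _ _ fun b _ => (k b).2.2.2
  · rw [hfib fun b i => ⟪x, y i - a b - h b⟫ * ⟪x, h b⟫]
    refine sum_eq_zero fun b _ => ?_
    rw [← sum_mul, ← inner_sum, sum_sub_distrib, ← hh, sum_const, ← Nat.cast_smul_eq_nsmul ℝ,
      sub_self, inner_zero_right, zero_mul]
  · rw [hfib fun b i => ‖h b‖ ^ 2, hN, ← card_univ, ← nsmul_eq_mul]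
    exact sum_le_card_nsmul _ _ _ fun b _ => by simpa using (k b).1
  · set K := (C + 3 * N * C ^ 2) / e
    rw [hfib fun b i => ⟪x, h b⟫ ^ 2, ← sum_sub_distrib]
    refine (abs_sum_le_sum_abs _ _).trans ((sum_le_sum fun b _ => show _ ≤ ‖x‖ ^ 2 *
      ((21 * C ^ 3 + 4 * K ^ 2 * μ b) * δ) from ?_).trans (le_of_eq ?_))
    · set u := -((r * q b / 2) • a b) - F (G (a b)) with hu'
      have b1 : ‖F (G (a b))‖ ≤ K * δ := by
        refine (hF2 _).trans ((mul_le_mul_of_nonneg_left (hG2 _) (by positivity)).trans_eq ?_)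
        rw [ha]; simp only [K]; ring
      have b2 : μ b * ‖u‖ ^ 2 ≤ (10 * C ^ 3 + 2 * K ^ 2 * μ b) * δ ^ 2 := by
        have b3 : ‖u‖ ≤ |r * q b| / 2 + K * δ := by
          refine (norm_sub_le _ _).trans (add_le_add (le_of_eq ?_) b1)
          rw [norm_neg, norm_smul, ha, mul_one, Real.norm_eq_abs, abs_div, abs_two]
        have b4 : ‖u‖ ^ 2 ≤ (r * q b) ^ 2 / 2 + 2 * (K * δ) ^ 2 := by
          rw [← sq_abs (r * q b)]
          nlinarith [pow_le_pow_left₀ (norm_nonneg _) b3 2, sq_nonneg (|r * q b| / 2 - K * δ)]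
        nlinarith [mul_le_mul_of_nonneg_left b4 (hμ0 b), hq b]
      have b3 : μ b * (r * ‖h b‖) ^ 2 ≤ C := by rw [mul_pow, ← mul_assoc, hμ']; exact (k b).1
      have b4 : η b - F (G (a b)) = r • h b + u := by simp only [η, hu']; abel
      have b5 := abs_real_inner_le_norm x u
      have b6 : |r * ⟪x, h b⟫| ≤ ‖x‖ * (r * ‖h b‖) := by
        rw [abs_mul, abs_of_pos hr, mul_left_comm]
        exact mul_le_mul_of_nonneg_left (abs_real_inner_le_norm _ _) hr.le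
      beta_reduce
      rw [sum_const, nsmul_eq_mul, b4, inner_add_right, real_inner_smul_right,
        show ((t b).card : ℝ) = μ b * r ^ 2 from (hμ' b).symm,
        show μ b * (r * ⟪x, h b⟫ + ⟪x, u⟫) ^ 2 - μ b * r ^ 2 * ⟪x, h b⟫ ^ 2 =
          μ b * (⟪x, u⟫ * (⟪x, u⟫ + 2 * (r * ⟪x, h b⟫))) by ring, abs_mul, abs_of_nonneg (hμ0 b),
        abs_mul]
      have b7 : |⟪x, u⟫| * |⟪x, u⟫ + 2 * (r * ⟪x, h b⟫)| ≤
          ‖x‖ * ‖u‖ * (‖x‖ * ‖u‖ + 2 * (‖x‖ * (r * ‖h b‖))) := by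
        gcongr
        refine (abs_add_le _ _).trans ?_
        rw [abs_mul 2, abs_two]
        linarith
      refine (mul_le_mul_of_nonneg_left b7 (hμ0 b)).trans ?_
      rw [show μ b * (‖x‖ * ‖u‖ * (‖x‖ * ‖u‖ + 2 * (‖x‖ * (r * ‖h b‖)))) =
        ‖x‖ ^ 2 * (μ b * (‖u‖ ^ 2 + 2 * ‖u‖ * (r * ‖h b‖))) by ring]
      refine mul_le_mul_of_nonneg_left (le_of_mul_le_mul_left ?_ hδ) (sq_nonneg _)
      have b8 : δ * (‖u‖ ^ 2 + 2 * ‖u‖ * (r * ‖h b‖)) ≤ 2 * ‖u‖ ^ 2 + δ ^ 2 * (r * ‖h b‖) ^ 2 := by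
        nlinarith [sq_nonneg (‖u‖ - δ * (r * ‖h b‖)), sq_nonneg ‖u‖]
      have b9 : C * δ ^ 2 ≤ C ^ 3 * δ ^ 2 := by gcongr; exact le_self_pow₀ hC1 (by norm_num)
      nlinarith [mul_le_mul_of_nonneg_left b8 (hμ0 b), mul_le_mul_of_nonneg_left b3 (sq_nonneg δ)]
    · rw [← mul_sum, ← sum_mul, sum_add_distrib, sum_const, ← mul_sum, hμ1, card_univ,
        nsmul_eq_mul]
      ring

lemma abs_exp_sub {x y : ℝ} (hx : 0 ≤ x) (hy : 0 ≤ y) : |exp (-x) - exp (-y)| ≤ |x - y| := by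
  wlog h : x ≤ y generalizing x y
  · rw [abs_sub_comm, abs_sub_comm x]; exact this hy hx (le_of_not_ge h)
  rw [abs_of_nonneg (sub_nonneg.2 (exp_le_exp.2 (neg_le_neg h))), abs_sub_comm,
    abs_of_nonneg (sub_nonneg.2 h), show -y = -x + (x - y) by ring, exp_add]
  nlinarith [add_one_le_exp (x - y), exp_pos (-x), exp_le_one_iff.2 (neg_nonpos.2 hx)]

lemma sum_inner_sq_le {ι : Type*} [Fintype ι] (x : E d) (u : ι → E d) {C : ℝ}
    (h : ∑ i, ‖u i‖ ^ 2 ≤ C) : ∑ i, (2 * π * ⟪x, u i⟫) ^ 2 ≤ (2 * π * ‖x‖) ^ 2 * C := by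
  refine le_trans ?_ (mul_le_mul_of_nonneg_left h (sq_nonneg _))
  rw [mul_sum]
  refine sum_le_sum fun i _ => ?_
  rw [← mul_pow, ← sq_abs, abs_mul, abs_of_pos two_pi_pos, mul_assoc (2 * π)]
  gcongr
  exact abs_real_inner_le_norm _ _

lemma phi_close {ι : Type*} [Fintype ι] {p y w h : ι → E d} {x : E d} {C A δ q : ℝ} (hq : 0 ≤ q)
    (hp : ∀ i, ∃ m : ℤ, 2 * ⟪x, p i⟫ = m) (h1 : ∑ i, ‖y i - p i‖ ^ 2 ≤ C)
    (h2 : ∑ i, ‖h i‖ ^ 2 ≤ C) (h3 : ∑ i, ‖w i - (y i - h i)‖ ^ 2 ≤ A)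
    (h4 : ∑ i, ⟪x, y i - p i - h i⟫ * ⟪x, h i⟫ = 0) (hδ : 0 ≤ δ) (h5 : ∀ i, ‖h i‖ ≤ δ) :
    |Phi w x * exp (-(2 * π ^ 2) * q) - Phi y x| ≤ 10 * (2 * π * ‖x‖) ^ 3 * C * δ +
      √((2 * π * ‖x‖) ^ 2 * A) * √((2 * π * ‖x‖) ^ 2 * (4 * C)) + (2 * π * ‖x‖) ^ 2 * A +
        2 * π ^ 2 * |q - ∑ i, ⟪x, h i⟫ ^ 2| := by
  choose m hm using hp
  have h6 : ∑ i, ‖y i - p i - h i‖ ^ 2 ≤ 4 * C := by
    refine (sum_le_sum fun i _ => show _ ≤ 2 * ‖y i - p i‖ ^ 2 + 2 * ‖h i‖ ^ 2 from ?_).trans ?_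
    · nlinarith [pow_le_pow_left₀ (norm_nonneg _) (norm_sub_le (y i - p i) (h i)) 2,
        sq_nonneg (‖y i - p i‖ - ‖h i‖)]
    · rw [sum_add_distrib, ← mul_sum, ← mul_sum]; linarith
  have a1 := sum_inner_sq_le x _ h6
  have a2 := sum_inner_sq_le x _ h2
  have a3 := sum_inner_sq_le x _ h3
  set L := 2 * π * ‖x‖
  have hL : 0 ≤ L := by positivity
  have a4 := prod_cos_approx (fun i => 2 * π * ⟪x, y i - p i - h i⟫) (fun i => 2 * π * ⟪x, h i⟫)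
    (m := L * δ) fun i => by
      rw [abs_mul, abs_of_pos two_pi_pos, mul_assoc (2 * π)]
      gcongr
      exact (abs_real_inner_le_norm _ _).trans (by gcongr; exact h5 i)
  have a5 := prod_cos_perturb (fun i => 2 * π * ⟪x, y i - p i - h i⟫)
    fun i => 2 * π * ⟪x, w i - (y i - h i)⟫
  have a6 := abs_exp_sub (x := 2 * π ^ 2 * q) (y := 2 * π ^ 2 * ∑ i, ⟪x, h i⟫ ^ 2) (by positivity)
    (by positivity)
  have e1 : ∑ i, 2 * π * ⟪x, y i - p i - h i⟫ * (2 * π * ⟪x, h i⟫) = 0 := by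
    rw [← mul_zero ((2 * π) ^ 2 : ℝ), ← h4, mul_sum]
    exact sum_congr rfl fun i _ => by ring
  have e2 : -(∑ i, (2 * π * ⟪x, h i⟫) ^ 2) / 2 = -(2 * π ^ 2 * ∑ i, ⟪x, h i⟫ ^ 2) := by
    simp only [mul_pow, ← mul_sum]; ring
  rw [e1, e2, abs_zero, zero_add] at a4
  rw [← mul_sub, abs_mul, abs_of_pos (show 0 < 2 * π ^ 2 by positivity)] at a6
  rw [Phi_eq_sign w x m, Phi_eq_sign y x m, mul_assoc, ← mul_sub, abs_mul, abs_sign, one_mul,
    prod_congr rfl fun i _ => show cos (π * (2 * ⟪x, w i⟫ - m i)) = cos (2 * π *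
      ⟪x, y i - p i - h i⟫ + 2 * π * ⟪x, w i - (y i - h i)⟫) by
        rw [← hm]; simp only [inner_sub_right]; congr 1; ring,
    prod_congr rfl fun i _ => show cos (π * (2 * ⟪x, y i⟫ - m i)) = cos (2 * π *
      ⟪x, y i - p i - h i⟫ + 2 * π * ⟪x, h i⟫) by
        rw [← hm]; simp only [inner_sub_right]; congr 1; ring, neg_mul]
  set P0 := ∏ i, cos (2 * π * ⟪x, y i - p i - h i⟫)
  set P1 := ∏ i, cos (2 * π * ⟪x, y i - p i - h i⟫ + 2 * π * ⟪x, w i - (y i - h i)⟫)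
  set P2 := ∏ i, cos (2 * π * ⟪x, y i - p i - h i⟫ + 2 * π * ⟪x, h i⟫)
  set u := exp (-(2 * π ^ 2 * q))
  set u' := exp (-(2 * π ^ 2 * ∑ i, ⟪x, h i⟫ ^ 2))
  have b1 : |P0| ≤ 1 := abs_prod_le_one _ _ fun _ => abs_cos_le_one _
  have b2 : |u| ≤ 1 := by
    rw [abs_of_pos (exp_pos _)]; exact exp_le_one_iff.2 (neg_nonpos.2 (by positivity))
  rw [show P1 * u - P2 = (P1 - P0) * u + P0 * (u - u') - (P2 - u' * P0) by ring]
  refine (abs_sub _ _).trans ((add_le_add_left (abs_add_le _ _) _).trans ?_)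
  rw [abs_mul, abs_mul]
  have b3 := mul_le_of_le_one_right (abs_nonneg (P1 - P0)) b2
  have b4 := mul_le_of_le_one_left (abs_nonneg (u - u')) b1
  have b5 := mul_le_mul (sqrt_le_sqrt a3) (sqrt_le_sqrt a1) (sqrt_nonneg _) (sqrt_nonneg _)
  have b6 := mul_le_mul_of_nonneg_left (add_le_add a1 a2) (show 0 ≤ 2 * (L * δ) by positivity)
  nlinarith

variable {κ : Type*} {ι : κ → Type*} [∀ k, Fintype (ι k)] {𝒰 : Ultrafilter κ}
  {v : ∀ k, ι k → E d} (hv : ∀ k i, ‖v k i‖ = 1) (hn : Tendsto (fun k => rt (ι k)) 𝒰 atTop)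
  {Λ : Set (E d)} {m : ℕ} {f : Fin m → E d} {L : Submodule ℤ (E d)} {R : κ → E d →L[ℝ] E d}
  {P : E d →L[ℝ] E d} {p : ∀ k, ι k → E d} {C : ℝ} (h : Str 𝒰 v Λ f L R P p C)
  (hR : Tendsto R 𝒰 (𝓝 1))

include hv hR in
lemma near_id {δ : ℝ} (hδ : 0 < δ) : ∀ᶠ k in 𝒰, ∀ i, ‖R k (v k i) - v k i‖ ≤ δ := by
  filter_upwards [Metric.tendsto_nhds.1 hR _ hδ] with k hk i
  have := (R k - 1).le_opNorm (v k i)
  rw [hv, mul_one, ← dist_eq_norm] at this
  exact this.trans hk.le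

open Classical in
include hv hn h hR in
lemma classes : ∃ (A : Finset (E d)) (c : ∀ k, ι k → A) (C' : ℝ), 1 ≤ C' ∧
    (∀ x ∈ A, x ∈ L ∧ ‖x‖ = 1) ∧
    (∀ b, Tendsto (fun k => ((univ.filter fun i => c k i = b).card : ℝ)) 𝒰 atTop) ∧
    ∀ᶠ k in 𝒰, ∑ i, ‖R k (v k i) - c k i‖ ^ 2 ≤ C' ∧
      ∀ x, ‖∑ i, ⟪(c k i : E d), x⟫ • (R k (v k i) - c k i)‖ ≤ C' * ‖x‖ := by
  have := h.disc
  set K := |C| + 1 with hK
  have hK1 : 1 ≤ K := by linarith [abs_nonneg C]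
  have hb : ∀ᶠ k in 𝒰, ∑ i, ‖R k (v k i) - p k i‖ ^ 2 ≤ K :=
    h.bdd.mono fun k hk => by linarith [le_abs_self C]
  have hy : ∀ᶠ k in 𝒰, ∀ i, ‖R k (v k i)‖ ≤ 2 := (near_id hv hR one_pos).mono fun k hk i => by
    linarith [norm_sub_norm_le (R k (v k i)) (v k i), hk i, hv k i]
  have hp : ∀ᶠ k in 𝒰, ∀ i, ‖p k i‖ ≤ 2 + K := by
    filter_upwards [hb, hy] with k a1 a2 i
    have b1 : ‖R k (v k i) - p k i‖ ≤ K := abs_le_of_sq_le_sq' (by
      nlinarith [single_le_sum (f := fun i => ‖R k (v k i) - p k i‖ ^ 2) (fun _ _ => sq_nonneg _)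
        (mem_univ i)]) (by linarith) |>.2
    linarith [norm_sub_norm_le (p k i) (R k (v k i)), norm_sub_rev (p k i) (R k (v k i)), a2 i]
  let F := (discrete_finite L (2 + K)).toFinset
  let n : κ → E d → ℝ := fun k x => (univ.filter fun i => p k i = x).card
  let A := F.filter fun x => Tendsto (fun k => n k x) 𝒰 atTop
  have hsm : ∀ x, ∃ D : ℝ, x ∈ F \ A → ∀ᶠ k in 𝒰, n k x ≤ D := fun x => by
    rcases bdd_or 𝒰 fun k => n k x with ⟨D, hD⟩ | hD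
    · exact ⟨D, fun _ => hD⟩
    · exact ⟨0, fun hx => ((mem_sdiff.1 hx).2 (mem_filter.2 ⟨(mem_sdiff.1 hx).1, hD⟩)).elim⟩
  choose D hD using hsm
  set D0 := |∑ x ∈ F \ A, D x|
  have hD0 : 0 ≤ D0 := abs_nonneg _
  have hs : ∀ᶠ k in 𝒰, ((univ.filter fun i => p k i ∉ A).card : ℝ) ≤ D0 := by
    filter_upwards [hp, (eventually_all_finset _).2 hD] with k a1 a2
    rw [card_eq_sum_card_fiberwise (f := p k) (t := F \ A) fun i hi => mem_coe.2 (mem_sdiff.2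
      ⟨(Set.Finite.mem_toFinset _).2 ⟨h.mem k i, a1 i⟩, (mem_filter.1 hi).2⟩)]
    push_cast
    refine (sum_le_sum fun x hx => le_trans ?_ (a2 x hx)).trans (le_abs_self _)
    exact Nat.cast_le.2 (card_le_card fun i hi => mem_filter.2 ⟨mem_univ _, (mem_filter.1 hi).2⟩)
  obtain ⟨x0, hx0⟩ : ∃ x, x ∈ A := by
    obtain ⟨k, a1, a2⟩ := (hs.and ((card_tendsto hn).eventually_gt_atTop D0)).exists
    by_contra h'
    rw [filter_true_of_mem (p := fun i => p k i ∉ A) fun i _ hi => h' ⟨_, hi⟩] at a1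
    exact a1.not_gt a2
  have hA : ∀ x ∈ A, x ∈ L ∧ ‖x‖ = 1 := fun x hx => by
    refine ⟨((Set.Finite.mem_toFinset _).1 (mem_filter.1 hx).1).1,
      eq_of_forall_dist_le fun δ hδ => ?_⟩
    obtain ⟨k, a1, a2, a3⟩ := (hb.and ((near_id hv hR (half_pos hδ)).and
      ((mem_filter.1 hx).2.eventually_gt_atTop (K / (δ / 2) ^ 2)))).exists
    obtain ⟨i, b1, b2⟩ : ∃ i, p k i = x ∧ ‖R k (v k i) - p k i‖ ≤ δ / 2 := by
      by_contra h'
      push Not at h'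
      exact (card_large _ a1 (half_pos hδ) _ fun i hi => h' i (mem_filter.1 hi).2).not_gt a3
    rw [← hv k i, ← b1]
    refine (dist_norm_norm_le _ _).trans ?_
    linarith [norm_sub_le_norm_sub_add_norm_sub (p k i) (R k (v k i)) (v k i), a2 i,
      norm_sub_rev (p k i) (R k (v k i))]
  let c : ∀ k, ι k → A := fun k i => if h : p k i ∈ A then ⟨_, h⟩ else ⟨x0, hx0⟩
  have hc : ∀ k i, p k i ∈ A → (c k i : E d) = p k i := fun k i hi => by simp [c, hi]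
  have hc1 : ∀ k i, ‖(c k i : E d)‖ = 1 := fun k i => (hA _ (c k i).2).2
  refine ⟨A, c, K + 9 * D0 + 2 * (3 + K) * D0, by nlinarith, hA, fun b => tendsto_atTop_mono
    (fun k => Nat.cast_le.2 (card_le_card fun i hi => ?_)) (mem_filter.1 b.2).2, ?_⟩
  · have := (mem_filter.1 hi).2
    exact mem_filter.2 ⟨mem_univ _, Subtype.ext ((hc k i (this ▸ b.2)).trans this)⟩
  filter_upwards [hb, hy, hp, hs, h.schur] with k a1 a2 a3 a4 a5
  have hind : ∀ t : ℝ, 0 ≤ t → ∑ i, (if p k i ∉ A then t else 0) ≤ t * D0 := fun t ht => by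
    rw [← sum_filter, sum_const, nsmul_eq_mul, mul_comm]; gcongr
  have b1 : ∑ i, ‖R k (v k i) - c k i‖ ^ 2 ≤ K + 9 * D0 := by
    refine le_trans ?_ (add_le_add a1 (hind 9 (by norm_num)))
    rw [← sum_add_distrib]
    refine sum_le_sum fun i _ => ?_
    by_cases hi : p k i ∈ A
    · simp [hi, hc]
    · rw [if_pos hi]
      have := norm_sub_le (R k (v k i)) (c k i)
      nlinarith [a2 i, hc1 k i, norm_nonneg (R k (v k i) - c k i), sq_nonneg ‖R k (v k i) - p k i‖]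
  refine ⟨b1.trans (le_add_of_nonneg_right (by positivity)), fun x => ?_⟩
  have b2 : ∑ i, ⟪R k (v k i), x⟫ • (R k (v k i) - p k i) = 0 := by
    refine ext_inner_left ℝ fun u => ?_
    have := congrArg (fun z => ⟪R k z, x⟫) (a5 u)
    simp only [map_sum, map_smul, sum_inner, real_inner_smul_left, map_zero, inner_zero_left] at this
    simp only [inner_sum, real_inner_smul_right, inner_zero_right, ← this, mul_comm]
  have b3 : ∑ i, ⟪(c k i : E d), x⟫ • (R k (v k i) - c k i) =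
      ∑ i, (⟪R k (v k i), x⟫ • (p k i - c k i) -
        ⟪R k (v k i) - c k i, x⟫ • (R k (v k i) - c k i)) := by
    rw [← sub_eq_zero, ← b2, ← sum_sub_distrib]
    refine sum_congr rfl fun i _ => ?_
    rw [inner_sub_left]
    module
  rw [b3]
  refine (norm_sum_le _ _).trans ((sum_le_sum fun i _ => show _ ≤ ((if p k i ∉ A then 2 * (3 + K)
    else 0) + ‖R k (v k i) - c k i‖ ^ 2) * ‖x‖ from ?_).trans ?_)
  · refine (norm_sub_le _ _).trans ?_
    rw [add_mul, norm_smul, norm_smul]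
    have c1 := norm_inner_le_norm (𝕜 := ℝ) (R k (v k i) - c k i) x
    have c2 := norm_inner_le_norm (𝕜 := ℝ) (R k (v k i)) x
    refine add_le_add ?_ (by nlinarith [norm_nonneg (R k (v k i) - c k i)])
    by_cases hi : p k i ∈ A
    · simp [hi, hc]
    · rw [if_pos hi]
      have c3 : ‖p k i - c k i‖ ≤ 3 + K := by linarith [norm_sub_le (p k i) (c k i), a3 i, hc1 k i]
      have c4 : ‖⟪R k (v k i), x⟫‖ ≤ 2 * ‖x‖ := c2.trans (by gcongr; exact a2 i)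
      linarith [mul_le_mul c4 c3 (norm_nonneg _) (by positivity)]
  · rw [← sum_mul, sum_add_distrib]
    refine mul_le_mul_of_nonneg_right ?_ (norm_nonneg x)
    linarith [hind (2 * (3 + K)) (by positivity)]

include hv hn h hR in
theorem full {g : E d → ℝ} {B : ℝ} (hB : ∀ y, |g y| ≤ B * wt y) {q : ℕ} {S : Set ℝ}
    (hS : IsClosed S) (hD : ∀ D : Datum d, D.k % 2 = q % 2 → FV D g ∈ S) {M : Mat d}
    (hM : M.PosDef) (hMl : Tendsto (fun k => emp (v k)) 𝒰 (𝓝 M))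
    (hq : ∀ᶠ k in 𝒰, Fintype.card (ι k) % 2 = q % 2) (hm : IsEmpty (Fin m)) {x0 : ℝ}
    (hx : Tendsto (fun k => cM M * ∑' x : Λ, g x * Phi (fun i => R k (v k i)) x) 𝒰 (𝓝 x0)) :
    x0 ∈ S := by
  classical
  obtain ⟨A, c, K, hK, hA, hc, h1⟩ := classes hv hn h hR
  have hΛ : dualS (Set.range (Subtype.val : A → E d)) = Λ := by
    refine Set.Subset.antisymm (fun x hx => by_contra fun hx' => ?_) ?_
    · obtain ⟨k, a1, a2⟩ := (h1.and ((h.off x hx' fun j => hm.elim j).eventually_gt_atTop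
        ((2 * π * ‖π⁻¹ • x‖) ^ 2 * K))).exists
      choose n hn using fun b : A => hx b ⟨b, rfl⟩
      refine ((Q_le_of_int _ x fun i => n (c k i)).trans (le_trans (le_of_eq ?_)
        (sum_inner_sq_le (π⁻¹ • x) _ a1.1))).not_gt a2
      refine sum_congr rfl fun i _ => ?_
      rw [← hn, real_inner_smul_left, inner_sub_right]
      field_simp
    · rintro x hx _ ⟨b, rfl⟩
      rw [real_inner_comm]
      exact (h.dual _ (hA _ b.2).1).1 x hx
  let μ : κ → A → ℝ := fun k b => (univ.filter fun i => c k i = b).card / Fintype.card (ι k)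
  have hμ : ∀ k, mom (μ k) Subtype.val = emp fun i => (c k i : E d) := fun k => by
    ext s t
    simp only [emp, mom, Matrix.of_apply, μ]
    rw [← sum_fiberwise univ (c k)]
    refine sum_congr rfl fun b _ => ?_
    rw [sum_congr rfl fun i hi => by rw [(mem_filter.1 hi).2], sum_const, nsmul_eq_mul]
    ring
  have hnn := card_tendsto hn
  have hM' : Tendsto (fun k => mom (μ k) Subtype.val) 𝒰 (𝓝 M) := by
    refine tendsto_pi_nhds.2 fun s => tendsto_pi_nhds.2 fun t =>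
      (tendsto_pi_nhds.1 (tendsto_pi_nhds.1 hMl s) t).congr_dist ?_
    rw [Metric.tendsto_nhds]
    intro ε hε
    have hδ : 0 < ε / 6 := by positivity
    filter_upwards [h1, near_id hv hR hδ, hnn.eventually_gt_atTop (K / (ε / 6) ^ 2)]
      with k a1 a2 a3
    have b1 := emp_close (a := fun i => (c k i : E d)) (fun i => (hA _ (c k i).2).2.le)
      (fun i => (hv k i).le) hδ (lt_of_le_of_lt (by positivity) a3) (β := 4 * (ε / 6) ^ 2) (by
        refine (sum_le_sum fun i _ => show _ ≤ 2 * ‖R k (v k i) - c k i‖ ^ 2 + 2 * (ε / 6) ^ 2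
          from ?_).trans ?_
        · have := norm_sub_le_norm_sub_add_norm_sub (c k i : E d) (R k (v k i)) (v k i)
          rw [norm_sub_rev (c k i : E d) (R k (v k i))] at this
          nlinarith [pow_le_pow_left₀ (norm_nonneg _) (this.trans (add_le_add_right (a2 i) _)) 2,
            sq_nonneg (‖R k (v k i) - c k i‖ - ε / 6)]
        · rw [div_lt_iff₀ (by positivity)] at a3
          rw [sum_add_distrib, sum_const, ← mul_sum, card_univ, nsmul_eq_mul]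
          linarith [a1.1]) s t
    rw [show 4 * (ε / 6) ^ 2 / (ε / 6) = 4 * (ε / 6) by field_simp] at b1
    rw [dist_zero_right, Real.norm_of_nonneg dist_nonneg, hμ, dist_comm, Real.dist_eq]
    linarith
  obtain ⟨e, he, hco⟩ := coercive hM
  have hsp : Submodule.span ℝ (Set.range (Subtype.val : A → E d)) = ⊤ := by
    obtain ⟨k, hk⟩ := (hM'.eventually (ev_posDef hM)).exists
    exact span_top_of_posDef (hk (mom_herm _ _))
  have hdisc : DiscreteTopology (Submodule.span ℤ (Set.range (Subtype.val : A → E d))) :=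
    DiscreteTopology.of_subset (s := (L : Set (E d))) h.disc (Submodule.span_le.2 (by
      rintro _ ⟨b, rfl⟩; exact (hA _ b.2).1))
  have hinv : Tendsto (fun k => Ring.inverse (R k)) 𝒰 (𝓝 1) := by
    simpa [Function.comp_def] using
      (NormedRing.inverse_continuousAt (1 : (E d →L[ℝ] E d)ˣ)).tendsto.comp hR
  let δ : ℕ → ℝ := fun j => 1 / (j + 1)
  have hδ : Tendsto δ atTop (𝓝 0) := tendsto_one_div_add_atTop_nhds_zero_nat
  have hδ0 : ∀ j, 0 < δ j := fun j => by positivity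
  have hδ1 : ∀ j, δ j ≤ 1 := fun j => div_le_one_of_le₀ (by simp) (by positivity)
  have hlarge : ∀ {n : κ → ℝ}, Tendsto n 𝒰 atTop → ∀ j, ∀ᶠ k in 𝒰, K ≤ δ j ^ 2 * n k :=
    fun hn j => (hn.const_mul_atTop (pow_pos (hδ0 j) 2)).eventually_ge_atTop K
  choose k k1 k2 k3 k4 k5 k6 k7 k8 k9 using fun j => (h1.and (hq.and ((hlarge hnn j).and
    ((eventually_all.2 fun b => hlarge (hc b) j).and ((hM'.eventually hco).and
    ((hR.eventually (Units.nhds (1 : (E d →L[ℝ] E d)ˣ))).and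
    ((Metric.tendsto_nhds.1 hinv (δ j / 3) (by positivity)).and
    ((Metric.tendsto_nhds.1 hx _ (hδ0 j)).and (eventually_all.2 fun s => eventually_all.2 fun t =>
      Metric.tendsto_nhds.1 (tendsto_pi_nhds.1 (tendsto_pi_nhds.1 hM' s) t) _ (hδ0 j)))))))))).exists
  choose η w u c1 c2 c3 c4 c5 c6 c7 c8 using fun j => core (c (k j)) (fun i => R (k j) (v (k j) i))
    (Ring.inverse (R (k j))) (fun b => (hA _ b.2).2) (fun i => by
      rw [← mul_apply_eq_comp, Ring.inverse_mul_cancel _ (k6 j)]; exact hv _ _)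
    (k1 j).1 hK (k1 j).2 (fun x y => by
      set T := Ring.inverse (R (k j))
      have b0 : ∀ x, ‖T x - x‖ ≤ δ j / 3 * ‖x‖ := fun x =>
        ((T - 1).le_opNorm x).trans (by rw [← dist_eq_norm]; gcongr; exact (k7 j).le)
      have b1 : ‖T y‖ ≤ 2 * ‖y‖ := by
        nlinarith [norm_sub_norm_le (T y) y, b0 y, hδ1 j, norm_nonneg y]
      rw [show ⟪T x, T y⟫ - ⟪x, y⟫ = ⟪T x - x, T y⟫ + ⟪x, T y - y⟫ by
        rw [inner_sub_left, inner_sub_right]; ring]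
      have b2 := (abs_real_inner_le_norm _ _).trans
        (mul_le_mul (b0 x) b1 (norm_nonneg _) (by have := hδ0 j; positivity))
      have b3 := (abs_real_inner_le_norm _ _).trans
        (mul_le_mul_of_nonneg_left (b0 y) (norm_nonneg x))
      linarith [abs_add_le ⟪T x - x, T y⟫ ⟪x, T y - y⟫]) (hδ0 j) (hδ1 j) (μ := μ (k j))
    (fun _ => rfl) (k4 j) (k3 j) he fun ζ => (k5 j ζ).trans_eq (qm_mom _ _ _)
  have hpos : ∀ j {n : ℝ}, K ≤ δ j ^ 2 * n → 0 < n := fun j n hn => by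
    by_contra h'; nlinarith [sq_pos_of_pos (hδ0 j)]
  have hμ0 : ∀ j b, 0 < μ (k j) b := fun j b => div_pos (hpos j (k4 j b)) (hpos j (k3 j))
  have b1 : Tendsto (fun j => mom (μ (k j)) Subtype.val) atTop (𝓝 M) :=
    tendsto_pi_nhds.2 fun s => tendsto_pi_nhds.2 fun t => tendsto_iff_dist_tendsto_zero.2
      (squeeze_zero (fun _ => dist_nonneg) (fun j => (k9 j s t).le) hδ)
  have hB0 : 0 ≤ B := nonneg_of_mul_nonneg_left ((abs_nonneg _).trans (hB 0)) (wt_pos 0)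
  have b2 : ∀ j y, |g y * mult (μ (k j)) (η j) (w j) y| ≤ B * wt y := fun j y =>
    abs_mul_le_wt hB y (abs_mult_le (fun b => (hμ0 j b).le) _ _ _)
  have b3 : ∀ j y, |g y * Phi (fun i => R (k j) (v (k j) i)) y| ≤ B * wt y := fun j y =>
    abs_mul_le_wt hB y (abs_Phi_le_one _ _)
  have b4 := tendsto_tsum_of_dominated_convergence (𝓕 := atTop) (g := 0)
    (f := fun j (x : Λ) => g x * mult (μ (k j)) (η j) (w j) x -
      g x * Phi (fun i => R (k j) (v (k j) i)) x)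
    (h.sep.summable.mul_left (2 * B)) (fun x => ?_) (Eventually.of_forall fun j x =>
      (abs_sub _ _).trans (by linarith [b2 j x, b3 j x]))
  · simp only [Pi.zero_apply, tsum_zero] at b4
    have hc : cM M ≠ 0 := by have := hM.det_pos; unfold cM; positivity
    have b5 := (tendsto_iff_dist_tendsto_zero.2 (squeeze_zero (fun _ => dist_nonneg)
      (fun j => (k8 j).le) hδ)).const_mul (cM M)⁻¹
    have b7 := ((cM_contAt hM).tendsto.comp b1).mul (b4.add b5)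
    rw [zero_add, mul_inv_cancel_left₀ hc] at b7
    refine hS.mem_of_tendsto b7 (Eventually.of_forall fun j => ?_)
    obtain ⟨D, d1, d2⟩ := exists_datum Subtype.val (η j) (μ (k j)) (w j) (fun b => (hA _ b.2).2)
      (c1 j) (hμ0 j) (by
        simp only [μ, ← sum_div]
        rw [← Nat.cast_sum, ← card_eq_sum_card_fiberwise fun _ _ => mem_coe.2 (mem_univ _),
          card_univ, div_self (hpos j (k3 j)).ne']) hdisc hsp (c2 j) (c3 j)
    have := hD D (d1 ▸ k2 j)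
    rw [d2, hΛ] at this
    simp only [inv_mul_cancel_left₀ hc]
    rw [Summable.tsum_sub (h.sep.summable' (b2 j)) (h.sep.summable' (b3 j)), sub_add_cancel]
    exact this
  · simp only [← mul_sub, Pi.zero_apply]
    rw [← mul_zero (g x)]
    set N : ℝ := (Fintype.card A : ℝ)
    have hN : 0 ≤ N := Nat.cast_nonneg _
    refine (squeeze_zero_norm (fun j => (phi_close (p := fun i => (c (k j) i : E d))
      (C := K + N * K) (sum_nonneg fun b _ => mul_nonneg (hμ0 j b).le (sq_nonneg _))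
      (fun i => (hΛ.ge x.2) _ ⟨_, rfl⟩) (by linarith [(k1 j).1, mul_nonneg hN (by linarith : 0 ≤ K)])
      (by linarith [c7 j]) (c4 j) (c5 j x) (hδ0 j).le (c6 j)).trans (add_le_add_right
        (mul_le_mul_of_nonneg_left (c8 j x) (by positivity)) _)) ?_).const_mul _
    have t1 := (((hδ.pow 2).const_mul (136 * K ^ 3)).const_mul N).const_mul
      ((2 * π * ‖(x : E d)‖) ^ 2)
    simpa using ((((hδ.const_mul _).add (t1.sqrt.mul_const _)).add t1).add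
      (((hδ.const_mul _).const_mul _).const_mul _))

end Pool.Agent.Lib.MP_3b7d13_co.Var
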