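import Pool.Agent.Lib.MP_3b7d13_co.VarFull

/-! The lower bound. -/

namespace Pool.Agent.Lib.MP_3b7d13_co.Var

open Real Finset MeasureTheory Metric Filter Topology Module
open scoped RealInnerProductSpace

variable {d : ℕ}

lemma ultra_lim {κ : Type*} (𝒰 : Ultrafilter κ) {f : κ → ℝ} {a b : ℝ}
    (h : ∀ᶠ k in 𝒰, f k ∈ Set.Icc a b) : ∃ x ∈ Set.Icc a b, Tendsto f 𝒰 (𝓝 x) :=
  isCompact_Icc.ultrafilter_le_nhds (𝒰.map f) (le_principal_iff.2 h)

lemma Gam_mono (d p : ℕ) : Monotone (Gam d p) := by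
  intro s r h
  unfold Gam
  by_cases hr : ∃ k, k % 2 = p % 2 ∧ Blocked d k r
  · obtain ⟨k, hk, a, w, h1, h2, h3⟩ := hr
    rw [if_pos ⟨k, hk, a, w, h1, h2, fun j ε => h.trans_lt (h3 j ε)⟩]
    exact zero_le
  · rw [if_neg hr]
    split_ifs
    · exact zero_le
    · exact iInf_mono fun D => val_mono D.1 h

theorem lower (hd : 2 ≤ d) (p : ℕ) {s r : ℝ} (hsr : s < r) :
    Gam d p s ≤ liminf (fun n : ℕ => ENNReal.ofReal ((n : ℝ) ^ ((d : ℝ) / 2) * F d r n))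
      (atTop ⊓ 𝓟 {n | n % 2 = p % 2}) := by
  unfold Gam
  split_ifs with hb
  · exact zero_le
  set Γ := ⨅ D : {D : Datum d // D.k % 2 = p % 2}, D.1.val s
  by_contra hlt
  obtain ⟨c, hc0, hc1, hc2⟩ := ENNReal.lt_iff_exists_real_btwn.1 (not_le.1 hlt)
  have := frequently_iff_neBot.1 (frequently_lt_of_liminf_lt (by isBoundedDefault) hc1)
  let 𝒰 := Ultrafilter.of ((atTop ⊓ 𝓟 {n | n % 2 = p % 2}) ⊓
    𝓟 {n : ℕ | ENNReal.ofReal ((n : ℝ) ^ ((d : ℝ) / 2) * F d r n) < ENNReal.ofReal c})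
  have h𝒰 := le_inf_iff.1 (Ultrafilter.of_le _ : (𝒰 : Filter ℕ) ≤ _)
  have hat := (le_inf_iff.1 h𝒰.1).1
  have e0 : ‖(EuclideanSpace.single ⟨0, by omega⟩ 1 : E d)‖ = 1 := by simp
  have : Nonempty (sphere (0 : E d) 1) := ⟨⟨_, mem_sphere_zero_iff_norm.2 e0⟩⟩
  have hV : ∀ n : ℕ, ∃ v : Fin n → E d, (∀ i, ‖v i‖ = 1) ∧ (0 < n →
      (n : ℝ) ^ ((d : ℝ) / 2) * F d r n < c → (n : ℝ) ^ ((d : ℝ) / 2) * prob v r < c) := fun n => by
    by_cases h : 0 < n ∧ (n : ℝ) ^ ((d : ℝ) / 2) * F d r n < c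
    · have hn : 0 < (n : ℝ) ^ ((d : ℝ) / 2) := rpow_pos_of_pos (Nat.cast_pos.2 h.1) _
      obtain ⟨V, hV⟩ := exists_lt_of_ciInf_lt ((lt_div_iff₀' hn).2 h.2)
      exact ⟨fun i => V i, fun i => mem_sphere_zero_iff_norm.1 (V i).2,
        fun _ _ => (lt_div_iff₀' hn).1 hV⟩
    · exact ⟨fun _ => _, fun _ => e0, fun h1 h2 => (h ⟨h1, h2⟩).elim⟩
  choose v hv hv' using hV
  have hrt : ∀ n, rt (Fin n) = √n := fun n => by simp [rt]
  have hn : Tendsto (fun n => rt (Fin n)) 𝒰 atTop := by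
    simp only [hrt]
    exact (tendsto_sqrt_atTop.comp tendsto_natCast_atTop_atTop).mono_left hat
  have hq : ∀ᶠ n in 𝒰, Fintype.card (Fin n) % 2 = p % 2 := by
    simp only [Fintype.card_fin]
    exact le_principal_iff.1 (le_inf_iff.1 h𝒰.1).2
  have hpr : ∀ᶠ n in 𝒰, rt (Fin n) ^ d * Ex (v n) (fun x => if ‖x‖ ≤ r then 1 else 0) ≤ c := by
    filter_upwards [le_principal_iff.1 h𝒰.2, hat (eventually_gt_atTop 0)] with n a1 a2
    rw [hrt, sqrt_pow_eq (Nat.cast_nonneg _), ← prob_eq]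
    exact (hv' n a2 ((ENNReal.ofReal_lt_ofReal_iff_of_nonneg
      (mul_nonneg (by positivity) (F_nonneg _ _ _))).1 a1)).le
  obtain ⟨c0, h0, h1⟩ := degen 𝒰 hv (card_tendsto hn) hsr
    (hq.mono fun n h1 j h2 h3 => hb ⟨j, h2.trans h1, h3⟩)
  have hM : ∀ a b, ∃ x, Tendsto (fun n => emp (v n) a b) 𝒰 (𝓝 x) := fun a b => by
    obtain ⟨x, -, hx⟩ := ultra_lim 𝒰 (f := fun n => emp (v n) a b) (a := -2) (b := 2) (by
      filter_upwards [(card_tendsto hn).eventually_gt_atTop 0] with n a1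
      have := emp_close (a := v n) (v := 0) (fun i => (hv n i).le) (by simp) one_pos a1 (β := 1)
        (by simp [hv]) a b
      simp only [emp, mom, Matrix.of_apply, Pi.zero_apply, PiLp.zero_apply, mul_zero,
        sum_const_zero, sub_zero] at this
      exact abs_le.1 (this.trans (by norm_num)))
    exact ⟨x, hx⟩
  choose M hM using hM
  have hMl : Tendsto (fun n => emp (v n)) 𝒰 (𝓝 (Matrix.of M)) :=
    tendsto_pi_nhds.2 fun a => tendsto_pi_nhds.2 (hM a)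
  have hpd := posDef_of_bdd (fun n i => (hv n i).le) hn hMl (C := c / c0) (by
    filter_upwards [h1, hpr, hn.eventually_ge_atTop 0] with n a1 a2 a3
    rw [le_div_iff₀' h0, mul_left_comm]
    exact (mul_le_mul_of_nonneg_left a1 (pow_nonneg a3 d)).trans a2)
  have hs : 0 ≤ s := by
    by_contra h
    exact hb ⟨p, rfl, _, fun _ => _, e0, fun _ => e0, fun _ _ =>
      (not_le.1 h).trans_le (norm_nonneg _)⟩
  obtain ⟨φ, g, C, h, b0, b1, b2, b3⟩ := exists_bump (d := d) (s := (s + r) / 2) (r := (s + 3 * r) / 4)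
    (by linarith) (by linarith)
  obtain ⟨x0, ⟨-, hx0⟩, hx⟩ := ultra_lim 𝒰 (f := fun n => rt (Fin n) ^ d * ∫ y, g y * Phi (v n) y)
    (a := 0) (b := c) (by
      filter_upwards [hpr, hn.eventually_ge_atTop 0] with n a1 a2
      rw [← h.Ex_eq]
      refine ⟨mul_nonneg (pow_nonneg a2 d) (div_nonneg (sum_nonneg fun _ _ => b0 _) (by positivity)),
        le_trans (mul_le_mul_of_nonneg_left (Ex_mono _ fun x => ?_) (pow_nonneg a2 d)) a1⟩
      split_ifs with hx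
      · exact b1 x
      · exact (b3 x (by linarith [not_le.1 hx])).le)
  obtain ⟨Λ, m, f, L, R, P, q, K, h2, h3⟩ := exists_str 𝒰 (fun n i => (hv n i).le) hn hpd hMl
    h.cg h.dec
  have h4 := hx.sub h3
  simp only [sub_sub_cancel, sub_zero] at h4
  have hS : IsClosed {y : ℝ | Γ ≤ ENNReal.ofReal y} :=
    isClosed_le continuous_const ENNReal.continuous_ofReal
  have hD : ∀ D : Datum d, D.k % 2 = p % 2 → FV D g ∈ {y : ℝ | Γ ≤ ENNReal.ofReal y} :=
    fun D hD => (iInf_le (fun D : {D : Datum d // D.k % 2 = p % 2} => D.1.val s) ⟨D, hD⟩).trans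
      (val_le_FV D (s := s) h b0 fun x hx => b2 x (by linarith))
  have h5 : Γ ≤ ENNReal.ofReal x0 := by
    rcases isEmpty_or_nonempty (Fin m) with hm | ⟨⟨l0⟩⟩
    · have hP : P = 1 := ContinuousLinearMap.ext fun x => by simp [h2.proj]
      exact full hv hn h2 (hP ▸ h2.lim) h.dec hS hD hpd hMl hq hm h4
    · exact part h.cg h.dec hS hD hv hn hpd hMl hq h2 hd l0 h4
  exact (h5.trans (ENNReal.ofReal_le_ofReal hx0)).not_gt hc2

theorem tendsto_Gam (hd : 2 ≤ d) (p : ℕ) {r : ℝ} (h : ContinuousAt (Gam d p) r) :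
    Tendsto (fun n : ℕ => ENNReal.ofReal ((n : ℝ) ^ ((d : ℝ) / 2) * F d r n))
      (atTop ⊓ 𝓟 {n | n % 2 = p % 2}) (𝓝 (Gam d p r)) :=
  tendsto_of_le_liminf_of_limsup_le (le_of_tendsto (x := 𝓝[<] r) (h.tendsto.mono_left
    nhdsWithin_le_nhds) (eventually_nhdsWithin_of_forall fun _ hs => lower hd p hs)) (upper d p r)

lemma neBot_parity (p : ℕ) : (atTop ⊓ 𝓟 {n : ℕ | n % 2 = p % 2}).NeBot :=
  frequently_iff_neBot.1 (frequently_atTop.2 fun n => ⟨2 * n + p, by omega, by omega⟩)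

end Pool.Agent.Lib.MP_3b7d13_co.Var
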