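import Pool.Agent.Lib.MP_3b7d13_co.VarTest

/-! The local limit theorem: asymptotics of the Fourier integral as a sum over the peaks. -/

namespace Pool.Agent.Lib.MP_3b7d13_co.Var

open Real Finset MeasureTheory Metric Filter Topology Matrix
open scoped RealInnerProductSpace MatrixOrder

variable {d : ℕ}

abbrev Mat (d : ℕ) := Matrix (Fin d) (Fin d) ℝ

def mom {ι : Type*} [Fintype ι] (μ : ι → ℝ) (a : ι → E d) : Mat d :=
  Matrix.of fun s t => ∑ i, μ i * a i s * a i t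

def qm (M : Mat d) (ζ : E d) : ℝ := ζ.ofLp ⬝ᵥ M *ᵥ ζ.ofLp

noncomputable def cM (M : Mat d) : ℝ := (2 * π) ^ (-((d : ℝ) / 2)) / √M.det

lemma inner_eq (x y : E d) : ⟪x, y⟫ = ∑ s, x s * y s := by
  simp [PiLp.inner_apply, mul_comm]

lemma qm_mom {ι : Type*} [Fintype ι] (μ : ι → ℝ) (a : ι → E d) (ζ : E d) :
    qm (mom μ a) ζ = ∑ i, μ i * ⟪ζ, a i⟫ ^ 2 := by
  simp only [qm, mom, dotProduct, mulVec, of_apply, inner_eq, sq, sum_mul, mul_sum]
  rw [sum_comm' (t' := univ) (s' := fun _ => univ) (by simp)]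
  simp_rw [sum_comm (s := (univ : Finset (Fin d))) (t := (univ : Finset ι))]
  refine sum_congr rfl fun i _ => sum_congr rfl fun s _ => sum_congr rfl fun t _ => by ring

lemma mom_herm {ι : Type*} [Fintype ι] (μ : ι → ℝ) (a : ι → E d) : (mom μ a).IsHermitian := by
  ext s t
  simp only [mom, conjTranspose_apply, of_apply, star_trivial]
  exact sum_congr rfl fun i _ => by ring

lemma qm_cont : Continuous fun p : Mat d × E d => qm p.1 p.2 := by
  unfold qm
  fun_prop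

lemma qm_smul (M : Mat d) (c : ℝ) (ζ : E d) : qm M (c • ζ) = c ^ 2 * qm M ζ := by
  simp [qm, mulVec_smul]; ring

lemma posDef_of_qm {M : Mat d} (h : M.IsHermitian) (h2 : ∀ ζ, ζ ≠ 0 → 0 < qm M ζ) : M.PosDef :=
  PosDef.of_dotProduct_mulVec_pos h fun x hx => by
    simpa [qm] using h2 (WithLp.toLp 2 x) (by simpa using hx)

lemma qm_pos {M : Mat d} (h : M.PosDef) {ζ : E d} (hζ : ζ ≠ 0) : 0 < qm M ζ := by
  simpa [qm] using h.dotProduct_mulVec_pos (x := ζ.ofLp) (by simpa using hζ)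

lemma coercive {M : Mat d} (h : M.PosDef) :
    ∃ c > 0, ∀ᶠ M' in 𝓝 M, ∀ ζ, c * ‖ζ‖ ^ 2 ≤ qm M' ζ := by
  obtain ⟨c, hc, hc'⟩ := (isCompact_sphere (0 : E d) 1).exists_forall_le' (a := 0)
    (f := qm M) (qm_cont.comp (Continuous.prodMk_right M)).continuousOn
    fun ζ hζ => qm_pos h (ne_of_mem_sphere hζ one_ne_zero)
  refine ⟨c / 2, by positivity, ?_⟩
  have := (isCompact_sphere (0 : E d) 1).eventually_forall_of_forall_eventually (x₀ := M)
    (P := fun M' ζ => c / 2 < qm M' ζ) fun ζ hζ =>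
      qm_cont.continuousAt.eventually (lt_mem_nhds (by linarith [hc' ζ hζ]))
  filter_upwards [this] with M' hM' ζ
  rcases eq_or_ne ζ 0 with rfl | h0
  · simp [qm]
  · have hn := norm_pos_iff.2 h0
    have h1 := hM' (‖ζ‖⁻¹ • ζ) (by simp [norm_smul, hn.ne'])
    rw [qm_smul, inv_pow, lt_inv_mul_iff₀ (by positivity)] at h1
    linarith

lemma int_gauss {b : ℝ} (hb : 0 < b) : Integrable fun ζ : E d => exp (-b * ‖ζ‖ ^ 2) := by
  have := (GaussianFourier.integrable_cexp_neg_mul_sq_norm_add (V := E d) (b := b)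
    (by simpa using hb) 0 0).norm
  refine this.congr (ae_of_all _ fun ζ => ?_)
  simp [Complex.norm_exp, ← Complex.ofReal_pow]

lemma gauss_integrable {M : Mat d} (h : M.PosDef) {b : ℝ} (hb : 0 < b) :
    Integrable fun ζ => exp (-b * qm M ζ) := by
  obtain ⟨c, hc, h1⟩ := coercive h
  refine (int_gauss (mul_pos hb hc)).mono' (Continuous.aestronglyMeasurable ?_)
    (ae_of_all _ fun ζ => ?_)
  · exact (continuous_const.mul (qm_cont.comp (Continuous.prodMk_right M))).rexp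
  · rw [Real.norm_of_nonneg (exp_pos _).le, exp_le_exp]
    nlinarith [mul_le_mul_of_nonneg_left (h1.self_of_nhds ζ) hb.le]

lemma gauss_int {M : Mat d} (h : M.PosDef) : ∫ ζ, exp (-(2 * π ^ 2) * qm M ζ) = cM M := by
  obtain ⟨S, hS⟩ := CStarAlgebra.nonneg_iff_eq_star_mul_self.mp h.posSemidef.nonneg
  have hdet : M.det = S.det ^ 2 := by
    rw [hS, det_mul, star_eq_conjTranspose, det_conjTranspose, star_trivial, sq]
  have hS0 : S.det ≠ 0 := fun h0 => by
    have := h.det_pos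
    rw [hdet, h0] at this
    simp at this
  let T : E d →ₗ[ℝ] E d := toLpLin 2 2 S
  have hT : LinearMap.det T = S.det := LinearMap.det_toLpLin 2 S
  have hq : ∀ ζ, qm M ζ = ‖T ζ‖ ^ 2 := by
    intro ζ
    rw [← real_inner_self_eq_norm_sq, inner_eq, qm, hS, ← mulVec_mulVec, star_eq_conjTranspose,
      conjTranspose_eq_transpose_of_trivial, mulVec_transpose, dotProduct_comm,
      ← dotProduct_mulVec]
    rfl
  simp_rw [hq]
  have hm := Measure.map_linearMap_addHaar_eq_smul_addHaar (volume : Measure (E d))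
    (f := T) (by rwa [hT])
  rw [← integral_map (f := fun x : E d => exp (-(2 * π ^ 2) * ‖x‖ ^ 2))
    T.continuous_of_finiteDimensional.aemeasurable
    (Continuous.aestronglyMeasurable (by fun_prop)), hm, integral_smul_measure,
    GaussianFourier.integral_rexp_neg_mul_sq_norm (by positivity), cM, hdet, sqrt_sq_eq_abs, hT,
    ENNReal.toReal_ofReal (abs_nonneg _), abs_inv, smul_eq_mul, mul_comm, div_eq_mul_inv _ |_|]
  congr 1
  have hp := pi_pos
  rw [show π / (2 * π ^ 2) = (2 * π)⁻¹ by field_simp, inv_rpow (by positivity),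
    rpow_neg (by positivity)]
  simp

lemma cM_nonneg (M : Mat d) : 0 ≤ cM M := by
  have := pi_pos
  unfold cM; positivity

lemma cM_contAt {M : Mat d} (h : M.PosDef) : ContinuousAt cM M := by
  unfold cM
  refine continuousAt_const.div (Continuous.continuousAt (by fun_prop)) ?_
  exact (sqrt_pos.2 h.det_pos).ne'

lemma Phi_eq_sign {ι : Type*} [Fintype ι] (v : ι → E d) (ξ : E d) (m : ι → ℤ) :
    Phi v ξ = (∏ i, (-1 : ℝ) ^ m i) * ∏ i, cos (π * (2 * ⟪ξ, v i⟫ - m i)) := by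
  rw [Phi, ← prod_mul_distrib]
  refine prod_congr rfl fun i _ => ?_
  rw [← cos_add_int_mul_pi]
  congr 1; ring

lemma abs_sign {ι : Type*} [Fintype ι] (m : ι → ℤ) : |∏ i, (-1 : ℝ) ^ m i| = 1 := by
  rw [abs_prod]
  exact prod_eq_one fun i _ => by rw [abs_zpow]; simp

lemma Phi_shift {ι : Type*} [Fintype ι] {v : ι → E d} (hv : ∀ i, ‖v i‖ ≤ 1) (ξ ω : E d)
    (m : ι → ℤ) :
    |Phi v (ξ + ω) - exp (-(2 * π ^ 2) * qf v ω) * Phi v ξ| ≤
      2 * π ^ 2 * |⟪ω, ∑ i, (2 * ⟪ξ, v i⟫ - m i) • v i⟫| +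
        4 * π * ‖ω‖ * (π ^ 2 * ∑ i, (2 * ⟪ξ, v i⟫ - m i) ^ 2 + 4 * π ^ 2 * qf v ω) := by
  have hp := pi_pos
  have key := prod_cos_approx (fun i => π * (2 * ⟪ξ, v i⟫ - m i)) (fun i => 2 * π * ⟪ω, v i⟫)
    (m := 2 * π * ‖ω‖) fun i => by
      rw [abs_mul, abs_of_pos (by positivity)]
      refine mul_le_mul_of_nonneg_left ((abs_real_inner_le_norm _ _).trans ?_) (by positivity)
      exact mul_le_of_le_one_right (norm_nonneg _) (hv i)
  have e1 : ∑ i, (2 * π * ⟪ω, v i⟫) ^ 2 = 4 * π ^ 2 * qf v ω := by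
    rw [qf, mul_sum]; exact sum_congr rfl fun i _ => by ring
  have e2 : ∑ i, (π * (2 * ⟪ξ, v i⟫ - m i)) ^ 2 = π ^ 2 * ∑ i, (2 * ⟪ξ, v i⟫ - m i) ^ 2 := by
    rw [mul_sum]; exact sum_congr rfl fun i _ => by ring
  have e3 : ∑ i, π * (2 * ⟪ξ, v i⟫ - m i) * (2 * π * ⟪ω, v i⟫) =
      2 * π ^ 2 * ⟪ω, ∑ i, (2 * ⟪ξ, v i⟫ - m i) • v i⟫ := by
    rw [inner_sum, mul_sum]
    exact sum_congr rfl fun i _ => by rw [real_inner_smul_right]; ring
  rw [e1, e2, e3, abs_mul, abs_of_pos (by positivity : 0 < 2 * π ^ 2)] at key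
  rw [Phi_eq_sign v (ξ + ω) m, Phi_eq_sign v ξ m, mul_left_comm, ← mul_sub, abs_mul, abs_sign,
    one_mul]
  have e4 : ∀ i, π * (2 * ⟪ξ + ω, v i⟫ - m i) =
      π * (2 * ⟪ξ, v i⟫ - m i) + 2 * π * ⟪ω, v i⟫ := fun i => by rw [inner_add_left]; ring
  simp_rw [e4]
  rw [show -(2 * π ^ 2) * qf v ω = -(4 * π ^ 2 * qf v ω) / 2 by ring,
    show 4 * π * ‖ω‖ = 2 * (2 * π * ‖ω‖) by ring]
  exact key

section

variable {κ : Type*} {ι : κ → Type*} [∀ k, Fintype (ι k)]

/-- The square root of the number of vectors. -/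
noncomputable def rt (ι : Type*) [Fintype ι] : ℝ := √(Fintype.card ι)

/-- The empirical second moment matrix. -/
noncomputable def emp {ι : Type*} [Fintype ι] (v : ι → E d) : Mat d :=
  mom (fun _ => (Fintype.card ι : ℝ)⁻¹) v

lemma qm_emp {ι : Type*} [Fintype ι] (v : ι → E d) (ζ : E d) :
    qm (emp v) ζ = qf v ((rt ι)⁻¹ • ζ) := by
  rw [emp, qm_mom, qf_smul, inv_pow, rt, sq_sqrt (Nat.cast_nonneg _), qf, mul_sum]

/-- A family of critical frequencies converging to a peak. -/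
def Peak (l : Filter κ) (v : ∀ k, ι k → E d) (x : E d) (ξ : κ → E d) : Prop :=
  Tendsto ξ l (𝓝 x) ∧ ∃ (m : ∀ k, ι k → ℤ) (C : ℝ),
    (∀ᶠ k in l, ∑ i, (2 * ⟪ξ k, v k i⟫ - m k i) ^ 2 ≤ C) ∧
    Tendsto (fun k => (rt (ι k))⁻¹ • ∑ i, (2 * ⟪ξ k, v k i⟫ - m k i) • v k i) l (𝓝 0)

lemma near_peak_aux {l : Filter κ} [l.IsCountablyGenerated] {v : ∀ k, ι k → E d}
    (hv : ∀ k i, ‖v k i‖ ≤ 1) (hn : Tendsto (fun k => rt (ι k)) l atTop) {M : Mat d}
    (hM : M.PosDef) (hMl : Tendsto (fun k => emp (v k)) l (𝓝 M)) {x : E d} {ξ : κ → E d}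
    (hp : Peak l v x ξ) {g : E d → ℝ} (hg : Continuous g) {B : ℝ} (hB : ∀ y, |g y| ≤ B) :
    Tendsto (fun k => rt (ι k) ^ d * (∫ y in ball x (1 / 8), g y * Phi (v k) y) -
      cM M * (g x * Phi (v k) (ξ k))) l (𝓝 0) := by
  obtain ⟨hξ, m, C, hC, hF⟩ := hp
  obtain ⟨c, hc, hco⟩ := coercive hM
  have hco' := hMl.eventually hco
  have hpos := hn.eventually_gt_atTop 0
  have hB0 : 0 ≤ B := (abs_nonneg _).trans (hB 0)
  have hinv : Tendsto (fun k => (rt (ι k))⁻¹) l (𝓝 0) := hn.inv_tendsto_atTop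
  let F : κ → E d → ℝ := fun k ζ =>
    (ball x (1 / 8)).indicator (fun y => g y * Phi (v k) y) ((rt (ι k))⁻¹ • ζ + ξ k)
  let G : κ → E d → ℝ := fun k ζ => exp (-(2 * π ^ 2) * qm M ζ) * (g x * Phi (v k) (ξ k))
  have hFm : ∀ k, AEStronglyMeasurable (F k) volume := fun k =>
    (((hg.mul (Phi_cont _)).measurable.indicator measurableSet_ball).comp
      (by fun_prop)).aestronglyMeasurable
  have hgi := gauss_integrable hM (b := 2 * π ^ 2) (by positivity)
  have hGi : ∀ k, Integrable (G k) := fun k => hgi.mul_const _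
  have hFb : ∀ᶠ k in l, ∀ ζ, |F k ζ| ≤ B * exp (2 * C) * exp (-(4 * c) * ‖ζ‖ ^ 2) := by
    filter_upwards [hC, hco', hξ.eventually (ball_mem_nhds x (by norm_num : (0 : ℝ) < 1 / 8))]
      with k h1 h2 h3 ζ
    simp only [F, Set.indicator]
    split_ifs with h4
    · rw [abs_mul, mul_assoc, ← exp_add]
      refine mul_le_mul (hB _) ((abs_Phi_le _ _).trans (exp_le_exp.2 ?_)) (abs_nonneg _) hB0
      have a1 := Q_sub_le (v k) ((rt (ι k))⁻¹ • ζ + ξ k) (ξ k)
      have a2 : ‖(rt (ι k))⁻¹ • ζ + ξ k - ξ k‖ ≤ 1 / 4 := by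
        rw [← dist_eq_norm]
        linarith [dist_triangle_right ((rt (ι k))⁻¹ • ζ + ξ k) (ξ k) x, mem_ball.1 h4,
          mem_ball.1 h3]
      rw [Q_small (hv k) a2, add_sub_cancel_right, ← qm_emp] at a1
      have a3 := (Q_le_of_int (v k) (ξ k) (m k)).trans h1
      linarith [h2 ζ]
    · simp only [abs_zero]; positivity
  have hbi := (int_gauss (d := d) (b := 4 * c) (by positivity)).const_mul (B * exp (2 * C))
  have hlim := tendsto_integral_filter_of_dominated_convergence (l := l) (μ := volume)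
    (F := fun k ζ => F k ζ - G k ζ) (f := fun _ => 0)
    (fun ζ => B * exp (2 * C) * exp (-(4 * c) * ‖ζ‖ ^ 2) + exp (-(2 * π ^ 2) * qm M ζ) * B)
    (Eventually.of_forall fun k => (hFm k).sub (hGi k).aestronglyMeasurable)
    (hFb.mono fun k hk => ae_of_all _ fun ζ => by
      refine (norm_sub_le _ _).trans (add_le_add (hk ζ) ?_)
      simp only [G, Real.norm_eq_abs]
      rw [abs_mul, abs_mul, abs_of_pos (exp_pos _)]
      exact mul_le_mul_of_nonneg_left
        ((mul_le_of_le_one_right (abs_nonneg _) (abs_Phi_le_one _ _)).trans (hB _)) (exp_pos _).le)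
    (hbi.add (hgi.mul_const B)) (ae_of_all _ fun ζ => by
      have t0 : Tendsto (fun k => (rt (ι k))⁻¹ • ζ) l (𝓝 0) := by simpa using hinv.smul_const ζ
      have t1 : Tendsto (fun k => (rt (ι k))⁻¹ • ζ + ξ k) l (𝓝 x) := by simpa using t0.add hξ
      have t2 : Tendsto (fun k => qm (emp (v k)) ζ) l (𝓝 (qm M ζ)) :=
        ((qm_cont.comp (Continuous.prodMk_left ζ)).tendsto M).comp hMl
      have t3 : Tendsto (fun k => Phi (v k) (ξ k + (rt (ι k))⁻¹ • ζ) -
          exp (-(2 * π ^ 2) * qm (emp (v k)) ζ) * Phi (v k) (ξ k)) l (𝓝 0) := by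
        have s1 : Tendsto (fun k => 2 * π ^ 2 * |⟪ζ, (rt (ι k))⁻¹ •
            ∑ i, (2 * ⟪ξ k, v k i⟫ - m k i) • v k i⟫| + 4 * π * ‖(rt (ι k))⁻¹ • ζ‖ *
            (π ^ 2 * C + 4 * π ^ 2 * qm (emp (v k)) ζ)) l (𝓝 0) := by
          have := (((tendsto_const_nhds (x := ζ)).inner (𝕜 := ℝ) hF).abs.const_mul
            (2 * π ^ 2)).add ((t0.norm.const_mul (4 * π)).mul
              ((t2.const_mul (4 * π ^ 2)).const_add (π ^ 2 * C)))
          simpa using this
        refine squeeze_zero_norm' ?_ s1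
        filter_upwards [hC] with k hk
        rw [qm_emp, real_inner_smul_right, ← real_inner_smul_left]
        refine (Phi_shift (hv k) _ _ (m k)).trans ?_
        gcongr
      have t4 : Tendsto (fun k => (g ((rt (ι k))⁻¹ • ζ + ξ k) - g x) *
          Phi (v k) (ξ k + (rt (ι k))⁻¹ • ζ)) l (𝓝 0) := by
        refine Tendsto.zero_mul_isBoundedUnder_le ?_
          (isBoundedUnder_of ⟨1, fun k => abs_Phi_le_one _ _⟩)
        simpa using ((hg.tendsto x).comp t1).sub_const (g x)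
      have t5 : Tendsto (fun k => (exp (-(2 * π ^ 2) * qm (emp (v k)) ζ) -
          exp (-(2 * π ^ 2) * qm M ζ)) * Phi (v k) (ξ k)) l (𝓝 0) := by
        refine Tendsto.zero_mul_isBoundedUnder_le ?_
          (isBoundedUnder_of ⟨1, fun k => abs_Phi_le_one _ _⟩)
        exact tendsto_sub_nhds_zero_iff.2 (t2.const_mul (-(2 * π ^ 2))).rexp
      have t6 := t4.add ((t3.add t5).const_mul (g x))
      simp only [add_zero, mul_zero] at t6
      refine t6.congr' ?_
      filter_upwards [t1.eventually (ball_mem_nhds x (by norm_num : (0 : ℝ) < 1 / 8))] with k hk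
      simp only [F, G]
      rw [Set.indicator_of_mem (s := ball x (1 / 8)) hk, add_comm (ξ k)]
      ring)
  simp only [integral_zero] at hlim
  refine hlim.congr' ?_
  filter_upwards [hpos, hFb] with k hk hb
  rw [integral_sub (hbi.mono' (hFm k) (ae_of_all _ hb)) (hGi k)]
  simp only [F, G]
  rw [integral_mul_const, gauss_int hM, Measure.integral_comp_smul volume
    (fun u => (ball x (1 / 8)).indicator (fun y => g y * Phi (v k) y) (u + ξ k)),
    integral_add_right_eq_self, integral_indicator measurableSet_ball, inv_pow, inv_inv,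
    abs_of_pos (by positivity)]
  simp

lemma near_peak {l : Filter κ} {v : ∀ k, ι k → E d}
    (hv : ∀ k i, ‖v k i‖ ≤ 1) (hn : Tendsto (fun k => rt (ι k)) l atTop) {M : Mat d}
    (hM : M.PosDef) (hMl : Tendsto (fun k => emp (v k)) l (𝓝 M)) {x : E d} {ξ : κ → E d}
    (hp : Peak l v x ξ) {g : E d → ℝ} (hg : Continuous g) {B : ℝ} (hB : ∀ y, |g y| ≤ B) :
    Tendsto (fun k => rt (ι k) ^ d * (∫ y in ball x (1 / 8), g y * Phi (v k) y) -
      cM M * (g x * Phi (v k) (ξ k))) l (𝓝 0) := by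
  obtain ⟨hξ, m, C, hC, hF⟩ := hp
  have : FirstCountableTopology (Mat d) :=
    inferInstanceAs (FirstCountableTopology (Fin d → Fin d → ℝ))
  let l' : Filter κ := (comap ξ (𝓝 x) ⊓ comap (fun k => rt (ι k)) atTop) ⊓
    ((comap (fun k => emp (v k)) (𝓝 M) ⊓ 𝓟 {k | ∑ i, (2 * ⟪ξ k, v k i⟫ - m k i) ^ 2 ≤ C}) ⊓
    comap (fun k => (rt (ι k))⁻¹ • ∑ i, (2 * ⟪ξ k, v k i⟫ - m k i) • v k i) (𝓝 0))
  have hl : l ≤ l' := le_inf (le_inf hξ.le_comap hn.le_comap)
    (le_inf (le_inf hMl.le_comap (le_principal_iff.2 hC)) hF.le_comap)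
  refine (near_peak_aux (l := l') hv ?_ hM ?_ ⟨?_, m, C, ?_, ?_⟩ hg hB).mono_left hl
  · exact tendsto_iff_comap.2 (inf_le_left.trans inf_le_right)
  · exact tendsto_iff_comap.2 (inf_le_right.trans (inf_le_left.trans inf_le_left))
  · exact tendsto_iff_comap.2 (inf_le_left.trans inf_le_left)
  · exact le_principal_iff.1 (inf_le_right.trans (inf_le_left.trans inf_le_right))
  · exact tendsto_iff_comap.2 (inf_le_right.trans inf_le_right)

/-- Away from the set `Λ` the characteristic function is negligible. -/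
def OffPeak (l : Filter κ) (v : ∀ k, ι k → E d) (Λ : Set (E d)) : Prop :=
  ∀ x ∉ Λ, ∃ ρ > 0, ∀ R : ℝ, ∀ᶠ k in l, ∀ y ∈ ball x ρ, R ≤ Q (v k) y

lemma OffPeak.compact {l : Filter κ} {v : ∀ k, ι k → E d} {Λ : Set (E d)} (h : OffPeak l v Λ)
    {K : Set (E d)} (hK : IsCompact K) (hd : ∀ x ∈ K, x ∉ Λ) (R : ℝ) :
    ∀ᶠ k in l, ∀ y ∈ K, R ≤ Q (v k) y := by
  refine hK.induction_on (p := fun s => ∀ᶠ k in l, ∀ y ∈ s, R ≤ Q (v k) y) (by simp)
    (fun s t hst ht => ht.mono fun k hk y hy => hk y (hst hy))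
    (fun s t hs ht => (hs.and ht).mono fun k hk y hy => hy.elim (hk.1 y) (hk.2 y)) ?_
  intro x hx
  obtain ⟨ρ, hρ, h1⟩ := h x (hd x hx)
  exact ⟨ball x ρ, mem_nhdsWithin_of_mem_nhds (ball_mem_nhds x hρ), h1 R⟩

lemma OffPeak.tendsto {l : Filter κ} {v : ∀ k, ι k → E d} {Λ : Set (E d)} (h : OffPeak l v Λ)
    {x : E d} (hx : x ∉ Λ) {ξ : κ → E d} (hξ : Tendsto ξ l (𝓝 x)) :
    Tendsto (fun k => Phi (v k) (ξ k)) l (𝓝 0) := by
  obtain ⟨ρ, hρ, h1⟩ := h x hx
  have h2 : Tendsto (fun k => Q (v k) (ξ k)) l atTop := tendsto_atTop.2 fun R => by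
    filter_upwards [h1 R, hξ.eventually (ball_mem_nhds x hρ)] with k hk hk' using hk _ hk'
  exact squeeze_zero_norm (fun k => abs_Phi_le _ _)
    (tendsto_exp_atBot.comp (h2.const_mul_atTop_of_neg (by norm_num)))

lemma J_bound {ι : Type*} [Fintype ι] (v : ι → E d) (h0 : 0 < rt ι) {c : ℝ} (hc : 0 < c)
    (h : ∀ ζ, c * ‖ζ‖ ^ 2 ≤ qm (emp v) ζ) :
    rt ι ^ d * J v ≤ ∫ ζ : E d, exp (-c * ‖ζ‖ ^ 2) := by
  have e := Measure.integral_comp_smul (volume : Measure (E d))
    ((closedBall (0 : E d) (1 / 4)).indicator fun ω => exp (-qf v ω)) (rt ι)⁻¹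
  rw [integral_indicator measurableSet_closedBall, inv_pow, inv_inv,
    abs_of_pos (by positivity)] at e
  simp only [finrank_euclideanSpace, Fintype.card_fin, smul_eq_mul] at e
  rw [J, ← e]
  refine integral_mono_of_nonneg (ae_of_all _ fun ζ => Set.indicator_nonneg
    (fun _ _ => (exp_pos _).le) _) (int_gauss hc) (ae_of_all _ fun ζ => ?_)
  refine (Set.indicator_le_self' (fun _ _ => (exp_pos _).le) _).trans ?_
  simp only [← qm_emp, exp_le_exp]
  linarith [h ζ]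

/-- The local limit theorem. -/
theorem MAT {l : Filter κ} {v : ∀ k, ι k → E d}
    (hv : ∀ k i, ‖v k i‖ ≤ 1) (hn : Tendsto (fun k => rt (ι k)) l atTop) {M : Mat d}
    (hM : M.PosDef) (hMl : Tendsto (fun k => emp (v k)) l (𝓝 M)) {Λ : Set (E d)} (hs : Sep Λ)
    {ξ : Λ → κ → E d} (hp : ∀ x : Λ, Peak l v x (ξ x)) (ho : OffPeak l v Λ)
    {g : E d → ℝ} (hg : Continuous g) {B : ℝ} (hB : ∀ y, |g y| ≤ B * wt y) :
    Tendsto (fun k => rt (ι k) ^ d * (∫ y, g y * Phi (v k) y) -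
      cM M * ∑' x : Λ, g x * Phi (v k) (ξ x k)) l (𝓝 0) := by
  classical
  have hB0 : 0 ≤ B := nonneg_of_mul_nonneg_left ((abs_nonneg _).trans (hB 0)) (wt_pos 0)
  have hB1 : ∀ y, |g y| ≤ B := fun y =>
    (hB y).trans (mul_le_of_le_one_right hB0 (wt_le_one y))
  obtain ⟨c, hc, hco⟩ := coercive hM
  set K := ∫ ζ : E d, exp (-c * ‖ζ‖ ^ 2)
  have hJ : ∀ᶠ k in l, rt (ι k) ^ d * J (v k) ≤ K := by
    filter_upwards [hMl.eventually hco, hn.eventually_gt_atTop 0] with k h1 h2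
    exact J_bound _ h2 hc h1
  have hgi : ∀ k, Integrable fun y => g y * Phi (v k) y := fun k =>
    ((wt_integrable.const_mul B).mono' hg.aestronglyMeasurable (ae_of_all _ hB)).mul_bdd
      (Phi_cont _).aestronglyMeasurable (ae_of_all _ (abs_Phi_le_one _))
  rw [Metric.tendsto_nhds]
  intro ε hε
  have t1 : Tendsto (fun T => B * K * (cI d * exp (-T) + tail d T) + cM M * (B * tail d T))
      atTop (𝓝 0) := by
    have := (((tendsto_exp_neg_atTop_nhds_zero.const_mul (cI d)).add (tail_tendsto d)).const_mul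
      (B * K)).add (((tail_tendsto d).const_mul B).const_mul (cM M))
    simpa using this
  obtain ⟨T, hT⟩ := (t1.eventually (gt_mem_nhds (half_pos hε))).exists
  let s : Finset Λ := (hs.finite T).toFinset
  have hsm : ∀ x : Λ, x ∈ s ↔ ‖(x : E d)‖ ≤ T := fun x => Set.Finite.mem_toFinset _
  let U : Set (E d) := ⋃ x ∈ s, ball (x : E d) (1 / 8)
  have hU : IsOpen U := isOpen_biUnion fun x _ => isOpen_ball
  have hoff := ho.compact ((isCompact_closedBall (0 : E d) T).inter_right hU.isClosed_compl)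
    (fun x hx hxΛ => hx.2 (Set.mem_biUnion (x := (⟨x, hxΛ⟩ : Λ))
      ((hsm _).2 (mem_closedBall_zero_iff.1 hx.1)) (mem_ball_self (by norm_num)))) T
  have t2 := tendsto_finsetSum s fun x _ => near_peak hv hn hM hMl (hp x) hg hB1
  simp only [sum_const_zero] at t2
  filter_upwards [hJ, hoff, hn.eventually_gt_atTop 0,
    (Metric.tendsto_nhds.1 t2) _ (half_pos hε)] with k h1 h2 h3 h4
  have hsum : Summable fun x : Λ => g x * Phi (v k) (ξ x k) :=
    Summable.of_norm_bounded (hs.summable.mul_left B) fun x => by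
      rw [Real.norm_eq_abs, abs_mul]
      exact (mul_le_of_le_one_right (abs_nonneg _) (abs_Phi_le_one _ _)).trans (hB _)
  rw [← integral_add_compl hU.measurableSet (hgi k), ← hsum.sum_add_tsum_compl (s := s),
    integral_biUnion_finset s (fun x _ => measurableSet_ball)
      (fun x _ y _ hxy => ball_disjoint_ball (by
        linarith [hs x x.2 y y.2 fun h => hxy (Subtype.ext h)]))
      (fun x _ => (hgi k).integrableOn)]
  rw [dist_zero_right, Real.norm_eq_abs] at h4 ⊢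
  rw [sum_sub_distrib, ← mul_sum, ← mul_sum] at h4
  have b1 : |∫ y in Uᶜ, g y * Phi (v k) y| ≤ B * (J (v k) * (cI d * exp (-T) + tail d T)) := by
    refine le_trans ?_ (mul_le_mul_of_nonneg_left (conc (hv k) hU.measurableSet.compl
      fun y hy hT => h2 y ⟨mem_closedBall_zero_iff.2 hT, hy⟩) hB0)
    rw [← integral_const_mul]
    refine (abs_integral_le_integral_abs).trans (integral_mono (hgi k).abs.integrableOn
      (Integrable.const_mul (Integrable.integrableOn ?_) B) fun y => ?_)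
    · exact wt_integrable.mul_bdd (Phi_cont _).abs.aestronglyMeasurable
        (ae_of_all _ fun y => by simpa using abs_Phi_le_one _ _)
    · simp only [abs_mul, ← mul_assoc]
      exact mul_le_mul_of_nonneg_right (hB y) (abs_nonneg _)
  have b2 : |∑' x : ((s : Set Λ)ᶜ : Set Λ), g (x : Λ) * Phi (v k) (ξ x k)| ≤ B * tail d T := by
    have hw : Summable fun x : ((s : Set Λ)ᶜ : Set Λ) => B * wt ((x : Λ) : E d) :=
      (hs.summable.subtype _).mul_left B
    rw [← Real.norm_eq_abs]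
    refine (tsum_of_norm_bounded hw.hasSum fun x => ?_).trans ?_
    · rw [Real.norm_eq_abs, abs_mul]
      exact (mul_le_of_le_one_right (abs_nonneg _) (abs_Phi_le_one _ _)).trans (hB _)
    · rw [tsum_mul_left]
      refine mul_le_mul_of_nonneg_left ?_ hB0
      refine (hs.summable.subtype _).tsum_le_of_sum_le fun t => ?_
      simp only [Function.comp_apply]
      rw [← sum_image (s := t) (g := Subtype.val) (f := fun x : Λ => wt (x : E d))
        fun x _ y _ hxy => Subtype.ext hxy]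
      refine hs.sum_le' _ fun x hx => ?_
      obtain ⟨y, -, rfl⟩ := mem_image.1 hx
      exact not_le.1 fun h => y.2 ((hsm _).2 h)
  have hc0 := cM_nonneg M
  have hp0 : 0 ≤ rt (ι k) ^ d := by positivity
  have ht0 : 0 ≤ cI d * exp (-T) + tail d T :=
    add_nonneg (mul_nonneg (cI_nonneg d) (exp_pos _).le) (tail_nonneg d T)
  have b3 : |rt (ι k) ^ d * ∫ y in Uᶜ, g y * Phi (v k) y| ≤
      B * K * (cI d * exp (-T) + tail d T) := by
    rw [abs_mul, abs_of_nonneg hp0]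
    calc _ ≤ rt (ι k) ^ d * (B * (J (v k) * (cI d * exp (-T) + tail d T))) := by gcongr
      _ = B * (rt (ι k) ^ d * J (v k)) * (cI d * exp (-T) + tail d T) := by ring
      _ ≤ _ := by gcongr
  have b4 : |cM M * ∑' x : ((s : Set Λ)ᶜ : Set Λ), g (x : Λ) * Phi (v k) (ξ x k)| ≤
      cM M * (B * tail d T) := by
    rw [abs_mul, abs_of_nonneg hc0]; gcongr
  rw [abs_lt] at h4 ⊢
  rw [abs_le] at b3 b4
  constructor <;> nlinarith [h4.1, h4.2, b3.1, b3.2, b4.1, b4.2]

end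

end Pool.Agent.Lib.MP_3b7d13_co.Var
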