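import Pool.Agent.Lib.MP_3b7d13_co.VarReal

/-! The lower bound when the limiting dual group does not span the space. -/

namespace Pool.Agent.Lib.MP_3b7d13_co.Var

open Real Finset MeasureTheory Metric Filter Topology Module
open scoped RealInnerProductSpace

variable {d : ℕ}

lemma ev_entry {M : Mat d} {P : Mat d → Prop} (h : ∀ᶠ M' in 𝓝 M, P M') :
    ∃ η > 0, ∀ M' : Mat d, (∀ s t, |M' s t - M s t| < η) → P M' := by
  obtain ⟨η, hη, h⟩ := (Metric.eventually_nhds_iff (α := Fin d → Fin d → ℝ) (x := M)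
    (p := P)).1 h
  exact ⟨η, hη, fun M' h' => h ((dist_pi_lt_iff hη).2 fun s => (dist_pi_lt_iff hη).2 fun t => h' s t)⟩

lemma emp_close {ι : Type*} [Fintype ι] {a v : ι → E d} (ha : ∀ i, ‖a i‖ ≤ 1)
    (hv : ∀ i, ‖v i‖ ≤ 1) {τ β : ℝ} (hτ : 0 < τ) (hn : 0 < (Fintype.card ι : ℝ))
    (h : ∑ i, ‖a i - v i‖ ^ 2 ≤ Fintype.card ι * β) (s t : Fin d) :
    |emp a s t - emp v s t| ≤ τ + β / τ := by
  simp only [emp, mom, Matrix.of_apply, mul_assoc, ← mul_sum, ← mul_sub, ← sum_sub_distrib]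
  rw [abs_mul, abs_of_pos (inv_pos.2 hn), inv_mul_le_iff₀ hn]
  refine (abs_sum_le_sum_abs _ _).trans ((sum_le_sum fun i _ =>
    show _ ≤ τ + ‖a i - v i‖ ^ 2 / τ from ?_).trans ?_)
  · have c : ∀ (x : E d) s, |x s| ≤ ‖x‖ := fun x s => PiLp.norm_apply_le x s
    have b1 := c (a i - v i) s
    have b2 := c (a i - v i) t
    rw [PiLp.sub_apply] at b1 b2
    rw [show a i s * a i t - v i s * v i t = (a i s - v i s) * a i t + v i s * (a i t - v i t) by
      ring]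
    refine (abs_add_le _ _).trans ?_
    rw [abs_mul, abs_mul, ← sub_le_iff_le_add', le_div_iff₀ hτ]
    have b3 := mul_le_mul b1 ((c _ t).trans (ha i)) (abs_nonneg _) (norm_nonneg _)
    have b4 := mul_le_mul ((c _ s).trans (hv i)) b2 (abs_nonneg _) zero_le_one
    nlinarith [sq_nonneg (‖a i - v i‖ - τ)]
  · rw [sum_add_distrib, sum_const, card_univ, nsmul_eq_mul, ← sum_div, mul_add, mul_div_assoc']
    gcongr

lemma norm_add_perp {u e : E d} (he : ‖e‖ = 1) (h : ⟪e, u⟫ = 0) (t : ℝ) :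
    ‖u + t • e‖ ^ 2 = ‖u‖ ^ 2 + t ^ 2 := by
  rw [norm_add_sq_real, real_inner_smul_right, real_inner_comm, h, norm_smul, he, Real.norm_eq_abs]
  simp

lemma unit_add_perp {u e : E d} (he : ‖e‖ = 1) (h : ⟪e, u⟫ = 0) (hu : ‖u‖ ≤ 1) {t : ℝ}
    (ht : |t| = √(1 - ‖u‖ ^ 2)) : ‖u + t • e‖ = 1 := by
  refine (sq_eq_sq₀ (norm_nonneg _) zero_le_one).1 ?_
  rw [norm_add_perp he h, ← sq_abs t, ht, sq_sqrt (by nlinarith [norm_nonneg u])]
  ring

lemma split_perp {m : ℕ} {f : Fin m → E d} (hf : Orthonormal ℝ f) (l0 : Fin m) (v : E d) :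
    ∃ (e : E d) (t : ℝ), ‖e‖ = 1 ∧ 0 ≤ t ∧ ∑ j, ⟪f j, v⟫ • f j = t • e ∧
      (∀ x, (∀ j, ⟪f j, x⟫ = 0) → ⟪e, x⟫ = 0) ∧ ∀ j, ⟪f j, v - t • e⟫ = 0 := by
  have h1 : ∀ j, ⟪f j, v - ∑ j, ⟪f j, v⟫ • f j⟫ = 0 := fun j => by
    rw [inner_sub_right, hf.inner_right_fintype, sub_self]
  rcases eq_or_ne (∑ j, ⟪f j, v⟫ • f j) 0 with h | h
  · exact ⟨f l0, 0, hf.1 l0, le_rfl, by simp [h], fun x hx => hx l0, by simpa [h] using h1⟩
  · have hn := norm_pos_iff.2 h
    have e := smul_inv_smul₀ hn.ne' (∑ j, ⟪f j, v⟫ • f j)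
    refine ⟨_, _, by simp [norm_smul, hn.ne'], hn.le, e.symm, fun x hx => ?_, by rwa [e]⟩
    simp [real_inner_smul_left, sum_inner, hx]

lemma proj_le {m : ℕ} {f : Fin m → E d} (hf : Orthonormal ℝ f) (l0 : Fin m) (v : E d) :
    ‖v - ∑ j, ⟪f j, v⟫ • f j‖ ≤ ‖v‖ := by
  obtain ⟨e, t, h1, -, h2, h3, h4⟩ := split_perp hf l0 v
  have := norm_add_perp h1 (h3 _ h4) t
  rw [sub_add_cancel] at this
  rw [h2]
  exact abs_le_of_sq_le_sq' (by nlinarith) (norm_nonneg _) |>.2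

lemma lift {m : ℕ} {f : Fin m → E d} (hf : Orthonormal ℝ f) (l0 : Fin m) {u v : E d}
    (hu : ∀ j, ⟪f j, u⟫ = 0) (hu1 : ‖u‖ ≤ 1) (hv : ‖v‖ = 1) :
    ∃ a : E d, ‖a‖ = 1 ∧ (∀ x, (∀ j, ⟪f j, x⟫ = 0) → ⟪x, a⟫ = ⟪x, u⟫) ∧
      ‖a - v‖ ^ 2 ≤ 4 * ‖u - (v - ∑ j, ⟪f j, v⟫ • f j)‖ := by
  have h0 := proj_le hf l0 v
  obtain ⟨e, t, h1, ht, h2, h3, h4⟩ := split_perp hf l0 v
  rw [h2] at h0 ⊢
  set t' := √(1 - ‖u‖ ^ 2)
  have ht' : 0 ≤ t' := sqrt_nonneg _
  have h5 : t' ^ 2 = 1 - ‖u‖ ^ 2 := sq_sqrt (by nlinarith [norm_nonneg u])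
  refine ⟨u + t' • e, unit_add_perp h1 (h3 _ hu) hu1 (abs_of_nonneg ht'), fun x hx => ?_, ?_⟩
  · rw [inner_add_right, real_inner_smul_right, real_inner_comm e, h3 x hx, mul_zero, add_zero]
  · have h6 := norm_add_perp h1 (h3 _ h4) t
    rw [sub_add_cancel, hv] at h6
    rw [show u + t' • e - v = (u - (v - t • e)) + (t' - t) • e by rw [sub_smul]; abel,
      norm_add_perp h1 (h3 _ fun j => by rw [inner_sub_right, hu, h4, sub_self])]
    set q := v - t • e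
    have h7 := abs_le.1 (abs_norm_sub_norm_le u q)
    have h8 := norm_sub_le u q
    have h9 := norm_nonneg (u - q)
    have : (t' - t) ^ 2 ≤ 2 * ‖u - q‖ := by
      rcases le_total t t' with h | h <;> nlinarith [norm_nonneg u, norm_nonneg q]
    nlinarith

lemma dual_perp {A : Set (E d)} {e u x : E d} {t : ℝ} (ht : Irrational t) (h1 : e ∈ A)
    (h2 : u + t • e ∈ A) (h3 : u + (-t) • e ∈ A) (hx : x ∈ dualS A) : ⟪e, x⟫ = 0 := by
  obtain ⟨a, ha⟩ := hx _ h1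
  obtain ⟨b, hb⟩ := hx _ h2
  obtain ⟨c, hc⟩ := hx _ h3
  simp only [inner_add_right, real_inner_smul_right] at hb hc
  rw [real_inner_comm]
  by_contra h
  refine ht.ne_rational (b - c) (2 * a) ?_
  push_cast
  rw [← ha, ← hb, ← hc]
  field_simp
  ring

lemma exists_good (L : Submodule ℤ (E d)) [DiscreteTopology L] {ε : ℝ} (hε : 0 < ε) :
    ∃ s, 0 < s ∧ s < ε ∧ ∀ x ∈ L, x ≠ 0 → ‖(1 + s)⁻¹ • x‖ ≤ 1 →
      Irrational √(1 - ‖(1 + s)⁻¹ • x‖ ^ 2) := by
  have : Countable L := TopologicalSpace.separableSpace_iff_countable.1 inferInstance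
  obtain ⟨s, h1, h2, h3⟩ := ((Set.countable_range fun q : L × ℚ =>
    ‖(q.1 : E d)‖ / √(1 - (q.2 : ℝ) ^ 2) - 1).dense_compl ℝ).exists_between hε
  refine ⟨s, h2, h3, fun x hx hx0 h4 ⟨q, hq⟩ => h1 ⟨(⟨x, hx⟩, q), ?_⟩⟩
  have := norm_pos_iff.2 hx0
  simp only
  rw [hq, sq_sqrt (by nlinarith [norm_nonneg ((1 + s)⁻¹ • x)]), sub_sub_cancel,
    sqrt_sq (norm_nonneg _), norm_smul, Real.norm_of_nonneg (by positivity)]
  field_simp
  ring

lemma wt_smul {c : ℝ} (hc : 1 ≤ c) (x : E d) : wt (c • x) ≤ wt x := by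
  refine rpow_le_rpow_of_nonpos (by positivity) ?_ (neg_nonpos.2 (by positivity))
  rw [norm_smul, Real.norm_of_nonneg (by linarith)]
  nlinarith [norm_nonneg x]

variable {κ : Type*} {ι : κ → Type*} [∀ k, Fintype (ι k)]
  {g : E d → ℝ} (hg : Continuous g) {B : ℝ} (hB : ∀ y, |g y| ≤ B * wt y) {q : ℕ}
  {S : Set ℝ} (hS : IsClosed S) (hD : ∀ D : Datum d, D.k % 2 = q % 2 → FV D g ∈ S)
  {l : Filter κ} [l.NeBot] {v : ∀ k, ι k → E d} (hv : ∀ k i, ‖v k i‖ = 1)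
  (hn : Tendsto (fun k => rt (ι k)) l atTop) {M : Mat d} (hM : M.PosDef)
  (hMl : Tendsto (fun k => emp (v k)) l (𝓝 M)) (hq : ∀ᶠ k in l, Fintype.card (ι k) % 2 = q % 2)
  {Λ : Set (E d)} {m : ℕ} {f : Fin m → E d} {L : Submodule ℤ (E d)} {R : κ → E d →L[ℝ] E d}
  {P : E d →L[ℝ] E d} {p : ∀ k, ι k → E d} {C : ℝ} (h : Str l v Λ f L R P p C)

include hn in
lemma card_tendsto : Tendsto (fun k => (Fintype.card (ι k) : ℝ)) l atTop :=
  ((tendsto_pow_atTop two_ne_zero).comp hn).congr fun _ => rt_sq _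

include hg hB hS hD hv hn hMl hq h in
lemma part_step (hd : 2 ≤ d) (l0 : Fin m) {τ s : ℝ} (hτ : 0 < τ) (hs : 0 < s) (hs1 : s ≤ 1)
    (hsτ : s ≤ τ ^ 2)
    (hpd : ∀ M' : Mat d, (∀ s t, |M' s t - M s t| < 15 * τ) → M'.IsHermitian → M'.PosDef)
    (hirr : ∀ x ∈ L, x ≠ 0 → ‖(1 + s)⁻¹ • x‖ ≤ 1 → Irrational √(1 - ‖(1 + s)⁻¹ • x‖ ^ 2)) :
    ∀ᶠ k in l, ∃ (M' : Mat d) (A : ℝ), cM M' * A ∈ S ∧ (∀ s t, |M' s t - M s t| < 15 * τ) ∧
      |A - ∑' x : Λ, g ((1 + s) • (x : E d)) * Phi (fun i => R k (v k i)) x| < τ := by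
  set c := 1 + s with hc
  have hc0 : 0 < c := by positivity
  let Λ' := (fun x => c • x) '' Λ
  let A : Set (E d) := {x | ‖x‖ = 1 ∧ x ∈ dualS Λ'}
  have hA : ∀ u x : E d, ‖x‖ = 1 → (∀ y ∈ Λ, ⟪y, x⟫ = ⟪y, c⁻¹ • u⟫) → u ∈ L → x ∈ A := by
    rintro u x h1 h2 h3
    refine ⟨h1, ?_⟩
    rintro _ ⟨y, hy, rfl⟩
    obtain ⟨n, hn⟩ := (h.dual u h3).1 y hy
    refine ⟨n, ?_⟩
    rw [real_inner_smul_right, real_inner_comm, h2 y hy, real_inner_smul_right,
      mul_inv_cancel_left₀ hc0.ne', real_inner_comm, hn]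
  have hR : ∀ᶠ k in l, ∀ i, ‖R k (v k i) - P (v k i)‖ ≤ s / 2 := by
    filter_upwards [Metric.tendsto_nhds.1 h.lim _ (half_pos hs)] with k hk i
    have := (R k - P).le_opNorm (v k i)
    rw [hv, mul_one, ← dist_eq_norm] at this
    exact this.trans hk.le
  have hP : ∀ k i, ‖P (v k i)‖ ≤ 1 := fun k i => by
    rw [h.proj]; exact (proj_le h.on l0 _).trans (hv k i).le
  have hy : ∀ᶠ k in l, ∀ i, ‖R k (v k i)‖ ≤ 1 + s / 2 := hR.mono fun k hk i => by
    linarith [norm_sub_norm_le (R k (v k i)) (P (v k i)), hk i, hP k i]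
  have hle : ∀ x : E d, ‖x‖ ≤ c → ‖c⁻¹ • x‖ ≤ 1 := fun x hx => by
    rw [norm_smul, Real.norm_of_nonneg (by positivity), inv_mul_le_iff₀ hc0]; linarith
  have key : ∀ᶠ k in l, ∃ a : ι k → E d, (∀ i, ∃ u ∈ L, ‖c⁻¹ • u‖ ≤ 1 ∧ ‖a i‖ = 1 ∧
      ∀ x, (∀ j, ⟪f j, x⟫ = 0) → ⟪x, a i⟫ = ⟪x, c⁻¹ • u⟫) ∧
        ∀ s t, |emp a s t - M s t| < 15 * τ := by
    filter_upwards [hR, hy, h.bdd, (card_tendsto hn).eventually_gt_atTop (12 * |C| / s ^ 4),
      eventually_all.2 fun s => eventually_all.2 fun t => Metric.tendsto_nhds.1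
        (tendsto_pi_nhds.1 (tendsto_pi_nhds.1 hMl s) t) _ hτ] with k a1 a2 a3 a4 a5
    have a6 : ∀ i, ∃ u ∈ L, ‖c⁻¹ • u‖ ≤ 1 ∧
        ‖c⁻¹ • u - P (v k i)‖ ≤ 3 * s + 3 / s ^ 3 * ‖R k (v k i) - p k i‖ ^ 2 := fun i => by
      set z := ‖R k (v k i) - p k i‖ with hz
      have b1 : 3 / s * z ≤ s + 3 / s ^ 3 * z ^ 2 := by
        rw [div_mul_eq_mul_div, div_mul_eq_mul_div, div_le_iff₀ hs, add_mul,
          show 3 * z ^ 2 / s ^ 3 * s = 3 * (z / s) ^ 2 by field_simp,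
          show 3 * z = 3 * (z / s) * s by field_simp]
        nlinarith [sq_nonneg (s - 3 / 2 * (z / s)), sq_nonneg (z / s)]
      have b2 : z ≤ 3 / s * z := le_mul_of_one_le_left (norm_nonneg _) (by
        rw [le_div_iff₀ hs]; linarith)
      by_cases hp : ‖p k i‖ ≤ c
      · refine ⟨p k i, h.mem k i, hle _ hp, ?_⟩
        have b3 : ‖c⁻¹ • p k i - p k i‖ ≤ s := by
          rw [show c⁻¹ • p k i - p k i = (-s) • c⁻¹ • p k i by
            rw [smul_smul, ← one_smul ℝ (p k i), smul_smul, ← sub_smul, smul_smul]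
            congr 1; field_simp; rw [hc]; ring, norm_smul, norm_neg, Real.norm_of_nonneg hs.le]
          exact mul_le_of_le_one_right hs.le (hle _ hp)
        linarith [norm_sub_le_norm_sub_add_norm_sub (c⁻¹ • p k i) (p k i) (P (v k i)), a1 i,
          norm_sub_le_norm_sub_add_norm_sub (p k i) (R k (v k i)) (P (v k i)),
          norm_sub_rev (p k i) (R k (v k i))]
      · refine ⟨0, L.zero_mem, by simp, ?_⟩
        have b3 : 1 ≤ 3 / s * z := by
          rw [div_mul_eq_mul_div, le_div_iff₀ hs]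
          linarith [norm_sub_norm_le (p k i) (R k (v k i)), norm_sub_rev (p k i) (R k (v k i)),
            a2 i, not_le.1 hp]
        rw [smul_zero, zero_sub, norm_neg]
        linarith [hP k i]
    choose u b1 b2 b3 using a6
    choose a c1 c2 c3 using fun i => lift h.on l0 (u := c⁻¹ • u i) (fun j => by
      rw [real_inner_smul_right, (h.dual _ (b1 i)).2, mul_zero]) (b2 i) (hv k i)
    have hn0 : (0 : ℝ) < Fintype.card (ι k) := lt_of_le_of_lt (by positivity) a4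
    refine ⟨a, fun i => ⟨u i, b1 i, b2 i, c1 i, c2 i⟩, fun s' t => ?_⟩
    have d1 := emp_close (fun i => (c1 i).le) (fun i => (hv k i).le) hτ hn0 (β := 13 * s) (by
      refine (sum_le_sum fun i _ => (c3 i).trans
        (mul_le_mul_of_nonneg_left (h.proj _ ▸ b3 i) (by norm_num))).trans ?_
      rw [← mul_sum, sum_add_distrib, sum_const, ← mul_sum, card_univ, nsmul_eq_mul]
      rw [div_lt_iff₀ (by positivity)] at a4
      have : 3 / s ^ 3 * ∑ i, ‖R k (v k i) - p k i‖ ^ 2 ≤ Fintype.card (ι k) * s / 4 := by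
        rw [div_mul_eq_mul_div, div_le_iff₀ (by positivity)]
        nlinarith [le_abs_self C]
      nlinarith) s' t
    have d2 : 13 * s / τ ≤ 13 * τ := by rw [div_le_iff₀ hτ]; nlinarith
    have d3 := a5 s' t
    rw [Real.dist_eq] at d3
    linarith [abs_sub_le (emp a s' t) (emp (v k) s' t) (M s' t)]
  have hmem : ∀ {k} {a : ι k → E d}, (∀ i, ∃ u ∈ L, ‖c⁻¹ • u‖ ≤ 1 ∧ ‖a i‖ = 1 ∧
      ∀ x, (∀ j, ⟪f j, x⟫ = 0) → ⟪x, a i⟫ = ⟪x, c⁻¹ • u⟫) → ∀ i, a i ∈ A := fun ha i => by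
    obtain ⟨u, b1, -, b2, b3⟩ := ha i
    exact hA u _ b2 (fun y hy => b3 y (h.orth y hy)) b1
  obtain ⟨k0, a0, e1, e2⟩ := key.exists
  have e3 := span_top_of_posDef (hpd _ e2 (mom_herm _ _))
  have hsep : Sep (dualS A) := sep_dualS (fun x hx => hx.1.le)
    (eq_top_iff.2 (e3.ge.trans (Submodule.span_mono (Set.range_subset_iff.2 (hmem e1)))))
  have hperp : ∀ x ∈ dualS A, ∀ j, ⟪f j, x⟫ = 0 := by
    intro x hx j
    have hfj : ∀ y ∈ Λ, ⟪y, f j⟫ = 0 := fun y hy => by rw [real_inner_comm, h.orth y hy]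
    have b0 : f j ∈ A := hA 0 _ (h.on.1 j) (fun y hy => by simp [hfj y hy]) L.zero_mem
    by_cases h0 : ∀ y, (∀ j, ⟪f j, y⟫ = 0) → y = 0
    · obtain ⟨y, b1, b2⟩ := Submodule.exists_mem_ne_zero_of_ne_bot
        (LinearMap.ker_ne_bot_of_finrank_lt (f := (innerSL ℝ (f j)).toLinearMap) (by simp; omega))
      have b3 : ‖(√2⁻¹ * ‖y‖⁻¹) • y‖ = √2⁻¹ := by
        rw [norm_smul, Real.norm_of_nonneg (by positivity), mul_assoc,
          inv_mul_cancel₀ (norm_ne_zero_iff.2 b2), mul_one]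
      have b4 : ∀ t, |t| = √2⁻¹ → (√2⁻¹ * ‖y‖⁻¹) • y + t • f j ∈ A := fun t ht =>
        hA 0 _ (unit_add_perp (h.on.1 j) (by
          rw [real_inner_smul_right, show ⟪f j, y⟫ = 0 from b1, mul_zero])
          (by rw [b3]; exact Real.sqrt_le_one.2 (by norm_num))
          (by rw [b3, ht, sq_sqrt (by norm_num)]; norm_num))
          (fun y hy => by simp [h0 y (h.orth y hy)]) L.zero_mem
      exact dual_perp (t := √2⁻¹) (by rw [sqrt_inv]; exact irrational_sqrt_two.inv) b0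
        (b4 _ (abs_of_nonneg (sqrt_nonneg _))) (b4 _ (by
          rw [abs_neg, abs_of_nonneg (sqrt_nonneg _)])) hx
    · push Not at h0
      obtain ⟨y, b1, b2⟩ := h0
      obtain ⟨i, hi⟩ : ∃ i, ⟪y, a0 i⟫ ≠ 0 := by
        by_contra h'
        push Not at h'
        exact b2 (eq_zero_of_span e3 (by rintro _ ⟨i, rfl⟩; exact h' i))
      obtain ⟨u, b3, b4, -, b5⟩ := e1 i
      have b6 : ∀ t, |t| = √(1 - ‖c⁻¹ • u‖ ^ 2) → c⁻¹ • u + t • f j ∈ A := fun t ht =>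
        hA u _ (unit_add_perp (h.on.1 j) (by
          rw [real_inner_smul_right, (h.dual _ b3).2, mul_zero]) b4 ht)
          (fun y hy => by simp [inner_add_right, real_inner_smul_right, hfj y hy]) b3
      exact dual_perp (hirr u b3 (by rintro rfl; simp [b5 y b1] at hi) b4) b0
        (b6 _ (abs_of_nonneg (sqrt_nonneg _))) (b6 _ (by
          rw [abs_neg, abs_of_nonneg (sqrt_nonneg _)])) hx
  have hsub : Λ' ⊆ dualS A := fun x hx a ha => by
    rw [real_inner_comm]; exact ha.2 x hx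
  let H : κ → E d → ℝ := fun k x => g x * Phi (fun i => R k (v k i)) (c⁻¹ • x)
  have hH : ∀ k x, |H k x| ≤ B * wt x := fun k x => abs_mul_le_wt hB x (abs_Phi_le_one _ _)
  have hH' : ∀ k (T : Set (E d)) x, |T.indicator (H k) x| ≤ B * wt x := fun k T x =>
    (norm_indicator_le_norm_self (s := T) (H k) x).trans (hH k x)
  have t1 := tendsto_tsum_of_dominated_convergence (𝓕 := l) (g := 0)
    (f := fun k (x : dualS A) => Λ'ᶜ.indicator (H k) x) (hsep.summable.mul_left B) (fun x => ?_)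
    (Eventually.of_forall fun k x => hH' k _ x)
  · simp only [Pi.zero_apply, tsum_zero] at t1
    filter_upwards [key, hy, hq, Metric.tendsto_nhds.1 t1 _ hτ,
      (card_tendsto hn).eventually_gt_atTop 0] with k ⟨a, a1, a2⟩ a3 a4 a5 a6
    choose w b1 b2 b3 using fun i => lift h.on l0 (u := c⁻¹ • R k (v k i)) (fun j => by
      rw [real_inner_smul_right, h.range, mul_zero]) (hle _ ((a3 i).trans (by linarith))) (hv k i)
    refine ⟨emp a, _, realise hg hB hS hD (fun x hx => hx.1) (hmem a1) b1 (fun _ => by positivity)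
      (by simp [a6.ne']) (hpd _ a2 (mom_herm _ _)) a4, a2, ?_⟩
    have c1 : ∑' x : dualS A, g x * Phi w x = ∑' x : dualS A, H k x := tsum_congr fun x => by
      simp only [H, Phi, b2 _ _ (hperp x x.2), real_inner_smul_left, real_inner_smul_right]
    have c2 : ∑' x : Λ, g (c • (x : E d)) * Phi (fun i => R k (v k i)) x = ∑' x : Λ', H k x := by
      rw [tsum_image (H k) (smul_right_injective _ hc0.ne').injOn]
      simp only [H, inv_smul_smul₀ hc0.ne']
    rw [c1, c2, ← tsum_ind hsub, ← Summable.tsum_sub (hsep.summable' (hH k))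
      (hsep.summable' (hH' k _))]
    simpa only [dist_zero_right, Real.norm_eq_abs, Set.indicator_compl, Pi.sub_apply] using a5
  · by_cases hx : (x : E d) ∈ Λ'
    · simp only [Set.indicator_of_notMem (show (x : E d) ∉ Λ'ᶜ from fun h => h hx)]
      exact tendsto_const_nhds
    · simp only [Set.indicator_of_mem (show (x : E d) ∈ Λ'ᶜ from hx), H, Pi.zero_apply]
      rw [← mul_zero (g x)]
      refine (squeeze_zero_norm (fun k => abs_Phi_le _ _) (tendsto_exp_atBot.comp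
        ((h.off _ (fun h' => hx ⟨_, h', smul_inv_smul₀ hc0.ne' _⟩) fun j => ?_).const_mul_atTop_of_neg
          (by norm_num)))).const_mul _
      rw [real_inner_smul_right, hperp x x.2, mul_zero]

include hg hB hS hD hv hn hM hMl hq h in
theorem part (hd : 2 ≤ d) (l0 : Fin m) {x0 : ℝ}
    (hx : Tendsto (fun k => cM M * ∑' x : Λ, g x * Phi (fun i => R k (v k i)) x) l (𝓝 x0)) :
    x0 ∈ S := by
  have := h.disc
  obtain ⟨η, hη, h1⟩ := ev_entry (ev_posDef hM)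
  let τ : ℕ → ℝ := fun j => η / 15 * (1 / (j + 1))
  have hτ : Tendsto τ atTop (𝓝 0) := by
    simpa only [mul_zero] using
      (tendsto_one_div_add_atTop_nhds_zero_nat (𝕜 := ℝ)).const_mul (η / 15)
  have hτ0 : ∀ j, 0 < τ j := fun j => by positivity
  have hτ1 : ∀ j, 15 * τ j ≤ η := fun j => by
    have := mul_le_of_le_one_right (a := η / 15) (by positivity)
      (div_le_one_of_le₀ (by simp : (1 : ℝ) ≤ j + 1) (by positivity))
    simp only [τ]; linarith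
  choose s s1 s2 s3 using fun j => exists_good L (lt_min one_pos (pow_pos (hτ0 j) 2))
  choose k k1 k2 using fun j => ((Metric.tendsto_nhds.1 hx _ (hτ0 j)).and
    (part_step hg hB hS hD hv hn hMl hq h hd l0 (hτ0 j) (s1 j) (lt_min_iff.1 (s2 j)).1.le
      (lt_min_iff.1 (s2 j)).2.le (fun M' h => h1 M' fun s t => (h s t).trans_le (hτ1 j))
        (s3 j))).exists
  choose M' A a1 a2 a3 using k2
  have b1 : Tendsto M' atTop (𝓝 M) := tendsto_pi_nhds.2 fun s => tendsto_pi_nhds.2 fun t =>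
    tendsto_iff_norm_sub_tendsto_zero.2 (squeeze_zero (fun _ => norm_nonneg _)
      (fun j => (a2 j s t).le) (by simpa using hτ.const_mul 15))
  have b2 : Tendsto s atTop (𝓝 0) := squeeze_zero (fun j => (s1 j).le)
    (fun j => (lt_min_iff.1 (s2 j)).2.le) (by simpa using hτ.pow 2)
  have hB0 : 0 ≤ B := nonneg_of_mul_nonneg_left ((abs_nonneg _).trans (hB 0)) (wt_pos 0)
  have b3 : ∀ j x, |g ((1 + s j) • x)| ≤ B * wt x := fun j x =>
    (hB _).trans (mul_le_mul_of_nonneg_left (wt_smul (by linarith [s1 j]) x) hB0)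
  have b4 := tendsto_tsum_of_dominated_convergence (𝓕 := atTop) (g := 0)
    (f := fun j (x : Λ) => (g ((1 + s j) • (x : E d)) - g x) * Phi (fun i => R (k j) (v (k j) i)) x)
    (h.sep.summable.mul_left (2 * B)) (fun x => ?_) (Eventually.of_forall fun j x =>
      abs_mul_le_wt (g := fun x => g ((1 + s j) • x) - g x)
        (fun y => (abs_sub _ _).trans (by linarith [b3 j y, hB y])) _ (abs_Phi_le_one _ _))
  · simp only [Pi.zero_apply, tsum_zero] at b4
    have hc : cM M ≠ 0 := by have := hM.det_pos; unfold cM; positivity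
    have b5 := (tendsto_iff_dist_tendsto_zero.2 (squeeze_zero (fun _ => dist_nonneg)
      (fun j => (k1 j).le) hτ)).const_mul (cM M)⁻¹
    have b6 := ((squeeze_zero_norm (fun j => (a3 j).le) hτ).add b4).add b5
    have b7 := ((cM_contAt hM).tendsto.comp b1).mul b6
    rw [add_zero, zero_add, mul_inv_cancel_left₀ hc] at b7
    refine hS.mem_of_tendsto b7 (Eventually.of_forall fun j => ?_)
    simp only [sub_mul, inv_mul_cancel_left₀ hc]
    rw [Summable.tsum_sub (h.sep.summable' (G := fun x => g ((1 + s j) • x) * Phi _ x)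
      fun y => abs_mul_le_wt (g := fun x => g ((1 + s j) • x)) (b3 j) y (abs_Phi_le_one _ _))
      (h.sep.summable' (G := fun x => g x * Phi _ x)
        fun y => abs_mul_le_wt hB y (abs_Phi_le_one _ _))]
    simpa using a1 j
  · have := ((hg.tendsto _).comp ((b2.const_add 1).smul_const (x : E d))).sub_const (g x)
    rw [add_zero, one_smul, sub_self] at this
    refine squeeze_zero_norm (fun j => ?_) (by simpa using this.norm)
    rw [norm_mul]
    exact mul_le_of_le_one_right (norm_nonneg _) (abs_Phi_le_one _ _)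

end Pool.Agent.Lib.MP_3b7d13_co.Var
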