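import Pool.Agent.Lib.MP_3b7d13_co.VarTest

/-! Poisson summation for lattices. -/

namespace Pool.Agent.Lib.MP_3b7d13_co.Var

open Real Finset MeasureTheory Metric Filter Topology FourierTransform Module
open scoped RealInnerProductSpace

variable {d : ℕ}

/-- The frequencies that are half-integral on a set of vectors. -/
def dualS (A : Set (E d)) : Set (E d) := {l | ∀ a ∈ A, ∃ m : ℤ, 2 * ⟪l, a⟫ = m}

lemma dualS_span (A : Set (E d)) : dualS (Submodule.span ℤ A : Set (E d)) = dualS A := by
  refine Set.Subset.antisymm (fun l hl a ha => hl a (Submodule.subset_span ha)) fun l hl a ha => ?_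
  induction ha using Submodule.span_induction with
  | mem x hx => exact hl x hx
  | zero => exact ⟨0, by simp⟩
  | add x y _ _ hx hy =>
    obtain ⟨m, hm⟩ := hx
    obtain ⟨n, hn⟩ := hy
    exact ⟨m + n, by rw [inner_add_right, mul_add, hm, hn]; push_cast; rfl⟩
  | smul c x _ hx =>
    obtain ⟨m, hm⟩ := hx
    refine ⟨c * m, ?_⟩
    rw [← Int.cast_smul_eq_zsmul ℝ, real_inner_smul_right]
    push_cast
    rw [← hm]; ring

lemma dualS_sub {A : Set (E d)} {x y : E d} (hx : x ∈ dualS A) (hy : y ∈ dualS A) :
    x - y ∈ dualS A := by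
  intro a ha
  obtain ⟨m, hm⟩ := hx a ha
  obtain ⟨n, hn⟩ := hy a ha
  exact ⟨m - n, by rw [inner_sub_left, mul_sub, hm, hn]; push_cast; rfl⟩

lemma eq_zero_of_span {A : Set (E d)} (hs : Submodule.span ℝ A = ⊤) {x : E d}
    (h : ∀ a ∈ A, ⟪x, a⟫ = 0) : x = 0 := by
  have : ∀ y ∈ Submodule.span ℝ A, ⟪x, y⟫ = 0 := by
    intro y hy
    induction hy using Submodule.span_induction with
    | mem y hy => exact h y hy
    | zero => simp
    | add y z _ _ hy hz => rw [inner_add_right, hy, hz, add_zero]
    | smul c y _ hy => rw [real_inner_smul_right, hy, mul_zero]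
  exact inner_self_eq_zero.1 (this x (hs ▸ Submodule.mem_top))

lemma sep_dualS {A : Set (E d)} (hA : ∀ a ∈ A, ‖a‖ ≤ 1) (hs : Submodule.span ℝ A = ⊤) :
    Sep (dualS A) := by
  intro x hx y hy hxy
  by_contra hlt
  rw [not_le, dist_eq_norm] at hlt
  refine hxy (sub_eq_zero.1 (eq_zero_of_span hs fun a ha => ?_))
  obtain ⟨m, hm⟩ := dualS_sub hx hy a ha
  have h1 := abs_real_inner_le_norm (x - y) a
  have h2 : |(m : ℝ)| < 1 := by
    rw [← hm, abs_mul, abs_two]
    nlinarith [hA a ha, norm_nonneg (x - y), norm_nonneg a]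
  have h3 : m = 0 := by
    have : |m| < 1 := by exact_mod_cast h2
    exact Int.abs_lt_one_iff.1 this
  rw [h3] at hm
  simpa using hm

lemma lattice_finite (L : Submodule ℤ (E d)) [DiscreteTopology L] [IsZLattice ℝ L] (R : ℝ) :
    {x : L | ‖(x : E d)‖ ≤ R}.Finite := by
  let b := Free.chooseBasis ℤ L
  have h := ZSpan.setFinite_inter (b.ofZLatticeBasis ℝ L) (isBounded_closedBall (x := 0) (r := R))
  rw [b.ofZLatticeBasis_span ℝ] at h
  refine (h.preimage Subtype.val_injective.injOn).subset fun x hx => ⟨?_, x.2⟩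
  exact mem_closedBall_zero_iff.2 hx

lemma fourier_affine {φ g : E d → ℝ} {C : ℝ} (h : TP φ g C) (l y : E d) :
    ∫ x : E d, Complex.exp (((-2 * π * (2 * ⟪l, x⟫) : ℝ) : ℂ) * Complex.I) *
      (φ ((2 : ℝ) • x + y) : ℂ) =
      ((2 ^ d : ℝ)⁻¹ : ℝ) * (Complex.exp (((2 * π * ⟪l, y⟫ : ℝ) : ℂ) * Complex.I) * g l) := by
  let H : E d → ℂ := fun u =>
    Complex.exp (((-2 * π * ⟪u, l⟫ : ℝ) : ℂ) * Complex.I) • (φ u : ℂ)
  have h1 : ∀ x : E d, Complex.exp (((-2 * π * (2 * ⟪l, x⟫) : ℝ) : ℂ) * Complex.I) *
      (φ ((2 : ℝ) • x + y) : ℂ) =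
      Complex.exp (((2 * π * ⟪l, y⟫ : ℝ) : ℂ) * Complex.I) * H ((2 : ℝ) • x + y) := by
    intro x
    simp only [H, smul_eq_mul]
    rw [← mul_assoc (Complex.exp _), ← Complex.exp_add, inner_add_left, real_inner_smul_left,
      real_inner_comm x l, real_inner_comm y l]
    congr 2
    push_cast; ring
  simp_rw [h1]
  rw [integral_const_mul, Measure.integral_comp_smul volume (fun u => H (u + y)) 2,
    integral_add_right_eq_self, ← fourier_eq', h.four]
  rw [abs_of_nonneg (by positivity)]
  simp only [finrank_euclideanSpace, Fintype.card_fin, Complex.real_smul]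
  ring

theorem poisson (L : Submodule ℤ (E d)) [DiscreteTopology L] [IsZLattice ℝ L]
    (hs : Sep (dualS (L : Set (E d)))) {φ g : E d → ℝ} {C : ℝ} (h : TP φ g C) (y : E d) :
    HasSum (fun l : dualS (L : Set (E d)) => g l * cos (2 * π * ⟪(l : E d), y⟫))
      (2 ^ d * ZLattice.covolume L volume * ∑' x : L, φ ((2 : ℝ) • (x : E d) + y)) := by
  classical
  let b := Free.chooseBasis ℤ L
  let κ := Free.ChooseBasisIndex ℤ L
  let β : Basis κ ℝ (E d) := b.ofZLatticeBasis ℝ L
  have hβ : ∀ j, β j ∈ L := fun j => by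
    rw [show β j = b j from b.ofZLatticeBasis_apply ℝ L j]; exact (b j).2
  have hspan : Submodule.span ℤ (Set.range β) = L := b.ofZLatticeBasis_span ℝ
  let B : (κ → ℝ) ≃L[ℝ] E d := β.equivFunL.symm
  have hB : ∀ t, B t = ∑ j, t j • β j := fun t => β.equivFun_symm_apply t
  let F : E d → ℝ := fun x => ∑' l : L, φ ((2 : ℝ) • ((l : E d) + x) + y)
  obtain ⟨R, hR⟩ := h.supp.isCompact.isBounded.subset_closedBall 0
  have hzero : ∀ u, R < ‖u‖ → φ u = 0 := fun u hu => by
    by_contra hne
    have := mem_closedBall_zero_iff.1 (hR (subset_tsupport _ hne))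
    linarith
  obtain ⟨K, hK⟩ := h.cφ.bounded_above_of_compact_support h.supp
  have hFc : Continuous F := by
    rw [continuous_iff_continuousAt]
    intro x0
    have hfin := lattice_finite L (|R| + ‖y‖ + ‖x0‖ + 1)
    have := continuousOn_tsum (s := ball x0 1)
      (f := fun (l : L) x => φ ((2 : ℝ) • ((l : E d) + x) + y))
      (u := fun l : L => if l ∈ hfin.toFinset then K else 0)
      (fun l => (h.cφ.comp (by fun_prop)).continuousOn)
      (summable_of_ne_finset_zero (s := hfin.toFinset) fun l hl => if_neg hl)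
      (fun l x hx => by
        split_ifs with hl
        · exact hK _
        · rw [hzero]
          · simp
          rw [Set.Finite.mem_toFinset, Set.mem_ofPred_eq, not_le] at hl
          have a1 : ‖x‖ ≤ ‖x0‖ + 1 := by
            have := mem_ball.1 hx
            rw [dist_eq_norm] at this
            linarith [norm_le_insert' x x0]
          have a2 := norm_sub_le ((2 : ℝ) • ((l : E d) + x) + y) y
          rw [add_sub_cancel_right, norm_smul, Real.norm_two] at a2
          have a3 := norm_sub_le ((l : E d) + x) x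
          rw [add_sub_cancel_right] at a3
          linarith [le_abs_self R, abs_nonneg R, norm_nonneg y])
    exact this.continuousAt (ball_mem_nhds x0 one_pos)
  have hFp : ∀ x, ∀ l ∈ L, F (l + x) = F x := by
    intro x l hl
    simp only [F]
    rw [← (Equiv.addRight (⟨l, hl⟩ : L)).tsum_eq
      (fun l' : L => φ ((2 : ℝ) • ((l' : E d) + x) + y))]
    simp [add_assoc]
  let rep : UnitAddTorus κ → (κ → ℝ) := fun τ j => (AddCircle.equivIoc 1 0 (τ j) : ℝ)
  let mk : (κ → ℝ) → UnitAddTorus κ := fun t j => (t j : UnitAddCircle)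
  have hrep : ∀ t, F (B (rep (mk t))) = F (B t) := by
    intro t
    have : ∀ j, ∃ n : ℤ, rep (mk t) j = n + t j := fun j => by
      have e : ((rep (mk t) j : ℝ) : UnitAddCircle) = (t j : ℝ) :=
        (AddCircle.equivIoc 1 0).symm_apply_apply _
      rw [QuotientAddGroup.eq] at e
      obtain ⟨n, hn⟩ := AddSubgroup.mem_zmultiples_iff.1 e
      refine ⟨-n, ?_⟩
      simp only [zsmul_eq_mul, mul_one] at hn
      push_cast; linarith
    choose n hn using this
    have e : B (rep (mk t)) = ∑ j, n j • β j + B t := by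
      rw [hB, hB, ← sum_add_distrib]
      refine sum_congr rfl fun j _ => ?_
      rw [hn, add_smul, Int.cast_smul_eq_zsmul]
    rw [e, hFp _ _ (L.sum_mem fun j _ => L.smul_mem _ (hβ j))]
  have hq : IsOpenQuotientMap mk :=
    IsOpenQuotientMap.piMap fun _ => QuotientAddGroup.isOpenQuotientMap_mk
  let f : C(UnitAddTorus κ, ℂ) := ⟨fun τ => (F (B (rep τ)) : ℂ), by
    rw [← hq.continuous_comp_iff]
    have : (fun τ => (F (B (rep τ)) : ℂ)) ∘ mk = fun t => (F (B t) : ℂ) := by
      funext t; simp only [Function.comp, hrep]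
    rw [this]
    exact Complex.continuous_ofReal.comp (hFc.comp B.continuous)⟩
  have hf : ∀ t, f (mk t) = F (B t) := fun t => by
    change ((F (B (rep (mk t))) : ℝ) : ℂ) = _
    rw [hrep]
  -- the dual lattice
  have hex : ∀ (l : dualS (L : Set (E d))) j, ∃ m : ℤ, 2 * ⟪(l : E d), β j⟫ = m := fun l j =>
    l.2 (β j) (hβ j)
  choose mm hmm using hex
  have hbij : Function.Bijective mm := by
    constructor
    · intro l l' e
      refine Subtype.ext (sub_eq_zero.1 (eq_zero_of_span β.span_eq ?_))
      rintro _ ⟨j, rfl⟩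
      have a1 := hmm l j
      have a2 := hmm l' j
      rw [e] at a1
      rw [inner_sub_left]; linarith
    · intro m
      let ℓ : E d →L[ℝ] ℝ := (β.constr ℝ fun j => (m j : ℝ) / 2).toContinuousLinearMap
      have e : ∀ j, 2 * ⟪(InnerProductSpace.toDual ℝ (E d)).symm ℓ, β j⟫ = m j := fun j => by
        rw [InnerProductSpace.toDual_symm_apply]
        simp only [ℓ, LinearMap.coe_toContinuousLinearMap', Basis.constr_basis]
        ring
      generalize (InnerProductSpace.toDual ℝ (E d)).symm ℓ = x at e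
      have hx : x ∈ dualS (L : Set (E d)) := by
        rw [← hspan, dualS_span]
        rintro _ ⟨j, rfl⟩
        exact ⟨m j, e j⟩
      refine ⟨⟨x, hx⟩, ?_⟩
      funext j
      have := (hmm ⟨x, hx⟩ j).symm.trans (e j)
      exact Int.cast_injective this
  -- change of measure
  have hFD := ZLattice.isAddFundamentalDomain b (volume : Measure (E d))
  have hcov := ZLattice.covolume_eq_measure_fundamentalDomain L volume hFD
  have hcp := ZLattice.covolume_pos L (volume : Measure (E d))
  have hpre : B ⁻¹' ZSpan.fundamentalDomain β = Set.pi Set.univ fun _ => Set.Ico (0 : ℝ) 1 := by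
    ext t
    simp only [Set.mem_preimage, ZSpan.mem_fundamentalDomain, Set.mem_pi, Set.mem_univ,
      forall_true_left]
    refine forall_congr' fun j => ?_
    have : β.repr (B t) j = t j := congrFun (β.equivFun.apply_symm_apply t) j
    rw [this]
  have : (Measure.map B (volume : Measure (κ → ℝ))).IsAddHaarMeasure :=
    B.isAddHaarMeasure_map volume
  have hmap := Measure.isAddLeftInvariant_eq_smul (Measure.map B (volume : Measure (κ → ℝ)))
    (volume : Measure (E d))
  set c := Measure.addHaarScalarFactor (Measure.map B (volume : Measure (κ → ℝ)))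
    (volume : Measure (E d))
  have hFDm := ZSpan.fundamentalDomain_measurableSet β
  have hc : (c : ℝ) * ZLattice.covolume L volume = 1 := by
    have := congrArg (fun μ : Measure (E d) => μ.real (ZSpan.fundamentalDomain β)) hmap
    simp only [measureReal_nnreal_smul_apply] at this
    rw [hcov, ← this, Measure.real, Measure.map_apply B.continuous.measurable hFDm, hpre,
      volume_pi_pi]
    simp
  have hcoef : ∀ l : dualS (L : Set (E d)), UnitAddTorus.mFourierCoeff f (mm l) =
      ((2 ^ d * ZLattice.covolume L volume)⁻¹ : ℝ) *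
        (Complex.exp (((2 * π * ⟪(l : E d), y⟫ : ℝ) : ℂ) * Complex.I) * g l) := by
    intro l
    let χ : E d → ℂ := fun x =>
      Complex.exp (((-2 * π * (2 * ⟪(l : E d), x⟫) : ℝ) : ℂ) * Complex.I)
    have hχ : ∀ t, UnitAddTorus.mFourier (-mm l) (mk t) = χ (B t) := by
      intro t
      simp only [UnitAddTorus.mFourier, ContinuousMap.coe_mk, mk, fourier_coe_apply, χ]
      rw [← Complex.exp_sum, hB, inner_sum, mul_sum, mul_sum]
      congr 1
      push_cast
      rw [sum_mul]
      refine sum_congr rfl fun j _ => ?_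
      have := congrArg Complex.ofReal (hmm l j)
      rw [real_inner_smul_right]
      push_cast at this ⊢
      rw [Pi.neg_apply]
      push_cast
      rw [← this]; ring
    have hχp : ∀ (x : E d) (z : L), χ (z + x) = χ x := by
      intro x z
      obtain ⟨n, hn⟩ := l.2 z z.2
      simp only [χ]
      rw [inner_add_right, mul_add, hn, Complex.exp_eq_exp_iff_exists_int]
      exact ⟨-n, by push_cast; ring⟩
    let H : E d → ℂ := fun x => χ x * (φ ((2 : ℝ) • x + y) : ℂ)
    have hHc : Continuous H := by
      have := h.cφ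
      simp only [H, χ]; fun_prop
    have hHi : Integrable H := by
      refine hHc.integrable_of_hasCompactSupport (HasCompactSupport.intro
        (isCompact_closedBall 0 (|R| + ‖y‖)) fun x hx => ?_)
      rw [mem_closedBall_zero_iff, not_le] at hx
      simp only [H]
      rw [hzero]
      · simp
      have a2 := norm_sub_le ((2 : ℝ) • x + y) y
      rw [add_sub_cancel_right, norm_smul, Real.norm_two] at a2
      linarith [le_abs_self R, abs_nonneg R, norm_nonneg y]
    have : MeasurableVAdd L (E d) := (inferInstance : MeasurableVAdd L.toAddSubgroup (E d))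
    have : VAddInvariantMeasure L (E d) volume :=
      (inferInstance : VAddInvariantMeasure L.toAddSubgroup (E d) volume)
    have : Countable L := Countable.of_equiv _ b.equivFun.toEquiv.symm
    have u1 := hFD.integral_eq_tsum'' H hHi
    have u2 := hFD.lintegral_eq_tsum'' fun x => ‖H x‖ₑ
    rw [← integral_tsum (f := fun (z : L) x => H (z +ᵥ x))
      (fun z => (hHc.comp (continuous_const_vadd z)).aestronglyMeasurable)
      (by rw [← u2]; exact hHi.2.ne)] at u1
    have u3 : ∀ x, ∑' z : L, H (z +ᵥ x) = χ x * F x := by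
      intro x
      simp only [H, F, Submodule.vadd_def, vadd_eq_add, hχp]
      rw [tsum_mul_left, Complex.ofReal_tsum]
    simp_rw [u3] at u1
    rw [UnitAddTorus.mFourierCoeff_eq_integral _ _ 0]
    have u4 : ∫ t in {x : κ → ℝ | ∀ i, x i ∈ Set.Ioc ((0 : κ → ℝ) i) ((0 : κ → ℝ) i + 1)},
        UnitAddTorus.mFourier (-mm l) (fun i => (t i : UnitAddCircle)) •
          f (fun i => (t i : UnitAddCircle)) =
        ∫ t in B ⁻¹' ZSpan.fundamentalDomain β, χ (B t) * F (B t) := by
      rw [hpre]
      have e1 : {x : κ → ℝ | ∀ i, x i ∈ Set.Ioc ((0 : κ → ℝ) i) ((0 : κ → ℝ) i + 1)} =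
          Set.pi Set.univ fun _ => Set.Ioc (0 : ℝ) 1 := by
        ext t; simp
      have e2 : (Set.pi Set.univ fun _ : κ => Set.Ioc (0 : ℝ) 1) =ᵐ[volume]
          (Set.pi Set.univ fun _ : κ => Set.Ico (0 : ℝ) 1) :=
        (Measure.univ_pi_Ioc_ae_eq_Icc (f := fun _ => (0 : ℝ))
          (g := fun _ => (1 : ℝ))).trans Measure.univ_pi_Ico_ae_eq_Icc.symm
      rw [e1, setIntegral_congr_set e2]
      refine integral_congr_ae (ae_of_all _ fun t => ?_)
      exact congrArg₂ (· * ·) (hχ t) (hf t)
    have u5 : MeasurableEmbedding B := B.toHomeomorph.measurableEmbedding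
    rw [u4, ← u5.setIntegral_map (fun x => χ x * F x), hmap, Measure.restrict_smul, integral_smul_nnreal_measure, ← u1, fourier_affine h,
      NNReal.smul_def, Complex.real_smul, ← mul_assoc, ← Complex.ofReal_mul]
    congr 2
    rw [mul_inv, mul_comm, eq_inv_of_mul_eq_one_left hc]
  have hsum : Summable (UnitAddTorus.mFourierCoeff f) := by
    rw [← (Equiv.ofBijective mm hbij).summable_iff]
    refine Summable.of_norm_bounded (hs.summable.mul_left
      (|(2 ^ d * ZLattice.covolume L volume)⁻¹| * C)) fun l => ?_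
    simp only [Function.comp, Equiv.ofBijective_apply, hcoef, norm_mul,
      Complex.norm_exp_ofReal_mul_I, Complex.norm_real, Real.norm_eq_abs, one_mul, mul_assoc]
    exact mul_le_mul_of_nonneg_left (h.dec _) (abs_nonneg _)
  have hS := UnitAddTorus.hasSum_mFourier_series_apply_of_summable hsum (mk 0)
  rw [← (Equiv.ofBijective mm hbij).hasSum_iff, hf] at hS
  have hS2 := (Complex.hasSum_re hS).mul_left (2 ^ d * ZLattice.covolume L volume)
  have e0 : ∀ m : κ → ℤ, UnitAddTorus.mFourier m (mk 0) = 1 := fun m => by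
    simp [UnitAddTorus.mFourier, mk]
  simp only [Function.comp, Equiv.ofBijective_apply, hcoef, e0, smul_eq_mul, mul_one,
    Complex.re_ofReal_mul, Complex.re_mul_ofReal, Complex.exp_ofReal_mul_I_re, Complex.ofReal_re,
    map_zero, F, add_zero] at hS2
  refine (congrArg (fun u => HasSum u _) (funext fun l => ?_)).mp hS2
  field_simp

end Pool.Agent.Lib.MP_3b7d13_co.Var
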