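import Pool.Agent.Lib.MP_3b7d13_co.VarTrig

/-! The characteristic function of a Rademacher sum and its concentration near the peaks. -/

namespace Pool.Agent.Lib.MP_3b7d13_co.Var

open Real Finset MeasureTheory Metric Filter Topology
open scoped RealInnerProductSpace

abbrev E (d : ℕ) := EuclideanSpace ℝ (Fin d)

variable {d : ℕ} {ι : Type*} [Fintype ι]

noncomputable def Phi (v : ι → E d) (ξ : E d) : ℝ := ∏ i, cos (2 * π * ⟪ξ, v i⟫)

noncomputable def Q (v : ι → E d) (ξ : E d) : ℝ :=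
  ∑ i, ‖((2 * ⟪ξ, v i⟫ : ℝ) : UnitAddCircle)‖ ^ 2

noncomputable def qf (v : ι → E d) (ξ : E d) : ℝ := ∑ i, ⟪ξ, v i⟫ ^ 2

noncomputable def J (v : ι → E d) : ℝ := ∫ ω in closedBall (0 : E d) (1 / 4), exp (-qf v ω)

noncomputable def wt (ξ : E d) : ℝ := (1 + ‖ξ‖) ^ (-((d : ℝ) + 1))

lemma Phi_cont (v : ι → E d) : Continuous (Phi v) := by unfold Phi; fun_prop

lemma Q_cont (v : ι → E d) : Continuous (Q v) := by
  unfold Q
  refine continuous_finsetSum _ fun i _ => ?_
  exact (((AddCircle.continuous_mk' 1).comp (by fun_prop)).norm).pow 2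

lemma qf_cont (v : ι → E d) : Continuous (qf v) := by unfold qf; fun_prop

lemma Q_nonneg (v : ι → E d) (ξ : E d) : 0 ≤ Q v ξ := sum_nonneg fun _ _ => sq_nonneg _

lemma qf_nonneg (v : ι → E d) (ξ : E d) : 0 ≤ qf v ξ := sum_nonneg fun _ _ => sq_nonneg _

lemma abs_Phi_le_one (v : ι → E d) (ξ : E d) : |Phi v ξ| ≤ 1 :=
  abs_prod_le_one _ _ fun _ => abs_cos_le_one _

lemma abs_Phi_le (v : ι → E d) (ξ : E d) : |Phi v ξ| ≤ exp (-2 * Q v ξ) := by
  unfold Phi Q
  rw [abs_prod, mul_sum, exp_sum]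
  refine prod_le_prod (fun i _ => abs_nonneg _) fun i _ => ?_
  have := abs_cos_pi_le (2 * ⟪ξ, v i⟫)
  rwa [show π * (2 * ⟪ξ, v i⟫) = 2 * π * ⟪ξ, v i⟫ by ring] at this

lemma Q_add_le (v : ι → E d) (ξ ζ : E d) : Q v (ξ + ζ) ≤ 2 * Q v ξ + 2 * Q v ζ := by
  unfold Q
  rw [mul_sum, mul_sum, ← sum_add_distrib]
  refine sum_le_sum fun i _ => ?_
  rw [inner_add_left, mul_add, AddCircle.coe_add]
  have h := norm_add_le ((2 * ⟪ξ, v i⟫ : ℝ) : UnitAddCircle) ((2 * ⟪ζ, v i⟫ : ℝ) : UnitAddCircle)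
  have h0 := norm_nonneg
    (((2 * ⟪ξ, v i⟫ : ℝ) : UnitAddCircle) + ((2 * ⟪ζ, v i⟫ : ℝ) : UnitAddCircle))
  nlinarith [sq_nonneg (‖((2 * ⟪ξ, v i⟫ : ℝ) : UnitAddCircle)‖ -
    ‖((2 * ⟪ζ, v i⟫ : ℝ) : UnitAddCircle)‖)]

lemma Q_neg (v : ι → E d) (ξ : E d) : Q v (-ξ) = Q v ξ := by
  unfold Q
  refine sum_congr rfl fun i _ => ?_
  rw [inner_neg_left, mul_neg, AddCircle.coe_neg, norm_neg]

lemma Q_sub_le (v : ι → E d) (ξ ζ : E d) : Q v (ξ - ζ) ≤ 2 * Q v ξ + 2 * Q v ζ := by
  rw [sub_eq_add_neg, ← Q_neg v ζ]; exact Q_add_le v ξ (-ζ)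

lemma circ_le (x : ℝ) (m : ℤ) : ‖(x : UnitAddCircle)‖ ≤ |x - m| := by
  rw [UnitAddCircle.norm_eq]; exact round_le x m

lemma Q_le_of_int (v : ι → E d) (ξ : E d) (m : ι → ℤ) :
    Q v ξ ≤ ∑ i, (2 * ⟪ξ, v i⟫ - m i) ^ 2 := by
  refine sum_le_sum fun i _ => ?_
  rw [← sq_abs (_ - _)]
  exact pow_le_pow_left₀ (norm_nonneg _) (circ_le _ _) 2

lemma Q_eq_round (v : ι → E d) (ξ : E d) :
    Q v ξ = ∑ i, (2 * ⟪ξ, v i⟫ - round (2 * ⟪ξ, v i⟫)) ^ 2 := by
  refine sum_congr rfl fun i _ => ?_
  rw [UnitAddCircle.norm_eq, sq_abs]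

lemma Q_small {v : ι → E d} (hv : ∀ i, ‖v i‖ ≤ 1) {ξ : E d} (hξ : ‖ξ‖ ≤ 1 / 4) :
    Q v ξ = 4 * qf v ξ := by
  unfold Q qf
  rw [mul_sum]
  refine sum_congr rfl fun i _ => ?_
  have h : |2 * ⟪ξ, v i⟫| ≤ |(1 : ℝ)| / 2 := by
    rw [abs_mul, abs_two, abs_one]
    have := abs_real_inner_le_norm ξ (v i)
    nlinarith [hv i, norm_nonneg ξ, norm_nonneg (v i)]
  rw [(AddCircle.norm_coe_eq_abs_iff (1 : ℝ) one_ne_zero).2 h, sq_abs]; ring

lemma qf_smul (v : ι → E d) (c : ℝ) (ξ : E d) : qf v (c • ξ) = c ^ 2 * qf v ξ := by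
  unfold qf
  rw [mul_sum]
  refine sum_congr rfl fun i _ => ?_
  rw [real_inner_smul_left]; ring

lemma J_nonneg (v : ι → E d) : 0 ≤ J v := integral_nonneg fun _ => (exp_pos _).le

lemma J_integrable (v : ι → E d) (z : E d) (r : ℝ) :
    IntegrableOn (fun ω => exp (-qf v ω)) (closedBall z r) :=
  ((qf_cont v).neg.rexp).continuousOn.integrableOn_compact (isCompact_closedBall _ _)

lemma wt_pos (ξ : E d) : 0 < wt ξ := by unfold wt; positivity

lemma wt_le_one (ξ : E d) : wt ξ ≤ 1 :=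
  rpow_le_one_of_one_le_of_nonpos (by linarith [norm_nonneg ξ]) (by
    have : (0 : ℝ) ≤ d := Nat.cast_nonneg d
    linarith)

lemma wt_cont : Continuous (wt : E d → ℝ) := by
  unfold wt
  exact Continuous.rpow_const (by fun_prop) fun x => Or.inl (by positivity)

lemma wt_integrable : Integrable (wt : E d → ℝ) := by
  unfold wt
  exact integrable_one_add_norm (by simp)

/-- Local bound on a small ball. -/
lemma local_bound {v : ι → E d} (hv : ∀ i, ‖v i‖ ≤ 1) (z : E d) {A : Set (E d)}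
    (hA : MeasurableSet A) (hz : A ⊆ closedBall z (1 / 8)) {R : ℝ} (hR : ∀ ξ ∈ A, R ≤ Q v ξ) :
    ∫ ξ in A, |Phi v ξ| ≤ exp (-R) * J v := by
  obtain ⟨x, hx, hmin⟩ := (isCompact_closedBall z (1 / 8)).exists_isMinOn
    (nonempty_closedBall.2 (by norm_num)) (Q_cont v).continuousOn
  have hsub : A ⊆ closedBall x (1 / 4) := fun ξ hξ => by
    have h1 := mem_closedBall.1 (hz hξ)
    have h2 := mem_closedBall.1 hx
    rw [mem_closedBall]
    linarith [dist_triangle_right ξ x z]
  have hc : Continuous fun ξ => exp (-R) * exp (-qf v (ξ - x)) :=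
    continuous_const.mul (((qf_cont v).comp (by fun_prop)).neg.rexp)
  have hi : IntegrableOn (fun ξ => exp (-R) * exp (-qf v (ξ - x))) (closedBall x (1 / 4)) :=
    hc.continuousOn.integrableOn_compact (isCompact_closedBall _ _)
  calc ∫ ξ in A, |Phi v ξ| ≤ ∫ ξ in A, exp (-R) * exp (-qf v (ξ - x)) := by
        refine setIntegral_mono_on ?_ (hi.mono_set hsub) hA fun ξ hξ => ?_
        · exact ((Phi_cont v).abs.continuousOn.integrableOn_compact
            (isCompact_closedBall _ _)).mono_set hsub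
        · refine (abs_Phi_le v ξ).trans ?_
          rw [← exp_add, exp_le_exp]
          have h1 := hR ξ hξ
          have h2 : Q v x ≤ Q v ξ := hmin (hz hξ)
          have h3 := Q_sub_le v ξ x
          rw [Q_small hv (by rw [← dist_eq_norm]; exact hsub hξ)] at h3
          linarith
    _ ≤ ∫ ξ in closedBall x (1 / 4), exp (-R) * exp (-qf v (ξ - x)) :=
        setIntegral_mono_set hi (ae_of_all _ fun ξ => by positivity) hsub.eventuallyLE
    _ = exp (-R) * J v := by
        rw [integral_const_mul, J]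
        congr 1
        rw [← integral_indicator measurableSet_closedBall,
          ← integral_indicator measurableSet_closedBall,
          ← integral_sub_right_eq_self
            ((closedBall (0 : E d) (1 / 4)).indicator fun ω => exp (-qf v ω)) x]
        congr 1
        funext ξ
        simp only [Set.indicator, mem_closedBall, dist_eq_norm, sub_zero]

noncomputable def cw (d : ℕ) : ℝ :=
  (9 / 8) ^ ((d : ℝ) + 1) / (volume : Measure (E d)).real (ball 0 (1 / 8))

lemma vol_ball_pos (d : ℕ) : 0 < (volume : Measure (E d)).real (ball 0 (1 / 8)) :=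
  ENNReal.toReal_pos (measure_ball_pos _ _ (by norm_num)).ne' measure_ball_lt_top.ne

lemma cw_pos (d : ℕ) : 0 < cw d := by
  have := vol_ball_pos d
  unfold cw; positivity

lemma wt_le_avg (ξ : E d) : wt ξ ≤ cw d * ∫ z in ball ξ (1 / 8), wt z := by
  have hp := vol_ball_pos d
  have h1 : ∀ z ∈ ball ξ (1 / 8), (9 / 8) ^ (-((d : ℝ) + 1)) * wt ξ ≤ wt z := by
    intro z hz
    unfold wt
    rw [← mul_rpow (by norm_num) (by positivity)]
    refine rpow_le_rpow_of_nonpos (by positivity) ?_ (by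
      have : (0 : ℝ) ≤ d := Nat.cast_nonneg d
      linarith)
    have h := mem_ball.1 hz
    rw [dist_eq_norm] at h
    have := norm_le_insert' z ξ
    nlinarith [norm_nonneg ξ]
  have h2 := setIntegral_ge_of_const_le_real (μ := volume) measurableSet_ball
    measure_ball_lt_top.ne h1 wt_integrable.integrableOn
  have h3 : (volume : Measure (E d)).real (ball ξ (1 / 8)) =
      (volume : Measure (E d)).real (ball 0 (1 / 8)) := by
    rw [Measure.real, Measure.real, Measure.addHaar_ball_center]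
  rw [h3, rpow_neg (by norm_num)] at h2
  refine le_trans (le_of_eq ?_) (mul_le_mul_of_nonneg_left h2 (cw_pos d).le)
  unfold cw
  field_simp

noncomputable def tail (d : ℕ) (T : ℝ) : ℝ := cw d * ∫ z in {z : E d | T - 1 < ‖z‖}, wt z

lemma tail_nonneg (d : ℕ) (T : ℝ) : 0 ≤ tail d T :=
  mul_nonneg (cw_pos d).le (integral_nonneg fun z => (wt_pos z).le)

lemma meas_far (T : ℝ) : MeasurableSet {z : E d | T < ‖z‖} :=
  measurableSet_lt measurable_const measurable_norm

lemma tail_tendsto (d : ℕ) : Tendsto (tail d) atTop (𝓝 0) := by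
  have h := tendsto_setIntegral_of_antitone (μ := (volume : Measure (E d))) (f := wt)
    (s := fun T : ℝ => {z : E d | T - 1 < ‖z‖}) (fun T => meas_far _)
    (fun T S h z hz => by
      simp only [Set.mem_ofPred_eq] at hz ⊢
      linarith) ⟨0, wt_integrable.integrableOn⟩
  have e : (⋂ T : ℝ, {z : E d | T - 1 < ‖z‖}) = ∅ := by
    rw [Set.eq_empty_iff_forall_notMem]
    intro z hz
    have := Set.mem_iInter.1 hz (‖z‖ + 1)
    simp at this
  rw [e] at h
  have h2 := h.const_mul (cw d)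
  simp only [Measure.restrict_empty, integral_zero_measure, mul_zero] at h2
  exact h2

noncomputable def cI (d : ℕ) : ℝ := cw d * ∫ z : E d, wt z

lemma cI_nonneg (d : ℕ) : 0 ≤ cI d :=
  mul_nonneg (cw_pos d).le (integral_nonneg fun z => (wt_pos z).le)

/-- Concentration of the characteristic function near its peaks. -/
lemma conc {v : ι → E d} (hv : ∀ i, ‖v i‖ ≤ 1) {A : Set (E d)} (hA : MeasurableSet A) {T R : ℝ}
    (hR : ∀ ξ ∈ A, ‖ξ‖ ≤ T → R ≤ Q v ξ) :
    ∫ ξ in A, wt ξ * |Phi v ξ| ≤ J v * (cI d * exp (-R) + tail d T) := by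
  let S : Set (E d × E d) := {p | p.1 ∈ A ∧ dist p.2 p.1 < 1 / 8}
  have hS : MeasurableSet S :=
    (measurable_fst hA).inter (measurableSet_lt (f := fun p : E d × E d => dist p.2 p.1)
      (by fun_prop) measurable_const)
  let f : E d × E d → ℝ := S.indicator fun p => |Phi v p.1| * wt p.2
  have hfm : Measurable f :=
    (((Phi_cont v).comp continuous_fst).abs.mul (wt_cont.comp continuous_snd)).measurable.indicator
      hS
  have hf0 : ∀ p, 0 ≤ f p := fun p =>
    Set.indicator_nonneg (fun p _ => mul_nonneg (abs_nonneg _) (wt_pos _).le) p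
  have hz : ∀ z, (fun ξ => f (ξ, z)) =
      (A ∩ ball z (1 / 8)).indicator fun ξ => |Phi v ξ| * wt z := by
    intro z; funext ξ
    simp only [f, S, Set.indicator, Set.mem_ofPred_eq, dist_comm]
    congr 1
  have hξ : ∀ ξ, (fun z => f (ξ, z)) =
      (ball ξ (1 / 8)).indicator fun z => A.indicator (fun ξ => |Phi v ξ|) ξ * wt z := by
    intro ξ; funext z
    by_cases h : ξ ∈ A <;>
      simp [f, S, Set.indicator, h]
  have hAz : ∀ z : E d, MeasurableSet (A ∩ ball z (1 / 8)) := fun z => hA.inter measurableSet_ball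
  have hsub : ∀ z : E d, A ∩ ball z (1 / 8) ⊆ closedBall z (1 / 8) := fun z =>
    Set.inter_subset_right.trans ball_subset_closedBall
  have hin : ∀ z, ∫ ξ, f (ξ, z) = (∫ ξ in A ∩ ball z (1 / 8), |Phi v ξ|) * wt z := by
    intro z
    rw [hz, integral_indicator (hAz z), integral_mul_const]
  have hb0 : ∀ z, ∫ ξ in A ∩ ball z (1 / 8), |Phi v ξ| ≤ J v := fun z => by
    simpa using local_bound hv z (hAz z) (hsub z) (R := 0) fun ξ _ => Q_nonneg v ξ
  have hfi : Integrable f (volume.prod volume) := by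
    rw [integrable_prod_iff' hfm.aestronglyMeasurable]
    refine ⟨ae_of_all _ fun z => ?_, ?_⟩
    · rw [hz, integrable_indicator_iff (hAz z)]
      exact (((Phi_cont v).abs.mul continuous_const).continuousOn.integrableOn_compact
        (isCompact_closedBall _ _)).mono_set (hsub z)
    · refine (wt_integrable.const_mul (J v)).mono'
        (hfm.norm.stronglyMeasurable.integral_prod_left'.aestronglyMeasurable)
        (ae_of_all _ fun z => ?_)
      simp_rw [Real.norm_of_nonneg (hf0 _)]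
      rw [Real.norm_of_nonneg (integral_nonneg fun ξ => hf0 _), hin]
      exact mul_le_mul_of_nonneg_right (hb0 z) (wt_pos z).le
  have hbound : ∀ z, ∫ ξ, f (ξ, z) ≤
      J v * (exp (-R) * wt z + {z : E d | T - 1 < ‖z‖}.indicator wt z) := by
    intro z
    rw [hin]
    have hw := (wt_pos z).le
    have hJ := J_nonneg v
    by_cases h : T - 1 < ‖z‖
    · rw [Set.indicator_of_mem (by exact h)]
      have := mul_le_mul_of_nonneg_right (hb0 z) hw
      have h2 : 0 ≤ J v * (exp (-R) * wt z) := by positivity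
      linarith
    · rw [Set.indicator_of_notMem (by exact h), add_zero]
      have := local_bound hv z (hAz z) (hsub z) (R := R) fun ξ hξ => hR ξ hξ.1 (by
        have h1 := mem_ball.1 hξ.2
        rw [dist_eq_norm] at h1
        have := norm_le_insert' ξ z
        linarith)
      have := mul_le_mul_of_nonneg_right this hw
      linarith
  have hi2 : Integrable ({z : E d | T - 1 < ‖z‖}.indicator wt) :=
    wt_integrable.indicator (meas_far _)
  calc ∫ ξ in A, wt ξ * |Phi v ξ| = ∫ ξ, A.indicator (fun ξ => wt ξ * |Phi v ξ|) ξ :=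
        (integral_indicator hA).symm
    _ ≤ ∫ ξ, cw d * ∫ z, f (ξ, z) := by
        refine integral_mono_of_nonneg (ae_of_all _ fun ξ => Set.indicator_nonneg
          (fun p _ => mul_nonneg (wt_pos _).le (abs_nonneg _)) _)
          (hfi.integral_prod_left.const_mul _) (ae_of_all _ fun ξ => ?_)
        simp only [hξ]
        rw [integral_indicator measurableSet_ball, integral_const_mul]
        by_cases h : ξ ∈ A
        · simp only [Set.indicator_of_mem h]
          have := mul_le_mul_of_nonneg_right (wt_le_avg ξ) (abs_nonneg (Phi v ξ))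
          linarith
        · simp [Set.indicator_of_notMem h]
    _ = cw d * ∫ z, ∫ ξ, f (ξ, z) := by
        rw [integral_const_mul, integral_integral_swap (f := fun ξ z => f (ξ, z)) hfi]
    _ ≤ cw d * ∫ z, J v * (exp (-R) * wt z + {z : E d | T - 1 < ‖z‖}.indicator wt z) :=
        mul_le_mul_of_nonneg_left (integral_mono hfi.integral_prod_right
          (((wt_integrable.const_mul _).add hi2).const_mul _) hbound) (cw_pos d).le
    _ = _ := by
        rw [integral_const_mul, integral_add (wt_integrable.const_mul _) hi2, integral_const_mul,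
          integral_indicator (meas_far _), cI, tail]
        ring

/-- A set whose points are at mutual distance at least `1 / 4`. -/
def Sep (Λ : Set (E d)) : Prop := ∀ x ∈ Λ, ∀ y ∈ Λ, x ≠ y → 1 / 4 ≤ dist x y

lemma Sep.sum_le {s : Finset (E d)} (hs : Sep (s : Set (E d))) {T : ℝ} (hT : ∀ x ∈ s, T < ‖x‖) :
    ∑ x ∈ s, wt x ≤ tail d T := by
  refine (sum_le_sum fun x _ => wt_le_avg x).trans ?_
  rw [← mul_sum, tail]
  refine mul_le_mul_of_nonneg_left ?_ (cw_pos d).le
  rw [← integral_biUnion_finset s (fun x _ => measurableSet_ball)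
    (fun x hx y hy hxy => ball_disjoint_ball (by linarith [hs x hx y hy hxy]))
    (fun x _ => wt_integrable.integrableOn)]
  refine setIntegral_mono_set wt_integrable.integrableOn (ae_of_all _ fun z => (wt_pos z).le)
    (LE.le.eventuallyLE fun z hz => ?_)
  obtain ⟨x, hx, hz⟩ := Set.mem_iUnion₂.1 hz
  have h1 := mem_ball.1 hz
  rw [dist_comm, dist_eq_norm] at h1
  have := norm_le_insert' x z
  have := hT x hx
  change T - 1 < ‖z‖
  linarith

lemma Sep.mono {Λ Λ' : Set (E d)} (h : Sep Λ) (h' : Λ' ⊆ Λ) : Sep Λ' :=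
  fun x hx y hy => h x (h' hx) y (h' hy)

lemma Sep.sum_le' {Λ : Set (E d)} (h : Sep Λ) (s : Finset Λ) {T : ℝ}
    (hT : ∀ x ∈ s, T < ‖(x : E d)‖) : ∑ x ∈ s, wt (x : E d) ≤ tail d T := by
  classical
  rw [← sum_image (s := s) (g := Subtype.val) (f := wt) fun x _ y _ hxy => Subtype.ext hxy]
  refine Sep.sum_le (h.mono fun x hx => ?_) fun x hx => ?_
  · obtain ⟨y, -, rfl⟩ := mem_image.1 (mem_coe.1 hx)
    exact y.2
  · obtain ⟨y, hy, rfl⟩ := mem_image.1 hx
    exact hT y hy

lemma Sep.summable {Λ : Set (E d)} (h : Sep Λ) : Summable fun x : Λ => wt (x : E d) :=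
  summable_of_sum_le (fun x => (wt_pos _).le) fun s =>
    h.sum_le' s (T := -1) fun x _ => by linarith [norm_nonneg (x : E d)]

lemma Sep.finite {Λ : Set (E d)} (h : Sep Λ) (T : ℝ) : {x : Λ | ‖(x : E d)‖ ≤ T}.Finite := by
  have h1 := h.summable.tendsto_cofinite_zero.eventually
    (gt_mem_nhds (show (0 : ℝ) < (1 + |T|) ^ (-((d : ℝ) + 1)) by positivity))
  rw [eventually_cofinite] at h1
  refine h1.subset fun x hx => not_lt.2 ?_
  unfold wt
  refine rpow_le_rpow_of_nonpos (by positivity) ?_ (by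
    have : (0 : ℝ) ≤ d := Nat.cast_nonneg d
    linarith)
  have := le_abs_self T
  have hx' : ‖(x : E d)‖ ≤ T := hx
  linarith

end Pool.Agent.Lib.MP_3b7d13_co.Var
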