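import Pool.Agent.Lib.MP_3b7d13_co.VarStruct

/-! Approximation of arbitrary families of unit vectors by families generating a lattice. -/

namespace Pool.Agent.Lib.MP_3b7d13_co.Var

open Real Finset MeasureTheory Metric Filter Topology Module
open scoped RealInnerProductSpace

variable {d : ℕ}

lemma exists_datum {ι κ : Type*} [Fintype ι] [Fintype κ] (a η : ι → E d) (μ : ι → ℝ) (w : κ → E d)
    (ha : ∀ i, ‖a i‖ = 1) (hw : ∀ j, ‖w j‖ = 1) (hμ : ∀ i, 0 < μ i) (h1 : ∑ i, μ i = 1)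
    (hd : DiscreteTopology (Submodule.span ℤ (Set.range a)))
    (hs : Submodule.span ℝ (Set.range a) = ⊤) (ho : ∀ x, ∑ i, (μ i * ⟪a i, x⟫) • η i = 0)
    (hq : ∃ T : E d →ₗ[ℝ] E d, ∀ i, ⟪a i, η i⟫ = ⟪a i, T (a i)⟫) :
    ∃ D : Datum d, D.k = Fintype.card κ ∧
      ∀ g, FV D g = cM (mom μ a) * ∑' x : dualS (Set.range a), g x * mult μ η w x := by
  let e := (Fintype.equivFin ι).symm
  let e' := (Fintype.equivFin κ).symm
  have hr : Set.range (a ∘ e) = Set.range a := e.surjective.range_comp a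
  obtain ⟨T, hT⟩ := hq
  refine ⟨⟨_, a ∘ e, μ ∘ e, η ∘ e, _, w ∘ e', fun _ => ha _, fun _ => hw _, fun _ => hμ _,
    (e.sum_comp μ).trans h1, by rwa [hr], by rwa [hr],
    fun x => (e.sum_comp fun i => (μ i * ⟪a i, x⟫) • η i).trans (ho x), T, fun _ => hT _⟩, rfl,
    fun g => ?_⟩
  have e1 : mult (μ ∘ e) (η ∘ e) (w ∘ e') = mult μ η w := funext fun x => by
    simp only [mult, Phi, Function.comp]
    rw [e.sum_comp fun i => μ i * ⟪x, η i⟫ ^ 2, e'.prod_comp fun j => cos (2 * π * ⟪x, w j⟫)]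
  have e2 : mom (μ ∘ e) (a ∘ e) = mom μ a := by
    ext s t
    exact e.sum_comp fun i => μ i * a i s * a i t
  change cM (mom (μ ∘ e) (a ∘ e)) * ∑' x : dualS (Set.range (a ∘ e)),
    g x * mult (μ ∘ e) (η ∘ e) (w ∘ e') x = _
  rw [e1, e2, hr]

lemma Sep.summable' {Λ : Set (E d)} (hs : Sep Λ) {G : E d → ℝ} {B : ℝ}
    (hB : ∀ y, |G y| ≤ B * wt y) : Summable fun x : Λ => G x :=
  Summable.of_norm_bounded (hs.summable.mul_left B) fun _ => hB _

lemma Sep.tsum_sub {Λ : Set (E d)} (hs : Sep Λ) {G : E d → ℝ} {B T : ℝ}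
    (hB : ∀ y, |G y| ≤ B * wt y) (t : Finset (E d)) (ht : ∀ y ∈ t, y ∈ Λ)
    (hT : ∀ y ∈ Λ, y ∉ t → T < ‖y‖) : |∑' y : Λ, G y - ∑ y ∈ t, G y| ≤ B * tail d T := by
  classical
  have hB0 : 0 ≤ B := nonneg_of_mul_nonneg_left ((abs_nonneg _).trans (hB 0)) (wt_pos 0)
  rw [← sum_subtype_of_mem G (p := (· ∈ Λ)) ht, ← (hs.summable' hB).sum_add_tsum_compl
    (s := t.subtype (· ∈ Λ)), add_sub_cancel_left, ← Real.norm_eq_abs]
  refine (tsum_of_norm_bounded ((hs.summable.subtype _).mul_left B).hasSum fun x => hB _).trans ?_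
  rw [tsum_mul_left]
  refine mul_le_mul_of_nonneg_left ((hs.summable.subtype _).tsum_le_of_sum_le fun u => ?_) hB0
  simp only [Function.comp_apply]
  rw [← sum_image (s := u) (g := Subtype.val) (f := fun x : Λ => wt (x : E d))
    fun x _ y _ hxy => Subtype.ext hxy]
  refine hs.sum_le' _ fun x hx => ?_
  obtain ⟨y, -, rfl⟩ := mem_image.1 hx
  exact hT _ y.1.2 fun h => y.2 (mem_subtype.2 h)

lemma sum_conv {κ : Type*} {l : Filter κ} {Λ : κ → Set (E d)} {Λ0 : Set (E d)}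
    (hs : ∀ᶠ k in l, Sep (Λ k)) (hs0 : Sep Λ0) {G : E d → ℝ} (hG : Continuous G) {B : ℝ}
    (hB : ∀ y, |G y| ≤ B * wt y) (τ : E d → κ → E d) (h1 : ∀ x ∈ Λ0, ∀ k, τ x k ∈ Λ k)
    (h2 : ∀ x ∈ Λ0, Tendsto (τ x) l (𝓝 x))
    (h3 : ∀ x ∉ Λ0, ∃ ρ > 0, ∀ᶠ k in l, ∀ y ∈ ball x ρ, y ∉ Λ k) :
    Tendsto (fun k => ∑' y : Λ k, G y) l (𝓝 (∑' x : Λ0, G x)) := by
  classical
  rw [Metric.tendsto_nhds]
  intro ε hε
  have t1 : Tendsto (fun T => B * tail d T) atTop (𝓝 0) := by
    simpa using (tail_tendsto d).const_mul B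
  obtain ⟨T, hT⟩ := (t1.eventually (gt_mem_nhds (show 0 < ε / 3 by positivity))).exists
  let s : Finset (E d) := ((hs0.finite (T + 1)).image Subtype.val).toFinset
  have hsm : ∀ x, x ∈ s ↔ x ∈ Λ0 ∧ ‖x‖ ≤ T + 1 := fun x => by simp [s, and_comm]
  let U : Set (E d) := ⋃ x ∈ s, ball x (1 / 8)
  have hU : IsOpen U := isOpen_biUnion fun x _ => isOpen_ball
  have a1 : ∀ᶠ k in l, ∀ y ∈ closedBall 0 T ∩ Uᶜ, y ∉ Λ k := by
    refine ((isCompact_closedBall (0 : E d) T).inter_right hU.isClosed_compl).induction_on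
      (p := fun s => ∀ᶠ k in l, ∀ y ∈ s, y ∉ Λ k) (by simp)
      (fun s t hst ht => ht.mono fun k hk y hy => hk y (hst hy))
      (fun s t hs ht => (hs.and ht).mono fun k hk y hy => hy.elim (hk.1 y) (hk.2 y)) fun x hx => ?_
    obtain ⟨ρ, hρ, h⟩ := h3 x fun h => hx.2 (Set.mem_biUnion ((hsm x).2
      ⟨h, by linarith [mem_closedBall_zero_iff.1 hx.1]⟩) (mem_ball_self (by norm_num)))
    exact ⟨ball x ρ, mem_nhdsWithin_of_mem_nhds (ball_mem_nhds x hρ), h⟩
  have a2 : ∀ᶠ k in l, ∀ x ∈ s, dist (τ x k) x < 1 / 8 := (eventually_all_finset s).2 fun x hx =>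
    (h2 x ((hsm x).1 hx).1).eventually (ball_mem_nhds x (by norm_num))
  have a3 := Metric.tendsto_nhds.1 (tendsto_finsetSum s fun x hx =>
    (hG.tendsto x).comp (h2 x ((hsm x).1 hx).1)) _ (show 0 < ε / 3 by positivity)
  have a4 := hs0.tsum_sub hB s (T := T) (fun y hy => ((hsm y).1 hy).1) fun y hy h => by
    by_contra h'; exact h ((hsm y).2 ⟨hy, by linarith⟩)
  filter_upwards [hs, a1, a2, a3] with k b1 b2 b3 b4
  have b5 := b1.tsum_sub hB (s.image fun x => τ x k) (T := T) (fun y hy => by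
    obtain ⟨x, hx, rfl⟩ := mem_image.1 hy
    exact h1 x ((hsm x).1 hx).1 k) fun y hy h => by
      by_contra h'
      have : y ∈ U := by
        by_contra h''
        exact b2 y ⟨mem_closedBall_zero_iff.2 (not_lt.1 h'), h''⟩ hy
      obtain ⟨x, hx, hxy⟩ := Set.mem_iUnion₂.1 this
      have := b1 y hy _ (h1 x ((hsm x).1 hx).1 k) fun e => h (mem_image.2 ⟨x, hx, e.symm⟩)
      linarith [dist_triangle_right y (τ x k) x, b3 x hx, mem_ball.1 hxy]
  rw [sum_image fun x hx y hy hxy => by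
    by_contra h
    have := hs0 x ((hsm x).1 hx).1 y ((hsm y).1 hy).1 h
    have e : τ x k = τ y k := hxy
    linarith [dist_triangle_left x y (τ x k), b3 x hx, e ▸ b3 y hy]] at b5
  simp only [Function.comp, Real.dist_eq] at b4 ⊢
  rw [abs_le] at a4 b5
  rw [abs_lt] at b4 ⊢
  constructor <;> linarith

lemma normalise {ι : Type*} [Fintype ι] {a : ι → E d} (ha : ∀ i, ‖a i‖ = 1)
    (hli : ∀ c : ι → ℝ, (∀ i, ∑ l, c l * ⟪a i, a l⟫ ^ 2 = 0) → c = 0) {δ : ℝ} (hδ : 0 < δ) :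
    ∃ ρ > 0, ∀ u : ι → E d, (∀ i, ‖u i - a i‖ < ρ) →
      ∃ s : ι → ℝ, ‖s‖ < δ ∧ ∀ i, ‖u i + ∑ l, (s l * ⟪a l, u i⟫) • a l‖ = 1 := by
  let Ψ : (ι → ℝ) × (ι → E d) → (ι → ℝ) × (ι → E d) := fun q =>
    (fun i => ‖q.2 i + ∑ l, (q.1 l * ⟪a l, q.2 i⟫) • a l‖ ^ 2, q.2)
  have hΨ : ContDiff ℝ 1 Ψ := by
    refine ContDiff.prodMk (contDiff_pi.2 fun i => ContDiff.norm_sq ℝ (ContDiff.add (by fun_prop)
      (ContDiff.sum fun l _ => ContDiff.smul (ContDiff.mul (by fun_prop)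
        (contDiff_const.inner ℝ (by fun_prop))) contDiff_const))) contDiff_snd
  have h1 := hΨ.contDiffAt.hasStrictFDerivAt (x := (0, a)) one_ne_zero
  have h2 : Function.Injective (fderiv ℝ Ψ (0, a)) := by
    refine (injective_iff_map_eq_zero _).2 fun q hq => ?_
    have b1 : q.2 = 0 := by
      have := DFunLike.congr_fun (h1.hasFDerivAt.snd.unique hasFDerivAt_snd) q
      simpa [hq] using this.symm
    have b2 := h1.hasFDerivAt.hasLineDerivAt q
    rw [hq] at b2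
    refine Prod.ext (hli _ fun i => ?_) b1
    have b3 := hasDerivAt_pi.1 b2.fst i
    have b4 := (((hasDerivAt_id (0 : ℝ)).smul_const
      (∑ l, (q.1 l * ⟪a l, a i⟫) • a l)).const_add (a i)).norm_sq
    have b5 := b4.unique (b3.congr_of_eventuallyEq (Eventually.of_forall fun t => by
      simp [Ψ, b1, smul_sum, smul_smul, mul_assoc]))
    simp only [id, zero_smul, add_zero, one_smul, inner_sum, real_inner_smul_right, Prod.fst_zero,
      Pi.zero_apply, mul_eq_zero, OfNat.ofNat_ne_zero, false_or] at b5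
    rw [← b5]
    exact sum_congr rfl fun l _ => by rw [real_inner_comm (a l)]; ring
  have h3 := h1.map_nhds_eq_of_surj (LinearMap.range_eq_top.2
    (LinearMap.injective_iff_surjective.1 h2))
  obtain ⟨ρ, hρ, h4⟩ := Metric.mem_nhds_iff.1 (h3 ▸ image_mem_map (ball_mem_nhds _ hδ))
  refine ⟨ρ, hρ, fun u hu => ?_⟩
  obtain ⟨q, h5, h6⟩ := h4 (a := (fun _ => 1, u)) (by
    rw [mem_ball, Prod.dist_eq, max_lt_iff]
    exact ⟨by simpa [Ψ, ha] using hρ, (dist_pi_lt_iff hρ).2 fun i => by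
      rw [dist_eq_norm]; exact hu i⟩)
  have h7 : q.2 = u := congrArg Prod.snd h6
  refine ⟨q.1, ?_, fun i => ?_⟩
  · rw [mem_ball, Prod.dist_eq, max_lt_iff, dist_zero_right] at h5; exact h5.1
  · have := congrFun (congrArg Prod.fst h6) i
    simp only [Ψ, h7] at this
    exact (sq_eq_sq₀ (norm_nonneg _) zero_le_one).1 (by rw [this, one_pow])

lemma discrete_of_int {γ : Type*} [Fintype γ] (β : γ → E d)
    (hβ : ∀ x, (∀ c, ⟪β c, x⟫ = 0) → x = 0) {A : Set (E d)}
    (hA : ∀ x ∈ A, ∀ c, ∃ n : ℤ, ⟪β c, x⟫ = n) : DiscreteTopology (Submodule.span ℤ A) := by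
  refine discrete_of_small _ (ρ := 1 / (∑ c, ‖β c‖ + 1)) (by positivity) fun x hx h =>
    hβ x fun c => ?_
  obtain ⟨n, hn⟩ : ∃ n : ℤ, ⟪β c, x⟫ = n := by
    clear h
    induction hx using Submodule.span_induction with
    | mem x hx => exact hA x hx c
    | zero => exact ⟨0, by simp⟩
    | add x y _ _ hx hy =>
      obtain ⟨n, hn⟩ := hx
      obtain ⟨n', hn'⟩ := hy
      exact ⟨n + n', by rw [inner_add_right, hn, hn', Int.cast_add]⟩
    | smul z x _ hx =>
      obtain ⟨n, hn⟩ := hx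
      exact ⟨z * n, by rw [← Int.cast_smul_eq_zsmul ℝ, real_inner_smul_right, hn, Int.cast_mul]⟩
  have b1 := single_le_sum (f := fun c => ‖β c‖) (fun _ _ => norm_nonneg _) (mem_univ c)
  have b2 : |(n : ℝ)| < 1 := by
    rw [lt_div_iff₀ (by positivity)] at h
    rw [← hn]
    nlinarith [abs_real_inner_le_norm (β c) x, norm_nonneg x]
  rw [hn, Int.abs_lt_one_iff.1 (show |n| < 1 by exact_mod_cast b2), Int.cast_zero]

lemma approx_step {ι : Type*} [Fintype ι] {a : ι → E d} (ha : ∀ i, ‖a i‖ = 1)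
    (hli : ∀ c : ι → ℝ, (∀ i, ∑ l, c l * ⟪a i, a l⟫ ^ 2 = 0) → c = 0)
    (hs : Submodule.span ℝ (Set.range a) = ⊤) {δ : ℝ} (hδ : 0 < δ) (hδ' : δ ≤ 1 / 2) :
    ∃ (a' : ι → E d) (τ : E d → E d), (∀ i, ‖a' i‖ = 1) ∧ (∀ i, ‖a' i - a i‖ ≤ 3 * δ) ∧
      DiscreteTopology (Submodule.span ℤ (Set.range a')) ∧
      (∀ x ∈ dualS (Set.range a), τ x ∈ dualS (Set.range a')) ∧ ∀ x, ‖τ x - x‖ ≤ 2 * δ * ‖x‖ := by
  obtain ⟨b, m, p, p', f, hf⟩ := exists_frame (Λ := dualS (Set.range a))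
    (fun _ _ => ⟨0, by simp⟩) (fun _ hx _ hy => dualS_sub hx hy)
    (sep_dualS (by rintro _ ⟨i, rfl⟩; exact (ha i).le) hs)
  obtain ⟨ρ, hρ, h1⟩ := normalise ha hli (show 0 < δ / (Fintype.card ι + 1) by positivity)
  obtain ⟨n, hn⟩ := exists_nat_gt (m / min ρ δ)
  have hm := lt_min hρ hδ
  have hn0 : (0 : ℝ) < n := lt_of_le_of_lt (by positivity) hn
  let u : ι → E d := fun i => a i + ∑ l, (round (n * ⟪f l, a i⟫) / n - ⟪f l, a i⟫) • f l
  have hu : ∀ i, ‖u i - a i‖ < min ρ δ := fun i => by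
    rw [add_sub_cancel_left]
    refine ((norm_sum_le _ _).trans (sum_le_card_nsmul _ _ (1 / n : ℝ) fun l _ => ?_)).trans_lt ?_
    · rw [norm_smul, hf.on.1 l, mul_one, Real.norm_eq_abs, abs_sub_comm,
        show ⟪f l, a i⟫ - round (n * ⟪f l, a i⟫) / n = (n * ⟪f l, a i⟫ - round (n * ⟪f l, a i⟫)) / n
          by field_simp, abs_div, abs_of_pos hn0]
      gcongr
      linarith [abs_sub_round (n * ⟪f l, a i⟫)]
    · rw [card_univ, Fintype.card_fin, nsmul_eq_mul, mul_one_div, div_lt_iff₀' hn0,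
        ← div_lt_iff₀ hm]
      exact hn
  obtain ⟨s, h2, h3⟩ := h1 u fun i => (hu i).trans_le (min_le_left _ _)
  let S : E d →ₗ[ℝ] E d := LinearMap.id + ∑ l, s l • (innerSL ℝ (a l)).toLinearMap.smulRight (a l)
  have hS : ∀ x, S x = x + ∑ l, (s l * ⟪a l, x⟫) • a l := fun x => by
    simp [S, LinearMap.sum_apply, smul_smul]
  have hS1 : ∀ x, ‖S x - x‖ ≤ δ * ‖x‖ := fun x => by
    rw [hS, add_sub_cancel_left]
    refine ((norm_sum_le _ _).trans (sum_le_card_nsmul _ _ (δ / (Fintype.card ι + 1) * ‖x‖)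
      fun l _ => ?_)).trans ?_
    · rw [norm_smul, ha, mul_one, norm_mul]
      gcongr
      · exact (norm_le_pi_norm s l).trans h2.le
      · simpa [ha] using norm_inner_le_norm (𝕜 := ℝ) (a l) x
    · rw [card_univ, nsmul_eq_mul, ← mul_assoc]
      gcongr
      rw [mul_div_assoc', div_le_iff₀ (by positivity)]
      nlinarith
  have hS2 : ∀ x, ‖x‖ ≤ 2 * ‖S x‖ := fun x => by
    nlinarith [hS1 x, norm_sub_norm_le x (S x), norm_sub_rev x (S x), norm_nonneg x]
  have hS3 : Function.Surjective S := LinearMap.injective_iff_surjective.1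
    ((injective_iff_map_eq_zero S).2 fun x hx => norm_le_zero_iff.1 (by simpa [hx] using hS2 x))
  choose τ hτ using hS3
  have hS4 : ∀ x y, ⟪τ x, S y⟫ = ⟪x, y⟫ := fun x y => by
    conv_rhs => rw [← hτ x]
    simp only [hS, inner_add_left, inner_add_right, sum_inner, inner_sum, real_inner_smul_left,
      real_inner_smul_right]
    congr 1
    exact sum_congr rfl fun l _ => by rw [real_inner_comm (τ x)]; ring
  have hu2 : ∀ x ∈ dualS (Set.range a), ∀ i, ⟪x, u i⟫ = ⟪x, a i⟫ := fun x hx i => by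
    simp [u, inner_add_right, inner_sum, real_inner_smul_right, real_inner_comm (f _), hf.orth x hx]
  refine ⟨fun i => S (u i), τ, fun i => (congrArg _ (hS _)).trans (h3 i), fun i => ?_, ?_, ?_, fun x => ?_⟩
  · have b1 := (hu i).trans_le (min_le_right _ _)
    have b2 := norm_sub_norm_le (u i) (a i)
    have b3 := norm_sub_le_norm_sub_add_norm_sub (S (u i)) (u i) (a i)
    rw [ha] at b2
    nlinarith [hS1 (u i)]
  · refine discrete_of_int (γ := Fin b ⊕ Fin m)
      (fun c => τ (Sum.elim (fun j => (2 : ℝ) • p j) (fun l => (n : ℝ) • f l) c)) (fun x hx => ?_) ?_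
    · rw [← hτ x] at hx ⊢
      have b1 : ∀ j, ⟪p j, τ x⟫ = 0 := fun j => by
        simpa [hS4, real_inner_smul_left] using hx (Sum.inl j)
      have b2 : ∀ l, ⟪f l, τ x⟫ = 0 := fun l => by
        simpa [hS4, real_inner_smul_left, hn0.ne'] using hx (Sum.inr l)
      rw [hf.exp' (τ x)]
      simp [b1, b2]
    · rintro _ ⟨i, rfl⟩ (j | l)
      · simpa only [hS4, Sum.elim_inl, real_inner_smul_left, hu2 _ (hf.mem j)]
          using hf.mem j _ ⟨i, rfl⟩
      · refine ⟨round (n * ⟪f l, a i⟫), ?_⟩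
        simp only [hS4, Sum.elim_inr, real_inner_smul_left, u, inner_add_right,
          hf.on.inner_right_fintype]
        field_simp
        ring
  · rintro x hx _ ⟨i, rfl⟩
    simpa only [hS4, hu2 x hx] using hx _ ⟨i, rfl⟩
  · have b1 := hS1 (τ x)
    have b2 := hS2 (τ x)
    rw [hτ] at b1 b2
    rw [norm_sub_rev]
    nlinarith

lemma mom_tendsto {κ ι : Type*} [Fintype ι] {l : Filter κ} (μ : ι → ℝ) {a : κ → ι → E d}
    {a0 : ι → E d} (h : ∀ i, Tendsto (fun k => a k i) l (𝓝 (a0 i))) :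
    Tendsto (fun k => mom μ (a k)) l (𝓝 (mom μ a0)) := by
  have hc : ∀ p i, Tendsto (fun k => a k i p) l (𝓝 (a0 i p)) := fun p i =>
    ((EuclideanSpace.proj p).continuous.tendsto _).comp (h i)
  exact tendsto_pi_nhds.2 fun p => tendsto_pi_nhds.2 fun q =>
    tendsto_finsetSum univ fun i _ => ((hc p i).const_mul _).mul (hc q i)

lemma ev_posDef {M : Mat d} (hM : M.PosDef) : ∀ᶠ M' in 𝓝 M, M'.IsHermitian → M'.PosDef := by
  obtain ⟨c, hc, h⟩ := coercive hM
  exact h.mono fun M' h1 h2 => posDef_of_qm h2 fun ζ hζ =>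
    lt_of_lt_of_le (by have := norm_pos_iff.2 hζ; positivity) (h1 ζ)

lemma abs_mul_le_wt {g : E d → ℝ} {B : ℝ} (hB : ∀ y, |g y| ≤ B * wt y) (y : E d) {t : ℝ}
    (ht : |t| ≤ 1) : |g y * t| ≤ B * wt y := by
  rw [abs_mul]
  exact (mul_le_of_le_one_right (abs_nonneg _) ht).trans (hB y)

section

variable {g : E d → ℝ} (hg : Continuous g) {B : ℝ} (hB : ∀ y, |g y| ≤ B * wt y) {p : ℕ}
  {S : Set ℝ} (hS : IsClosed S) (hD : ∀ D : Datum d, D.k % 2 = p % 2 → FV D g ∈ S)
include hg hB hS hD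

theorem lattice_approx {ι κ : Type*} [Fintype ι] [Fintype κ] {a : ι → E d} {μ : ι → ℝ}
    {w : κ → E d} (ha : ∀ i, ‖a i‖ = 1) (hw : ∀ j, ‖w j‖ = 1) (hμ : ∀ i, 0 < μ i)
    (h1 : ∑ i, μ i = 1) (hli : ∀ c : ι → ℝ, (∀ i, ∑ l, c l * ⟪a i, a l⟫ ^ 2 = 0) → c = 0)
    (hM : (mom μ a).PosDef) (hp : Fintype.card κ % 2 = p % 2) :
    cM (mom μ a) * ∑' x : dualS (Set.range a), g x * Phi w x ∈ S := by
  have hs := span_top_of_posDef hM
  let δ : ℕ → ℝ := fun j => 1 / 2 * (1 / (j + 1))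
  have hδ : Tendsto δ atTop (𝓝 0) := by
    simpa only [mul_zero] using
      (tendsto_one_div_add_atTop_nhds_zero_nat (𝕜 := ℝ)).const_mul (1 / 2)
  choose a' τ b1 b2 b3 b4 b5 using fun j : ℕ => approx_step ha hli hs (δ := δ j) (by positivity)
    (mul_le_of_le_one_right (by norm_num) (div_le_one_of_le₀ (by simp) (by positivity)))
  have c1 : ∀ i, Tendsto (fun j => a' j i) atTop (𝓝 (a i)) := fun i =>
    tendsto_iff_norm_sub_tendsto_zero.2 (squeeze_zero (fun _ => norm_nonneg _) (fun j => b2 j i)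
      (by simpa using hδ.const_mul 3))
  have c2 := mom_tendsto μ c1
  have c3 : ∀ᶠ j in atTop, Submodule.span ℝ (Set.range (a' j)) = ⊤ :=
    (c2.eventually (ev_posDef hM)).mono fun j hj => span_top_of_posDef (hj (mom_herm _ _))
  have c4 := sum_conv (l := atTop) (Λ := fun j => dualS (Set.range (a' j)))
    (c3.mono fun j hj => sep_dualS (by rintro _ ⟨i, rfl⟩; exact (b1 j i).le) hj)
    (sep_dualS (by rintro _ ⟨i, rfl⟩; exact (ha i).le) hs) (hg.mul (Phi_cont w))
    (fun y => abs_mul_le_wt hB y (abs_Phi_le_one _ _)) (fun x j => τ j x)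
    (fun x hx j => b4 j x hx) (fun x _ => tendsto_iff_norm_sub_tendsto_zero.2
      (squeeze_zero (fun _ => norm_nonneg _) (fun j => b5 j x)
        (by simpa using (hδ.const_mul 2).mul_const ‖x‖))) fun x hx => by
      simp only [dualS, Set.mem_ofPred_eq, Set.forall_mem_range, not_forall, not_exists] at hx
      obtain ⟨i, hi⟩ := hx
      have h1 := (circ_cont.continuousAt (x := (x, a i))).eventually (lt_mem_nhds (circ_pos hi))
      rw [nhds_prod_eq] at h1
      obtain ⟨pa, hpa, pb, hpb, h2⟩ := eventually_prod_iff.1 h1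
      obtain ⟨ρ, hρ, h3⟩ := Metric.eventually_nhds_iff_ball.1 hpa
      refine ⟨ρ, hρ, ((c1 i).eventually hpb).mono fun j hj y hy hy' => ?_⟩
      obtain ⟨n, hn⟩ := hy' _ ⟨i, rfl⟩
      have := h2 (h3 y hy) hj
      simp only [hn] at this
      simpa using this.trans_le (circ_le n n)
  refine hS.mem_of_tendsto (((cM_contAt hM).tendsto.comp c2).mul c4) (c3.mono fun j hj => ?_)
  obtain ⟨D, d1, d2⟩ := exists_datum (a' j) 0 μ w (b1 j) hw hμ h1 (b3 j) hj (by simp) ⟨0, by simp⟩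
  simpa [d2, mult] using hD D (d1 ▸ hp)

omit hg hB hS hD in
lemma tsum_ind {A A' : Set (E d)} (h : A ⊆ A') (G : E d → ℝ) :
    ∑' x : A', A.indicator G x = ∑' x : A, G x := by
  rw [tsum_subtype A' (A.indicator G), tsum_subtype A G, Set.indicator_indicator,
    Set.inter_eq_self_of_subset_right h]

theorem realise {ι κ : Type*} [Fintype ι] [Fintype κ] {A : Set (E d)} (hA : ∀ x ∈ A, ‖x‖ = 1)
    {a : ι → E d} {μ : ι → ℝ} {w : κ → E d} (ha : ∀ i, a i ∈ A) (hw : ∀ j, ‖w j‖ = 1)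
    (hμ : ∀ i, 0 ≤ μ i) (h1 : ∑ i, μ i = 1) (hM : (mom μ a).PosDef)
    (hp : Fintype.card κ % 2 = p % 2) : cM (mom μ a) * ∑' x : dualS A, g x * Phi w x ∈ S := by
  let op : E d → Mat d := fun x => Matrix.of fun s t => x s * x t
  have hop : ∀ {ι : Type} [Fintype ι] (μ : ι → ℝ) (a : ι → E d),
      ∑ i, μ i • op (a i) = mom μ a := fun μ a => by
    ext s t; simp [op, mom, Matrix.sum_apply, mul_assoc]
  have hm : mom μ a ∈ convexHull ℝ (op '' A) := by
    have : mom μ a = ∑ i, μ i • op (a i) := by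
      ext s t; simp [op, mom, Matrix.sum_apply, mul_assoc]
    rw [this]
    exact (convex_convexHull ℝ _).sum_mem (fun i _ => hμ i) h1 fun i _ =>
      subset_convexHull ℝ _ ⟨_, ha i, rfl⟩
  obtain ⟨ι', _, z, ν, a1, a2, a3, a4, a5⟩ := eq_pos_convex_span_of_mem_convexHull hm
  choose b hb hbz using fun i => a1 ⟨i, rfl⟩
  obtain rfl : z = fun i => op (b i) := funext fun i => (hbz i).symm
  rw [hop] at a5
  rw [← a5] at hM ⊢
  have hli : ∀ c : ι' → ℝ, (∀ i, ∑ l, c l * ⟪b i, b l⟫ ^ 2 = 0) → c = 0 := fun c hc => by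
    have b1 : ∑ s, ∑ t, mom c b s t ^ 2 = 0 := by
      calc _ = ∑ i, c i * qm (mom c b) (b i) := by
            symm
            simp only [qm, dotProduct, Matrix.mulVec, mul_sum]
            rw [sum_comm]
            refine sum_congr rfl fun s _ => ?_
            rw [sum_comm]
            refine sum_congr rfl fun t _ => ?_
            symm
            rw [sq]
            nth_rw 2 [mom]
            rw [Matrix.of_apply, mul_sum]
            exact sum_congr rfl fun i _ => by ring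
        _ = 0 := by simp [qm_mom, hc]
    have b2 : mom c b = 0 := by
      ext s t
      exact pow_eq_zero_iff two_ne_zero |>.1 ((sum_eq_zero_iff_of_nonneg fun _ _ => sq_nonneg _).1
        ((sum_eq_zero_iff_of_nonneg fun _ _ => sum_nonneg fun _ _ => sq_nonneg _).1 b1 s
          (mem_univ _)) t (mem_univ _))
    have b3 : ∑ i, c i = 0 := by
      calc _ = ∑ s, mom c b s s := by
            simp only [mom, Matrix.of_apply]
            rw [sum_comm]
            refine sum_congr rfl fun i _ => ?_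
            have := inner_eq (b i) (b i)
            rw [real_inner_self_eq_norm_sq, hA _ (hb i), one_pow] at this
            simp only [mul_assoc, ← mul_sum, ← this, mul_one]
        _ = 0 := by simp [b2]
    exact funext fun i => affineIndependent_iff.1 a2 univ c b3 ((hop c b).trans b2) i (mem_univ _)
  have hsep := sep_dualS (A := Set.range b) (by rintro _ ⟨i, rfl⟩; exact (hA _ (hb i)).le)
    (span_top_of_posDef hM)
  have := hsep.countable
  have : Nonempty (dualS (Set.range b)) := ⟨⟨0, fun _ _ => ⟨0, by simp⟩⟩⟩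
  obtain ⟨e, he⟩ := exists_surjective_nat (dualS (Set.range b))
  obtain ⟨i0, -⟩ : (univ : Finset ι').Nonempty := by
    rw [nonempty_iff_ne_empty]; intro h; rw [h] at a4; simp at a4
  have hu : ∀ x : E d, ∃ u ∈ A, x ∉ dualS A → ∀ n : ℤ, 2 * ⟪x, u⟫ ≠ n := fun x => by
    by_cases hx : x ∈ dualS A
    · exact ⟨b i0, hb _, fun h => (h hx).elim⟩
    · simp only [dualS, Set.mem_ofPred_eq, not_forall, not_exists] at hx
      obtain ⟨u, h1, h2⟩ := hx
      exact ⟨u, h1, fun _ => h2⟩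
  choose u hu hu' using hu
  let w' : ∀ j : ℕ, κ ⊕ Fin j × Fin (2 * j) → E d := fun j => Sum.elim w fun t => u (e t.1)
  have hw' : ∀ j x, Phi (w' j) x = Phi w x * ∏ t : Fin j, cos (2 * π * ⟪x, u (e t)⟫) ^ (2 * j) :=
    fun j x => by simp [Phi, w', Fintype.prod_sum_type, Fintype.prod_prod_type]
  rw [← tsum_ind (A' := dualS (Set.range b)) (by rintro x hx _ ⟨i, rfl⟩; exact hx _ (hb i))
    fun x => g x * Phi w x]
  refine hS.mem_of_tendsto (b := atTop) ((tendsto_tsum_of_dominated_convergence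
    (f := fun j (x : dualS (Set.range b)) => g x * Phi (w' j) x) (hsep.summable.mul_left B)
    (fun x => ?_) (Eventually.of_forall fun j x =>
      abs_mul_le_wt hB _ (abs_Phi_le_one _ _))).const_mul _) (Eventually.of_forall fun j =>
        lattice_approx hg hB hS hD (fun i => hA _ (hb i)) ?_ a3 a4 hli hM ?_)
  · by_cases hx : (x : E d) ∈ dualS A
    · rw [Set.indicator_of_mem hx]
      refine tendsto_const_nhds.congr fun j => ?_
      rw [hw', prod_eq_one fun t _ => ?_, mul_one]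
      obtain ⟨n, hn⟩ := hx _ (hu (e t))
      rw [show 2 * π * ⟪(x : E d), u (e t)⟫ = n * π by rw [← hn]; ring, cos_int_mul_pi, pow_mul,
        ← zpow_natCast ((-1 : ℝ) ^ n), ← zpow_mul, mul_comm n, zpow_mul]
      simp
    · rw [Set.indicator_of_notMem hx]
      obtain ⟨t, rfl⟩ := he x
      have c1 : |cos (2 * π * ⟪(e t : E d), u (e t)⟫)| < 1 := by
        rw [show 2 * π * ⟪(e t : E d), u (e t)⟫ = π * (2 * ⟪(e t : E d), u (e t)⟫) by ring]
        refine (abs_cos_pi_le _).trans_lt (exp_lt_one_iff.2 ?_)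
        nlinarith [circ_pos (hu' _ hx)]
      have c2 := ((tendsto_pow_atTop_nhds_zero_of_lt_one (abs_nonneg _) c1).comp
        (tendsto_id.const_mul_atTop' (two_pos (α := ℕ)))).const_mul |g (e t)|
      rw [mul_zero] at c2
      refine squeeze_zero_norm' ?_ c2
      filter_upwards [eventually_gt_atTop t] with j hj
      rw [hw', Real.norm_eq_abs, abs_mul, abs_mul, ← mul_prod_erase _ _ (mem_univ ⟨t, hj⟩), abs_mul,
        abs_pow]
      refine mul_le_mul_of_nonneg_left ((mul_le_of_le_one_left (by positivity)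
        (abs_Phi_le_one _ _)).trans (mul_le_of_le_one_right (by positivity)
          (abs_prod_le_one _ _ fun _ => ?_))) (abs_nonneg _)
      rw [abs_pow]
      exact pow_le_one₀ (abs_nonneg _) (abs_cos_le_one _)
  · rintro (i | t)
    exacts [hw i, hA _ (hu _)]
  · simp only [Fintype.card_sum, Fintype.card_prod, Fintype.card_fin]
    rw [mul_left_comm]
    omega

end

end Pool.Agent.Lib.MP_3b7d13_co.Var
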