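import Pool.Agent.Lib.MP_3b7d13_co.VarDegen

/-! The limiting dual group of a sequence of configurations. -/

namespace Pool.Agent.Lib.MP_3b7d13_co.Var

open Real Finset MeasureTheory Metric Filter Topology Module
open scoped RealInnerProductSpace

variable {d : ℕ}

lemma discrete_of_small (L : Submodule ℤ (E d)) {ρ : ℝ} (hρ : 0 < ρ)
    (h : ∀ x ∈ L, ‖x‖ < ρ → x = 0) : DiscreteTopology L := by
  refine discreteTopology_of_isOpen_singleton_zero ?_
  have : ({0} : Set L) = ball 0 ρ := by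
    ext x
    simp only [Set.mem_singleton_iff, mem_ball_zero_iff]
    exact ⟨fun hx => by simpa [hx] using hρ, fun hx => Subtype.ext (h x x.2 hx)⟩
  rw [this]
  exact isOpen_ball

lemma discrete_finite (L : Submodule ℤ (E d)) [DiscreteTopology L] (R : ℝ) :
    {x | x ∈ L ∧ ‖x‖ ≤ R}.Finite := by
  have : DiscreteTopology L.toAddSubgroup := ‹_›
  refine (Metric.finite_isBounded_inter_isClosed (s := (L : Set (E d))) DiscreteTopology.isDiscrete
    (isBounded_closedBall (x := 0) (r := R))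
    (AddSubgroup.isClosed_of_discrete (H := L.toAddSubgroup))).subset fun x hx =>
      ⟨mem_closedBall_zero_iff.2 hx.2, hx.1⟩

structure Frame (Λ : Set (E d)) {b m : ℕ} (a a' : Fin b → E d) (f : Fin m → E d) : Prop where
  mem : ∀ j, a j ∈ Λ
  int : ∀ x ∈ Λ, ∀ j, ∃ n : ℤ, ⟪a' j, x⟫ = n
  orth : ∀ x ∈ Λ, ∀ l, ⟪f l, x⟫ = 0
  orth' : ∀ j l, ⟪f l, a' j⟫ = 0
  on : Orthonormal ℝ f
  exp : ∀ x, x = ∑ j, ⟪a' j, x⟫ • a j + ∑ l, ⟪f l, x⟫ • f l

lemma Frame.exp' {Λ : Set (E d)} {b m : ℕ} {a a' : Fin b → E d} {f : Fin m → E d}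
    (h : Frame Λ a a' f) (x : E d) : x = ∑ j, ⟪a j, x⟫ • a' j + ∑ l, ⟪f l, x⟫ • f l := by
  refine ext_inner_left ℝ fun y => ?_
  conv_lhs => rw [h.exp y]
  simp only [inner_add_left, inner_add_right, sum_inner, inner_sum, real_inner_smul_left,
    real_inner_smul_right, real_inner_comm y, mul_comm]

lemma exists_frame {Λ : Set (E d)} (h0 : 0 ∈ Λ) (h1 : ∀ x ∈ Λ, ∀ y ∈ Λ, x - y ∈ Λ) (hs : Sep Λ) :
    ∃ (b m : ℕ) (a a' : Fin b → E d) (f : Fin m → E d), Frame Λ a a' f := by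
  let L : Submodule ℤ (E d) := (AddSubgroup.ofSub Λ ⟨0, h0⟩ fun x hx y hy => by
    rw [← sub_eq_add_neg]; exact h1 x hx y hy).toIntSubmodule
  have hL : ∀ x, x ∈ L ↔ x ∈ Λ := fun x => Iff.rfl
  have : DiscreteTopology L := discrete_of_small L (ρ := 1 / 4) (by norm_num) fun x hx h => by
    by_contra hx0
    have := hs x hx 0 h0 hx0
    rw [dist_zero_right] at this
    linarith
  let Y := Submodule.span ℝ Λ
  let L0 := ZLattice.comap ℝ L Y.subtype
  have : DiscreteTopology L0 := ZLattice.comap_discreteTopology ℝ L continuous_subtype_val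
    Y.injective_subtype
  have : IsZLattice ℝ L0 := ⟨eq_top_iff.mpr Submodule.span_span_coe_preimage.symm.le⟩
  let B0 := Module.finBasis ℤ L0
  let B := B0.ofZLatticeBasis ℝ L0
  let F := stdOrthonormalBasis ℝ Yᗮ
  choose a' ha' using fun j => (InnerProductSpace.toDual ℝ (E d)).surjective
    (LinearMap.toContinuousLinearMap ((B.coord j).comp Y.orthogonalProjectionOnto.toLinearMap))
  have h2 : ∀ j x, ⟪a' j, x⟫ = B.repr (Y.orthogonalProjectionOnto x) j := fun j x =>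
    DFunLike.congr_fun (ha' j) x
  refine ⟨_, _, fun j => B j, a', fun l => F l, fun j => ?_, fun x hx j => ?_, fun x hx l => ?_,
    fun j l => ?_, ?_, fun x => ?_⟩
  · rw [Basis.ofZLatticeBasis_apply]; exact (B0 j).2
  · have hx' : x ∈ Y := Submodule.subset_span hx
    refine ⟨B0.repr ⟨⟨x, hx'⟩, hx⟩ j, ?_⟩
    rw [h2, show Y.orthogonalProjectionOnto x = ⟨x, hx'⟩ from
      Y.orthogonalProjectionOnto_mem_subspace_eq_self ⟨x, hx'⟩]
    exact B0.ofZLatticeBasis_repr_apply ℝ L0 ⟨⟨x, hx'⟩, hx⟩ j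
  · exact Submodule.inner_left_of_mem_orthogonal (Submodule.subset_span hx) (F l).2
  · rw [real_inner_comm, h2, Submodule.orthogonalProjectionOnto_eq_zero_iff.2 (F l).2]; simp
  · exact F.orthonormal.comp_linearIsometry Yᗮ.subtypeₗᵢ
  · conv_lhs => rw [← Y.starProjection_add_starProjection_orthogonal x]
    congr 1
    · have := congrArg Subtype.val (B.sum_repr (Y.orthogonalProjectionOnto x))
      simp only [h2]
      simp only [AddSubmonoidClass.coe_finsetSum, SetLike.val_smul] at this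
      exact this.symm
    · have := congrArg Subtype.val (F.orthogonalProjectionOnto_apply_eq_sum x)
      simpa using this

lemma solve {ι : Type*} [Fintype ι] (μ : ι → ℝ) (a : ι → E d) {c : ℝ} (hc : 0 < c)
    (h : ∀ ζ, c * ‖ζ‖ ^ 2 ≤ ∑ i, μ i * ⟪ζ, a i⟫ ^ 2) :
    ∃ G : E d →ₗ[ℝ] E d, (∀ y, ∑ i, (μ i * ⟪a i, G y⟫) • a i = y) ∧
      (∀ x, G (∑ i, (μ i * ⟪a i, x⟫) • a i) = x) ∧ ∀ y, ‖G y‖ ≤ ‖y‖ / c := by
  let N : E d →ₗ[ℝ] E d := ∑ i, μ i • (innerSL ℝ (a i)).toLinearMap.smulRight (a i)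
  have hN : ∀ x, N x = ∑ i, (μ i * ⟪a i, x⟫) • a i := fun x => by
    simp [N, LinearMap.sum_apply, smul_smul]
  have h1 : ∀ x, c * ‖x‖ ≤ ‖N x‖ := fun x => by
    rcases (norm_nonneg x).eq_or_lt with h0 | h0
    · rw [← h0, mul_zero]; exact norm_nonneg _
    refine le_of_mul_le_mul_left ?_ h0
    refine le_trans ?_ (real_inner_le_norm x (N x))
    rw [hN, inner_sum]
    refine le_trans (le_of_eq (by ring)) ((h x).trans (le_of_eq (sum_congr rfl fun i _ => ?_)))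
    rw [real_inner_smul_right, real_inner_comm x]; ring
  have h2 : Function.Injective N := (injective_iff_map_eq_zero N).2 fun x hx => by
    have := h1 x
    rw [hx, norm_zero] at this
    exact norm_le_zero_iff.1 (by nlinarith [norm_nonneg x])
  let e := LinearEquiv.ofInjectiveEndo N h2
  refine ⟨e.symm, fun y => ?_, fun x => ?_, fun y => ?_⟩
  · rw [← hN]; exact e.apply_symm_apply y
  · rw [← hN]; exact e.symm_apply_apply x
  · rw [le_div_iff₀' hc]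
    exact (h1 _).trans (le_of_eq (congrArg _ (e.apply_symm_apply y)))

lemma lsq {ι : Type*} [Fintype ι] {v : ι → E d} {c : ℝ} (hc : 0 < c)
    (h : ∀ ζ, c * ‖ζ‖ ^ 2 ≤ qf v ζ) (θ : ι → ℝ) :
    ∃ ω, ∑ i, (θ i - 2 * ⟪ω, v i⟫) • v i = 0 ∧
      ∑ i, (θ i - 2 * ⟪ω, v i⟫) ^ 2 + 4 * qf v ω = ∑ i, θ i ^ 2 := by
  obtain ⟨G, h1, -⟩ := solve (fun _ => 2) v hc fun ζ => by
    rw [← mul_sum]; linarith [h ζ, qf_nonneg v ζ, show ∑ i, ⟪ζ, v i⟫ ^ 2 = qf v ζ from rfl]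
  set ω := G (∑ i, θ i • v i)
  have h2 : ∑ i, (θ i - 2 * ⟪ω, v i⟫) • v i = 0 := by
    simp only [sub_smul, sum_sub_distrib, real_inner_comm (v _), h1, ω, sub_self]
  refine ⟨ω, h2, ?_⟩
  have h3 := congrArg (fun x => 4 * ⟪ω, x⟫) h2
  simp only [inner_sum, real_inner_smul_right, inner_zero_right, mul_zero, mul_sum] at h3
  rw [qf, mul_sum, ← add_zero (∑ i, (θ i - 2 * ⟪ω, v i⟫) ^ 2), ← h3, ← sum_add_distrib,
    ← sum_add_distrib]
  exact sum_congr rfl fun i _ => by ring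

variable {κ : Type*} {ι : κ → Type*} [∀ k, Fintype (ι k)]

structure Str (l : Filter κ) (v : ∀ k, ι k → E d) (Λ : Set (E d)) {m : ℕ} (f : Fin m → E d)
    (L : Submodule ℤ (E d)) (R : κ → E d →L[ℝ] E d) (P : E d →L[ℝ] E d) (p : ∀ k, ι k → E d)
    (C : ℝ) : Prop where
  sep : Sep Λ
  on : Orthonormal ℝ f
  orth : ∀ x ∈ Λ, ∀ j, ⟪f j, x⟫ = 0
  disc : DiscreteTopology L
  dual : ∀ x ∈ L, x ∈ dualS Λ ∧ ∀ j, ⟪f j, x⟫ = 0
  lim : Tendsto R l (𝓝 P)
  proj : ∀ x, P x = x - ∑ j, ⟪f j, x⟫ • f j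
  range : ∀ k x j, ⟪f j, R k x⟫ = 0
  mem : ∀ k i, p k i ∈ L
  bdd : ∀ᶠ k in l, ∑ i, ‖R k (v k i) - p k i‖ ^ 2 ≤ C
  schur : ∀ᶠ k in l, ∀ x, ∑ i, ⟪x, R k (v k i) - p k i⟫ • v k i = 0
  off : ∀ x ∉ Λ, (∀ j, ⟪f j, x⟫ = 0) → Tendsto (fun k => Q (fun i => R k (v k i)) x) l atTop

lemma qf_coercive {l : Filter κ} {v : ∀ k, ι k → E d} (hn : Tendsto (fun k => rt (ι k)) l atTop)
    {M : Mat d} (hM : M.PosDef) (hMl : Tendsto (fun k => emp (v k)) l (𝓝 M)) (c : ℝ) :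
    ∀ᶠ k in l, ∀ ζ, c * ‖ζ‖ ^ 2 ≤ qf (v k) ζ := by
  obtain ⟨c0, h0, h1⟩ := coercive hM
  filter_upwards [hMl.eventually h1, hn.eventually_gt_atTop 0,
    (((tendsto_pow_atTop two_ne_zero).comp hn).atTop_mul_const h0).eventually_ge_atTop c]
    with k a1 a2 a3 ζ
  have := a1 (rt (ι k) • ζ)
  rw [qm_emp, inv_smul_smul₀ a2.ne', norm_smul, mul_pow, Real.norm_eq_abs, sq_abs] at this
  refine le_trans ?_ this
  rw [← mul_assoc, mul_comm c0]
  exact mul_le_mul_of_nonneg_right a3 (sq_nonneg _)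

theorem exists_str (𝒰 : Ultrafilter κ) {v : ∀ k, ι k → E d} (hv : ∀ k i, ‖v k i‖ ≤ 1)
    (hn : Tendsto (fun k => rt (ι k)) 𝒰 atTop) {M : Mat d} (hM : M.PosDef)
    (hMl : Tendsto (fun k => emp (v k)) 𝒰 (𝓝 M)) {g : E d → ℝ} (hg : Continuous g) {B : ℝ}
    (hB : ∀ y, |g y| ≤ B * wt y) :
    ∃ (Λ : Set (E d)) (m : ℕ) (f : Fin m → E d) (L : Submodule ℤ (E d))
      (R : κ → E d →L[ℝ] E d) (P : E d →L[ℝ] E d) (p : ∀ k, ι k → E d) (C : ℝ),
      Str 𝒰 v Λ f L R P p C ∧ Tendsto (fun k => rt (ι k) ^ d * (∫ y, g y * Phi (v k) y) -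
        cM M * ∑' x : Λ, g x * Phi (fun i => R k (v k i)) x) 𝒰 (𝓝 0) := by
  have hco := qf_coercive hn hM hMl
  let Λ : Set (E d) := {x | ∃ (ξ : κ → E d) (C : ℝ), Tendsto ξ 𝒰 (𝓝 x) ∧
    ∀ᶠ k in 𝒰, Q (v k) (ξ k) ≤ C}
  have h0 : 0 ∈ Λ := ⟨0, 0, tendsto_const_nhds, Eventually.of_forall fun k => by simp [Q]⟩
  have h1 : ∀ x ∈ Λ, ∀ y ∈ Λ, x - y ∈ Λ := by
    rintro x ⟨ξ, C, a1, a2⟩ y ⟨ξ', C', a3, a4⟩
    refine ⟨fun k => ξ k - ξ' k, 2 * C + 2 * C', a1.sub a3, ?_⟩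
    filter_upwards [a2, a4] with k b1 b2
    linarith [Q_sub_le (v k) (ξ k) (ξ' k)]
  have hs : Sep Λ := by
    intro x hx y hy hxy
    obtain ⟨ξ, C, a1, a2⟩ := h1 x hx y hy
    by_contra hlt
    rw [not_le, dist_eq_norm] at hlt
    have hp := half_pos (norm_pos_iff.2 (sub_ne_zero.2 hxy))
    obtain ⟨k, b1, b2, b3, b4⟩ := (a2.and ((a1.norm.eventually (gt_mem_nhds hlt)).and
      ((a1.norm.eventually (lt_mem_nhds (half_lt_self (norm_pos_iff.2 (sub_ne_zero.2 hxy))))).and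
        (hco ((|C| + 1) / (‖x - y‖ / 2) ^ 2))))).exists
    rw [Q_small (hv k) b2.le] at b1
    have b5 : (|C| + 1) / (‖x - y‖ / 2) ^ 2 * (‖x - y‖ / 2) ^ 2 ≤ qf (v k) (ξ k) :=
      le_trans (by gcongr) (b4 (ξ k))
    rw [div_mul_cancel₀ _ (by positivity)] at b5
    linarith [le_abs_self C, abs_nonneg C]
  have hoff : OffPeak 𝒰 v Λ := by
    intro x hx
    obtain ⟨ρ, hρ, a1⟩ : ∃ ρ > 0, ∀ y ∈ closedBall x ρ, y ∉ Λ := by
      by_cases h : ∃ y ∈ Λ, dist y x ≤ 1 / 16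
      · obtain ⟨y, hy, h⟩ := h
        have hp : 0 < dist y x := dist_pos.2 fun h => hx (h ▸ hy)
        refine ⟨dist y x / 2, by positivity, fun z hz hz' => ?_⟩
        rw [mem_closedBall] at hz
        have := hs z hz' y hy (by rintro rfl; linarith)
        linarith [dist_triangle_right z y x]
      · exact ⟨1 / 16, by norm_num, fun z hz hz' => h ⟨z, hz', hz⟩⟩
    refine ⟨ρ, hρ, fun R => ?_⟩
    by_contra h
    rw [← Ultrafilter.eventually_not] at h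
    push Not at h
    obtain ⟨ξ, hξ⟩ := Eventually.choice h
    obtain ⟨y, hy, a2⟩ := (isCompact_closedBall x ρ).ultrafilter_le_nhds (𝒰.map ξ)
      (le_principal_iff.2 (hξ.mono fun k hk => ball_subset_closedBall hk.1))
    exact a1 y hy ⟨ξ, R, a2, hξ.mono fun k hk => hk.2.le⟩
  obtain ⟨b, m, a, a', f, hf⟩ := exists_frame h0 h1 hs
  have key : ∀ j, ∃ (ξ : κ → E d) (n : ∀ k, ι k → ℤ) (C : ℝ), Tendsto ξ 𝒰 (𝓝 (a j)) ∧
      ∀ᶠ k in 𝒰, ∑ i, (2 * ⟪ξ k, v k i⟫ - n k i) ^ 2 ≤ C ∧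
        ∑ i, (2 * ⟪ξ k, v k i⟫ - n k i) • v k i = 0 := fun j => by
    obtain ⟨ξ, C, a1, a2⟩ := hf.mem j
    obtain ⟨ω, a3⟩ := Eventually.choice ((hco 1).mono fun k hk => lsq one_pos hk
      fun i => 2 * ⟪ξ k, v k i⟫ - round (2 * ⟪ξ k, v k i⟫))
    have e : ∀ k i, 2 * ⟪ξ k - ω k, v k i⟫ - round (2 * ⟪ξ k, v k i⟫) =
        2 * ⟪ξ k, v k i⟫ - round (2 * ⟪ξ k, v k i⟫) - 2 * ⟪ω k, v k i⟫ := fun k i => by
      rw [inner_sub_left]; ring
    refine ⟨fun k => ξ k - ω k, fun k i => round (2 * ⟪ξ k, v k i⟫), C, ?_, ?_⟩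
    · suffices Tendsto ω 𝒰 (𝓝 0) by simpa using a1.sub this
      rw [NormedAddGroup.tendsto_nhds_zero]
      intro ε hε
      filter_upwards [a2, a3, hco ((|C| + 1) / ε ^ 2)] with k b1 b2 b3
      have b4 := b3 (ω k)
      rw [Q_eq_round, ← b2.2] at b1
      have b5 : 0 ≤ ∑ i, (2 * ⟪ξ k, v k i⟫ - round (2 * ⟪ξ k, v k i⟫) - 2 * ⟪ω k, v k i⟫) ^ 2 :=
        sum_nonneg fun _ _ => sq_nonneg _
      by_contra b6
      have b7 : (|C| + 1) / ε ^ 2 * ε ^ 2 ≤ qf (v k) (ω k) :=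
        le_trans (by gcongr; exact not_lt.1 b6) b4
      rw [div_mul_cancel₀ _ (by positivity)] at b7
      linarith [le_abs_self C, abs_nonneg C]
    · filter_upwards [a2, a3] with k b1 b2
      simp only [e]
      rw [Q_eq_round, ← b2.2] at b1
      exact ⟨by linarith [qf_nonneg (v k) (ω k)], b2.1⟩
  choose ξ n C h2 h3 using key
  let L : Submodule ℤ (E d) := (AddSubgroup.ofSub {x | x ∈ dualS Λ ∧ ∀ j, ⟪f j, x⟫ = 0}
    ⟨0, fun _ _ => ⟨0, by simp⟩, fun _ => by simp⟩ fun x hx y hy => by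
      rw [← sub_eq_add_neg]
      exact ⟨dualS_sub hx.1 hy.1, fun j => by rw [inner_sub_right, hx.2, hy.2, sub_self]⟩
        ).toIntSubmodule
  let R : κ → E d →L[ℝ] E d := fun k => ∑ j, InnerProductSpace.rankOne ℝ (a' j) (ξ j k)
  have hR : ∀ k x, R k x = ∑ j, ⟪ξ j k, x⟫ • a' j := fun k x => by
    simp [R, _root_.sum_apply]
  let p : ∀ k, ι k → E d := fun k i => ∑ j, ((n j k i : ℝ) / 2) • a' j
  have hz : ∀ k i, R k (v k i) - p k i = ∑ j, ((2 * ⟪ξ j k, v k i⟫ - n j k i) / 2) • a' j := by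
    intro k i
    rw [hR, ← sum_sub_distrib]
    exact sum_congr rfl fun j _ => by rw [← sub_smul]; congr 1; ring
  have hpL : ∀ k i, p k i ∈ L := fun k i => by
    refine ⟨fun x hx => ?_, fun j => by simp [p, inner_sum, real_inner_smul_right, hf.orth']⟩
    choose c hc using hf.int x hx
    refine ⟨∑ j, n j k i * c j, ?_⟩
    simp only [p, sum_inner, real_inner_smul_left, hc, mul_sum]
    push_cast
    exact sum_congr rfl fun j _ => by ring
  have hb : ∀ᶠ k in 𝒰, ∑ i, ‖R k (v k i) - p k i‖ ^ 2 ≤ (∑ j, C j) * ∑ j, ‖a' j‖ ^ 2 := by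
    filter_upwards [eventually_all.2 h3] with k hk
    refine le_trans (sum_le_sum fun i _ => show _ ≤ (∑ j, (2 * ⟪ξ j k, v k i⟫ - n j k i) ^ 2) *
      ∑ j, ‖a' j‖ ^ 2 from ?_) ?_
    · rw [← sum_congr rfl fun j _ => sq_abs _]
      refine le_trans ?_ (sum_mul_sq_le_sq_mul_sq _ _ _)
      rw [hz]
      gcongr
      refine (norm_sum_le _ _).trans (sum_le_sum fun j _ => ?_)
      rw [norm_smul, Real.norm_eq_abs, abs_div, abs_two]
      gcongr
      exact half_le_self (abs_nonneg _)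
    · rw [← sum_mul, sum_comm]
      gcongr with j
      exact (hk j).1
  have hsch : ∀ᶠ k in 𝒰, ∀ x, ∑ i, ⟪x, R k (v k i) - p k i⟫ • v k i = 0 := by
    filter_upwards [eventually_all.2 h3] with k hk x
    simp only [hz, inner_sum, real_inner_smul_right, sum_smul]
    rw [sum_comm]
    refine sum_eq_zero fun j _ => ?_
    rw [← smul_zero (A := E d) (⟪x, a' j⟫ / 2), ← (hk j).2, smul_sum]
    exact sum_congr rfl fun i _ => by rw [smul_smul]; congr 1; ring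
  let ζ : E d → κ → E d := fun x k => ∑ j, ⟪a' j, x⟫ • ξ j k
  have hζ : ∀ x k y, ⟪ζ x k, y⟫ = ⟪x, R k y⟫ := fun x k y => by
    simp only [ζ, hR, sum_inner, inner_sum, real_inner_smul_left, real_inner_smul_right]
    exact sum_congr rfl fun j _ => by rw [real_inner_comm x, mul_comm]
  have hζl : ∀ x, (∀ j, ⟪f j, x⟫ = 0) → Tendsto (ζ x) 𝒰 (𝓝 x) := fun x hx => by
    have := tendsto_finsetSum univ fun j _ => (h2 j).const_smul ⟪a' j, x⟫
    have e := hf.exp x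
    simp only [hx, zero_smul, sum_const_zero, add_zero] at e
    rwa [← e] at this
  refine ⟨Λ, m, f, L, R, ∑ j, InnerProductSpace.rankOne ℝ (a' j) (a j), p, _,
    ⟨hs, hf.on, hf.orth, ?_, fun x hx => hx, ?_, fun x => ?_, fun k x j => ?_, hpL, hb, hsch,
      fun x hx hx' => ?_⟩, ?_⟩
  · refine discrete_of_small L (ρ := 1 / (2 * (∑ j, ‖a j‖ + 1))) (by positivity) fun x hx h => ?_
    rw [hf.exp' x]
    simp only [hx.2, zero_smul, sum_const_zero, add_zero]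
    refine sum_eq_zero fun j _ => ?_
    obtain ⟨c, hc⟩ := hx.1 _ (hf.mem j)
    have b1 := single_le_sum (f := fun j => ‖a j‖) (fun _ _ => norm_nonneg _) (mem_univ j)
    have b2 : |(c : ℝ)| < 1 := by
      rw [lt_div_iff₀ (by positivity)] at h
      rw [← hc, abs_mul, abs_two]
      nlinarith [abs_real_inner_le_norm x (a j), norm_nonneg x]
    have b3 : c = 0 := Int.abs_lt_one_iff.1 (by exact_mod_cast b2)
    rw [b3, Int.cast_zero, mul_eq_zero, real_inner_comm] at hc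
    rw [hc.resolve_left two_ne_zero, zero_smul]
  · exact tendsto_finsetSum univ fun j _ =>
      ((InnerProductSpace.rankOne ℝ (a' j)).continuous.tendsto _).comp (h2 j)
  · rw [eq_sub_iff_add_eq]
    conv_rhs => rw [hf.exp' x]
    simp [_root_.sum_apply]
  · simp [hR, inner_sum, real_inner_smul_right, hf.orth']
  · obtain ⟨ρ, hρ, a1⟩ := hoff x hx
    refine tendsto_atTop.2 fun T => ?_
    filter_upwards [a1 T, (hζl x hx').eventually (ball_mem_nhds x hρ)] with k b1 b2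
    simpa only [Q, hζ] using b1 _ b2
  · have := MAT hv hn hM hMl hs (ξ := fun x => ζ x) (fun x => ?_) hoff hg hB
    · simpa only [Phi, hζ] using this
    choose c hc using fun k i => (hpL k i).1 x x.2
    have e : ∀ k i, 2 * ⟪ζ x k, v k i⟫ - c k i = ⟪(2 : ℝ) • (x : E d), R k (v k i) - p k i⟫ := by
      intro k i
      rw [hζ, ← hc, real_inner_smul_left, inner_sub_right, real_inner_comm (p k i)]; ring
    refine ⟨hζl x (hf.orth x x.2), c, ‖(2 : ℝ) • (x : E d)‖ ^ 2 * ((∑ j, C j) * ∑ j, ‖a' j‖ ^ 2),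
      hb.mono fun k hk => ?_,
      tendsto_const_nhds.congr' (hsch.mono fun k hk => by simp only [e, hk, smul_zero])⟩
    refine le_trans ?_ (mul_le_mul_of_nonneg_left hk (sq_nonneg _))
    rw [mul_sum]
    refine sum_le_sum fun i _ => ?_
    rw [e, ← mul_pow, ← sq_abs]
    gcongr
    exact abs_real_inner_le_norm _ _

end Pool.Agent.Lib.MP_3b7d13_co.Var
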