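import Pool.Agent.Lib.MP_3b7d13_co.Defs

/-! Products of cosines, Rademacher and Gaussian averages. -/

namespace Pool.Agent.Lib.MP_3b7d13_co.Var

open Real Finset MeasureTheory ProbabilityTheory

lemma abs_prod_le_one {ι : Type*} (s : Finset ι) (a : ι → ℝ) (ha : ∀ i, |a i| ≤ 1) :
    |∏ i ∈ s, a i| ≤ 1 := by
  rw [abs_prod]
  exact prod_le_one (fun i _ => abs_nonneg _) fun i _ => ha i

lemma abs_prod_sub_prod {ι : Type*} (s : Finset ι) (a b : ι → ℝ) (ha : ∀ i, |a i| ≤ 1)
    (hb : ∀ i, |b i| ≤ 1) : |∏ i ∈ s, a i - ∏ i ∈ s, b i| ≤ ∑ i ∈ s, |a i - b i| := by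
  classical
  induction s using Finset.induction_on with
  | empty => simp
  | insert j s hj ih =>
    rw [prod_insert hj, prod_insert hj, sum_insert hj]
    have e : a j * ∏ i ∈ s, a i - b j * ∏ i ∈ s, b i =
        (a j - b j) * ∏ i ∈ s, a i + b j * (∏ i ∈ s, a i - ∏ i ∈ s, b i) := by ring
    rw [e]
    refine (abs_add_le _ _).trans ?_
    rw [abs_mul, abs_mul]
    have h1 := abs_prod_le_one s a ha
    have h2 := hb j
    have h3 := abs_nonneg (a j - b j)
    have h4 := abs_nonneg (∏ i ∈ s, a i - ∏ i ∈ s, b i)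
    nlinarith

lemma abs_mul_cos_sub_sin (x : ℝ) : |x * cos x - sin x| ≤ x ^ 2 := by
  have h : ∀ t : ℝ, HasDerivAt (fun t : ℝ => (t * x) * cos (t * x) - sin (t * x))
      (-(t * x) * sin (t * x) * x) t := by
    intro t
    have h0 : HasDerivAt (fun t : ℝ => t * x) x t := by simpa using (hasDerivAt_id t).mul_const x
    exact ((h0.mul h0.cos).sub h0.sin).congr_deriv (by ring)
  have := norm_image_sub_le_of_norm_deriv_le_segment_01' (C := x ^ 2)
    (fun t _ => (h t).hasDerivWithinAt) (fun t ht => by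
      rw [Real.norm_eq_abs, abs_mul, abs_mul, abs_neg, abs_mul, abs_of_nonneg ht.1]
      have h1 := abs_sin_le_one (t * x)
      have h2 := abs_nonneg x
      have h3 := abs_nonneg (sin (t * x))
      have h4 : t * |x| * |sin (t * x)| ≤ |x| := by
        have : t * |x| ≤ |x| := by nlinarith [ht.1, ht.2]
        nlinarith [mul_nonneg ht.1 h2]
      calc _ ≤ |x| * |x| := mul_le_mul_of_nonneg_right h4 h2
        _ = x ^ 2 := by rw [abs_mul_abs_self, sq])
  simpa using this

/-- Gaussian factorisation of a product of cosines. -/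
lemma prod_cos_approx {ι : Type*} [Fintype ι] (θ h : ι → ℝ) {m : ℝ} (hm : ∀ i, |h i| ≤ m) :
    |∏ i, cos (θ i + h i) - exp (-(∑ i, h i ^ 2) / 2) * ∏ i, cos (θ i)| ≤
      |∑ i, θ i * h i| + 2 * m * (∑ i, θ i ^ 2 + ∑ i, h i ^ 2) := by
  classical
  set H := ∑ i, h i ^ 2 with hH
  have hH0 : 0 ≤ H := sum_nonneg fun i _ => sq_nonneg _
  let G : ℝ → ℝ := fun s => exp (-((1 - s ^ 2) * H) / 2) * ∏ i, cos (θ i + s * h i)
  let G' : ℝ → ℝ := fun s => exp (-((1 - s ^ 2) * H) / 2) *
    (∑ i, h i * ((θ i + s * h i) * cos (θ i + s * h i) - sin (θ i + s * h i)) *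
      ∏ j ∈ univ.erase i, cos (θ j + s * h j) - (∑ i, θ i * h i) * ∏ i, cos (θ i + s * h i))
  have hG : ∀ s, HasDerivAt G (G' s) s := by
    intro s
    have h1 : HasDerivAt (fun s : ℝ => -((1 - s ^ 2) * H) / 2) (s * H) s := by
      exact (((((hasDerivAt_pow 2 s).const_sub 1).mul_const H).neg).div_const 2).congr_deriv
        (by simp; ring)
    have h2 : ∀ i ∈ (univ : Finset ι), HasDerivAt (fun s : ℝ => cos (θ i + s * h i))
        (-sin (θ i + s * h i) * h i) s := by
      intro i _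
      have h0 : HasDerivAt (fun s : ℝ => θ i + s * h i) (h i) s := by
        simpa using ((hasDerivAt_id s).mul_const (h i)).const_add (θ i)
      exact h0.cos
    have h3 := HasDerivAt.fun_finsetProd h2
    refine (h1.exp.mul h3).congr_deriv ?_
    simp only [G', smul_eq_mul]
    have e1 : ∀ i, (∏ j, cos (θ j + s * h j)) =
        cos (θ i + s * h i) * ∏ j ∈ univ.erase i, cos (θ j + s * h j) := fun i =>
      (mul_prod_erase univ (fun j => cos (θ j + s * h j)) (mem_univ i)).symm
    have e2 : ∑ i, h i * ((θ i + s * h i) * cos (θ i + s * h i) - sin (θ i + s * h i)) *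
        ∏ j ∈ univ.erase i, cos (θ j + s * h j) =
        (∑ i, θ i * h i) * (∏ i, cos (θ i + s * h i)) + s * H * (∏ i, cos (θ i + s * h i)) +
          ∑ i, (∏ j ∈ univ.erase i, cos (θ j + s * h j)) * (-sin (θ i + s * h i) * h i) := by
      rw [hH, mul_sum, sum_mul, sum_mul, ← sum_add_distrib, ← sum_add_distrib]
      refine sum_congr rfl fun i _ => ?_
      rw [e1 i]; ring
    rw [e2]; ring
  have key := norm_image_sub_le_of_norm_deriv_le_segment_01'
    (C := |∑ i, θ i * h i| + 2 * m * (∑ i, θ i ^ 2 + H))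
    (fun s _ => (hG s).hasDerivWithinAt) (fun s hs => by
      have hs0 := hs.1
      have hs1 := hs.2.le
      have hs2 : s ^ 2 ≤ 1 := by nlinarith
      have he : exp (-((1 - s ^ 2) * H) / 2) ≤ 1 := by
        rw [exp_le_one_iff]
        have : 0 ≤ (1 - s ^ 2) * H := mul_nonneg (by linarith) hH0
        linarith
      simp only [G', Real.norm_eq_abs]
      rw [abs_mul, abs_of_pos (exp_pos _)]
      refine (mul_le_of_le_one_left (abs_nonneg _) he).trans ?_
      refine (abs_sub _ _).trans ?_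
      rw [add_comm]
      refine add_le_add ?_ ?_
      · rw [abs_mul]
        exact mul_le_of_le_one_right (abs_nonneg _)
          (abs_prod_le_one _ _ fun i => abs_cos_le_one _)
      · refine (abs_sum_le_sum_abs _ _).trans ?_
        rw [hH, ← sum_add_distrib, mul_sum]
        refine sum_le_sum fun i _ => ?_
        rw [abs_mul, abs_mul]
        have a1 := abs_mul_cos_sub_sin (θ i + s * h i)
        have a2 := abs_prod_le_one (univ.erase i) (fun j => cos (θ j + s * h j))
          fun i => abs_cos_le_one _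
        have a3 : (θ i + s * h i) ^ 2 ≤ 2 * (θ i ^ 2 + h i ^ 2) := by
          have : (s * h i) ^ 2 ≤ h i ^ 2 := by rw [mul_pow]; nlinarith [sq_nonneg (h i)]
          nlinarith [sq_nonneg (θ i - s * h i)]
        have a4 := hm i
        have a5 := abs_nonneg (h i)
        calc _ ≤ |h i| * |(θ i + s * h i) * cos (θ i + s * h i) - sin (θ i + s * h i)| :=
              mul_le_of_le_one_right (by positivity) a2
          _ ≤ m * (2 * (θ i ^ 2 + h i ^ 2)) :=
              mul_le_mul a4 (a1.trans a3) (abs_nonneg _) (a5.trans a4)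
          _ = _ := by ring)
  simpa [G] using key

lemma abs_cos_add_sub (b x : ℝ) : |cos (b + x) - cos b| ≤ |x| * |b| + x ^ 2 := by
  rw [cos_sub_cos, abs_mul, abs_mul, abs_neg, abs_two]
  have h1 : |sin ((b + x + b) / 2)| ≤ |b| + |x| / 2 := by
    refine abs_sin_le_abs.trans ?_
    have : (b + x + b) / 2 = b + x / 2 := by ring
    rw [this]
    refine (abs_add_le _ _).trans ?_
    rw [abs_div, abs_two]
  have h2 : |sin ((b + x - b) / 2)| ≤ |x| / 2 := by
    refine abs_sin_le_abs.trans ?_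
    have : (b + x - b) / 2 = x / 2 := by ring
    rw [this, abs_div, abs_two]
  have h3 := abs_nonneg b
  have h4 := abs_nonneg x
  calc _ ≤ 2 * (|b| + |x| / 2) * (|x| / 2) := by gcongr
    _ ≤ |x| * |b| + x ^ 2 := by rw [← sq_abs x]; nlinarith

/-- Stability of a product of cosines under square summable perturbations. -/
lemma prod_cos_perturb {ι : Type*} [Fintype ι] (b x : ι → ℝ) :
    |∏ i, cos (b i + x i) - ∏ i, cos (b i)| ≤
      √(∑ i, x i ^ 2) * √(∑ i, b i ^ 2) + ∑ i, x i ^ 2 := by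
  refine (abs_prod_sub_prod _ _ _ (fun i => abs_cos_le_one _) fun i => abs_cos_le_one _).trans ?_
  refine (sum_le_sum fun i _ => abs_cos_add_sub (b i) (x i)).trans ?_
  rw [sum_add_distrib]
  gcongr
  have := sum_mul_le_sqrt_mul_sqrt univ (fun i => |x i|) (fun i => |b i|)
  simpa using this

lemma sum_cos_sgn {ι : Type*} [Fintype ι] [DecidableEq ι] (c : ℝ) (x : ι → ℝ) :
    ∑ ε : ι → Bool, cos (c + ∑ i, sgn (ε i) * x i) =
      2 ^ Fintype.card ι * (cos c * ∏ i, cos (x i)) := by
  have h : ∑ ε : ι → Bool, Complex.exp (((c + ∑ i, sgn (ε i) * x i : ℝ) : ℂ) * Complex.I) =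
      Complex.exp (c * Complex.I) * ((2 ^ Fintype.card ι * ∏ i, cos (x i) : ℝ) : ℂ) := by
    have e : ∀ ε : ι → Bool, Complex.exp (((c + ∑ i, sgn (ε i) * x i : ℝ) : ℂ) * Complex.I) =
        Complex.exp (c * Complex.I) *
          ∏ i, Complex.exp (((sgn (ε i) * x i : ℝ) : ℂ) * Complex.I) := by
      intro ε
      rw [← Complex.exp_sum, ← Complex.exp_add]
      congr 1
      push_cast
      rw [add_mul, sum_mul]
    simp_rw [e]
    rw [← mul_sum]
    congr 1
    have := Finset.prod_univ_sum (fun _ : ι => (univ : Finset Bool))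
      (fun i b => Complex.exp (((sgn b * x i : ℝ) : ℂ) * Complex.I))
    rw [Fintype.piFinset_univ] at this
    rw [← this]
    have e2 : ∀ i, ∑ b : Bool, Complex.exp (((sgn b * x i : ℝ) : ℂ) * Complex.I) =
        2 * Complex.cos (x i) := by
      intro i
      rw [Complex.two_cos]
      simp [sgn]
    simp_rw [e2]
    rw [prod_mul_distrib]
    simp
  have h2 := congrArg Complex.re h
  rw [Complex.re_sum] at h2
  simp only [Complex.exp_ofReal_mul_I_re, Complex.re_mul_ofReal] at h2
  rw [h2]; ring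

lemma integral_cos_gauss {ι : Type*} [Fintype ι] (c : ℝ) (t : ι → ℝ) :
    ∫ g : ι → ℝ, cos (c + ∑ i, t i * g i) ∂(Measure.pi fun _ => gaussianReal 0 1) =
      cos c * exp (-(∑ i, t i ^ 2) / 2) := by
  have e : ∀ g : ι → ℝ, Complex.exp (((c + ∑ i, t i * g i : ℝ) : ℂ) * Complex.I) =
      Complex.exp (c * Complex.I) * ∏ i, Complex.exp (((t i * g i : ℝ) : ℂ) * Complex.I) := by
    intro g
    rw [← Complex.exp_sum, ← Complex.exp_add]
    congr 1
    push_cast
    rw [add_mul, sum_mul]
  have h : ∫ g : ι → ℝ, Complex.exp (((c + ∑ i, t i * g i : ℝ) : ℂ) * Complex.I)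
      ∂(Measure.pi fun _ => gaussianReal 0 1) =
      Complex.exp (c * Complex.I) * ((exp (-(∑ i, t i ^ 2) / 2) : ℝ) : ℂ) := by
    simp_rw [e]
    rw [integral_const_mul, integral_fintype_prod_eq_prod
      (fun i (y : ℝ) => Complex.exp (((t i * y : ℝ) : ℂ) * Complex.I))]
    congr 1
    have e2 : ∀ i, ∫ y : ℝ, Complex.exp (((t i * y : ℝ) : ℂ) * Complex.I) ∂(gaussianReal 0 1) =
        Complex.exp (-(t i : ℂ) ^ 2 / 2) := by
      intro i
      have := charFun_gaussianReal (μ := 0) (v := 1) (t i)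
      rw [charFun_apply_real] at this
      push_cast
      rw [this]
      congr 1
      simp; ring
    simp_rw [e2]
    rw [← Complex.exp_sum]
    push_cast
    congr 1
    rw [neg_div, sum_div, ← sum_neg_distrib]
    refine sum_congr rfl fun i _ => by ring
  have hi : Integrable (fun g : ι → ℝ => Complex.exp (((c + ∑ i, t i * g i : ℝ) : ℂ) * Complex.I))
      (Measure.pi fun _ => gaussianReal 0 1) := by
    refine Integrable.of_bound (Continuous.aestronglyMeasurable (by fun_prop)) 1 ?_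
    filter_upwards with g
    rw [Complex.norm_exp_ofReal_mul_I]
  have h2 := congrArg Complex.re h
  have h3 := integral_re hi
  simp only [RCLike.re_to_complex] at h3
  rw [← h3] at h2
  simp only [Complex.exp_ofReal_mul_I_re, Complex.re_mul_ofReal] at h2
  exact h2

lemma abs_cos_pi_le (u : ℝ) : |cos (π * u)| ≤ exp (-2 * ‖(u : UnitAddCircle)‖ ^ 2) := by
  rw [UnitAddCircle.norm_eq]
  set y := u - round u with hy
  have h1 : |y| ≤ 1 / 2 := abs_sub_round u
  have e : π * u = π * y + (round u : ℤ) * π := by rw [hy]; ring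
  rw [e, cos_add_int_mul_pi, abs_mul]
  have h0 : |((-1 : ℝ)) ^ (round u)| = 1 := by rw [abs_zpow]; simp
  rw [h0, one_mul]
  have hp := pi_pos
  have h2 : |π * y| ≤ π / 2 := by rw [abs_mul, abs_of_pos hp]; nlinarith
  rw [abs_of_nonneg (cos_nonneg_of_mem_Icc (abs_le.1 h2))]
  refine (cos_le_one_sub_mul_cos_sq (h2.trans (by linarith))).trans ?_
  have e2 : 1 - 2 / π ^ 2 * (π * y) ^ 2 = -2 * |y| ^ 2 + 1 := by
    rw [sq_abs]; field_simp; ring
  rw [e2]
  exact add_one_le_exp _

lemma exp_le_cos {x : ℝ} (hx : |x| ≤ 1) : exp (-x ^ 2) ≤ cos x := by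
  have h1 : 1 - x ^ 2 / 2 ≤ cos x := one_sub_sq_div_two_le_cos
  have h2 : x ^ 2 ≤ 1 := by rw [← sq_abs]; nlinarith [abs_nonneg x]
  have h3 : 1 + x ^ 2 ≤ exp (x ^ 2) := by linarith [add_one_le_exp (x ^ 2)]
  rw [exp_neg]
  refine le_trans ?_ h1
  rw [inv_le_iff_one_le_mul₀ (exp_pos _)]
  nlinarith [sq_nonneg x]

end Pool.Agent.Lib.MP_3b7d13_co.Var
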