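import Pool.Agent.Lib.MP_3b7d13_co.VarVal

/-! The upper bound: every datum is realised by a sequence of configurations. -/

namespace Pool.Agent.Lib.MP_3b7d13_co.Var

open Real Finset MeasureTheory Metric Filter Topology Matrix
open scoped RealInnerProductSpace

variable {d : ℕ}

lemma Ex_equiv {ι κ : Type*} [Fintype ι] [Fintype κ] [DecidableEq ι] [DecidableEq κ] (e : κ ≃ ι)
    (v : ι → E d) (φ : E d → ℝ) : Ex (fun j => v (e j)) φ = Ex v φ := by
  unfold Ex
  rw [Fintype.card_congr e, ← (e.arrowCongr (Equiv.refl Bool)).sum_comp]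
  congr 1
  refine sum_congr rfl fun ε _ => ?_
  rw [← e.sum_comp]
  simp

lemma prob_eq {n : ℕ} (v : Fin n → E d) (r : ℝ) :
    prob v r = Ex v fun x => if ‖x‖ ≤ r then 1 else 0 := by
  simp [prob, Ex]

lemma Ex_mono {ι : Type*} [Fintype ι] [DecidableEq ι] (v : ι → E d) {φ ψ : E d → ℝ}
    (h : ∀ x, φ x ≤ ψ x) : Ex v φ ≤ Ex v ψ := by
  unfold Ex
  gcongr with ε
  exact h _

lemma prob_nonneg {n : ℕ} (v : Fin n → E d) (r : ℝ) : 0 ≤ prob v r := by
  unfold prob; positivity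

lemma F_nonneg (d : ℕ) (r : ℝ) (n : ℕ) : 0 ≤ F d r n :=
  Real.iInf_nonneg fun _ => prob_nonneg _ _

lemma F_le {ι : Type*} [Fintype ι] [DecidableEq ι] {v : ι → E d} (hv : ∀ i, ‖v i‖ = 1) {n : ℕ}
    (hn : Fintype.card ι = n) (r : ℝ) : F d r n ≤ Ex v fun x => if ‖x‖ ≤ r then 1 else 0 := by
  let e := (Fintype.equivFinOfCardEq hn).symm
  rw [← Ex_equiv e, ← prob_eq]
  exact ciInf_le (f := fun V : Fin n → sphere (0 : E d) 1 => prob (fun i => (V i).1) r)
    ⟨0, by rintro _ ⟨V, rfl⟩; exact prob_nonneg _ _⟩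
    (fun i => ⟨v (e i), mem_sphere_zero_iff_norm.2 (hv _)⟩)

lemma exists_unit {a : E d} (ha : ‖a‖ = 1) (x : E d) :
    ∃ w : E d, ‖w‖ = 1 ∧ ‖w - x‖ ≤ |‖x‖ ^ 2 - 1| := by
  rcases eq_or_ne x 0 with rfl | h
  · exact ⟨a, ha, by simp [ha]⟩
  have hn := norm_pos_iff.2 h
  refine ⟨‖x‖⁻¹ • x, by simp [norm_smul, hn.ne'], ?_⟩
  have e : ‖x‖⁻¹ • x - x = (‖x‖⁻¹ - 1) • x := by rw [sub_smul, one_smul]
  rw [e, norm_smul, Real.norm_eq_abs, ← abs_of_pos hn, ← abs_mul, abs_of_pos hn, sub_mul,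
    inv_mul_cancel₀ hn.ne', one_mul, show ‖x‖ ^ 2 - 1 = (1 - ‖x‖) * -(1 + ‖x‖) by ring, abs_mul,
    abs_neg, abs_of_pos (by positivity : 0 < 1 + ‖x‖)]
  exact le_mul_of_one_le_right (abs_nonneg _) (by linarith)

lemma exists_mult {N : ℕ} (μ : Fin N → ℝ) (h0 : ∀ i, 0 < μ i) (h1 : ∑ i, μ i = 1) :
    ∃ t : ℕ → Fin N → ℕ, (∀ h, ∑ i, t h i = h) ∧
      ∀ i, Tendsto (fun h : ℕ => (t h i : ℝ) / h) atTop (𝓝 (μ i)) := by
  obtain ⟨i0, -⟩ : (univ : Finset (Fin N)).Nonempty := by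
    rw [nonempty_iff_ne_empty]; intro h; rw [h] at h1; simp at h1
  have hs := add_sum_erase univ μ (mem_univ i0)
  have hle : ∀ h : ℕ, ∑ i ∈ univ.erase i0, ⌊μ i * h⌋₊ ≤ h := fun h => by
    have : ((∑ i ∈ univ.erase i0, ⌊μ i * h⌋₊ : ℕ) : ℝ) ≤ h := by
      push_cast
      refine (sum_le_sum fun i _ => Nat.floor_le (mul_nonneg (h0 i).le (Nat.cast_nonneg h))).trans ?_
      rw [← sum_mul]
      exact mul_le_of_le_one_left (Nat.cast_nonneg h) (by linarith [h0 i0])
    exact_mod_cast this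
  have hl : ∀ i, Tendsto (fun h : ℕ => (⌊μ i * h⌋₊ : ℝ) / h) atTop (𝓝 (μ i)) := fun i =>
    (tendsto_nat_floor_mul_div_atTop (h0 i).le).comp tendsto_natCast_atTop_atTop
  refine ⟨fun h i => if i = i0 then h - ∑ i ∈ univ.erase i0, ⌊μ i * h⌋₊ else ⌊μ i * h⌋₊,
    fun h => ?_, fun i => ?_⟩
  · beta_reduce
    rw [← add_sum_erase univ _ (mem_univ i0), if_pos rfl,
      sum_congr rfl fun i hi => if_neg (ne_of_mem_erase hi), Nat.sub_add_cancel (hle h)]
  · by_cases hi : i = i0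
    · subst hi
      have := (tendsto_finsetSum (univ.erase i) fun j _ => hl j).const_sub 1
      rw [show 1 - ∑ j ∈ univ.erase i, μ j = μ i by linarith] at this
      refine this.congr' ?_
      filter_upwards [eventually_gt_atTop 0] with h hh
      have : (0 : ℝ) < h := by exact_mod_cast hh
      rw [if_pos rfl, Nat.cast_sub (hle h), sub_div, div_self this.ne']
      push_cast
      rw [sum_div]
    · simpa only [if_neg hi] using hl i

lemma circ_cont : Continuous fun p : E d × E d => ‖((2 * ⟪p.1, p.2⟫ : ℝ) : UnitAddCircle)‖ :=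
  ((AddCircle.continuous_mk' 1).comp (by fun_prop)).norm

lemma circ_pos {x : ℝ} (h : ∀ m : ℤ, x ≠ m) : 0 < ‖(x : UnitAddCircle)‖ := by
  rw [UnitAddCircle.norm_eq, abs_pos, sub_ne_zero]
  exact h _

theorem realise_seq (D : Datum d) {g : E d → ℝ} (hg : Continuous g) {B : ℝ}
    (hB : ∀ y, |g y| ≤ B * wt y) :
    ∃ (t : ℕ → Fin D.N → ℕ) (v : ∀ h, ((Σ i, Fin (2 * t h i)) ⊕ Fin D.k) → E d),
      (∀ h i, ‖v h i‖ = 1) ∧ (∀ h, Fintype.card ((Σ i, Fin (2 * t h i)) ⊕ Fin D.k) = 2 * h + D.k) ∧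
      Tendsto (fun h : ℕ => √((2 * h + D.k : ℕ) : ℝ) ^ d * ∫ y, g y * Phi (v h) y) atTop
        (𝓝 (FV D g)) := by
  obtain ⟨t, ht, htl⟩ := exists_mult D.μ D.μ_pos D.μ_sum
  obtain ⟨T, hT⟩ := D.quad
  let ι : ℕ → Type := fun h => (Σ i, Fin (2 * t h i)) ⊕ Fin D.k
  have hcard : ∀ h, Fintype.card (ι h) = 2 * h + D.k := fun h => by
    simp [ι, ← mul_sum, ht]
  let s : ℕ → ℝ := fun h => rt (ι h)
  have hs : ∀ h, s h = √((2 * h + D.k : ℕ) : ℝ) := fun h => by simp only [s, rt, hcard]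
  have hs2 : ∀ h, s h ^ 2 = 2 * h + D.k := fun h => by
    rw [hs, sq_sqrt (Nat.cast_nonneg _)]; push_cast; rfl
  have hsl : Tendsto s atTop atTop := by
    rw [funext hs]
    exact tendsto_sqrt_atTop.comp (tendsto_natCast_atTop_atTop.comp
      (tendsto_atTop_mono (fun h => by simp only [id]; omega) tendsto_id))
  have hinv := hsl.inv_tendsto_atTop
  have hpos := hsl.eventually_gt_atTop 0
  let ω : ℕ → Fin D.N → ℝ := fun h i => 2 * t h i / s h ^ 2
  have hω : ∀ i, Tendsto (fun h => ω h i) atTop (𝓝 (D.μ i)) := fun i => by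
    have h1 : Tendsto (fun h : ℕ => 1 - D.k * (s h)⁻¹ ^ 2) atTop (𝓝 1) := by
      simpa using ((hinv.pow 2).const_mul (D.k : ℝ)).const_sub 1
    have := (htl i).mul h1
    rw [mul_one] at this
    refine this.congr' ?_
    filter_upwards [eventually_gt_atTop 0, hpos] with h hh hp
    have : (0 : ℝ) < h := by exact_mod_cast hh
    simp only [ω]
    rw [inv_pow, hs2]
    field_simp
    ring
  let δ : Fin D.N → E d := fun i => D.η i - T (D.a i)
  have hδ : ∀ i, ⟪D.a i, δ i⟫ = 0 := fun i => by simp only [δ, inner_sub_right, hT, sub_self]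
  choose u hu1 hu2 using fun h i => exists_unit (D.a_unit i) (D.a i + (s h)⁻¹ • δ i)
  have hu3 : ∀ i, Tendsto (fun h => s h • (u h i - D.a i)) atTop (𝓝 (δ i)) := fun i => by
    rw [tendsto_iff_norm_sub_tendsto_zero]
    refine squeeze_zero' (Eventually.of_forall fun _ => norm_nonneg _) ?_
      (by simpa using hinv.mul_const (‖δ i‖ ^ 2))
    filter_upwards [hpos] with h hp
    have e : s h • (u h i - D.a i) - δ i = s h • (u h i - (D.a i + (s h)⁻¹ • δ i)) := by
      simp only [smul_sub, smul_add, smul_smul, mul_inv_cancel₀ hp.ne', one_smul]; abel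
    have h2 := hu2 h i
    rw [norm_add_sq_real, real_inner_smul_right, hδ, D.a_unit, norm_smul, mul_pow, Real.norm_eq_abs,
      sq_abs, show (1 : ℝ) ^ 2 + 2 * ((s h)⁻¹ * 0) + (s h)⁻¹ ^ 2 * ‖δ i‖ ^ 2 - 1 =
        (s h)⁻¹ ^ 2 * ‖δ i‖ ^ 2 by ring, abs_of_nonneg (by positivity)] at h2
    rw [e, norm_smul, Real.norm_of_nonneg hp.le]
    refine (mul_le_mul_of_nonneg_left h2 hp.le).trans (le_of_eq ?_)
    field_simp
  have hu4 : ∀ i, Tendsto (fun h => u h i) atTop (𝓝 (D.a i)) := fun i => by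
    have := (hinv.smul (hu3 i)).add_const (D.a i)
    simp only [zero_smul, zero_add] at this
    refine this.congr' ?_
    filter_upwards [hpos] with h hp
    simp [smul_smul, inv_mul_cancel₀ hp.ne']
  let v : ∀ h, ι h → E d := fun h => Sum.elim (fun p => u h p.1) D.w
  have hv : ∀ h i, ‖v h i‖ = 1 := fun h i => by
    rcases i with p | j
    exacts [hu1 h p.1, D.w_unit j]
  have hsum : ∀ {M : Type} [AddCommMonoid M] h (f : Fin D.N → M) (f' : Fin D.k → M),
      ∑ i : ι h, Sum.elim (fun p => f p.1) f' i = ∑ i, (2 * t h i) • f i + ∑ j, f' j := by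
    intro M _ h f f'
    simp [ι, Fintype.sum_sum_type, Fintype.sum_sigma]
  have hM : Tendsto (fun h => emp (v h)) atTop (𝓝 D.M) := by
    refine tendsto_pi_nhds.2 fun p => tendsto_pi_nhds.2 fun q => ?_
    have hc : ∀ p i, Tendsto (fun h => u h i p) atTop (𝓝 (D.a i p)) := fun p i =>
      ((EuclideanSpace.proj p).continuous.tendsto _).comp (hu4 i)
    have := (tendsto_finsetSum univ fun i _ => ((hω i).mul (hc p i)).mul (hc q i)).add
      ((hinv.pow 2).mul_const (∑ j, D.w j p * D.w j q))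
    simp only [ne_eq, OfNat.ofNat_ne_zero, not_false_eq_true, zero_pow, zero_mul, add_zero] at this
    refine this.congr fun h => ?_
    have e : ((Fintype.card (ι h) : ℕ) : ℝ) = s h ^ 2 := (sq_sqrt (Nat.cast_nonneg _)).symm
    simp only [emp, mom, of_apply, e]
    simp_rw [mul_assoc (s h ^ 2)⁻¹]
    rw [← mul_sum univ _ (s h ^ 2)⁻¹]
    have := hsum h (fun i => u h i p * u h i q) (fun j => D.w j p * D.w j q)
    rw [sum_congr rfl fun i _ => show v h i p * v h i q = Sum.elim (fun x => u h x.1 p * u h x.1 q)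
      (fun j => D.w j p * D.w j q) i by rcases i with x | j <;> rfl, this, mul_add, mul_sum]
    simp only [ω, Pi.inv_apply, inv_pow, nsmul_eq_mul, mul_sum]
    congr 1
    refine sum_congr rfl fun i _ => ?_
    push_cast; ring
  let Λ := dualS (Set.range D.a)
  have hex : ∀ (x : Λ) i, ∃ m : ℤ, 2 * ⟪(x : E d), D.a i⟫ = m := fun x i => x.2 _ ⟨i, rfl⟩
  choose m hm using hex
  let ξ : Λ → ℕ → E d := fun x h => x + (s h)⁻¹ • LinearMap.adjoint T x
  have hξ : ∀ x, Tendsto (ξ x) atTop (𝓝 x) := fun x => by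
    simpa using (hinv.smul_const (LinearMap.adjoint T (x : E d))).const_add (x : E d)
  let θ : Λ → ℕ → Fin D.N → ℝ := fun x h i => 2 * ⟪ξ x h, u h i⟫ - m x i
  have hθ : ∀ x i, Tendsto (fun h => s h * θ x h i) atTop (𝓝 (2 * ⟪(x : E d), D.η i⟫)) := by
    intro x i
    have := (((tendsto_const_nhds (x := (x : E d))).inner (𝕜 := ℝ) (hu3 i)).add
      ((tendsto_const_nhds (x := LinearMap.adjoint T (x : E d))).inner (𝕜 := ℝ) (hu4 i))).const_mul 2
    rw [LinearMap.adjoint_inner_left, ← inner_add_right, sub_add_cancel] at this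
    refine this.congr' ?_
    filter_upwards [hpos] with h hp
    simp only [θ, ξ, ← hm, inner_add_left, real_inner_smul_left, real_inner_smul_right,
      inner_sub_right]
    field_simp
    ring
  have hθ0 : ∀ x i, Tendsto (fun h => θ x h i) atTop (𝓝 0) := fun x i => by
    have := hinv.mul (hθ x i)
    rw [zero_mul] at this
    refine this.congr' ?_
    filter_upwards [hpos] with h hp
    simp [← mul_assoc, inv_mul_cancel₀ hp.ne']
  have hθ2 : ∀ x, Tendsto (fun h => ∑ i, (2 * t h i) • θ x h i ^ 2) atTop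
      (𝓝 (∑ i, D.μ i * (2 * ⟪(x : E d), D.η i⟫) ^ 2)) := fun x => by
    refine (tendsto_finsetSum univ fun i _ => (hω i).mul ((hθ x i).pow 2)).congr' ?_
    filter_upwards [hpos] with h hp
    refine sum_congr rfl fun i _ => ?_
    simp only [ω, nsmul_eq_mul]
    push_cast
    field_simp
  have hw : ∀ x j, Tendsto (fun h => 2 * ⟪ξ x h, D.w j⟫) atTop (𝓝 (2 * ⟪(x : E d), D.w j⟫)) :=
    fun x j => ((hξ x).inner (𝕜 := ℝ) tendsto_const_nhds).const_mul 2
  have hpk : ∀ x : Λ, Peak atTop v x (ξ x) := by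
    intro x
    obtain ⟨C, h1⟩ := ((hθ2 x).add (tendsto_finsetSum univ fun j _ =>
      (hw x j).pow 2)).isBoundedUnder_le
    rw [eventually_map] at h1
    refine ⟨hξ x, fun h => Sum.elim (fun p => m x p.1) fun _ => 0, C, ?_, ?_⟩
    · filter_upwards [h1] with h hh
      refine le_trans (le_of_eq ?_) hh
      rw [← hsum h (fun i => θ x h i ^ 2)]
      exact sum_congr rfl fun i _ => by rcases i with p | j <;> simp [v, θ]
    · have h2 := (tendsto_finsetSum univ fun i _ => ((hω i).mul (hθ x i)).smul (hu4 i)).add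
        (hinv.smul (tendsto_finsetSum univ fun j _ => (hw x j).smul_const (D.w j)))
      have e : ∑ i, (D.μ i * (2 * ⟪(x : E d), D.η i⟫)) • D.a i = 0 := by
        refine ext_inner_left ℝ fun y => ?_
        have := congrArg (fun z => 2 * ⟪(x : E d), z⟫) (D.orth y)
        simp only [inner_sum, real_inner_smul_right, inner_zero_right, mul_zero, mul_sum] at this ⊢
        rw [← this]
        exact sum_congr rfl fun i _ => by rw [real_inner_comm y]; ring
      rw [e, zero_smul, add_zero] at h2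
      refine h2.congr' ?_
      filter_upwards [hpos] with h hp
      have := hsum h (fun i => θ x h i • u h i) (fun j => (2 * ⟪ξ x h, D.w j⟫) • D.w j)
      rw [sum_congr rfl fun i _ => show (2 * ⟪ξ x h, v h i⟫ -
        ((Sum.elim (fun p => m x p.1) fun _ => 0 : ι h → ℤ) i : ℝ)) • v h i =
        Sum.elim (fun p => θ x h p.1 • u h p.1) (fun j => (2 * ⟪ξ x h, D.w j⟫) • D.w j) i by
          rcases i with p | j <;> simp [v, θ], this, smul_add,
        smul_sum (s := (univ : Finset (Fin D.N)))]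
      congr 1
      refine sum_congr rfl fun i _ => ?_
      rw [← Nat.cast_smul_eq_nsmul ℝ, smul_smul, smul_smul]
      congr 1
      simp only [ω]
      change _ = (s h)⁻¹ * _ * _
      push_cast
      field_simp
  have hoff : OffPeak atTop v Λ := by
    intro x hx
    simp only [Λ, dualS, Set.mem_ofPred_eq, Set.forall_mem_range, not_forall, not_exists] at hx
    obtain ⟨i, hi⟩ := hx
    have hβ := circ_pos hi
    set β := ‖((2 * ⟪x, D.a i⟫ : ℝ) : UnitAddCircle)‖
    have h1 := (circ_cont.continuousAt (x := (x, D.a i))).eventually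
      (lt_mem_nhds (half_lt_self hβ))
    rw [nhds_prod_eq] at h1
    obtain ⟨pa, hpa, pb, hpb, h2⟩ := eventually_prod_iff.1 h1
    obtain ⟨ρ, hρ, h3⟩ := Metric.eventually_nhds_iff_ball.1 hpa
    refine ⟨ρ, hρ, fun R => ?_⟩
    have h4 : Tendsto (fun h => ω h i * s h ^ 2 * (β / 2) ^ 2) atTop atTop :=
      (Tendsto.pos_mul_atTop (D.μ_pos i) (hω i)
        ((tendsto_pow_atTop two_ne_zero).comp hsl)).atTop_mul_const (by positivity)
    filter_upwards [(hu4 i).eventually hpb, h4.eventually_ge_atTop R, hpos] with h h5 h6 hp y hy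
    refine h6.trans ?_
    have := hsum h (fun i => ‖((2 * ⟪y, u h i⟫ : ℝ) : UnitAddCircle)‖ ^ 2)
      (fun j => ‖((2 * ⟪y, D.w j⟫ : ℝ) : UnitAddCircle)‖ ^ 2)
    rw [Q, sum_congr rfl fun i _ => show ‖((2 * ⟪y, v h i⟫ : ℝ) : UnitAddCircle)‖ ^ 2 =
      Sum.elim (fun p => ‖((2 * ⟪y, u h p.1⟫ : ℝ) : UnitAddCircle)‖ ^ 2)
        (fun j => ‖((2 * ⟪y, D.w j⟫ : ℝ) : UnitAddCircle)‖ ^ 2) i by rcases i with p | j <;> rfl,
      this]
    refine le_trans ?_ (le_add_of_nonneg_right (sum_nonneg fun _ _ => sq_nonneg _))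
    refine le_trans ?_ (single_le_sum (f := fun i => (2 * t h i) •
      ‖((2 * ⟪y, u h i⟫ : ℝ) : UnitAddCircle)‖ ^ 2) (fun _ _ => by positivity) (mem_univ i))
    simp only [ω, nsmul_eq_mul]
    rw [div_mul_cancel₀ _ (by positivity)]
    push_cast
    gcongr
    exact (h2 (h3 y hy) h5).le
  have hlim : ∀ x : Λ, Tendsto (fun h => Phi (v h) (ξ x h)) atTop (𝓝 (mult D.μ D.η D.w x)) := by
    intro x
    have hp := pi_pos
    have a1 : Tendsto (fun h => ∏ p : (Σ i, Fin (2 * t h i)), cos (π * θ x h p.1) -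
        exp (-(π ^ 2 * ∑ i, (2 * t h i) • θ x h i ^ 2) / 2)) atTop (𝓝 0) := by
      have b1 := ((tendsto_finsetSum univ fun i _ => ((hθ0 x i).const_mul π).abs).const_mul 2).mul
        ((hθ2 x).const_mul (π ^ 2))
      simp only [mul_zero, abs_zero, sum_const_zero, zero_mul] at b1
      refine squeeze_zero_norm (fun h => ?_) b1
      have := prod_cos_approx (ι := (Σ i, Fin (2 * t h i))) (fun _ => 0) (fun p => π * θ x h p.1)
        (m := ∑ i, |π * θ x h i|) fun p =>
          single_le_sum (f := fun i => |π * θ x h i|) (fun _ _ => abs_nonneg _) (mem_univ p.1)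
      have e : ∑ p : (Σ i, Fin (2 * t h i)), (π * θ x h p.1) ^ 2 =
          π ^ 2 * ∑ i, (2 * t h i) • θ x h i ^ 2 := by
        simp [Fintype.sum_sigma, mul_sum, mul_pow, mul_left_comm]
      simpa [e] using this
    have a2 := a1.add ((((hθ2 x).const_mul (π ^ 2)).neg.div_const 2).rexp)
    simp only [sub_add_cancel, zero_add] at a2
    have a3 := (((Phi_cont D.w).tendsto _).comp (hξ x)).mul a2
    have e : -(π ^ 2 * ∑ i, D.μ i * (2 * ⟪(x : E d), D.η i⟫) ^ 2) / 2 =
        -(2 * π ^ 2) * ∑ i, D.μ i * ⟪(x : E d), D.η i⟫ ^ 2 := by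
      rw [mul_sum, mul_sum, neg_div, sum_div, ← sum_neg_distrib]
      exact sum_congr rfl fun i _ => by ring
    rw [e] at a3
    refine a3.congr fun h => ?_
    simp only [Phi, Function.comp, v, ι, Fintype.prod_sum_type, Sum.elim_inl, Sum.elim_inr,
      Fintype.prod_sigma, prod_const, card_univ, Fintype.card_fin]
    rw [mul_comm]
    congr 1
    refine prod_congr rfl fun i _ => ?_
    rw [show 2 * π * ⟪ξ x h, u h i⟫ = π * θ x h i + m x i * π by simp only [θ]; ring,
      cos_add_int_mul_pi, mul_pow, pow_mul, pow_mul, ← zpow_natCast ((-1 : ℝ) ^ m x i),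
      ← _root_.zpow_mul, mul_comm (m x i), _root_.zpow_mul]
    simp
  have h1 := MAT (fun h i => (hv h i).le) hsl (M_posDef D) hM (sep_D D) hpk hoff hg hB
  have h2 := (tendsto_tsum_of_dominated_convergence (f := fun h (x : Λ) => g x * Phi (v h) (ξ x h))
    ((sep_D D).summable.mul_left B) (fun x => (hlim x).const_mul (g x))
    (Eventually.of_forall fun h x => by
      rw [Real.norm_eq_abs, abs_mul]
      exact (mul_le_of_le_one_right (abs_nonneg _) (abs_Phi_le_one _ _)).trans (hB _))).const_mul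
        (cM D.M)
  have h3 := h1.add h2
  rw [zero_add] at h3
  exact ⟨t, v, hv, hcard, h3.congr fun h => by rw [← hs]; exact sub_add_cancel _ _⟩

lemma sqrt_pow_eq {x : ℝ} (hx : 0 ≤ x) (d : ℕ) : √x ^ d = x ^ ((d : ℝ) / 2) := by
  rw [sqrt_eq_rpow, ← rpow_natCast, ← rpow_mul hx]
  congr 1; ring

lemma eventually_parity {P : ℕ → Prop} {k p : ℕ} (hk : k % 2 = p % 2)
    (h : ∀ᶠ j in atTop, P (2 * j + k)) : ∀ᶠ n in atTop ⊓ 𝓟 {n | n % 2 = p % 2}, P n := by
  obtain ⟨j0, hj⟩ := eventually_atTop.1 h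
  rw [eventually_inf_principal, eventually_atTop]
  refine ⟨2 * j0 + k, fun n hn hp => ?_⟩
  have hp' : n % 2 = p % 2 := hp
  have := hj ((n - k) / 2) (by omega)
  rwa [show 2 * ((n - k) / 2) + k = n by omega] at this

lemma sum_sgn_even (h : ℕ) (ε : Fin (2 * h) → Bool) : ∃ j : ℤ, ∑ i, sgn (ε i) = 2 * j := by
  refine ⟨∑ i, (if ε i then 1 else 0) - h, ?_⟩
  have : ∀ i, sgn (ε i) = 2 * (if ε i then 1 else 0) - 1 := fun i => by
    cases ε i <;> norm_num [sgn]
  simp_rw [this]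
  rw [sum_sub_distrib, ← mul_sum]
  simp; ring

lemma F_blocked {k : ℕ} {r : ℝ} (hb : Blocked d k r) (h : ℕ) : F d r (2 * h + k) = 0 := by
  obtain ⟨a, w, ha, hw, hb⟩ := hb
  refine le_antisymm ((F_le (ι := Fin (2 * h) ⊕ Fin k) (v := Sum.elim (fun _ => a) w)
    (by rintro (i | i); exacts [ha, hw i]) (by simp) r).trans (le_of_eq ?_)) (F_nonneg _ _ _)
  rw [Ex, sum_eq_zero, zero_div]
  intro ε _
  obtain ⟨j, hj⟩ := sum_sgn_even h fun i => ε (Sum.inl i)
  rw [if_neg]
  simp only [Fintype.sum_sum_type, Sum.elim_inl, Sum.elim_inr, ← sum_smul, hj]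
  exact not_le.2 (hb j fun i => ε (Sum.inr i))

theorem upper (d p : ℕ) (r : ℝ) :
    limsup (fun n : ℕ => ENNReal.ofReal ((n : ℝ) ^ ((d : ℝ) / 2) * F d r n))
      (atTop ⊓ 𝓟 {n | n % 2 = p % 2}) ≤ Gam d p r := by
  unfold Gam
  split_ifs with hb
  · obtain ⟨k, hk, hb⟩ := hb
    exact limsup_le_of_le (by isBoundedDefault) (eventually_parity hk
      (Eventually.of_forall fun h => by simp [F_blocked hb h]))
  refine le_iInf fun ⟨D, hD⟩ => ge_of_tendsto' (val_tendsto D r) fun j => ?_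
  have hr : 0 ≤ r := by
    by_contra hr
    obtain ⟨i, -⟩ : (univ : Finset (Fin D.N)).Nonempty := by
      have := D.μ_sum
      rw [nonempty_iff_ne_empty]; intro h; rw [h] at this; simp at this
    exact hb ⟨D.k, hD, D.a i, D.w, D.a_unit i, D.w_unit, fun _ _ =>
      (not_le.1 hr).trans_le (norm_nonneg _)⟩
  have hj : 0 < 1 / ((j : ℝ) + 1) := by positivity
  obtain ⟨φ, g, C, h, h0, h1, h2, h3⟩ := exists_bump (d := d) (s := r + 1 / ((j : ℝ) + 1) / 2)
    (r := r + 1 / ((j : ℝ) + 1)) (by positivity) (by linarith)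
  refine le_trans ?_ (FV_le_val D h h0 h1 h3)
  obtain ⟨t, v, hv, hc, hl⟩ := realise_seq D h.cg h.dec
  refine le_of_forall_gt_imp_ge_of_dense fun x hx => ?_
  refine limsup_le_of_le (by isBoundedDefault) (eventually_parity hD ?_)
  filter_upwards [((ENNReal.continuous_ofReal.tendsto _).comp hl).eventually (gt_mem_nhds hx)]
    with n hn
  refine le_trans (ENNReal.ofReal_le_ofReal ?_) hn.le
  beta_reduce
  rw [sqrt_pow_eq (Nat.cast_nonneg _), ← h.Ex_eq]
  refine mul_le_mul_of_nonneg_left ((F_le (hv n) (hc n) r).trans (Ex_mono _ fun y => ?_))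
    (by positivity)
  split_ifs with hy
  · exact (h2 y (by linarith)).ge
  · exact h0 y

end Pool.Agent.Lib.MP_3b7d13_co.Var
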