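import Pool.Agent.Lib.MP_3b7d13_co.VarMAT
import Pool.Agent.Lib.MP_3b7d13_co.VarPoisson
import Pool.Agent.Lib.MP_3b7d13_co.VarDefs

/-! The value of a datum and its Fourier expression. -/

namespace Pool.Agent.Lib.MP_3b7d13_co.Var

open Real Finset MeasureTheory Metric Filter Topology Matrix ProbabilityTheory
open scoped RealInnerProductSpace

variable {d : ℕ}

lemma mom_posDef {ι : Type*} [Fintype ι] {μ : ι → ℝ} {a : ι → E d} (hμ : ∀ i, 0 < μ i)
    (hs : Submodule.span ℝ (Set.range a) = ⊤) : (mom μ a).PosDef := by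
  refine posDef_of_qm (mom_herm _ _) fun ζ hζ => ?_
  rw [qm_mom]
  by_contra h
  have h0 : ∀ i ∈ univ, 0 ≤ μ i * ⟪ζ, a i⟫ ^ 2 := fun i _ => mul_nonneg (hμ i).le (sq_nonneg _)
  have h1 := (sum_eq_zero_iff_of_nonneg h0).1 (le_antisymm (not_lt.1 h) (sum_nonneg h0))
  refine hζ (eq_zero_of_span hs ?_)
  rintro _ ⟨i, rfl⟩
  simpa [(hμ i).ne'] using h1 i (mem_univ i)

lemma span_top_of_posDef {ι : Type*} [Fintype ι] {μ : ι → ℝ} {a : ι → E d}
    (h : (mom μ a).PosDef) : Submodule.span ℝ (Set.range a) = ⊤ := by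
  rw [← Submodule.orthogonal_eq_bot_iff, Submodule.eq_bot_iff]
  intro x hx
  by_contra h0
  have := qm_pos h h0
  rw [qm_mom, sum_eq_zero] at this
  · exact lt_irrefl _ this
  intro i _
  rw [Submodule.inner_left_of_mem_orthogonal (Submodule.subset_span (Set.mem_range_self i)) hx]
  simp

/-- The Fourier multiplier of special vectors and Gaussian drift. -/
noncomputable def mult {ι κ : Type*} [Fintype ι] [Fintype κ] (μ : ι → ℝ) (η : ι → E d)
    (w : κ → E d) (x : E d) : ℝ :=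
  Phi w x * exp (-(2 * π ^ 2) * ∑ i, μ i * ⟪x, η i⟫ ^ 2)

noncomputable def FV (D : Datum d) (g : E d → ℝ) : ℝ :=
  cM D.M * ∑' x : dualS (Set.range D.a), g x * mult D.μ D.η D.w x

lemma abs_mult_le {ι κ : Type*} [Fintype ι] [Fintype κ] {μ : ι → ℝ} (hμ : ∀ i, 0 ≤ μ i)
    (η : ι → E d) (w : κ → E d) (x : E d) : |mult μ η w x| ≤ 1 := by
  rw [mult, abs_mul, abs_of_pos (exp_pos _)]
  refine mul_le_one₀ (abs_Phi_le_one _ _) (exp_pos _).le (exp_le_one_iff.2 ?_)
  have : 0 ≤ ∑ i, μ i * ⟪x, η i⟫ ^ 2 := sum_nonneg fun i _ => mul_nonneg (hμ i) (sq_nonneg _)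
  nlinarith [sq_nonneg π]

lemma Sep.countable {Λ : Set (E d)} (h : Sep Λ) : Countable Λ := by
  have := h.summable.countable_support
  rw [← Set.countable_univ_iff]
  exact this.mono fun x _ => (wt_pos _).ne'

variable (D : Datum d)

instance : DiscreteTopology D.L := D.discrete

instance : IsZLattice ℝ D.L :=
  ⟨by rw [Datum.L, Submodule.span_span_of_tower, D.spans]⟩

lemma M_posDef : D.M.PosDef := mom_posDef D.μ_pos D.spans

lemma sep_D : Sep (dualS (Set.range D.a)) :=
  sep_dualS (by rintro _ ⟨i, rfl⟩; exact (D.a_unit i).le) D.spans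

noncomputable def pos (ε : Fin D.k → Bool) (g : Fin D.N → ℝ) : E d :=
  ∑ j, sgn (ε j) • D.w j + ∑ i, (√(D.μ i) * g i) • D.η i

lemma pos_cont (ε : Fin D.k → Bool) : Continuous (pos D ε) := by unfold pos; fun_prop

noncomputable def pref : ℝ :=
  (2 / π) ^ ((d : ℝ) / 2) * ZLattice.covolume D.L volume / √D.M.det

lemma pref_pos : 0 < pref D := by
  have := ZLattice.covolume_pos D.L (volume : Measure (E d))
  have := (M_posDef D).det_pos
  have := pi_pos
  unfold pref; positivity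

noncomputable def gam (N : ℕ) : Measure (Fin N → ℝ) := Measure.pi fun _ => gaussianReal 0 1

instance (N : ℕ) : IsProbabilityMeasure (gam N) := by unfold gam; infer_instance

lemma per_eq {φ g : E d → ℝ} {C : ℝ} (h : TP φ g C) (y : E d) :
    ∑' x : D.L, φ ((2 : ℝ) • (x : E d) + y) = (2 ^ d * ZLattice.covolume D.L volume)⁻¹ *
      ∑' x : dualS (Set.range D.a), g x * cos (2 * π * ⟪(x : E d), y⟫) := by
  have e : dualS (D.L : Set (E d)) = dualS (Set.range D.a) := dualS_span _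
  have := (poisson D.L (e ▸ sep_D D) h y).tsum_eq
  rw [e] at this
  have hc := ZLattice.covolume_pos D.L (volume : Measure (E d))
  rw [this]
  field_simp

lemma FV_eq {φ g : E d → ℝ} {C : ℝ} (h : TP φ g C) :
    (∀ ε, Integrable (fun t => ∑' x : D.L, φ ((2 : ℝ) • (x : E d) + pos D ε t)) (gam D.N)) ∧
    FV D g = pref D * ((∑ ε, ∫ t, ∑' x : D.L, φ ((2 : ℝ) • (x : E d) + pos D ε t) ∂(gam D.N)) /
      2 ^ D.k) := by
  have := (sep_D D).countable
  have hs := (sep_D D).summable.mul_left C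
  have hb : ∀ (x : dualS (Set.range D.a)) (y : E d),
      ‖g x * cos (2 * π * ⟪(x : E d), y⟫)‖ ≤ C * wt (x : E d) := fun x y => by
    rw [Real.norm_eq_abs, abs_mul]
    exact (mul_le_of_le_one_right (abs_nonneg _) (abs_cos_le_one _)).trans (h.dec _)
  have hc : Continuous fun y : E d =>
      ∑' x : dualS (Set.range D.a), g x * cos (2 * π * ⟪(x : E d), y⟫) :=
    continuous_tsum (fun x => by fun_prop) hs hb
  simp_rw [per_eq D h]
  refine ⟨fun ε => Integrable.const_mul (Integrable.of_bound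
    (hc.comp (pos_cont D ε)).aestronglyMeasurable _
    (ae_of_all _ fun t => tsum_of_norm_bounded hs.hasSum fun x => hb x _)) _, ?_⟩
  have hi : ∀ ε, HasSum (fun x : dualS (Set.range D.a) =>
      g x * (cos (2 * π * ⟪(x : E d), ∑ j, sgn (ε j) • D.w j⟫) *
        exp (-(2 * π ^ 2) * ∑ i, D.μ i * ⟪(x : E d), D.η i⟫ ^ 2)))
      (∫ t, ∑' x : dualS (Set.range D.a), g x * cos (2 * π * ⟪(x : E d), pos D ε t⟫)
        ∂(gam D.N)) := by
    intro ε
    have hint : ∀ x : dualS (Set.range D.a),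
        Integrable (fun t => g x * cos (2 * π * ⟪(x : E d), pos D ε t⟫)) (gam D.N) := fun x =>
      Integrable.of_bound (Continuous.aestronglyMeasurable (by
        have := pos_cont D ε
        fun_prop)) _ (ae_of_all _ fun t => hb x _)
    have := hasSum_integral_of_summable_integral_norm hint
      (Summable.of_nonneg_of_le (fun x => integral_nonneg fun t => norm_nonneg _) (fun x => by
        simpa using integral_mono (hint x).norm (integrable_const (C * wt (x : E d)))
          fun t => hb x _) hs)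
    refine (congrArg (fun u => HasSum u _) (funext fun x => ?_)).mp this
    rw [integral_const_mul]
    congr 1
    have e := integral_cos_gauss (2 * π * ⟪(x : E d), ∑ j, sgn (ε j) • D.w j⟫)
      fun i => 2 * π * √(D.μ i) * ⟪(x : E d), D.η i⟫
    have e1 : ∀ t, 2 * π * ⟪(x : E d), pos D ε t⟫ = 2 * π * ⟪(x : E d), ∑ j, sgn (ε j) • D.w j⟫ +
        ∑ i, 2 * π * √(D.μ i) * ⟪(x : E d), D.η i⟫ * t i := fun t => by
      rw [pos, inner_add_right, mul_add, inner_sum _ (fun i => (√(D.μ i) * t i) • D.η i), mul_sum]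
      congr 1
      exact sum_congr rfl fun i _ => by rw [real_inner_smul_right]; ring
    simp_rw [e1]
    rw [gam, e]
    congr 2
    rw [mul_sum, neg_div, sum_div, ← sum_neg_distrib]
    refine sum_congr rfl fun i _ => ?_
    rw [mul_pow, mul_pow, sq_sqrt (D.μ_pos i).le]; ring
  simp_rw [integral_const_mul]
  rw [← mul_sum, ← (hasSum_sum fun ε (_ : ε ∈ univ) => hi ε).tsum_eq]
  have e2 : ∀ x : dualS (Set.range D.a), ∑ ε : Fin D.k → Bool,
      g x * (cos (2 * π * ⟪(x : E d), ∑ j, sgn (ε j) • D.w j⟫) *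
        exp (-(2 * π ^ 2) * ∑ i, D.μ i * ⟪(x : E d), D.η i⟫ ^ 2)) =
      2 ^ D.k * (g x * mult D.μ D.η D.w x) := fun x => by
    have := avg_cos D.w (x : E d) 0
    simp only [zero_add, cos_zero, one_mul, Fintype.card_fin] at this
    rw [← mul_sum, ← sum_mul, this, mult]; ring
  simp_rw [e2]
  rw [tsum_mul_left, FV, cM, pref]
  have hc := ZLattice.covolume_pos D.L (volume : Measure (E d))
  have hp := pi_pos
  have e3 : (2 / π) ^ ((d : ℝ) / 2) = 2 ^ d * (2 * π) ^ (-((d : ℝ) / 2)) := by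
    rw [show 2 / π = 2 ^ 2 * (2 * π)⁻¹ by field_simp, mul_rpow (by positivity) (by positivity),
      inv_rpow (by positivity), rpow_neg (by positivity), ← rpow_natCast, ← rpow_natCast,
      ← rpow_mul (by norm_num)]
    congr 2
    push_cast; ring
  rw [e3]
  field_simp

lemma count_eq (r : ℝ) (ε : Fin D.k → Bool) (t : Fin D.N → ℝ) :
    D.count r ε t = ∑' x : D.L, {x : D.L | ‖(2 : ℝ) • (x : E d) + pos D ε t‖ ≤ r}.indicator 1 x := by
  rw [← _root_.tsum_subtype]
  simp only [Pi.one_apply]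
  rw [ENNReal.tsum_set_one, Datum.count, ← Subtype.val_injective.encard_image]
  congr 2
  ext x
  simp only [Set.mem_ofPred_eq, Set.mem_image, Subtype.exists, exists_and_right, exists_eq_right,
    pos, add_assoc]
  tauto

lemma count_meas (r : ℝ) (ε : Fin D.k → Bool) : Measurable (D.count r ε) := by
  have : Countable D.L :=
    Countable.of_equiv _ (Module.Free.chooseBasis ℤ D.L).equivFun.toEquiv.symm
  rw [funext (count_eq D r ε)]
  refine Measurable.tsum fun x => ?_
  have hm : MeasurableSet {t | ‖(2 : ℝ) • (x : E d) + pos D ε t‖ ≤ r} :=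
    measurableSet_le (Continuous.measurable (by have := pos_cont D ε; fun_prop)) measurable_const
  exact measurable_const.indicator hm

lemma val_eq (r : ℝ) :
    D.val r = ENNReal.ofReal (pref D) * ((∑ ε, ∫⁻ t, D.count r ε t ∂(gam D.N)) / 2 ^ D.k) := by
  rw [Datum.val, ← lintegral_finsetSum _ fun ε _ => count_meas D r ε]
  simp_rw [div_eq_mul_inv (_ : ENNReal)]
  rw [lintegral_mul_const _ (Finset.measurable_sum _ fun ε _ => count_meas D r ε)]
  rfl

lemma per_finite (R : ℝ) (y : E d) : {x : D.L | ‖(2 : ℝ) • (x : E d) + y‖ ≤ R}.Finite := by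
  refine (lattice_finite D.L (|R| + ‖y‖)).subset fun x hx => ?_
  have a2 := norm_sub_le ((2 : ℝ) • (x : E d) + y) y
  rw [add_sub_cancel_right, norm_smul, Real.norm_two] at a2
  have hx' : ‖(2 : ℝ) • (x : E d) + y‖ ≤ R := hx
  change ‖(x : E d)‖ ≤ |R| + ‖y‖
  linarith [le_abs_self R, abs_nonneg R, norm_nonneg y]

lemma ofReal_FV {φ g : E d → ℝ} {C : ℝ} (h : TP φ g C) (h0 : ∀ x, 0 ≤ φ x) :
    ENNReal.ofReal (FV D g) = ENNReal.ofReal (pref D) * ((∑ ε, ∫⁻ t,
      ∑' x : D.L, ENNReal.ofReal (φ ((2 : ℝ) • (x : E d) + pos D ε t)) ∂(gam D.N)) / 2 ^ D.k) := by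
  obtain ⟨h1, h2⟩ := FV_eq D h
  obtain ⟨R, hR⟩ := h.supp.isCompact.isBounded.subset_closedBall 0
  have hs : ∀ y : E d, Summable fun x : D.L => φ ((2 : ℝ) • (x : E d) + y) := fun y =>
    summable_of_hasFiniteSupport ((per_finite D R y).subset fun x hx =>
      mem_closedBall_zero_iff.1 (hR (subset_tsupport _ hx)))
  rw [h2, ENNReal.ofReal_mul (pref_pos D).le, ENNReal.ofReal_div_of_pos (by positivity),
    ENNReal.ofReal_sum_of_nonneg fun ε _ => integral_nonneg fun t => tsum_nonneg fun x => h0 _,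
    ENNReal.ofReal_pow (by norm_num), ENNReal.ofReal_ofNat]
  congr 2
  refine sum_congr rfl fun ε _ => ?_
  rw [ofReal_integral_eq_lintegral_ofReal (h1 ε)
    (ae_of_all _ fun t => tsum_nonneg fun x => h0 _)]
  exact lintegral_congr fun t => ENNReal.ofReal_tsum_of_nonneg (fun x => h0 _) (hs _)

lemma FV_le_val {φ g : E d → ℝ} {C r : ℝ} (h : TP φ g C) (h0 : ∀ x, 0 ≤ φ x) (h1 : ∀ x, φ x ≤ 1)
    (h2 : ∀ x, r ≤ ‖x‖ → φ x = 0) : ENNReal.ofReal (FV D g) ≤ D.val r := by
  rw [ofReal_FV D h h0, val_eq]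
  gcongr with ε _ t
  rw [count_eq]
  refine ENNReal.tsum_le_tsum fun x => ?_
  by_cases hx : ‖(2 : ℝ) • (x : E d) + pos D ε t‖ ≤ r
  · rw [Set.indicator_of_mem (by exact hx)]
    exact ENNReal.ofReal_le_one.2 (h1 _)
  · rw [h2 _ (not_le.1 hx).le]; simp

lemma val_le_FV {φ g : E d → ℝ} {C s : ℝ} (h : TP φ g C) (h0 : ∀ x, 0 ≤ φ x)
    (h2 : ∀ x, ‖x‖ ≤ s → φ x = 1) : D.val s ≤ ENNReal.ofReal (FV D g) := by
  rw [ofReal_FV D h h0, val_eq]
  gcongr with ε _ t
  rw [count_eq]
  refine ENNReal.tsum_le_tsum fun x => ?_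
  by_cases hx : ‖(2 : ℝ) • (x : E d) + pos D ε t‖ ≤ s
  · rw [Set.indicator_of_mem (by exact hx), h2 _ hx]; simp
  · rw [Set.indicator_of_notMem (by exact hx)]; simp

lemma count_mono {r s : ℝ} (h : r ≤ s) (ε : Fin D.k → Bool) (t : Fin D.N → ℝ) :
    D.count r ε t ≤ D.count s ε t := by
  unfold Datum.count
  refine ENat.toENNReal_le.2 (Set.encard_le_encard fun x hx => ?_)
  exact ⟨hx.1, hx.2.trans h⟩

lemma val_mono {r s : ℝ} (h : r ≤ s) : D.val r ≤ D.val s := by
  rw [val_eq, val_eq]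
  gcongr with ε _ t
  exact count_mono D h ε t

lemma val_tendsto (r : ℝ) :
    Tendsto (fun j : ℕ => D.val (r + 1 / ((j : ℝ) + 1))) atTop (𝓝 (D.val r)) := by
  have hle : ∀ j : ℕ, r + 1 / ((j : ℝ) + 1) ≤ |r| + 1 := fun j => by
    have : 1 / ((j : ℝ) + 1) ≤ 1 := by
      rw [div_le_one (by positivity)]; linarith [Nat.cast_nonneg (α := ℝ) j]
    linarith [le_abs_self r]
  obtain ⟨φ, g, C, h, h0, -, h2, -⟩ := exists_bump (d := d) (s := |r| + 1) (r := |r| + 2)
    (by positivity) (by linarith)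
  have hfin : ∀ ε, ∫⁻ t, D.count (|r| + 1) ε t ∂(gam D.N) ≠ ⊤ := by
    have h3 := (val_le_FV D h h0 h2).trans_lt ENNReal.ofReal_lt_top
    rw [val_eq] at h3
    intro ε he
    have : ∑ ε, ∫⁻ t, D.count (|r| + 1) ε t ∂(gam D.N) = ⊤ :=
      top_unique (he ▸ single_le_sum (f := fun ε => ∫⁻ t, D.count (|r| + 1) ε t ∂(gam D.N))
        (fun _ _ => zero_le) (mem_univ ε))
    rw [this, ENNReal.top_div_of_ne_top (by simp),
      ENNReal.mul_top (by simpa using pref_pos D)] at h3
    exact lt_irrefl _ h3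
  simp_rw [val_eq]
  refine ENNReal.Tendsto.const_mul (ENNReal.Tendsto.div_const
    (tendsto_finsetSum _ fun ε _ => ?_) (Or.inr (by simp))) (Or.inr (by simp))
  refine tendsto_lintegral_of_dominated_convergence (D.count (|r| + 1) ε)
    (fun j => count_meas D _ ε) (fun j => ae_of_all _ fun t => count_mono D (hle j) ε t) (hfin ε)
    (ae_of_all _ fun t => tendsto_const_nhds.congr' ?_)
  have ht : Tendsto (fun j : ℕ => r + 1 / ((j : ℝ) + 1)) atTop (𝓝 r) := by
    simpa using tendsto_one_div_add_atTop_nhds_zero_nat.const_add r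
  have := (eventually_all_finite (per_finite D (|r| + 1) (pos D ε t))
    (p := fun x (j : ℕ) => ‖(2 : ℝ) • (x : E d) + pos D ε t‖ ≤ r + 1 / ((j : ℝ) + 1) →
      ‖(2 : ℝ) • (x : E d) + pos D ε t‖ ≤ r) (l := atTop)).2 fun x _ => by
        by_cases hx : ‖(2 : ℝ) • (x : E d) + pos D ε t‖ ≤ r
        · exact Eventually.of_forall fun j _ => hx
        · filter_upwards [ht.eventually (gt_mem_nhds (not_le.1 hx))] with j hj hj'
          linarith
  filter_upwards [this] with j hj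
  rw [count_eq, count_eq]
  refine tsum_congr fun y => congrArg
    (fun s => Set.indicator s (1 : D.L → ENNReal) y) (Set.ext fun x => ?_)
  have hj0 : 0 ≤ 1 / ((j : ℝ) + 1) := by positivity
  simp only [Set.mem_ofPred_eq]
  exact ⟨fun hx => le_trans hx (le_add_of_nonneg_right hj0),
    fun hx => hj x (le_trans hx (hle j)) hx⟩

end Pool.Agent.Lib.MP_3b7d13_co.Var
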